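import Mathlib
import Pool.Agent.P.MP_e40812_co.Defs

-- part Pool.Agent.P.MP_e40812_co.Lin
section

/-!
Linear algebra in a real vector space of dimension three: small lemmas on dependence,
signs and perturbation used for counting faces of point sets in convex position.
-/

namespace Pool.Agent.P.MP_e40812_co

open Module

variable {V : Type*} [AddCommGroup V] [Module ℝ V]

lemma dep3 (hV : finrank ℝ V = 3) {φ : V →ₗ[ℝ] ℝ} (hφ : φ ≠ 0) {u₁ u₂ u₃ : V}
    (h₁ : φ u₁ = 0) (h₂ : φ u₂ = 0) (h₃ : φ u₃ = 0) :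
    ∃ c₁ c₂ c₃ : ℝ, (c₁ ≠ 0 ∨ c₂ ≠ 0 ∨ c₃ ≠ 0) ∧ c₁ • u₁ + c₂ • u₂ + c₃ • u₃ = 0 := by
  have : FiniteDimensional ℝ V := Module.finite_of_finrank_pos (by omega)
  have hk := Module.Dual.finrank_ker_add_one_of_ne_zero hφ
  let w : Fin 3 → LinearMap.ker φ := ![⟨u₁, h₁⟩, ⟨u₂, h₂⟩, ⟨u₃, h₃⟩]
  have hw : ¬ LinearIndependent ℝ w := by
    intro h
    have := h.fintype_card_le_finrank
    simp at this
    omega
  rw [Fintype.not_linearIndependent_iff] at hw
  obtain ⟨c, hc, i, hi⟩ := hw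
  refine ⟨c 0, c 1, c 2, ?_, ?_⟩
  · fin_cases i
    · exact Or.inl hi
    · exact Or.inr (Or.inl hi)
    · exact Or.inr (Or.inr hi)
  · have := congrArg Subtype.val hc
    simpa [Fin.sum_univ_three, w] using this

lemma sgn3 {c₁ c₂ c₃ a a' b b' d d' : ℝ} (ha : a < 0) (ha' : a' < 0) (hb : b < 0) (hb' : b' < 0)
    (hd : d < 0) (hd' : d' < 0) (h₁ : c₂ * a + c₃ * a' = 0) (h₂ : c₁ * b + c₃ * b' = 0)
    (h₃ : c₁ * d + c₂ * d' = 0) : c₁ = 0 ∧ c₂ = 0 ∧ c₃ = 0 := by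
  have h1 : c₁ = 0 := by
    rcases lt_trichotomy c₁ 0 with h | h | h
    · have h3 : 0 < c₃ := by
        by_contra hh
        push Not at hh
        nlinarith
      have h2 : 0 < c₂ := by
        by_contra hh
        push Not at hh
        nlinarith
      nlinarith
    · exact h
    · have h3 : c₃ < 0 := by
        by_contra hh
        push Not at hh
        nlinarith
      have h2 : c₂ < 0 := by
        by_contra hh
        push Not at hh
        nlinarith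
      nlinarith
  subst h1
  have h2 : c₂ = 0 := by
    have : c₂ * d' = 0 := by linarith
    exact (mul_eq_zero.1 this).resolve_right hd'.ne
  have h3 : c₃ = 0 := by
    have : c₃ * b' = 0 := by linarith
    exact (mul_eq_zero.1 this).resolve_right hb'.ne
  exact ⟨rfl, h2, h3⟩

/-- Three vectors of a plane cannot each be strictly separated from the other two. -/
lemma three_false (hV : finrank ℝ V = 3) {φ : V →ₗ[ℝ] ℝ} (hφ : φ ≠ 0) {u₁ u₂ u₃ : V}
    (h₁ : φ u₁ = 0) (h₂ : φ u₂ = 0) (h₃ : φ u₃ = 0) {χ₁ χ₂ χ₃ : V →ₗ[ℝ] ℝ}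
    (h11 : χ₁ u₁ = 0) (h12 : χ₁ u₂ < 0) (h13 : χ₁ u₃ < 0)
    (h21 : χ₂ u₁ < 0) (h22 : χ₂ u₂ = 0) (h23 : χ₂ u₃ < 0)
    (h31 : χ₃ u₁ < 0) (h32 : χ₃ u₂ < 0) (h33 : χ₃ u₃ = 0) : False := by
  obtain ⟨c₁, c₂, c₃, hne, hc⟩ := dep3 hV hφ h₁ h₂ h₃
  have e₁ := congrArg χ₁ hc
  have e₂ := congrArg χ₂ hc
  have e₃ := congrArg χ₃ hc
  simp only [map_add, map_smul, smul_eq_mul, map_zero, h11, h22, h33, mul_zero, zero_add,
    add_zero] at e₁ e₂ e₃
  obtain ⟨a, b, c⟩ := sgn3 h12 h13 h21 h23 h31 h32 e₁ e₂ e₃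
  rcases hne with h | h | h <;> contradiction

lemma kill_of_two (hV : finrank ℝ V = 3) {φ χ : V →ₗ[ℝ] ℝ} (hφ : φ ≠ 0) {u₁ u₂ u₃ : V}
    (hind : ∀ c₁ c₂ : ℝ, c₁ • u₁ + c₂ • u₂ = 0 → c₁ = 0 ∧ c₂ = 0)
    (h₁ : φ u₁ = 0) (h₂ : φ u₂ = 0) (h₃ : φ u₃ = 0) (k₁ : χ u₁ = 0) (k₂ : χ u₂ = 0) :
    χ u₃ = 0 := by
  obtain ⟨c₁, c₂, c₃, hne, hc⟩ := dep3 hV hφ h₁ h₂ h₃
  by_cases h3 : c₃ = 0
  · subst h3
    have := hind c₁ c₂ (by simpa using hc)
    rcases hne with h | h | h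
    · exact absurd this.1 h
    · exact absurd this.2 h
    · exact absurd rfl h
  · have e := congrArg χ hc
    simp only [map_add, map_smul, smul_eq_mul, map_zero, k₁, k₂, mul_zero, zero_add] at e
    exact (mul_eq_zero.1 e).resolve_left h3

lemma exists_dual_two (hV : finrank ℝ V = 3) (u v : V) :
    ∃ ψ : V →ₗ[ℝ] ℝ, ψ ≠ 0 ∧ ψ u = 0 ∧ ψ v = 0 := by
  classical
  have : FiniteDimensional ℝ V := Module.finite_of_finrank_pos (by omega)
  have hlt : Submodule.span ℝ (({u, v} : Finset V) : Set V) < ⊤ := by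
    rw [lt_top_iff_ne_top]
    intro h
    have h1 := finrank_span_finset_le_card (R := ℝ) ({u, v} : Finset V)
    have h2 : ({u, v} : Finset V).card ≤ 2 := Finset.card_le_two
    rw [Set.finrank, h, finrank_top] at h1
    omega
  obtain ⟨f, hf, hf'⟩ := Submodule.exists_dual_map_eq_bot_of_lt_top hlt inferInstance
  have key : ∀ x ∈ Submodule.span ℝ (({u, v} : Finset V) : Set V), f x = 0 := by
    intro x hx
    have : f x ∈ (Submodule.span ℝ (({u, v} : Finset V) : Set V)).map f :=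
      Submodule.mem_map_of_mem hx
    rw [hf'] at this
    simpa using this
  exact ⟨f, hf, key u (Submodule.subset_span (by simp)), key v (Submodule.subset_span (by simp))⟩

lemma exists_dual_sep {u v : V} (hind : ∀ c₁ c₂ : ℝ, c₁ • u + c₂ • v = 0 → c₁ = 0 ∧ c₂ = 0) :
    ∃ ψ : V →ₗ[ℝ] ℝ, 0 < ψ u ∧ ψ v = 0 := by
  have hu : u ∉ Submodule.span ℝ ({v} : Set V) := by
    rw [Submodule.mem_span_singleton]
    rintro ⟨a, ha⟩
    have := hind 1 (-a) (by rw [← ha]; simp)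
    simpa using this.1
  obtain ⟨f, hf, hf'⟩ := Submodule.exists_dual_map_eq_bot_of_notMem hu inferInstance
  have hv : f v = 0 := by
    have : f v ∈ (Submodule.span ℝ ({v} : Set V)).map f :=
      Submodule.mem_map_of_mem (Submodule.mem_span_singleton_self v)
    rw [hf'] at this
    simpa using this
  rcases lt_or_gt_of_ne hf with h | h
  · exact ⟨-f, by simpa using h, by simpa using hv⟩
  · exact ⟨f, h, hv⟩

lemma small_eps {ι : Type*} (Z : Finset ι) (a b : ι → ℝ) (h : ∀ z ∈ Z, a z < 0) :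
    ∃ ε : ℝ, 0 < ε ∧ ∀ z ∈ Z, a z + ε * b z < 0 := by
  have h1 : ∀ᶠ ε in nhdsWithin (0 : ℝ) (Set.Ioi 0), ∀ z ∈ Z, a z + ε * b z < 0 := by
    rw [Finset.eventually_all]
    intro z hz
    apply Filter.Eventually.filter_mono nhdsWithin_le_nhds
    have hc : Continuous fun ε : ℝ => a z + ε * b z := by fun_prop
    have : (fun ε : ℝ => a z + ε * b z) 0 < 0 := by simpa using h z hz
    exact hc.continuousAt.eventually_lt continuousAt_const this
  obtain ⟨ε, h2, h3⟩ := (h1.and self_mem_nhdsWithin).exists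
  exact ⟨ε, h3, h2⟩

lemma rotate {ι : Type*} (Z : Finset ι) (a b : ι → ℝ) (h : ∀ z ∈ Z, a z < 0)
    (hb : ∃ z ∈ Z, 0 < b z) :
    ∃ τ : ℝ, 0 < τ ∧ (∀ z ∈ Z, a z + τ * b z ≤ 0) ∧ ∃ z ∈ Z, 0 < b z ∧ a z + τ * b z = 0 := by
  classical
  have hne : (Z.filter fun z => 0 < b z).Nonempty := by
    obtain ⟨z, hz, hz'⟩ := hb
    exact ⟨z, Finset.mem_filter.2 ⟨hz, hz'⟩⟩
  obtain ⟨z₀, hz₀, hmin⟩ := Finset.exists_min_image _ (fun z => -a z / b z) hne
  obtain ⟨hz₀Z, hb₀⟩ := Finset.mem_filter.1 hz₀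
  have hpos : 0 < -a z₀ / b z₀ := div_pos (by linarith [h z₀ hz₀Z]) hb₀
  refine ⟨-a z₀ / b z₀, hpos, ?_, z₀, hz₀Z, hb₀, ?_⟩
  · intro z hz
    by_cases hbz : 0 < b z
    · have := hmin z (Finset.mem_filter.2 ⟨hz, hbz⟩)
      rw [le_div_iff₀ hbz] at this
      linarith
    · push Not at hbz
      have := h z hz
      nlinarith
  · field_simp
    ring

end Pool.Agent.P.MP_e40812_co
end

-- part Pool.Agent.P.MP_e40812_co.Hull
section

/-!
Finite point families in convex position in a three-dimensional real vector space: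
edges, facets and their incidence properties.
-/

namespace Pool.Agent.P.MP_e40812_co

open Module Finset

variable {V : Type*} [AddCommGroup V] [Module ℝ V] {ι : Type*}

/-- Every point of the family is an exposed point. -/
def Conv (pt : ι → V) (X : Finset ι) : Prop :=
  ∀ i ∈ X, ∃ ψ : V →ₗ[ℝ] ℝ, ∀ j ∈ X, j ≠ i → ψ (pt j) < ψ (pt i)

/-- The pair `i, j` is the exact maximum set of a linear functional. -/
def Edge (pt : ι → V) (X : Finset ι) (i j : ι) : Prop :=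
  i ∈ X ∧ j ∈ X ∧ i ≠ j ∧ ∃ φ : V →ₗ[ℝ] ℝ, φ (pt j) = φ (pt i) ∧
    ∀ k ∈ X, k ≠ i → k ≠ j → φ (pt k) < φ (pt i)

/-- `A` is the set where `φ` takes the value `c`, and `φ < c` elsewhere. -/
def Supp (pt : ι → V) (X : Finset ι) (φ : V →ₗ[ℝ] ℝ) (c : ℝ) (A : Finset ι) : Prop :=
  A ⊆ X ∧ (∀ i ∈ A, φ (pt i) = c) ∧ ∀ i ∈ X, i ∉ A → φ (pt i) < c

/-- Maximum set with at least three points of a nonzero functional. -/
def Facet (pt : ι → V) (X : Finset ι) (A : Finset ι) : Prop :=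
  3 ≤ A.card ∧ ∃ φ : V →ₗ[ℝ] ℝ, φ ≠ 0 ∧ ∃ c, Supp pt X φ c A

/-- The family does not lie in a plane. -/
def Full (pt : ι → V) (X : Finset ι) : Prop :=
  ∀ φ : V →ₗ[ℝ] ℝ, φ ≠ 0 → ∀ c : ℝ, ∃ i ∈ X, φ (pt i) ≠ c

variable {pt : ι → V} {X : Finset ι}

lemma Edge.symm {i j : ι} (h : Edge pt X i j) : Edge pt X j i := by
  obtain ⟨hi, hj, hij, φ, h1, h2⟩ := h
  exact ⟨hj, hi, hij.symm, φ, h1.symm, fun k hk hkj hki => h1 ▸ h2 k hk hki hkj⟩

lemma Supp.le {φ : V →ₗ[ℝ] ℝ} {c : ℝ} {A : Finset ι} (h : Supp pt X φ c A) {i : ι} (hi : i ∈ X) :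
    φ (pt i) ≤ c := by
  by_cases hA : i ∈ A
  · exact (h.2.1 i hA).le
  · exact (h.2.2 i hi hA).le

lemma Supp.mem {φ : V →ₗ[ℝ] ℝ} {c : ℝ} {A : Finset ι} (h : Supp pt X φ c A) {i : ι} (hi : i ∈ X)
    (hc : φ (pt i) = c) : i ∈ A := by
  by_contra hA
  exact (h.2.2 i hi hA).ne hc

lemma Facet.subset {A : Finset ι} (h : Facet pt X A) : A ⊆ X := by
  obtain ⟨-, φ, -, c, hs⟩ := h
  exact hs.1

lemma Conv.ne (hX : Conv pt X) {x y : ι} (hx : x ∈ X) (hy : y ∈ X) (hxy : x ≠ y) :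
    pt y - pt x ≠ 0 := by
  obtain ⟨ψ, hψ⟩ := hX x hx
  have := hψ y hy hxy.symm
  intro h
  rw [sub_eq_zero] at h
  rw [h] at this
  exact lt_irrefl _ this

lemma indep3 (hX : Conv pt X) {x p q : ι} (hx : x ∈ X) (hp : p ∈ X) (hq : q ∈ X)
    (hxp : x ≠ p) (hxq : x ≠ q) (hpq : p ≠ q) (c₁ c₂ : ℝ)
    (h : c₁ • (pt p - pt x) + c₂ • (pt q - pt x) = 0) : c₁ = 0 ∧ c₂ = 0 := by
  obtain ⟨a, ha⟩ := hX x hx
  obtain ⟨b, hb⟩ := hX p hp
  obtain ⟨d, hd⟩ := hX q hq
  have e₁ := congrArg a h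
  have e₂ := congrArg b h
  have e₃ := congrArg d h
  simp only [map_add, map_smul, map_sub, smul_eq_mul, map_zero] at e₁ e₂ e₃
  have := sgn3 (c₁ := -(c₁ + c₂)) (c₂ := c₁) (c₃ := c₂)
    (sub_neg.2 (ha p hp hxp.symm)) (sub_neg.2 (ha q hq hxq.symm))
    (sub_neg.2 (hb x hx hxp)) (sub_neg.2 (hb q hq hpq.symm))
    (sub_neg.2 (hd x hx hxq)) (sub_neg.2 (hd p hp hpq))
    (by linarith) (by linarith) (by linarith)
  exact ⟨this.2.1, this.2.2⟩

lemma facet_subset_of_three (hV : finrank ℝ V = 3) (hX : Conv pt X) {A B : Finset ι}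
    (hA : Facet pt X A) (hB : Facet pt X B) {x p q : ι} (hxA : x ∈ A) (hpA : p ∈ A)
    (hqA : q ∈ A) (hxB : x ∈ B) (hpB : p ∈ B) (hqB : q ∈ B)
    (hxp : x ≠ p) (hxq : x ≠ q) (hpq : p ≠ q) : A ⊆ B := by
  obtain ⟨-, φ, hφ, c, hs⟩ := hA
  obtain ⟨-, χ, hχ, e, ht⟩ := hB
  intro z hz
  have := kill_of_two hV (χ := χ) hφ (u₃ := pt z - pt x)
    (indep3 hX (hs.1 hxA) (hs.1 hpA) (hs.1 hqA) hxp hxq hpq)
    (by rw [map_sub, hs.2.1 p hpA, hs.2.1 x hxA, sub_self])
    (by rw [map_sub, hs.2.1 q hqA, hs.2.1 x hxA, sub_self])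
    (by rw [map_sub, hs.2.1 z hz, hs.2.1 x hxA, sub_self])
    (by rw [map_sub, ht.2.1 p hpB, ht.2.1 x hxB, sub_self])
    (by rw [map_sub, ht.2.1 q hqB, ht.2.1 x hxB, sub_self])
  rw [map_sub, ht.2.1 x hxB, sub_eq_zero] at this
  exact ht.mem (hs.1 hz) this

lemma facet_eq_of_three (hV : finrank ℝ V = 3) (hX : Conv pt X) {A B : Finset ι}
    (hA : Facet pt X A) (hB : Facet pt X B) {x p q : ι} (hxA : x ∈ A) (hpA : p ∈ A)
    (hqA : q ∈ A) (hxB : x ∈ B) (hpB : p ∈ B) (hqB : q ∈ B)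
    (hxp : x ≠ p) (hxq : x ≠ q) (hpq : p ≠ q) : A = B :=
  Subset.antisymm (facet_subset_of_three hV hX hA hB hxA hpA hqA hxB hpB hqB hxp hxq hpq)
    (facet_subset_of_three hV hX hB hA hxB hpB hqB hxA hpA hqA hxp hxq hpq)

lemma facet_inter_le [DecidableEq ι] (hV : finrank ℝ V = 3) (hX : Conv pt X) {A B : Finset ι}
    (hA : Facet pt X A) (hB : Facet pt X B) (hAB : A ≠ B) : (A ∩ B).card ≤ 2 := by
  by_contra h
  push Not at h
  obtain ⟨x, p, q, hx, hp, hq, hxp, hxq, hpq⟩ := two_lt_card_iff.1 h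
  rw [mem_inter] at hx hp hq
  exact hAB (facet_eq_of_three hV hX hA hB hx.1 hp.1 hq.1 hx.2 hp.2 hq.2 hxp hxq hpq)

lemma facet_not_subset (hV : finrank ℝ V = 3) (hX : Conv pt X) {A B : Finset ι}
    (hA : Facet pt X A) (hB : Facet pt X B) (hAB : A ≠ B) : ∃ z ∈ A, z ∉ B := by
  classical
  by_contra h
  push Not at h
  have h1 := facet_inter_le hV hX hA hB hAB
  rw [inter_eq_left.2 h] at h1
  have := hA.1
  omega

/-- In a planar subfamily every point has at most two edge neighbours. -/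
lemma three_edges_false (hV : finrank ℝ V = 3) {φ : V →ₗ[ℝ] ℝ} (hφ : φ ≠ 0) {w p q r : ι}
    (hp : φ (pt p) = φ (pt w)) (hq : φ (pt q) = φ (pt w)) (hr : φ (pt r) = φ (pt w))
    (ep : Edge pt X w p) (eq : Edge pt X w q) (er : Edge pt X w r)
    (hpq : p ≠ q) (hpr : p ≠ r) (hqr : q ≠ r) : False := by
  obtain ⟨-, hpX, hwp, a, ha, ha'⟩ := ep
  obtain ⟨-, hqX, hwq, b, hb, hb'⟩ := eq
  obtain ⟨-, hrX, hwr, d, hd, hd'⟩ := er
  refine three_false hV hφ (u₁ := pt p - pt w) (u₂ := pt q - pt w) (u₃ := pt r - pt w)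
    (χ₁ := a) (χ₂ := b) (χ₃ := d) ?_ ?_ ?_ ?_ ?_ ?_ ?_ ?_ ?_ ?_ ?_ ?_ <;> rw [map_sub]
  · rw [hp, sub_self]
  · rw [hq, sub_self]
  · rw [hr, sub_self]
  · rw [ha, sub_self]
  · exact sub_neg.2 (ha' q hqX hwq.symm hpq.symm)
  · exact sub_neg.2 (ha' r hrX hwr.symm hpr.symm)
  · exact sub_neg.2 (hb' p hpX hwp.symm hpq)
  · rw [hb, sub_self]
  · exact sub_neg.2 (hb' r hrX hwr.symm hqr.symm)
  · exact sub_neg.2 (hd' p hpX hwp.symm hpr)
  · exact sub_neg.2 (hd' q hqX hwq.symm hqr)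
  · rw [hd, sub_self]

open Classical in
lemma edge_nbrs_le_two (hV : finrank ℝ V = 3) {A : Finset ι} (hA : Facet pt X A) {w : ι}
    (hw : w ∈ A) : (A.filter fun p => Edge pt X w p).card ≤ 2 := by
  obtain ⟨-, φ, hφ, c, hs⟩ := hA
  by_contra h
  push Not at h
  obtain ⟨p, q, r, hp, hq, hr, hpq, hpr, hqr⟩ := two_lt_card_iff.1 h
  rw [mem_filter] at hp hq hr
  exact three_edges_false hV hφ (by rw [hs.2.1 p hp.1, hs.2.1 w hw])
    (by rw [hs.2.1 q hq.1, hs.2.1 w hw]) (by rw [hs.2.1 r hr.1, hs.2.1 w hw])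
    hp.2 hq.2 hr.2 hpq hpr hqr

lemma supp_sum_eq {φ : V →ₗ[ℝ] ℝ} {c : ℝ} {A : Finset ι} (hs : Supp pt X φ c A) {x : ι}
    (hx : x ∈ A) : φ (∑ z ∈ A, (pt z - pt x)) = 0 := by
  rw [map_sum]
  refine sum_eq_zero fun z hz => ?_
  rw [map_sub, hs.2.1 z hz, hs.2.1 x hx, sub_self]

lemma supp_sum_lt {φ : V →ₗ[ℝ] ℝ} {c : ℝ} {A B : Finset ι} (hs : Supp pt X φ c A) {x : ι}
    (hx : x ∈ A) (hB : B ⊆ X) (hne : ∃ z ∈ B, z ∉ A) : φ (∑ z ∈ B, (pt z - pt x)) < 0 := by
  rw [map_sum]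
  obtain ⟨z, hz, hzA⟩ := hne
  have : ∑ z ∈ B, φ (pt z - pt x) < ∑ _z ∈ B, (0 : ℝ) := by
    refine sum_lt_sum (fun y hy => ?_) ⟨z, hz, ?_⟩
    · rw [map_sub, hs.2.1 x hx]
      exact sub_nonpos.2 (hs.le (hB hy))
    · rw [map_sub, hs.2.1 x hx]
      exact sub_neg.2 (hs.2.2 z (hB hz) hzA)
  simpa using this

/-- Two points lie in at most two facets. -/
lemma three_facets_false (hV : finrank ℝ V = 3) (hX : Conv pt X) {A B C : Finset ι}
    (hA : Facet pt X A) (hB : Facet pt X B) (hC : Facet pt X C)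
    (hAB : A ≠ B) (hAC : A ≠ C) (hBC : B ≠ C) {x y : ι} (hxy : x ≠ y)
    (hxA : x ∈ A) (hyA : y ∈ A) (hxB : x ∈ B) (hyB : y ∈ B) (hxC : x ∈ C) (hyC : y ∈ C) :
    False := by
  have h1 := facet_not_subset hV hX hA hB hAB
  have h2 := facet_not_subset hV hX hA hC hAC
  have h3 := facet_not_subset hV hX hB hA hAB.symm
  have h4 := facet_not_subset hV hX hB hC hBC
  have h5 := facet_not_subset hV hX hC hA hAC.symm
  have h6 := facet_not_subset hV hX hC hB hBC.symm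
  obtain ⟨-, a, -, ca, ha⟩ := hA
  obtain ⟨-, b, -, cb, hb⟩ := hB
  obtain ⟨-, d, -, cd, hd⟩ := hC
  have hD : finrank ℝ (Module.Dual ℝ V) = 3 := by rw [Subspace.dual_finrank_eq, hV]
  have hne : Module.Dual.eval ℝ V (pt y - pt x) ≠ 0 := by
    rw [Ne, Module.eval_apply_eq_zero_iff]
    exact hX.ne (ha.1 hxA) (ha.1 hyA) hxy
  refine three_false hD hne (u₁ := a) (u₂ := b) (u₃ := d)
    (χ₁ := Module.Dual.eval ℝ V (∑ z ∈ A, (pt z - pt x)))
    (χ₂ := Module.Dual.eval ℝ V (∑ z ∈ B, (pt z - pt x)))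
    (χ₃ := Module.Dual.eval ℝ V (∑ z ∈ C, (pt z - pt x))) ?_ ?_ ?_ ?_ ?_ ?_ ?_ ?_ ?_ ?_ ?_ ?_ <;>
    rw [Module.Dual.eval_apply]
  · rw [map_sub, ha.2.1 x hxA, ha.2.1 y hyA, sub_self]
  · rw [map_sub, hb.2.1 x hxB, hb.2.1 y hyB, sub_self]
  · rw [map_sub, hd.2.1 x hxC, hd.2.1 y hyC, sub_self]
  · exact supp_sum_eq ha hxA
  · exact supp_sum_lt hb hxB ha.1 h1
  · exact supp_sum_lt hd hxC ha.1 h2
  · exact supp_sum_lt ha hxA hb.1 h3
  · exact supp_sum_eq hb hxB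
  · exact supp_sum_lt hd hxC hb.1 h4
  · exact supp_sum_lt ha hxA hd.1 h5
  · exact supp_sum_lt hb hxB hd.1 h6
  · exact supp_sum_eq hd hxC

lemma facet_of_rot {x y : ι} (hxy : Edge pt X x y) (m : V →ₗ[ℝ] ℝ) (hm : m (pt y) = m (pt x))
    (hp : ∃ z ∈ X, m (pt x) < m (pt z)) (hn : ∃ z ∈ X, m (pt z) < m (pt x)) :
    ∃ A, Facet pt X A ∧ x ∈ A ∧ y ∈ A ∧ (∃ z ∈ A, m (pt x) < m (pt z)) ∧
      ∀ z ∈ A, m (pt x) ≤ m (pt z) := by
  classical
  obtain ⟨hx, hy, hne, φ, h1, h2⟩ := hxy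
  have hZ : ∀ z, z ∈ (X.erase x).erase y ↔ z ∈ X ∧ z ≠ x ∧ z ≠ y := by
    intro z
    simp only [mem_erase]
    tauto
  obtain ⟨τ, hτ, hle, z₀, hz₀, hb, he⟩ := rotate ((X.erase x).erase y)
    (fun z => φ (pt z) - φ (pt x)) (fun z => m (pt z) - m (pt x))
    (fun z hz => by
      obtain ⟨a, b, c⟩ := (hZ z).1 hz
      exact sub_neg.2 (h2 z a b c))
    (by
      obtain ⟨z, hz, hz'⟩ := hp
      refine ⟨z, (hZ z).2 ⟨hz, ?_, ?_⟩, sub_pos.2 hz'⟩
      · rintro rfl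
        exact lt_irrefl _ hz'
      · rintro rfl
        exact hz'.ne hm.symm)
  obtain ⟨hz₀X, hz₀x, hz₀y⟩ := (hZ z₀).1 hz₀
  have hφle : ∀ z ∈ X, φ (pt z) ≤ φ (pt x) := by
    intro z hz
    by_cases a : z = x
    · rw [a]
    by_cases b : z = y
    · rw [b, h1]
    exact (h2 z hz a b).le
  let A := X.filter fun z => (φ + τ • m) (pt z) = (φ + τ • m) (pt x)
  have hA : ∀ z, z ∈ A ↔ z ∈ X ∧ φ (pt z) + τ * m (pt z) = φ (pt x) + τ * m (pt x) := by
    intro z
    simp [A]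
  have hxA : x ∈ A := (hA x).2 ⟨hx, rfl⟩
  have hyA : y ∈ A := (hA y).2 ⟨hy, by rw [h1, hm]⟩
  have hzA : z₀ ∈ A := (hA z₀).2 ⟨hz₀X, by linarith⟩
  refine ⟨A, ⟨?_, φ + τ • m, ?_, (φ + τ • m) (pt x), filter_subset _ _,
    fun i hi => (mem_filter.1 hi).2, fun i hi hiA => ?_⟩, hxA, hyA, ⟨z₀, hzA, by linarith⟩,
    fun z hz => ?_⟩
  · exact two_lt_card_iff.2 ⟨x, y, z₀, hxA, hyA, hzA, hne, hz₀x.symm, hz₀y.symm⟩
  · obtain ⟨z, hz, hz'⟩ := hn
    intro h0
    have e1 := LinearMap.congr_fun h0 (pt z - pt x)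
    simp only [LinearMap.add_apply, LinearMap.smul_apply, map_sub, smul_eq_mul,
      LinearMap.zero_apply] at e1
    have := hφle z hz
    nlinarith
  · have hix : i ≠ x := fun h => hiA (h ▸ hxA)
    have hiy : i ≠ y := fun h => hiA (h ▸ hyA)
    have e1 := hle i ((hZ i).2 ⟨hi, hix, hiy⟩)
    have e2 : ¬ (φ (pt i) + τ * m (pt i) = φ (pt x) + τ * m (pt x)) := fun h =>
      hiA ((hA i).2 ⟨hi, h⟩)
    simp only [LinearMap.add_apply, LinearMap.smul_apply, smul_eq_mul]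
    exact lt_of_le_of_ne (by linarith) e2
  · obtain ⟨hzX, e⟩ := (hA z).1 hz
    have := hφle z hzX
    by_contra hh
    push Not at hh
    nlinarith

/-- In a full-dimensional family every edge lies in two distinct facets. -/
lemma two_facets (hV : finrank ℝ V = 3) (hF : Full pt X) {x y : ι} (hxy : Edge pt X x y) :
    ∃ A B, Facet pt X A ∧ Facet pt X B ∧ A ≠ B ∧ x ∈ A ∧ y ∈ A ∧ x ∈ B ∧ y ∈ B := by
  obtain ⟨ψ₀, hψ₀, h0, -⟩ := exists_dual_two hV (pt y - pt x) 0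
  obtain ⟨z₀, hz₀, hz₀'⟩ := hF ψ₀ hψ₀ (ψ₀ (pt x))
  rw [map_sub, sub_eq_zero] at h0
  have hz₀x : z₀ ≠ x := by
    rintro rfl
    exact hz₀' rfl
  have hz₀y : z₀ ≠ y := by
    rintro rfl
    exact hz₀' h0
  obtain ⟨ψ, z₁, hz₁, h1, h2, h3⟩ : ∃ ψ : V →ₗ[ℝ] ℝ, ∃ z₁ ∈ X, ψ (pt y) = ψ (pt x) ∧
      ψ (pt z₀) = ψ (pt x) ∧ ψ (pt x) < ψ (pt z₁) := by
    obtain ⟨ψ, hψ, h1, h2⟩ := exists_dual_two hV (pt y - pt x) (pt z₀ - pt x)
    rw [map_sub, sub_eq_zero] at h1 h2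
    obtain ⟨z₁, hz₁, hz₁'⟩ := hF ψ hψ (ψ (pt x))
    rcases lt_or_gt_of_ne hz₁' with h | h
    · exact ⟨-ψ, z₁, hz₁, by simp [h1], by simp [h2], by simpa using h⟩
    · exact ⟨ψ, z₁, hz₁, h1, h2, h⟩
  obtain ⟨hx, hy, hne, φ, e1, e2⟩ := id hxy
  obtain ⟨ε, hε, hε'⟩ := small_eps {z₁} (fun _ => ψ (pt x) - ψ (pt z₁))
    (fun _ => φ (pt x) - φ (pt z₁)) (fun _ _ => sub_neg.2 h3)
  have hε'' := hε' z₁ (mem_singleton_self _)
  have e3 := e2 z₀ hz₀ hz₀x hz₀y
  have m1 : (ψ + ε • φ) (pt y) = (ψ + ε • φ) (pt x) := by simp [h1, e1]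
  have m2 : (ψ + ε • φ) (pt x) < (ψ + ε • φ) (pt z₁) := by
    simp only [LinearMap.add_apply, LinearMap.smul_apply, smul_eq_mul]
    linarith
  have m3 : (ψ + ε • φ) (pt z₀) < (ψ + ε • φ) (pt x) := by
    simp only [LinearMap.add_apply, LinearMap.smul_apply, smul_eq_mul]
    nlinarith
  generalize ψ + ε • φ = m at m1 m2 m3
  obtain ⟨A, hA, hxA, hyA, -, hA'⟩ := facet_of_rot hxy m m1 ⟨z₁, hz₁, m2⟩ ⟨z₀, hz₀, m3⟩
  obtain ⟨B, hB, hxB, hyB, ⟨z, hz, hz'⟩, -⟩ := facet_of_rot hxy (-m) (by simp [m1])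
    ⟨z₀, hz₀, by simpa using m3⟩ ⟨z₁, hz₁, by simpa using m2⟩
  refine ⟨A, B, hA, hB, ?_, hxA, hyA, hxB, hyB⟩
  rintro rfl
  have := hA' z hz
  simp only [LinearMap.neg_apply, neg_lt_neg_iff] at hz'
  linarith

lemma edge_of_rot (hV : finrank ℝ V = 3) (hX : Conv pt X) {A : Finset ι} (hA : Facet pt X A)
    {w : ι} (hw : w ∈ A) (m : V →ₗ[ℝ] ℝ)
    (hp : ∃ z ∈ A, m (pt w) < m (pt z)) (hn : ∃ z ∈ A, m (pt z) < m (pt w)) :
    ∃ p ∈ A, Edge pt X w p ∧ m (pt w) < m (pt p) := by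
  classical
  obtain ⟨-, φ, hφ, c, hs⟩ := hA
  obtain ⟨ψ, hψ⟩ := hX w (hs.1 hw)
  obtain ⟨τ, hτ, hle, p, hp, hb, he⟩ := rotate (A.erase w)
    (fun z => ψ (pt z) - ψ (pt w)) (fun z => m (pt z) - m (pt w))
    (fun z hz => sub_neg.2 (hψ z (hs.1 (mem_erase.1 hz).2) (mem_erase.1 hz).1))
    (by
      obtain ⟨z, hz, hz'⟩ := hp
      refine ⟨z, mem_erase.2 ⟨?_, hz⟩, sub_pos.2 hz'⟩
      rintro rfl
      exact lt_irrefl _ hz')
  obtain ⟨hpw, hpA⟩ := mem_erase.1 hp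
  have hstrict : ∀ z ∈ A, z ≠ w → z ≠ p →
      ψ (pt z) - ψ (pt w) + τ * (m (pt z) - m (pt w)) < 0 := by
    intro z hz hzw hzp
    refine lt_of_le_of_ne (hle z (mem_erase.2 ⟨hzw, hz⟩)) fun h0 => ?_
    obtain ⟨q, hq, hq'⟩ := hn
    have hqw : q ≠ w := by
      rintro rfl
      exact lt_irrefl _ hq'
    have := kill_of_two hV (χ := ψ + τ • m) hφ (u₃ := pt q - pt w)
      (indep3 hX (hs.1 hw) (hs.1 hpA) (hs.1 hz) hpw.symm hzw.symm hzp.symm)
      (by rw [map_sub, hs.2.1 p hpA, hs.2.1 w hw, sub_self])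
      (by rw [map_sub, hs.2.1 z hz, hs.2.1 w hw, sub_self])
      (by rw [map_sub, hs.2.1 q hq, hs.2.1 w hw, sub_self])
      (by
        simp only [LinearMap.add_apply, LinearMap.smul_apply, map_sub, smul_eq_mul]
        linarith)
      (by
        simp only [LinearMap.add_apply, LinearMap.smul_apply, map_sub, smul_eq_mul]
        linarith)
    simp only [LinearMap.add_apply, LinearMap.smul_apply, map_sub, smul_eq_mul] at this
    have := hψ q (hs.1 hq) hqw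
    nlinarith
  obtain ⟨ε, hε, hε'⟩ := small_eps (X \ A) (fun z => φ (pt z) - φ (pt w))
    (fun z => ψ (pt z) - ψ (pt w) + τ * (m (pt z) - m (pt w)))
    (fun z hz => by
      rw [hs.2.1 w hw]
      exact sub_neg.2 (hs.2.2 z (mem_sdiff.1 hz).1 (mem_sdiff.1 hz).2))
  refine ⟨p, hpA, ⟨hs.1 hw, hs.1 hpA, hpw.symm, φ + ε • (ψ + τ • m), ?_, ?_⟩, by linarith⟩
  · simp only [LinearMap.add_apply, LinearMap.smul_apply, smul_eq_mul]
    rw [hs.2.1 p hpA, hs.2.1 w hw]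
    have : ψ (pt p) + τ * m (pt p) = ψ (pt w) + τ * m (pt w) := by linarith
    rw [this]
  · intro k hk hkw hkp
    simp only [LinearMap.add_apply, LinearMap.smul_apply, smul_eq_mul]
    by_cases hkA : k ∈ A
    · have := hstrict k hkA hkw hkp
      rw [hs.2.1 k hkA, hs.2.1 w hw]
      nlinarith
    · have := hε' k (mem_sdiff.2 ⟨hk, hkA⟩)
      linarith

/-- Every point of a facet has two edge neighbours in it. -/
lemma two_edges (hV : finrank ℝ V = 3) (hX : Conv pt X) {A : Finset ι} (hA : Facet pt X A)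
    {w : ι} (hw : w ∈ A) :
    ∃ p ∈ A, ∃ q ∈ A, p ≠ q ∧ Edge pt X w p ∧ Edge pt X w q := by
  classical
  have hc : 1 < (A.erase w).card := by
    rw [card_erase_of_mem hw]
    have := hA.1
    omega
  obtain ⟨p₁, hp₁, p₂, hp₂, h12⟩ := one_lt_card.1 hc
  rw [mem_erase] at hp₁ hp₂
  have hAX := hA.subset
  obtain ⟨m₁, hm₁, hm₂⟩ := exists_dual_sep
    (indep3 hX (hAX hw) (hAX hp₁.2) (hAX hp₂.2) hp₁.1.symm hp₂.1.symm h12)
  obtain ⟨ψ, hψ⟩ := hX w (hAX hw)
  rw [map_sub] at hm₁ hm₂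
  obtain ⟨ε, hε, hε'⟩ := small_eps {p₁} (fun _ => m₁ (pt w) - m₁ (pt p₁))
    (fun _ => ψ (pt w) - ψ (pt p₁)) (fun _ _ => by linarith)
  have hε'' := hε' p₁ (mem_singleton_self _)
  have e3 := hψ p₂ (hAX hp₂.2) hp₂.1
  have m2 : (m₁ + ε • ψ) (pt w) < (m₁ + ε • ψ) (pt p₁) := by
    simp only [LinearMap.add_apply, LinearMap.smul_apply, smul_eq_mul]
    linarith
  have m3 : (m₁ + ε • ψ) (pt p₂) < (m₁ + ε • ψ) (pt w) := by
    simp only [LinearMap.add_apply, LinearMap.smul_apply, smul_eq_mul]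
    nlinarith
  generalize m₁ + ε • ψ = m at m2 m3
  obtain ⟨p, hp, ep, hp'⟩ := edge_of_rot hV hX hA hw m ⟨p₁, hp₁.2, m2⟩ ⟨p₂, hp₂.2, m3⟩
  obtain ⟨q, hq, eq, hq'⟩ := edge_of_rot hV hX hA hw (-m)
    ⟨p₂, hp₂.2, by simpa using m3⟩ ⟨p₁, hp₁.2, by simpa using m2⟩
  refine ⟨p, hp, q, hq, ?_, ep, eq⟩
  rintro rfl
  simp only [LinearMap.neg_apply, neg_lt_neg_iff] at hq'
  linarith

end Pool.Agent.P.MP_e40812_co
end

-- part Pool.Agent.P.MP_e40812_co.Count
section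

/-!
Euler type upper bounds for the number of edges of a point family in convex position.
-/

namespace Pool.Agent.P.MP_e40812_co

open Module Finset

variable {V : Type*} [AddCommGroup V] [Module ℝ V] {ι : Type*}

open Classical in
/-- The facets of the family. -/
noncomputable def facets (pt : ι → V) (X : Finset ι) : Finset (Finset ι) :=
  X.powerset.filter (Facet pt X)

open Classical in
/-- The points of `A` where `f` is neither maximal nor minimal. -/
noncomputable def mid (f : ι → ℝ) (A : Finset ι) : Finset ι :=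
  A.filter fun x => (∃ p ∈ A, f x < f p) ∧ ∃ q ∈ A, f q < f x

variable {pt : ι → V} {X : Finset ι}

lemma mem_facets {A : Finset ι} : A ∈ facets pt X ↔ Facet pt X A := by
  classical
  simp only [facets, mem_filter, mem_powerset]
  exact ⟨fun h => h.2, fun h => ⟨h.subset, h⟩⟩

lemma mem_mid {f : ι → ℝ} {A : Finset ι} {x : ι} :
    x ∈ mid f A ↔ x ∈ A ∧ (∃ p ∈ A, f x < f p) ∧ ∃ q ∈ A, f q < f x := by
  simp only [mid, mem_filter]

lemma card_mid {f : ι → ℝ} {A : Finset ι} (hA : 2 ≤ A.card)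
    (hf : ∀ i ∈ A, ∀ j ∈ A, i ≠ j → f i ≠ f j) : (mid f A).card + 2 = A.card := by
  classical
  have hne : A.Nonempty := card_pos.1 (by omega)
  obtain ⟨M, hM, hM'⟩ := exists_max_image A f hne
  obtain ⟨m, hm, hm'⟩ := exists_min_image A f hne
  have hMm : m ≠ M := by
    rintro rfl
    obtain ⟨a, ha, b, hb, hab⟩ := one_lt_card.1 (show 1 < A.card by omega)
    exact hf a ha b hb hab
      ((le_antisymm (hM' a ha) (hm' a ha)).trans (le_antisymm (hm' b hb) (hM' b hb)))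
  have : mid f A = (A.erase M).erase m := by
    ext x
    rw [mem_mid, mem_erase, mem_erase]
    constructor
    · rintro ⟨hx, ⟨p, hp, hp'⟩, q, hq, hq'⟩
      refine ⟨?_, ?_, hx⟩
      · rintro rfl
        exact absurd (hm' q hq) (not_le.2 hq')
      · rintro rfl
        exact absurd (hM' p hp) (not_le.2 hp')
    · rintro ⟨h1, h2, hx⟩
      exact ⟨hx, ⟨M, hM, lt_of_le_of_ne (hM' x hx) (hf x hx M hM h2)⟩,
        m, hm, lt_of_le_of_ne (hm' x hx) (hf m hm x hx h1.symm)⟩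
  rw [this, card_erase_of_mem (mem_erase.2 ⟨hMm, hm⟩), card_erase_of_mem hM]
  omega

lemma mid_vec (hV : finrank ℝ V = 3) (hX : Conv pt X) (l : V →ₗ[ℝ] ℝ) {A : Finset ι}
    (hA : Facet pt X A) {x : ι} (hx : x ∈ mid (fun i => l (pt i)) A) :
    ∃ u : V, l u = 0 ∧ (∀ φ c, Supp pt X φ c A → φ u = 0) ∧
      ∀ B φ c, Facet pt X B → B ≠ A → x ∈ B → Supp pt X φ c B → φ u < 0 := by
  obtain ⟨hxA, ⟨p, hp, hp'⟩, q, hq, hq'⟩ := mem_mid.1 hx
  refine ⟨(l (pt x) - l (pt q)) • (pt p - pt x) + (l (pt p) - l (pt x)) • (pt q - pt x), ?_, ?_,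
    ?_⟩
  · simp only [map_add, map_smul, map_sub, smul_eq_mul]
    ring
  · intro φ c hs
    simp only [map_add, map_smul, map_sub, smul_eq_mul, hs.2.1 p hp, hs.2.1 q hq, hs.2.1 x hxA]
    ring
  · intro B φ c hB hBA hxB hs
    have hAX := hA.subset
    simp only [map_add, map_smul, map_sub, smul_eq_mul, hs.2.1 x hxB]
    have h1 := hs.le (hAX hp)
    have h2 := hs.le (hAX hq)
    have hxp : x ≠ p := by
      rintro rfl
      exact lt_irrefl _ hp'
    have hxq : x ≠ q := by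
      rintro rfl
      exact lt_irrefl _ hq'
    have hpq : p ≠ q := by
      rintro rfl
      exact lt_irrefl _ (hp'.trans hq')
    by_cases hpB : p ∈ B
    · have hqB : q ∉ B := fun hqB =>
        hBA (facet_eq_of_three hV hX hB hA hxB hpB hqB hxA hp hq hxp hxq hpq)
      have := hs.2.2 q (hAX hq) hqB
      nlinarith
    · have := hs.2.2 p (hAX hp) hpB
      nlinarith

open Classical in
lemma mid_le_two (hV : finrank ℝ V = 3) (hX : Conv pt X) {l : V →ₗ[ℝ] ℝ} (x : ι) :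
    ((facets pt X).filter fun A => x ∈ mid (fun i => l (pt i)) A).card ≤ 2 := by
  by_contra h
  push Not at h
  obtain ⟨A, B, C, hA, hB, hC, hAB, hAC, hBC⟩ := two_lt_card_iff.1 h
  rw [mem_filter, mem_facets] at hA hB hC
  have hl : l ≠ 0 := by
    rintro rfl
    obtain ⟨-, ⟨p, -, hp⟩, -⟩ := mem_mid.1 hA.2
    simp at hp
  obtain ⟨u₁, a1, a2, a3⟩ := mid_vec hV hX l hA.1 hA.2
  obtain ⟨u₂, b1, b2, b3⟩ := mid_vec hV hX l hB.1 hB.2
  obtain ⟨u₃, c1, c2, c3⟩ := mid_vec hV hX l hC.1 hC.2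
  have hxA := (mem_mid.1 hA.2).1
  have hxB := (mem_mid.1 hB.2).1
  have hxC := (mem_mid.1 hC.2).1
  obtain ⟨-, a, -, ca, ha⟩ := id hA.1
  obtain ⟨-, b, -, cb, hb⟩ := id hB.1
  obtain ⟨-, d, -, cd, hd⟩ := id hC.1
  exact three_false hV hl a1 b1 c1 (a2 a ca ha) (b3 A a ca hA.1 hAB hxA ha)
    (c3 A a ca hA.1 hAC hxA ha) (a3 B b cb hB.1 hAB.symm hxB hb) (b2 b cb hb)
    (c3 B b cb hB.1 hBC hxB hb) (a3 C d cd hC.1 hAC.symm hxC hd)
    (b3 C d cd hC.1 hBC.symm hxC hd) (c2 d cd hd)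

lemma exists_generic (hX : Conv pt X) :
    ∃ l : V →ₗ[ℝ] ℝ, ∀ i ∈ X, ∀ j ∈ X, i ≠ j → l (pt i) ≠ l (pt j) := by
  classical
  obtain ⟨l, hl⟩ := Module.exists_dual_forall_apply_ne_zero (K := ℝ)
    (fun p : X.offDiag => pt p.1.2 - pt p.1.1) (fun p => by
      obtain ⟨h1, h2, h3⟩ := mem_offDiag.1 p.2
      exact hX.ne h1 h2 h3)
  refine ⟨l, fun i hi j hj hij h => hl ⟨(i, j), mem_offDiag.2 ⟨hi, hj, hij⟩⟩ ?_⟩
  simp [h]

lemma sum_facets (hV : finrank ℝ V = 3) (hX : Conv pt X) (h2 : 2 ≤ X.card) :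
    ∑ A ∈ facets pt X, (A.card - 2) ≤ 2 * (X.card - 2) := by
  classical
  obtain ⟨l, hl⟩ := exists_generic hX
  have h1 : ∑ A ∈ facets pt X, (A.card - 2) =
      ∑ A ∈ facets pt X, ((mid (fun i => l (pt i)) X).filter
        fun x => x ∈ mid (fun i => l (pt i)) A).card := by
    refine sum_congr rfl fun A hA => ?_
    rw [mem_facets] at hA
    have hAX := hA.subset
    have := card_mid (f := fun i => l (pt i)) (A := A) (by have := hA.1; omega)
      (fun i hi j hj hij => hl i (hAX hi) j (hAX hj) hij)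
    have e : ((mid (fun i => l (pt i)) X).filter fun x => x ∈ mid (fun i => l (pt i)) A) =
        mid (fun i => l (pt i)) A := by
      ext x
      rw [mem_filter]
      refine ⟨fun h => h.2, fun h => ⟨?_, h⟩⟩
      obtain ⟨hx, ⟨p, hp, hp'⟩, q, hq, hq'⟩ := mem_mid.1 h
      exact mem_mid.2 ⟨hAX hx, ⟨p, hAX hp, hp'⟩, q, hAX hq, hq'⟩
    rw [e]
    omega
  have h3 := card_mid (f := fun i => l (pt i)) (A := X) h2 hl
  rw [h1]
  have h4 := sum_card_bipartiteAbove_eq_sum_card_bipartiteBelow (s := facets pt X)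
    (t := mid (fun i => l (pt i)) X) (fun A x => x ∈ mid (fun i => l (pt i)) A)
  simp only [bipartiteAbove, bipartiteBelow] at h4
  rw [h4]
  calc _ ≤ ∑ _x ∈ mid (fun i => l (pt i)) X, 2 := sum_le_sum fun x _ => by
        convert mid_le_two hV hX (l := l) x
    _ = _ := by
        rw [sum_const, smul_eq_mul]
        omega

open Classical in
lemma count_edges (hV : finrank ℝ V = 3) (hX : Conv pt X) (h3 : 3 ≤ X.card)
    (D : Finset (ι × ι)) (hD : ∀ e ∈ D, Edge pt X e.1 e.2) (t : ℕ)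
    (ht : ∀ A, Facet pt X A → (D.filter fun e => e.1 ∈ A ∧ e.2 ∈ A).card ≤ t * (A.card - 2)) :
    D.card ≤ t * (X.card - 2) := by
  by_cases hF : Full pt X
  · have h1 := sum_card_bipartiteAbove_eq_sum_card_bipartiteBelow (s := facets pt X)
      (t := D) (fun A e => e.1 ∈ A ∧ e.2 ∈ A)
    simp only [bipartiteAbove, bipartiteBelow] at h1
    have h2 : ∑ _e ∈ D, 2 ≤ ∑ e ∈ D, ((facets pt X).filter fun A => e.1 ∈ A ∧ e.2 ∈ A).card := by
      refine sum_le_sum fun e he => ?_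
      obtain ⟨A, B, hA, hB, hAB, h1, h2, h3, h4⟩ := two_facets hV hF (hD e he)
      exact one_lt_card.2 ⟨A, mem_filter.2 ⟨mem_facets.2 hA, h1, h2⟩, B,
        mem_filter.2 ⟨mem_facets.2 hB, h3, h4⟩, hAB⟩
    have h4 : ∑ A ∈ facets pt X, (D.filter fun e => e.1 ∈ A ∧ e.2 ∈ A).card ≤
        ∑ A ∈ facets pt X, t * (A.card - 2) := sum_le_sum fun A hA => ht A (mem_facets.1 hA)
    rw [← mul_sum] at h4
    have h5 := Nat.mul_le_mul_left t (sum_facets hV hX (by omega))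
    rw [sum_const, smul_eq_mul] at h2
    have h6 : t * (2 * (X.card - 2)) = 2 * (t * (X.card - 2)) := by ring
    omega
  · simp only [Full, not_forall, not_exists, not_and, not_not] at hF
    obtain ⟨φ, hφ, c, hc⟩ := hF
    have hXF : Facet pt X X := ⟨h3, φ, hφ, c, Subset.refl _, hc, fun i hi hi' => absurd hi hi'⟩
    have := ht X hXF
    rwa [filter_true_of_mem fun e he => ⟨(hD e he).1, (hD e he).2.1⟩] at this

open Classical in
lemma card_le_two_mul_fst (hV : finrank ℝ V = 3) {A : Finset ι} (hA : Facet pt X A)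
    (D : Finset (ι × ι)) (hD : ∀ e ∈ D, Edge pt X e.1 e.2 ∧ e.2 ∈ A) (B : Finset ι)
    (hBA : B ⊆ A) (hB : ∀ e ∈ D, e.1 ∈ B) : D.card ≤ 2 * B.card := by
  refine card_le_mul_card_image_of_maps_to (f := Prod.fst) hB 2 fun w hw => ?_
  refine le_trans ?_ (edge_nbrs_le_two hV hA (hBA hw))
  refine card_le_card_of_injOn Prod.snd (fun e he => ?_) fun e he e' he' h => ?_
  · obtain ⟨he1, he2⟩ := mem_filter.1 (mem_coe.1 he)
    exact mem_coe.2 (mem_filter.2 ⟨(hD e he1).2, he2 ▸ (hD e he1).1⟩)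
  · have h1 := (mem_filter.1 (mem_coe.1 he)).2
    have h2 := (mem_filter.1 (mem_coe.1 he')).2
    exact Prod.ext (h1.trans h2.symm) h

open Classical in
lemma card_le_two_mul_snd (hV : finrank ℝ V = 3) {A : Finset ι} (hA : Facet pt X A)
    (D : Finset (ι × ι)) (hD : ∀ e ∈ D, Edge pt X e.1 e.2 ∧ e.1 ∈ A) (B : Finset ι)
    (hBA : B ⊆ A) (hB : ∀ e ∈ D, e.2 ∈ B) : D.card ≤ 2 * B.card := by
  have := card_le_two_mul_fst hV hA (D.image Prod.swap) (fun e he => by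
    obtain ⟨e', he', rfl⟩ := mem_image.1 he
    exact ⟨(hD e' he').1.symm, (hD e' he').2⟩) B hBA (fun e he => by
    obtain ⟨e', he', rfl⟩ := mem_image.1 he
    exact hB e' he')
  rwa [card_image_of_injective _ Prod.swap_injective] at this

/-- At most `3 n - 6` edges. -/
theorem edges_le (hV : finrank ℝ V = 3) (hX : Conv pt X) (h3 : 3 ≤ X.card)
    (D : Finset (ι × ι)) (hD : ∀ e ∈ D, Edge pt X e.1 e.2) : D.card + 12 ≤ 6 * X.card := by
  classical
  have := count_edges hV hX h3 D hD 6 fun A hA => by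
    have h1 := card_le_two_mul_fst hV hA (D.filter fun e => e.1 ∈ A ∧ e.2 ∈ A)
      (fun e he => ⟨hD e (mem_filter.1 he).1, (mem_filter.1 he).2.2⟩) A (Subset.refl _)
      (fun e he => (mem_filter.1 he).2.1)
    have h2 := hA.1
    have h3 : 2 * A.card ≤ 6 * (A.card - 2) := by omega
    convert h1.trans h3
  omega

/-- At most `2 n - 4` edges between a set and its complement. -/
theorem edges_bip_le (hV : finrank ℝ V = 3) (hX : Conv pt X) (h3 : 3 ≤ X.card) (K : Finset ι)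
    (D : Finset (ι × ι)) (hD : ∀ e ∈ D, Edge pt X e.1 e.2 ∧ e.1 ∈ K ∧ e.2 ∉ K) :
    D.card + 4 ≤ 2 * X.card := by
  classical
  have := count_edges hV hX h3 D (fun e he => (hD e he).1) 2 fun A hA => by
    have h1 := card_le_two_mul_fst hV hA (D.filter fun e => e.1 ∈ A ∧ e.2 ∈ A)
      (fun e he => ⟨(hD e (mem_filter.1 he).1).1, (mem_filter.1 he).2.2⟩) (A ∩ K)
      inter_subset_left
      (fun e he => mem_inter.2 ⟨(mem_filter.1 he).2.1, (hD e (mem_filter.1 he).1).2.1⟩)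
    have h2 := card_le_two_mul_snd hV hA (D.filter fun e => e.1 ∈ A ∧ e.2 ∈ A)
      (fun e he => ⟨(hD e (mem_filter.1 he).1).1, (mem_filter.1 he).2.1⟩) (A \ K)
      sdiff_subset
      (fun e he => mem_sdiff.2 ⟨(mem_filter.1 he).2.2, (hD e (mem_filter.1 he).1).2.2⟩)
    have h3 := hA.1
    have h4 := card_sdiff_add_card_inter A K
    have h5 : (D.filter fun e => e.1 ∈ A ∧ e.2 ∈ A).card ≤ 2 * (A.card - 2) := by omega
    convert h5
  omega

end Pool.Agent.P.MP_e40812_co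
end

-- part Pool.Agent.P.MP_e40812_co.Dual
section

/-!
The polar family of the facets of a full-dimensional point family in convex position.
-/

namespace Pool.Agent.P.MP_e40812_co

open Module Finset

variable {V : Type*} [AddCommGroup V] [Module ℝ V] {ι : Type*} [DecidableEq ι]

/-- Two distinct sets with two common points. -/
def Adj (A B : Finset ι) : Prop := A ≠ B ∧ 2 ≤ (A ∩ B).card

/-- Normalised supporting functionals of the facets with respect to an inner point. -/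
def Polar (pt : ι → V) (X : Finset ι) (o : V) (g : Finset ι → Module.Dual ℝ V) : Prop :=
  ∀ A, Facet pt X A → Supp pt X (g A) (1 + g A o) A

/-- Two facets `A`, `A'` that are adjacent to `v` and meet it at the common point `w`. -/
def Corner (v : Finset ι) (w : ι) (A A' : Finset ι) : Prop :=
  w ∈ v ∧ w ∈ A ∧ w ∈ A' ∧ A ≠ A' ∧ Adj v A ∧ Adj v A'

variable {pt : ι → V} {X : Finset ι} {o : V} {g : Finset ι → Module.Dual ℝ V}

lemma Adj.symm {A B : Finset ι} (h : Adj A B) : Adj B A :=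
  ⟨h.1.symm, by rw [inter_comm]; exact h.2⟩

lemma Adj.exists_ne {A B : Finset ι} (h : Adj A B) (w : ι) : ∃ p ∈ A, p ∈ B ∧ p ≠ w := by
  obtain ⟨p, hp, hpw⟩ := exists_mem_ne (show 1 < (A ∩ B).card from h.2) w
  exact ⟨p, (mem_inter.1 hp).1, (mem_inter.1 hp).2, hpw⟩

omit [DecidableEq ι] in
lemma exists_polar (hF : Full pt X) :
    ∃ (o : V) (g : Finset ι → Module.Dual ℝ V), Polar pt X o g := by
  refine ⟨(X.card : ℝ)⁻¹ • ∑ i ∈ X, pt i, ?_⟩
  generalize ho : (X.card : ℝ)⁻¹ • ∑ i ∈ X, pt i = o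
  have key : ∀ A, Facet pt X A → ∃ h : Module.Dual ℝ V, Supp pt X h (1 + h o) A := by
    rintro A ⟨-, φ, hφ, c, hs⟩
    obtain ⟨i, hi, hi'⟩ := hF φ hφ c
    have hc : (0 : ℝ) < X.card := by exact_mod_cast card_pos.2 ⟨i, hi⟩
    have h1 : ∑ j ∈ X, φ (pt j) < ∑ _j ∈ X, c :=
      sum_lt_sum (fun j hj => hs.le hj) ⟨i, hi, lt_of_le_of_ne (hs.le hi) hi'⟩
    have h2 : φ o < c := by
      rw [← ho, map_smul, map_sum, smul_eq_mul, inv_mul_lt_iff₀ hc]
      simpa using h1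
    have h3 : 0 < c - φ o := sub_pos.2 h2
    refine ⟨(c - φ o)⁻¹ • φ, hs.1, fun j hj => ?_, fun j hj hj' => ?_⟩
    · simp only [LinearMap.smul_apply, smul_eq_mul, hs.2.1 j hj]
      field_simp
      ring
    · simp only [LinearMap.smul_apply, smul_eq_mul]
      have := hs.2.2 j hj hj'
      have e : 1 + (c - φ o)⁻¹ * φ o = (c - φ o)⁻¹ * c := by
        field_simp
        ring
      rw [e]
      exact mul_lt_mul_of_pos_left this (inv_pos.2 h3)
  choose! g hg using key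
  exact ⟨g, hg⟩

omit [DecidableEq ι] in
lemma dual_conv (hV : finrank ℝ V = 3) (hX : Conv pt X) (hg : Polar pt X o g)
    {Y : Finset (Finset ι)} (hY : ∀ A ∈ Y, Facet pt X A) : Conv g Y := by
  intro A hA
  refine ⟨Module.Dual.eval ℝ V (∑ z ∈ A, (pt z - o)), fun B hB hBA => ?_⟩
  rw [Module.Dual.eval_apply, Module.Dual.eval_apply]
  simp only [map_sum, map_sub]
  have sA := hg A (hY A hA)
  have sB := hg B (hY B hB)
  obtain ⟨z, hz, hzB⟩ := facet_not_subset hV hX (hY A hA) (hY B hB) hBA.symm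
  refine sum_lt_sum (fun y hy => ?_) ⟨z, hz, ?_⟩
  · have := sB.le (sA.1 hy)
    rw [sA.2.1 y hy]
    linarith
  · have := sB.2.2 z (sA.1 hz) hzB
    rw [sA.2.1 z hz]
    linarith

lemma dual_edge_of_adj (hV : finrank ℝ V = 3) (hX : Conv pt X) (hg : Polar pt X o g)
    {Y : Finset (Finset ι)} (hY : ∀ A ∈ Y, Facet pt X A) {A B : Finset ι} (hA : A ∈ Y)
    (hB : B ∈ Y) (h : Adj A B) : Edge g Y A B := by
  obtain ⟨x, hx, y, hy, hxy⟩ := one_lt_card.1 (show 1 < (A ∩ B).card from h.2)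
  rw [mem_inter] at hx hy
  have sA := hg A (hY A hA)
  have sB := hg B (hY B hB)
  refine ⟨hA, hB, h.1, Module.Dual.eval ℝ V ((pt x - o) + (pt y - o)), ?_, fun C hC hCA hCB => ?_⟩
  · rw [Module.Dual.eval_apply, Module.Dual.eval_apply]
    simp only [map_add, map_sub, sA.2.1 x hx.1, sA.2.1 y hy.1, sB.2.1 x hx.2, sB.2.1 y hy.2]
    ring
  · rw [Module.Dual.eval_apply, Module.Dual.eval_apply]
    simp only [map_add, map_sub, sA.2.1 x hx.1, sA.2.1 y hy.1]
    have sC := hg C (hY C hC)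
    have h1 := sC.le (sA.1 hx.1)
    have h2 := sC.le (sA.1 hy.1)
    by_cases hxC : x ∈ C
    · have hyC : y ∉ C := fun hyC => three_facets_false hV hX (hY A hA) (hY B hB) (hY C hC) h.1
        hCA.symm hCB.symm hxy hx.1 hy.1 hx.2 hy.2 hxC hyC
      have := sC.2.2 y (sA.1 hy.1) hyC
      linarith
    · have := sC.2.2 x (sA.1 hx.1) hxC
      linarith

lemma dual_edge_of_corner (hV : finrank ℝ V = 3) (hX : Conv pt X) (hg : Polar pt X o g)
    {Y : Finset (Finset ι)} (hY : ∀ A ∈ Y, Facet pt X A) {v A A' : Finset ι} {w : ι}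
    (hv : Facet pt X v) (hvY : v ∉ Y) (hA : A ∈ Y) (hA' : A' ∈ Y) (h : Corner v w A A') :
    Edge g Y A A' := by
  obtain ⟨hwv, hwA, hwA', hAA, h1, h2⟩ := h
  obtain ⟨w₁, h1v, h1A, h1w⟩ := h1.exists_ne w
  obtain ⟨w₂, h2v, h2A', h2w⟩ := h2.exists_ne w
  have fA := hY A hA
  have fA' := hY A' hA'
  have h1A' : w₁ ∉ A' := fun hh =>
    three_facets_false hV hX hv fA fA' h1.1 h2.1 hAA h1w h1v hwv h1A hwA hh hwA'
  have h2A : w₂ ∉ A := fun hh =>
    three_facets_false hV hX hv fA fA' h1.1 h2.1 hAA h2w h2v hwv hh hwA h2A' hwA'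
  have sv := hg v hv
  have sA := hg A fA
  have sA' := hg A' fA'
  obtain ⟨e₁, he₁⟩ : ∃ e, e = pt w₁ - pt w := ⟨_, rfl⟩
  obtain ⟨e₂, he₂⟩ : ∃ e, e = pt w₂ - pt w := ⟨_, rfl⟩
  obtain ⟨t, ht⟩ : ∃ e, e = pt w - o := ⟨_, rfl⟩
  have v1 : g v e₁ = 0 := by rw [he₁, map_sub, sv.2.1 _ h1v, sv.2.1 _ hwv, sub_self]
  have v2 : g v e₂ = 0 := by rw [he₂, map_sub, sv.2.1 _ h2v, sv.2.1 _ hwv, sub_self]
  have vt : g v t = 1 := by rw [ht, map_sub, sv.2.1 _ hwv]; ring
  have a1 : g A e₁ = 0 := by rw [he₁, map_sub, sA.2.1 _ h1A, sA.2.1 _ hwA, sub_self]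
  have a2 : g A e₂ < 0 := by
    rw [he₂, map_sub, sA.2.1 _ hwA]
    exact sub_neg.2 (sA.2.2 _ (sv.1 h2v) h2A)
  have at' : g A t = 1 := by rw [ht, map_sub, sA.2.1 _ hwA]; ring
  have b1 : g A' e₁ < 0 := by
    rw [he₁, map_sub, sA'.2.1 _ hwA']
    exact sub_neg.2 (sA'.2.2 _ (sv.1 h1v) h1A')
  have b2 : g A' e₂ = 0 := by rw [he₂, map_sub, sA'.2.1 _ h2A', sA'.2.1 _ hwA', sub_self]
  have bt : g A' t = 1 := by rw [ht, map_sub, sA'.2.1 _ hwA']; ring
  obtain ⟨u, hu⟩ : ∃ u, u = (-(g A' e₁)⁻¹) • e₁ + (-(g A e₂)⁻¹) • e₂ + t := ⟨_, rfl⟩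
  have au : g A u = 0 := by
    rw [hu]
    simp only [map_add, map_smul, smul_eq_mul, a1, at']
    have := a2.ne
    field_simp
    ring
  have bu : g A' u = 0 := by
    rw [hu]
    simp only [map_add, map_smul, smul_eq_mul, b2, bt]
    have := b1.ne
    field_simp
    ring
  have key : ∀ B ∈ Y, w ∈ B → B ≠ A → B ≠ A' → g B u < 0 := by
    intro B hB hwB hBA hBA'
    have fB := hY B hB
    have sB := hg B fB
    have hBv : B ≠ v := fun hh => hvY (hh ▸ hB)
    have c1 : g B e₁ ≤ 0 := by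
      rw [he₁, map_sub, sB.2.1 _ hwB]
      exact sub_nonpos.2 (sB.le (sv.1 h1v))
    have c2 : g B e₂ ≤ 0 := by
      rw [he₂, map_sub, sB.2.1 _ hwB]
      exact sub_nonpos.2 (sB.le (sv.1 h2v))
    have ct : g B t = 1 := by rw [ht, map_sub, sB.2.1 _ hwB]; ring
    by_contra hh
    push Not at hh
    rw [hu] at hh
    simp only [map_add, map_smul, smul_eq_mul, ct] at hh
    obtain ⟨l₁, hl₁⟩ : ∃ l, l = (g A e₂)⁻¹ * g B e₂ := ⟨_, rfl⟩
    obtain ⟨l₂, hl₂⟩ : ∃ l, l = (g A' e₁)⁻¹ * g B e₁ := ⟨_, rfl⟩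
    have p1 : 0 ≤ l₁ := hl₁ ▸ mul_nonneg_of_nonpos_of_nonpos (inv_neg''.2 a2).le c2
    have p2 : 0 ≤ l₂ := hl₂ ▸ mul_nonneg_of_nonpos_of_nonpos (inv_neg''.2 b1).le c1
    have p0 : 0 ≤ 1 - l₁ - l₂ := by
      rw [hl₁, hl₂]
      linarith
    have hz : g B - (1 - l₁ - l₂) • g v - l₁ • g A - l₂ • g A' = 0 := by
      by_contra hne
      obtain ⟨c₁, c₂, c₃, hc, hc'⟩ := dep3 hV hne (u₁ := e₁) (u₂ := e₂) (u₃ := t)
        (by
          simp only [LinearMap.sub_apply, LinearMap.smul_apply, smul_eq_mul, v1, a1, hl₂]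
          have := b1.ne
          field_simp
          ring)
        (by
          simp only [LinearMap.sub_apply, LinearMap.smul_apply, smul_eq_mul, v2, b2, hl₁]
          have := a2.ne
          field_simp
          ring)
        (by
          simp only [LinearMap.sub_apply, LinearMap.smul_apply, smul_eq_mul, vt, at', bt, ct]
          ring)
      have q0 := congrArg (g v) hc'
      have q1 := congrArg (g A) hc'
      have q2 := congrArg (g A') hc'
      simp only [map_add, map_smul, smul_eq_mul, map_zero, v1, v2, vt, a1, at', b2, bt, mul_zero,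
        zero_add, add_zero, mul_one] at q0 q1 q2
      rw [q0, add_zero] at q1 q2
      rcases hc with hc | hc | hc
      · exact hc ((mul_eq_zero.1 q2).resolve_right b1.ne)
      · exact hc ((mul_eq_zero.1 q1).resolve_right a2.ne)
      · exact hc q0
    have q := LinearMap.congr_fun hz (∑ z ∈ B, (pt z - pt w))
    have r0 := supp_sum_eq sB hwB
    have r1 := supp_sum_lt sv hwv sB.1 (facet_not_subset hV hX fB hv hBv)
    have r2 := supp_sum_lt sA hwA sB.1 (facet_not_subset hV hX fB fA hBA)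
    have r3 := supp_sum_lt sA' hwA' sB.1 (facet_not_subset hV hX fB fA' hBA')
    generalize ∑ z ∈ B, (pt z - pt w) = σ at q r0 r1 r2 r3
    simp only [LinearMap.sub_apply, LinearMap.smul_apply, smul_eq_mul, LinearMap.zero_apply,
      r0] at q
    have s1 := mul_nonneg p0 (neg_pos.2 r1).le
    have s2 := mul_nonneg p1 (neg_pos.2 r2).le
    have s3 := mul_nonneg p2 (neg_pos.2 r3).le
    have t1 : 1 - l₁ - l₂ = 0 :=
      (mul_eq_zero.1 (show (1 - l₁ - l₂) * g v σ = 0 by linarith)).resolve_right r1.ne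
    have t2 : l₁ = 0 := (mul_eq_zero.1 (show l₁ * g A σ = 0 by linarith)).resolve_right r2.ne
    have t3 : l₂ = 0 := (mul_eq_zero.1 (show l₂ * g A' σ = 0 by linarith)).resolve_right r3.ne
    linarith
  obtain ⟨ε, hε, hε'⟩ := small_eps (Y.filter fun B => w ∉ B) (fun B => g B t - 1)
    (fun B => g B u) (fun B hB => by
      obtain ⟨hB, hwB⟩ := mem_filter.1 hB
      have := (hg B (hY B hB)).2.2 w (sv.1 hwv) hwB
      rw [ht, map_sub]
      linarith)
  refine ⟨hA, hA', hAA, Module.Dual.eval ℝ V (t + ε • u), ?_, fun B hB hBA hBA' => ?_⟩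
  · rw [Module.Dual.eval_apply, Module.Dual.eval_apply]
    simp only [map_add, map_smul, au, bu, at', bt]
  · rw [Module.Dual.eval_apply, Module.Dual.eval_apply]
    simp only [map_add, map_smul, au, at', smul_eq_mul, mul_zero, add_zero]
    by_cases hwB : w ∈ B
    · have ct : g B t = 1 := by rw [ht, map_sub, (hg B (hY B hB)).2.1 _ hwB]; ring
      have := key B hB hwB hBA hBA'
      rw [ct]
      nlinarith
    · have := hε' B (mem_filter.2 ⟨hB, hwB⟩)
      linarith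

lemma edge_of_two_facets (hV : finrank ℝ V = 3) (hX : Conv pt X) {A B : Finset ι}
    (hA : Facet pt X A) (hB : Facet pt X B) (hAB : A ≠ B) {x y : ι} (hxy : x ≠ y)
    (hxA : x ∈ A) (hyA : y ∈ A) (hxB : x ∈ B) (hyB : y ∈ B) : Edge pt X x y := by
  obtain ⟨-, φ, -, c, hs⟩ := id hA
  obtain ⟨-, χ, -, e, ht⟩ := id hB
  refine ⟨hs.1 hxA, hs.1 hyA, hxy, φ + χ, ?_, fun k hk hkx hky => ?_⟩
  · simp only [LinearMap.add_apply, hs.2.1 x hxA, hs.2.1 y hyA, ht.2.1 x hxB, ht.2.1 y hyB]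
  · simp only [LinearMap.add_apply, hs.2.1 x hxA, ht.2.1 x hxB]
    have h1 := hs.le hk
    have h2 := ht.le hk
    by_cases hkA : k ∈ A
    · have hkB : k ∉ B := fun hkB => hAB
        (facet_eq_of_three hV hX hA hB hxA hyA hkA hxB hyB hkB hxy hkx.symm hky.symm)
      have := ht.2.2 k hk hkB
      linarith
    · have := hs.2.2 k hk hkA
      linarith

open Classical in
lemma corners_le_two (hV : finrank ℝ V = 3) (hX : Conv pt X) {A A' : Finset ι}
    (hA : Facet pt X A) (hA' : Facet pt X A') (S : Finset (Finset ι × ι))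
    (hS : ∀ c ∈ S, Facet pt X c.1 ∧ Corner c.1 c.2 A A') : S.card ≤ 2 := by
  rcases S.eq_empty_or_nonempty with rfl | ⟨c₀, hc₀⟩
  · simp
  have hAA : A ≠ A' := (hS c₀ hc₀).2.2.2.2.1
  let T := (A ×ˢ A).filter fun e => e.1 ∈ A' ∧ e.2 ∉ A' ∧ Edge pt X e.1 e.2
  have hT : ∀ e, e ∈ T ↔ (e.1 ∈ A ∧ e.2 ∈ A) ∧ e.1 ∈ A' ∧ e.2 ∉ A' ∧ Edge pt X e.1 e.2 := by
    intro e
    simp only [T, mem_filter, mem_product]
  have h1 : S.card ≤ T.card := by
    refine card_le_card_of_forall_subsingleton (fun c e => e.1 = c.2 ∧ e.2 ∈ c.1)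
      (fun c hc => ?_) (fun e he => ?_)
    · obtain ⟨hv, hwv, hwA, hwA', -, h1, h2⟩ := hS c hc
      obtain ⟨p, hpv, hpA, hpw⟩ := h1.exists_ne c.2
      refine ⟨(c.2, p), (hT _).2 ⟨⟨hwA, hpA⟩, hwA', fun hh => ?_, ?_⟩, rfl, hpv⟩
      · exact three_facets_false hV hX hv hA hA' h1.1 h2.1 hAA hpw hpv hwv hpA hwA hh hwA'
      · exact edge_of_two_facets hV hX hv hA h1.1 hpw.symm hwv hpv hwA hpA
    · rintro c ⟨hc, e1, e2⟩ c' ⟨hc', e1', e2'⟩
      obtain ⟨⟨k1, k2⟩, -, -, k3⟩ := (hT e).1 he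
      obtain ⟨hv, hwv, -, -, -, h1, -⟩ := hS c hc
      obtain ⟨hv', hwv', -, -, -, h1', -⟩ := hS c' hc'
      refine Prod.ext ?_ (e1.symm.trans e1')
      by_contra hne
      exact three_facets_false hV hX hv hv' hA hne h1.1 h1'.1 k3.2.2.1 (e1 ▸ hwv) e2
        (e1' ▸ hwv') e2' k1 k2
  have h2 := card_le_two_mul_fst hV hA (T ∪ (A ∩ A').offDiag) (fun e he => by
    rcases mem_union.1 he with he | he
    · exact ⟨((hT e).1 he).2.2.2, ((hT e).1 he).1.2⟩
    · obtain ⟨k1, k2, k3⟩ := mem_offDiag.1 he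
      rw [mem_inter] at k1 k2
      exact ⟨edge_of_two_facets hV hX hA hA' hAA k3 k1.1 k2.1 k1.2 k2.2, k2.1⟩)
    (A ∩ A') inter_subset_left (fun e he => by
    rcases mem_union.1 he with he | he
    · exact mem_inter.2 ⟨((hT e).1 he).1.1, ((hT e).1 he).2.1⟩
    · exact (mem_offDiag.1 he).1)
  have h3 : Disjoint T (A ∩ A').offDiag := by
    rw [disjoint_left]
    intro e he he'
    exact ((hT e).1 he).2.2.1 (mem_inter.1 (mem_offDiag.1 he').2.1).2
  rw [card_union_of_disjoint h3, offDiag_card] at h2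
  have h4 := facet_inter_le hV hX hA hA' hAA
  generalize (A ∩ A').card = m at h2 h4
  interval_cases m <;> omega

end Pool.Agent.P.MP_e40812_co
end

-- part Pool.Agent.P.MP_e40812_co.Comb
section

/-!
Inequalities for the numbers of sides of the facets of a point family in convex position.
-/

namespace Pool.Agent.P.MP_e40812_co

open Module Finset

variable {V : Type*} [AddCommGroup V] [Module ℝ V] {ι : Type*} [DecidableEq ι]

open Classical in
/-- The edges as two-element sets. -/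
noncomputable def edgeSets (pt : ι → V) (X : Finset ι) : Finset (Finset ι) :=
  X.powerset.filter fun E => ∃ x y, Edge pt X x y ∧ E = {x, y}

open Classical in
/-- The number of edges inside `A`. -/
noncomputable def nsides (pt : ι → V) (X : Finset ι) (A : Finset ι) : ℕ :=
  ((edgeSets pt X).filter fun E => E ⊆ A).card

open Classical in
/-- The members of `K` adjacent to `v`. -/
noncomputable def nb (K : Finset (Finset ι)) (v : Finset ι) : Finset (Finset ι) :=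
  K.filter fun A => Adj v A

open Classical in
/-- The number of ordered corners of `v` with respect to `K`. -/
noncomputable def cor (K : Finset (Finset ι)) (X v : Finset ι) : ℕ :=
  ∑ w ∈ X, ((K ×ˢ K).filter fun e => Corner v w e.1 e.2).card

open Classical in
/-- Ordered pairs of members of `K` that are edges of the polar family of `Y`. -/
noncomputable def de (g : Finset ι → Module.Dual ℝ V) (Y K : Finset (Finset ι)) :
    Finset (Finset ι × Finset ι) :=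
  (K ×ˢ K).filter fun e => Edge g Y e.1 e.2

variable {pt : ι → V} {X : Finset ι} {o : V} {g : Finset ι → Module.Dual ℝ V}

lemma mem_edgeSets {E : Finset ι} : E ∈ edgeSets pt X ↔ ∃ x y, Edge pt X x y ∧ E = {x, y} := by
  classical
  simp only [edgeSets, mem_filter, mem_powerset]
  refine ⟨fun h => h.2, fun h => ⟨?_, h⟩⟩
  obtain ⟨x, y, h, rfl⟩ := h
  exact insert_subset h.1 (singleton_subset_iff.2 h.2.1)

lemma mem_nb {K : Finset (Finset ι)} {v A : Finset ι} : A ∈ nb K v ↔ A ∈ K ∧ Adj v A := by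
  simp only [nb, mem_filter]

omit [DecidableEq ι] in
lemma mem_de {Y K : Finset (Finset ι)} {e : Finset ι × Finset ι} :
    e ∈ de g Y K ↔ (e.1 ∈ K ∧ e.2 ∈ K) ∧ Edge g Y e.1 e.2 := by
  simp only [de, mem_filter, mem_product]

lemma nsides_le_nb (hV : finrank ℝ V = 3) (hX : Conv pt X) (hF : Full pt X) {A : Finset ι}
    (hA : Facet pt X A) : nsides pt X A ≤ (nb (facets pt X) A).card := by
  classical
  refine card_le_card_of_forall_subsingleton (fun E B => E ⊆ B) (fun E hE => ?_)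
    (fun B hB => ?_)
  · obtain ⟨hE, hEA⟩ := mem_filter.1 hE
    obtain ⟨x, y, hxy, rfl⟩ := mem_edgeSets.1 hE
    have hxA : x ∈ A := hEA (by simp)
    have hyA : y ∈ A := hEA (by simp)
    have key : ∀ B, Facet pt X B → B ≠ A → x ∈ B → y ∈ B →
        ∃ b, b ∈ nb (facets pt X) A ∧ ({x, y} : Finset ι) ⊆ b := fun B hB hBA hx hy =>
      ⟨B, mem_nb.2 ⟨mem_facets.2 hB, hBA.symm, one_lt_card.2
        ⟨x, mem_inter.2 ⟨hxA, hx⟩, y, mem_inter.2 ⟨hyA, hy⟩, hxy.2.2.1⟩⟩,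
        insert_subset hx (singleton_subset_iff.2 hy)⟩
    obtain ⟨B, C, hB, hC, hBC, h1, h2, h3, h4⟩ := two_facets hV hF hxy
    by_cases hBA : B = A
    · exact key C hC (fun h => hBC (hBA.trans h.symm)) h3 h4
    · exact key B hB hBA h1 h2
  · obtain ⟨hB, hAB⟩ := mem_nb.1 hB
    have h2 := facet_inter_le hV hX hA (mem_facets.1 hB) hAB.1
    have key : ∀ E ∈ edgeSets pt X, E ⊆ A → E ⊆ B → E = A ∩ B := by
      intro E hE h1 h3
      obtain ⟨x, y, hxy, rfl⟩ := mem_edgeSets.1 hE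
      refine eq_of_subset_of_card_le (subset_inter h1 h3) ?_
      rw [card_pair hxy.2.2.1]
      exact h2
    rintro E ⟨hE, hE'⟩ E' ⟨hE1, hE1'⟩
    obtain ⟨a, b⟩ := mem_filter.1 hE
    obtain ⟨c, d⟩ := mem_filter.1 hE1
    rw [key E a b hE', key E' c d hE1']

lemma card_le_nsides (hV : finrank ℝ V = 3) (hX : Conv pt X) {A : Finset ι}
    (hA : Facet pt X A) : A.card ≤ nsides pt X A := by
  classical
  have := card_mul_le_card_mul (s := A) (t := (edgeSets pt X).filter fun E => E ⊆ A)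
    (fun w E => w ∈ E) (m := 2) (n := 2) (fun w hw => by
      obtain ⟨p, hp, q, hq, hpq, ep, eq⟩ := two_edges hV hX hA hw
      refine one_lt_card.2 ⟨{w, p}, ?_, {w, q}, ?_, fun h => ?_⟩
      · exact mem_filter.2 ⟨mem_filter.2 ⟨mem_edgeSets.2 ⟨w, p, ep, rfl⟩,
          insert_subset hw (singleton_subset_iff.2 hp)⟩, by simp⟩
      · exact mem_filter.2 ⟨mem_filter.2 ⟨mem_edgeSets.2 ⟨w, q, eq, rfl⟩,
          insert_subset hw (singleton_subset_iff.2 hq)⟩, by simp⟩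
      · have : p ∈ ({w, q} : Finset ι) := h ▸ (by simp)
        simp only [mem_insert, mem_singleton] at this
        rcases this with h | h
        · exact ep.2.2.1 h.symm
        · exact hpq h) (fun E hE => by
      obtain ⟨x, y, -, rfl⟩ := mem_edgeSets.1 (mem_filter.1 hE).1
      refine le_trans (card_le_card (t := {x, y}) fun w hw => (mem_filter.1 hw).2) card_le_two)
  have e : nsides pt X A = ((edgeSets pt X).filter fun E => E ⊆ A).card := by
    unfold nsides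
    congr
  omega

lemma cor_ge (K : Finset (Finset ι)) {v : Finset ι} (hv : v ⊆ X) :
    4 * (nb K v).card ≤ cor K X v + 2 * v.card := by
  classical
  have h1 : ∑ w ∈ v, ((nb K v).filter fun A => w ∈ A).offDiag.card ≤ cor K X v := by
    refine le_trans (sum_le_sum fun w hw => card_le_card ?_) (sum_le_sum_of_subset hv)
    intro e he
    obtain ⟨k1, k2, k3⟩ := mem_offDiag.1 he
    obtain ⟨k1, k1'⟩ := mem_filter.1 k1
    obtain ⟨k2, k2'⟩ := mem_filter.1 k2
    rw [mem_nb] at k1 k2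
    exact mem_filter.2 ⟨mem_product.2 ⟨k1.1, k2.1⟩, hw, k1', k2', k3, k1.2, k2.2⟩
  have h2 : ∑ w ∈ v, 2 * ((nb K v).filter fun A => w ∈ A).card ≤
      ∑ w ∈ v, (((nb K v).filter fun A => w ∈ A).offDiag.card + 2) := by
    refine sum_le_sum fun w _ => ?_
    rw [offDiag_card]
    generalize ((nb K v).filter fun A => w ∈ A).card = k
    rcases k with _ | _ | k
    · simp
    · simp
    · have : (k + 1 + 1) * (k + 1 + 1) = k * k + 4 * k + 4 := by ring
      omega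
  have h3 := sum_card_bipartiteAbove_eq_sum_card_bipartiteBelow (s := v) (t := nb K v)
    (fun w A => w ∈ A)
  simp only [bipartiteAbove, bipartiteBelow] at h3
  have h4 : ∑ _A ∈ nb K v, 2 ≤ ∑ A ∈ nb K v, (v.filter fun w => w ∈ A).card := by
    refine sum_le_sum fun A hA => ?_
    rw [filter_mem_eq_inter]
    exact (mem_nb.1 hA).2.2
  rw [← mul_sum, h3, sum_add_distrib] at h2
  rw [sum_const, smul_eq_mul] at h4 h2
  omega

lemma sum_cor_le (hV : finrank ℝ V = 3) (hX : Conv pt X) (hg : Polar pt X o g)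
    {Y K R : Finset (Finset ι)} (hY : ∀ A ∈ Y, Facet pt X A) (hK : K ⊆ Y)
    (hR : ∀ v ∈ R, Facet pt X v ∧ v ∉ Y) : ∑ v ∈ R, cor K X v ≤ 2 * (de g Y K).card := by
  classical
  have h1 := sum_card_bipartiteAbove_eq_sum_card_bipartiteBelow (s := R ×ˢ X) (t := K ×ˢ K)
    (fun c e => Corner c.1 c.2 e.1 e.2)
  simp only [bipartiteAbove, bipartiteBelow] at h1
  rw [sum_product] at h1
  have h2 : ∑ v ∈ R, cor K X v =
      ∑ e ∈ K ×ˢ K, ((R ×ˢ X).filter fun c => Corner c.1 c.2 e.1 e.2).card := by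
    rw [← h1]
    rfl
  rw [h2, de, card_filter, mul_sum]
  refine sum_le_sum fun e he => ?_
  obtain ⟨k1, k2⟩ := mem_product.1 he
  split_ifs with h
  · exact corners_le_two hV hX (hY _ (hK k1)) (hY _ (hK k2)) _ fun c hc =>
      ⟨(hR _ (mem_product.1 (mem_filter.1 hc).1).1).1, (mem_filter.1 hc).2⟩
  · rw [mul_zero, Nat.le_zero, card_eq_zero, filter_eq_empty_iff]
    intro c hc hc'
    have := hR _ (mem_product.1 hc).1
    exact h (dual_edge_of_corner hV hX hg hY this.1 this.2 (hK k1) (hK k2) hc')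

open Classical in
lemma card_pairs (K B : Finset (Finset ι)) :
    ((K ×ˢ B).filter fun e => Adj e.2 e.1).card = ∑ v ∈ B, (nb K v).card := by
  rw [card_filter, sum_product_right]
  refine sum_congr rfl fun v _ => ?_
  rw [nb, card_filter]

lemma sum_nsides_le (hV : finrank ℝ V = 3) (hX : Conv pt X) (hF : Full pt X)
    (hg : Polar pt X o g) {Y K : Finset (Finset ι)} (hY : ∀ A ∈ Y, Facet pt X A) (hK : K ⊆ Y) :
    ∑ A ∈ K, nsides pt X A ≤ (de g Y K).card + ∑ v ∈ facets pt X \ K, (nb K v).card := by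
  classical
  have hKF : K ⊆ facets pt X := fun A hA => mem_facets.2 (hY A (hK hA))
  have h1 : ∑ A ∈ K, nsides pt X A ≤ ∑ A ∈ K, (nb (facets pt X) A).card :=
    sum_le_sum fun A hA => nsides_le_nb hV hX hF (hY A (hK hA))
  have h2 := sum_card_bipartiteAbove_eq_sum_card_bipartiteBelow (s := K) (t := facets pt X)
    (fun A v => Adj v A)
  simp only [bipartiteAbove, bipartiteBelow] at h2
  have h3 : ∑ A ∈ K, (nb (facets pt X) A).card = ∑ v ∈ facets pt X, (nb K v).card := by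
    refine Eq.trans (sum_congr rfl fun A _ => ?_) h2
    congr 1
    ext v
    rw [mem_nb, mem_filter]
    exact ⟨fun h => ⟨h.1, h.2.symm⟩, fun h => ⟨h.1, h.2.symm⟩⟩
  have h4 := sum_sdiff (f := fun v => (nb K v).card) hKF
  have h5 : ∑ v ∈ K, (nb K v).card ≤ (de g Y K).card := by
    rw [← card_pairs]
    refine card_le_card fun e he => ?_
    obtain ⟨k1, k2⟩ := mem_filter.1 he
    rw [mem_product] at k1
    exact mem_de.2 ⟨k1, dual_edge_of_adj hV hX hg hY (hK k1.1) (hK k1.2) k2.symm⟩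
  omega

lemma de_add_le (hV : finrank ℝ V = 3) (hX : Conv pt X) (hg : Polar pt X o g)
    {K B : Finset (Finset ι)} (hK : ∀ A ∈ K, Facet pt X A) (hB : ∀ A ∈ B, Facet pt X A)
    (hKB : Disjoint K B) (h3 : 3 ≤ K.card) :
    (de g (K ∪ B) K).card + 2 * ∑ v ∈ B, (nb K v).card + 12 ≤ 6 * (K.card + B.card) := by
  classical
  have hY : ∀ A ∈ K ∪ B, Facet pt X A := fun A hA => (mem_union.1 hA).elim (hK A) (hB A)
  have hD : finrank ℝ (Module.Dual ℝ V) = 3 := by rw [Subspace.dual_finrank_eq, hV]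
  let D := (K ×ˢ B).filter fun e => Adj e.2 e.1
  have hDm : ∀ e ∈ D, e.1 ∈ K ∧ e.2 ∈ B ∧ Edge g (K ∪ B) e.1 e.2 := fun e he => by
    obtain ⟨k1, k2⟩ := mem_filter.1 he
    rw [mem_product] at k1
    exact ⟨k1.1, k1.2, dual_edge_of_adj hV hX hg hY (mem_union_left _ k1.1)
      (mem_union_right _ k1.2) k2.symm⟩
  have hc : (K ∪ B).card = K.card + B.card := card_union_of_disjoint hKB
  have h1 := edges_le hD (dual_conv hV hX hg hY) (by omega)
    (de g (K ∪ B) K ∪ D ∪ D.image Prod.swap) (fun e he => by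
      rcases mem_union.1 he with he | he
      · rcases mem_union.1 he with he | he
        · exact (mem_de.1 he).2
        · exact (hDm e he).2.2
      · obtain ⟨e', he', rfl⟩ := mem_image.1 he
        exact (hDm e' he').2.2.symm)
  have d1 : Disjoint (de g (K ∪ B) K) D := by
    rw [disjoint_left]
    intro e he he'
    exact disjoint_left.1 hKB (mem_de.1 he).1.2 (hDm e he').2.1
  have d2 : Disjoint (de g (K ∪ B) K ∪ D) (D.image Prod.swap) := by
    rw [disjoint_left]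
    intro e he he'
    obtain ⟨e', he'', rfl⟩ := mem_image.1 he'
    rcases mem_union.1 he with he | he
    · exact disjoint_left.1 hKB (mem_de.1 he).1.1 (hDm e' he'').2.1
    · exact disjoint_left.1 hKB (hDm _ he).1 (hDm e' he'').2.1
  rw [card_union_of_disjoint d2, card_union_of_disjoint d1,
    card_image_of_injective _ Prod.swap_injective, hc] at h1
  have h2 : D.card = ∑ v ∈ B, (nb K v).card := by convert card_pairs K B
  omega

lemma bip_le (hV : finrank ℝ V = 3) (hX : Conv pt X) (hg : Polar pt X o g)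
    {K B : Finset (Finset ι)} (hK : ∀ A ∈ K, Facet pt X A) (hB : ∀ A ∈ B, Facet pt X A)
    (hKB : Disjoint K B) (h3 : 3 ≤ K.card) :
    ∑ v ∈ B, (nb K v).card + 4 ≤ 2 * (K.card + B.card) := by
  classical
  have hY : ∀ A ∈ K ∪ B, Facet pt X A := fun A hA => (mem_union.1 hA).elim (hK A) (hB A)
  have hD : finrank ℝ (Module.Dual ℝ V) = 3 := by rw [Subspace.dual_finrank_eq, hV]
  have hc : (K ∪ B).card = K.card + B.card := card_union_of_disjoint hKB
  have h1 := edges_bip_le hD (dual_conv hV hX hg hY) (by omega) K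
    ((K ×ˢ B).filter fun e => Adj e.2 e.1) (fun e he => by
      obtain ⟨k1, k2⟩ := mem_filter.1 he
      rw [mem_product] at k1
      exact ⟨dual_edge_of_adj hV hX hg hY (mem_union_left _ k1.1)
        (mem_union_right _ k1.2) k2.symm, k1.1, fun h => disjoint_left.1 hKB h k1.2⟩)
  rw [card_pairs, hc] at h1
  exact h1

theorem comb_M (hV : finrank ℝ V = 3) (hX : Conv pt X) (hF : Full pt X)
    {K : Finset (Finset ι)} (hK : K ⊆ facets pt X) (h3 : 3 ≤ K.card) :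
    ∑ A ∈ K, nsides pt X A + 24 ≤
      12 * K.card + ∑ v ∈ facets pt X \ K, min (nsides pt X v / 2) 3 := by
  classical
  obtain ⟨o, g, hg⟩ := exists_polar hF
  have hKF : ∀ A ∈ K, Facet pt X A := fun A hA => mem_facets.1 (hK hA)
  let B := (facets pt X \ K).filter fun v => 4 ≤ (nb K v).card
  let R := (facets pt X \ K).filter fun v => ¬ 4 ≤ (nb K v).card
  have hBF : ∀ A ∈ B, Facet pt X A := fun A hA => mem_facets.1 (mem_sdiff.1 (mem_filter.1 hA).1).1
  have hKB : Disjoint K B := by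
    rw [disjoint_right]
    exact fun A hA => (mem_sdiff.1 (mem_filter.1 hA).1).2
  have hY : ∀ A ∈ K ∪ B, Facet pt X A := fun A hA => (mem_union.1 hA).elim (hKF A) (hBF A)
  have h1 := sum_nsides_le hV hX hF hg hY subset_union_left
  have h2 := de_add_le hV hX hg hKF hBF hKB h3
  have h4 := sum_cor_le hV hX hg hY subset_union_left (R := R) fun v hv => by
    obtain ⟨k1, k2⟩ := mem_filter.1 hv
    refine ⟨mem_facets.1 (mem_sdiff.1 k1).1, fun h => ?_⟩
    rcases mem_union.1 h with h | h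
    · exact (mem_sdiff.1 k1).2 h
    · exact k2 (mem_filter.1 h).2
  have h5 := sum_filter_add_sum_filter_not (facets pt X \ K) (fun v => 4 ≤ (nb K v).card)
    fun v => (nb K v).card
  have h6 := sum_filter_add_sum_filter_not (facets pt X \ K) (fun v => 4 ≤ (nb K v).card)
    fun v => min (nsides pt X v / 2) 3
  have h7 : ∑ v ∈ R, 2 * (nb K v).card ≤
      ∑ v ∈ R, (2 * min (nsides pt X v / 2) 3 + cor K X v) := by
    refine sum_le_sum fun v hv => ?_
    obtain ⟨k1, k2⟩ := mem_filter.1 hv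
    have hv := mem_facets.1 (mem_sdiff.1 k1).1
    have e1 := cor_ge K hv.subset
    have e2 := card_le_nsides hV hX hv
    have e3 := hv.1
    omega
  have h8 : ∑ v ∈ B, 12 ≤ ∑ v ∈ B, (min (nsides pt X v / 2) 3 + 3 * (nb K v).card) := by
    refine sum_le_sum fun v hv => ?_
    have k2 := (mem_filter.1 hv).2
    omega
  rw [← mul_sum, sum_add_distrib, ← mul_sum] at h7
  rw [sum_add_distrib, ← mul_sum, sum_const, smul_eq_mul] at h8
  change ∑ v ∈ B, _ + ∑ v ∈ R, _ = _ at h5 h6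
  omega

theorem comb_N (hV : finrank ℝ V = 3) (hX : Conv pt X) (hF : Full pt X)
    {K : Finset (Finset ι)} (hK : K ⊆ facets pt X) (h3 : 3 ≤ K.card) :
    ∑ A ∈ K, nsides pt X A + 28 ≤
      14 * K.card + ∑ v ∈ facets pt X \ K, min (nsides pt X v / 2) 2 := by
  classical
  obtain ⟨o, g, hg⟩ := exists_polar hF
  have hKF : ∀ A ∈ K, Facet pt X A := fun A hA => mem_facets.1 (hK hA)
  let B := (facets pt X \ K).filter fun v => 3 ≤ (nb K v).card
  let R := (facets pt X \ K).filter fun v => ¬ 3 ≤ (nb K v).card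
  have hBF : ∀ A ∈ B, Facet pt X A := fun A hA => mem_facets.1 (mem_sdiff.1 (mem_filter.1 hA).1).1
  have hKB : Disjoint K B := by
    rw [disjoint_right]
    exact fun A hA => (mem_sdiff.1 (mem_filter.1 hA).1).2
  have h1 := sum_nsides_le hV hX hF hg hKF (Subset.refl _)
  have h2 := de_add_le hV hX hg hKF (B := ∅) (by simp) (by simp) h3
  rw [union_empty, sum_empty, card_empty] at h2
  have h2' := bip_le hV hX hg hKF hBF hKB h3
  have h4 := sum_cor_le hV hX hg hKF (Subset.refl _) (R := facets pt X \ K) fun v hv =>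
    ⟨mem_facets.1 (mem_sdiff.1 hv).1, (mem_sdiff.1 hv).2⟩
  have h5 := sum_filter_add_sum_filter_not (facets pt X \ K) (fun v => 3 ≤ (nb K v).card)
    fun v => (nb K v).card
  have h6 := sum_filter_add_sum_filter_not (facets pt X \ K) (fun v => 3 ≤ (nb K v).card)
    fun v => min (nsides pt X v / 2) 2
  have h6' := sum_filter_add_sum_filter_not (facets pt X \ K) (fun v => 3 ≤ (nb K v).card)
    fun v => cor K X v
  have h7 : ∑ v ∈ R, 2 * (nb K v).card ≤
      ∑ v ∈ R, (2 * min (nsides pt X v / 2) 2 + cor K X v) := by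
    refine sum_le_sum fun v hv => ?_
    obtain ⟨k1, k2⟩ := mem_filter.1 hv
    have hv := mem_facets.1 (mem_sdiff.1 k1).1
    have e1 := cor_ge K hv.subset
    have e2 := card_le_nsides hV hX hv
    have e3 := hv.1
    omega
  have h8 : ∑ v ∈ B, 4 ≤ ∑ v ∈ B, (2 * min (nsides pt X v / 2) 2 + cor K X v) := by
    refine sum_le_sum fun v hv => ?_
    obtain ⟨k1, k2⟩ := mem_filter.1 hv
    have hv := mem_facets.1 (mem_sdiff.1 k1).1
    have e1 := cor_ge K hv.subset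
    have e2 := card_le_nsides hV hX hv
    have e3 := hv.1
    omega
  rw [← mul_sum, sum_add_distrib, ← mul_sum] at h7
  rw [sum_add_distrib, ← mul_sum, sum_const, smul_eq_mul] at h8
  change ∑ v ∈ B, _ + ∑ v ∈ R, _ = _ at h5 h6 h6'
  omega

end Pool.Agent.P.MP_e40812_co
end

-- part Pool.Agent.P.MP_e40812_co.Geo
section

/-!
Faces of a convex polyhedron as subsets of its vertex set.
-/

namespace Pool.Agent.P.MP_e40812_co

open Module Finset

section General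

variable {V : Type*} [AddCommGroup V] [Module ℝ V] {X : Finset V}

lemma hull_le {φ : V →ₗ[ℝ] ℝ} {c : ℝ} {A : Finset V} (h : ∀ i ∈ A, φ i ≤ c) {x : V}
    (hx : x ∈ convexHull ℝ (A : Set V)) : φ x ≤ c :=
  convexHull_min (t := {y | φ y ≤ c}) (fun i hi => h i hi) (convex_halfSpace_le φ.isLinear c) hx

lemma hull_lt {φ : V →ₗ[ℝ] ℝ} {c : ℝ} {A : Finset V} (h : ∀ i ∈ A, φ i < c) {x : V}
    (hx : x ∈ convexHull ℝ (A : Set V)) : φ x < c :=
  convexHull_min (t := {y | φ y < c}) (fun i hi => h i hi) (convex_halfSpace_lt φ.isLinear c) hx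

lemma hull_eq {φ : V →ₗ[ℝ] ℝ} {c : ℝ} {A : Finset V} (h : ∀ i ∈ A, φ i = c) {x : V}
    (hx : x ∈ convexHull ℝ (A : Set V)) : φ x = c :=
  convexHull_min (t := {y | φ y = c}) (fun i hi => h i hi) (convex_hyperplane φ.isLinear c) hx

lemma face_eq {φ : V →ₗ[ℝ] ℝ} {c : ℝ} {A : Finset V} (hs : Supp id X φ c A) (hA : A.Nonempty) :
    {x ∈ convexHull ℝ (X : Set V) | ∀ y ∈ convexHull ℝ (X : Set V), φ y ≤ φ x} =
      convexHull ℝ (A : Set V) := by
  classical
  have hle : ∀ y ∈ convexHull ℝ (X : Set V), φ y ≤ c := fun y hy =>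
    hull_le (fun i hi => hs.le hi) hy
  ext x
  constructor
  · rintro ⟨hx, hx'⟩
    obtain ⟨a, ha⟩ := hA
    have h1 : c ≤ φ x := by
      have := hx' a (subset_convexHull _ _ (hs.1 ha))
      rwa [show φ a = c from hs.2.1 a ha] at this
    obtain ⟨w, hw0, hw1, rfl⟩ := Finset.mem_convexHull'.1 hx
    have h2 : ∑ y ∈ X, w y * (c - φ y) ≤ 0 := by
      simp only [mul_sub, sum_sub_distrib, ← sum_mul, hw1]
      simp only [map_sum, map_smul, smul_eq_mul] at h1
      linarith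
    have h3 : ∀ y ∈ X, 0 ≤ w y * (c - φ y) := fun y hy =>
      mul_nonneg (hw0 y hy) (sub_nonneg.2 (hs.le hy))
    have h4 := (sum_eq_zero_iff_of_nonneg h3).1 (le_antisymm h2 (sum_nonneg h3))
    have h5 : ∀ y ∈ X, y ∉ A → w y = 0 := fun y hy hyA =>
      (mul_eq_zero.1 (h4 y hy)).resolve_right (sub_pos.2 (hs.2.2 y hy hyA)).ne'
    refine Finset.mem_convexHull'.2 ⟨w, fun y hy => hw0 y (hs.1 hy), ?_, ?_⟩
    · rw [← hw1]
      exact sum_subset hs.1 h5
    · exact sum_subset hs.1 fun y hy hyA => by rw [h5 y hy hyA, zero_smul]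
  · intro hx
    refine ⟨convexHull_mono (coe_subset.2 hs.1) hx, fun y hy => ?_⟩
    rw [hull_eq hs.2.1 hx]
    exact hle y hy

lemma exists_supp (hX : X.Nonempty) (φ : V →ₗ[ℝ] ℝ) :
    ∃ c A, Supp id X φ c A ∧ A.Nonempty := by
  classical
  obtain ⟨a, ha, ha'⟩ := exists_max_image X φ hX
  refine ⟨φ a, X.filter fun x => φ x = φ a, ⟨filter_subset _ _, fun i hi => (mem_filter.1 hi).2,
    fun i hi hi' => lt_of_le_of_ne (ha' i hi) fun h => hi' (mem_filter.2 ⟨hi, h⟩)⟩,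
    a, mem_filter.2 ⟨ha, rfl⟩⟩

lemma mem_of_mem_hull (hX : Conv id X) {A : Finset V} (hA : A ⊆ X) {x : V} (hx : x ∈ X)
    (h : x ∈ convexHull ℝ (A : Set V)) : x ∈ A := by
  by_contra hxA
  obtain ⟨ψ, hψ⟩ := hX x hx
  exact lt_irrefl _ (hull_lt (φ := ψ) (c := ψ x)
    (fun i hi => hψ i (hA hi) fun h => hxA (h ▸ hi)) h)

lemma hull_subset_iff (hX : Conv id X) {A B : Finset V} (hA : A ⊆ X) (hB : B ⊆ X) :
    convexHull ℝ (A : Set V) ⊆ convexHull ℝ (B : Set V) ↔ A ⊆ B :=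
  ⟨fun h _ hx => mem_of_mem_hull hX hB (hA hx) (h (subset_convexHull _ _ hx)),
    fun h => convexHull_mono (coe_subset.2 h)⟩

lemma hull_inj (hX : Conv id X) {A B : Finset V} (hA : A ⊆ X) (hB : B ⊆ X)
    (h : convexHull ℝ (A : Set V) = convexHull ℝ (B : Set V)) : A = B :=
  Subset.antisymm ((hull_subset_iff hX hA hB).1 h.subset) ((hull_subset_iff hX hB hA).1 h.superset)

lemma vectorSpan_hull (s : Set V) : vectorSpan ℝ (convexHull ℝ s) = vectorSpan ℝ s := by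
  rw [← direction_affineSpan, affineSpan_convexHull, direction_affineSpan]

lemma dim_lt_card {A : Finset V} (hA : A.Nonempty) :
    finrank ℝ (vectorSpan ℝ (A : Set V)) + 1 ≤ A.card := by
  classical
  have h1 : A.card = (A.card - 1) + 1 := by
    have := card_pos.2 hA
    omega
  have := finrank_vectorSpan_image_finset_le ℝ (id : V → V) A h1
  rw [image_id] at this
  omega

lemma two_le_dim [FiniteDimensional ℝ V] (hX : Conv id X) {A : Finset V} (hA : A ⊆ X)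
    (h3 : 3 ≤ A.card) : 2 ≤ finrank ℝ (vectorSpan ℝ (A : Set V)) := by
  obtain ⟨x, p, q, hx, hp, hq, hxp, hxq, hpq⟩ := two_lt_card_iff.1 h3
  let w : Fin 2 → vectorSpan ℝ (A : Set V) :=
    ![⟨p - x, vsub_mem_vectorSpan ℝ hp hx⟩, ⟨q - x, vsub_mem_vectorSpan ℝ hq hx⟩]
  have hw : LinearIndependent ℝ w := by
    rw [LinearIndependent.pair_iff]
    intro s t h
    exact indep3 hX (hA hx) (hA hp) (hA hq) hxp hxq hpq s t (congrArg Subtype.val h)
  simpa using hw.fintype_card_le_finrank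

lemma one_le_dim [FiniteDimensional ℝ V] {A : Finset V} {x y : V} (hx : x ∈ A) (hy : y ∈ A)
    (hxy : x ≠ y) : 1 ≤ finrank ℝ (vectorSpan ℝ (A : Set V)) := by
  rw [Submodule.one_le_finrank_iff]
  intro h
  have : x - y ∈ vectorSpan ℝ (A : Set V) := vsub_mem_vectorSpan ℝ hx hy
  rw [h, Submodule.mem_bot, sub_eq_zero] at this
  exact hxy this

lemma span_le_ker {φ : V →ₗ[ℝ] ℝ} {c : ℝ} {A : Finset V} (h : ∀ i ∈ A, φ i = c) :
    vectorSpan ℝ (A : Set V) ≤ LinearMap.ker φ := by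
  rw [vectorSpan_def, Submodule.span_le]
  rintro _ ⟨x, hx, y, hy, rfl⟩
  simp [h x hx, h y hy]

lemma dim_le_two (hV : finrank ℝ V = 3) {φ : V →ₗ[ℝ] ℝ} (hφ : φ ≠ 0) {c : ℝ} {A : Finset V}
    (h : ∀ i ∈ A, φ i = c) : finrank ℝ (vectorSpan ℝ (A : Set V)) ≤ 2 := by
  have : FiniteDimensional ℝ V := Module.finite_of_finrank_pos (by omega)
  have h1 := Submodule.finrank_mono (span_le_ker h)
  have h2 := Module.Dual.finrank_ker_add_one_of_ne_zero hφ
  omega

end General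

lemma finrank_three : finrank ℝ (EuclideanSpace ℝ (Fin 3)) = 3 := by simp

lemma exists_vertices {P : Set (EuclideanSpace ℝ (Fin 3))} (hP : IsPolyhedron P) :
    ∃ X : Finset (EuclideanSpace ℝ (Fin 3)), P = convexHull ℝ (X : Set _) ∧ Conv id X ∧
      finrank ℝ (vectorSpan ℝ (X : Set (EuclideanSpace ℝ (Fin 3)))) = 3 := by
  classical
  obtain ⟨⟨S, hS⟩, hd⟩ := hP
  obtain ⟨X, hX, hmin⟩ := exists_min_image
    (S.powerset.filter fun T : Finset (EuclideanSpace ℝ (Fin 3)) =>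
      P = convexHull ℝ (T : Set (EuclideanSpace ℝ (Fin 3)))) card
    ⟨S, mem_filter.2 ⟨mem_powerset_self _, hS⟩⟩
  obtain ⟨hXS, hXP⟩ := mem_filter.1 hX
  refine ⟨X, hXP, fun x hx => ?_, by rw [← vectorSpan_hull, ← hXP, hd]⟩
  have hnot : x ∉ convexHull ℝ ((X.erase x : Finset _) : Set (EuclideanSpace ℝ (Fin 3))) := by
    intro h
    have h1 : P = convexHull ℝ ((X.erase x : Finset _) : Set (EuclideanSpace ℝ (Fin 3))) := by
      rw [hXP]
      refine Set.Subset.antisymm (convexHull_min (fun y hy => ?_) (convex_convexHull _ _))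
        (convexHull_mono (coe_subset.2 (erase_subset _ _)))
      by_cases hyx : y = x
      · exact hyx ▸ h
      · exact subset_convexHull _ _ (mem_coe.2 (mem_erase.2 ⟨hyx, hy⟩))
    have h2 := hmin (X.erase x) (mem_filter.2
      ⟨mem_powerset.2 ((erase_subset _ _).trans (mem_powerset.1 hXS)), h1⟩)
    have h3 := card_erase_lt_of_mem hx
    omega
  obtain ⟨f, u, hf, hu⟩ := geometric_hahn_banach_closed_point (convex_convexHull ℝ _)
    ((finite_toSet _).isClosed_convexHull ℝ) hnot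
  refine ⟨f.toLinearMap, fun j hj hjx => ?_⟩
  exact (hf j (subset_convexHull _ _ (mem_coe.2 (mem_erase.2 ⟨hjx, hj⟩)))).trans hu

variable {X : Finset (EuclideanSpace ℝ (Fin 3))}

lemma full_of_dim (hd : finrank ℝ (vectorSpan ℝ (X : Set (EuclideanSpace ℝ (Fin 3)))) = 3) :
    Full id X := by
  intro φ hφ c
  by_contra h
  push Not at h
  have := dim_le_two finrank_three hφ h
  omega

lemma isFace_iff (hd : finrank ℝ (vectorSpan ℝ (X : Set (EuclideanSpace ℝ (Fin 3)))) = 3)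
    {j : ℕ} {F : Set (EuclideanSpace ℝ (Fin 3))} :
    IsFace (convexHull ℝ (X : Set _)) j F ↔ ∃ φ c A, Supp id X φ c A ∧ A.Nonempty ∧
      F = convexHull ℝ (A : Set _) ∧
        finrank ℝ (vectorSpan ℝ (A : Set (EuclideanSpace ℝ (Fin 3)))) = j := by
  have hX : X.Nonempty := by
    rw [nonempty_iff_ne_empty]
    rintro rfl
    rw [coe_empty, vectorSpan_empty, finrank_bot] at hd
    omega
  constructor
  · rintro ⟨h1, h2, h3⟩
    obtain ⟨l, hl⟩ := h2 h1
    obtain ⟨c, A, hs, hA⟩ := exists_supp hX l.toLinearMap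
    have e : F = convexHull ℝ (A : Set _) := hl.trans (face_eq hs hA)
    exact ⟨_, c, A, hs, hA, e, by rw [← vectorSpan_hull, ← e, h3]⟩
  · rintro ⟨φ, c, A, hs, hA, rfl, h⟩
    refine ⟨convexHull_nonempty_iff.2 (by exact_mod_cast hA),
      fun _ => ⟨LinearMap.toContinuousLinearMap φ, (face_eq hs hA).symm⟩, ?_⟩
    rw [vectorSpan_hull, h]

lemma isFace_two_iff (hX : Conv id X)
    (hd : finrank ℝ (vectorSpan ℝ (X : Set (EuclideanSpace ℝ (Fin 3)))) = 3)
    {F : Set (EuclideanSpace ℝ (Fin 3))} :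
    IsFace (convexHull ℝ (X : Set _)) 2 F ↔ ∃ A, Facet id X A ∧ convexHull ℝ (A : Set _) = F := by
  rw [isFace_iff hd]
  constructor
  · rintro ⟨φ, c, A, hs, hA, rfl, h⟩
    refine ⟨A, ⟨?_, φ, ?_, c, hs⟩, rfl⟩
    · have := dim_lt_card hA
      omega
    · rintro rfl
      obtain ⟨a, ha⟩ := hA
      have e : A = X := Subset.antisymm hs.1 fun x hx => hs.mem hx (hs.2.1 a ha)
      rw [e] at h
      omega
  · rintro ⟨A, ⟨h3, φ, hφ, c, hs⟩, rfl⟩
    exact ⟨φ, c, A, hs, card_pos.1 (by omega), rfl,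
      le_antisymm (dim_le_two finrank_three hφ hs.2.1) (two_le_dim hX hs.1 h3)⟩

open Classical in
lemma isFace_one_iff (hX : Conv id X)
    (hd : finrank ℝ (vectorSpan ℝ (X : Set (EuclideanSpace ℝ (Fin 3)))) = 3)
    {F : Set (EuclideanSpace ℝ (Fin 3))} :
    IsFace (convexHull ℝ (X : Set _)) 1 F ↔
      ∃ A ∈ edgeSets id X, convexHull ℝ (A : Set _) = F := by
  rw [isFace_iff hd]
  constructor
  · rintro ⟨φ, c, A, hs, hA, rfl, h⟩
    have h1 := dim_lt_card hA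
    have h2 : A.card = 2 := by
      by_contra hh
      have := two_le_dim hX hs.1 (by omega)
      omega
    obtain ⟨x, y, hxy, rfl⟩ := card_eq_two.1 h2
    have hx : φ x = c := hs.2.1 x (by simp)
    have hy : φ y = c := hs.2.1 y (by simp)
    refine ⟨_, mem_edgeSets.2 ⟨x, y, ⟨hs.1 (by simp), hs.1 (by simp), hxy, φ, hy.trans hx.symm,
      fun k hk hkx hky => ?_⟩, rfl⟩, rfl⟩
    have := hs.2.2 k hk (by simp [hkx, hky])
    exact this.trans_eq hx.symm
  · rintro ⟨A, hA, rfl⟩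
    obtain ⟨x, y, ⟨hx, hy, hxy, φ, h1, h2⟩, rfl⟩ := mem_edgeSets.1 hA
    refine ⟨φ, φ x, {x, y}, ⟨insert_subset hx (singleton_subset_iff.2 hy), fun i hi => ?_,
      fun i hi hi' => ?_⟩, by simp, rfl, le_antisymm ?_ (one_le_dim (x := x) (y := y) (by simp)
        (by simp) hxy)⟩
    · simp only [mem_insert, mem_singleton] at hi
      rcases hi with rfl | rfl
      · rfl
      · exact h1
    · simp only [mem_insert, mem_singleton, not_or] at hi'
      exact h2 i hi hi'.1 hi'.2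
    · have h3 := dim_lt_card (A := ({x, y} : Finset (EuclideanSpace ℝ (Fin 3)))) (by simp)
      have h4 : ({x, y} : Finset (EuclideanSpace ℝ (Fin 3))).card ≤ 2 := card_le_two
      omega

open Classical in
lemma sides_eq (hX : Conv id X)
    (hd : finrank ℝ (vectorSpan ℝ (X : Set (EuclideanSpace ℝ (Fin 3)))) = 3)
    {A : Finset (EuclideanSpace ℝ (Fin 3))} (hA : A ⊆ X) :
    sides (convexHull ℝ (X : Set _)) (convexHull ℝ (A : Set _)) = nsides id X A := by
  have hsub : ∀ E ∈ edgeSets id X, E ⊆ X := fun E hE => by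
    obtain ⟨x, y, h, rfl⟩ := mem_edgeSets.1 hE
    exact insert_subset h.1 (singleton_subset_iff.2 h.2.1)
  have e : {E | IsFace (convexHull ℝ (X : Set _)) 1 E ∧ E ⊆ convexHull ℝ (A : Set _)} =
      (fun B : Finset (EuclideanSpace ℝ (Fin 3)) => convexHull ℝ (B : Set _)) ''
        ((edgeSets id X).filter fun E => E ⊆ A : Finset _) := by
    ext F
    simp only [Set.mem_ofPred_eq, isFace_one_iff hX hd, Set.mem_image, mem_coe, mem_filter]
    constructor
    · rintro ⟨⟨B, hB, rfl⟩, h⟩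
      exact ⟨B, ⟨hB, (hull_subset_iff hX (hsub B hB) hA).1 h⟩, rfl⟩
    · rintro ⟨B, ⟨hB, h⟩, rfl⟩
      exact ⟨⟨B, hB, rfl⟩, (hull_subset_iff hX (hsub B hB) hA).2 h⟩
  rw [sides, e, Set.InjOn.ncard_image, Set.ncard_coe_finset, nsides]
  intro B hB C hC h
  exact hull_inj hX (hsub B (mem_filter.1 hB).1) (hsub C (mem_filter.1 hC).1) h

open Classical in
lemma faceCount_eq (hX : Conv id X)
    (hd : finrank ℝ (vectorSpan ℝ (X : Set (EuclideanSpace ℝ (Fin 3)))) = 3) (n : ℕ) :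
    faceCount (convexHull ℝ (X : Set _)) n =
      ((facets id X).filter fun A => nsides id X A = n).card := by
  have e : {F | IsFace (convexHull ℝ (X : Set _)) 2 F ∧ sides (convexHull ℝ (X : Set _)) F = n} =
      (fun B : Finset (EuclideanSpace ℝ (Fin 3)) => convexHull ℝ (B : Set _)) ''
        ((facets id X).filter fun A => nsides id X A = n : Finset _) := by
    ext F
    simp only [Set.mem_ofPred_eq, isFace_two_iff hX hd, Set.mem_image, mem_coe, mem_filter,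
      mem_facets]
    constructor
    · rintro ⟨⟨B, hB, rfl⟩, h⟩
      exact ⟨B, ⟨hB, by rwa [sides_eq hX hd hB.subset] at h⟩, rfl⟩
    · rintro ⟨B, ⟨hB, h⟩, rfl⟩
      exact ⟨⟨B, hB, rfl⟩, by rwa [sides_eq hX hd hB.subset]⟩
  rw [faceCount, e, Set.InjOn.ncard_image, Set.ncard_coe_finset]
  intro B hB C hC h
  exact hull_inj hX (mem_facets.1 (mem_filter.1 hB).1).subset
    (mem_facets.1 (mem_filter.1 hC).1).subset h

lemma sum_eq_finsum {α : Type*} (T : Finset α) (s : α → ℕ) (f : ℕ → ℕ) :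
    ∑ A ∈ T, f (s A) = ∑ᶠ n, f n * (T.filter fun A => s A = n).card := by
  rw [sum_comp, finsum_eq_sum_of_support_subset (s := T.image s)]
  · exact sum_congr rfl fun n _ => by rw [smul_eq_mul, mul_comm]
  · intro n hn
    rw [Function.mem_support, mul_ne_zero_iff, card_ne_zero] at hn
    obtain ⟨A, hA⟩ := hn.2
    obtain ⟨h1, h2⟩ := mem_filter.1 hA
    exact mem_coe.2 (mem_image.2 ⟨A, h1, h2⟩)

lemma exists_choice {α : Type*} [DecidableEq α] (T : Finset α) (s : α → ℕ) (k : ℕ → ℕ)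
    (hk : ∀ n, k n ≤ (T.filter fun A => s A = n).card) :
    ∃ K ⊆ T, ∀ f : ℕ → ℕ, ∑ A ∈ K, f (s A) = ∑ᶠ n, f n * k n ∧
      ∑ A ∈ T \ K, f (s A) = ∑ᶠ n, f n * ((T.filter fun A => s A = n).card - k n) := by
  choose L hL hL' using fun n => exists_subset_card_eq (hk n)
  have e : ∀ n, ((T.filter fun A => A ∈ L (s A)).filter fun A => s A = n) = L n := by
    intro n
    ext A
    simp only [mem_filter]
    constructor
    · rintro ⟨⟨-, h⟩, rfl⟩
      exact h
    · intro h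
      obtain ⟨h1, rfl⟩ := mem_filter.1 (hL n h)
      exact ⟨⟨h1, h⟩, rfl⟩
  refine ⟨T.filter fun A => A ∈ L (s A), filter_subset _ _, fun f => ⟨?_, ?_⟩⟩
  · rw [sum_eq_finsum]
    exact finsum_congr fun n => by rw [e, hL']
  · rw [sum_eq_finsum]
    refine finsum_congr fun n => ?_
    rw [← hL', ← card_sdiff_of_subset (hL n), ← e n]
    congr 2
    ext A
    simp only [mem_filter, mem_sdiff]
    tauto

open Classical in
/-- Transfer of an inequality for subsets of facets to the face counts of a polyhedron. -/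
lemma transfer {P : Set (EuclideanSpace ℝ (Fin 3))} (hP : IsPolyhedron P) (k : ℕ → ℕ)
    (hk : ∀ n, k n ≤ faceCount P n) :
    ∃ X : Finset (EuclideanSpace ℝ (Fin 3)), Conv id X ∧ Full id X ∧ ∃ K ⊆ facets id X,
      K.card = ∑ᶠ n, k n ∧ ∀ f : ℕ → ℕ, ∑ A ∈ K, f (nsides id X A) = ∑ᶠ n, f n * k n ∧
        ∑ A ∈ facets id X \ K, f (nsides id X A) = ∑ᶠ n, f n * (faceCount P n - k n) := by
  obtain ⟨X, rfl, hX, hd⟩ := exists_vertices hP
  simp only [faceCount_eq hX hd] at hk ⊢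
  obtain ⟨K, hK, h⟩ := exists_choice (facets id X) (nsides id X) k hk
  refine ⟨X, hX, full_of_dim hd, K, hK, ?_, h⟩
  simpa using (h fun _ => 1).1

end Pool.Agent.P.MP_e40812_co
end
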