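import Mathlib
import Pool.Agent.K.MP_e40812_co.C0

-- part Pool.Agent.P.MP_e40812_co.Tri
section

/-!
Abstract triangulated spheres, given by their vertex sets and triangles.
-/

namespace Pool.Agent.P.MP_e40812_co

open Finset

variable {ι : Type*} [DecidableEq ι]

/-- The three points are distinct and form a triangle of `F`. -/
def T (F : Finset (Finset ι)) (a b c : ι) : Prop :=
  a ≠ b ∧ a ≠ c ∧ b ≠ c ∧ ({a, b, c} : Finset ι) ∈ F

/-- Neighbouring vertices. -/
def Nb (F : Finset (Finset ι)) (a b : ι) : Prop := ∃ c, T F a b c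

/-- The number of triangles at `v`. -/
def deg (F : Finset (Finset ι)) (v : ι) : ℕ := (F.filter fun t => v ∈ t).card

/-- Triangle systems without boundary with the face count of a sphere. -/
structure Pre (V : Finset ι) (F : Finset (Finset ι)) : Prop where
  three : ∀ t ∈ F, t.card = 3
  sub : ∀ t ∈ F, t ⊆ V
  cover : ∀ v ∈ V, ∃ t ∈ F, v ∈ t
  next : ∀ {a b c}, T F a b c → ∃ d, d ≠ c ∧ T F a b d
  card : F.card + 4 = 2 * V.card

/-- Strongly connected pseudomanifolds with the face count of a sphere. -/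
structure Tri (V : Finset ι) (F : Finset (Finset ι)) : Prop extends Pre V F where
  uniq : ∀ {a b c d e}, T F a b c → T F a b d → T F a b e → c = d ∨ c = e ∨ d = e
  conn : ∀ S : Finset ι → Prop, (∃ t ∈ F, S t) →
    (∀ a b c d, T F a b c → T F a b d → S {a, b, c} → S {a, b, d}) → ∀ t ∈ F, S t

variable {V : Finset ι} {F : Finset (Finset ι)} {a b c d v y : ι}

lemma tri12 (a b c : ι) : ({a, b, c} : Finset ι) = {b, a, c} := insert_comm _ _ _

lemma tri23 (a b c : ι) : ({a, b, c} : Finset ι) = {a, c, b} := by rw [pair_comm b c]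

lemma T.s12 (h : T F a b c) : T F b a c :=
  ⟨h.1.symm, h.2.2.1, h.2.1, tri12 a b c ▸ h.2.2.2⟩

lemma T.s23 (h : T F a b c) : T F a c b :=
  ⟨h.2.1, h.1, h.2.2.1.symm, tri23 a b c ▸ h.2.2.2⟩

lemma T.rot (h : T F a b c) : T F b c a := h.s12.s23

lemma T.rot' (h : T F a b c) : T F c a b := h.s23.s12

lemma T.s13 (h : T F a b c) : T F c b a := h.rot.s12

lemma T.nb (h : T F a b c) : Nb F a b := ⟨c, h⟩

lemma T.nb' (h : T F a b c) : Nb F a c := ⟨b, h.s23⟩

lemma Nb.symm (h : Nb F a b) : Nb F b a := h.imp fun _ h => h.s12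

lemma Nb.ne (h : Nb F a b) : a ≠ b := h.elim fun _ h => h.1

lemma T.card (h : T F a b c) : ({a, b, c} : Finset ι).card = 3 :=
  card_eq_three.2 ⟨a, b, c, h.1, h.2.1, h.2.2.1, rfl⟩

lemma Pre.mem (h : Pre V F) (t : T F a b c) : a ∈ V := h.sub _ t.2.2.2 (by simp)

lemma Pre.nb_mem (h : Pre V F) (t : Nb F a b) : a ∈ V := t.elim fun _ t => h.mem t

lemma three_of_mem {t : Finset ι} (h : t.card = 3) (hu : a ∈ t) (hv : b ∈ t) (huv : a ≠ b) :
    ∃ c, a ≠ c ∧ b ≠ c ∧ t = {a, b, c} := by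
  have h1 : ((t.erase a).erase b).card = 1 := by
    rw [card_erase_of_mem (mem_erase.2 ⟨huv.symm, hv⟩), card_erase_of_mem hu, h]
  obtain ⟨c, hc⟩ := card_eq_one.1 h1
  have h2 : c ∈ (t.erase a).erase b := by simp [hc]
  simp only [mem_erase] at h2
  refine ⟨c, h2.2.1.symm, h2.1.symm, ?_⟩
  rw [← hc, insert_erase (mem_erase.2 ⟨huv.symm, hv⟩), insert_erase hu]

lemma Pre.exists_T2 (h : Pre V F) {t : Finset ι} (ht : t ∈ F) (hu : a ∈ t) (hv : b ∈ t)
    (huv : a ≠ b) : ∃ c, T F a b c ∧ t = {a, b, c} := by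
  obtain ⟨c, h1, h2, rfl⟩ := three_of_mem (h.three t ht) hu hv huv
  exact ⟨c, ⟨huv, h1, h2, ht⟩, rfl⟩

lemma Pre.exists_T (h : Pre V F) {t : Finset ι} (ht : t ∈ F) (hv : v ∈ t) :
    ∃ a b, T F v a b ∧ t = {v, a, b} := by
  obtain ⟨a, ha, hav⟩ := exists_mem_ne (show 1 < t.card by rw [h.three t ht]; omega) v
  obtain ⟨b, hb⟩ := h.exists_T2 ht hv ha hav.symm
  exact ⟨a, b, hb⟩

lemma Pre.exists_T0 (h : Pre V F) {t : Finset ι} (ht : t ∈ F) :
    ∃ a b c, T F a b c ∧ t = {a, b, c} := by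
  obtain ⟨v, hv⟩ := card_pos.1 (show 0 < t.card by rw [h.three t ht]; omega)
  exact ⟨v, h.exists_T ht hv⟩

lemma Pre.exists_TV (h : Pre V F) (hv : v ∈ V) : ∃ a b, T F v a b := by
  obtain ⟨t, ht, hv⟩ := h.cover v hv
  obtain ⟨a, b, h1, -⟩ := h.exists_T ht hv
  exact ⟨a, b, h1⟩

lemma Pre.three_le (h : Pre V F) (hv : v ∈ V) : 3 ≤ deg F v := by
  obtain ⟨a, b, t⟩ := h.exists_TV hv
  obtain ⟨c, hc, t1⟩ := h.next t.s23
  obtain ⟨d, hd, t2⟩ := h.next t
  refine two_lt_card_iff.2 ⟨{v, a, b}, {v, b, c}, {v, a, d}, ?_, ?_, ?_, ?_, ?_, ?_⟩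
  · exact mem_filter.2 ⟨t.2.2.2, by simp⟩
  · exact mem_filter.2 ⟨t1.2.2.2, by simp⟩
  · exact mem_filter.2 ⟨t2.2.2.2, by simp⟩
  · intro e
    have : a ∈ ({v, b, c} : Finset ι) := e ▸ (by simp)
    simp [t.1.symm, t.2.2.1, hc.symm] at this
  · intro e
    have : b ∈ ({v, a, d} : Finset ι) := e ▸ (by simp)
    simp [t.2.1.symm, t.2.2.1.symm, hd.symm] at this
  · intro e
    have : b ∈ ({v, a, d} : Finset ι) := e ▸ (by simp)
    simp [t.2.1.symm, t.2.2.1.symm, hd.symm] at this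

lemma sum_deg (S : Finset ι) (F : Finset (Finset ι)) :
    ∑ v ∈ S, deg F v = ∑ t ∈ F, (t ∩ S).card := by
  have := sum_card_bipartiteAbove_eq_sum_card_bipartiteBelow (s := S) (t := F) fun v t => v ∈ t
  simp only [bipartiteAbove, bipartiteBelow] at this
  refine this.trans (sum_congr rfl fun t _ => ?_)
  rw [filter_mem_eq_inter, inter_comm]

lemma Pre.sum_deg (h : Pre V F) : ∑ v ∈ V, deg F v + 12 = 6 * V.card := by
  rw [Pool.Agent.P.MP_e40812_co.sum_deg, sum_congr rfl fun t ht =>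
    show (t ∩ V).card = 3 by rw [inter_eq_left.2 (h.sub t ht), h.three t ht]]
  have := h.card
  simp only [sum_const, smul_eq_mul]
  omega

lemma Tri.two (h : Tri V F) (hab : Nb F a b) :
    ((F.filter fun t => a ∈ t).filter fun t => b ∈ t).card = 2 := by
  obtain ⟨c, t⟩ := hab
  obtain ⟨d, hd, t1⟩ := h.next t
  refine card_eq_two.2 ⟨{a, b, c}, {a, b, d}, fun e => ?_, ?_⟩
  · have : d ∈ ({a, b, c} : Finset ι) := e ▸ (by simp)
    simp [t1.2.1.symm, t1.2.2.1.symm, hd] at this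
  · ext s
    simp only [mem_filter, mem_insert, mem_singleton]
    constructor
    · rintro ⟨⟨hs, ha⟩, hb⟩
      obtain ⟨e, t2, rfl⟩ := h.exists_T2 hs ha hb t.1
      rcases h.uniq t t1 t2 with k | k | k
      · exact absurd k.symm hd
      · exact Or.inl (by rw [k])
      · exact Or.inr (by rw [k])
    · rintro (rfl | rfl)
      · exact ⟨⟨t.2.2.2, by simp⟩, by simp⟩
      · exact ⟨⟨t1.2.2.2, by simp⟩, by simp⟩

open Classical in
lemma Tri.deg_eq (h : Tri V F) (v : ι) : deg F v = (V.filter fun u => Nb F v u).card := by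
  have := card_mul_eq_card_mul (s := F.filter fun t => v ∈ t) (t := V.filter fun u => Nb F v u)
    (fun t u => u ∈ t) (m := 2) (n := 2) (fun t ht => by
      obtain ⟨ht, hv⟩ := mem_filter.1 ht
      obtain ⟨a, b, k, rfl⟩ := h.exists_T ht hv
      refine card_eq_two.2 ⟨a, b, k.2.2.1, ?_⟩
      ext u
      simp only [mem_bipartiteAbove, mem_filter, mem_insert, mem_singleton]
      constructor
      · rintro ⟨⟨-, h1⟩, rfl | h2⟩
        · exact absurd rfl h1.ne
        · exact h2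
      · rintro (rfl | rfl)
        · exact ⟨⟨h.mem k.s12, k.nb⟩, by simp⟩
        · exact ⟨⟨h.mem k.s13, k.nb'⟩, by simp⟩) (fun u hu => by
      convert h.two (mem_filter.1 hu).2 using 2
      ext t
      simp only [mem_bipartiteBelow, mem_filter])
  unfold deg
  omega

lemma Tri.card_le_deg (h : Tri V F) (s : Finset ι) (hs : ∀ u ∈ s, Nb F v u) :
    s.card ≤ deg F v := by
  classical
  rw [h.deg_eq]
  exact card_le_card fun u hu => mem_filter.2 ⟨h.nb_mem (hs u hu).symm, hs u hu⟩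

lemma Tri.exists_nb (h : Tri V F) (s : Finset ι) (hs : s.card < deg F v) :
    ∃ u, u ∉ s ∧ Nb F v u := by
  classical
  rw [h.deg_eq] at hs
  obtain ⟨u, h1, h2⟩ := exists_mem_notMem_of_card_lt_card hs
  exact ⟨u, h2, (mem_filter.1 h1).2⟩

lemma Tri.nb_of_card (h : Tri V F) (s : Finset ι) (hs : ∀ u ∈ s, Nb F v u)
    (hc : deg F v ≤ s.card) {u : ι} (hu : Nb F v u) : u ∈ s := by
  by_contra hn
  have := h.card_le_deg (insert u s) (v := v) (by
    intro x hx
    rcases mem_insert.1 hx with rfl | hx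
    · exact hu
    · exact hs x hx)
  rw [card_insert_of_notMem hn] at this
  omega

lemma Tri.nb3 (h : Tri V F) (hd : deg F v = 3) (ha : Nb F v a) (hb : Nb F v b) (hc : Nb F v c)
    (hab : a ≠ b) (hac : a ≠ c) (hbc : b ≠ c) {u : ι} (hu : Nb F v u) : u = a ∨ u = b ∨ u = c := by
  have := h.nb_of_card {a, b, c} (by simp [ha, hb, hc])
    (by rw [hd, card_eq_three.2 ⟨a, b, c, hab, hac, hbc, rfl⟩]) hu
  simpa using this

lemma Tri.link3 (h : Tri V F) (hd : deg F v = 3) (t : T F v a b) :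
    ∃ c, T F v b c ∧ T F v c a ∧ ∀ u, Nb F v u → u = a ∨ u = b ∨ u = c := by
  obtain ⟨c, hc, t1⟩ := h.next t.s23
  obtain ⟨d, hd', t2⟩ := h.next t
  have key := fun u => h.nb3 (u := u) hd t.nb t.nb' t1.nb' t.2.2.1 hc.symm t1.2.2.1
  rcases key d t2.nb' with k | k | k
  · exact absurd k.symm t2.2.2.1
  · exact absurd k hd'
  · exact ⟨c, t1, (k ▸ t2).s23, key⟩

lemma Tri.link4 (h : Tri V F) (hd : deg F v = 4) (t : T F v a b) :
    ∃ c d, T F v b c ∧ T F v c d ∧ T F v d a ∧ a ≠ c ∧ b ≠ d ∧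
      ∀ u, Nb F v u → u = a ∨ u = b ∨ u = c ∨ u = d := by
  obtain ⟨c, hc, t1⟩ := h.next t.s23
  obtain ⟨d, hd', t2⟩ := h.next t
  have key : ∀ e, Nb F v e → e ≠ a → e ≠ b → e ≠ c → ∀ u, Nb F v u →
      u = a ∨ u = b ∨ u = c ∨ u = e := by
    intro e he h1 h2 h3 u hu
    have := h.nb_of_card {a, b, c, e} (by simp [t.nb, t.nb', t1.nb', he])
      (by
        rw [hd, card_insert_of_notMem (by simp [t.2.2.1, hc.symm, h1.symm]),
          card_eq_three.2 ⟨b, c, e, t1.2.2.1, h2.symm, h3.symm, rfl⟩]) hu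
    simpa using this
  have hcd : c ≠ d := by
    rintro rfl
    obtain ⟨x, hx, ⟨z, t3⟩⟩ := h.exists_nb (v := v) {a, b, c} (by
      have : ({a, b, c} : Finset ι).card ≤ 3 := card_le_three
      omega)
    simp only [mem_insert, mem_singleton, not_or] at hx
    rcases key x t3.nb hx.1 hx.2.1 hx.2.2 z t3.nb' with rfl | rfl | rfl | rfl
    · rcases h.uniq t t2 t3.s23 with k | k | k
      · exact hd' k.symm
      · exact hx.2.1 k.symm
      · exact hx.2.2 k.symm
    · rcases h.uniq t.s23 t1 t3.s23 with k | k | k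
      · exact hc k.symm
      · exact hx.1 k.symm
      · exact hx.2.2 k.symm
    · rcases h.uniq t2.s23 t1.s23 t3.s23 with k | k | k
      · exact t.2.2.1 k
      · exact hx.1 k.symm
      · exact hx.2.1 k.symm
    · exact t3.2.2.1 rfl
  have key' := key d t2.nb' t2.2.2.1.symm hd' hcd.symm
  obtain ⟨e, he, t3⟩ := h.next t1.s23
  refine ⟨c, d, t1, ?_, t2.s23, hc.symm, hd'.symm, key'⟩
  rcases key' e t3.nb' with rfl | rfl | rfl | rfl
  · rcases h.uniq t t2 t3.s23 with k | k | k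
    · exact absurd k.symm hd'
    · exact absurd k t1.2.2.1
    · exact absurd k.symm hcd
  · exact absurd rfl he
  · exact absurd rfl t3.2.2.1
  · exact t3

lemma Tri.sub_of_closed (h : Tri V F) (W : Finset ι) (t : T F a b c) (ha : a ∈ W) (hb : b ∈ W)
    (hc : c ∈ W) (hW : ∀ p ∈ W, ∀ q ∈ W, ∀ r, T F p q r → r ∈ W) : V ⊆ W := by
  have := h.conn (fun s => s ⊆ W) ⟨_, t.2.2.2, by simp [insert_subset_iff, ha, hb, hc]⟩
    (fun p q r s _ t2 hs => by
      simp only [insert_subset_iff, singleton_subset_iff] at hs ⊢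
      exact ⟨hs.1, hs.2.1, hW p hs.1 q hs.2.1 s t2⟩)
  intro v hv
  obtain ⟨s, hs, hv⟩ := h.cover v hv
  exact this s hs hv

lemma Tri.third (h : Tri V F) {e : ι} (t1 : T F a b c) (t2 : T F a b d) (hcd : c ≠ d)
    (t3 : T F a b e) : e = c ∨ e = d := by
  rcases h.uniq t1 t2 t3 with k | k | k
  · exact absurd k hcd
  · exact Or.inl k.symm
  · exact Or.inr k.symm

lemma Tri.not_tet (h : Tri V F) (h5 : 5 ≤ V.card) (t1 : T F y a b) (t2 : T F y b c)
    (t3 : T F y c a) : ¬ T F a b c := by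
  intro t
  have := h.sub_of_closed {y, a, b, c} t (by simp) (by simp) (by simp) (by
    intro p hp q hq r k
    simp only [mem_insert, mem_singleton] at hp hq ⊢
    have k1 := k.1
    rcases hp with rfl | rfl | rfl | rfl <;> rcases hq with rfl | rfl | rfl | rfl
    all_goals first
      | exact absurd rfl k1
      | (have := h.third t1 t3.s23 t.2.2.1 k; tauto)
      | (have := h.third t1.s23 t2 t.2.1 k; tauto)
      | (have := h.third t2.s23 t3 t.1.symm k; tauto)
      | (have := h.third t1 t3.s23 t.2.2.1 k.s12; tauto)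
      | (have := h.third t1.s23 t2 t.2.1 k.s12; tauto)
      | (have := h.third t2.s23 t3 t.1.symm k.s12; tauto)
      | (have := h.third t1.rot t t2.2.1 k; tauto)
      | (have := h.third t1.rot t t2.2.1 k.s12; tauto)
      | (have := h.third t2.rot t.rot t1.1 k; tauto)
      | (have := h.third t2.rot t.rot t1.1 k.s12; tauto)
      | (have := h.third t3.rot t.rot' t1.2.1 k; tauto)
      | (have := h.third t3.rot t.rot' t1.2.1 k.s12; tauto))
  have h1 := card_le_card this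
  have h2 : ({y, a, b, c} : Finset ι).card ≤ 4 := card_le_four
  omega

lemma Tri.not_nb33 (h : Tri V F) (h5 : 5 ≤ V.card) (hy : deg F y = 3) (ha : deg F a = 3) :
    ¬ Nb F y a := by
  rintro ⟨b, t1⟩
  obtain ⟨c, t2, t3, -⟩ := h.link3 hy t1
  obtain ⟨d, hd, t4⟩ := h.next t1.rot
  rcases h.nb3 ha t1.s12.nb t1.rot.nb t3.s13.nb t1.2.1 t2.2.1 t2.2.2.1 t4.nb' with k | k | k
  · exact hd k
  · exact t4.2.2.1 k.symm
  · exact h.not_tet h5 t1 t2 t3 (k ▸ t4)

lemma Tri.oct (h : Tri V F) (h7 : 7 ≤ V.card) {p q : ι} (ha : deg F a = 4) (hb : deg F b = 4)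
    (hc : deg F c = 4) (t1 : T F a b c) (t2 : T F a c p) (t3 : T F a p q) (t4 : T F a q b)
    (hbp : b ≠ p) (hcq : c ≠ q) (na : ∀ u, Nb F a u → u = b ∨ u = c ∨ u = p ∨ u = q) :
    deg F p ≠ 4 := by
  intro hp
  obtain ⟨p', r, u1, u2, u3, u4, har, nc⟩ := h.link4 hc t1.s13
  obtain rfl : p' = p := (h.third t1.rot' t2.s12 hbp u1).resolve_left u4.symm
  obtain ⟨q', r', v1, v2, v3, v4, v5, nb⟩ := h.link4 hb t1.rot
  obtain rfl : q' = q := (h.third t1.s12 t4.rot' hcq v1).resolve_left v4.symm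
  obtain rfl : r' = r := (h.third t1.rot u3.rot' har v3.s23).resolve_left v5.symm
  obtain ⟨q'', r'', w1, w2, w3, w4, w5, np⟩ := h.link4 hp t2.s13
  obtain rfl : q'' = q' := (h.third t2.rot' t3.s12 hcq w1).resolve_left w4.symm
  obtain rfl : r'' = r' := (h.third t2.s13 u2.s12 har w3.s23).resolve_left w5.symm
  have key : ∀ x, x = a ∨ x = b ∨ x = c ∨ x = p' → ∀ z, Nb F x z →
      z ∈ ({a, b, c, p', q'', r''} : Finset ι) := by
    intro x hx z hz
    simp only [mem_insert, mem_singleton]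
    rcases hx with rfl | rfl | rfl | rfl
    · have := na z hz
      tauto
    · have := nb z hz
      tauto
    · have := nc z hz
      tauto
    · have := np z hz
      tauto
  have := h.sub_of_closed {a, b, c, p', q'', r''} t1 (by simp) (by simp) (by simp) (by
    intro x hx y hy z k
    by_cases k1 : x = a ∨ x = b ∨ x = c ∨ x = p'
    · exact key x k1 z k.nb'
    by_cases k2 : y = a ∨ y = b ∨ y = c ∨ y = p'
    · exact key y k2 z k.s12.nb'
    simp only [mem_insert, mem_singleton] at hx hy ⊢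
    have hx' : x = q'' ∨ x = r'' := by tauto
    have hy' : y = q'' ∨ y = r'' := by tauto
    rcases hx' with rfl | rfl <;> rcases hy' with rfl | rfl
    · exact absurd rfl k.1
    · have := h.third v2.rot w2.rot hbp k
      tauto
    · have := h.third v2.rot w2.rot hbp k.s12
      tauto
    · exact absurd rfl k.1)
  have h1 := card_le_card this
  have h2 : ({a, b, c, p', q'', r''} : Finset ι).card ≤ 6 := card_le_six
  omega

end Pool.Agent.P.MP_e40812_co
end

-- part Pool.Agent.P.MP_e40812_co.Stack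
section

/-!
Subdividing a triangle by a new vertex of degree three, and the inverse operation.
-/

namespace Pool.Agent.P.MP_e40812_co

open Finset

variable {ι : Type*} [DecidableEq ι]

/-- The triangle `a b c` is replaced by the three triangles joining its sides to `y`. -/
def stk (F : Finset (Finset ι)) (y a b c : ι) : Finset (Finset ι) :=
  insert {y, a, b} (insert {y, b, c} (insert {y, c, a} (F.erase {a, b, c})))

variable {V : Finset ι} {F : Finset (Finset ι)} {a b c y p q r : ι}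

lemma mem_stk {s : Finset ι} : s ∈ stk F y a b c ↔
    s = {y, a, b} ∨ s = {y, b, c} ∨ s = {y, c, a} ∨ (s ≠ {a, b, c} ∧ s ∈ F) := by
  simp only [stk, mem_insert, mem_erase]

lemma tri_inj {d : ι} (h : ({p, q, r} : Finset ι) = {p, q, d}) (h1 : p ≠ r) (h2 : q ≠ r) :
    r = d := by
  have : r ∈ ({p, q, d} : Finset ι) := h ▸ (by simp)
  simpa [h1.symm, h2.symm] using this

lemma fresh (hy : ∀ s ∈ F, y ∉ s) (t : T F p q r) : y ≠ p ∧ y ≠ q ∧ y ≠ r := by
  simpa [not_or] using hy _ t.2.2.2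

lemma stk1 (t : T F a b c) (hy : ∀ s ∈ F, y ∉ s) : T (stk F y a b c) y a b :=
  ⟨(fresh hy t).1, (fresh hy t).2.1, t.1, mem_stk.2 (Or.inl rfl)⟩

lemma stk2 (t : T F a b c) (hy : ∀ s ∈ F, y ∉ s) : T (stk F y a b c) y b c :=
  ⟨(fresh hy t).2.1, (fresh hy t).2.2, t.2.2.1, mem_stk.2 (Or.inr (Or.inl rfl))⟩

lemma stk3 (t : T F a b c) (hy : ∀ s ∈ F, y ∉ s) : T (stk F y a b c) y c a :=
  ⟨(fresh hy t).2.2, (fresh hy t).1, t.2.1.symm, mem_stk.2 (Or.inr (Or.inr (Or.inl rfl)))⟩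

lemma stk_edge (t : T F a b c) (hy : ∀ s ∈ F, y ∉ s) (hp : p ∈ ({a, b, c} : Finset ι))
    (hq : q ∈ ({a, b, c} : Finset ι)) (hpq : p ≠ q) : T (stk F y a b c) p q y := by
  simp only [mem_insert, mem_singleton] at hp hq
  rcases hp with rfl | rfl | rfl <;> rcases hq with rfl | rfl | rfl
  all_goals first
    | exact absurd rfl hpq
    | exact (stk1 t hy).rot
    | exact (stk1 t hy).s13
    | exact (stk2 t hy).rot
    | exact (stk2 t hy).s13
    | exact (stk3 t hy).rot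
    | exact (stk3 t hy).s13

lemma stk_up (k : T F p q r) (hne : ({p, q, r} : Finset ι) ≠ {a, b, c}) :
    T (stk F y a b c) p q r :=
  ⟨k.1, k.2.1, k.2.2.1, mem_stk.2 (Or.inr (Or.inr (Or.inr ⟨hne, k.2.2.2⟩)))⟩

lemma stk_down (k : T (stk F y a b c) p q r) (hp : p ≠ y) (hq : q ≠ y) (hr : r ≠ y) :
    T F p q r := by
  have hn : y ∉ ({p, q, r} : Finset ι) := by simp [hp.symm, hq.symm, hr.symm]
  rcases mem_stk.1 k.2.2.2 with e | e | e | e
  · exact absurd (e ▸ by simp) hn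
  · exact absurd (e ▸ by simp) hn
  · exact absurd (e ▸ by simp) hn
  · exact ⟨k.1, k.2.1, k.2.2.1, e.2⟩

lemma stk_y (hy : ∀ s ∈ F, y ∉ s) (k : T (stk F y a b c) p q y) :
    p ∈ ({a, b, c} : Finset ι) ∧ q ∈ ({a, b, c} : Finset ι) := by
  have h1 : p ∈ ({p, q, y} : Finset ι) := by simp
  have h2 : q ∈ ({p, q, y} : Finset ι) := by simp
  have h3 := k.2.1
  have h4 := k.2.2.1
  rcases mem_stk.1 k.2.2.2 with e | e | e | e
  · rw [e] at h1 h2
    simp only [mem_insert, mem_singleton] at *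
    tauto
  · rw [e] at h1 h2
    simp only [mem_insert, mem_singleton] at *
    tauto
  · rw [e] at h1 h2
    simp only [mem_insert, mem_singleton] at *
    tauto
  · exact absurd (by simp) (hy _ e.2)

lemma third_of_mem (t : T F a b c) (hp : p ∈ ({a, b, c} : Finset ι))
    (hq : q ∈ ({a, b, c} : Finset ι)) (hpq : p ≠ q) :
    ∃ r, T F p q r ∧ ({p, q, r} : Finset ι) = {a, b, c} := by
  obtain ⟨r, h1, h2, h3⟩ := three_of_mem t.card hp hq hpq
  exact ⟨r, ⟨hpq, h1, h2, h3 ▸ t.2.2.2⟩, h3.symm⟩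

lemma stk_down_y (t : T F a b c) (hy : ∀ s ∈ F, y ∉ s) (k : T (stk F y a b c) p q y) :
    ∃ r, T F p q r ∧ ({p, q, r} : Finset ι) = {a, b, c} :=
  third_of_mem t (stk_y hy k).1 (stk_y hy k).2 k.1

lemma stk_lift (t : T F a b c) (hy : ∀ s ∈ F, y ∉ s) (k : T F p q r) :
    T (stk F y a b c) p q r ∨ (T (stk F y a b c) p q y ∧ ({p, q, r} : Finset ι) = {a, b, c}) := by
  by_cases e : ({p, q, r} : Finset ι) = {a, b, c}
  · exact Or.inr ⟨stk_edge t hy (e ▸ by simp) (e ▸ by simp) k.1, e⟩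
  · exact Or.inl (stk_up k e)

lemma stk_nb (t : T F a b c) (hy : ∀ s ∈ F, y ∉ s) (hp : p ≠ y) (hq : q ≠ y)
    (k : Nb (stk F y a b c) p q) : Nb F p q := by
  obtain ⟨r, k⟩ := k
  by_cases e : r = y
  · subst e
    obtain ⟨r', k', -⟩ := stk_down_y t hy k
    exact k'.nb
  · exact (stk_down k hp hq e).nb

lemma sum_stk (t : T F a b c) (hy : ∀ s ∈ F, y ∉ s) (f : Finset ι → ℕ) :
    ∑ s ∈ stk F y a b c, f s + f {a, b, c} =
      ∑ s ∈ F, f s + f {y, a, b} + f {y, b, c} + f {y, c, a} := by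
  obtain ⟨h1, h2, h3⟩ := fresh hy t
  have n0 : ∀ u w : ι, ({y, u, w} : Finset ι) ∉ F.erase {a, b, c} := fun u w h =>
    hy _ (mem_of_mem_erase h) (by simp)
  have n1 : ({y, b, c} : Finset ι) ≠ {y, c, a} := fun e => by
    have : b ∈ ({y, c, a} : Finset ι) := e ▸ (by simp)
    simp [h2.symm, t.2.2.1, t.1.symm] at this
  have n2 : ({y, a, b} : Finset ι) ≠ {y, c, a} := fun e => by
    have : b ∈ ({y, c, a} : Finset ι) := e ▸ (by simp)
    simp [h2.symm, t.2.2.1, t.1.symm] at this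
  have n3 : ({y, a, b} : Finset ι) ≠ {y, b, c} := fun e => by
    have : a ∈ ({y, b, c} : Finset ι) := e ▸ (by simp)
    simp [h1.symm, t.2.1, t.1] at this
  rw [stk, sum_insert (by simp only [mem_insert, not_or]; exact ⟨n3, n2, n0 _ _⟩),
    sum_insert (by simp only [mem_insert, not_or]; exact ⟨n1, n0 _ _⟩), sum_insert (n0 _ _),
    ← add_sum_erase F f t.2.2.2]
  ring

lemma card_stk (t : T F a b c) (hy : ∀ s ∈ F, y ∉ s) : (stk F y a b c).card = F.card + 2 := by
  have := sum_stk t hy fun _ => 1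
  simp only [sum_const, smul_eq_mul, mul_one] at this
  omega

lemma deg_stk_self (t : T F a b c) (hy : ∀ s ∈ F, y ∉ s) : deg (stk F y a b c) y = 3 := by
  have := sum_stk t hy fun s => if y ∈ s then 1 else 0
  rw [sum_congr rfl fun s hs => if_neg (hy s hs), if_neg (hy _ t.2.2.2)] at this
  simp only [mem_insert, true_or, if_true, sum_const_zero] at this
  rw [deg, card_filter]
  omega

lemma deg_stk (t : T F a b c) (hy : ∀ s ∈ F, y ∉ s) {v : ι} (hv : v ≠ y) :
    deg (stk F y a b c) v = deg F v + if v ∈ ({a, b, c} : Finset ι) then 1 else 0 := by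
  have := sum_stk t hy fun s => if v ∈ s then 1 else 0
  simp only [deg, card_filter]
  have h1 := t.1
  have h2 := t.2.1
  have h3 := t.2.2.1
  simp only [mem_insert, mem_singleton, hv, false_or] at this ⊢
  by_cases ha : v = a
  · subst ha
    simp only [h1, h2, or_true, or_false, if_true, if_false] at this ⊢
    omega
  by_cases hb : v = b
  · subst hb
    simp only [ha, h3, or_true, or_false, if_true, if_false] at this ⊢
    omega
  by_cases hc : v = c
  · subst hc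
    simp only [ha, hb, or_true, or_false, if_true, if_false] at this ⊢
    omega
  simp only [ha, hb, hc, or_false, if_false] at this ⊢
  omega

lemma Pre.stk (h : Pre V F) (t : T F a b c) (hV : y ∉ V) : Pre (insert y V) (stk F y a b c) := by
  have hy : ∀ s ∈ F, y ∉ s := fun s hs hy => hV (h.sub s hs hy)
  have ha := h.mem t
  have hb := h.mem t.rot
  have hc := h.mem t.rot'
  have key : ∀ {q r}, T (Pool.Agent.P.MP_e40812_co.stk F y a b c) y q r →
      ∃ d, d ≠ r ∧ T (Pool.Agent.P.MP_e40812_co.stk F y a b c) y q d := by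
    intro q r k
    obtain ⟨d, k1, e⟩ := stk_down_y t hy k.rot
    exact ⟨d, k1.2.2.1.symm, (stk_edge t hy (e ▸ by simp) (e ▸ by simp) k1.2.1).rot'⟩
  refine ⟨fun s hs => ?_, fun s hs => ?_, fun v hv => ?_, fun {p q r} k => ?_, ?_⟩
  · rcases mem_stk.1 hs with rfl | rfl | rfl | e
    · exact (stk1 t hy).card
    · exact (stk2 t hy).card
    · exact (stk3 t hy).card
    · exact h.three s e.2
  · rcases mem_stk.1 hs with rfl | rfl | rfl | e
    · simp [insert_subset_iff, ha, hb]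
    · simp [insert_subset_iff, hb, hc]
    · simp [insert_subset_iff, ha, hc]
    · exact (h.sub s e.2).trans (subset_insert _ _)
  · rcases mem_insert.1 hv with rfl | hv
    · exact ⟨_, (stk1 t hy).2.2.2, by simp⟩
    · obtain ⟨p, q, k⟩ := h.exists_TV hv
      rcases stk_lift t hy k with k | k
      · exact ⟨_, k.2.2.2, by simp⟩
      · exact ⟨_, k.1.2.2.2, by simp⟩
  · by_cases hp : p = y
    · subst hp
      exact key k
    by_cases hq : q = y
    · subst hq
      obtain ⟨d, h1, h2⟩ := key k.s12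
      exact ⟨d, h1, h2.s12⟩
    by_cases hr : r = y
    · subst hr
      obtain ⟨r', k1, e⟩ := stk_down_y t hy k
      obtain ⟨d, h1, h2⟩ := h.next k1
      exact ⟨d, (fresh hy h2).2.2.symm, stk_up h2 fun e' =>
        h1 (tri_inj (e'.trans e.symm) h2.2.1 h2.2.2.1)⟩
    · obtain ⟨d, h1, h2⟩ := h.next (stk_down k hp hq hr)
      rcases stk_lift t hy h2 with k' | k'
      · exact ⟨d, h1, k'⟩
      · exact ⟨y, Ne.symm hr, k'.1⟩
  · rw [card_stk t hy, card_insert_of_notMem hV]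
    have := h.card
    omega

lemma Tri.unstack (h : Tri V F) (h5 : 5 ≤ V.card) (hd : deg F y = 3) :
    ∃ a b c G, T G a b c ∧ (∀ s ∈ G, y ∉ s) ∧ F = stk G y a b c ∧ Tri (V.erase y) G := by
  obtain ⟨s₀, hs₀⟩ := card_pos.1 (show 0 < (F.filter fun t => y ∈ t).card from by
    unfold deg at hd
    omega)
  obtain ⟨a, b, t1, -⟩ := h.exists_T (mem_filter.1 hs₀).1 (mem_filter.1 hs₀).2
  obtain ⟨c, t2, t3, hn⟩ := h.link3 hd t1
  have hno : ({a, b, c} : Finset ι) ∉ F := fun hh =>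
    h.not_tet h5 t1 t2 t3 ⟨t1.2.2.1, t3.2.2.1.symm, t2.2.2.1, hh⟩
  obtain ⟨G, hG⟩ : ∃ G, G = insert {a, b, c} (F.filter fun s => y ∉ s) := ⟨_, rfl⟩
  have mG : ∀ s, s ∈ G ↔ s = {a, b, c} ∨ (s ∈ F ∧ y ∉ s) := by simp [hG]
  have t : T G a b c := ⟨t1.2.2.1, t3.2.2.1.symm, t2.2.2.1, (mG _).2 (Or.inl rfl)⟩
  have hy : ∀ s ∈ G, y ∉ s := by
    intro s hs
    rcases (mG s).1 hs with rfl | e
    · simp [t1.1, t1.2.1, t2.2.1]
    · exact e.2
  have hF : F = stk G y a b c := by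
    ext s
    rw [mem_stk, mG]
    constructor
    · intro hs
      by_cases hys : y ∈ s
      · obtain ⟨p, q, k, rfl⟩ := h.exists_T hs hys
        have k1 := k.2.2.1
        rcases hn p k.nb with rfl | rfl | rfl <;> rcases hn q k.nb' with rfl | rfl | rfl
        all_goals first
          | exact absurd rfl k1
          | exact Or.inl rfl
          | exact Or.inl (tri23 _ _ _)
          | exact Or.inr (Or.inl rfl)
          | exact Or.inr (Or.inl (tri23 _ _ _))
          | exact Or.inr (Or.inr (Or.inl rfl))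
          | exact Or.inr (Or.inr (Or.inl (tri23 _ _ _)))
      · exact Or.inr (Or.inr (Or.inr ⟨fun e => hno (e ▸ hs), Or.inr ⟨hs, hys⟩⟩))
    · rintro (rfl | rfl | rfl | ⟨h1, h2 | h2⟩)
      · exact t1.2.2.2
      · exact t2.2.2.2
      · exact t3.2.2.2
      · exact absurd h2 h1
      · exact h2.1
  have hyV := h.mem t1
  refine ⟨a, b, c, G, t, hy, hF, ?_⟩
  subst hF
  refine ⟨⟨fun s hs => ?_, fun s hs v hv => ?_, fun v hv => ?_, fun {p q r} k => ?_, ?_⟩,
    fun {p q r d e} k1 k2 k3 => ?_, fun S hS hc s hs => ?_⟩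
  · rcases (mG s).1 hs with rfl | e
    · exact t.card
    · exact h.three s e.1
  · refine mem_erase.2 ⟨fun e => hy s hs (e ▸ hv), ?_⟩
    rcases (mG s).1 hs with rfl | e
    · simp only [mem_insert, mem_singleton] at hv
      rcases hv with rfl | rfl | rfl
      · exact h.mem t1.s12
      · exact h.mem t2.s12
      · exact h.mem t3.s12
    · exact h.sub s e.1 hv
  · obtain ⟨hvy, hv⟩ := mem_erase.1 hv
    obtain ⟨p, q, k⟩ := h.exists_TV hv
    by_cases hp : p = y
    · subst hp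
      obtain ⟨r, k'⟩ := stk_nb t hy hvy k.2.2.1.symm k.nb'
      exact ⟨_, k'.2.2.2, by simp⟩
    · obtain ⟨r, k'⟩ := stk_nb t hy hvy hp k.nb
      exact ⟨_, k'.2.2.2, by simp⟩
  · obtain ⟨f1, f2, f3⟩ := fresh hy k
    rcases stk_lift t hy k with k' | ⟨k', e⟩
    · obtain ⟨d, h1, h2⟩ := h.next k'
      by_cases hd : d = y
      · subst hd
        obtain ⟨r', h3, e⟩ := stk_down_y t hy h2
        refine ⟨r', ?_, h3⟩
        rintro rfl
        exact hno (e ▸ k'.2.2.2)
      · exact ⟨d, h1, stk_down h2 f1.symm f2.symm hd⟩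
    · obtain ⟨d, h1, h2⟩ := h.next k'
      refine ⟨d, ?_, stk_down h2 f1.symm f2.symm h1⟩
      rintro rfl
      exact hno (e ▸ h2.2.2.2)
  · have h1 := card_stk t hy
    have h2 := h.card
    rw [card_erase_of_mem hyV]
    omega
  · have f1 := (fresh hy k1).2.2
    have f2 := (fresh hy k2).2.2
    have f3 := (fresh hy k3).2.2
    rcases stk_lift t hy k1 with l1 | ⟨l1, e1⟩ <;> rcases stk_lift t hy k2 with l2 | ⟨l2, e2⟩ <;>
      rcases stk_lift t hy k3 with l3 | ⟨l3, e3⟩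
    · exact h.uniq l1 l2 l3
    · have := h.uniq l1 l2 l3
      tauto
    · have := h.uniq l1 l2 l3
      tauto
    · exact Or.inr (Or.inr (tri_inj (e2.trans e3.symm) k2.2.1 k2.2.2.1))
    · have := h.uniq l1 l2 l3
      tauto
    · exact Or.inr (Or.inl (tri_inj (e1.trans e3.symm) k1.2.1 k1.2.2.1))
    · exact Or.inl (tri_inj (e1.trans e2.symm) k1.2.1 k1.2.2.1)
    · exact Or.inl (tri_inj (e1.trans e2.symm) k1.2.1 k1.2.2.1)
  · have := h.conn (fun s => (y ∈ s → S {a, b, c}) ∧ (y ∉ s → S s)) (by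
      obtain ⟨s, hs, hs'⟩ := hS
      rcases (mG s).1 hs with rfl | e
      · exact ⟨_, t1.2.2.2, fun _ => hs', fun hh => absurd (by simp) hh⟩
      · exact ⟨s, e.1, fun hh => absurd hh e.2, fun _ => hs'⟩) (by
      intro p q r d k1 k2 hS
      by_cases hp : p = y
      · exact ⟨fun _ => hS.1 (by simp [hp]), fun hh => absurd (by simp [hp]) hh⟩
      by_cases hq : q = y
      · exact ⟨fun _ => hS.1 (by simp [hq]), fun hh => absurd (by simp [hq]) hh⟩
      obtain ⟨r', k3, h3⟩ : ∃ r', T G p q r' ∧ S {p, q, r'} := by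
        by_cases hr : r = y
        · subst hr
          obtain ⟨r', h1, e⟩ := stk_down_y t hy k1
          exact ⟨r', h1, e ▸ hS.1 (by simp)⟩
        · exact ⟨r, stk_down k1 hp hq hr, hS.2 (by simp [Ne.symm hp, Ne.symm hq, Ne.symm hr])⟩
      by_cases hd : d = y
      · subst hd
        obtain ⟨d', h1, e⟩ := stk_down_y t hy k2
        exact ⟨fun _ => e ▸ hc p q r' d' k3 h1 h3, fun hh => absurd (by simp) hh⟩
      · exact ⟨fun hh => absurd hh (by simp [Ne.symm hp, Ne.symm hq, Ne.symm hd]),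
          fun _ => hc p q r' d k3 (stk_down k2 hp hq hd) h3⟩)
    rcases (mG s).1 hs with rfl | e
    · exact (this _ t1.2.2.2).1 (by simp)
    · exact (this s e.1).2 e.2

end Pool.Agent.P.MP_e40812_co
end

-- part Pool.Agent.P.MP_e40812_co.Peel
section

/-!
Rigidity of triangulated spheres with the largest possible number of vertices of degree three
outside a set `K`, when all vertices outside `K` have degree three or four.
-/

namespace Pool.Agent.P.MP_e40812_co

open Finset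

variable {ι : Type*} [DecidableEq ι] {V : Finset ι} {F : Finset (Finset ι)}

lemma stk_nb_up {a b c y p q : ι} (t : T F a b c) (hy : ∀ s ∈ F, y ∉ s) (k : Nb F p q) :
    Nb (stk F y a b c) p q := by
  obtain ⟨r, k⟩ := k
  rcases stk_lift t hy k with k | k
  · exact k.nb
  · exact k.1.nb

lemma stk_nb_iff {a b c y v : ι} (t : T F a b c) (hy : ∀ s ∈ F, y ∉ s) :
    Nb (stk F y a b c) y v ↔ v ∈ ({a, b, c} : Finset ι) := by
  constructor
  · rintro ⟨r, k⟩
    exact (stk_y hy k.rot).1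
  · intro hv
    simp only [mem_insert, mem_singleton] at hv
    rcases hv with rfl | rfl | rfl
    · exact (stk1 t hy).nb
    · exact (stk2 t hy).nb
    · exact (stk3 t hy).nb

lemma unstack_all (Y : Finset ι) : ∀ V F, Tri V F → Y ⊆ V → 4 ≤ (V \ Y).card →
    (∀ y ∈ Y, deg F y = 3) → ∃ G L, Tri (V \ Y) G ∧ L ⊆ G ∧ L.card = Y.card ∧
      (∀ t ∈ F, Disjoint t Y → t ∈ G ∧ t ∉ L) ∧ (∀ v ∈ V \ Y, deg F v = deg G v + deg L v) ∧
      (∀ a ∈ V \ Y, ∀ b ∈ V \ Y, Nb F a b → Nb G a b) ∧ ∀ t ∈ L, ∃ y ∈ Y, ∀ v ∈ t, Nb F y v := by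
  induction Y using Finset.induction_on with
  | empty =>
    intro V F h _ _ _
    exact ⟨F, ∅, by simpa using h, by simp, rfl, by simp, by simp [deg], fun _ _ _ _ h => h,
      by simp⟩
  | insert y Y hyY ih =>
    intro V F h hY h4 hd
    have hyV : y ∈ V := hY (mem_insert_self _ _)
    have e : V.erase y \ Y = V \ insert y Y := by
      ext x
      simp only [mem_sdiff, mem_erase, mem_insert]
      tauto
    have h5 : 5 ≤ V.card := by
      have h1 := card_le_card (sdiff_subset (s := V.erase y) (t := Y))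
      have h2 := card_erase_lt_of_mem hyV
      rw [e] at h1
      omega
    have hd0 := hd y (mem_insert_self _ _)
    obtain ⟨a, b, c, G₁, t, hy, rfl, h1⟩ := h.unstack h5 hd0
    have hn : ∀ x ∈ Y, x ∉ ({a, b, c} : Finset ι) := fun x hx hh =>
      h.not_nb33 h5 hd0 (hd x (mem_insert_of_mem hx)) ((stk_nb_iff t hy).2 hh)
    have hne : ∀ x ∈ Y, x ≠ y := fun x hx e => hyY (e ▸ hx)
    obtain ⟨G, L, g1, g2, g3, g4, g5, g6, g7⟩ := ih (V.erase y) G₁ h1
      (fun x hx => mem_erase.2 ⟨hne x hx, hY (mem_insert_of_mem hx)⟩) (e ▸ h4) (fun x hx => by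
        have := hd x (mem_insert_of_mem hx)
        rwa [deg_stk t hy (hne x hx), if_neg (hn x hx)] at this)
    obtain ⟨g8, g9⟩ := g4 _ t.2.2.2 (disjoint_right.2 hn)
    rw [e] at g1 g5 g6
    have hne' : ∀ x ∈ V \ insert y Y, x ≠ y := fun x hx e =>
      (mem_sdiff.1 hx).2 (e ▸ mem_insert_self _ _)
    refine ⟨G, insert {a, b, c} L, g1, insert_subset g8 g2, ?_, fun s hs hs' => ?_,
      fun v hv => ?_, fun p hp q hq k => g6 p hp q hq (stk_nb t hy (hne' p hp) (hne' q hq) k),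
      fun s hs => ?_⟩
    · rw [card_insert_of_notMem g9, card_insert_of_notMem hyY, g3]
    · rw [disjoint_insert_right] at hs'
      rcases mem_stk.1 hs with rfl | rfl | rfl | k
      · exact absurd (by simp) hs'.1
      · exact absurd (by simp) hs'.1
      · exact absurd (by simp) hs'.1
      · exact ⟨(g4 s k.2 hs'.2).1, by simp [k.1, (g4 s k.2 hs'.2).2]⟩
    · rw [deg_stk t hy (hne' v hv), g5 v hv]
      simp only [deg, card_filter]
      rw [sum_insert g9]
      ring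
    · rcases mem_insert.1 hs with rfl | hs
      · exact ⟨y, mem_insert_self _ _, fun v hv => (stk_nb_iff t hy).2 hv⟩
      · obtain ⟨x, hx, hx'⟩ := g7 s hs
        exact ⟨x, mem_insert_of_mem hx, fun v hv => stk_nb_up t hy (hx' v hv)⟩

lemma Tri.local4 (h : Tri V F) {K : Finset ι} (hK : K ⊆ V) (h4 : 4 ≤ K.card)
    (hd : ∀ v ∈ V \ K, deg F v = 4) {a b c : ι} (t : T F a b c) (ha : a ∉ K) (hb : b ∉ K)
    (hc : c ∉ K) : (∃ p q, T F a p q ∧ p ∈ K ∧ q ∈ K) ∧
      ∀ x y, x ∉ K → y ∉ K → T F a x y → ({a, x, y} : Finset ι) = {a, b, c} := by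
  have h7 : 7 ≤ V.card := by
    have h1 : Disjoint K {a, b, c} := by simp [ha, hb, hc]
    have h2 := card_le_card (union_subset hK (h.sub _ t.2.2.2))
    rw [card_union_of_disjoint h1, t.card] at h2
    omega
  have da := hd a (mem_sdiff.2 ⟨h.mem t, ha⟩)
  have db := hd b (mem_sdiff.2 ⟨h.mem t.rot, hb⟩)
  have dc := hd c (mem_sdiff.2 ⟨h.mem t.rot', hc⟩)
  obtain ⟨p, q, t2, t3, t4, hbp, hcq, na⟩ := h.link4 da t
  have hp : p ∈ K := by
    by_contra hp
    exact h.oct h7 da db dc t t2 t3 t4 hbp hcq na (hd p (mem_sdiff.2 ⟨h.mem t3.rot, hp⟩))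
  have hq : q ∈ K := by
    by_contra hq
    exact h.oct h7 da dc db t.s23 t4.s23 t3.s23 t2.s23 hcq hbp (fun u hu => by
      have := na u hu
      tauto) (hd q (mem_sdiff.2 ⟨h.mem t4.rot, hq⟩))
  refine ⟨⟨p, q, t3, hp, hq⟩, fun x y hx hy k => ?_⟩
  have k1 := k.2.2.1
  rcases na x k.nb with rfl | rfl | rfl | rfl <;> rcases na y k.nb' with rfl | rfl | rfl | rfl
  all_goals first
    | exact absurd rfl k1
    | rfl
    | exact tri23 _ _ _
    | exact absurd hp hx
    | exact absurd hq hx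
    | exact absurd hp hy
    | exact absurd hq hy

lemma Tri.no_four (h : Tri V F) {K : Finset ι} (hK : K ⊆ V) (h4 : 4 ≤ K.card)
    (hd : ∀ v ∈ V \ K, deg F v = 4) {L : Finset (Finset ι)} (hL : L ⊆ F) (hL' : ∀ t ∈ L, t ⊆ K)
    (hc : L.card + 4 = 2 * K.card) : V = K := by
  obtain ⟨n, hn⟩ : ∃ n : Finset ι → ℕ, n = fun t => (t ∩ (V \ K)).card := ⟨_, rfl⟩
  have hn3 : ∀ t ∈ F, n t ≤ 3 := fun t ht => by
    rw [hn, ← h.three t ht]
    exact card_le_card inter_subset_left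
  have hsub : ∀ t ∈ F, n t = 3 → ∀ x ∈ t, x ∉ K := fun t ht h3 x hx => by
    have : t ∩ (V \ K) = t := eq_of_subset_of_card_le inter_subset_left (by
      rw [h.three t ht, ← h3, hn])
    exact (mem_sdiff.1 (mem_inter.1 (this.symm ▸ hx : x ∈ t ∩ (V \ K))).2).2
  have h1 : ∑ t ∈ F, (n t + 2 * (if n t = 0 then 1 else 0) + if n t = 1 then 1 else 0) =
      ∑ t ∈ F, (2 + if n t = 3 then 1 else 0) := sum_congr rfl fun t ht => by
    have := hn3 t ht
    split_ifs <;> omega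
  have h2 : ∑ t ∈ F, n t = 4 * (V \ K).card := by
    rw [hn, ← sum_deg, sum_congr rfl hd, sum_const, smul_eq_mul, mul_comm]
  simp only [sum_add_distrib, ← mul_sum, ← card_filter, sum_const, smul_eq_mul] at h1
  have h3 : L.card ≤ (F.filter fun t => n t = 0).card := card_le_card fun t ht =>
    mem_filter.2 ⟨hL ht, by
      rw [hn, card_eq_zero, ← disjoint_iff_inter_eq_empty]
      exact disjoint_sdiff.mono_left (hL' t ht)⟩
  have one : ∀ {a p q}, T F a p q → a ∉ K → p ∈ K → q ∈ K → n {a, p, q} = 1 := by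
    intro a p q k ha hp hq
    rw [hn]
    refine card_eq_one.2 ⟨a, ?_⟩
    ext x
    simp only [mem_inter, mem_insert, mem_singleton, mem_sdiff]
    constructor
    · rintro ⟨rfl | rfl | rfl, -, h2⟩
      · rfl
      · exact absurd hp h2
      · exact absurd hq h2
    · rintro rfl
      exact ⟨Or.inl rfl, h.mem k, ha⟩
  have h5 := card_mul_le_card_mul (s := F.filter fun t => n t = 3)
    (t := F.filter fun t => n t = 1) (fun t s => ∃ x ∈ t, x ∈ s) (m := 2) (n := 1)
    (fun t ht => by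
      obtain ⟨ht, h3⟩ := mem_filter.1 ht
      obtain ⟨a, b, c, k, rfl⟩ := h.exists_T0 ht
      have ha := hsub _ ht h3 a (by simp)
      have hb := hsub _ ht h3 b (by simp)
      have hc := hsub _ ht h3 c (by simp)
      obtain ⟨⟨p, q, k1, hp, hq⟩, -⟩ := h.local4 hK h4 hd k ha hb hc
      obtain ⟨⟨p', q', k2, hp', hq'⟩, -⟩ := h.local4 hK h4 hd k.rot hb hc ha
      refine one_lt_card.2 ⟨{a, p, q}, ?_, {b, p', q'}, ?_, fun e => ?_⟩
      · exact mem_filter.2 ⟨mem_filter.2 ⟨k1.2.2.2, one k1 ha hp hq⟩, a, by simp, by simp⟩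
      · exact mem_filter.2 ⟨mem_filter.2 ⟨k2.2.2.2, one k2 hb hp' hq'⟩, b, by simp, by simp⟩
      · have : a ∈ ({b, p', q'} : Finset ι) := e ▸ (by simp)
        simp only [mem_insert, mem_singleton] at this
        rcases this with rfl | rfl | rfl
        · exact k.1 rfl
        · exact ha hp'
        · exact ha hq')
    (fun s hs => by
      obtain ⟨hs, h1⟩ := mem_filter.1 hs
      refine card_le_one.2 fun t ht t' ht' => ?_
      obtain ⟨ht, x, hx, hxs⟩ := mem_filter.1 ht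
      obtain ⟨ht', x', hx', hxs'⟩ := mem_filter.1 ht'
      obtain ⟨ht, h3⟩ := mem_filter.1 ht
      obtain ⟨ht', h3'⟩ := mem_filter.1 ht'
      rw [hn] at h1
      obtain rfl : x = x' := card_le_one.1 h1.le x
        (mem_inter.2 ⟨hxs, mem_sdiff.2 ⟨h.sub t ht hx, hsub t ht h3 x hx⟩⟩) x'
        (mem_inter.2 ⟨hxs', mem_sdiff.2 ⟨h.sub t' ht' hx', hsub t' ht' h3' x' hx'⟩⟩)
      obtain ⟨b, c, k, rfl⟩ := h.exists_T ht hx
      obtain ⟨b', c', k', rfl⟩ := h.exists_T ht' hx'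
      exact ((h.local4 hK h4 hd k (hsub _ ht h3 x hx) (hsub _ ht h3 b (by simp))
        (hsub _ ht h3 c (by simp))).2 b' c' (hsub _ ht' h3' b' (by simp))
        (hsub _ ht' h3' c' (by simp)) k').symm)
  have h6 := h.card
  have h7 := card_sdiff_add_card_eq_card hK
  have h8 : (F.filter fun t => n t = 1).card = 0 := by omega
  rw [card_eq_zero, filter_eq_empty_iff] at h8
  by_contra hne
  obtain ⟨v, hv, hvK⟩ := exists_of_ssubset (ssubset_of_ne_of_subset (Ne.symm hne) hK)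
  obtain ⟨t, ht⟩ := card_pos.1 (show 0 < L.card by omega)
  obtain ⟨x, hx, hxK⟩ := h.conn (fun s => ∃ x ∈ s, x ∉ K) (by
    obtain ⟨s, hs, hvs⟩ := h.cover v hv
    exact ⟨s, hs, v, hvs, hvK⟩) (by
    rintro p q r d k1 - ⟨x, hx, hxK⟩
    by_cases hp : p ∈ K
    · by_cases hq : q ∈ K
      · have hr : r ∉ K := by
          simp only [mem_insert, mem_singleton] at hx
          rcases hx with rfl | rfl | rfl
          · exact absurd hp hxK
          · exact absurd hq hxK
          · exact hxK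
        exact absurd (one k1.rot' hr hp hq) (h8 k1.rot'.2.2.2)
      · exact ⟨q, by simp, hq⟩
    · exact ⟨p, by simp, hp⟩) t (hL ht)
  exact hxK (hL' t ht hx)

lemma peel (K : Finset ι) (h4 : 4 ≤ K.card) (n : ℕ) : ∀ V F, V.card = n → Tri V F → K ⊆ V →
    (∀ v ∈ V \ K, deg F v = 3 ∨ deg F v = 4) →
    ((V \ K).filter fun v => deg F v = 3).card + 4 = 2 * K.card →
    ∃ (G : Finset (Finset ι)) (w : ι → ι → ℕ), Tri K G ∧ (∀ a b, w a b = w b a) ∧
      (∀ a b, w a b ≠ 0 → Nb G a b) ∧ (∀ a ∈ K, ∀ b ∈ K, Nb F a b → Nb G a b) ∧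
      ∀ v ∈ K, deg F v = 2 * deg G v + ∑ u ∈ K, w v u := by
  induction n using Nat.strong_induction_on with
  | _ n ih =>
  intro V F hn h hK hd hc
  by_cases hex : ∃ y ∈ V \ K, deg F y = 3 ∧ ∃ a, a ∉ K ∧ Nb F y a
  · obtain ⟨y, hy0, hy3, a₀, ha₀, hya⟩ := hex
    obtain ⟨hyV, hyK⟩ := mem_sdiff.1 hy0
    have hKe : K ⊆ V.erase y := fun x hx => mem_erase.2 ⟨fun e => hyK (e ▸ hx), hK hx⟩
    have hc1 := card_erase_of_mem hyV
    have hc2 : 5 ≤ (V.erase y).card := by
      have := card_le_card (insert_subset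
        (mem_erase.2 ⟨hya.ne.symm, h.nb_mem hya.symm⟩ : a₀ ∈ V.erase y) hKe)
      rw [card_insert_of_notMem ha₀] at this
      omega
    have h5 : 5 ≤ V.card := by omega
    obtain ⟨a, b, c, G₁, t, hy, rfl, h1⟩ := h.unstack h5 hy3
    have hA := (stk_nb_iff t hy).1 hya
    have small : ∀ x ∈ ({a, b, c} : Finset ι), x ∉ K → deg G₁ x = 3 := by
      intro x hx hxK
      have hxy := ((stk_nb_iff t hy).2 hx)
      have e1 := hd x (mem_sdiff.2 ⟨h.nb_mem hxy.symm, hxK⟩)
      have e2 : deg (stk G₁ y a b c) x ≠ 3 := fun e => h.not_nb33 h5 hy3 e hxy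
      rw [deg_stk t hy hxy.ne.symm, if_pos hx] at e1 e2
      omega
    obtain ⟨p, q, k, e⟩ := h1.exists_T t.2.2.2 hA
    have hp' : p ∈ ({a, b, c} : Finset ι) := e ▸ (by simp)
    have hq' : q ∈ ({a, b, c} : Finset ι) := e ▸ (by simp)
    have hp : p ∈ K := by
      by_contra hp
      exact h1.not_nb33 hc2 (small _ hA ha₀) (small p hp' hp) k.nb
    have hq : q ∈ K := by
      by_contra hq
      exact h1.not_nb33 hc2 (small _ hA ha₀) (small q hq' hq) k.nb'
    have same : ∀ x, x ≠ y → x ≠ a₀ → x ∉ K → deg (stk G₁ y a b c) x = deg G₁ x := by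
      intro x h1 h2 h3
      rw [deg_stk t hy h1, if_neg, add_zero]
      rw [e]
      simp only [mem_insert, mem_singleton, not_or]
      exact ⟨h2, fun e => h3 (e ▸ hp), fun e => h3 (e ▸ hq)⟩
    obtain ⟨G, w, g1, g2, g3, g4, g5⟩ := ih (V.erase y).card (by omega) (V.erase y) G₁ rfl h1 hKe
      (fun x hx => by
        obtain ⟨hx, hxK⟩ := mem_sdiff.1 hx
        obtain ⟨hxy, hx⟩ := mem_erase.1 hx
        by_cases hxa : x = a₀
        · exact Or.inl (hxa ▸ small _ hA ha₀)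
        · rw [← same x hxy hxa hxK]
          exact hd x (mem_sdiff.2 ⟨hx, hxK⟩))
      (by
        have e1 : ((V.erase y \ K).filter fun v => deg G₁ v = 3) =
            insert a₀ (((V \ K).filter fun v => deg (stk G₁ y a b c) v = 3).erase y) := by
          ext x
          simp only [mem_filter, mem_sdiff, mem_erase, mem_insert]
          by_cases hxa : x = a₀
          · subst hxa
            simp [hya.ne.symm, h.nb_mem hya.symm, ha₀, small _ hA ha₀]
          · constructor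
            · rintro ⟨⟨⟨h1, h2⟩, h3⟩, h4⟩
              exact Or.inr ⟨h1, ⟨h2, h3⟩, by rwa [same x h1 hxa h3]⟩
            · rintro (h1 | ⟨h1, ⟨h2, h3⟩, h4⟩)
              · exact absurd h1 hxa
              · exact ⟨⟨⟨h1, h2⟩, h3⟩, by rwa [same x h1 hxa h3] at h4⟩
        have e2 : y ∈ (V \ K).filter fun v => deg (stk G₁ y a b c) v = 3 :=
          mem_filter.2 ⟨hy0, hy3⟩
        have e3 : a₀ ∉ ((V \ K).filter fun v => deg (stk G₁ y a b c) v = 3).erase y := fun hh =>
          h.not_nb33 h5 hy3 (mem_filter.1 (mem_erase.1 hh).2).2 hya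
        rw [e1, card_insert_of_notMem e3, card_erase_of_mem e2]
        have := card_pos.2 ⟨y, e2⟩
        omega)
    have hne : ∀ x ∈ K, x ≠ y := fun x hx e => hyK (e ▸ hx)
    have hpq := k.2.2.1
    refine ⟨G, fun u v => w u v + ((if u = p ∧ v = q then 1 else 0) + if u = q ∧ v = p then 1 else 0),
      g1, fun u v => ?_, fun u v huv => ?_,
      fun u hu v hv k' => g4 u hu v hv (stk_nb t hy (hne u hu) (hne v hv) k'), fun v hv => ?_⟩
    · beta_reduce
      rw [g2 u v, add_comm (if u = p ∧ v = q then 1 else 0)]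
      simp only [and_comm]
    · by_cases h1 : u = p ∧ v = q
      · obtain ⟨rfl, rfl⟩ := h1
        exact g4 _ hp _ hq k.rot.nb
      by_cases h2 : u = q ∧ v = p
      · obtain ⟨rfl, rfl⟩ := h2
        exact g4 _ hq _ hp k.rot.nb.symm
      exact g3 u v (by simpa [h1, h2] using huv)
    · rw [deg_stk t hy (hne v hv), g5 v hv, sum_add_distrib, sum_add_distrib, add_assoc, e]
      congr 2
      have hva : v ≠ a₀ := fun e => ha₀ (e ▸ hv)
      by_cases h1 : v = p
      · subst h1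
        simp [hpq, hq]
      by_cases h2 : v = q
      · subst h2
        simp [h1, hp]
      simp [hva, h1, h2]
  · push Not at hex
    obtain ⟨Y, hY⟩ : ∃ Y, Y = (V \ K).filter fun v => deg F v = 3 := ⟨_, rfl⟩
    have mY : ∀ x, x ∈ Y ↔ (x ∈ V ∧ x ∉ K) ∧ deg F x = 3 := by simp [hY]
    have hKY : K ⊆ V \ Y := fun x hx => mem_sdiff.2 ⟨hK hx, fun hh => ((mY x).1 hh).1.2 hx⟩
    obtain ⟨G, L, g1, g2, g3, -, g5, g6, g7⟩ := unstack_all Y V F h
      (fun x hx => ((mY x).1 hx).1.1) (h4.trans (card_le_card hKY)) fun x hx => ((mY x).1 hx).2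
    have hL : ∀ t ∈ L, t ⊆ K := by
      intro t ht v hv
      obtain ⟨y, hy, hy'⟩ := g7 t ht
      by_contra hvK
      exact hex y (mem_sdiff.2 ((mY y).1 hy).1) ((mY y).1 hy).2 v hvK (hy' v hv)
    rw [← hY, ← g3] at hc
    have e := g1.no_four hKY h4 (fun v hv => by
      obtain ⟨hv, hvK⟩ := mem_sdiff.1 hv
      have e1 : deg L v = 0 := by
        rw [deg, card_eq_zero, filter_eq_empty_iff]
        exact fun t ht hh => hvK (hL t ht hh)
      have e2 := g5 v hv
      have e3 := hd v (mem_sdiff.2 ⟨(mem_sdiff.1 hv).1, hvK⟩)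
      have e4 : deg F v ≠ 3 := fun e => (mem_sdiff.1 hv).2 ((mY v).2 ⟨⟨(mem_sdiff.1 hv).1, hvK⟩, e⟩)
      omega) g2 hL hc
    rw [e] at g1 g5 g6
    obtain rfl : L = G := eq_of_subset_of_card_le g2 (by
      have := g1.card
      omega)
    exact ⟨L, fun _ _ => 0, g1, fun _ _ => rfl, fun _ _ h => absurd rfl h, g6, fun v hv => by
      rw [g5 v hv]
      simp [two_mul]⟩

end Pool.Agent.P.MP_e40812_co
end

-- part Pool.Agent.P.MP_e40812_co.Rigid
section

/-!
Degree multisets that force a partition of given numbers into triples with given sums.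
-/

namespace Pool.Agent.P.MP_e40812_co

open Finset

/-- The degrees of the vertices created by subdividing a triangle `j` times. -/
def lev : ℕ → Multiset ℕ
  | 0 => 0
  | j + 1 => {3 * 2 ^ j} + 3 • lev j

/-- The numbers `a` can be split into triples whose sums are the numbers `B`. -/
def TS (a B : Multiset ℕ) : Prop :=
  ∃ l : Multiset (Multiset ℕ), (∀ g ∈ l, g.card = 3) ∧ l.sum = a ∧ l.map Multiset.sum = B

/-- The degrees of the vertices of the base triangulation. -/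
def top (M : ℕ) (z a B : Multiset ℕ) : Multiset ℕ :=
  z.map (fun x => M * x) + B.map (fun x => M * 6 + x) + a.map fun x => M * 3 + x

lemma lev_dvd (j : ℕ) : ∀ x ∈ lev j, 3 ≤ x ∧ 3 ∣ x := by
  induction j with
  | zero => simp [lev]
  | succ j ih =>
    intro x hx
    rcases Multiset.mem_add.1 hx with h | h
    · rw [Multiset.mem_singleton.1 h]
      have := Nat.two_pow_pos j
      exact ⟨by omega, dvd_mul_right _ _⟩
    · exact ih x (Multiset.mem_of_mem_nsmul h)

/-- A weighted triangulation with prescribed values on a set `K` of vertices. -/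
def Inv (ι : Type*) [DecidableEq ι] (i : ℕ) (u : Multiset ℕ) : Prop :=
  ∃ (V K : Finset ι) (F : Finset (Finset ι)) (w : ι → ι → ℕ), Tri V F ∧ (∀ a b, w a b = w b a) ∧
    (∀ a b, w a b ≠ 0 → Nb F a b) ∧ K ⊆ V ∧ (∀ v ∈ V \ K, deg F v = 4 ∧ ∑ x ∈ V, w v x = 0) ∧
    (i ≠ 0 → V = K) ∧ K.val.map (fun v => 2 ^ i * deg F v + ∑ x ∈ V, w v x) = u

variable {ι : Type*} [DecidableEq ι]

lemma map_filter_val {α β : Type*} (K : Finset α) (f : α → β) (p : β → Prop) [DecidablePred p] :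
    (K.filter fun v => p (f v)).val.map f = (K.val.map f).filter p := by
  rw [Multiset.filter_map, filter_val]
  rfl

lemma map_val_eq_sum {α β : Type*} (s : Finset α) (f : α → β) :
    s.val.map f = ∑ a ∈ s, ({f a} : Multiset β) := by
  rw [sum_eq_multiset_sum, ← Multiset.sum_map_singleton (s.val.map f), Multiset.map_map]
  rfl

lemma Inv.step {i f : ℕ} {u : Multiset ℕ} (hu : ∀ x ∈ u, x ≠ 3 * 2 ^ i) (h4 : 4 ≤ u.card)
    (hf : f + 4 = 2 * u.card) (h : Inv ι i (u + Multiset.replicate f (3 * 2 ^ i))) :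
    Inv ι (i + 1) u := by
  obtain ⟨V, K, F, w, h, w1, w2, hK, hs, -, e⟩ := h
  obtain ⟨val, hval⟩ : ∃ val : ι → ℕ, val = fun v => 2 ^ i * deg F v + ∑ x ∈ V, w v x := ⟨_, rfl⟩
  rw [← hval] at e
  obtain ⟨K', hK'⟩ : ∃ K', K' = K.filter fun v => val v ≠ 3 * 2 ^ i := ⟨_, rfl⟩
  have e1 : K'.val.map val = u := by
    rw [hK', map_filter_val K val fun x => x ≠ 3 * 2 ^ i, e, Multiset.filter_add,
      Multiset.filter_eq_self.2 hu, Multiset.filter_eq_nil.2 (by
        intro x hx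
        simp [Multiset.eq_of_mem_replicate hx]), add_zero]
  have c1 : K'.card = u.card := by rw [← e1, Multiset.card_map, card_val]
  have c2 : (K.filter fun v => val v = 3 * 2 ^ i).card = f := by
    have c3 : K.card = u.card + f := by
      rw [← card_val, ← Multiset.card_map val, e, Multiset.card_add, Multiset.card_replicate]
    have := card_filter_add_card_filter_not (s := K) fun v => val v = 3 * 2 ^ i
    rw [hK'] at c1
    simp only [ne_eq] at c1
    omega
  have hKK : K' ⊆ K := hK' ▸ filter_subset _ _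
  have hY : ∀ v ∈ K, val v = 3 * 2 ^ i → deg F v = 3 ∧ ∑ x ∈ V, w v x = 0 := by
    intro v hv h1
    have h2 := Nat.mul_le_mul_left (2 ^ i) (h.three_le (hK hv))
    rw [hval] at h1
    beta_reduce at h1
    exact ⟨Nat.eq_of_mul_eq_mul_left (Nat.two_pow_pos i) (by omega), by omega⟩
  have hout : ∀ v ∈ V, v ∉ K' → (v ∈ K ∧ val v = 3 * 2 ^ i) ∨ v ∈ V \ K := by
    intro v hv hv'
    by_cases hvK : v ∈ K
    · exact Or.inl ⟨hvK, by simpa [hK', hvK] using hv'⟩
    · exact Or.inr (mem_sdiff.2 ⟨hv, hvK⟩)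
  obtain ⟨G, w', g1, g2, g3, g4, g5⟩ := peel K' (by omega) _ V F rfl h (hKK.trans hK)
    (fun v hv => by
      rcases hout v (mem_sdiff.1 hv).1 (mem_sdiff.1 hv).2 with k | k
      · exact Or.inl (hY v k.1 k.2).1
      · exact Or.inr (hs v k).1)
    (by
      have : ((V \ K').filter fun v => deg F v = 3) = K.filter fun v => val v = 3 * 2 ^ i := by
        ext v
        simp only [mem_filter, mem_sdiff]
        constructor
        · rintro ⟨⟨h1, h2⟩, h3⟩
          rcases hout v h1 h2 with k | k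
          · exact k
          · have := (hs v k).1
            omega
        · rintro ⟨h1, h2⟩
          exact ⟨⟨hK h1, by simp [hK', h2]⟩, (hY v h1 h2).1⟩
      rw [this]
      omega)
  have hz : ∀ v ∈ V, v ∉ K' → ∀ x ∈ V, w v x = 0 := by
    intro v hv hv'
    rw [← sum_eq_zero_iff]
    rcases hout v hv hv' with k | k
    · exact (hY v k.1 k.2).2
    · exact (hs v k).2
  refine ⟨K', K', G, fun a b => 2 ^ i * w' a b + w a b, g1, fun a b => by simp only [g2 a b, w1 a b],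
    fun a b hab => ?_, Subset.refl _, by simp, fun _ => rfl, ?_⟩
  · by_cases h1 : w' a b = 0
    · have h2 : w a b ≠ 0 := by simpa [h1] using hab
      have h3 := w2 a b h2
      refine g4 a ?_ b ?_ h3
      · by_contra ha
        exact h2 (hz a (h.nb_mem h3) ha b (h.nb_mem h3.symm))
      · by_contra hb
        exact h2 ((w1 a b).trans (hz b (h.nb_mem h3.symm) hb a (h.nb_mem h3)))
    · exact g3 a b h1
  · rw [← e1]
    refine Multiset.map_congr rfl fun v hv => ?_
    have hv' : v ∈ K' := hv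
    have : ∑ x ∈ K', w v x = ∑ x ∈ V, w v x := sum_subset (hKK.trans hK) fun x hx hx' =>
      (w1 v x).trans (hz x hx hx' v (hK (hKK hv')))
    rw [hval]
    beta_reduce
    rw [sum_add_distrib, ← mul_sum, this, g5 v hv']
    ring

lemma Inv.levels (n : ℕ) : ∀ (u : Multiset ℕ) (f : ℕ), f + 4 = 2 * u.card → 4 ≤ u.card →
    (∀ x ∈ u, 3 * 2 ^ n ≤ x) → Inv ι 0 (u + f • lev n) → Inv ι n u := by
  induction n with
  | zero =>
    intro u f _ _ _ h
    simpa [lev] using h
  | succ n ih =>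
    intro u f hf h4 hu h
    have h2 := Nat.two_pow_pos n
    refine Inv.step (fun x hx => ?_) h4 hf (ih _ (3 * f) ?_ ?_ (fun x hx => ?_) ?_)
    · have := hu x hx
      omega
    · rw [Multiset.card_add, Multiset.card_replicate]
      omega
    · rw [Multiset.card_add]
      omega
    · rcases Multiset.mem_add.1 hx with k | k
      · have := hu x k
        omega
      · exact (Multiset.eq_of_mem_replicate k).ge
    · rwa [lev, nsmul_add, Multiset.nsmul_singleton, smul_smul, mul_comm f 3, ← add_assoc] at h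

lemma Inv.decode {j : ℕ} {u : Multiset ℕ} (hj : j ≠ 0) (h : Inv ι j u)
    (hs : (u.map fun x => x / 2 ^ j).sum + 12 = 6 * u.card) :
    ∃ (V : Finset ι) (F : Finset (Finset ι)) (w : ι → ι → ℕ), Tri V F ∧ (∀ a b, w a b = w b a) ∧
      (∀ a b, w a b ≠ 0 → Nb F a b) ∧
      V.val.map (fun v => (deg F v, ∑ x ∈ V, w v x)) = u.map fun x => (x / 2 ^ j, x % 2 ^ j) := by
  obtain ⟨V, K, F, w, h, w1, w2, -, -, hV, rfl⟩ := h
  obtain rfl := hV hj
  refine ⟨V, F, w, h, w1, w2, ?_⟩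
  have h2 := Nat.two_pow_pos j
  rw [Multiset.map_map, Multiset.card_map, card_val, ← h.sum_deg] at hs
  have h1 : ∑ v ∈ V, (deg F v + (∑ x ∈ V, w v x) / 2 ^ j) = ∑ v ∈ V, deg F v := by
    rw [← Nat.add_right_cancel hs, sum_eq_multiset_sum]
    congr 1
    exact Multiset.map_congr rfl fun v _ => (Nat.mul_add_div h2 _ _).symm
  rw [sum_add_distrib, Nat.add_eq_left, sum_eq_zero_iff] at h1
  rw [Multiset.map_map]
  refine Multiset.map_congr rfl fun v hv => ?_
  have h3 := h1 v hv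
  simp only [Function.comp]
  rw [Nat.mul_add_div h2, h3, add_zero, Nat.mul_add_mod,
    Nat.mod_eq_of_lt ((Nat.div_eq_zero_iff_lt h2).1 h3)]

lemma groups {V X Y : Finset ι} {F : Finset (Finset ι)} {w : ι → ι → ℕ} (h : Tri V F)
    (h5 : 5 ≤ V.card) (w1 : ∀ a b, w a b = w b a) (w2 : ∀ a b, w a b ≠ 0 → Nb F a b)
    (hX : ∀ x ∈ X, deg F x = 6) (hY : ∀ y ∈ Y, deg F y = 3 ∧ ∑ x ∈ V, w y x ≠ 0) (hYV : Y ⊆ V)
    (hc : Y.card = 3 * X.card) (hw : ∀ v ∈ V, ∑ x ∈ V, w v x ≠ 0 → v ∈ X ∨ v ∈ Y) :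
    TS (Y.val.map fun v => ∑ x ∈ V, w v x) (X.val.map fun v => ∑ x ∈ V, w v x) := by
  classical
  have hYY : ∀ y ∈ Y, ∀ y' ∈ Y, ¬ Nb F y y' := fun y hy y' hy' =>
    h.not_nb33 h5 (hY y hy).1 (hY y' hy').1
  have hw' : ∀ a b, w a b ≠ 0 → b ∈ X ∨ b ∈ Y := fun a b hab =>
    hw b (h.nb_mem (w2 a b hab).symm) fun h0 =>
      hab ((w1 a b).trans (sum_eq_zero_iff.1 h0 a (h.nb_mem (w2 a b hab))))
  have one : ∀ t ∈ F, (t ∩ Y).card ≤ 1 := fun t ht => card_le_one.2 fun a ha b hb => by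
    by_contra hab
    obtain ⟨c, k, -⟩ := h.exists_T2 ht (mem_inter.1 ha).1 (mem_inter.1 hb).1 hab
    exact hYY a (mem_inter.1 ha).2 b (mem_inter.1 hb).2 k.nb
  have dbl : ∀ x ∈ X, ∑ t ∈ F.filter fun t => x ∈ t, (t ∩ Y).card =
      2 * (Y.filter fun y => Nb F x y).card := by
    intro x hx
    rw [← sum_deg, card_filter, mul_sum]
    refine sum_congr rfl fun y hy => ?_
    split_ifs with k
    · exact h.two k
    · rw [mul_zero, deg, card_eq_zero, filter_eq_empty_iff]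
      intro t ht hyt
      obtain ⟨c, k', -⟩ := h.exists_T2 (mem_filter.1 ht).1 (mem_filter.1 ht).2 hyt (by
        rintro rfl
        have := hX x hx
        have := (hY x hy).1
        omega)
      exact k k'.nb
  have le3 : ∀ x ∈ X, (Y.filter fun y => Nb F x y).card ≤ 3 := by
    intro x hx
    have h1 := dbl x hx
    have h2 := sum_le_card_nsmul (F.filter fun t => x ∈ t) (fun t => (t ∩ Y).card) 1
      fun t ht => one t (mem_filter.1 ht).1
    have h3 := hX x hx
    rw [deg] at h3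
    rw [h3, smul_eq_mul] at h2
    omega
  have ge1 : ∀ y ∈ Y, ∀ b, w y b ≠ 0 → b ∈ X.filter fun x => Nb F x y := fun y hy b hb =>
    mem_filter.2 ⟨(hw' y b hb).resolve_right fun hb' => hYY y hy b hb' (w2 y b hb),
      (w2 y b hb).symm⟩
  have ge1' : ∀ y ∈ Y, 1 ≤ (X.filter fun x => Nb F x y).card := fun y hy => by
    obtain ⟨b, -, hb⟩ := exists_ne_zero_of_sum_ne_zero (hY y hy).2
    exact card_pos.2 ⟨b, ge1 y hy b hb⟩
  have dc := sum_card_bipartiteAbove_eq_sum_card_bipartiteBelow (s := X) (t := Y)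
    fun x y => Nb F x y
  simp only [bipartiteAbove, bipartiteBelow] at dc
  have s1 := sum_le_sum le3
  have s2 := sum_le_sum ge1'
  have eq3 := (sum_eq_sum_iff_of_le le3).1 (by
    simp only [sum_const, smul_eq_mul] at *
    omega)
  have eq1 := (sum_eq_sum_iff_of_le ge1').1 (by
    simp only [sum_const, smul_eq_mul] at *
    omega)
  have uq : ∀ y ∈ Y, ∀ x ∈ X, ∀ x' ∈ X, Nb F x y → Nb F x' y → x = x' := fun y hy x hx x' hx' k k' =>
    card_le_one.1 (eq1 y hy).ge x (mem_filter.2 ⟨hx, k⟩) x' (mem_filter.2 ⟨hx', k'⟩)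
  have hXX : ∀ x ∈ X, ∀ x' ∈ X, ¬ Nb F x x' := by
    rintro x hx x' hx' ⟨z, k⟩
    have h1 := (sum_eq_sum_iff_of_le (s := F.filter fun t => x ∈ t)
      fun t ht => one t (mem_filter.1 ht).1).1 (by
        rw [dbl x hx, eq3 x hx, sum_const, smul_eq_mul, mul_one]
        exact (hX x hx).symm) _ (mem_filter.2 ⟨k.2.2.2, by simp⟩)
    obtain ⟨y, hy⟩ := card_pos.1 h1.ge
    obtain ⟨hy1, hy2⟩ := mem_inter.1 hy
    have h2 := (hY y hy2).1
    simp only [mem_insert, mem_singleton] at hy1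
    rcases hy1 with rfl | rfl | rfl
    · have := hX y hx
      omega
    · have := hX y hx'
      omega
    · exact k.1 (uq y hy2 x hx x' hx' k.nb' k.rot.nb)
  refine ⟨X.val.map fun x => (Y.filter fun y => Nb F x y).val.map fun v => ∑ x ∈ V, w v x,
    fun g hg => ?_, ?_, ?_⟩
  · obtain ⟨x, hx, rfl⟩ := Multiset.mem_map.1 hg
    rw [Multiset.card_map, card_val, eq3 x hx]
  · rw [← sum_eq_multiset_sum]
    simp only [map_val_eq_sum, sum_filter]
    rw [sum_comm]
    refine sum_congr rfl fun y hy => ?_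
    rw [← sum_filter, sum_const, ← eq1 y hy, one_smul]
  · rw [Multiset.map_map]
    refine Multiset.map_congr rfl fun x hx => ?_
    have hx' : x ∈ X := hx
    simp only [Function.comp]
    rw [← sum_eq_multiset_sum, ← sum_subset (s₁ := Y.filter fun y => Nb F x y)
      ((filter_subset _ _).trans hYV) fun b _ hb => ?_]
    · refine sum_congr rfl fun y hy => ?_
      obtain ⟨hy, k⟩ := mem_filter.1 hy
      rw [sum_eq_single_of_mem x (h.nb_mem k) fun b _ hb => ?_, w1]
      by_contra h0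
      exact hb (uq y hy b (mem_filter.1 (ge1 y hy b h0)).1 x hx' (w2 y b h0).symm k)
    · by_contra h0
      rcases hw' x b h0 with k | k
      · exact hXX x hx' b k (w2 x b h0)
      · exact hb (mem_filter.2 ⟨k, w2 x b h0⟩)

theorem rigid {V : Finset ι} {F : Finset (Finset ι)} {j f W : ℕ} {z a B : Multiset ℕ}
    (h : Tri V F) (hj : j ≠ 0) (hz : ∀ x ∈ z, 3 ≤ x) (ha : ∀ x ∈ a, 0 < x ∧ x < 2 ^ j)
    (hB : ∀ x ∈ B, 0 < x ∧ x < 2 ^ j) (hc : a.card = 3 * B.card) (h5 : 5 ≤ z.card)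
    (hs : z.sum + 12 = 6 * z.card + 3 * a.card) (hf : f + 4 = 2 * (z.card + B.card + a.card))
    (e : V.val.map (deg F) = top (2 ^ j) z a B + f • lev j + Multiset.replicate W 4) :
    TS a B := by
  have h2 := Nat.two_pow_pos j
  have hcard : (top (2 ^ j) z a B).card = z.card + B.card + a.card := by simp [top]
  have hge : ∀ x ∈ top (2 ^ j) z a B, 3 * 2 ^ j ≤ x := by
    intro x hx
    simp only [top, Multiset.mem_add, Multiset.mem_map] at hx
    rcases hx with (⟨y, hy, rfl⟩ | ⟨y, hy, rfl⟩) | ⟨y, hy, rfl⟩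
    · rw [mul_comm 3]
      exact Nat.mul_le_mul_left _ (hz y hy)
    · omega
    · omega
  have i0 : Inv ι 0 (top (2 ^ j) z a B + f • lev j) := by
    refine ⟨V, V.filter fun v => deg F v ≠ 4, F, fun _ _ => 0, h, fun _ _ => rfl,
      fun _ _ h => absurd rfl h, filter_subset _ _, fun v hv => ?_, fun h => absurd rfl h, ?_⟩
    · simpa [(mem_sdiff.1 hv).1] using (mem_sdiff.1 hv).2
    · simp only [pow_zero, one_mul, sum_const_zero, add_zero]
      rw [map_filter_val V (deg F) fun x => x ≠ 4, e, Multiset.filter_add,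
        Multiset.filter_eq_self.2, Multiset.filter_eq_nil.2 (by
          intro x hx
          simp [Multiset.eq_of_mem_replicate hx]), add_zero]
      intro x hx
      rcases Multiset.mem_add.1 hx with k | k
      · have h3 := hge x k
        have h4 : 2 ^ 1 ≤ 2 ^ j := Nat.pow_le_pow_right (by omega) (by omega)
        omega
      · have := (lev_dvd j x (Multiset.mem_of_mem_nsmul k)).2
        omega
  have dm : (top (2 ^ j) z a B).map (fun x => (x / 2 ^ j, x % 2 ^ j)) =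
      z.map (fun x => (x, 0)) + B.map (fun x => (6, x)) + a.map fun x => (3, x) := by
    simp only [top, Multiset.map_add, Multiset.map_map]
    congr 1
    congr 1
    · exact Multiset.map_congr rfl fun x _ => by simp [Nat.mul_div_cancel_left x h2]
    · refine Multiset.map_congr rfl fun x hx => ?_
      simp only [Function.comp]
      rw [Nat.mul_add_div h2, Nat.mul_add_mod, Nat.div_eq_of_lt (hB x hx).2,
        Nat.mod_eq_of_lt (hB x hx).2]
    · refine Multiset.map_congr rfl fun x hx => ?_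
      simp only [Function.comp]
      rw [Nat.mul_add_div h2, Nat.mul_add_mod, Nat.div_eq_of_lt (ha x hx).2,
        Nat.mod_eq_of_lt (ha x hx).2]
  obtain ⟨U, G, w, g, w1, w2, e'⟩ := (Inv.levels j _ f (by omega) (by omega) hge i0).decode hj (by
    have := congrArg (fun s => (s.map Prod.fst).sum) dm
    simp only [Multiset.map_map, Multiset.map_add, Multiset.sum_add, Function.comp,
      Multiset.map_id', Multiset.map_const', Multiset.sum_replicate, smul_eq_mul] at this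
    omega)
  rw [dm] at e'
  obtain ⟨pr, hpr⟩ : ∃ pr : ι → ℕ × ℕ, pr = fun v => (deg G v, ∑ x ∈ U, w v x) := ⟨_, rfl⟩
  have key : ∀ d : ℕ, ((U.filter fun v => (pr v).1 = d ∧ (pr v).2 ≠ 0).val.map
      fun v => ∑ x ∈ U, w v x) = (if d = 6 then B else 0) + if d = 3 then a else 0 := by
    intro d
    have e1 := congrArg (Multiset.map Prod.snd)
      (map_filter_val U pr fun p => p.1 = d ∧ p.2 ≠ 0)
    rw [Multiset.map_map] at e1
    rw [hpr] at e1 ⊢
    refine e1.trans ?_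
    rw [e']
    simp only [Multiset.filter_add, Multiset.filter_map, Multiset.map_add, Multiset.map_map,
      Function.comp, Multiset.map_id', ne_eq, not_true, and_false, Multiset.filter_false,
      Multiset.map_zero, zero_add]
    congr 1
    · split_ifs with k
      · exact Multiset.filter_eq_self.2 fun x hx => ⟨k.symm, (hB x hx).1.ne'⟩
      · exact Multiset.filter_eq_nil.2 fun x _ hh => k hh.1.symm
    · split_ifs with k
      · exact Multiset.filter_eq_self.2 fun x hx => ⟨k.symm, (ha x hx).1.ne'⟩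
      · exact Multiset.filter_eq_nil.2 fun x _ hh => k hh.1.symm
  have k6 := key 6
  have k3 := key 3
  simp only [if_true, if_false, Nat.reduceEqDiff, add_zero, zero_add] at k6 k3
  have c6 := congrArg Multiset.card k6
  have c3 := congrArg Multiset.card k3
  have cU := congrArg Multiset.card e'
  simp only [Multiset.card_map, card_val, Multiset.card_add] at c6 c3 cU
  rw [← k6, ← k3]
  refine groups g (by omega) w1 w2 (fun x hx => ?_) (fun y hy => ?_) (filter_subset _ _)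
    (by omega) fun v hv hv' => ?_
  · simpa [hpr] using (mem_filter.1 hx).2.1
  · simpa only [hpr] using (mem_filter.1 hy).2
  · have : pr v ∈ U.val.map pr := Multiset.mem_map_of_mem _ hv
    have hv'' : (pr v).2 ≠ 0 := by rwa [hpr]
    rw [hpr, e', ← hpr] at this
    simp only [Multiset.mem_add, Multiset.mem_map] at this
    rcases this with (⟨y, -, k⟩ | ⟨y, -, k⟩) | ⟨y, -, k⟩
    · exact absurd (by rw [← k]) hv''
    · exact Or.inl (mem_filter.2 ⟨hv, by rw [← k], hv''⟩)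
    · exact Or.inr (mem_filter.2 ⟨hv, by rw [← k], hv''⟩)

end Pool.Agent.P.MP_e40812_co
end

-- part Pool.Agent.P.MP_e40812_co.Build
section

/-!
Construction of stacked triangulations with geometric realisations.
-/

namespace Pool.Agent.P.MP_e40812_co

open Finset

/-- Supporting functionals and points with the incidences of the triangle system. -/
def Geo {ι : Type*} (V : Finset ι) (F : Finset (Finset ι)) : Prop :=
  ∃ (φ : ι → EuclideanSpace ℝ (Fin 3) →ₗ[ℝ] ℝ) (x : Finset ι → EuclideanSpace ℝ (Fin 3)),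
    ∀ t ∈ F, ∀ v ∈ V, (v ∈ t → φ v (x t) = 1) ∧ (v ∉ t → φ v (x t) < 1)

lemma ev_neg {a : ℝ} (b : ℝ) (h : a < 0) :
    ∀ᶠ ε in nhdsWithin (0 : ℝ) (Set.Ioi 0), a + ε * b < 0 := by
  apply Filter.Eventually.filter_mono nhdsWithin_le_nhds
  have hc : Continuous fun ε : ℝ => a + ε * b := by fun_prop
  have : (fun ε : ℝ => a + ε * b) 0 < 0 := by simpa using h
  exact hc.continuousAt.eventually_lt continuousAt_const this

lemma Geo.stk {ι : Type*} [DecidableEq ι] {V : Finset ι} {F : Finset (Finset ι)} {a b c y : ι}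
    (h : Pre V F) (g : Geo V F) (t : T F a b c) (hV : y ∉ V) :
    Geo (insert y V) (stk F y a b c) := by
  obtain ⟨φ, x, g⟩ := g
  have hy : ∀ s ∈ F, y ∉ s := fun s hs hy => hV (h.sub s hs hy)
  have dir : ∀ {p q r}, T F p q r → ∃ u, φ p u = 0 ∧ φ q u = 0 ∧ φ r u = 1 := by
    intro p q r k
    obtain ⟨d, hd, k'⟩ := h.next k
    have h1 := (g _ k'.2.2.2 r (h.mem k.rot')).2 (by simp [k.2.1.symm, k.2.2.1.symm, hd.symm])
    refine ⟨(1 - φ r (x {p, q, d}))⁻¹ • (x {p, q, r} - x {p, q, d}), ?_, ?_, ?_⟩ <;>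
      rw [map_smul, map_sub]
    · rw [(g _ k.2.2.2 p (h.mem k)).1 (by simp), (g _ k'.2.2.2 p (h.mem k)).1 (by simp)]
      simp
    · rw [(g _ k.2.2.2 q (h.mem k.rot)).1 (by simp), (g _ k'.2.2.2 q (h.mem k.rot)).1 (by simp)]
      simp
    · rw [(g _ k.2.2.2 r (h.mem k.rot')).1 (by simp)]
      exact inv_mul_cancel₀ (by linarith)
  obtain ⟨uc, c1, c2, c3⟩ := dir t
  obtain ⟨ua, a1, a2, a3⟩ := dir t.rot
  obtain ⟨ub, b1, b2, b3⟩ := dir t.rot'
  have ha := h.mem t
  have hb := h.mem t.rot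
  have hc := h.mem t.rot'
  have le : ∀ s ∈ F, ∀ v ∈ V, φ v (x s) ≤ 1 := fun s hs v hv => by
    by_cases k : v ∈ s
    · exact ((g s hs v hv).1 k).le
    · exact ((g s hs v hv).2 k).le
  have E1 : ∀ u, ∀ᶠ ε in nhdsWithin (0 : ℝ) (Set.Ioi 0), ∀ v ∈ V \ {a, b, c},
      φ v (x {a, b, c}) - 1 + ε * (-φ v u) < 0 := fun u => by
    rw [Finset.eventually_all]
    exact fun v hv => ev_neg _ (sub_neg.2 ((g _ t.2.2.2 v (mem_sdiff.1 hv).1).2 (mem_sdiff.1 hv).2))
  have E2 : ∀ᶠ ε in nhdsWithin (0 : ℝ) (Set.Ioi 0), ∀ s ∈ F.erase {a, b, c},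
      φ a (x s) + φ b (x s) + φ c (x s) - 3 + ε * 1 < 0 := by
    rw [Finset.eventually_all]
    intro s hs
    obtain ⟨hne, hs⟩ := mem_erase.1 hs
    refine ev_neg _ ?_
    have l1 := le s hs a ha
    have l2 := le s hs b hb
    have l3 := le s hs c hc
    by_contra hh
    refine hne (eq_of_subset_of_card_le ?_ (by rw [t.card, h.three s hs])).symm
    simp only [insert_subset_iff, singleton_subset_iff]
    refine ⟨?_, ?_, ?_⟩ <;> by_contra k
    · linarith [(g s hs a ha).2 k]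
    · linarith [(g s hs b hb).2 k]
    · linarith [(g s hs c hc).2 k]
  obtain ⟨δ, ⟨⟨⟨⟨d1, d2⟩, d3⟩, d4⟩, d5⟩, d6⟩ := ((((((E1 ua).and (E1 ub)).and (E1 uc)).and E2).and
    (ev_neg (a := -3) 1 (by norm_num))).and self_mem_nhdsWithin).exists
  have d7 : 0 < δ := d6
  have d8 : 0 < 3 - δ := by linarith
  have pa := (g _ t.2.2.2 a ha).1 (by simp)
  have pb := (g _ t.2.2.2 b hb).1 (by simp)
  have pc := (g _ t.2.2.2 c hc).1 (by simp)
  obtain ⟨ψ, hψ⟩ : ∃ ψ, ψ = Function.update φ y ((3 - δ)⁻¹ • (φ a + φ b + φ c)) := ⟨_, rfl⟩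
  have ψy : ∀ z, ψ y z = (3 - δ)⁻¹ * (φ a z + φ b z + φ c z) := by simp [hψ, mul_add]
  have ψv : ∀ v ∈ V, ψ v = φ v := fun v hv => by
    rw [hψ, Function.update_of_ne fun e : v = y => hV (e ▸ hv)]
  have new : ∀ {p q r u}, T F p q r → ({p, q, r} : Finset ι) = {a, b, c} → φ p u = 0 → φ q u = 0 →
      φ r u = 1 → φ a u + φ b u + φ c u = 1 →
      (∀ v ∈ V \ {a, b, c}, φ v (x {a, b, c}) - 1 + δ * (-φ v u) < 0) → ∀ v ∈ insert y V,
      (v ∈ ({y, p, q} : Finset ι) → ψ v (x {a, b, c} - δ • u) = 1) ∧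
        (v ∉ ({y, p, q} : Finset ι) → ψ v (x {a, b, c} - δ • u) < 1) := by
    intro p q r u k e h1 h2 h3 h4 h5 v hv
    rcases mem_insert.1 hv with rfl | hv
    · refine ⟨fun _ => ?_, fun hh => absurd (by simp) hh⟩
      rw [ψy]
      simp only [map_sub, map_smul, smul_eq_mul, pa, pb, pc]
      rw [inv_mul_eq_one₀ d8.ne']
      linear_combination δ * h4
    · rw [ψv v hv, map_sub, map_smul, smul_eq_mul]
      have hvy : v ≠ y := fun e => hV (e ▸ hv)
      simp only [mem_insert, mem_singleton, hvy, false_or, not_or]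
      refine ⟨?_, fun hh => ?_⟩
      · rintro (rfl | rfl)
        · rw [h1, (g _ t.2.2.2 v hv).1 (e ▸ by simp)]
          simp
        · rw [h2, (g _ t.2.2.2 v hv).1 (e ▸ by simp)]
          simp
      · by_cases hr : v = r
        · subst hr
          rw [h3, (g _ t.2.2.2 v hv).1 (e ▸ by simp)]
          linarith
        · have := h5 v (mem_sdiff.2 ⟨hv, by simp [← e, hh.1, hh.2, hr]⟩)
          linarith
  obtain ⟨f1, f2, f3⟩ := fresh hy t
  refine ⟨ψ, fun s => if y ∈ s then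
    x {a, b, c} - δ • (if c ∉ s then uc else if a ∉ s then ua else ub) else x s, fun s hs => ?_⟩
  replace hs := mem_stk.1 hs
  rcases hs with rfl | rfl | rfl | ⟨hne, hs⟩
  · beta_reduce
    rw [if_pos (by simp), if_pos (by simp [f3.symm, t.2.1.symm, t.2.2.1.symm])]
    exact new t rfl c1 c2 c3 (by linarith) d3
  · beta_reduce
    rw [if_pos (by simp), if_neg (by simp), if_pos (by simp [f1.symm, t.1, t.2.1])]
    exact new t.rot (by rw [tri23, tri12]) a1 a2 a3 (by linarith) d1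
  · beta_reduce
    rw [if_pos (by simp), if_neg (by simp), if_neg (by simp)]
    exact new t.rot' (by rw [tri12, tri23]) b1 b2 b3 (by linarith) d2
  · intro v hv
    beta_reduce
    rw [if_neg (hy s hs)]
    rcases mem_insert.1 hv with rfl | hv
    · refine ⟨fun hh => absurd hh (hy s hs), fun _ => ?_⟩
      rw [ψy, inv_mul_lt_one₀ d8]
      linarith [d4 s (mem_erase.2 ⟨hne, hs⟩)]
    · rw [ψv v hv]
      exact g s hs v hv

/-- An extension of a realised triangle system, with its effect on the degrees. -/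
structure Ext (V : Finset ℕ) (F : Finset (Finset ℕ)) (V' : Finset ℕ) (F' : Finset (Finset ℕ))
    (R : Finset ℕ → Prop) (δ : ℕ → ℕ) (μ : Multiset ℕ) : Prop where
  pre : Pre V' F'
  geo : Geo V' F'
  sub : V ⊆ V'
  keep : ∀ s ∈ F, ¬ R s → s ∈ F'
  dg : ∀ v ∈ V, deg F' v = deg F v + δ v
  new : (V' \ V).val.map (deg F') = μ

lemma sdiff_val_add {A B C : Finset ℕ} (h1 : A ⊆ B) (h2 : B ⊆ C) :
    (C \ A).val = (B \ A).val + (C \ B).val := by
  have h : Disjoint (B \ A) (C \ B) := disjoint_sdiff.mono_left sdiff_subset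
  rw [← disjUnion_val _ _ h, disjUnion_eq_union, union_comm, sdiff_union_sdiff_cancel h2 h1]

lemma Ext.trans {V F V₁ F₁ V₂ F₂ R₁ R₂ δ₁ δ₂ μ₁ μ₂} (h₁ : Ext V F V₁ F₁ R₁ δ₁ μ₁)
    (h₂ : Ext V₁ F₁ V₂ F₂ R₂ δ₂ μ₂) (h : ∀ v, v ∉ V → δ₂ v = 0) :
    Ext V F V₂ F₂ (fun s => R₁ s ∨ R₂ s) (fun v => δ₁ v + δ₂ v) (μ₁ + μ₂) := by
  refine ⟨h₂.pre, h₂.geo, h₁.sub.trans h₂.sub, fun s hs hR => ?_, fun v hv => ?_, ?_⟩
  · exact h₂.keep s (h₁.keep s hs fun k => hR (Or.inl k)) fun k => hR (Or.inr k)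
  · rw [h₂.dg v (h₁.sub hv), h₁.dg v hv, add_assoc]
  · rw [sdiff_val_add h₁.sub h₂.sub, Multiset.map_add, h₂.new, ← h₁.new]
    congr 1
    refine Multiset.map_congr rfl fun v hv => ?_
    obtain ⟨k1, k2⟩ := mem_sdiff.1 hv
    rw [h₂.dg v k1, h v k2, add_zero]

lemma Ext.all {V F V' F' R δ μ} (h : Ext V F V' F' R δ μ) :
    V'.val.map (deg F') = V.val.map (fun v => deg F v + δ v) + μ := by
  have := sdiff_val_add (empty_subset V) h.sub
  rw [sdiff_empty, sdiff_empty] at this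
  rw [this, Multiset.map_add, h.new, Multiset.map_congr rfl h.dg]

/-- The degree increments at the three corners. -/
def e3 (p q d α β γ v : ℕ) : ℕ :=
  (if v = p then α else 0) + (if v = q then β else 0) + if v = d then γ else 0

/-- Every triangle can be subdivided with given increments and given new degrees. -/
def Gad (α β γ : ℕ) (μ : Multiset ℕ) : Prop :=
  ∀ V F p q d, Pre V F → Geo V F → T F p q d →
    ∃ V' F', Ext V F V' F' (fun s => s = {p, q, d}) (e3 p q d α β γ) μ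

lemma Ext.congr {V F V' F' R R' δ δ' μ} (h : Ext V F V' F' R δ μ) (hR : ∀ s ∈ F, R s → R' s)
    (hδ : ∀ v ∈ V, δ v = δ' v) : Ext V F V' F' R' δ' μ :=
  ⟨h.pre, h.geo, h.sub, fun s hs k => h.keep s hs fun k' => k (hR s hs k'),
    fun v hv => hδ v hv ▸ h.dg v hv, h.new⟩

lemma Gad.zero : Gad 0 0 0 0 := fun V F _ _ _ h g _ =>
  ⟨V, F, h, g, Subset.refl _, fun _ hs _ => hs, fun _ _ => by simp [e3], by simp⟩

lemma Gad.rot {α β γ μ} (h : Gad α β γ μ) : Gad γ α β μ := fun V F p q d hp g t => by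
  obtain ⟨V', F', e⟩ := h V F q d p hp g t.rot
  exact ⟨V', F', e.congr (fun s _ k => by rw [k, tri23, tri12]) fun v _ => by
    unfold e3
    ring⟩

lemma Gad.comp {α₁ β₁ γ₁ μ₁ α₂ β₂ γ₂ μ₂ α₃ β₃ γ₃ μ₃} (h₁ : Gad α₁ β₁ γ₁ μ₁) (h₂ : Gad α₂ β₂ γ₂ μ₂)
    (h₃ : Gad α₃ β₃ γ₃ μ₃) : Gad (1 + α₁ + α₂) (1 + β₁ + α₃) (1 + β₂ + β₃)
      ({3 + γ₁ + γ₂ + γ₃} + (μ₁ + μ₂ + μ₃)) := by
  intro V F p q d h g t
  obtain ⟨z, hz⟩ := Infinite.exists_notMem_finset V
  have hy : ∀ s ∈ F, z ∉ s := fun s hs hy => hz (h.sub s hs hy)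
  obtain ⟨f1, f2, f3⟩ := fresh hy t
  have h0 := h.stk t hz
  have t1 : T (stk F z p q d) p q z := stk_edge t hy (by simp) (by simp) t.1
  have t2 : T (stk F z p q d) p d z := stk_edge t hy (by simp) (by simp) t.2.1
  have t3 : T (stk F z p q d) q d z := stk_edge t hy (by simp) (by simp) t.2.2.1
  have n1 : ∀ a b : ℕ, ({a, d, z} : Finset ℕ) ≠ {p, q, z} := fun a _ e => by
    have : d ∈ ({p, q, z} : Finset ℕ) := e ▸ (by simp)
    simp [t.2.1.symm, t.2.2.1.symm, f3.symm] at this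
  have n2 : ({q, d, z} : Finset ℕ) ≠ {p, d, z} := fun e => by
    have : q ∈ ({p, d, z} : Finset ℕ) := e ▸ (by simp)
    simp [t.1.symm, t.2.2.1, f2.symm] at this
  have out : ∀ {a b α β γ v}, T (stk F z p q d) a b z → v ∉ insert z V → e3 a b z α β γ v = 0 := by
    intro a b α β γ v k hv
    have k1 : v ≠ a := fun e => hv (e ▸ h0.mem k)
    have k2 : v ≠ b := fun e => hv (e ▸ h0.mem k.rot)
    have k3 : v ≠ z := fun e => hv (e ▸ h0.mem k.rot')
    simp [e3, k1, k2, k3]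
  obtain ⟨V₁, F₁, e₁⟩ := h₁ _ _ p q z h0 (g.stk h t hz) t1
  obtain ⟨V₂, F₂, e₂⟩ := h₂ V₁ F₁ p d z e₁.pre e₁.geo
    ⟨t2.1, t2.2.1, t2.2.2.1, e₁.keep _ t2.2.2.2 (n1 p p)⟩
  have e₁₂ := e₁.trans e₂ fun v hv => out t2 hv
  obtain ⟨V₃, F₃, e₃⟩ := h₃ V₂ F₂ q d z e₂.pre e₂.geo
    ⟨t3.1, t3.2.1, t3.2.2.1, e₁₂.keep _ t3.2.2.2 (not_or.2 ⟨n1 q q, n2⟩)⟩
  have e := e₁₂.trans e₃ fun v hv => out t3 hv
  refine ⟨V₃, F₃, e.pre, e.geo, (subset_insert _ _).trans e.sub, fun s hs k => ?_,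
    fun v hv => ?_, ?_⟩
  · refine e.keep s (mem_stk.2 (Or.inr (Or.inr (Or.inr ⟨k, hs⟩)))) ?_
    rintro ((rfl | rfl) | rfl) <;> exact hy _ hs (by simp)
  · have hvz : v ≠ z := fun e => hz (e ▸ hv)
    rw [e.dg v (mem_insert_of_mem hv), deg_stk t hy hvz]
    have k1 := t.1
    have k2 := t.2.1
    have k3 := t.2.2.1
    simp only [e3, mem_insert, mem_singleton]
    split_ifs <;> omega
  · rw [sdiff_val_add (subset_insert z V) e.sub, Multiset.map_add, e.new, insert_sdiff_of_notMem _ hz,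
      sdiff_self]
    congr 1
    simp only [bot_eq_empty, insert_empty_eq, singleton_val, Multiset.map_singleton,
      Multiset.singleton_inj]
    rw [e.dg z (mem_insert_self _ _), deg_stk_self t hy]
    simp only [e3, f1, f2, f3, if_true, if_false]
    ring

lemma Gad.cast {α β γ μ α' β' γ' μ'} (h : Gad α β γ μ) (h1 : α = α') (h2 : β = β') (h3 : γ = γ')
    (h4 : μ = μ') : Gad α' β' γ' μ' := h1 ▸ h2 ▸ h3 ▸ h4 ▸ h

lemma gad_chain (l : ℕ) : Gad (1 + l) (1 + l) 1 ({3} + Multiset.replicate l 4) := by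
  induction l with
  | zero => exact Gad.zero.comp Gad.zero Gad.zero
  | succ l ih =>
    refine (ih.comp Gad.zero Gad.zero).cast (by ring) (by ring) rfl ?_
    rw [Multiset.replicate_succ, ← Multiset.singleton_add]
    simp only [add_zero]
    abel

lemma gad_lev (j : ℕ) : ∀ c l, c + 1 = 2 ^ (j + 1) →
    Gad (c + l) (c + l) c (lev (j + 1) + Multiset.replicate l 4) := by
  induction j with
  | zero =>
    intro c l hc
    obtain rfl : c = 1 := by omega
    simpa [lev] using gad_chain l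
  | succ j ih =>
    intro c l hc
    have h2 := Nat.two_pow_pos (j + 1)
    obtain ⟨c', hc'⟩ : ∃ c', c' + 1 = 2 ^ (j + 1) := ⟨2 ^ (j + 1) - 1, by omega⟩
    refine ((ih c' l hc').comp (ih c' 0 hc') (ih c' 0 hc')).cast (by omega) (by omega) (by omega) ?_
    rw [lev.eq_2 (j + 1), show 3 + c' + c' + c' = 3 * 2 ^ (j + 1) by omega]
    simp only [Multiset.replicate_zero, add_zero, succ_nsmul, zero_nsmul, zero_add]
    abel

lemma gad_y {j c : ℕ} (hc : c + 1 = 2 ^ (j + 1)) (a : ℕ) : Gad (2 * c + 1) (2 * c + 1)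
    (2 * c + 1 + a) ({2 ^ (j + 1) * 3 + a} + (3 • lev (j + 1) + Multiset.replicate a 4)) := by
  refine ((gad_lev j c 0 hc).comp (gad_lev j c a hc).rot (gad_lev j c 0 hc)).cast (by omega)
    (by omega) (by omega) ?_
  rw [show 3 + c + (c + a) + c = 2 ^ (j + 1) * 3 + a by omega]
  simp only [Multiset.replicate_zero, add_zero, succ_nsmul, zero_nsmul, zero_add]
  abel

/-- The new degrees created for a group of three numbers. -/
def grp (j : ℕ) (g : Multiset ℕ) : Multiset ℕ :=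
  {2 ^ j * 6 + g.sum} + g.map (fun x => 2 ^ j * 3 + x) + 9 • lev j + Multiset.replicate g.sum 4

lemma gad_x {j c : ℕ} (hc : c + 1 = 2 ^ (j + 1)) {g : Multiset ℕ} (hg : g.card = 3) :
    Gad (4 * c + 3) (4 * c + 3) (4 * c + 3) (grp (j + 1) g) := by
  obtain ⟨x, y, z, rfl⟩ := Multiset.card_eq_three.1 hg
  refine ((gad_y hc x).comp (gad_y hc y) (gad_y hc z)).cast (by omega) (by omega) (by omega) ?_
  rw [show 3 + (2 * c + 1 + x) + (2 * c + 1 + y) + (2 * c + 1 + z) = 2 ^ (j + 1) * 6 + (x + (y + z))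
    by omega]
  simp only [grp, Multiset.insert_eq_cons, Multiset.sum_cons, Multiset.sum_singleton,
    Multiset.map_cons, Multiset.map_singleton, Multiset.replicate_add]
  simp only [← Multiset.singleton_add]
  ext n
  simp only [Multiset.count_add, Multiset.count_nsmul]
  ring

lemma sum_grp (j : ℕ) (l : Multiset (Multiset ℕ)) : (l.map (grp j)).sum =
    (l.map Multiset.sum).map (fun x => 2 ^ j * 6 + x) + l.sum.map (fun x => 2 ^ j * 3 + x) +
      (9 * l.card) • lev j + Multiset.replicate l.sum.sum 4 := by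
  induction l using Multiset.induction_on with
  | empty => simp
  | cons g l ih =>
    rw [Multiset.map_cons, Multiset.sum_cons, ih]
    simp only [Multiset.map_cons, Multiset.sum_cons, grp, Multiset.map_add, Multiset.sum_add,
      Multiset.replicate_add, Multiset.card_cons]
    simp only [← Multiset.singleton_add]
    ext n
    simp only [Multiset.count_add, Multiset.count_nsmul]
    ring

lemma apply_all (c : ℕ) (l : Multiset (Multiset ℕ)) : (∀ μ ∈ l, Gad c c c μ) →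
    ∀ V F R, Pre V F → Geo V F → R ⊆ F → R.card = l.card →
      ∃ V' F', Ext V F V' F' (fun s => s ∈ R) (fun v => c * deg R v) l.sum := by
  induction l using Multiset.induction_on with
  | empty =>
    intro _ V F R h g _ hc
    obtain rfl : R = ∅ := by simpa using hc
    exact ⟨V, F, h, g, Subset.refl _, fun _ hs _ => hs, fun _ _ => by simp [deg], by simp⟩
  | cons μ l ih =>
    intro hl V F R h g hR hc
    rw [Multiset.card_cons] at hc
    obtain ⟨t, ht⟩ := card_pos.1 (show 0 < R.card by omega)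
    obtain ⟨p, q, d, k, rfl⟩ := h.exists_T0 (hR ht)
    obtain ⟨V₁, F₁, e₁⟩ := hl μ (Multiset.mem_cons_self _ _) V F p q d h g k
    obtain ⟨V₂, F₂, e₂⟩ := ih (fun ν hν => hl ν (Multiset.mem_cons_of_mem hν)) V₁ F₁
      (R.erase {p, q, d}) e₁.pre e₁.geo
      (fun s hs => e₁.keep s (hR (mem_erase.1 hs).2) (mem_erase.1 hs).1)
      (by rw [card_erase_of_mem ht]; omega)
    refine ⟨V₂, F₂, Multiset.sum_cons μ l ▸ (e₁.trans e₂ fun v hv => ?_).congr ?_ fun v _ => ?_⟩
    · rw [deg, filter_eq_empty_iff.2 fun s hs k => hv (h.sub s (hR (mem_erase.1 hs).2) k)]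
      simp
    · rintro s - (rfl | k)
      · exact ht
      · exact (mem_erase.1 k).2
    · simp only [deg, card_filter]
      rw [← add_sum_erase R _ ht, mul_add]
      congr 1
      have k1 := k.1
      have k2 := k.2.1
      have k3 := k.2.2.1
      simp only [e3, mem_insert, mem_singleton]
      split_ifs <;> omega

lemma pre_tet : Pre {0, 1, 2, 3} ({{0, 1, 2}, {0, 1, 3}, {0, 2, 3}, {1, 2, 3}} : Finset (Finset ℕ)) := by
  refine ⟨by decide, by decide, by decide, fun {a b c} k => ?_, by decide⟩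
  have hs : ∀ t ∈ ({{0, 1, 2}, {0, 1, 3}, {0, 2, 3}, {1, 2, 3}} : Finset (Finset ℕ)), ∀ x ∈ t,
      x < 4 := by decide
  have ha := hs _ k.2.2.2 a (by simp)
  have hb := hs _ k.2.2.2 b (by simp)
  have hc := hs _ k.2.2.2 c (by simp)
  refine ⟨6 - a - b - c, ?_⟩
  revert k
  unfold T
  interval_cases a <;> interval_cases b <;> interval_cases c <;> decide

lemma geo_tet : Geo {0, 1, 2, 3} ({{0, 1, 2}, {0, 1, 3}, {0, 2, 3}, {1, 2, 3}} : Finset (Finset ℕ)) := by
  let n : ℕ → EuclideanSpace ℝ (Fin 3) := fun i =>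
    if i = 0 then !₂[1, 1, 1] else if i = 1 then !₂[1, -1, -1] else if i = 2 then !₂[-1, 1, -1]
      else !₂[-1, -1, 1]
  refine ⟨fun v => (innerSL ℝ (n v)).toLinearMap, fun t => ∑ v ∈ t, n v, fun t ht v hv => ?_⟩
  simp only [mem_insert, mem_singleton] at ht hv
  rcases ht with rfl | rfl | rfl | rfl <;> rcases hv with rfl | rfl | rfl | rfl <;>
    simp [n, PiLp.inner_apply, Fin.sum_univ_three] <;> norm_num

/-- The degrees of the unweighted vertices of the base triangulation. -/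
def zz (m : ℕ) : Multiset ℕ :=
  {4 * (m + 4), 4 * (m + 4), 16, 12, 12} + Multiset.replicate m 16 +
    Multiset.replicate (m + 6) 6 + Multiset.replicate (3 * m + 18) 3

theorem build {j : ℕ} (hj : j ≠ 0) {a B : Multiset ℕ} (h : TS a B) :
    ∃ (V : Finset ℕ) (F : Finset (Finset ℕ)), Pre V F ∧ Geo V F ∧ V.val.map (deg F) =
      top (2 ^ j) (zz B.card) a B + (18 * B.card + 54) • lev j + Multiset.replicate a.sum 4 := by
  obtain ⟨l, h3, rfl, rfl⟩ := h
  obtain ⟨j, rfl⟩ := Nat.exists_eq_succ_of_ne_zero hj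
  have h2 := Nat.two_pow_pos (j + 1)
  obtain ⟨c, hc⟩ : ∃ c, c + 1 = 2 ^ (j + 1) := ⟨2 ^ (j + 1) - 1, by omega⟩
  rw [Multiset.card_map]
  obtain ⟨V₁, F₁, e₁⟩ := gad_chain l.card _ _ 0 1 2 pre_tet geo_tet (by unfold T; decide)
  have a₁ : V₁.val.map (deg F₁) =
      {l.card + 4, l.card + 4, 4, 3, 3} + Multiset.replicate l.card 4 := by
    rw [e₁.all, ← add_assoc]
    congr 1
    have d : ∀ v ∈ ({0, 1, 2, 3} : Finset ℕ),
        deg ({{0, 1, 2}, {0, 1, 3}, {0, 2, 3}, {1, 2, 3}} : Finset (Finset ℕ)) v = 3 := by decide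
    rw [Multiset.map_congr rfl fun v hv => by rw [d v hv],
      show ({0, 1, 2, 3} : Finset ℕ).val = {0, 1, 2, 3} from rfl]
    simp [e3, show 3 + (1 + l.card) = l.card + 4 by ring]
  have c₁ : F₁.card = l.card + (l.card + 6) := by
    have k1 := congrArg Multiset.card a₁
    have k2 := e₁.pre.card
    simp only [Multiset.card_map, card_val, Multiset.card_add, Multiset.card_replicate,
      Multiset.insert_eq_cons, Multiset.card_cons, Multiset.card_singleton] at k1
    omega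
  obtain ⟨V₂, F₂, e₂⟩ := apply_all (4 * c + 3)
    ((l + Multiset.replicate (l.card + 6) {0, 0, 0}).map (grp (j + 1))) (fun μ hμ => by
      obtain ⟨g, hg, rfl⟩ := Multiset.mem_map.1 hμ
      refine gad_x hc ?_
      rcases Multiset.mem_add.1 hg with k | k
      · exact h3 g k
      · rw [Multiset.eq_of_mem_replicate k]
        rfl) V₁ F₁ F₁ e₁.pre e₁.geo (Subset.refl _)
    (by rw [c₁, Multiset.card_map, Multiset.card_add, Multiset.card_replicate])
  refine ⟨V₂, F₂, e₂.pre, e₂.geo, ?_⟩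
  have a₂ : V₁.val.map (fun v => deg F₁ v + (4 * c + 3) * deg F₁ v) =
      (V₁.val.map (deg F₁)).map fun x => 2 ^ (j + 1) * (4 * x) := by
    rw [Multiset.map_map]
    refine Multiset.map_congr rfl fun v _ => ?_
    simp only [Function.comp, ← hc]
    ring
  have a₃ : (Multiset.replicate (l.card + 6) ({0, 0, 0} : Multiset ℕ)).sum =
      Multiset.replicate (3 * l.card + 18) 0 := by
    rw [Multiset.sum_replicate, show ({0, 0, 0} : Multiset ℕ) = Multiset.replicate 3 0 from rfl,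
      Multiset.nsmul_replicate]
    congr 1
    ring
  rw [e₂.all, a₂, a₁, sum_grp, Multiset.sum_add, a₃]
  simp only [top, zz, Multiset.map_add, Multiset.map_replicate, Multiset.insert_eq_cons,
    Multiset.map_cons, Multiset.map_singleton, Multiset.sum_cons, Multiset.sum_singleton,
    Multiset.sum_add, Multiset.sum_replicate, Multiset.card_add, Multiset.card_replicate,
    smul_zero, add_zero, Nat.succ_eq_add_one, Nat.reduceMul,
    show 9 * (l.card + (l.card + 6)) = 18 * l.card + 54 by ring]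
  abel

end Pool.Agent.P.MP_e40812_co
end

-- part Pool.Agent.P.MP_e40812_co.Bridge
section

/-!
Simple polyhedra and abstract triangulated spheres.
-/

namespace Pool.Agent.P.MP_e40812_co

open Module Finset

section General

variable {W : Type*} [AddCommGroup W] [Module ℝ W] {ι : Type*} [DecidableEq ι] {pt : ι → W}
  {X : Finset ι}

lemma nsides_eq (hV : finrank ℝ W = 3) (hX : Conv pt X) {A : Finset ι} (hA : Facet pt X A) :
    nsides pt X A = A.card := by
  classical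
  refine le_antisymm ?_ (card_le_nsides hV hX hA)
  have := card_mul_le_card_mul (s := (edgeSets pt X).filter fun E => E ⊆ A) (t := A)
    (fun E w => w ∈ E) (m := 2) (n := 2) (fun E hE => by
      obtain ⟨hE, hEA⟩ := mem_filter.1 hE
      obtain ⟨x, y, h, rfl⟩ := mem_edgeSets.1 hE
      exact one_lt_card.2 ⟨x, mem_filter.2 ⟨hEA (by simp), by simp⟩, y,
        mem_filter.2 ⟨hEA (by simp), by simp⟩, h.2.2.1⟩) (fun w hw => by
      refine le_trans ?_ (edge_nbrs_le_two hV hA hw)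
      refine le_trans (card_le_card (t := (A.filter fun p => Edge pt X w p).image
        fun p => ({w, p} : Finset ι)) fun E hE => ?_) card_image_le
      obtain ⟨hE, hwE⟩ := mem_filter.1 hE
      obtain ⟨hE, hEA⟩ := mem_filter.1 hE
      obtain ⟨x, y, h, rfl⟩ := mem_edgeSets.1 hE
      simp only [mem_insert, mem_singleton] at hwE
      rcases hwE with rfl | rfl
      · exact mem_image.2 ⟨y, mem_filter.2 ⟨hEA (by simp), h⟩, rfl⟩
      · exact mem_image.2 ⟨x, mem_filter.2 ⟨hEA (by simp), h.symm⟩, pair_comm _ _⟩)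
  have e : nsides pt X A = ((edgeSets pt X).filter fun E => E ⊆ A).card := by
    unfold nsides
    congr
  omega

lemma rot_step (hX : Conv pt X) {x : ι} (hx : x ∈ X) (m : W →ₗ[ℝ] ℝ)
    (hp : ∃ z ∈ X, m (pt x) < m (pt z)) (hn : ∃ z ∈ X, m (pt z) < m (pt x)) :
    ∃ p ∈ X, m (pt x) < m (pt p) ∧ (Edge pt X x p ∨ ∃ A, Facet pt X A ∧ x ∈ A ∧ p ∈ A) := by
  classical
  obtain ⟨ψ, hψ⟩ := hX x hx
  obtain ⟨τ, hτ, hle, p, hp, hb, he⟩ := rotate (X.erase x)
    (fun z => ψ (pt z) - ψ (pt x)) (fun z => m (pt z) - m (pt x))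
    (fun z hz => sub_neg.2 (hψ z (mem_erase.1 hz).2 (mem_erase.1 hz).1))
    (by
      obtain ⟨z, hz, hz'⟩ := hp
      refine ⟨z, mem_erase.2 ⟨?_, hz⟩, sub_pos.2 hz'⟩
      rintro rfl
      exact lt_irrefl _ hz')
  obtain ⟨hpx, hpX⟩ := mem_erase.1 hp
  have hlt : ∀ z ∈ X, (ψ + τ • m) (pt z) ≠ (ψ + τ • m) (pt x) →
      (ψ + τ • m) (pt z) < (ψ + τ • m) (pt x) := by
    intro z hz hne
    refine lt_of_le_of_ne ?_ hne
    have := hle z (mem_erase.2 ⟨fun e => hne (e ▸ rfl), hz⟩)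
    simp only [LinearMap.add_apply, LinearMap.smul_apply, smul_eq_mul]
    linarith
  have hpe : (ψ + τ • m) (pt p) = (ψ + τ • m) (pt x) := by
    simp only [LinearMap.add_apply, LinearMap.smul_apply, smul_eq_mul]
    linarith
  refine ⟨p, hpX, by linarith, ?_⟩
  by_cases h : ∃ k ∈ X, k ≠ x ∧ k ≠ p ∧ (ψ + τ • m) (pt k) = (ψ + τ • m) (pt x)
  · obtain ⟨k, hk, hkx, hkp, hke⟩ := h
    refine Or.inr ⟨X.filter fun z => (ψ + τ • m) (pt z) = (ψ + τ • m) (pt x),
      ⟨two_lt_card_iff.2 ⟨x, p, k, mem_filter.2 ⟨hx, rfl⟩, mem_filter.2 ⟨hpX, hpe⟩,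
        mem_filter.2 ⟨hk, hke⟩, hpx.symm, hkx.symm, hkp.symm⟩, ψ + τ • m, fun h0 => ?_, _,
        filter_subset _ _, fun i hi => (mem_filter.1 hi).2,
        fun i hi hi' => hlt i hi fun e => hi' (mem_filter.2 ⟨hi, e⟩)⟩,
      mem_filter.2 ⟨hx, rfl⟩, mem_filter.2 ⟨hpX, hpe⟩⟩
    obtain ⟨q, hq, hq'⟩ := hn
    have e1 := LinearMap.congr_fun h0 (pt q - pt x)
    simp only [LinearMap.add_apply, LinearMap.smul_apply, map_sub, smul_eq_mul,
      LinearMap.zero_apply] at e1
    have := hψ q hq (by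
      rintro rfl
      exact lt_irrefl _ hq')
    nlinarith
  · push Not at h
    exact Or.inl ⟨hx, hpX, hpx.symm, ψ + τ • m, hpe, fun k hk h1 h2 => hlt k hk (h k hk h1 h2)⟩

lemma exists_facet (hV : finrank ℝ W = 3) (hX : Conv pt X) (hF : Full pt X) (h3 : 3 ≤ X.card)
    {x : ι} (hx : x ∈ X) : ∃ A, Facet pt X A ∧ x ∈ A := by
  obtain ⟨p, hp, q, hq, hpq⟩ := one_lt_card.1 (show 1 < (X.erase x).card by
    rw [card_erase_of_mem hx]
    omega)
  rw [mem_erase] at hp hq
  obtain ⟨m₁, a1, a2⟩ := exists_dual_sep (indep3 hX hx hp.2 hq.2 hp.1.symm hq.1.symm hpq)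
  obtain ⟨m₂, b1, b2⟩ := exists_dual_sep (indep3 hX hx hq.2 hp.2 hq.1.symm hp.1.symm hpq.symm)
  rw [map_sub] at a1 a2 b1 b2
  obtain ⟨r, -, -, h | ⟨A, hA, h, -⟩⟩ := rot_step hX hx (m₁ - m₂)
    ⟨p, hp.2, by simp only [LinearMap.sub_apply]; linarith⟩
    ⟨q, hq.2, by simp only [LinearMap.sub_apply]; linarith⟩
  · obtain ⟨A, -, hA, -, -, h, -⟩ := two_facets hV hF h
    exact ⟨A, hA, h⟩
  · exact ⟨A, hA, h⟩

omit [DecidableEq ι] in
lemma other_facet (hV : finrank ℝ W = 3) (hF : Full pt X) {x y : ι} (h : Edge pt X x y)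
    (A : Finset ι) : ∃ B, Facet pt X B ∧ B ≠ A ∧ x ∈ B ∧ y ∈ B := by
  obtain ⟨B, C, hB, hC, hBC, h1, h2, h3, h4⟩ := two_facets hV hF h
  by_cases hBA : B = A
  · exact ⟨C, hC, fun e => hBC (hBA.trans e.symm), h3, h4⟩
  · exact ⟨B, hB, hBA, h1, h2⟩

lemma three_facets (hV : finrank ℝ W = 3) (hX : Conv pt X) (hF : Full pt X) (h3 : 3 ≤ X.card)
    {x : ι} (hx : x ∈ X) : 3 ≤ deg (facets pt X) x := by
  obtain ⟨A, hA, hxA⟩ := exists_facet hV hX hF h3 hx
  obtain ⟨p, hp, q, hq, hpq, ep, eq⟩ := two_edges hV hX hA hxA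
  obtain ⟨B, hB, hBA, b1, b2⟩ := other_facet hV hF ep A
  obtain ⟨C, hC, hCA, c1, c2⟩ := other_facet hV hF eq A
  refine two_lt_card_iff.2 ⟨A, B, C, mem_filter.2 ⟨mem_facets.2 hA, hxA⟩,
    mem_filter.2 ⟨mem_facets.2 hB, b1⟩, mem_filter.2 ⟨mem_facets.2 hC, c1⟩, hBA.symm, hCA.symm, ?_⟩
  rintro rfl
  exact hBA (facet_eq_of_three hV hX hB hA b1 b2 c2 hxA hp hq ep.2.2.1 eq.2.2.1 hpq)

omit [DecidableEq ι] in
lemma closed_all {Y : Finset ι} (f : ι → ℝ) (hf : ∀ i ∈ Y, ∀ j ∈ Y, i ≠ j → f i ≠ f j)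
    (C : (ι → Prop) → Prop) (hC : ∀ P, C P → C fun i => ¬ P i)
    (up : ∀ P, C P → ∀ x ∈ Y, P x → (∃ z ∈ Y, f x < f z) → ∃ z ∈ Y, P z ∧ f x < f z)
    (P : ι → Prop) (hP : C P) {x y : ι} (hx : x ∈ Y) (hy : y ∈ Y) (h : P x) : P y := by
  classical
  obtain ⟨M, hM, hM'⟩ := exists_max_image Y f ⟨x, hx⟩
  have key : ∀ Q, C Q → ∀ z ∈ Y, Q z → Q M := by
    intro Q hQ z hz h
    by_contra hn
    obtain ⟨u, hu, hu'⟩ := exists_max_image (Y.filter Q) f ⟨z, mem_filter.2 ⟨hz, h⟩⟩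
    obtain ⟨hu, hQu⟩ := mem_filter.1 hu
    obtain ⟨v, hv, h1, h2⟩ := up Q hQ u hu hQu
      ⟨M, hM, lt_of_le_of_ne (hM' u hu) (hf u hu M hM fun e => hn (e ▸ hQu))⟩
    exact absurd (hu' v (mem_filter.2 ⟨hv, h1⟩)) (not_le.2 h2)
  by_contra hn
  exact key _ (hC P hP) y hy hn (key P hP x hx h)

lemma edge_conn (hV : finrank ℝ W = 3) (hX : Conv pt X) (hF : Full pt X) (h3 : 3 ≤ X.card)
    (P : ι → Prop) (hP : ∀ a b, Edge pt X a b → P a → P b) {x y : ι} (hx : x ∈ X) (hy : y ∈ X)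
    (h : P x) : P y := by
  obtain ⟨l, hl⟩ := exists_generic hX
  have hC : ∀ Q : ι → Prop, (∀ a b, Edge pt X a b → Q a → Q b) →
      ∀ a b, Edge pt X a b → ¬ Q a → ¬ Q b := fun Q hQ a b e h1 h2 => h1 (hQ b a e.symm h2)
  have poly : ∀ A, Facet pt X A → ∀ Q : ι → Prop, (∀ a b, Edge pt X a b → Q a → Q b) →
      ∀ a ∈ A, ∀ b ∈ A, Q a → Q b := by
    intro A hA Q hQ a ha b hb h
    refine closed_all (fun i => l (pt i))
      (fun i hi j hj => hl i (hA.subset hi) j (hA.subset hj)) _ hC ?_ Q hQ ha hb h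
    intro Q hQ u hu hQu hz
    obtain ⟨p, hp, -, -, -, ep, -⟩ := two_edges hV hX hA hu
    rcases lt_or_gt_of_ne (hl u ep.1 p ep.2.1 ep.2.2.1) with k | k
    · exact ⟨p, hp, hQ u p ep hQu, k⟩
    · obtain ⟨q, hq, eq, k'⟩ := edge_of_rot hV hX hA hu l hz ⟨p, hp, k⟩
      exact ⟨q, hq, hQ u q eq hQu, k'⟩
  refine closed_all (fun i => l (pt i)) hl _ hC ?_ P hP hx hy h
  intro Q hQ u hu hQu hz
  obtain ⟨A, hA, huA⟩ := exists_facet hV hX hF h3 hu
  obtain ⟨p, -, -, -, -, ep, -⟩ := two_edges hV hX hA huA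
  rcases lt_or_gt_of_ne (hl u ep.1 p ep.2.1 ep.2.2.1) with k | k
  · exact ⟨p, ep.2.1, hQ u p ep hQu, k⟩
  · obtain ⟨q, hq, k', e | ⟨B, hB, h1, h2⟩⟩ := rot_step hX hu l hz ⟨p, ep.2.1, k⟩
    · exact ⟨q, hq, hQ u q e hQu, k'⟩
    · exact ⟨q, hq, poly B hB Q hQ u h1 q h2 hQu, k'⟩

theorem tri_of_simple (hV : finrank ℝ W = 3) (hX : Conv pt X) (hF : Full pt X) (h3 : 3 ≤ X.card)
    (hs : ∑ A ∈ facets pt X, A.card + 12 = 6 * (facets pt X).card) :
    ∃ F, Tri (facets pt X) F ∧ ∀ A ∈ facets pt X, deg F A = A.card := by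
  obtain ⟨τ, hτ⟩ : ∃ τ : ι → Finset (Finset ι), τ = fun x => (facets pt X).filter fun A => x ∈ A :=
    ⟨_, rfl⟩
  have mτ : ∀ x A, A ∈ τ x ↔ Facet pt X A ∧ x ∈ A := by simp [hτ, mem_facets]
  have s1 := sum_deg X (facets pt X)
  rw [sum_congr rfl fun A hA => show (A ∩ X).card = A.card by
    rw [inter_eq_left.2 (mem_facets.1 hA).subset]] at s1
  have s2 := sum_facets hV hX (by omega)
  have s3 : ∑ A ∈ facets pt X, A.card = ∑ A ∈ facets pt X, ((A.card - 2) + 2) :=
    sum_congr rfl fun A hA => by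
      have := (mem_facets.1 hA).1
      omega
  have s4 := sum_le_sum fun x hx => three_facets hV hX hF h3 (x := x) hx
  rw [sum_add_distrib, sum_const, smul_eq_mul] at s3
  rw [sum_const, smul_eq_mul] at s4
  replace s1 : ∑ x ∈ X, deg (facets pt X) x + 12 = 6 * (facets pt X).card := s1 ▸ hs
  have c3 : ∀ x ∈ X, (τ x).card = 3 := fun x hx => by
    rw [hτ]
    exact ((sum_eq_sum_iff_of_le fun x hx => three_facets hV hX hF h3 (x := x) hx).1 (by
      rw [sum_const, smul_eq_mul]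
      omega) x hx).symm
  have inj : ∀ x ∈ X, ∀ y ∈ X, τ x = τ y → x = y := by
    intro x hx y _ e
    by_contra hxy
    obtain ⟨A, B, C, h1, h2, h3, e'⟩ := card_eq_three.1 (c3 x hx)
    have a1 := (mτ x A).1 (e' ▸ by simp)
    have a2 := (mτ x B).1 (e' ▸ by simp)
    have a3 := (mτ x C).1 (e' ▸ by simp)
    rw [e] at e'
    exact three_facets_false hV hX a1.1 a2.1 a3.1 h1 h2 h3 hxy a1.2 ((mτ y A).1 (e' ▸ by simp)).2
      a2.2 ((mτ y B).1 (e' ▸ by simp)).2 a3.2 ((mτ y C).1 (e' ▸ by simp)).2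
  have ofT : ∀ {A B C}, T (X.image τ) A B C → ∃ x ∈ X, τ x = {A, B, C} ∧
      (Facet pt X A ∧ x ∈ A) ∧ Facet pt X B ∧ x ∈ B := by
    intro A B C k
    obtain ⟨x, hx, e⟩ := mem_image.1 k.2.2.2
    exact ⟨x, hx, e, (mτ x A).1 (e ▸ by simp), (mτ x B).1 (e ▸ by simp)⟩
  have toT : ∀ {A B y}, A ≠ B → Facet pt X A → Facet pt X B → y ∈ A → y ∈ B →
      ∃ D, T (X.image τ) A B D ∧ τ y = {A, B, D} := by
    intro A B y hAB hA hB h1 h2
    obtain ⟨D, d1, d2, e⟩ := three_of_mem (c3 y (hA.subset h1)) ((mτ y A).2 ⟨hA, h1⟩)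
      ((mτ y B).2 ⟨hB, h2⟩) hAB
    exact ⟨D, ⟨hAB, d1, d2, e ▸ mem_image_of_mem τ (hA.subset h1)⟩, e⟩
  refine ⟨X.image τ, ⟨⟨fun t ht => ?_, fun t ht => ?_, fun A hA => ?_, fun {A B C} k => ?_, ?_⟩,
    fun {A B C D E} k1 k2 k3 => ?_, fun S hS hc t ht => ?_⟩, fun A hA => ?_⟩
  · obtain ⟨x, hx, rfl⟩ := mem_image.1 ht
    exact c3 x hx
  · obtain ⟨x, hx, rfl⟩ := mem_image.1 ht
    exact hτ ▸ filter_subset _ _
  · rw [mem_facets] at hA
    obtain ⟨x, hx⟩ := card_pos.1 (show 0 < A.card by have := hA.1; omega)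
    exact ⟨τ x, mem_image_of_mem τ (hA.subset hx), (mτ x A).2 ⟨hA, hx⟩⟩
  · obtain ⟨x, hx, e, ⟨hA, hxA⟩, hB, hxB⟩ := ofT k
    obtain ⟨y, hyA, hyB, hyx⟩ : ∃ y ∈ A, y ∈ B ∧ x ≠ y := by
      obtain ⟨p, hp, q, hq, hpq, ep, eq⟩ := two_edges hV hX hA hxA
      obtain ⟨B', b0, b1, b2, b3⟩ := other_facet hV hF ep A
      obtain ⟨C', c0, c1, c2, c4⟩ := other_facet hV hF eq A
      have m1 := (mτ x B').2 ⟨b0, b2⟩
      have m2 := (mτ x C').2 ⟨c0, c2⟩
      simp only [e, mem_insert, mem_singleton, b1, c1, false_or] at m1 m2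
      rcases m1 with rfl | rfl
      · exact ⟨p, hp, b3, ep.2.2.1⟩
      rcases m2 with rfl | rfl
      · exact ⟨q, hq, c4, eq.2.2.1⟩
      exact absurd (facet_eq_of_three hV hX b0 hA b2 b3 c4 hxA hp hq ep.2.2.1 eq.2.2.1 hpq) b1
    obtain ⟨D, k', e'⟩ := toT k.1 hA hB hyA hyB
    refine ⟨D, ?_, k'⟩
    rintro rfl
    exact hyx (inj x hx y (hA.subset hyA) (e.trans e'.symm))
  · rw [card_image_of_injOn inj]
    omega
  · obtain ⟨x, -, e1, ⟨hA, x1⟩, hB, x2⟩ := ofT k1
    obtain ⟨y, -, e2, ⟨-, y1⟩, -, y2⟩ := ofT k2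
    obtain ⟨z, -, e3, ⟨-, z1⟩, -, z2⟩ := ofT k3
    by_cases hxy : x = y
    · exact Or.inl (tri_inj (e1.symm.trans (hxy ▸ e2)) k1.2.1 k1.2.2.1)
    by_cases hxz : x = z
    · exact Or.inr (Or.inl (tri_inj (e1.symm.trans (hxz ▸ e3)) k1.2.1 k1.2.2.1))
    by_cases hyz : y = z
    · exact Or.inr (Or.inr (tri_inj (e2.symm.trans (hyz ▸ e3)) k2.2.1 k2.2.2.1))
    exact absurd (facet_eq_of_three hV hX hA hB x1 y1 z1 x2 y2 z2 hxy hxz hyz) k1.1
  · obtain ⟨s, hs, hS⟩ := hS
    obtain ⟨x, hx, rfl⟩ := mem_image.1 hs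
    obtain ⟨y, hy, rfl⟩ := mem_image.1 ht
    refine edge_conn hV hX hF h3 (fun x => S (τ x)) (fun a b e h => ?_) hx hy hS
    obtain ⟨A, B, hA, hB, hAB, h1, h2, h3, h4⟩ := two_facets hV hF e
    obtain ⟨C, k1, e1⟩ := toT hAB hA hB h1 h3
    obtain ⟨D, k2, e2⟩ := toT hAB hA hB h2 h4
    exact e2 ▸ hc A B C D k1 k2 (e1 ▸ h)
  · rw [mem_facets] at hA
    have : ((X.image τ).filter fun t => A ∈ t) = A.image τ := by
      ext t
      simp only [mem_filter, mem_image]
      constructor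
      · rintro ⟨⟨x, -, rfl⟩, h⟩
        exact ⟨x, ((mτ x A).1 h).2, rfl⟩
      · rintro ⟨x, hx, rfl⟩
        exact ⟨⟨x, hA.subset hx, rfl⟩, (mτ x A).2 ⟨hA, hx⟩⟩
    rw [deg, this, card_image_of_injOn fun x hx y hy => inj x (hA.subset hx) y (hA.subset hy)]

end General

lemma count_map_val {α : Type*} (V : Finset α) (f : α → ℕ) (n : ℕ) :
    (V.val.map f).count n = (V.filter fun v => f v = n).card := by
  rw [Multiset.count_map, ← card_val, filter_val]
  simp only [eq_comm]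

open Classical in
theorem tri_of_poly {P : Set (EuclideanSpace ℝ (Fin 3))} (hP : IsPolyhedron P) {s : Multiset ℕ}
    (h3 : ∀ n ∈ s, 3 ≤ n) (hc : ∀ n, 3 ≤ n → faceCount P n = s.count n)
    (hs : s.sum + 12 = 6 * s.card) :
    ∃ (V : Finset (Finset (EuclideanSpace ℝ (Fin 3)))) (F : Finset (Finset _)),
      Tri V F ∧ V.val.map (deg F) = s := by
  obtain ⟨X, rfl, hX, hd⟩ := exists_vertices hP
  have e : (facets id X).val.map card = s := by
    ext n
    rw [count_map_val]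
    by_cases hn : 3 ≤ n
    · rw [← hc n hn, faceCount_eq hX hd]
      exact congrArg card (filter_congr fun A hA => by
        rw [nsides_eq finrank_three hX (mem_facets.1 hA)])
    · rw [Multiset.count_eq_zero.2 fun h => hn (h3 n h), card_eq_zero, filter_eq_empty_iff]
      exact fun A hA h => hn (h ▸ (mem_facets.1 hA).1)
  have hne : X.Nonempty := by
    rw [nonempty_iff_ne_empty]
    rintro rfl
    rw [coe_empty, vectorSpan_empty, finrank_bot] at hd
    omega
  obtain ⟨F, h, h'⟩ := tri_of_simple finrank_three hX (full_of_dim hd) (by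
    have := dim_lt_card hne
    omega) (by rw [sum_eq_multiset_sum, e, hs, ← e, Multiset.card_map, card_val])
  exact ⟨_, F, h, by rw [← e, Multiset.map_congr rfl h']⟩

theorem poly_of_geo {ι : Type*} [DecidableEq ι] {V : Finset ι} {F : Finset (Finset ι)}
    (h : Pre V F) (g : Geo V F) :
    ∃ P, IsPolyhedron P ∧ ∀ n, faceCount P n = (V.val.map (deg F)).count n := by
  classical
  obtain ⟨φ, x, g⟩ := g
  have le : ∀ s ∈ F, ∀ v ∈ V, φ v (x s) ≤ 1 := fun s hs v hv => by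
    by_cases k : v ∈ s
    · exact ((g s hs v hv).1 k).le
    · exact ((g s hs v hv).2 k).le
  have sep : ∀ s ∈ F, ∀ t ∈ F, s ≠ t → (∑ v ∈ t, φ v) (x s) < (∑ v ∈ t, φ v) (x t) := by
    intro s hs t ht hst
    simp only [LinearMap.sum_apply]
    obtain ⟨v, hv, hvs⟩ : ∃ v ∈ t, v ∉ s := by
      by_contra hh
      push Not at hh
      exact hst (eq_of_subset_of_card_le hh (by rw [h.three s hs, h.three t ht])).symm
    refine sum_lt_sum (fun u hu => ?_) ⟨v, hv, ?_⟩
    · rw [(g t ht u (h.sub t ht hu)).1 hu]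
      exact le s hs u (h.sub t ht hu)
    · rw [(g t ht v (h.sub t ht hv)).1 hv]
      exact (g s hs v (h.sub t ht hv)).2 hvs
  have inj : ∀ s ∈ F, ∀ t ∈ F, x s = x t → s = t := fun s hs t ht e => by
    by_contra hst
    exact (sep s hs t ht hst).ne (by rw [e])
  have hX : Conv id (F.image x) := by
    intro p hp
    obtain ⟨t, ht, rfl⟩ := mem_image.1 hp
    refine ⟨∑ v ∈ t, φ v, fun q hq hne => ?_⟩
    obtain ⟨s, hs, rfl⟩ := mem_image.1 hq
    exact sep s hs t ht fun e => hne (e ▸ rfl)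
  obtain ⟨A, hA⟩ : ∃ A : ι → Finset (EuclideanSpace ℝ (Fin 3)),
    A = fun v => (F.filter fun t => v ∈ t).image x := ⟨_, rfl⟩
  have cA : ∀ v, (A v).card = deg F v := fun v => by
    rw [hA]
    exact card_image_of_injOn fun s hs t ht => inj s (mem_filter.1 hs).1 t (mem_filter.1 ht).1
  have mA : ∀ v, ∀ t ∈ F, x t ∈ A v ↔ v ∈ t := by
    intro v t ht
    simp only [hA, mem_image, mem_filter]
    exact ⟨fun ⟨s, hs, e⟩ => inj s hs.1 t ht e ▸ hs.2, fun k => ⟨t, ⟨ht, k⟩, rfl⟩⟩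
  have sA : ∀ v, A v ⊆ F.image x := fun v => hA ▸ image_subset_image (filter_subset _ _)
  have fA : ∀ v ∈ V, Facet id (F.image x) (A v) := by
    intro v hv
    refine ⟨(cA v).symm ▸ h.three_le hv, φ v, fun h0 => ?_, 1, sA v, fun p hp => ?_,
      fun p hp hp' => ?_⟩
    · obtain ⟨t, ht, hvt⟩ := h.cover v hv
      simpa [h0] using (g t ht v hv).1 hvt
    · obtain ⟨t, ht, rfl⟩ := mem_image.1 (sA v hp)
      exact (g t ht v hv).1 ((mA v t ht).1 hp)
    · obtain ⟨t, ht, rfl⟩ := mem_image.1 hp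
      exact (g t ht v hv).2 fun k => hp' ((mA v t ht).2 k)
  have iA : ∀ u ∈ V, ∀ v ∈ V, A u = A v → u = v := by
    intro u hu v _ e
    by_contra huv
    have key : ∀ t ∈ F, u ∈ t → v ∈ t := fun t ht k => (mA v t ht).1 (e ▸ (mA u t ht).2 k)
    obtain ⟨t, ht, hut⟩ := h.cover u hu
    obtain ⟨a, k, -⟩ := h.exists_T2 ht hut (key t ht hut) huv
    obtain ⟨d, hd, k'⟩ := h.next k.s23
    have := key _ k'.2.2.2 (by simp)
    simp [Ne.symm huv, k.2.2.1, hd.symm] at this
  have hc := h.card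
  obtain ⟨u, hu, v, hv, huv⟩ := one_lt_card.1 (show 1 < V.card by omega)
  have h3 : 3 ≤ (F.image x).card := (fA u hu).1.trans (card_le_card (sA u))
  have hd : finrank ℝ (vectorSpan ℝ ((F.image x : Finset _) : Set (EuclideanSpace ℝ (Fin 3)))) =
      3 := by
    by_contra hne
    obtain ⟨f, hf, hf'⟩ := Submodule.exists_dual_map_eq_bot_of_lt_top
      (p := vectorSpan ℝ ((F.image x : Finset _) : Set (EuclideanSpace ℝ (Fin 3))))
      (lt_top_iff_ne_top.2 fun e => hne (by rw [e, finrank_top, finrank_three])) inferInstance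
    obtain ⟨p, hp⟩ := card_pos.1 (show 0 < (F.image x).card by omega)
    have fX : Facet id (F.image x) (F.image x) := ⟨h3, f, hf, f p, Subset.refl _, fun q hq => by
      have : f (q - p) ∈ (vectorSpan ℝ ((F.image x : Finset _) :
          Set (EuclideanSpace ℝ (Fin 3)))).map f :=
        Submodule.mem_map_of_mem (vsub_mem_vectorSpan ℝ hq hp)
      rwa [hf', Submodule.mem_bot, map_sub, sub_eq_zero] at this, fun q hq hq' => absurd hq hq'⟩
    have key : ∀ w ∈ V, A w = F.image x := fun w hw => by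
      by_contra hne
      obtain ⟨z, z1, z2⟩ := facet_not_subset finrank_three hX (fA w hw) fX hne
      exact z2 (sA w z1)
    exact huv (iA u hu v hv ((key u hu).trans (key v hv).symm))
  have hfac : facets id (F.image x) = V.image A := by
    have hsub : V.image A ⊆ facets id (F.image x) := fun B hB => by
      obtain ⟨w, hw, rfl⟩ := mem_image.1 hB
      exact mem_facets.2 (fA w hw)
    have s1 := sum_facets finrank_three hX (by omega)
    rw [← sum_sdiff hsub, sum_image iA, card_image_of_injOn inj] at s1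
    have s2 : ∑ w ∈ V, deg F w = ∑ w ∈ V, (((A w).card - 2) + 2) := sum_congr rfl fun w hw => by
      have := h.three_le hw
      rw [cA]
      omega
    have s3 := h.sum_deg
    simp only [sum_add_distrib, sum_const, smul_eq_mul] at s2
    rw [card_image_of_injOn inj] at h3
    have s4 : ∑ B ∈ facets id (F.image x) \ V.image A, (B.card - 2) = 0 := by omega
    refine Subset.antisymm (fun B hB => ?_) hsub
    by_contra hn
    have k1 := sum_eq_zero_iff.1 s4 B (mem_sdiff.2 ⟨hB, hn⟩)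
    have k2 := (mem_facets.1 hB).1
    omega
  refine ⟨convexHull ℝ ((F.image x : Finset _) : Set _), ⟨⟨_, rfl⟩, by rw [vectorSpan_hull, hd]⟩,
    fun n => ?_⟩
  rw [faceCount_eq hX hd, count_map_val, hfac, filter_image,
    card_image_of_injOn fun a ha b hb => iA a (mem_filter.1 ha).1 b (mem_filter.1 hb).1]
  exact congrArg card (filter_congr fun w hw => by rw [nsides_eq finrank_three hX (fA w hw), cA])

end Pool.Agent.P.MP_e40812_co
end
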