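import Pool.Agent.K.MP_e40812_co.C1

-- part Pool.Agent.P.MP_e40812_co.LoSplit
section

/-!
Splitting a vertex of a realised triangle system.
-/

namespace Pool.Agent.P.MP_e40812_co

open Finset

variable {ι : Type*} [DecidableEq ι]

/-- The vertex `o` is split: the triangles of `A` go to the new vertex `y`. -/
def spl (F A : Finset (Finset ι)) (o y a b : ι) : Finset (Finset ι) :=
  insert {o, y, a} (insert {o, y, b} ((F \ A) ∪ A.image fun t => insert y (t.erase o)))

/-- `A` is one of the two arcs of triangles at `o` between the edges `oa` and `ob`. -/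
structure Cut (F A : Finset (Finset ι)) (o a b : ι) : Prop where
  sub : A ⊆ F
  mem : ∀ t ∈ A, o ∈ t
  ne : a ≠ b
  na : Nb F o a
  nb : Nb F o b
  closed : ∀ r s s', r ≠ a → r ≠ b → T F o r s → T F o r s' → {o, r, s} ∈ A → {o, r, s'} ∈ A
  cut : ∀ r s s', r = a ∨ r = b → T F o r s → T F o r s' → s ≠ s' →
    ({o, r, s} ∈ A ↔ {o, r, s'} ∉ A)
  conn : ∀ S : Finset ι → Prop,
    (∀ r s s', r ≠ a → r ≠ b → T F o r s → T F o r s' → S {o, r, s} → S {o, r, s'}) →
    ∀ t ∈ F, ∀ t' ∈ F, o ∈ t → o ∈ t' → (t ∈ A ↔ t' ∈ A) → S t → S t'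

variable {V : Finset ι} {F A : Finset (Finset ι)} {o y a b p q r : ι}

lemma mem_spl {s : Finset ι} : s ∈ spl F A o y a b ↔
    s = {o, y, a} ∨ s = {o, y, b} ∨ (s ∈ F ∧ s ∉ A) ∨ ∃ t ∈ A, insert y (t.erase o) = s := by
  simp only [spl, mem_insert, mem_union, mem_sdiff, mem_image]

lemma erase_tri (k : T F o q r) : ({o, q, r} : Finset ι).erase o = {q, r} :=
  erase_insert (by simp [k.1, k.2.1])

lemma Cut.symm (c : Cut F A o a b) : Cut F A o b a :=
  ⟨c.sub, c.mem, c.ne.symm, c.nb, c.na, fun r s s' h1 h2 => c.closed r s s' h2 h1,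
    fun r s s' h => c.cut r s s' h.symm,
    fun S hS => c.conn S fun r s s' h1 h2 => hS r s s' h2 h1⟩

lemma Cut.both (h : Pre V F) (c : Cut F A o a b) (hq : q = a ∨ q = b) :
    ∃ s s', T F o q s ∧ T F o q s' ∧ ({o, q, s} : Finset ι) ∈ A ∧ ({o, q, s'} : Finset ι) ∉ A := by
  obtain ⟨s, k⟩ : Nb F o q := by
    rcases hq with rfl | rfl
    · exact c.na
    · exact c.nb
  obtain ⟨d, hd, k'⟩ := h.next k
  have := c.cut q s d hq k k' hd.symm
  by_cases e : ({o, q, s} : Finset ι) ∈ A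
  · exact ⟨s, d, k, k', e, this.1 e⟩
  · exact ⟨d, s, k', k, by_contra fun e' => e (this.2 e'), e⟩

lemma spl_keep (k : T F p q r) (hA : ({p, q, r} : Finset ι) ∉ A) : T (spl F A o y a b) p q r :=
  ⟨k.1, k.2.1, k.2.2.1, mem_spl.2 (Or.inr (Or.inr (Or.inl ⟨k.2.2.2, hA⟩)))⟩

lemma spl_move (hy : ∀ s ∈ F, y ∉ s) (k : T F o q r) (hA : ({o, q, r} : Finset ι) ∈ A) :
    T (spl F A o y a b) y q r :=
  ⟨(fresh hy k).2.1, (fresh hy k).2.2, k.2.2.1,
    mem_spl.2 (Or.inr (Or.inr (Or.inr ⟨_, hA, by rw [erase_tri k]⟩)))⟩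

lemma spl_mid (hy : ∀ s ∈ F, y ∉ s) (c : Cut F A o a b) (hq : q = a ∨ q = b) :
    T (spl F A o y a b) o y q := by
  rcases hq with rfl | rfl
  · obtain ⟨s, k⟩ := c.na
    exact ⟨(fresh hy k).1.symm, k.1, (fresh hy k).2.1, mem_spl.2 (Or.inl rfl)⟩
  · obtain ⟨s, k⟩ := c.nb
    exact ⟨(fresh hy k).1.symm, k.1, (fresh hy k).2.1, mem_spl.2 (Or.inr (Or.inl rfl))⟩

lemma spl_inv0 (k : T (spl F A o y a b) p q r) (hp : p ≠ y) (hq : q ≠ y) (hr : r ≠ y) :
    T F p q r ∧ ({p, q, r} : Finset ι) ∉ A := by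
  have hn : y ∉ ({p, q, r} : Finset ι) := by simp [hp.symm, hq.symm, hr.symm]
  rcases mem_spl.1 k.2.2.2 with e | e | e | ⟨t, -, e⟩
  · exact absurd (by simp) (e ▸ hn)
  · exact absurd (by simp) (e ▸ hn)
  · exact ⟨⟨k.1, k.2.1, k.2.2.1, e.1⟩, e.2⟩
  · exact absurd (by simp) (e ▸ hn)

lemma spl_inv1 (hy : ∀ s ∈ F, y ∉ s) (c : Cut F A o a b) (k : T (spl F A o y a b) y q r)
    (hq : q ≠ o) (hr : r ≠ o) : T F o q r ∧ ({o, q, r} : Finset ι) ∈ A := by
  have hyo : y ≠ o := (spl_mid hy c (Or.inl rfl)).1.symm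
  have hn : o ∉ ({y, q, r} : Finset ι) := by simp [hyo.symm, hq.symm, hr.symm]
  rcases mem_spl.1 k.2.2.2 with e | e | e | ⟨t, ht, e⟩
  · exact absurd (by simp) (e ▸ hn)
  · exact absurd (by simp) (e ▸ hn)
  · exact absurd (by simp) (hy _ e.1)
  · have e1 : t.erase o = {q, r} := by
      have h1 : y ∉ t.erase o := fun hh => hy t (c.sub ht) (mem_of_mem_erase hh)
      rw [← erase_insert h1, e, erase_insert (by simp [k.1, k.2.1])]
    have e2 : t = {o, q, r} := by rw [← e1, insert_erase (c.mem t ht)]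
    exact ⟨⟨hq.symm, hr.symm, k.2.2.1, e2 ▸ c.sub ht⟩, e2 ▸ ht⟩

lemma spl_inv2 (hy : ∀ s ∈ F, y ∉ s) (k : T (spl F A o y a b) o y r) : r = a ∨ r = b := by
  rcases mem_spl.1 k.2.2.2 with e | e | e | ⟨t, ht, e⟩
  · exact Or.inl (tri_inj e k.2.1 k.2.2.1)
  · exact Or.inr (tri_inj e k.2.1 k.2.2.1)
  · exact absurd (by simp) (hy _ e.1)
  · have : o ∈ insert y (t.erase o) := e ▸ by simp
    simp [k.1] at this

lemma sum_spl (hy : ∀ s ∈ F, y ∉ s) (c : Cut F A o a b) (f : Finset ι → ℕ) :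
    ∑ s ∈ spl F A o y a b, f s = f {o, y, a} + f {o, y, b} + ∑ s ∈ F \ A, f s +
      ∑ t ∈ A, f (insert y (t.erase o)) := by
  have ka := spl_mid hy c (Or.inl rfl)
  have kb := spl_mid hy c (Or.inr rfl)
  have out : ∀ x, ({o, y, x} : Finset ι) ∉ (F \ A) ∪ A.image fun t => insert y (t.erase o) := by
    intro x hx
    rcases mem_union.1 hx with hx | hx
    · exact hy _ (mem_sdiff.1 hx).1 (by simp)
    · obtain ⟨t, -, e⟩ := mem_image.1 hx
      have : o ∈ insert y (t.erase o) := e ▸ by simp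
      simp [ka.1] at this
  have h1 : ({o, y, a} : Finset ι) ∉
      insert {o, y, b} ((F \ A) ∪ A.image fun t => insert y (t.erase o)) := by
    rw [mem_insert, not_or]
    exact ⟨fun e => c.ne (tri_inj e ka.2.1 ka.2.2.1), out a⟩
  have h2 : Disjoint (F \ A) (A.image fun t => insert y (t.erase o)) := by
    rw [disjoint_right]
    intro s hs hs'
    obtain ⟨t, -, rfl⟩ := mem_image.1 hs
    exact hy _ (mem_sdiff.1 hs').1 (by simp)
  have h3 : ∀ t ∈ A, ∀ t' ∈ A, insert y (t.erase o) = insert y (t'.erase o) → t = t' := by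
    intro t ht t' ht' e
    have k1 : y ∉ t.erase o := fun hh => hy t (c.sub ht) (mem_of_mem_erase hh)
    have k2 : y ∉ t'.erase o := fun hh => hy t' (c.sub ht') (mem_of_mem_erase hh)
    rw [← insert_erase (c.mem t ht), ← erase_insert k1, e, erase_insert k2,
      insert_erase (c.mem t' ht')]
  rw [spl, sum_insert h1, sum_insert (out b), sum_union h2, sum_image h3]
  ring

lemma Pre.spl (h : Pre V F) (c : Cut F A o a b) (hV : y ∉ V) :
    Pre (insert y V) (spl F A o y a b) := by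
  have hy : ∀ s ∈ F, y ∉ s := fun s hs hy => hV (h.sub s hs hy)
  have ka := spl_mid hy c (Or.inl rfl)
  have kb := spl_mid hy c (Or.inr rfl)
  have ho := h.nb_mem c.na
  have ha := h.nb_mem c.na.symm
  have hb := h.nb_mem c.nb.symm
  have N1 : ∀ {r}, T (Pool.Agent.P.MP_e40812_co.spl F A o y a b) o y r →
      ∃ d, d ≠ r ∧ T (Pool.Agent.P.MP_e40812_co.spl F A o y a b) o y d := by
    intro r _
    by_cases e : r = a
    · exact ⟨b, e ▸ c.ne.symm, kb⟩
    · exact ⟨a, Ne.symm e, ka⟩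
  have N2 : ∀ {q r}, q ≠ y → T (Pool.Agent.P.MP_e40812_co.spl F A o y a b) o q r →
      ∃ d, d ≠ r ∧ T (Pool.Agent.P.MP_e40812_co.spl F A o y a b) o q d := by
    intro q r hq k
    by_cases e : r = y
    · subst e
      obtain ⟨s, s', -, k2, -, k4⟩ := c.both h (spl_inv2 hy k.s23)
      exact ⟨s', (fresh hy k2).2.2.symm, spl_keep k2 k4⟩
    obtain ⟨k1, k2⟩ := spl_inv0 k ka.1 hq e
    by_cases e' : q = a ∨ q = b
    · exact ⟨y, Ne.symm e, (spl_mid hy c e').s23⟩
    obtain ⟨d, hd, k3⟩ := h.next k1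
    rw [not_or] at e'
    exact ⟨d, hd, spl_keep k3 fun hh => k2 (c.closed q d r e'.1 e'.2 k3 k1 hh)⟩
  have N3 : ∀ {q r}, q ≠ o → T (Pool.Agent.P.MP_e40812_co.spl F A o y a b) y q r →
      ∃ d, d ≠ r ∧ T (Pool.Agent.P.MP_e40812_co.spl F A o y a b) y q d := by
    intro q r hq k
    by_cases e : r = o
    · subst e
      obtain ⟨s, s', k1, -, k3, -⟩ := c.both h (spl_inv2 hy k.rot')
      exact ⟨s, k1.2.1.symm, spl_move hy k1 k3⟩
    obtain ⟨k1, k2⟩ := spl_inv1 hy c k hq e
    by_cases e' : q = a ∨ q = b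
    · exact ⟨o, Ne.symm e, (spl_mid hy c e').rot⟩
    obtain ⟨d, hd, k3⟩ := h.next k1
    rw [not_or] at e'
    exact ⟨d, hd, spl_move hy k3 (c.closed q r d e'.1 e'.2 k1 k3 k2)⟩
  have N4 : ∀ {p q r₀ r}, p ≠ o → q ≠ o → T F p q r₀ → (r = r₀ ∧ r ≠ y ∨ r₀ = o ∧ r = y) →
      ∃ d, d ≠ r ∧ T (Pool.Agent.P.MP_e40812_co.spl F A o y a b) p q d := by
    intro p q r₀ r hp hq k hr
    obtain ⟨d, hd, k1⟩ := h.next k
    by_cases e : ({p, q, d} : Finset ι) ∈ A
    · have e1 : d = o := by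
        have := c.mem _ e
        simp only [mem_insert, mem_singleton, hp.symm, hq.symm, false_or] at this
        exact this.symm
      subst e1
      refine ⟨y, ?_, (spl_move hy k1.rot' (by rwa [tri12, tri23])).rot⟩
      rcases hr with hr | hr
      · exact hr.2.symm
      · exact absurd hr.1.symm hd
    · refine ⟨d, ?_, spl_keep k1 e⟩
      rcases hr with hr | hr
      · exact hr.1 ▸ hd
      · exact hr.2 ▸ (fresh hy k1).2.2.symm
  refine ⟨fun t ht => ?_, fun t ht => ?_, fun v hv => ?_, fun {p q r} k => ?_, ?_⟩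
  · rcases mem_spl.1 ht with rfl | rfl | e | ⟨s, hs, rfl⟩
    · exact ka.card
    · exact kb.card
    · exact h.three t e.1
    · rw [card_insert_of_notMem fun hh => hy s (c.sub hs) (mem_of_mem_erase hh),
        card_erase_of_mem (c.mem s hs), h.three s (c.sub hs)]
  · rcases mem_spl.1 ht with rfl | rfl | e | ⟨s, hs, rfl⟩
    · simp [insert_subset_iff, ho, ha]
    · simp [insert_subset_iff, ho, hb]
    · exact (h.sub t e.1).trans (subset_insert _ _)
    · exact insert_subset_insert _ ((erase_subset _ _).trans (h.sub s (c.sub hs)))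
  · by_cases e : v = o ∨ v = y
    · exact ⟨_, ka.2.2.2, by rcases e with rfl | rfl <;> simp⟩
    rw [not_or] at e
    obtain ⟨t, ht, hvt⟩ := h.cover v ((mem_insert.1 hv).resolve_left e.2)
    by_cases e' : t ∈ A
    · exact ⟨_, mem_spl.2 (Or.inr (Or.inr (Or.inr ⟨t, e', rfl⟩))), by simp [e.1, hvt]⟩
    · exact ⟨t, mem_spl.2 (Or.inr (Or.inr (Or.inl ⟨ht, e'⟩))), hvt⟩
  · by_cases p1 : p = o
    · subst p1
      by_cases q1 : q = y
      · subst q1
        exact N1 k
      · exact N2 q1 k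
    by_cases q1 : q = o
    · subst q1
      by_cases p2 : p = y
      · subst p2
        exact (N1 k.s12).imp fun d hd => ⟨hd.1, hd.2.s12⟩
      · exact (N2 p2 k.s12).imp fun d hd => ⟨hd.1, hd.2.s12⟩
    by_cases p2 : p = y
    · subst p2
      exact N3 q1 k
    by_cases q2 : q = y
    · subst q2
      exact (N3 p1 k.s12).imp fun d hd => ⟨hd.1, hd.2.s12⟩
    by_cases r2 : r = y
    · subst r2
      exact N4 p1 q1 (spl_inv1 hy c k.rot' p1 q1).1.rot (Or.inr ⟨rfl, rfl⟩)
    · exact N4 p1 q1 (spl_inv0 k p2 q2 r2).1 (Or.inl ⟨rfl, r2⟩)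
  · have := sum_spl hy c fun _ => 1
    simp only [sum_const, smul_eq_mul, mul_one] at this
    have h1 := card_sdiff_add_card_eq_card c.sub
    have h2 := h.card
    rw [card_insert_of_notMem hV]
    omega

lemma deg_spl_new (h : Pre V F) (c : Cut F A o a b) (hV : y ∉ V) :
    deg (spl F A o y a b) y = A.card + 2 := by
  have hy : ∀ s ∈ F, y ∉ s := fun s hs hy => hV (h.sub s hs hy)
  rw [deg, card_filter, sum_spl hy c, sum_congr rfl fun s hs => if_neg (hy s (mem_sdiff.1 hs).1)]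
  simp
  omega

lemma deg_spl (h : Pre V F) (c : Cut F A o a b) (hV : y ∉ V) {v : ι} (h1 : v ≠ o) (h2 : v ≠ y) :
    deg (spl F A o y a b) v = deg F v + if v = a ∨ v = b then 1 else 0 := by
  have hy : ∀ s ∈ F, y ∉ s := fun s hs hy => hV (h.sub s hs hy)
  have hab := c.ne
  rw [deg, card_filter, sum_spl hy c, deg, card_filter, ← sum_sdiff c.sub]
  simp only [mem_insert, mem_singleton, mem_erase, h1, h2, false_or, ne_eq, not_false_eq_true,
    true_and]
  by_cases e1 : v = a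
  · subst e1
    simp only [hab, if_true, if_false, true_or]
    ring
  by_cases e2 : v = b
  · subst e2
    simp only [e1, if_true, if_false, or_true]
    ring
  simp only [e1, e2, if_false, or_self]
  ring

lemma nb_spl (h : Pre V F) (c : Cut F A o a b) (hV : y ∉ V) {p q : ι} (h1 : p ≠ o) (h2 : q ≠ o)
    (k : Nb F p q) : Nb (spl F A o y a b) p q := by
  have hy : ∀ s ∈ F, y ∉ s := fun s hs hy => hV (h.sub s hs hy)
  obtain ⟨d, k⟩ := k
  by_cases e : ({p, q, d} : Finset ι) ∈ A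
  · have e1 : d = o := by
      have := c.mem _ e
      simp only [mem_insert, mem_singleton, h1.symm, h2.symm, false_or] at this
      exact this.symm
    subst e1
    exact (spl_move hy k.rot' (by rwa [tri12, tri23])).rot.nb
  · exact (spl_keep k e).nb

lemma nb_spl_new (h : Pre V F) (c : Cut F A o a b) (hV : y ∉ V) {t : Finset ι} (ht : t ∈ A)
    {p : ι} (hp : p ∈ t) (h1 : p ≠ o) : Nb (spl F A o y a b) y p := by
  have hy : ∀ s ∈ F, y ∉ s := fun s hs hy => hV (h.sub s hs hy)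
  obtain ⟨d, k, rfl⟩ := h.exists_T2 (c.sub ht) (c.mem t ht) hp h1.symm
  exact (spl_move hy k ht).nb

lemma filter_spl (h : Pre V F) (c : Cut F A o a b) (hV : y ∉ V) :
    ((spl F A o y a b).filter fun t => o ∈ t) =
      insert {o, y, a} (insert {o, y, b} ((F.filter fun t => o ∈ t) \ A)) := by
  have hy : ∀ s ∈ F, y ∉ s := fun s hs hy => hV (h.sub s hs hy)
  have ka := spl_mid hy c (Or.inl rfl)
  ext s
  simp only [mem_filter, mem_spl, mem_insert, mem_sdiff]
  constructor
  · rintro ⟨e | e | e | ⟨t, -, rfl⟩, hs⟩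
    · exact Or.inl e
    · exact Or.inr (Or.inl e)
    · exact Or.inr (Or.inr ⟨⟨e.1, hs⟩, e.2⟩)
    · simp [ka.1] at hs
  · rintro (rfl | rfl | e)
    · exact ⟨Or.inl rfl, by simp⟩
    · exact ⟨Or.inr (Or.inl rfl), by simp⟩
    · exact ⟨Or.inr (Or.inr (Or.inl ⟨e.1.1, e.2⟩)), e.1.2⟩

lemma exists_form {u₁ u₂ : EuclideanSpace ℝ (Fin 3)} {f g : EuclideanSpace ℝ (Fin 3) →ₗ[ℝ] ℝ}
    (h1 : f u₁ = 1) (h2 : f u₂ = 1) (h3 : g u₁ = 1) (h4 : g u₂ < 1) :
    ∃ l : EuclideanSpace ℝ (Fin 3) →ₗ[ℝ] ℝ, l u₁ = 0 ∧ l u₂ = 0 ∧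
      ∀ z, l z = 0 → ∃ α β : ℝ, α • u₁ + β • u₂ = z := by
  have li : LinearIndependent ℝ ![u₁, u₂] := by
    rw [LinearIndependent.pair_iff]
    intro s t e
    have e1 := congrArg f e
    have e2 := congrArg g e
    simp only [map_add, map_smul, smul_eq_mul, map_zero, h1, h2, h3] at e1 e2
    have : t * (1 - g u₂) = 0 := by linarith
    have ht : t = 0 := (mul_eq_zero.1 this).resolve_right (by linarith)
    exact ⟨by rw [ht] at e1; linarith, ht⟩
  have d2 : Module.finrank ℝ (Submodule.span ℝ ({u₁, u₂} : Set (EuclideanSpace ℝ (Fin 3)))) = 2 := by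
    have := finrank_span_eq_card li
    rwa [Matrix.range_cons_cons_empty, Fintype.card_fin] at this
  obtain ⟨l, hl, hl'⟩ := Submodule.exists_dual_map_eq_bot_of_lt_top
    (p := Submodule.span ℝ ({u₁, u₂} : Set (EuclideanSpace ℝ (Fin 3))))
    (lt_top_iff_ne_top.2 fun e => by
      rw [e, finrank_top] at d2
      simp at d2) inferInstance
  have le : Submodule.span ℝ ({u₁, u₂} : Set (EuclideanSpace ℝ (Fin 3))) ≤ LinearMap.ker l := by
    intro z hz
    have := Submodule.mem_map_of_mem (f := l) hz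
    rwa [hl', Submodule.mem_bot] at this
  have d3 := Module.Dual.finrank_ker_add_one_of_ne_zero hl
  have e := Submodule.eq_of_le_of_finrank_le le (by
    rw [d2]
    simp only [finrank_euclideanSpace, Fintype.card_fin] at d3
    omega)
  refine ⟨l, le (Submodule.subset_span (by simp)), le (Submodule.subset_span (by simp)),
    fun z hz => Submodule.mem_span_pair.1 (e ▸ hz)⟩

lemma ev_lt {f : ℝ → ℝ} {k : ℝ} (hf : ContinuousAt f 0) (h : f 0 < k) :
    ∀ᶠ ε in nhdsWithin (0 : ℝ) (Set.Ioi 0), f ε < k :=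
  (hf.eventually_lt continuousAt_const h).filter_mono nhdsWithin_le_nhds

lemma Geo.spl (h : Pre V F) (g : Geo V F) (c : Cut F A o a b) (hV : y ∉ V) :
    Geo (insert y V) (spl F A o y a b) := by
  obtain ⟨φ, x, g⟩ := g
  have hy : ∀ s ∈ F, y ∉ s := fun s hs hy => hV (h.sub s hs hy)
  have ho := h.nb_mem c.na
  have ha := h.nb_mem c.na.symm
  have hb := h.nb_mem c.nb.symm
  have le : ∀ s ∈ F, ∀ v ∈ V, φ v (x s) ≤ 1 := fun s hs v hv => by
    by_cases k : v ∈ s
    · exact ((g s hs v hv).1 k).le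
    · exact ((g s hs v hv).2 k).le
  have mid : ∀ q, q = a ∨ q = b → ∃ t ∈ A, ∃ t' ∈ F, t' ∉ A ∧ o ∈ t' ∧
      φ o ((1 / 2 : ℝ) • (x t + x t')) = 1 ∧ φ q ((1 / 2 : ℝ) • (x t + x t')) = 1 ∧
      ∀ v ∈ V, v ≠ o → v ≠ q → φ v ((1 / 2 : ℝ) • (x t + x t')) < 1 := by
    intro q hq
    obtain ⟨s, s', k1, k2, k3, k4⟩ := c.both h hq
    have hq' := h.mem k1.rot
    refine ⟨_, k3, _, k2.2.2.2, k4, by simp, ?_, ?_, fun v hv h1 h2 => ?_⟩ <;>
      rw [map_smul, map_add, smul_eq_mul]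
    · rw [(g _ k1.2.2.2 o ho).1 (by simp), (g _ k2.2.2.2 o ho).1 (by simp)]
      norm_num
    · rw [(g _ k1.2.2.2 q hq').1 (by simp), (g _ k2.2.2.2 q hq').1 (by simp)]
      norm_num
    · have l1 := le _ k1.2.2.2 v hv
      have l2 := le _ k2.2.2.2 v hv
      by_cases e : v = s
      · have : v ≠ s' := fun e' => k4 (e' ▸ e ▸ k3)
        linarith [(g _ k2.2.2.2 v hv).2 (by simp [h1, h2, this])]
      · linarith [(g _ k1.2.2.2 v hv).2 (by simp [h1, h2, e])]
  obtain ⟨ta, hta, ta', hta', nta', ota', a1, a2, a3⟩ := mid a (Or.inl rfl)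
  obtain ⟨tb, -, tb', -, -, -, b1, b2, b3⟩ := mid b (Or.inr rfl)
  obtain ⟨u₁, hu₁⟩ : ∃ u, u = (1 / 2 : ℝ) • (x ta + x ta') := ⟨_, rfl⟩
  obtain ⟨u₂, hu₂⟩ : ∃ u, u = (1 / 2 : ℝ) • (x tb + x tb') := ⟨_, rfl⟩
  rw [← hu₁] at a1 a2 a3
  rw [← hu₂] at b1 b2 b3
  have a4 := b3 a ha c.na.ne.symm c.ne
  have b4 := a3 b hb c.nb.ne.symm c.ne.symm
  have key : ∀ l : EuclideanSpace ℝ (Fin 3) →ₗ[ℝ] ℝ, (∀ z, l z = 0 → ∃ α β : ℝ, α • u₁ + β • u₂ = z) →
      ∀ z, φ o z = 1 → φ a z ≤ 1 → φ b z ≤ 1 → l z = 0 →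
        (∀ v ∈ V, v ≠ o → v ≠ a → v ≠ b → φ v z < 1) ∧ (φ a z < 1 ∨ φ b z < 1) := by
    intro l hl z z1 z2 z3 z4
    obtain ⟨α, β, rfl⟩ := hl z z4
    simp only [map_add, map_smul, smul_eq_mul, a1, a2, b1, b2, mul_one] at z1 z2 z3 ⊢
    have hβ : 0 ≤ β := by
      by_contra hh
      nlinarith [mul_pos (sub_pos.2 a4) (neg_pos.2 (not_le.1 hh))]
    have hα : 0 ≤ α := by
      by_contra hh
      nlinarith [mul_pos (sub_pos.2 b4) (neg_pos.2 (not_le.1 hh))]
    refine ⟨fun v hv h1 h2 h3 => ?_, ?_⟩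
    · have e1 := a3 v hv h1 h2
      have e2 := b3 v hv h1 h3
      rcases hα.eq_or_lt with e | e
      · rw [← e] at z1 ⊢
        rw [show β = 1 by linarith]
        linarith
      · nlinarith [mul_pos (sub_pos.2 e1) e, mul_nonneg (sub_pos.2 e2).le hβ]
    · rcases hβ.eq_or_lt with e | e
      · right
        rw [← e] at z1 ⊢
        rw [show α = 1 by linarith]
        linarith
      · left
        nlinarith [mul_pos (sub_pos.2 a4) e]
  have nz : ∀ l : EuclideanSpace ℝ (Fin 3) →ₗ[ℝ] ℝ, (∀ z, l z = 0 → ∃ α β : ℝ, α • u₁ + β • u₂ = z) →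
      ∀ t ∈ F, o ∈ t → l (x t) ≠ 0 := by
    intro l hl t ht hot e
    obtain ⟨k1, k2⟩ := key l hl (x t) ((g t ht o ho).1 hot) (le t ht a ha) (le t ht b hb) e
    obtain ⟨r, s, k, rfl⟩ := h.exists_T ht hot
    have hr := h.mem k.rot
    have hs := h.mem k.rot'
    have r1 := (g _ ht r hr).1 (by simp)
    have s1 := (g _ ht s hs).1 (by simp)
    have r2 : r = a ∨ r = b := by
      by_contra hh
      rw [not_or] at hh
      exact (k1 r hr k.1.symm hh.1 hh.2).ne r1
    have s2 : s = a ∨ s = b := by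
      by_contra hh
      rw [not_or] at hh
      exact (k1 s hs k.2.1.symm hh.1 hh.2).ne s1
    have hrs := k.2.2.1
    rcases r2 with rfl | rfl <;> rcases s2 with rfl | rfl
    · exact hrs rfl
    · rcases k2 with k2 | k2 <;> linarith
    · rcases k2 with k2 | k2 <;> linarith
    · exact hrs rfl
  have step : ∀ l : EuclideanSpace ℝ (Fin 3) →ₗ[ℝ] ℝ,
      (∀ z, l z = 0 → ∃ α β : ℝ, α • u₁ + β • u₂ = z) → ∀ r s s', r ≠ a → r ≠ b → T F o r s →
      T F o r s' → 0 < l (x {o, r, s}) → 0 < l (x {o, r, s'}) := by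
    intro l hl r s s' h1 h2 k k' hp
    by_contra hn
    have hn' : l (x {o, r, s'}) < 0 := lt_of_le_of_ne (not_lt.1 hn) (nz l hl _ k'.2.2.2 (by simp))
    have hr := h.mem k.rot
    obtain ⟨P, hP⟩ : ∃ P, P = l (x {o, r, s}) := ⟨_, rfl⟩
    obtain ⟨Q, hQ⟩ : ∃ Q, Q = l (x {o, r, s'}) := ⟨_, rfl⟩
    rw [← hP] at hp
    rw [← hQ] at hn'
    have hD : 0 < P - Q := by linarith
    have cv : ∀ v ∈ V, φ v ((P - Q)⁻¹ • ((-Q) • x {o, r, s} + P • x {o, r, s'})) ≤ 1 := by
      intro v hv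
      simp only [map_add, map_smul, smul_eq_mul]
      rw [inv_mul_le_one₀ hD]
      nlinarith [mul_nonneg (sub_nonneg.2 (le _ k.2.2.2 v hv)) (neg_pos.2 hn').le,
        mul_nonneg (sub_nonneg.2 (le _ k'.2.2.2 v hv)) hp.le]
    have ce : ∀ v ∈ V, v = o ∨ v = r →
        φ v ((P - Q)⁻¹ • ((-Q) • x {o, r, s} + P • x {o, r, s'})) = 1 := by
      intro v hv e
      simp only [map_add, map_smul, smul_eq_mul]
      rw [(g _ k.2.2.2 v hv).1 (by rcases e with rfl | rfl <;> simp),
        (g _ k'.2.2.2 v hv).1 (by rcases e with rfl | rfl <;> simp), inv_mul_eq_one₀ hD.ne']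
      ring
    refine ((key l hl _ (ce o ho (Or.inl rfl)) (cv a ha) (cv b hb) ?_).1 r hr k.1.symm h1 h2).ne
      (ce r hr (Or.inr rfl))
    simp only [map_add, map_smul, smul_eq_mul, ← hP, ← hQ]
    ring
  obtain ⟨l, l1, l2, l3, l4⟩ : ∃ l : EuclideanSpace ℝ (Fin 3) →ₗ[ℝ] ℝ, l u₁ = 0 ∧ l u₂ = 0 ∧
      (∀ z, l z = 0 → ∃ α β : ℝ, α • u₁ + β • u₂ = z) ∧ 0 < l (x ta) := by
    obtain ⟨l, l1, l2, l3⟩ := exists_form a1 b1 a2 a4
    rcases lt_or_gt_of_ne (nz l l3 ta (c.sub hta) (c.mem ta hta)) with e | e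
    · exact ⟨-l, by simp [l1], by simp [l2], fun z hz => l3 z (by simpa using hz), by simpa using e⟩
    · exact ⟨l, l1, l2, l3, e⟩
  have pos : ∀ t ∈ A, 0 < l (x t) := fun t ht =>
    c.conn (fun t => 0 < l (x t)) (step l l3) ta (c.sub hta) t (c.sub ht) (c.mem ta hta)
      (c.mem t ht) (iff_of_true hta ht) l4
  have neg : ∀ t ∈ F, t ∉ A → o ∈ t → l (x t) < 0 := fun t ht ht' hot => by
    have e : 0 < (-l) (x ta') := by
      rw [hu₁, map_smul, map_add, smul_eq_mul] at l1
      simp only [LinearMap.neg_apply]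
      linarith
    simpa using c.conn (fun t => 0 < (-l) (x t)) (step (-l) fun z hz => l3 z (by simpa using hz))
      ta' hta' t ht ota' hot (iff_of_false nta' ht') e
  have dir : ∀ t : Finset ι, ∃ u, t ∈ A → φ o u = 1 ∧ ∀ v ∈ t, v ≠ o → φ v u = 0 := by
    intro t
    by_cases ht : t ∈ A
    swap
    · exact ⟨0, fun hh => absurd hh ht⟩
    obtain ⟨p, q, k, rfl⟩ := h.exists_T (c.sub ht) (c.mem t ht)
    obtain ⟨d, hd, k'⟩ := h.next k.rot
    have h1 := (g _ k'.2.2.2 o ho).2 (by simp [k.1, k.2.1, hd.symm])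
    refine ⟨(1 - φ o (x {p, q, d}))⁻¹ • (x {o, p, q} - x {p, q, d}), fun _ => ⟨?_, fun v hv hvo => ?_⟩⟩ <;>
      rw [map_smul, map_sub]
    · rw [(g _ k.2.2.2 o ho).1 (by simp)]
      exact inv_mul_cancel₀ (by linarith)
    · have hv' := h.sub _ k.2.2.2 hv
      rw [(g _ k.2.2.2 v hv').1 hv, (g _ k'.2.2.2 v hv').1 (by
        simp only [mem_insert, mem_singleton, hvo, false_or] at hv ⊢
        tauto)]
      simp
  choose w hw using dir
  have E1 : ∀ᶠ ε in nhdsWithin (0 : ℝ) (Set.Ioi 0), ∀ t ∈ F.filter fun t => o ∉ t,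
      φ o (x t) + ε * l (x t) < 1 := by
    rw [Finset.eventually_all]
    intro t ht
    refine ev_lt (by fun_prop) ?_
    simpa using (g t (mem_filter.1 ht).1 o ho).2 (mem_filter.1 ht).2
  have E2 : ∀ᶠ ε in nhdsWithin (0 : ℝ) (Set.Ioi 0), ∀ t ∈ A, -(ε * l (w t)) < 1 := by
    rw [Finset.eventually_all]
    exact fun t _ => ev_lt (by fun_prop) (by simp)
  have E3 : ∀ᶠ ε in nhdsWithin (0 : ℝ) (Set.Ioi 0), ∀ t ∈ A, ∀ v ∈ V \ t,
      φ v (x t) - ε * l (x t) / (1 + ε * l (w t)) * φ v (w t) < 1 := by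
    rw [Finset.eventually_all]
    intro t ht
    rw [Finset.eventually_all]
    intro v hv
    refine ev_lt (by fun_prop (disch := simp)) ?_
    simpa using (g t (c.sub ht) v (mem_sdiff.1 hv).1).2 (mem_sdiff.1 hv).2
  obtain ⟨ε, ⟨⟨e1, e2⟩, e3⟩, e4⟩ := (((E1.and E2).and E3).and self_mem_nhdsWithin).exists
  have e5 : 0 < ε := e4
  obtain ⟨ψ, hψ⟩ : ∃ ψ, ψ = Function.update φ y (φ o + ε • l) := ⟨_, rfl⟩
  have ψy : ∀ z, ψ y z = φ o z + ε * l z := by simp [hψ]
  have ψv : ∀ v ∈ V, ψ v = φ v := fun v hv => by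
    rw [hψ, Function.update_of_ne fun e : v = y => hV (e ▸ hv)]
  have ka := spl_mid hy c (Or.inl rfl)
  have kb := spl_mid hy c (Or.inr rfl)
  have cen : ∀ q u, φ o u = 1 → φ q u = 1 → (∀ v ∈ V, v ≠ o → v ≠ q → φ v u < 1) → l u = 0 →
      ∀ v ∈ insert y V, (v ∈ ({o, y, q} : Finset ι) → ψ v u = 1) ∧
        (v ∉ ({o, y, q} : Finset ι) → ψ v u < 1) := by
    intro q u h1 h2 h3 h4 v hv
    rcases mem_insert.1 hv with rfl | hv
    · exact ⟨fun _ => by rw [ψy, h1, h4]; ring, fun hh => absurd (by simp) hh⟩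
    · have hvy : v ≠ y := fun e => hV (e ▸ hv)
      rw [ψv v hv]
      simp only [mem_insert, mem_singleton, hvy, false_or, not_or]
      refine ⟨?_, fun hh => h3 v hv hh.1 hh.2⟩
      rintro (rfl | rfl)
      · exact h1
      · exact h2
  refine ⟨ψ, fun s => if y ∈ s then if o ∈ s then if a ∈ s then u₁ else u₂ else
    x (insert o (s.erase y)) - (ε * l (x (insert o (s.erase y))) /
      (1 + ε * l (w (insert o (s.erase y))))) • w (insert o (s.erase y)) else x s, fun s hs => ?_⟩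
  replace hs := mem_spl.1 hs
  rcases hs with rfl | rfl | ⟨hs, hsA⟩ | ⟨t, ht, rfl⟩
  · beta_reduce
    rw [if_pos (by simp), if_pos (by simp), if_pos (by simp)]
    exact cen a u₁ a1 a2 a3 l1
  · beta_reduce
    rw [if_pos (by simp), if_pos (by simp), if_neg (by simp [ka.2.1.symm, ka.2.2.1.symm, c.ne])]
    exact cen b u₂ b1 b2 b3 l2
  · intro v hv
    beta_reduce
    rw [if_neg (hy s hs)]
    rcases mem_insert.1 hv with rfl | hv
    · refine ⟨fun hh => absurd hh (hy s hs), fun _ => ?_⟩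
      rw [ψy]
      by_cases k : o ∈ s
      · rw [(g s hs o ho).1 k]
        linarith [mul_pos e5 (neg_pos.2 (neg s hs hsA k))]
      · exact e1 s (mem_filter.2 ⟨hs, k⟩)
    · rw [ψv v hv]
      exact g s hs v hv
  · intro v hv
    have k1 : y ∉ t.erase o := fun hh => hy t (c.sub ht) (mem_of_mem_erase hh)
    have k2 : 0 < 1 + ε * l (w t) := by linarith [e2 t ht]
    beta_reduce
    rw [if_pos (by simp), if_neg (by simp [ka.1]), erase_insert k1, insert_erase (c.mem t ht),
      map_sub, map_smul, smul_eq_mul]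
    rcases mem_insert.1 hv with rfl | hv
    · refine ⟨fun _ => ?_, fun hh => absurd (by simp) hh⟩
      rw [ψy, ψy, (hw t ht).1, (g t (c.sub ht) o ho).1 (c.mem t ht), div_mul_cancel₀ _ k2.ne']
      ring
    · have hvy : v ≠ y := fun e => hV (e ▸ hv)
      rw [ψv v hv]
      simp only [mem_insert, mem_erase, hvy, false_or]
      refine ⟨fun hh => ?_, fun hh => ?_⟩
      · rw [(hw t ht).2 v hh.2 hh.1, (g t (c.sub ht) v hv).1 hh.2]
        ring
      · by_cases e : v = o
        · subst e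
          rw [(hw t ht).1, (g t (c.sub ht) v hv).1 (c.mem t ht)]
          linarith [div_pos (mul_pos e5 (pos t ht)) k2]
        · exact e3 t ht v (mem_sdiff.2 ⟨hv, fun k => hh ⟨e, k⟩⟩)

end Pool.Agent.P.MP_e40812_co
end

-- part Pool.Agent.P.MP_e40812_co.LoState
section

/-!
Building realised triangle systems by repeatedly splitting one vertex.  Vertices carry labels
`(degree, tag)`.
-/

namespace Pool.Agent.P.MP_e40812_co

open Finset

/-- The triangles formed by `o` and two consecutive entries of a list. -/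
def tris (o : ℕ) : List ℕ → Finset (Finset ℕ)
  | a :: b :: l => insert {o, a, b} (tris o (b :: l))
  | _ => ∅

theorem tris_realize : True := by
  have := @tris.eq_def
  trivial

/-- A realised triangle system with labels `μ`; for each tag in `E` two neighbours carry it. -/
def Good (μ : Multiset (ℕ × ℕ)) (E : Set ℕ) : Prop :=
  ∃ (V : Finset ℕ) (F : Finset (Finset ℕ)) (τ : ℕ → ℕ), Pre V F ∧ Geo V F ∧
    V.val.map (fun v => (deg F v, τ v)) = μ ∧ ∀ i ∈ E, ∃ u w, τ u = i ∧ τ w = i ∧ Nb F u w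

/-- A realised triangle system with a vertex `o` whose link is the cycle `a :: c` with labels `L`;
the vertices outside the star of `o` have labels `M`. -/
def St (L : List (ℕ × ℕ)) (M : Multiset (ℕ × ℕ)) (E : Set ℕ) : Prop :=
  ∃ (V W : Finset ℕ) (F : Finset (Finset ℕ)) (τ : ℕ → ℕ) (o a : ℕ) (c : List ℕ),
    Pre V F ∧ Geo V F ∧ V.val = (o :: a :: c : List ℕ) + W.val ∧ 2 ≤ c.length ∧
    (F.filter fun t => o ∈ t) = tris o (a :: (c ++ [a])) ∧
    (a :: c).map (fun v => (deg F v, τ v)) = L ∧ W.val.map (fun v => (deg F v, τ v)) = M ∧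
    ∀ i ∈ E, ∃ u w, u ≠ o ∧ w ≠ o ∧ τ u = i ∧ τ w = i ∧ Nb F u w

/-- One more neighbour. -/
def inc (p : ℕ × ℕ) : ℕ × ℕ := (p.1 + 1, p.2)

section
variable {o a b x z : ℕ} {l m r : List ℕ} {s s' : Finset ℕ}

lemma ls_cons (o a b : ℕ) (l : List ℕ) :
    tris o (a :: b :: l) = insert {o, a, b} (tris o (b :: l)) := by rw [tris]

lemma ls_one (o a : ℕ) : tris o [a] = ∅ := by simp [tris]

lemma ls_nil (o : ℕ) : tris o [] = ∅ := by simp [tris]

lemma ls_split (o b : ℕ) (l₁ l₂ : List ℕ) :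
    tris o (l₁ ++ b :: l₂) = tris o (l₁ ++ [b]) ∪ tris o (b :: l₂) := by
  induction l₁ with
  | nil => simp [ls_one]
  | cons x l ih =>
    cases l with
    | nil => simp [ls_cons, ls_one]
    | cons y l =>
      simp only [List.cons_append] at ih ⊢
      rw [ls_cons, ls_cons, ih, insert_union]

lemma ls_mem (h : s ∈ tris o l) : o ∈ s ∧ ∀ v ∈ s, v = o ∨ v ∈ l := by
  induction l with
  | nil => simp [ls_nil] at h
  | cons x l ih =>
    cases l with
    | nil => simp [ls_one] at h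
    | cons y l =>
      rw [ls_cons] at h
      rcases mem_insert.1 h with rfl | h
      · refine ⟨by simp, fun v hv => ?_⟩
        simp only [mem_insert, mem_singleton] at hv
        simp only [List.mem_cons]
        tauto
      · exact ⟨(ih h).1, fun v hv => ((ih h).2 v hv).imp_right (List.mem_cons_of_mem _)⟩

lemma ls_has (h : s ∈ tris o (l ++ [z])) : ∃ v ∈ l, v ∈ s := by
  induction l with
  | nil => simp [ls_one] at h
  | cons x l ih =>
    cases l with
    | nil =>
      simp only [List.cons_append, List.nil_append, ls_cons, ls_one, insert_empty_eq,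
        mem_singleton] at h
      exact ⟨x, by simp, by simp [h]⟩
    | cons y l =>
      simp only [List.cons_append] at ih h
      rw [ls_cons] at h
      rcases mem_insert.1 h with rfl | h
      · exact ⟨x, by simp, by simp⟩
      · obtain ⟨v, h1, h2⟩ := ih h
        exact ⟨v, List.mem_cons_of_mem _ h1, h2⟩

lemma ls_head (o x z : ℕ) (l : List ℕ) : ∃ w, ({o, x, w} : Finset ℕ) ∈ tris o (x :: (l ++ [z])) := by
  cases l with
  | nil => exact ⟨z, by simp [ls_cons]⟩
  | cons y l => exact ⟨y, by simp [ls_cons]⟩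

lemma ls_cover {v : ℕ} (hv : v ∈ x :: (l ++ [z])) : ∃ s ∈ tris o (x :: (l ++ [z])), v ∈ s := by
  induction l generalizing x with
  | nil =>
    refine ⟨{o, x, z}, by simp [ls_cons], ?_⟩
    simp only [List.nil_append, List.mem_cons, List.not_mem_nil, or_false] at hv
    simp only [mem_insert, mem_singleton]
    tauto
  | cons y l ih =>
    rw [List.cons_append, ls_cons]
    rcases List.mem_cons.1 hv with rfl | hv
    · exact ⟨{o, v, y}, by simp, by simp⟩
    · obtain ⟨s, h1, h2⟩ := ih hv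
      exact ⟨s, mem_insert_of_mem h1, h2⟩

lemma ls_first (h1 : x ≠ o) (h2 : x ∉ l) (hs : s ∈ tris o (x :: l)) (hs' : s' ∈ tris o (x :: l))
    (k : x ∈ s) (k' : x ∈ s') : s = s' := by
  cases l with
  | nil => simp [ls_one] at hs
  | cons y l =>
    rw [ls_cons] at hs hs'
    have key : ∀ u ∈ insert ({o, x, y} : Finset ℕ) (tris o (y :: l)), x ∈ u → u = {o, x, y} :=
      fun u hu hx => (mem_insert.1 hu).resolve_right fun h =>
        ((ls_mem h).2 x hx).elim h1 h2
    rw [key s hs k, key s' hs' k']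

lemma ls_last (h1 : z ≠ o) (h2 : z ∉ l) (hs : s ∈ tris o (l ++ [z]))
    (hs' : s' ∈ tris o (l ++ [z])) (k : z ∈ s) (k' : z ∈ s') : s = s' := by
  rcases List.eq_nil_or_concat l with rfl | ⟨l, y, rfl⟩
  · simp [ls_one] at hs
  · rw [List.concat_eq_append] at h2 hs hs'
    rw [List.append_assoc, List.singleton_append, ls_split, ls_cons, ls_one, insert_empty_eq]
      at hs hs'
    have key : ∀ u ∈ tris o (l ++ [y]) ∪ {{o, y, z}}, z ∈ u → u = {o, y, z} :=
      fun u hu hx => mem_singleton.1 ((mem_union.1 hu).resolve_left fun h =>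
        ((ls_mem h).2 z hx).elim h1 h2)
    rw [key s hs k, key s' hs' k']

lemma ls_card (h : (o :: x :: l).Nodup) : (tris o (x :: l)).card = l.length := by
  induction l generalizing x with
  | nil => simp [ls_one]
  | cons y l ih =>
    have h1 : (o :: y :: l).Nodup := h.sublist (by simp)
    rw [ls_cons, card_insert_of_notMem, ih h1, List.length_cons]
    intro k
    simp only [List.nodup_cons, List.mem_cons, not_or] at h
    have := (ls_mem k).2 x (by simp)
    simp only [List.mem_cons] at this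
    tauto

lemma ls_disj' (h : (o :: a :: (m ++ b :: r)).Nodup) (hm : m ≠ []) :
    Disjoint (tris o (a :: (m ++ [b]))) (tris o (b :: (r ++ [a]))) := by
  rw [disjoint_left]
  intro s h1 h2
  obtain ⟨v, hv, hs⟩ : ∃ v ∈ m, v ∈ s := by
    obtain ⟨y, m, rfl⟩ := List.exists_cons_of_ne_nil hm
    rw [List.cons_append, ls_cons] at h1
    rcases mem_insert.1 h1 with rfl | h1
    · exact ⟨y, by simp, by simp⟩
    · exact ls_has (l := y :: m) h1
  have := (ls_mem h2).2 v hs
  simp only [List.nodup_cons, List.mem_cons, List.mem_append, not_or, List.nodup_append] at h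
  simp only [List.mem_cons, List.mem_append, List.not_mem_nil, or_false] at this
  rcases this with rfl | rfl | k | rfl
  · exact h.1.2.1 hv
  · exact h.2.2.2.2 v hv v (Or.inl rfl) rfl
  · exact h.2.2.2.2 v hv v (Or.inr k) rfl
  · exact h.2.1.1 hv

lemma ls_swap (h : (o :: a :: (m ++ b :: r)).Nodup) : (o :: b :: (r ++ a :: m)).Nodup := by
  refine (List.Perm.nodup_iff (List.Perm.cons o ?_)).1 h
  exact List.perm_append_comm (l₁ := a :: m) (l₂ := b :: r)

lemma ls_disj (h : (o :: a :: (m ++ b :: r)).Nodup) (hc : 2 ≤ (m ++ b :: r).length) :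
    Disjoint (tris o (a :: (m ++ [b]))) (tris o (b :: (r ++ [a]))) := by
  by_cases hm : m = []
  · refine (ls_disj' (ls_swap h) ?_).symm
    rintro rfl
    simp [hm] at hc
  · exact ls_disj' h hm

lemma ls_T {V : Finset ℕ} {F : Finset (Finset ℕ)} (h : Pre V F)
    (k : ({a, b, x} : Finset ℕ) ∈ F) : T F a b x := by
  have := card_triple_eq_three_iff.1 (h.three _ k)
  exact ⟨this.1, this.2.1, this.2.2, k⟩

lemma ls_conn {V : Finset ℕ} {F : Finset (Finset ℕ)} (h : Pre V F) (S : Finset ℕ → Prop)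
    (hF : tris o (x :: (l ++ [z])) ⊆ F)
    (hS : ∀ r ∈ l, ∀ u u', T F o r u → T F o r u' → S {o, r, u} → S {o, r, u'}) :
    ∀ s ∈ tris o (x :: (l ++ [z])), ∀ s' ∈ tris o (x :: (l ++ [z])), S s → S s' := by
  induction l generalizing x with
  | nil =>
    intro s hs s' hs'
    simp only [List.nil_append, ls_cons, ls_one, insert_empty_eq, mem_singleton] at hs hs'
    rw [hs, hs']
    exact id
  | cons y l ih =>
    rw [List.cons_append, ls_cons] at hF ⊢
    have ih' := ih ((subset_insert _ _).trans hF) fun r hr => hS r (List.mem_cons_of_mem _ hr)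
    obtain ⟨w, hw⟩ := ls_head o y z l
    have t1 : T F o y x := (ls_T h (hF (mem_insert_self _ _))).s23
    have t2 : T F o y w := ls_T h (hF (mem_insert_of_mem hw))
    have e1 := hS y (by simp) _ _ t1 t2
    have e2 := hS y (by simp) _ _ t2 t1
    rw [tri23 o y x] at e1 e2
    intro s hs s' hs' k
    rcases mem_insert.1 hs with rfl | hs <;> rcases mem_insert.1 hs' with rfl | hs'
    · exact k
    · exact ih' _ hw _ hs' (e1 k)
    · exact e2 (ih' _ hs _ hw k)
    · exact ih' _ hs _ hs' k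

lemma ls_link (o a b : ℕ) (m r : List ℕ) : tris o (a :: ((m ++ b :: r) ++ [a])) =
    tris o (a :: (m ++ [b])) ∪ tris o (b :: (r ++ [a])) := by
  rw [List.append_assoc, List.cons_append, ← List.cons_append, ls_split, List.cons_append]

lemma ls_cut {V : Finset ℕ} {F : Finset (Finset ℕ)} (h : Pre V F)
    (hn : (o :: a :: (m ++ b :: r)).Nodup) (hc : 2 ≤ (m ++ b :: r).length)
    (hf : (F.filter fun t => o ∈ t) = tris o (a :: (m ++ [b])) ∪ tris o (b :: (r ++ [a]))) :
    Cut F (tris o (a :: (m ++ [b]))) o a b := by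
  have hd := disjoint_left.1 (ls_disj hn hc)
  have hA : tris o (a :: (m ++ [b])) ⊆ F :=
    (subset_union_left.trans hf.ge).trans (filter_subset _ _)
  have hB : tris o (b :: (r ++ [a])) ⊆ F :=
    (subset_union_right.trans hf.ge).trans (filter_subset _ _)
  have hAB : ∀ t ∈ F, o ∈ t → t ∈ tris o (a :: (m ++ [b])) ∨ t ∈ tris o (b :: (r ++ [a])) :=
    fun t h1 h2 => mem_union.1 (hf ▸ mem_filter.2 ⟨h1, h2⟩)
  simp only [List.nodup_cons, List.mem_cons, List.mem_append, not_or, List.nodup_append] at hn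
  obtain ⟨⟨oa, om, ob, or⟩, ⟨am, ab, ar⟩, -, ⟨br, -⟩, mr⟩ := hn
  have bm : b ∉ m := fun k => mr b k b (Or.inl rfl) rfl
  have nb : ∀ v ∈ a :: (m ++ [b]), v ≠ o → Nb F o v := fun v hv hne => by
    obtain ⟨s, h1, h2⟩ := ls_cover (o := o) hv
    obtain ⟨w, hw, -⟩ := h.exists_T2 (hA h1) (ls_mem h1).1 h2 hne.symm
    exact hw.nb
  refine ⟨hA, fun t ht => (ls_mem ht).1, ab, nb a (by simp) (Ne.symm oa),
    nb b (by simp) (Ne.symm ob), ?_, ?_, ?_⟩
  · intro v u u' h1 h2 t1 t2 k
    refine (hAB _ t2.2.2.2 (by simp)).resolve_right fun k' => ?_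
    have e1 := (ls_mem k).2 v (by simp)
    have e2 := (ls_mem k').2 v (by simp)
    simp only [List.mem_cons, List.mem_append, List.not_mem_nil, or_false, h1, h2, t1.1.symm,
      false_or] at e1 e2
    exact mr v e1 v (Or.inr e2) rfl
  · intro v u u' hv t1 t2 hne
    have hne' : ({o, v, u} : Finset ℕ) ≠ {o, v, u'} := fun e => by
      have : u ∈ ({o, v, u'} : Finset ℕ) := e ▸ (by simp)
      simp [t1.2.1.symm, t1.2.2.1.symm, hne] at this
    have uA : {o, v, u} ∈ tris o (a :: (m ++ [b])) → {o, v, u'} ∉ tris o (a :: (m ++ [b])) := by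
      intro k k'
      rcases hv with rfl | rfl
      · exact hne' (ls_first (Ne.symm oa) (by simp [am, ab]) k k' (by simp) (by simp))
      · exact hne' (ls_last (l := a :: m) (Ne.symm ob) (by simp [bm, Ne.symm ab]) k k' (by simp)
          (by simp))
    have uB : {o, v, u} ∈ tris o (b :: (r ++ [a])) → {o, v, u'} ∉ tris o (b :: (r ++ [a])) := by
      intro k k'
      rcases hv with rfl | rfl
      · exact hne' (ls_last (l := b :: r) (Ne.symm oa) (by simp [ar, ab]) k k' (by simp)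
          (by simp))
      · exact hne' (ls_first (Ne.symm ob) (by simp [br, Ne.symm ab]) k k' (by simp) (by simp))
    refine ⟨uA, fun k => (hAB _ t1.2.2.2 (by simp)).resolve_right fun k' => ?_⟩
    exact uB k' ((hAB _ t2.2.2.2 (by simp)).resolve_left k)
  · intro S hS t ht t' ht' k k' hiff
    by_cases hA' : t ∈ tris o (a :: (m ++ [b]))
    · exact ls_conn h S hA (fun v hv u u' => hS v u u' (fun e => am (e ▸ hv))
        fun e => bm (e ▸ hv)) t hA' t' (hiff.1 hA')
    · exact ls_conn h S hB (fun v hv u u' => hS v u u' (fun e => ar (e ▸ hv))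
        fun e => br (e ▸ hv)) t ((hAB t ht k).resolve_left hA') t'
        ((hAB t' ht' k').resolve_left fun e => hA' (hiff.2 e))

lemma ls_nodup {V W : Finset ℕ} (h : V.val = (l : Multiset ℕ) + W.val) :
    l.Nodup ∧ ∀ v ∈ l, v ∉ W := by
  have := V.nodup
  rw [h, Multiset.nodup_add] at this
  exact ⟨Multiset.coe_nodup.1 this.1, fun v hv k =>
    Multiset.disjoint_left.1 this.2.2 (Multiset.mem_coe.2 hv) k⟩

end

variable {L L' mid R : List (ℕ × ℕ)} {M : Multiset (ℕ × ℕ)} {E E' : Set ℕ} {p q : ℕ × ℕ}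

lemma St.init : St [(3, 1), (3, 1), (3, 0)] 0 {1} := by
  refine ⟨{0, 1, 2, 3}, ∅, {{0, 1, 2}, {0, 1, 3}, {0, 2, 3}, {1, 2, 3}},
    fun v => if v < 2 then 1 else 0, 3, 0, [1, 2], pre_tet, geo_tet, by decide, by decide, ?_,
    by decide, rfl, ?_⟩
  · simp only [List.cons_append, List.nil_append, ls_cons, ls_one]
    decide
  · rintro i rfl
    exact ⟨0, 1, by decide, by decide, by decide, by decide, 2, by unfold T; decide⟩

lemma ls_rot (h : St (p :: L) M E) : St (L ++ [p]) M E := by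
  obtain ⟨V, W, F, τ, o, a, c, h1, h2, h3, h4, h5, h6, h7, h8⟩ := h
  obtain ⟨b, r, rfl⟩ := List.exists_cons_of_length_pos (show 0 < c.length by omega)
  refine ⟨V, W, F, τ, o, b, r ++ [a], h1, h2, ?_, by simpa using h4, ?_, ?_, h7, h8⟩
  · rw [h3]
    congr 1
    exact Multiset.coe_eq_coe.2
      (List.Perm.cons o (List.perm_append_comm (l₁ := [a]) (l₂ := b :: r)))
  · rw [h5, ls_link o b a r [], union_comm]
    exact ls_link o a b [] r
  · rw [List.map_cons, List.cons.injEq] at h6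
    rw [← List.cons_append, List.map_append, h6.2, List.map_singleton, h6.1]

lemma St.rot (h : St (L ++ L') M E) : St (L' ++ L) M E := by
  induction L generalizing L' with
  | nil => simpa using h
  | cons p L ih =>
    have h1 := ls_rot (p := p) (L := L ++ L') h
    rw [List.append_assoc] at h1
    simpa using ih h1

lemma St.op (t : ℕ) (h : St (p :: (mid ++ q :: R)) M E)
    (hE : ∀ i ∈ E', i ∈ E ∨ (i = t ∧ ∃ l ∈ p :: mid, l.2 = t)) :
    St (inc p :: (mid.length + 3, t) :: inc q :: R) (M + mid) E' := by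
  obtain ⟨V, W, F, τ, o, a, c, h1, h2, h3, h4, h5, h6, h7, h8⟩ := h
  rw [List.map_cons, List.cons.injEq, List.map_eq_append_iff] at h6
  obtain ⟨hp, m, c', rfl, hm, h6⟩ := h6
  obtain ⟨b, r, rfl, hq, hr⟩ := List.map_eq_cons_iff.1 h6
  obtain ⟨hn, hW⟩ := ls_nodup h3
  rw [ls_link] at h5
  have cu := ls_cut h1 hn h4 h5
  have hd := ls_disj hn h4
  obtain ⟨y, hy⟩ := Infinite.exists_notMem_finset V
  have hV : ∀ v, v ∈ V ↔ v ∈ o :: a :: (m ++ b :: r) ∨ v ∈ W := fun v => by
    rw [← mem_val, h3, Multiset.mem_add, Multiset.mem_coe, mem_val]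
  have hy' : ∀ v ∈ V, v ≠ y := fun v hv e => hy (e ▸ hv)
  have hτ : ∀ v ∈ V, Function.update τ y t v = τ v := fun v hv =>
    Function.update_of_ne (hy' v hv) _ _
  have hcard : (tris o (a :: (m ++ [b]))).card = mid.length + 1 := by
    rw [ls_card (hn.sublist (by simp)), ← hm]
    simp
  have hle : W.val + (m : Multiset ℕ) ≤ V.val := by
    rw [h3, add_comm]
    exact Multiset.add_le_add_right (Multiset.coe_le.2 (List.Sublist.subperm (by
      exact ((List.sublist_append_left _ _).cons _).cons _)))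
  have hn' := hn
  simp only [List.nodup_cons, List.mem_cons, List.mem_append, not_or, List.nodup_append] at hn'
  obtain ⟨⟨oa, om, ob, or⟩, ⟨am, ab, ar⟩, -, ⟨br, -⟩, mr⟩ := hn'
  have bm : b ∉ m := fun k => mr b k b (Or.inl rfl) rfl
  have aV : a ∈ V := (hV a).2 (by simp)
  have bV : b ∈ V := (hV b).2 (by simp)
  have oV : o ∈ V := (hV o).2 (by simp)
  have same : ∀ v ∈ V, v ≠ o → v ≠ a → v ≠ b →
      (deg (spl F (tris o (a :: (m ++ [b]))) o y a b) v, Function.update τ y t v) =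
        (deg F v, τ v) := fun v hv k1 k2 k3 => by
    rw [deg_spl h1 cu hy k1 (hy' v hv), hτ v hv, if_neg (by simp [k2, k3]), add_zero]
  refine ⟨insert y V, ⟨W.val + (m : Multiset ℕ), Multiset.nodup_of_le hle V.nodup⟩,
    spl F (tris o (a :: (m ++ [b]))) o y a b, Function.update τ y t, o, a, y :: b :: r,
    h1.spl cu hy, h2.spl h1 cu hy, ?_, by simp, ?_, ?_, ?_, fun i hi => ?_⟩
  · change _ = _ + (W.val + (m : Multiset ℕ))
    rw [insert_val_of_notMem hy, h3]
    simp only [← Multiset.cons_coe, ← Multiset.coe_add, ← Multiset.singleton_add]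
    abel
  · rw [filter_spl h1 cu hy, h5, union_sdiff_cancel_left hd, List.cons_append, List.cons_append,
      ls_cons, ls_cons, tri23 o y a]
  · simp only [List.map_cons, List.cons.injEq]
    refine ⟨?_, ?_, ?_, ?_⟩
    · rw [deg_spl h1 cu hy (Ne.symm oa) (hy' a aV), hτ a aV, if_pos (Or.inl rfl), ← hp, inc]
    · rw [deg_spl_new h1 cu hy, hcard, Function.update_self]
    · rw [deg_spl h1 cu hy (Ne.symm ob) (hy' b bV), hτ b bV, if_pos (Or.inr rfl), ← hq, inc]
    · rw [← hr]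
      exact List.map_congr_left fun v hv => same v ((hV v).2 (by simp [hv]))
        (fun e => or (e ▸ hv)) (fun e => ar (e ▸ hv)) fun e => br (e ▸ hv)
  · rw [Multiset.map_add, ← h7, ← hm, Multiset.map_coe]
    congr 1
    · exact Multiset.map_congr rfl fun v hv => same v ((hV v).2 (Or.inr hv))
        (fun e => hW o (by simp) (e ▸ hv)) (fun e => hW a (by simp) (e ▸ hv))
        fun e => hW b (by simp) (e ▸ hv)
    · exact congrArg _ (List.map_congr_left fun v hv => same v ((hV v).2 (by simp [hv]))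
        (fun e => om (e ▸ hv)) (fun e => am (e ▸ hv)) fun e => bm (e ▸ hv))
  · rcases hE i hi with k | ⟨rfl, l, hl, rfl⟩
    · obtain ⟨u, w, k1, k2, k3, k4, k5⟩ := h8 i k
      exact ⟨u, w, k1, k2, (hτ u (h1.nb_mem k5)).trans k3, (hτ w (h1.nb_mem k5.symm)).trans k4,
        nb_spl h1 cu hy k1 k2 k5⟩
    · rw [← hp, ← hm] at hl
      obtain ⟨v, hv, rfl⟩ := (List.mem_map (f := fun v => (deg F v, τ v)) (l := a :: m)).1 hl
      have hv' : v ∈ a :: (m ++ [b]) := by
        rw [← List.cons_append]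
        exact List.mem_append_left _ hv
      have vo : v ≠ o := by
        rintro rfl
        rcases List.mem_cons.1 hv with k | k
        · exact oa k
        · exact om k
      obtain ⟨s, k1, k2⟩ := ls_cover (o := o) hv'
      exact ⟨y, v, (hy' o oV).symm, vo, Function.update_self .., hτ v (h1.sub s (cu.sub k1) k2),
        nb_spl_new h1 cu hy k1 k2 vo⟩

lemma St.retag (t : ℕ) (h : St (p :: L) M E) (hE : p.2 ∉ E) : St ((p.1, t) :: L) M E := by
  obtain ⟨V, W, F, τ, o, a, c, h1, h2, h3, h4, h5, h6, h7, h8⟩ := h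
  obtain ⟨hn, hW⟩ := ls_nodup h3
  rw [List.map_cons, List.cons.injEq] at h6
  have ac : a ∉ c := (List.nodup_cons.1 (List.nodup_cons.1 hn).2).1
  refine ⟨V, W, F, Function.update τ a t, o, a, c, h1, h2, h3, h4, h5, ?_, ?_, fun i hi => ?_⟩
  · rw [List.map_cons, Function.update_self, ← h6.1, ← h6.2]
    congr 1
    exact List.map_congr_left fun v hv => by
      rw [Function.update_of_ne fun e : v = a => ac (e ▸ hv)]
  · rw [← h7]
    exact Multiset.map_congr rfl fun v hv => by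
      rw [Function.update_of_ne fun e : v = a => hW a (by simp) (e ▸ hv)]
  · obtain ⟨u, w, k1, k2, k3, k4, k5⟩ := h8 i hi
    have key : ∀ v, τ v = i → Function.update τ a t v = i := fun v hv => by
      rw [Function.update_of_ne, hv]
      rintro rfl
      rw [← h6.1] at hE
      exact hE (hv ▸ hi)
    exact ⟨u, w, k1, k2, key u k3, key w k4, k5⟩

lemma St.fin (h : St (p :: L) M E) :
    Good ((L.length + 1, p.2) ::ₘ ((p :: L : List (ℕ × ℕ)) + M)) (insert p.2 E) := by
  obtain ⟨V, W, F, τ, o, a, c, h1, h2, h3, h4, h5, h6, h7, h8⟩ := h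
  obtain ⟨hn, hW⟩ := ls_nodup h3
  obtain ⟨b, r, rfl⟩ := List.exists_cons_of_length_pos (show 0 < c.length by omega)
  have h5' : (F.filter fun t => o ∈ t) =
      tris o (a :: ([] ++ [b])) ∪ tris o (b :: (r ++ [a])) := h5.trans (ls_link o a b [] r)
  have cu := ls_cut (m := []) h1 hn h4 h5'
  have oc : o ∉ a :: b :: r := (List.nodup_cons.1 hn).1
  have hp : τ a = p.2 := by
    rw [List.map_cons, List.cons.injEq] at h6
    rw [← h6.1]
  have hd : deg F o = L.length + 1 := by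
    have := congrArg List.length h6
    rw [deg, h5', card_union_of_disjoint (ls_disj (m := []) hn h4),
      ls_card (hn.sublist (by simp)), ls_card (ls_swap (m := []) hn)]
    simp only [List.length_map, List.length_cons, List.length_append, List.length_nil] at this ⊢
    omega
  refine ⟨V, F, Function.update τ o p.2, h1, h2, ?_, ?_⟩
  · rw [h3, ← Multiset.cons_coe, Multiset.cons_add, Multiset.map_cons, Function.update_self, hd,
      Multiset.map_add, Multiset.map_coe, ← h6, ← h7]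
    congr 2
    · exact congrArg _ (List.map_congr_left fun v hv => by
        rw [Function.update_of_ne fun e : v = o => oc (e ▸ hv)])
    · exact Multiset.map_congr rfl fun v hv => by
        rw [Function.update_of_ne fun e : v = o => hW o (by simp) (e ▸ hv)]
  · rintro i (rfl | hi)
    · exact ⟨o, a, Function.update_self .., by rw [Function.update_of_ne cu.na.ne.symm, hp], cu.na⟩
    · obtain ⟨u, w, k1, k2, k3, k4, k5⟩ := h8 i hi
      exact ⟨u, w, by rw [Function.update_of_ne k1, k3], by rw [Function.update_of_ne k2, k4], k5⟩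

end Pool.Agent.P.MP_e40812_co
end
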