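import Mathlib
import Pool.Agent.K.MP_e40812_co.C1
import Pool.Agent.K.MP_e40812_co.C0
import Pool.Agent.P.MP_e40812_co.XN
import Pool.Agent.Lib.PolyTime.Parse
import Pool.Agent.Lib.PolyTime.Cook
import Pool.Agent.K.MP_e40812_co.C2
import Pool.Agent.Lib.PolyTime.Rat

-- part Pool.Agent.P.MP_e40812_co.StDefs
section

/-!
Abstract polyhedral maps, given by the incidence relation between vertices and faces.
-/

namespace Pool.Agent.P.MP_e40812_co.St

open Finset

variable {V F : Type*} (I : V → F → Prop)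

/-- Two vertices and two faces with all four incidences: an edge with its two faces. -/
def Sq (u v : V) (A B : F) : Prop := u ≠ v ∧ A ≠ B ∧ I u A ∧ I u B ∧ I v A ∧ I v B

/-- `u v` is an edge of the face `A`. -/
def Ei (A : F) (u v : V) : Prop := ∃ B, Sq I u v A B

/-- `u v` is an edge. -/
def Ed (u v : V) : Prop := ∃ A B, Sq I u v A B

/-- The transposed incidence relation. -/
def tr : F → V → Prop := fun A v => I v A

/-- Walks along edges inside a vertex set. -/
def Conn (S : V → Prop) : V → V → Prop :=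
  Relation.ReflTransGen fun u v => Ed I u v ∧ S u ∧ S v

/-- The local axioms. -/
structure Loc : Prop where
  three : ∀ u v A B C, u ≠ v → I u A → I v A → I u B → I v B → I u C → I v C →
    A = B ∨ A = C ∨ B = C
  two : ∀ v A, I v A → ∃ u w B C, u ≠ w ∧ Sq I v u A B ∧ Sq I v w A C
  le2 : ∀ v A u w x B C D, Sq I v u A B → Sq I v w A C → Sq I v x A D → u = w ∨ u = x ∨ w = x
  cover : ∀ v, ∃ A, I v A

/-- The local axioms, and the boundary of every face is connected. -/
structure Half : Prop extends Loc I where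
  face : ∀ A (S : V → Prop), (∀ u v B, Sq I u v A B → S u → S v) →
    ∀ u v, I u A → I v A → S u → S v

open Classical in
/-- The number of incidences. -/
noncomputable def fl [Fintype V] [Fintype F] : ℕ := ∑ v, ∑ A, if I v A then 1 else 0

/-- Polyhedral maps on the sphere. -/
structure Pol [Fintype V] [Fintype F] : Prop where
  p : Half I
  d : Half (tr I)
  conn : ∀ S : V → Prop, (∀ u v, Ed I u v → S u → S v) → ∀ u v, S u → S v
  ne : Nonempty V
  euler : fl I + 4 ≤ 2 * (Fintype.card V + Fintype.card F)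

/-- The incidence relation is the zero pattern of a nonnegative matrix of rank at most four. -/
def Real4 : Prop :=
  ∃ (X : V → Fin 4 → ℝ) (Y : F → Fin 4 → ℝ), ∀ v A,
    (I v A → X v ⬝ᵥ Y A = 0) ∧ (¬ I v A → 0 < X v ⬝ᵥ Y A)

/-- Signs of the edges of the faces: an orientation with values in `K`. -/
structure Sig {K : Type*} [Field K] (σ : V → V → F → K) : Prop where
  anti : ∀ u v A, σ u v A = -σ v u A
  zero : ∀ u v A, ¬ Ei I A u v → σ u v A = 0
  sq : ∀ u v A, Ei I A u v → σ u v A * σ u v A = 1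
  opp : ∀ u v A B, Sq I u v A B → σ u v A + σ u v B = 0
  turn : ∀ v u w A, Ei I A v u → Ei I A v w → u ≠ w → σ v u A + σ v w A = 0

/-- The checkable form of the axioms for one side: in each face, every vertex but the first has
an earlier neighbour. -/
structure Chk1 [LinearOrder V] : Prop extends Loc I where
  mono : ∀ A u v, I u A → I v A → u < v → ∃ w B, w < v ∧ Sq I v w A B

/-- The checkable form of the axioms. -/
structure Chk [Fintype V] [Fintype F] [LinearOrder V] [LinearOrder F] : Prop where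
  p : Chk1 I
  d : Chk1 (tr I)
  glob : ∀ u v : V, u < v → ∃ w A B, w < v ∧ Sq I v w A B
  ne : Nonempty V
  euler : fl I + 4 ≤ 2 * (Fintype.card V + Fintype.card F)

end Pool.Agent.P.MP_e40812_co.St
end

-- part Pool.Agent.P.MP_e40812_co.StBasic
section

/-!
First properties of abstract polyhedral maps: duality, parity of cuts, three-connectivity.
-/

namespace Pool.Agent.P.MP_e40812_co.St

open Finset

variable {V F : Type*} {I : V → F → Prop} {u v w x y : V} {A B C : F}

lemma Sq.symm (h : Sq I u v A B) : Sq I v u A B :=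
  ⟨h.1.symm, h.2.1, h.2.2.2.2.1, h.2.2.2.2.2, h.2.2.1, h.2.2.2.1⟩

lemma Sq.swap (h : Sq I u v A B) : Sq I u v B A :=
  ⟨h.1, h.2.1.symm, h.2.2.2.1, h.2.2.1, h.2.2.2.2.2, h.2.2.2.2.1⟩

lemma Sq.tr (h : Sq I u v A B) : Sq (tr I) A B u v :=
  ⟨h.2.1, h.1, h.2.2.1, h.2.2.2.2.1, h.2.2.2.1, h.2.2.2.2.2⟩

lemma Sq.of_tr (h : Sq (St.tr I) A B u v) : Sq I u v A B := Sq.tr (I := St.tr I) h

lemma Sq.uA (h : Sq I u v A B) : I u A := h.2.2.1
lemma Sq.uB (h : Sq I u v A B) : I u B := h.2.2.2.1
lemma Sq.vA (h : Sq I u v A B) : I v A := h.2.2.2.2.1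
lemma Sq.vB (h : Sq I u v A B) : I v B := h.2.2.2.2.2
lemma Sq.ei (h : Sq I u v A B) : Ei I A u v := ⟨B, h⟩
lemma Sq.ed (h : Sq I u v A B) : Ed I u v := ⟨A, B, h⟩

lemma Ei.symm (h : Ei I A u v) : Ei I A v u := h.imp fun _ k => k.symm
lemma Ei.ed (h : Ei I A u v) : Ed I u v := ⟨A, h⟩
lemma Ei.ne (h : Ei I A u v) : u ≠ v := h.elim fun _ k => k.1
lemma Ei.fst (h : Ei I A u v) : I u A := h.elim fun _ k => k.uA
lemma Ei.snd (h : Ei I A u v) : I v A := h.elim fun _ k => k.vA
lemma Ed.symm (h : Ed I u v) : Ed I v u := h.imp fun _ k => Ei.symm k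
lemma Ed.ne (h : Ed I u v) : u ≠ v := h.elim fun _ k => Ei.ne k

lemma Conn.symm {S : V → Prop} (h : Conn I S u v) : Conn I S v u := by
  induction h with
  | refl => exact .refl
  | tail _ k ih => exact .head ⟨k.1.symm, k.2.2, k.2.1⟩ ih

lemma Conn.mono {S T : V → Prop} (h : Conn I S u v) (hST : ∀ z, S z → T z) : Conn I T u v := by
  induction h with
  | refl => exact .refl
  | tail _ k ih => exact .tail ih ⟨k.1, hST _ k.2.1, hST _ k.2.2⟩

lemma Conn.mem {S : V → Prop} (h : Conn I S u v) (hu : S u) : S v := by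
  induction h with
  | refl => exact hu
  | tail _ k _ => exact k.2.2

lemma Loc.eq_or (h : Loc I) (s : Sq I u v A B) (h1 : I u C) (h2 : I v C) : C = A ∨ C = B := by
  rcases h.three u v A B C s.1 s.uA s.vA s.uB s.vB h1 h2 with k | k | k
  · exact absurd k s.2.1
  · exact Or.inl k.symm
  · exact Or.inr k.symm

lemma Loc.other (h : Loc I) (s : Sq I u v A B) (t : Sq I u v A C) : B = C :=
  ((h.eq_or s t.uB t.vB).resolve_left t.2.1.symm).symm

lemma Loc.ei (h : Loc I) (e : Ed I u v) (h1 : I u C) (h2 : I v C) : Ei I C u v := by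
  obtain ⟨A, B, s⟩ := e
  rcases h.eq_or s h1 h2 with rfl | rfl
  · exact s.ei
  · exact s.swap.ei

lemma Loc.ei_or (h : Loc I) (s : Ei I A v u) (t : Ei I A v w) (huw : u ≠ w) (r : Ei I A v x) :
    x = u ∨ x = w := by
  obtain ⟨B, s⟩ := s
  obtain ⟨C, t⟩ := t
  obtain ⟨D, r⟩ := r
  rcases h.le2 v A u w x B C D s t r with k | k | k
  · exact absurd k huw
  · exact Or.inl k.symm
  · exact Or.inr k.symm

/-- The second edge of a face at a vertex. -/
lemma Loc.next (h : Loc I) (s : Ei I A v u) : ∃ w, w ≠ u ∧ Ei I A v w := by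
  obtain ⟨a, b, B, C, hab, sa, sb⟩ := h.two v A s.fst
  by_cases k : a = u
  · exact ⟨b, fun e => hab (k.trans e.symm), sb.ei⟩
  · exact ⟨a, k, sa.ei⟩

/-- Two faces share at most two vertices. -/
lemma Loc.mem_or (h : Loc (tr I)) (s : Sq I u v A B) (h1 : I w A) (h2 : I w B) :
    w = u ∨ w = v := h.eq_or s.tr h1 h2

lemma sum_anti [Fintype V] {K : Type*} [AddCommGroup K] (c : V → V → K)
    (h : ∀ u v, c u v = -c v u) (h0 : ∀ u, c u u = 0) : ∑ u, ∑ v, c u v = 0 := by
  rw [← sum_product']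
  refine sum_involution (fun p _ => p.swap) (fun p _ => ?_) (fun p _ k e => k ?_)
    (fun p _ => by simp) (fun p _ => rfl)
  · simp [h p.1 p.2]
  · have : p.2 = p.1 := congrArg Prod.fst e
    rw [this, h0]

lemma Loc.sum_ei [Fintype V] (h : Loc I) {K : Type*} [AddCommMonoid K] (s : Ei I A v u)
    (t : Ei I A v w) (huw : u ≠ w) (f : V → K) (hf : ∀ x, ¬ Ei I A v x → f x = 0) :
    ∑ x, f x = f u + f w :=
  Fintype.sum_eq_add u w huw fun x hx => hf x fun r => (h.ei_or s t huw r).elim hx.1 hx.2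

lemma Loc.sum_fc [Fintype F] (h : Loc I) {K : Type*} [AddCommMonoid K] (s : Sq I u v A B)
    (f : F → K) (hf : ∀ C, ¬ Ei I C u v → f C = 0) : ∑ C, f C = f A + f B :=
  Fintype.sum_eq_add A B s.2.1 fun C hC => hf C fun r => (h.eq_or s r.fst r.snd).elim hC.1 hC.2

/-- A cut meets the boundary of a face in no or in at least two edges. -/
lemma Loc.another [Fintype V] (h : Loc I) (S : V → Prop) (s : Ei I A x y) (hx : S x)
    (hy : ¬ S y) : ∃ a b, Ei I A a b ∧ S a ∧ ¬ S b ∧ ¬ (a = x ∧ b = y) := by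
  classical
  by_contra hn
  push Not at hn
  have h1 := sum_anti (K := ZMod 2) (fun a b => if Ei I A a b ∧ S a ∧ S b then 1 else 0)
    (fun a b => by
      rw [ZMod.neg_eq_self_mod_two]
      exact if_congr ⟨fun k => ⟨k.1.symm, k.2.2, k.2.1⟩, fun k => ⟨k.1.symm, k.2.2, k.2.1⟩⟩ rfl rfl)
    (fun a => if_neg fun k => k.1.ne rfl)
  have h2 : ∑ a, ∑ b, (if Ei I A a b ∧ S a then 1 else 0 : ZMod 2) = 0 := by
    refine sum_eq_zero fun a _ => ?_
    by_cases ha : I a A
    · obtain ⟨p, q, B, C, hpq, sp, sq⟩ := h.two a A ha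
      rw [h.sum_ei sp.ei sq.ei hpq _ fun z hz => if_neg fun k => hz k.1]
      simp only [sp.ei, sq.ei, true_and]
      split_ifs <;> rfl
    · exact sum_eq_zero fun b _ => if_neg fun k => ha k.1.fst
  have h3 : ∀ a b, (if Ei I A a b ∧ S a then 1 else 0 : ZMod 2) =
      (if Ei I A a b ∧ S a ∧ S b then 1 else 0) + if a = x then if b = y then 1 else 0 else 0 := by
    intro a b
    by_cases e : a = x ∧ b = y
    · obtain ⟨rfl, rfl⟩ := e
      simp [s, hx, hy]
    · have : (if a = x then if b = y then 1 else 0 else 0 : ZMod 2) = 0 := by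
        split_ifs with k1 k2
        · exact absurd ⟨k1, k2⟩ e
        all_goals rfl
      rw [this, add_zero]
      refine if_congr ⟨fun k => ⟨k.1, k.2, ?_⟩, fun k => ⟨k.1, k.2.1⟩⟩ rfl rfl
      by_contra k'
      exact e (hn a b k.1 k.2 k')
  simp only [h3, sum_add_distrib, h1] at h2
  simp at h2

variable [Fintype V] [Fintype F]

lemma fl_tr : fl (tr I) = fl I := by
  unfold fl
  rw [sum_comm]
  rfl

lemma Pol.link (h : Pol I) (v : V) (S : F → Prop) (hS : ∀ u A B, Sq I v u A B → S A → S B)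
    (hA : I v A) (hB : I v B) (k : S A) : S B :=
  h.d.face v S (fun A B u s => hS u A B s.of_tr) A B hA hB k

lemma Pol.dual (h : Pol I) : Pol (tr I) where
  p := h.d
  d := h.p
  conn := fun S hS A B k => by
    obtain ⟨u, hu⟩ := h.d.cover A
    obtain ⟨v, hv⟩ := h.d.cover B
    have l : ∀ v C D, I v C → I v D → S C → S D := fun v C D h1 h2 =>
      h.link v S (fun u A B s => hS A B s.tr.ed) h1 h2
    exact h.conn (fun z => ∀ C, I z C → S C)
      (fun a b ⟨C, D, s⟩ k E hE => l b C E s.vA hE (k C s.uA)) u v (fun C hC => l u A C hu hC k) B hv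
  ne := h.ne.elim fun v => (h.p.cover v).elim fun A _ => ⟨A⟩
  euler := by rw [fl_tr, add_comm (Fintype.card F)]; exact h.euler

/-- Two different vertices are separated by a face. -/
lemma Pol.sep (h : Pol I) (huv : u ≠ v) : ∃ A, I u A ∧ ¬ I v A := by
  obtain ⟨A, hA⟩ := h.p.cover u
  obtain ⟨B, C, a, b, hBC, s, t⟩ := h.d.two A u hA
  by_contra hn
  push Not at hn
  rcases h.p.three u v A B C huv hA (hn A hA) s.vA (hn B s.vA) t.vA (hn C t.vA) with k | k | k
  · exact s.1 k
  · exact t.1 k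
  · exact hBC k

/-- Three-connectivity. -/
lemma Pol.three_conn (h : Pol I) (S : V → Prop) (hx : ¬ S x) (hy : ¬ S y)
    (hS : ∀ a b, Ed I a b → S a → S b ∨ b = x ∨ b = y) (hu : S u) (v : V) :
    S v ∨ v = x ∨ v = y := by
  have key : ∀ x y, ¬ S x → ¬ S y → (∀ a b, Ed I a b → S a → S b ∨ b = x ∨ b = y) →
      (∃ a, S a ∧ Ed I a x) → ∀ w, Ed I x w → S w ∨ (w = y ∧ ∃ a, S a ∧ Ed I a y) := by
    intro x y hx hy hS ⟨a, ha, ea⟩ w ew
    have K : ∀ A p q, Ei I A x p → Ei I A x q → S p → ¬ S q →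
        I y A ∧ y ≠ x ∧ ∃ a, S a ∧ Ed I a y := by
      intro A p q ep eq hp hq
      obtain ⟨c, d, e, hc, hd, hne⟩ := h.p.another S ep.symm hp hx
      have hdx : d ≠ x := by
        rintro rfl
        rcases h.p.ei_or ep eq (fun k => hq (k ▸ hp)) e.symm with k | k
        · exact hne ⟨k, rfl⟩
        · exact hq (k ▸ hc)
      obtain rfl : d = y := ((hS c d e.ed hc).resolve_left hd).resolve_left hdx
      exact ⟨e.snd, hdx, c, hc, e.ed⟩
    have cl : ∀ q A B, Sq I x q A B → (∃ p, S p ∧ Ei I A x p) → ∃ p, S p ∧ Ei I B x p := by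
      intro q A B s ⟨p, hp, ep⟩
      by_contra hB
      have hq : ¬ S q := fun k => hB ⟨q, k, s.swap.ei⟩
      obtain ⟨A', B', ⟨q', s'⟩, ⟨p', hp', ep'⟩, hB', hne⟩ :=
        h.d.another (fun C => ∃ p, S p ∧ Ei I C x p) s.tr.ei ⟨p, hp, ep⟩ hB
      have s' := s'.of_tr
      have hq' : ¬ S q' := fun k => hB' ⟨q', k, s'.swap.ei⟩
      have hpq : p ≠ q := fun k => hq (k ▸ hp)
      obtain ⟨k1, k2, -⟩ := K A p q ep s.ei hp hq
      obtain ⟨k3, -, -⟩ := K A' p' q' ep' s'.ei hp' hq'
      by_cases hA : A' = A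
      · subst hA
        rcases h.p.ei_or ep s.ei hpq s'.ei with k | k
        · exact hq' (k ▸ hp)
        · subst k
          exact hne ⟨rfl, h.p.other s' s⟩
      · have t : Sq I x y A A' := ⟨k2.symm, Ne.symm hA, s.uA, s'.uA, k1, k3⟩
        rcases h.p.ei_or ep s.ei hpq t.ei with k | k
        · exact hy (k ▸ hp)
        · subst k
          exact hB (h.p.other t s ▸ ⟨p', hp', ep'⟩)
    by_cases hw : S w
    · exact Or.inl hw
    obtain ⟨A₀, B₀, s₀⟩ := ea.symm
    obtain ⟨A, B, s⟩ := ew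
    obtain ⟨p, hp, ep⟩ := h.link x _ cl s₀.uA s.uA ⟨a, ha, s₀.ei⟩
    obtain ⟨q, hq, eq⟩ := h.link x _ cl s₀.uA s.uB ⟨a, ha, s₀.ei⟩
    obtain ⟨k1, k2, k⟩ := K A p w ep s.ei hp hw
    obtain ⟨k3, -, -⟩ := K B q w eq s.swap.ei hq hw
    exact Or.inr ⟨((h.d.mem_or s k1 k3).resolve_left k2).symm, k⟩
  have := h.conn (fun z => S z ∨ ((z = x ∨ z = y) ∧ ∃ a, S a ∧ Ed I a z)) ?_ u v (Or.inl hu)
  · exact this.imp_right fun k => k.1
  rintro a b e (ha | ⟨rfl | rfl, k⟩)
  · exact (hS a b e ha).imp_right fun k => ⟨k, a, ha, e⟩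
  · refine (key a y hx hy hS k b e).imp_right ?_
    rintro ⟨rfl, k'⟩
    exact ⟨Or.inr rfl, k'⟩
  · refine (key a x hy hx (fun c d e' k' => (hS c d e' k').imp_right Or.symm) k b e).imp_right ?_
    rintro ⟨rfl, k'⟩
    exact ⟨Or.inl rfl, k'⟩

open Classical in
/-- There is a triangle or a vertex of degree three. -/
lemma Pol.small (h : Pol I) : (∃ A, (univ.filter fun v => I v A).card ≤ 3) ∨
    ∃ v, (univ.filter fun A => I v A).card ≤ 3 := by
  by_contra hn
  push Not at hn
  have h1 : 4 * Fintype.card V ≤ fl I := by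
    unfold fl
    rw [← card_univ, mul_comm, ← smul_eq_mul]
    refine card_nsmul_le_sum _ _ _ fun v _ => ?_
    rw [← card_filter]
    exact hn.2 v
  have h2 : 4 * Fintype.card F ≤ fl I := by
    unfold fl
    rw [sum_comm, ← card_univ, mul_comm, ← smul_eq_mul]
    refine card_nsmul_le_sum _ _ _ fun A _ => ?_
    rw [← card_filter]
    exact hn.1 A
  have := h.euler
  omega

omit [Fintype F] in
lemma Chk1.half [LinearOrder V] (h : Chk1 I) : Half I where
  toLoc := h.toLoc
  face := fun A S hS u v hu hv k => by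
    classical
    obtain ⟨m, hm, hm'⟩ := exists_min_image (univ.filter fun z => I z A) id
      ⟨u, mem_filter.2 ⟨mem_univ _, hu⟩⟩
    have key : ∀ z, I z A → (S z ↔ S m) := by
      intro z
      induction z using WellFoundedLT.induction with
      | ind z ih =>
        intro hz
        rcases (hm' z (mem_filter.2 ⟨mem_univ _, hz⟩)).eq_or_lt with e | e
        · rw [show m = z from e]
        · obtain ⟨w, B, hw, s⟩ := h.mono A m z (mem_filter.1 hm).2 hz e
          rw [← ih w hw s.vA]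
          exact ⟨hS _ _ B s, hS _ _ B s.symm⟩
    exact (key v hv).2 ((key u hu).1 k)

lemma Chk.pol [LinearOrder V] [LinearOrder F] (h : Chk I) : Pol I where
  p := h.p.half
  d := h.d.half
  conn := fun S hS u v k => by
    obtain ⟨m, -, hm⟩ := exists_min_image (univ : Finset V) id ⟨u, mem_univ _⟩
    have key : ∀ z, S z ↔ S m := by
      intro z
      induction z using WellFoundedLT.induction with
      | ind z ih =>
        rcases (hm z (mem_univ _)).eq_or_lt with e | e
        · rw [show m = z from e]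
        · obtain ⟨w, A, B, hw, s⟩ := h.glob m z e
          rw [← ih w hw]
          exact ⟨hS _ _ s.ed, hS _ _ s.symm.ed⟩
    exact (key v).2 ((key u).1 k)
  ne := h.ne
  euler := h.euler

end Pool.Agent.P.MP_e40812_co.St
end

-- part Pool.Agent.P.MP_e40812_co.StRank
section

/-!
Every cycle of an oriented polyhedral map is a boundary (a rank count with the Euler formula).
-/

namespace Pool.Agent.P.MP_e40812_co.St

open Finset Module

variable {V F : Type*} [Fintype V] [Fintype F] {I : V → F → Prop} {K : Type*} [Field K]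

lemma rank_ge {m n : Type*} [Fintype m] [Fintype n] (M : Matrix m n K)
    (h : ∀ x, M.mulVec x = 0 → ∀ i j, x i = x j) : Fintype.card n ≤ M.rank + 1 := by
  have h1 := LinearMap.finrank_range_add_finrank_ker M.mulVecLin
  have h2 : finrank K (LinearMap.ker M.mulVecLin) ≤ 1 := by
    refine le_trans (Submodule.finrank_mono (t := K ∙ fun _ => (1 : K)) fun x hx => ?_)
      ((finrank_span_le_card _).trans (by simp))
    rcases isEmpty_or_nonempty n with _ | ⟨⟨i⟩⟩
    · rw [Subsingleton.elim x 0]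
      exact zero_mem _
    · exact Submodule.mem_span_singleton.2 ⟨x i, funext fun j => by simp [h x hx i j]⟩
  rw [finrank_fintype_fun_eq_card] at h1
  unfold Matrix.rank
  omega

open Classical in
lemma Pol.darts (h : Pol I) : ∑ u, ∑ v, (if Ed I u v then 1 else 0) = fl I := by
  have h1 : ∀ v A, ∑ u, (if Ei I A v u then 1 else 0) = 2 * if I v A then 1 else 0 := by
    intro v A
    split_ifs with k
    · obtain ⟨p, q, B, C, hpq, sp, sq⟩ := h.p.two v A k
      rw [h.p.sum_ei sp.ei sq.ei hpq _ fun z hz => if_neg hz, if_pos sp.ei, if_pos sq.ei]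
    · exact sum_eq_zero fun u _ => if_neg fun e => k e.fst
  have h2 : ∀ v u, ∑ A, (if Ei I A v u then 1 else 0) = 2 * if Ed I v u then 1 else 0 := by
    intro v u
    split_ifs with k
    · obtain ⟨A, B, s⟩ := k
      rw [h.p.sum_fc s _ fun z hz => if_neg hz, if_pos s.ei, if_pos s.swap.ei]
    · exact sum_eq_zero fun A _ => if_neg fun e => k e.ed
  have h3 : ∑ v, ∑ A, ∑ u, (if Ei I A v u then 1 else 0) =
      ∑ v, ∑ u, ∑ A, (if Ei I A v u then 1 else 0) := sum_congr rfl fun v _ => sum_comm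
  simp only [h1, h2, ← mul_sum] at h3
  unfold fl
  omega

open Classical in
omit [Fintype F] in
lemma sumE [LinearOrder V] {R : Type*} [AddCommMonoid R] (f : V → V → R) :
    ∑ e : {p : V × V // p.1 < p.2 ∧ Ed I p.1 p.2}, f e.1.1 e.1.2 =
      ∑ a, ∑ b, if a < b ∧ Ed I a b then f a b else 0 := by
  rw [← sum_product', ← sum_filter, univ_product_univ]
  exact (sum_subtype _ (by simp) fun p : V × V => f p.1 p.2).symm

theorem Pol.exact (h : Pol I) {σ : V → V → F → K} (hσ : Sig I σ) :
    2 * (Fintype.card V + Fintype.card F) ≤ fl I + 4 ∧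
    ∀ c : V → V → K, (∀ u v, c u v = -c v u) → (∀ u v, ¬ Ed I u v → c u v = 0) →
      (∀ v, ∑ u, c v u = 0) → ∃ g : F → K, ∀ u v A B, Sq I u v A B →
        g A - g B = σ u v A * c u v := by
  classical
  letI : LinearOrder V := LinearOrder.lift' (Fintype.equivFin V) (Fintype.equivFin V).injective
  let E := {p : V × V // p.1 < p.2 ∧ Ed I p.1 p.2}
  have cE : 2 * Fintype.card E = fl I := by
    have h1 := sumE (I := I) (R := ℕ) fun _ _ => 1
    rw [sum_const, card_univ, smul_eq_mul, mul_one] at h1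
    rw [← h.darts, two_mul]
    nth_rw 1 [h1]
    rw [h1]
    nth_rw 2 [sum_comm]
    rw [← sum_add_distrib]
    refine sum_congr rfl fun a _ => ?_
    rw [← sum_add_distrib]
    refine sum_congr rfl fun b _ => ?_
    by_cases e : Ed I a b
    · rcases lt_or_gt_of_ne e.ne with k | k <;> simp [e, e.symm, k, k.not_gt]
    · have e' : ¬ Ed I b a := fun k => e k.symm
      simp [e, e']
  let M : Matrix V E K := fun v e => (if v = e.1.1 then 1 else 0) - if v = e.1.2 then 1 else 0
  let N : Matrix E F K := fun e A => σ e.1.1 e.1.2 A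
  have hM : ∀ c : V → V → K, (∀ u v, c u v = -c v u) → (∀ u v, ¬ Ed I u v → c u v = 0) →
      ∀ v, M.mulVec (fun e => c e.1.1 e.1.2) v = ∑ u, c v u := by
    intro c c1 c2 v
    have := sumE (I := I) fun a b => ((if v = a then 1 else 0) - if v = b then 1 else 0) * c a b
    simp only [Matrix.mulVec, dotProduct, M]
    rw [this]
    have e : ∀ a b, (if a < b ∧ Ed I a b then
        ((if v = a then 1 else 0) - if v = b then 1 else 0) * c a b else 0) =
        (if v = a then if a < b then c a b else 0 else 0) +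
          if v = b then if a < b then c b a else 0 else 0 := by
      intro a b
      by_cases k : Ed I a b
      · rw [c1 b a]
        by_cases k' : a < b <;> simp only [k, k', and_true, if_true, if_false] <;>
          split_ifs <;> ring
      · simp [k, c2 a b k, c2 b a fun k' => k k'.symm]
    simp only [e, sum_add_distrib]
    nth_rw 1 [sum_comm]
    simp only [sum_ite_eq, mem_univ, if_true, ← sum_add_distrib]
    refine sum_congr rfl fun u _ => ?_
    rcases lt_trichotomy v u with k | rfl | k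
    · simp [k, k.not_gt]
    · simp [c2 v v fun k => k.ne rfl]
    · simp [k, k.not_gt]
  have hN : ∀ (g : F → K) (e : E) A B, Sq I e.1.1 e.1.2 A B →
      N.mulVec g e = σ e.1.1 e.1.2 A * (g A - g B) := by
    intro g e A B s
    simp only [Matrix.mulVec, dotProduct, N]
    rw [h.p.sum_fc s _ fun C hC => by rw [hσ.zero _ _ _ hC, zero_mul]]
    linear_combination g B * hσ.opp _ _ _ _ s
  have MN : LinearMap.range N.mulVecLin ≤ LinearMap.ker M.mulVecLin := by
    rintro _ ⟨g, rfl⟩
    funext v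
    have := hM (fun a b => ∑ A, σ a b A * g A)
      (fun a b => by
        rw [← sum_neg_distrib]
        exact sum_congr rfl fun A _ => by rw [hσ.anti a b A, neg_mul])
      (fun a b k => sum_eq_zero fun A _ => by rw [hσ.zero a b A fun k' => k k'.ed, zero_mul]) v
    refine this.trans ?_
    rw [sum_comm]
    refine sum_eq_zero fun A _ => ?_
    rw [← sum_mul]
    by_cases k : I v A
    · obtain ⟨p, q, B, C, hpq, sp, sq⟩ := h.p.two v A k
      rw [h.p.sum_ei sp.ei sq.ei hpq _ fun z hz => hσ.zero _ _ _ hz,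
        hσ.turn _ _ _ _ sp.ei sq.ei hpq, zero_mul]
    · rw [sum_eq_zero fun u _ => hσ.zero _ _ _ fun e => k e.fst, zero_mul]
  have rM : Fintype.card V ≤ M.rank + 1 := by
    rw [← Matrix.rank_transpose]
    refine rank_ge _ fun x hx i j => ?_
    have key : ∀ a b, a < b → Ed I a b → x a = x b := by
      intro a b k e
      have := congrFun hx ⟨(a, b), k, e⟩
      simp only [Matrix.mulVec, dotProduct, M, Matrix.transpose_apply, sub_mul, sum_sub_distrib,
        ite_mul, one_mul, zero_mul, sum_ite_eq', mem_univ, if_true, Pi.zero_apply] at this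
      exact sub_eq_zero.1 this
    refine (h.conn (fun z => x z = x i) (fun a b e k => ?_) i j rfl).symm
    rcases lt_or_gt_of_ne e.ne with l | l
    · exact (key a b l e).symm.trans k
    · exact (key b a l e.symm).trans k
  have rN : Fintype.card F ≤ N.rank + 1 := by
    refine rank_ge _ fun g hg i j => ?_
    have key : ∀ a b A B, a < b → Sq I a b A B → g A = g B := by
      intro a b A B k s
      have := (hN g ⟨(a, b), k, s.ed⟩ A B s).symm.trans (congrFun hg _)
      have e := hσ.sq _ _ _ s.ei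
      simp only [Pi.zero_apply] at this
      linear_combination σ a b A * this - (g A - g B) * e
    refine (h.dual.conn (fun z => g z = g i) (fun A B ⟨a, b, s⟩ k => ?_) i j rfl).symm
    have s := s.of_tr
    rcases lt_or_gt_of_ne s.1 with l | l
    · exact (key a b A B l s).symm.trans k
    · exact (key b a A B l s.symm).symm.trans k
  have r1 := LinearMap.finrank_range_add_finrank_ker M.mulVecLin
  rw [finrank_fintype_fun_eq_card] at r1
  have r2 := Submodule.finrank_mono MN
  have := h.euler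
  unfold Matrix.rank at rM rN
  refine ⟨by omega, fun c c1 c2 c3 => ?_⟩
  have e := Submodule.eq_of_le_of_finrank_le MN (by omega)
  obtain ⟨g, hg⟩ : (fun e : E => c e.1.1 e.1.2) ∈ LinearMap.range N.mulVecLin := by
    rw [e]
    funext v
    exact (hM c c1 c2 v).trans (c3 v)
  have key : ∀ a b A B, a < b → Sq I a b A B → g A - g B = σ a b A * c a b := by
    intro a b A B k s
    have := (hN g ⟨(a, b), k, s.ed⟩ A B s).symm.trans (congrFun hg _)
    have e := hσ.sq _ _ _ s.ei
    linear_combination σ a b A * this - (g A - g B) * e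
  refine ⟨g, fun a b A B s => ?_⟩
  rcases lt_or_gt_of_ne s.1 with l | l
  · exact key a b A B l s
  · rw [key b a A B l s.symm, hσ.anti a b A, c1 a b]
    ring

open Classical in
omit [Fintype V] [Fintype F] in
lemma sig_two : Sig I fun u v A => (if Ei I A u v then 1 else 0 : ZMod 2) where
  anti := fun u v A => by
    rw [ZMod.neg_eq_self_mod_two]
    exact if_congr ⟨Ei.symm, Ei.symm⟩ rfl rfl
  zero := fun u v A k => if_neg k
  sq := fun u v A k => by simp [k]
  opp := fun u v A B s => by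
    simp only [s.ei, s.swap.ei, if_true]
    rfl
  turn := fun v u w A k1 k2 _ => by
    simp only [k1, k2, if_true]
    rfl

lemma Pol.euler_ge (h : Pol I) : 2 * (Fintype.card V + Fintype.card F) ≤ fl I + 4 :=
  (h.exact sig_two).1

/-- The version modulo two; the cycle condition may be left out at one vertex. -/
lemma Pol.exact_two (h : Pol I) (c : V → V → ZMod 2) (c1 : ∀ u v, c u v = c v u)
    (c2 : ∀ u v, ¬ Ed I u v → c u v = 0) (o : V) (c3 : ∀ v, v ≠ o → ∑ u, c v u = 0) :
    ∃ g : F → ZMod 2, ∀ u v A B, Sq I u v A B → g A + g B = c u v := by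
  classical
  have c1' : ∀ u v, c u v = -c v u := fun u v => by rw [ZMod.neg_eq_self_mod_two, c1]
  obtain ⟨g, hg⟩ := (h.exact sig_two).2 c c1' c2 fun v => by
    by_cases k : v = o
    · have := sum_anti c c1' fun u => c2 u u fun e => e.ne rfl
      rwa [Fintype.sum_eq_single o c3, ← k] at this
    · exact c3 v k
  refine ⟨g, fun u v A B s => ?_⟩
  have := hg u v A B s
  rwa [if_pos s.ei, one_mul, sub_eq_add_neg, ZMod.neg_eq_self_mod_two] at this

end Pool.Agent.P.MP_e40812_co.St
end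

-- part Pool.Agent.P.MP_e40812_co.StSep
section

/-!
Planarity arguments for polyhedral maps: cycles separate, and minimal cuts are dual cycles.
-/

namespace Pool.Agent.P.MP_e40812_co.St

open Finset

variable {V F : Type*} [Fintype V] {I : V → F → Prop} {x y : V} {A B : F}

open Classical in
/-- A chain modulo two with boundary `a + b` and support in `R`. -/
def Chain (R : V → V → Prop) (a b : V) (c : V → V → ZMod 2) : Prop :=
  (∀ u v, c u v = c v u) ∧ (∀ u v, ¬ R u v → ¬ R v u → c u v = 0) ∧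
    ∀ v, ∑ u, c v u = (if v = a then 1 else 0) + if v = b then 1 else 0

open Classical in
/-- The chain of a single edge. -/
noncomputable def one (a b u v : V) : ZMod 2 :=
  (if u = a then if v = b then 1 else 0 else 0) + if u = b then if v = a then 1 else 0 else 0

lemma chain_one {R : V → V → Prop} {a b : V} (h : R a b) : Chain R a b (one a b) := by
  classical
  refine ⟨fun u v => ?_, fun u v h1 h2 => ?_, fun v => ?_⟩
  · unfold one
    rw [add_comm]
    congr 1 <;> split_ifs <;> rfl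
  · unfold one
    split_ifs <;> simp_all
  · simp only [one, sum_add_distrib]
    congr 1 <;> split_ifs <;> simp

lemma Chain.add {R : V → V → Prop} {a b d : V} {c c' : V → V → ZMod 2} (h : Chain R a b c)
    (h' : Chain R b d c') : Chain R a d (c + c') := by
  refine ⟨fun u v => ?_, fun u v h1 h2 => ?_, fun v => ?_⟩
  · simp only [Pi.add_apply, h.1 u v, h'.1 u v]
  · simp only [Pi.add_apply, h.2.1 u v h1 h2, h'.2.1 u v h1 h2, add_zero]
  · simp only [Pi.add_apply, sum_add_distrib, h.2.2, h'.2.2]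
    split_ifs <;> rfl

lemma Chain.mono {R R' : V → V → Prop} {a b : V} {c : V → V → ZMod 2} (h : Chain R a b c)
    (k : ∀ u v, R u v → R' u v) : Chain R' a b c :=
  ⟨h.1, fun u v h1 h2 => h.2.1 u v (fun e => h1 (k _ _ e)) fun e => h2 (k _ _ e), h.2.2⟩

lemma Chain.symm {R : V → V → Prop} {a b : V} {c : V → V → ZMod 2} (h : Chain R a b c) :
    Chain R b a c := ⟨h.1, h.2.1, fun v => by rw [h.2.2, add_comm]⟩

lemma exists_chain {R : V → V → Prop} {a b : V} (h : Relation.ReflTransGen R a b) :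
    ∃ c, Chain R a b c := by
  induction h with
  | refl =>
    refine ⟨0, fun _ _ => rfl, fun _ _ _ _ => rfl, fun v => ?_⟩
    simp only [Pi.zero_apply, sum_const_zero]
    split_ifs <;> rfl
  | tail _ k ih =>
    obtain ⟨c, hc⟩ := ih
    exact ⟨_, hc.add (chain_one k)⟩

/-- A chain from `x` through the set `S` to `y`, with exactly one edge at `x`. -/
lemma exists_chain_via {S : V → Prop} {a b : V} (hx : ¬ S x) (hy : ¬ S y) (hxy : x ≠ y)
    (ha : S a) (e1 : Ed I x a) (k : Conn I S a b) (e2 : Ed I y b) :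
    ∃ c, Chain (fun u v => Ed I u v ∧ (S u ∨ u = x ∨ u = y) ∧ (S v ∨ v = x ∨ v = y)) x y c ∧
      c x a = 1 ∧ ∀ u, u ≠ a → c x u = 0 := by
  classical
  obtain ⟨c, hc⟩ := exists_chain k
  have hb := k.mem ha
  have h0 : ∀ u, c x u = 0 := fun u => hc.2.1 x u (fun e => hx e.2.1) fun e => hx e.2.2
  have xa : x ≠ a := e1.ne
  have xb : x ≠ b := fun e => hx (e ▸ hb)
  refine ⟨_, ((chain_one ⟨e1, by simp, Or.inl ha⟩).add
    (hc.mono fun u v e => ⟨e.1, Or.inl e.2.1, Or.inl e.2.2⟩)).add
    (chain_one ⟨e2.symm, Or.inl hb, by simp⟩), ?_, fun u hu => ?_⟩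
  · simp [one, h0, xa, xb, hxy]
  · simp [one, h0, xa, xb, hxy, hu]

variable [Fintype F]

lemma two_eq {s t : ZMod 2} (h : s + t = 0) : s = t := by
  revert s t
  decide

/-- A cycle is a boundary. -/
lemma Pol.bound (h : Pol I) {R : V → V → Prop} (hR : ∀ u v, R u v → Ed I u v) {a : V}
    {c : V → V → ZMod 2} (hc : Chain R a a c) :
    ∃ g : F → ZMod 2, ∀ u v A B, Sq I u v A B → g A + g B = c u v :=
  h.exact_two c hc.1 (fun u v k => hc.2.1 u v (fun e => k (hR _ _ e)) fun e => k (hR _ _ e).symm)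
    a fun v k => by rw [hc.2.2, if_neg k, add_zero]

/-- The bounding function is constant along walks off the cycle. -/
lemma Pol.const (h : Pol I) {c : V → V → ZMod 2} {g : F → ZMod 2}
    (hg : ∀ u v A B, Sq I u v A B → g A + g B = c u v) {S : V → Prop}
    (hS : ∀ z u, S z → c z u = 0) {p q : V} (hp : S p) (k : Conn I S p q) (hA : I p A)
    (hB : I q B) : g A = g B := by
  have l : ∀ z, S z → ∀ A B, I z A → I z B → g A = g B := fun z hz A B h1 h2 =>
    (h.link z (fun C => g C = g A)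
      (fun u C D s k => (two_eq ((hg z u C D s).trans (hS z u hz))).symm.trans k) h1 h2 rfl).symm
  induction k generalizing B with
  | refl => exact l p hp A B hA hB
  | tail _ k ih =>
    obtain ⟨⟨C, D, s⟩, -, k⟩ := k
    exact (ih s.uA).trans (l _ k C B s.vA hB)

/-- A walk between the two faces of an edge meets every detour of the edge. -/
lemma Pol.cross (h : Pol I) (s : Sq I x y A B) {S N : V → Prop} {p q a b : V} (hx : ¬ N x)
    (hy : ¬ N y) (ha : N a) (e1 : Ed I x a) (k : Conn I N a b) (e2 : Ed I y b)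
    (hS : ∀ z, S z → ¬ (N z ∨ z = x ∨ z = y)) (hp : S p) (k' : Conn I S p q) (hA : I p A)
    (hB : I q B) : False := by
  classical
  obtain ⟨c, hc, -, c2⟩ := exists_chain_via hx hy s.1 ha e1 k e2
  have hc' := hc.add (chain_one ⟨s.symm.ed, by simp, by simp⟩)
  obtain ⟨g, g1⟩ := h.bound (fun _ _ e => e.1) hc'
  have := g1 x y A B s
  rw [h.const g1 (fun z u hz => hc'.2.1 z u (fun e => hS z hz e.2.1) fun e => hS z hz e.2.2)
    hp k' hA hB, Pi.add_apply, Pi.add_apply, c2 y fun e => hy (e ▸ ha)] at this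
  simp only [one, s.1, if_true, if_false, zero_add] at this
  revert this
  generalize g B = t
  decide +revert

/-- Three vertices cannot all be joined to three disjoint connected sets. -/
lemma Pol.k33 (h : Pol I) (S : Fin 3 → V → Prop) (w : Fin 3 → V) (hw : Function.Injective w)
    (hd : ∀ i j z, S i z → S j z → i = j) (hn : ∀ i j, ¬ S i (w j))
    (hc : ∀ i a b, S i a → S i b → Conn I (S i) a b) (he : ∀ i j, ∃ a, S i a ∧ Ed I (w j) a) :
    False := by
  classical
  choose a ha ea using he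
  choose c c1 c2 c3 using fun i => exists_chain_via (hn i 0) (hn i 1) (hw.ne (by decide))
    (ha i 0) (ea i 0) (hc i _ _ (ha i 0) (ha i 1)) (ea i 1)
  have an : ∀ i j, i ≠ j → a i 0 ≠ a j 0 := fun i j k e => k (hd i j _ (ha i 0) (e ▸ ha j 0))
  have ex : ∀ i j, ∃ g : F → ZMod 2, ∀ u v A B, Sq I u v A B → g A + g B = (c i + c j) u v :=
    fun i j => h.bound (R := Ed I) (fun _ _ e => e)
      (((c1 i).mono fun u v e => e.1).add ((c1 j).symm.mono fun u v e => e.1))
  have z0 : ∀ i k, k ≠ i → ∀ z u, S k z ∨ z = w 2 → c i z u = 0 := by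
    intro i k ki z u hz
    have : ¬ (S i z ∨ z = w 0 ∨ z = w 1) := by
      rcases hz with hz | rfl <;> rintro (e | e | e)
      · exact ki (hd _ _ z hz e)
      · exact hn k 0 (e ▸ hz)
      · exact hn k 1 (e ▸ hz)
      · exact hn i 2 e
      · exact absurd (hw e) (by decide)
      · exact absurd (hw e) (by decide)
    exact (c1 i).2.1 z u (fun e => this e.2.1) fun e => this e.2.2
  obtain ⟨O, hO⟩ := h.p.cover (w 2)
  have key : ∀ i j k, k ≠ i → k ≠ j → ∀ g : F → ZMod 2,
      (∀ u v A B, Sq I u v A B → g A + g B = (c i + c j) u v) →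
      ∀ B, I (a k 0) B → g O = g B := fun i j k ki kj g hg B hB =>
    h.const hg (S := fun z => S k z ∨ z = w 2)
      (fun z u hz => by rw [Pi.add_apply, Pi.add_apply, z0 i k ki z u hz, z0 j k kj z u hz, add_zero])
      (Or.inr rfl) (.head ⟨ea k 2, Or.inr rfl, Or.inl (ha k 2)⟩
        ((hc k _ _ (ha k 2) (ha k 0)).mono fun z => Or.inl)) hO hB
  obtain ⟨g₁, p1⟩ := ex 0 1
  obtain ⟨g₂, p2⟩ := ex 1 2
  have q1 := key 0 1 2 (by decide) (by decide) g₁ p1
  have q2 := key 1 2 0 (by decide) (by decide) g₂ p2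
  have q3 := key 0 2 1 (by decide) (by decide) (g₁ + g₂) fun u v A B s => by
    have e1 := p1 u v A B s
    have e2 := p2 u v A B s
    have e3 : c 1 u v + c 1 u v = 0 := CharTwo.add_self_eq_zero _
    simp only [Pi.add_apply] at e1 e2 ⊢
    linear_combination e1 + e2 + e3
  have fin : ∀ A B, Sq I (w 0) (a 0 0) A B → g₁ A ≠ g₁ O → g₁ B = g₁ O → False := by
    intro A B s hA hB
    obtain ⟨A', B', ⟨u, t⟩, k1, k2, k3⟩ := h.d.another
      (fun C => g₁ C ≠ g₁ O ∧ g₂ C = g₂ O) s.tr.ei ⟨hA, (q2 A s.vA).symm⟩ fun k => k.1 hB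
    have t := t.of_tr
    by_cases u0 : u = a 0 0
    · subst u0
      obtain rfl : A' = A := (h.p.eq_or s t.uA t.vA).resolve_right fun e => k1.1 (e ▸ hB)
      exact k3 ⟨rfl, h.p.other t s⟩
    by_cases u1 : u = a 1 0
    · have := q3 A' (u1 ▸ t.vA)
      simp only [Pi.add_apply, k1.2, add_left_inj] at this
      exact k1.1 this.symm
    by_cases u2 : u = a 2 0
    · exact k1.1 (q1 A' (u2 ▸ t.vA)).symm
    have e1 := p1 _ _ _ _ t
    have e2 := p2 _ _ _ _ t
    simp only [Pi.add_apply, c3 0 u u0, c3 1 u u1, c3 2 u u2, add_zero] at e1 e2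
    exact k2 (two_eq e1 ▸ two_eq e2 ▸ k1)
  obtain ⟨A, B, s⟩ := ea 0 0
  have e := p1 _ _ _ _ s
  simp only [Pi.add_apply, c2 0, c3 1 _ (an 0 1 (by decide)), add_zero] at e
  have : (g₁ A ≠ g₁ O ∧ g₁ B = g₁ O) ∨ (g₁ B ≠ g₁ O ∧ g₁ A = g₁ O) := by
    revert e
    generalize g₁ A = r, g₁ B = s, g₁ O = t
    decide +revert
  rcases this with k | k
  · exact fin A B s k.1 k.2
  · exact fin B A s.swap k.1 k.2

/-- A cut with both sides connected is a single dual cycle. -/
lemma Pol.bond (h : Pol I) (S : V → Prop) (h1 : ∀ a b, S a → S b → Conn I S a b)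
    (h2 : ∀ a b, ¬ S a → ¬ S b → Conn I (fun z => ¬ S z) a b) (Kr : V → V → Prop)
    (hK : ∀ a b, Kr a b → S a ∧ ¬ S b) (O : F)
    (all : ∀ A, A ≠ O → ∀ a b c d, Kr a b → Ei I A a b → Ei I A c d → S c → ¬ S d → Kr c d)
    {a b : V} (k0 : Kr a b) (e0 : Ed I a b) (e : Ed I x y) (hx : S x) (hy : ¬ S y) : Kr x y := by
  classical
  have uq : ∀ {a b c d A B}, Sq I a b A B → Sq I c d A B → S a → ¬ S b → S c → ¬ S d →
      a = c ∧ b = d := by
    intro a b c d A B s t k1 k2 k3 k4
    exact ⟨((h.d.mem_or s t.uA t.uB).resolve_right fun e => k2 (e ▸ k3)).symm,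
      ((h.d.mem_or s t.vA t.vB).resolve_left fun e => k4 (e ▸ k1)).symm⟩
  obtain ⟨g, hg⟩ := h.dual.exact_two
    (fun A B => if ∃ a b, Kr a b ∧ Sq I a b A B then 1 else 0)
    (fun A B => if_congr ⟨fun ⟨a, b, k, s⟩ => ⟨a, b, k, s.swap⟩,
      fun ⟨a, b, k, s⟩ => ⟨a, b, k, s.swap⟩⟩ rfl rfl)
    (fun A B k => if_neg fun ⟨a, b, _, s⟩ => k s.tr.ed) O fun A hA => by
      by_cases hn : ∃ a b, Kr a b ∧ Ei I A a b
      swap
      · exact sum_eq_zero fun B _ => if_neg fun ⟨a, b, k, s⟩ => hn ⟨a, b, k, s.ei⟩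
      obtain ⟨a, b, k, s⟩ := hn
      have e1 : ∀ B, (if ∃ a b, Kr a b ∧ Sq I a b A B then 1 else 0 : ZMod 2) =
          ∑ v, if Ei (tr I) v A B ∧ S v then 1 else 0 := by
        intro B
        by_cases k' : Ed (tr I) A B
        · obtain ⟨p, q, t⟩ := k'
          rw [h.d.sum_fc t _ fun z hz => if_neg fun k => hz k.1]
          simp only [t.ei, t.swap.ei, true_and]
          have t := t.of_tr
          have : (∃ a b, Kr a b ∧ Sq I a b A B) ↔ (S p ∧ ¬ S q) ∨ (S q ∧ ¬ S p) := by
            constructor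
            · rintro ⟨c, d, k, r⟩
              obtain ⟨k1, k2⟩ := hK c d k
              rcases h.d.mem_or t r.uA r.uB with rfl | rfl <;>
                rcases h.d.mem_or t r.vA r.vB with rfl | rfl <;> tauto
            · rintro (k' | k')
              · exact ⟨p, q, all A hA a b p q k s t.ei k'.1 k'.2, t⟩
              · exact ⟨q, p, all A hA a b q p k s t.symm.ei k'.1 k'.2, t.symm⟩
          rw [if_congr this rfl rfl]
          by_cases hp : S p <;> by_cases hq : S q <;> simp [hp, hq]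
          rfl
        · rw [if_neg fun ⟨a, b, _, s⟩ => k' s.tr.ed]
          exact (sum_eq_zero fun v _ => if_neg fun k => k' k.1.ed).symm
      simp only [e1]
      rw [sum_comm]
      refine sum_eq_zero fun v _ => ?_
      by_cases hv : I v A
      · obtain ⟨B, C, p, q, hBC, sp, sq⟩ := h.d.two A v hv
        rw [h.d.sum_ei sp.ei sq.ei hBC _ fun z hz => if_neg fun k => hz k.1]
        simp only [sp.ei, sq.ei, true_and]
        split_ifs <;> rfl
      · exact sum_eq_zero fun B _ => if_neg fun k => hv k.1.fst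
  have cst : ∀ T : V → Prop, (∀ a b, Kr a b → ¬ (T a ∧ T b)) → ∀ a b, Conn I T a b → g a = g b := by
    intro T hT a b k
    induction k with
    | refl => rfl
    | tail _ k ih =>
      obtain ⟨⟨A, B, s⟩, k1, k2⟩ := k
      refine ih.trans (two_eq ((hg A B _ _ s.tr).trans (if_neg ?_)))
      rintro ⟨c, d, k, r⟩
      refine hT c d k ⟨?_, ?_⟩
      · rcases h.d.mem_or s r.uA r.uB with rfl | rfl <;> assumption
      · rcases h.d.mem_or s r.vA r.vB with rfl | rfl <;> assumption
  obtain ⟨A, B, s⟩ := e0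
  obtain ⟨C, D, t⟩ := e
  have e1 := hg A B _ _ s.tr
  have e2 := hg C D _ _ t.tr
  rw [if_pos ⟨a, b, k0, s⟩, cst S (fun a b k e => (hK a b k).2 e.2) a x (h1 _ _ (hK a b k0).1 hx),
    cst (fun z => ¬ S z) (fun a b k e => e.1 (hK a b k).1) b y (h2 _ _ (hK a b k0).2 hy), e2] at e1
  split_ifs at e1 with k
  · obtain ⟨c, d, k, r⟩ := k
    obtain ⟨rfl, rfl⟩ := uq r t (hK c d k).1 (hK c d k).2 hx hy
    exact k
  · exact absurd e1 (by decide)

end Pool.Agent.P.MP_e40812_co.St
end

-- part Pool.Agent.P.MP_e40812_co.StTutte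
section

/-!
Harmonic functions on a polyhedral map with a triangular outer face (Tutte embedding).
-/

namespace Pool.Agent.P.MP_e40812_co.St

open Finset

variable {V F : Type*} [Fintype V] (I : V → F → Prop)

/-- The face `O` is the triangle with vertices `a 0, a 1, a 2`. -/
structure Out (O : F) (a : Fin 3 → V) : Prop where
  inj : Function.Injective a
  mem : ∀ v, I v O ↔ ∃ i, v = a i

open Classical in
/-- Harmonic at all vertices off the face `O`. -/
def Harm (O : F) (φ : V → ℝ) : Prop :=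
  ∀ v, ¬ I v O → ∑ u, (if Ed I v u then φ u - φ v else 0) = 0

variable {I} {O A B : F} {a : Fin 3 → V} {φ ψ : V → ℝ} {u v w x y : V}

lemma Harm.lin (h1 : Harm I O φ) (h2 : Harm I O ψ) (r s t : ℝ) :
    Harm I O fun v => r + s * φ v + t * ψ v := by
  classical
  intro v hv
  have e : ∀ u, (if Ed I v u then r + s * φ u + t * ψ u - (r + s * φ v + t * ψ v) else 0) =
      s * (if Ed I v u then φ u - φ v else 0) + t * (if Ed I v u then ψ u - ψ v else 0) := by
    intro u
    split_ifs <;> ring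
  simp only [e, sum_add_distrib, ← mul_sum, h1 v hv, h2 v hv, mul_zero, add_zero]

lemma Harm.neg (h : Harm I O φ) : Harm I O fun v => -φ v := by
  convert h.lin h 0 (-1) 0 using 2
  ring

lemma Harm.eq_of_le (h : Harm I O φ) (hv : ¬ I v O) (k : ∀ u, Ed I v u → φ u ≤ φ v)
    (e : Ed I v u) : φ u = φ v := by
  classical
  have := (sum_eq_zero_iff_of_nonpos fun z _ => by
    split_ifs with k'
    · exact sub_nonpos.2 (k z k')
    · exact le_rfl).1 (h v hv) u (mem_univ _)
  rwa [if_pos e, sub_eq_zero] at this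

lemma Harm.up_of_ne (h : Harm I O φ) (hv : ¬ I v O) (e : Ed I v u) (k : φ u ≠ φ v) :
    ∃ z, Ed I v z ∧ φ v < φ z := by
  by_contra hn
  push Not at hn
  exact k (h.eq_of_le hv hn e)

omit [Fintype V] in
lemma Out.ei (T : Out I O a) (h : Loc I) {i j : Fin 3} (k : i ≠ j) : Ei I O (a i) (a j) := by
  obtain ⟨p, q, B, C, hpq, sp, sq⟩ := h.two (a i) O ((T.mem _).2 ⟨i, rfl⟩)
  obtain ⟨l, rfl⟩ := (T.mem _).1 sp.vA
  obtain ⟨m, rfl⟩ := (T.mem _).1 sq.vA
  have h1 : i ≠ l := fun e => sp.1 (e ▸ rfl)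
  have h2 : i ≠ m := fun e => sq.1 (e ▸ rfl)
  have h3 : l ≠ m := fun e => hpq (e ▸ rfl)
  obtain rfl | rfl : j = l ∨ j = m := by omega
  · exact sp.ei
  · exact sq.ei

variable [Fintype F]

/-- From every vertex one can walk to the outer face without going down. -/
lemma Harm.up (h : Pol I) (T : Out I O a) (H : Harm I O φ) (v : V) :
    ∃ i, Conn I (fun z => φ v ≤ φ z) v (a i) := by
  classical
  by_contra hn
  push Not at hn
  obtain ⟨m, hm, hm'⟩ := exists_max_image (univ.filter (Conn I (fun z => φ v ≤ φ z) v)) φ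
    ⟨v, mem_filter.2 ⟨mem_univ _, .refl⟩⟩
  simp only [mem_filter, mem_univ, true_and] at hm hm'
  refine hn 0 (h.conn (fun z => Conn I (fun z => φ v ≤ φ z) v z ∧ φ z = φ m) ?_ m _ ⟨hm, rfl⟩).1
  intro p q e ⟨k1, k2⟩
  have hp : φ v ≤ φ p := k1.mem le_rfl
  have := H.eq_of_le (fun k => by
    obtain ⟨i, rfl⟩ := (T.mem p).1 k
    exact hn i k1) (fun z e' => by
    by_cases k : φ v ≤ φ z
    · exact k2 ▸ hm' z (k1.tail ⟨e', hp, k⟩)
    · linarith) e
  exact ⟨k1.tail ⟨e, hp, hp.trans this.ge⟩, this.trans k2⟩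

lemma Harm.le (h : Pol I) (T : Out I O a) (H : Harm I O φ) {c : ℝ} (k : ∀ i, φ (a i) ≤ c)
    (v : V) : φ v ≤ c := by
  obtain ⟨i, hi⟩ := H.up h T v
  exact (hi.mem le_rfl).trans (k i)

lemma Harm.zero (h : Pol I) (T : Out I O a) (H : Harm I O φ) (k : ∀ i, φ (a i) = 0)
    (v : V) : φ v = 0 :=
  le_antisymm (H.le h T (fun i => (k i).le) v)
    (neg_nonpos.1 (H.neg.le h T (fun i => by simp [k i]) v))

lemma exists_harm (h : Pol I) (T : Out I O a) (b : V → ℝ) :
    ∃ φ, Harm I O φ ∧ ∀ i, φ (a i) = b (a i) := by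
  classical
  let L : (V → ℝ) →ₗ[ℝ] (V → ℝ) :=
    { toFun := fun f v => if I v O then f v else ∑ u, if Ed I v u then f u - f v else 0
      map_add' := fun f g => funext fun v => by
        simp only [Pi.add_apply]
        split_ifs
        · rfl
        · rw [← sum_add_distrib]
          refine sum_congr rfl fun u _ => ?_
          split_ifs <;> ring
      map_smul' := fun c f => funext fun v => by
        simp only [Pi.smul_apply, smul_eq_mul, RingHom.id_apply]
        split_ifs
        · rfl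
        · rw [mul_sum]
          refine sum_congr rfl fun u _ => ?_
          split_ifs <;> ring }
  have hL : Function.Injective L := by
    rw [injective_iff_map_eq_zero]
    intro f hf
    funext v
    refine Harm.zero h T (fun z hz => ?_) (fun i => ?_) v
    · simpa only [L, LinearMap.coe_mk, AddHom.coe_mk, Pi.zero_apply, if_neg hz]
        using congrFun hf z
    · simpa only [L, LinearMap.coe_mk, AddHom.coe_mk, Pi.zero_apply,
        if_pos ((T.mem _).2 ⟨i, rfl⟩)]
        using congrFun hf (a i)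
  obtain ⟨f, hf⟩ := LinearMap.injective_iff_surjective.1 hL fun v => if I v O then b v else 0
  refine ⟨f, fun z hz => ?_, fun i => ?_⟩
  · simpa only [L, LinearMap.coe_mk, AddHom.coe_mk, Pi.zero_apply, if_neg hz]
        using congrFun hf z
  · simpa only [L, LinearMap.coe_mk, AddHom.coe_mk, Pi.zero_apply,
        if_pos ((T.mem _).2 ⟨i, rfl⟩)]
      using congrFun hf (a i)

/-- Upper level sets are connected. -/
lemma Harm.conn (h : Pol I) (T : Out I O a) (H : Harm I O φ) (U : ℝ → Prop)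
    (hU : ∀ r s, U r → r ≤ s → U s) (hu : U (φ u)) (hv : U (φ v)) :
    Conn I (fun z => U (φ z)) u v := by
  obtain ⟨i, hi⟩ := H.up h T u
  obtain ⟨j, hj⟩ := H.up h T v
  have hi := hi.mono fun z k => hU _ _ hu k
  have hj := hj.mono fun z k => hU _ _ hv k
  refine hi.trans (.trans ?_ hj.symm)
  by_cases k : i = j
  · exact k ▸ .refl
  · exact .single ⟨(T.ei h.p.toLoc k).ed, hi.mem hu, hj.mem hv⟩

lemma Harm.conn_pos (h : Pol I) (T : Out I O a) (H : Harm I O φ) (hu : 0 < φ u) (hv : 0 < φ v) :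
    Conn I (fun z => 0 < φ z) u v := H.conn h T (0 < ·) (fun _ _ => lt_of_lt_of_le) hu hv

lemma Harm.conn_neg (h : Pol I) (T : Out I O a) (H : Harm I O φ) (hu : φ u < 0) (hv : φ v < 0) :
    Conn I (fun z => φ z < 0) u v :=
  (H.neg.conn_pos h T (neg_pos.2 hu) (neg_pos.2 hv)).mono fun _ => neg_pos.1

lemma Harm.corner (h : Pol I) (T : Out I O a) (H : Harm I O φ) (hv : I v O) (k : φ v = 0)
    (hw : 0 < φ w) : ∃ u, Ed I v u ∧ 0 < φ u := by
  obtain ⟨i, rfl⟩ := (T.mem v).1 hv
  obtain ⟨j, hj⟩ := H.up h T w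
  have := hw.trans_le (hj.mem le_rfl)
  exact ⟨a j, (T.ei h.p.toLoc fun e => by simp [← e, k] at this).ed, this⟩

/-- No vertex is degenerate. -/
lemma Harm.nondeg (h : Pol I) (T : Out I O a) (H : Harm I O φ) (hw : φ w ≠ 0) (k : φ v = 0) :
    ∃ u, Ed I v u ∧ φ u ≠ 0 := by
  classical
  by_contra hn
  push Not at hn
  let D : V → Prop := fun z => φ z = 0 ∧ ∀ u, Ed I z u → φ u = 0
  let S : V → Prop := Conn I D v
  have SD : ∀ z, S z → D z := fun z e => e.mem ⟨k, hn⟩
  let W : Finset V := univ.filter fun z => ¬ S z ∧ ∃ b, S b ∧ Ed I z b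
  have mW : ∀ z, z ∈ W ↔ ¬ S z ∧ ∃ b, S b ∧ Ed I z b := by simp [W]
  have W0 : ∀ z ∈ W, φ z = 0 := fun z hz => by
    obtain ⟨-, b, k1, k2⟩ := (mW z).1 hz
    exact (SD b k1).2 z k2.symm
  have W1 : ∀ z ∈ W, ∃ u, Ed I z u ∧ φ u ≠ φ z := fun z hz => by
    obtain ⟨k0, b, k1, k2⟩ := (mW z).1 hz
    by_contra hn
    push Not at hn
    exact k0 (k1.tail ⟨k2.symm, SD b k1, W0 z hz, fun u e => (hn u e).trans (W0 z hz)⟩)
  have step : ∀ p q, Ed I p q → S p → S q ∨ q ∈ W := fun p q e k => by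
    by_cases k' : S q
    · exact Or.inl k'
    · exact Or.inr ((mW q).2 ⟨k', p, k, e.symm⟩)
  have h3 : 2 < W.card := by
    by_contra hc
    have hne : W.Nonempty := by
      by_contra h0
      exact hw (SD w (h.conn S (fun p q e k => (step p q e k).resolve_right
        fun k' => h0 ⟨q, k'⟩) v w .refl)).1
    obtain ⟨x, y, hx, hy, e⟩ : ∃ x y, x ∈ W ∧ y ∈ W ∧ ∀ z ∈ W, z = x ∨ z = y := by
      obtain ⟨x, hx⟩ := hne
      by_cases k : ∃ y ∈ W, y ≠ x
      · obtain ⟨y, hy, k⟩ := k
        refine ⟨x, y, hx, hy, fun z hz => ?_⟩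
        by_contra k'
        push Not at k'
        exact hc (two_lt_card_iff.2 ⟨x, y, z, hx, hy, hz, k.symm, k'.1.symm, k'.2.symm⟩)
      · push Not at k
        exact ⟨x, x, hx, hx, fun z hz => Or.inl (k z hz)⟩
    rcases h.three_conn S ((mW x).1 hx).1 ((mW y).1 hy).1
      (fun p q e' k => (step p q e' k).imp_right (e q)) (u := v) .refl w with k | rfl | rfl
    · exact hw (SD w k).1
    · exact hw (W0 _ hx)
    · exact hw (W0 _ hy)
  obtain ⟨p, q, r, hp, hq, hr, hpq, hpr, hqr⟩ := two_lt_card_iff.1 h3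
  have hz : ∀ j, ![p, q, r] j ∈ W := fun j => by fin_cases j <;> assumption
  have hi : Function.Injective ![p, q, r] := by
    intro i j e
    fin_cases i <;> fin_cases j <;> simp_all
  have both : (∃ z, 0 < φ z) ∧ ∃ z, φ z < 0 := by
    by_cases k : ∃ z ∈ W, ¬ I z O
    · obtain ⟨z, k1, k2⟩ := k
      obtain ⟨u, e, k3⟩ := W1 z k1
      obtain ⟨b, -, hb⟩ := H.up_of_ne k2 e k3
      obtain ⟨c, -, hc⟩ := H.neg.up_of_ne k2 e (neg_injective.ne k3)
      exact ⟨⟨b, W0 z k1 ▸ hb⟩, c, W0 z k1 ▸ neg_lt_neg_iff.1 hc⟩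
    · push Not at k
      choose f hf using fun j => (T.mem _).1 (k _ (hz j))
      have : Function.Injective f := fun i j e => hi (by rw [hf, hf, e])
      refine absurd (H.zero h T (fun i => ?_) w) hw
      obtain ⟨j, rfl⟩ := Finite.injective_iff_surjective.1 this i
      exact hf j ▸ W0 _ (hz j)
  have nb : ∀ ψ, Harm I O ψ → (∃ z, 0 < ψ z) → ∀ z, ψ z = 0 → (∃ u, Ed I z u ∧ ψ u ≠ ψ z) →
      ∃ u, 0 < ψ u ∧ Ed I z u := by
    intro ψ G ⟨b, hb⟩ z k ⟨u, e, k'⟩
    by_cases hz : I z O
    · exact (G.corner h T hz k hb).imp fun _ => And.symm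
    · exact (G.up_of_ne hz e k').imp fun _ t => ⟨k ▸ t.2, t.1⟩
  refine h.k33 ![fun z => 0 < φ z, fun z => φ z < 0, S] _ hi ?_ ?_ ?_ ?_
  · intro i j z h1 h2
    fin_cases i <;> fin_cases j <;> simp at h1 h2 ⊢ <;>
      first | linarith | linarith [(SD z h1).1] | linarith [(SD z h2).1]
  · intro i j
    fin_cases i
    · exact (W0 _ (hz j)).not_gt
    · exact (W0 _ (hz j)).not_lt
    · exact ((mW _).1 (hz j)).1
  · intro i b c h1 h2
    fin_cases i
    · exact H.conn_pos h T h1 h2
    · exact H.conn_neg h T h1 h2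
    · have : ∀ z, S z → Conn I S v z := fun z e => by
        induction e with
        | refl => exact .refl
        | tail k1 k2 ih => exact ih.tail ⟨k2.1, k1, .tail k1 k2⟩
      exact (this b h1).symm.trans (this c h2)
  · intro i j
    fin_cases i
    · exact nb φ H both.1 _ (W0 _ (hz j)) (W1 _ (hz j))
    · obtain ⟨u, k1, k2⟩ := nb _ H.neg (both.2.imp fun _ => neg_pos.2) _
        (neg_eq_zero.2 (W0 _ (hz j))) ((W1 _ (hz j)).imp fun _ t => ⟨t.1, neg_injective.ne t.2⟩)
      exact ⟨u, neg_pos.1 k1, k2⟩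
    · exact ((mW _).1 (hz j)).2

lemma Harm.inner (h : Pol I) (T : Out I O a) (H : Harm I O φ) (hw : φ w ≠ 0) (k : φ v = 0)
    (hv : ¬ I v O) : ∃ u, Ed I v u ∧ 0 < φ u := by
  obtain ⟨u, e, k'⟩ := H.nondeg h T hw k
  exact k ▸ H.up_of_ne hv e (k ▸ k')

lemma Harm.pos_nbr (h : Pol I) (T : Out I O a) (H : Harm I O φ) (hw : 0 < φ w) (k : φ v = 0) :
    ∃ u, Ed I v u ∧ 0 < φ u := by
  by_cases hv : I v O
  · exact H.corner h T hv k hw
  · exact H.inner h T hw.ne' k hv

lemma Harm.pos (h : Pol I) (T : Out I O a) (H : Harm I O φ) (hw : φ w ≠ 0)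
    (k : ∀ i, 0 ≤ φ (a i)) (hv : ¬ I v O) : 0 < φ v := by
  have h0 := H.neg.le h T (c := 0) fun i => neg_nonpos.2 (k i)
  refine lt_of_le_of_ne (neg_nonpos.1 (h0 v)) fun e => ?_
  obtain ⟨u, -, k'⟩ := H.neg.inner h T (neg_ne_zero.2 hw) (neg_eq_zero.2 e.symm) hv
  exact (h0 u).not_gt k'

/-- The two faces of an inner edge lie on different sides. -/
lemma Harm.opp (h : Pol I) (T : Out I O a) (H : Harm I O φ) (hw : φ w ≠ 0) (s : Sq I x y A B)
    (hn : ¬ (I x O ∧ I y O)) (hx : φ x = 0) (hy : φ y = 0) {c d : V} (hc : I c A) (hd : I d B)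
    (c1 : c ≠ x) (c2 : c ≠ y) (d1 : d ≠ x) (d2 : d ≠ y) : φ c * φ d < 0 := by
  have key : ∀ φ, Harm I O φ → φ w ≠ 0 → φ x = 0 → φ y = 0 → 0 ≤ φ c → 0 ≤ φ d → False := by
    intro φ H hw hx hy k1 k2
    obtain ⟨⟨p, hp⟩, q, hq⟩ : (∃ z, 0 < φ z) ∧ ∃ z, 0 < -φ z := by
      obtain ⟨z, k, k'⟩ : ∃ z, φ z = 0 ∧ ¬ I z O := by
        by_cases k : I x O
        · exact ⟨y, hy, fun k' => hn ⟨k, k'⟩⟩
        · exact ⟨x, hx, k⟩
      exact ⟨(H.inner h T hw k k').imp fun _ => And.right,
        (H.neg.inner h T (neg_ne_zero.2 hw) (neg_eq_zero.2 k) k').imp fun _ => And.right⟩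
    obtain ⟨x', e1, h1⟩ := H.neg.pos_nbr h T hq (neg_eq_zero.2 hx)
    obtain ⟨y', e2, h2⟩ := H.neg.pos_nbr h T hq (neg_eq_zero.2 hy)
    have l : ∀ z, z = c ∨ z = d → 0 ≤ φ z → Conn I (fun z => 0 < φ z ∨ z = c ∨ z = d) z p := by
      intro z hz k
      rcases k.eq_or_lt with k | k
      · obtain ⟨u, e, k'⟩ := H.pos_nbr h T hp k.symm
        exact .head ⟨e, Or.inr hz, Or.inl k'⟩ ((H.conn_pos h T k' hp).mono fun _ => Or.inl)
      · exact (H.conn_pos h T k hp).mono fun _ => Or.inl
    refine h.cross s (N := fun z => 0 < -φ z) (by simp [hx]) (by simp [hy]) h1 e1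
      (H.neg.conn_pos h T h1 h2) e2 ?_ (Or.inr (Or.inl rfl))
      ((l c (Or.inl rfl) k1).trans (l d (Or.inr rfl) k2).symm) hc hd
    rintro z (k | rfl | rfl) (k' | rfl | rfl) <;> first | contradiction | linarith
  by_contra hh
  rcases mul_nonneg_iff.1 (not_lt.1 hh) with k | k
  · exact key φ H hw hx hy k.1 k.2
  · exact key _ H.neg (neg_ne_zero.2 hw) (neg_eq_zero.2 hx) (neg_eq_zero.2 hy)
      (neg_nonneg.2 k.1) (neg_nonneg.2 k.2)

end Pool.Agent.P.MP_e40812_co.St
end

-- part Pool.Agent.P.MP_e40812_co.StLift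
section

/-!
Orientation of the Tutte embedding and the Maxwell-Cremona lift.
-/

namespace Pool.Agent.P.MP_e40812_co.St

open Finset

variable {V F : Type*} [Fintype V] (I : V → F → Prop)

/-- The two coordinates of the Tutte embedding. -/
structure Tut (O : F) (a : Fin 3 → V) (α β : V → ℝ) : Prop extends Out I O a where
  hα : Harm I O α
  hβ : Harm I O β
  vα : ∀ i, α (a i) = if i = 1 then 1 else 0
  vβ : ∀ i, β (a i) = if i = 2 then 1 else 0

/-- Twice the oriented area of a triangle. -/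
def Dt (α β : V → ℝ) (u v w : V) : ℝ :=
  (α v - α u) * (β w - β u) - (β v - β u) * (α w - α u)

variable {I} {O A B : F} {a : Fin 3 → V} {α β : V → ℝ} {u v w x y c d : V}

omit [Fintype V] in
@[simp] lemma dt_left : Dt α β u v u = 0 := by simp [Dt]

omit [Fintype V] in
@[simp] lemma dt_right : Dt α β u v v = 0 := by unfold Dt; ring

lemma Tut.harm (T : Tut I O a α β) (u v : V) : Harm I O (Dt α β u v) := by
  convert T.hα.lin T.hβ ((β v - β u) * α u - (α v - α u) * β u) (-(β v - β u)) (α v - α u) using 2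
  unfold Dt
  ring

lemma Tut.dt_ne (T : Tut I O a α β) (k : ¬ (α u = α v ∧ β u = β v)) :
    ∃ w, Dt α β u v w ≠ 0 := by
  by_contra hn
  push Not at hn
  have h0 := hn (a 0)
  have h1 := hn (a 1)
  have h2 := hn (a 2)
  simp [Dt, T.vα, T.vβ] at h0 h1 h2
  exact k ⟨by linarith, by linarith⟩

lemma pm {s t x y : ℝ} (hs : s * s = 1) (ht : t * t = 1) (h1 : 0 < s * x) (h2 : 0 < t * y)
    (h : x * y < 0) : s + t = 0 := by
  rcases mul_self_eq_one_iff.1 hs with rfl | rfl <;>
    rcases mul_self_eq_one_iff.1 ht with rfl | rfl <;> nlinarith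

variable [Fintype F]

lemma exists_tut (h : Pol I) (T : Out I O a) : ∃ α β, Tut I O a α β := by
  classical
  obtain ⟨α, h1, h2⟩ := exists_harm h T fun v => if v = a 1 then 1 else 0
  obtain ⟨β, h3, h4⟩ := exists_harm h T fun v => if v = a 2 then 1 else 0
  exact ⟨α, β, T, h1, h3, fun i => by simp [h2, T.inj.eq_iff], fun i => by simp [h4, T.inj.eq_iff]⟩

lemma Tut.side_in (T : Tut I O a α β) (h : Pol I) (s : Sq I x y A B) (hn : ¬ (I x O ∧ I y O))
    (hc : I c A) (hd : I d B) (c1 : c ≠ x) (c2 : c ≠ y) (d1 : d ≠ x) (d2 : d ≠ y) :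
    Dt α β x y c * Dt α β x y d < 0 := by
  by_cases k : α x = α y ∧ β x = β y
  swap
  · obtain ⟨w, hw⟩ := T.dt_ne k
    exact (T.harm x y).opp h T.toOut hw s hn dt_left dt_right hc hd c1 c2 d1 d2
  exfalso
  by_cases k' : α x = α c ∧ β x = β c
  · obtain ⟨w, hw⟩ : ∃ w, -α x + 1 * α w + 0 * β w ≠ 0 := by
      by_contra hn
      push Not at hn
      have h0 := hn (a 0)
      have h1 := hn (a 1)
      simp [T.vα] at h0 h1
      linarith
    have := (T.hα.lin T.hβ (-α x) 1 0).opp h T.toOut hw s hn (by simp) (by simp [k.1]) hc hd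
      c1 c2 d1 d2
    simp [k'.1] at this
  · obtain ⟨w, hw⟩ := T.dt_ne k'
    have := (T.harm x c).opp h T.toOut hw s hn dt_left (by simp [Dt, k.1, k.2]) hc hd c1 c2 d1 d2
    simp at this

lemma Tut.side_out (T : Tut I O a α β) (h : Pol I) (hx : I x O) (hy : I y O) (hxy : x ≠ y)
    (c1 : c ≠ x) (c2 : c ≠ y) (d1 : d ≠ x) (d2 : d ≠ y) :
    0 < Dt α β x y c * Dt α β x y d := by
  obtain ⟨i, rfl⟩ := (T.mem x).1 hx
  obtain ⟨j, rfl⟩ := (T.mem y).1 hy
  have hij : i ≠ j := fun e => hxy (e ▸ rfl)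
  obtain ⟨k, hk, e⟩ : ∃ k, (∀ l, l = i ∨ l = j ∨ l = k) ∧ Dt α β (a i) (a j) (a k) ≠ 0 := by
    refine ⟨-(i + j), (by decide : ∀ i j : Fin 3, i ≠ j → ∀ l, l = i ∨ l = j ∨ l = -(i + j))
      i j hij, ?_⟩
    fin_cases i <;> fin_cases j <;> simp at hij <;> simp +decide [Dt, T.vα, T.vβ]
  have e2 := mul_self_pos.2 e
  have H := (T.harm (a i) (a j)).lin T.hα 0 (Dt α β (a i) (a j) (a k)) 0
  simp only [zero_add, zero_mul, add_zero] at H
  have key : ∀ z, z ≠ a i → z ≠ a j → 0 < Dt α β (a i) (a j) (a k) * Dt α β (a i) (a j) z := by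
    intro z z1 z2
    by_cases hz : I z O
    · obtain ⟨l, rfl⟩ := (T.mem z).1 hz
      rcases hk l with rfl | rfl | rfl
      · exact absurd rfl z1
      · exact absurd rfl z2
      · exact e2
    · refine Harm.pos (φ := fun v => Dt α β (a i) (a j) (a k) * Dt α β (a i) (a j) v) (w := a k)
        h T.toOut H e2.ne' (fun l => ?_) hz
      rcases hk l with rfl | rfl | rfl
      · simp
      · simp
      · exact e2.le
  have := mul_pos (key c c1 c2) (key d d1 d2)
  by_contra hn
  nlinarith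

omit [Fintype V] [Fintype F] in
lemma Loc.third (h : Loc I) (s : Ei I A u v) : ∃ w, I w A ∧ w ≠ u ∧ w ≠ v := by
  obtain ⟨w, k, e⟩ := h.next s
  exact ⟨w, e.snd, e.ne.symm, k⟩

omit [Fintype V] [Fintype F] in
lemma Loc.inner (h : Loc I) (s : Sq I u v A B) (hA : A ≠ O) (hB : B ≠ O) : ¬ (I u O ∧ I v O) :=
  fun k => (h.eq_or s k.1 k.2).elim hA.symm hB.symm

lemma Tut.orient (T : Tut I O a α β) (h : Pol I) : ∃ σ : V → V → F → ℝ, Sig I σ ∧
    ∀ A u v w, A ≠ O → Ei I A u v → I w A → w ≠ u → w ≠ v → 0 < σ u v A * Dt α β u v w := by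
  classical
  obtain ⟨ε, hε⟩ : ∃ ε : F → ℝ, ε = fun A => if A = O then -1 else 1 := ⟨_, rfl⟩
  have ε2 : ∀ A, ε A * ε A = 1 := fun A => by
    simp only [hε]
    split_ifs <;> norm_num
  obtain ⟨σ, hσ⟩ : ∃ σ : V → V → F → ℝ, σ = fun u v A => if Ei I A u v then
    if ∃ w, I w A ∧ 0 < ε A * Dt α β u v w then 1 else -1 else 0 := ⟨_, rfl⟩
  have same : ∀ A u v c d, Ei I A u v → I c A → I d A → c ≠ u → c ≠ v → d ≠ u → d ≠ v →
      0 < Dt α β u v c * Dt α β u v d := by
    intro A u v c d ⟨B, s⟩ hc hd c1 c2 d1 d2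
    by_cases k : I u O ∧ I v O
    · exact T.side_out h k.1 k.2 s.1 c1 c2 d1 d2
    · obtain ⟨e, he, e1, e2⟩ := h.p.third s.swap.ei
      have h1 := T.side_in h s k hc he c1 c2 e1 e2
      have h2 := T.side_in h s k hd he d1 d2 e1 e2
      have := mul_pos_of_neg_of_neg h1 h2
      by_contra hn
      nlinarith [mul_self_nonneg (Dt α β u v e)]
  have sq : ∀ u v A, Ei I A u v → σ u v A * σ u v A = 1 := fun u v A k => by
    simp only [hσ, k, if_true]
    split_ifs <;> norm_num
  have key : ∀ A u v w, Ei I A u v → I w A → w ≠ u → w ≠ v →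
      0 < σ u v A * (ε A * Dt α β u v w) := by
    intro A u v w k hw w1 w2
    simp only [hσ, k, if_true]
    split_ifs with k'
    · obtain ⟨z, hz, k'⟩ := k'
      have := same A u v w z k hw hz w1 w2 (fun e => by simp [e] at k') fun e => by simp [e] at k'
      by_contra hn
      have e := ε2 A
      have : 0 < (ε A * Dt α β u v w) * (ε A * Dt α β u v z) := by nlinarith
      nlinarith
    · push Not at k'
      have h1 := k' w hw
      have h2 := same A u v w w k hw hw w1 w2 w1 w2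
      have e := ε2 A
      have : 0 < (ε A * Dt α β u v w) * (ε A * Dt α β u v w) := by nlinarith
      rcases h1.eq_or_lt with h1 | h1
      · simp [h1] at this
      · linarith
  have neg : ∀ {s x y : ℝ}, 0 < s * x → y = -x → x * y < 0 := by
    rintro s x y k rfl
    have : x ≠ 0 := fun e => by simp [e] at k
    nlinarith [mul_self_pos.2 this]
  refine ⟨σ, ⟨fun u v A => ?_, fun u v A k => by simp only [hσ, k, if_false], sq,
    fun u v A B s => ?_, fun v u w A k1 k2 k => ?_⟩, fun A u v w hA k hw w1 w2 => ?_⟩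
  · by_cases k : Ei I A u v
    · obtain ⟨w, hw, w1, w2⟩ := h.p.third k
      have h1 := key A u v w k hw w1 w2
      exact eq_neg_of_add_eq_zero_left (pm (sq _ _ _ k) (sq _ _ _ k.symm) h1
        (key A v u w k.symm hw w2 w1) (neg h1 (by unfold Dt; ring)))
    · have k' : ¬ Ei I A v u := fun e => k e.symm
      simp only [hσ, k, k', if_false, neg_zero]
  · obtain ⟨c, hc, c1, c2⟩ := h.p.third s.ei
    obtain ⟨d, hd, d1, d2⟩ := h.p.third s.swap.ei
    refine pm (sq _ _ _ s.ei) (sq _ _ _ s.swap.ei) (key A u v c s.ei hc c1 c2)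
      (key B u v d s.swap.ei hd d1 d2) ?_
    by_cases k : I u O ∧ I v O
    · have := T.side_out h k.1 k.2 s.1 c1 c2 d1 d2
      rcases h.p.eq_or s k.1 k.2 with rfl | rfl
      · simpa [hε, s.2.1.symm] using this
      · simpa [hε, s.2.1] using this
    · have hA : A ≠ O := fun e => k (e ▸ ⟨s.uA, s.vA⟩)
      have hB : B ≠ O := fun e => k (e ▸ ⟨s.uB, s.vB⟩)
      simpa [hε, hA, hB] using T.side_in h s k hc hd c1 c2 d1 d2
  · have h1 := key A v u w k1 k2.snd k2.ne.symm k.symm
    exact pm (sq _ _ _ k1) (sq _ _ _ k2) h1 (key A v w u k2 k1.snd k1.ne.symm k)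
      (neg h1 (by unfold Dt; ring))
  · simpa [hε, hA] using key A u v w k hw w1 w2

lemma Out.exact (T : Out I O a) (h : Pol I) {σ : V → V → F → ℝ} (hσ : Sig I σ) (f : V → V → ℝ)
    (f1 : ∀ u v, f u v = -f v u)
    (f3 : ∀ v, ¬ I v O → ∑ u, (open Classical in if Ed I v u then f v u else 0) = 0) :
    ∃ g : F → ℝ, ∀ u v A B, Sq I u v A B → ¬ (I u O ∧ I v O) → g A - g B = σ u v A * f u v := by
  classical
  let s : V → V → V → V → ℝ := fun p q u v =>
    (if u = p then if v = q then 1 else 0 else 0) - if u = q then if v = p then 1 else 0 else 0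
  have s1 : ∀ p q u v, s p q u v = -s p q v u := fun p q u v => by
    simp only [s, neg_sub]
    congr 1 <;> split_ifs <;> rfl
  have s2 : ∀ i j u v, i ≠ j → ¬ Ei I O u v → s (a i) (a j) u v = 0 := fun i j u v k k' => by
    have e := T.ei h.p.toLoc k
    have l : ∀ p q, Ei I O p q → (if u = p then if v = q then 1 else 0 else 0 : ℝ) = 0 := by
      intro p q e
      split_ifs with a1 a2
      · exact absurd (a1 ▸ a2 ▸ e) k'
      all_goals rfl
    simp only [s, l _ _ e, l _ _ e.symm, sub_self]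
  have s3 : ∀ p q v, ∑ u, s p q v u = (if v = p then 1 else 0) - if v = q then 1 else 0 := by
    intro p q v
    simp only [s, sum_sub_distrib]
    congr 1 <;> split_ifs <;> simp
  obtain ⟨r, hr⟩ : ∃ r : V → ℝ, r = fun v => ∑ u, if Ed I v u then f v u else 0 := ⟨_, rfl⟩
  let c : V → V → ℝ := fun u v => (if Ed I u v then f u v else 0) +
    (r (a 1) * s (a 0) (a 1) u v + r (a 2) * s (a 0) (a 2) u v)
  have c1 : ∀ u v, c u v = -c v u := fun u v => by
    simp only [c]
    rw [s1 _ _ u v, s1 _ (a 2) u v, f1 u v, if_congr ⟨Ed.symm, Ed.symm⟩ rfl rfl]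
    split_ifs <;> ring
  have c2 : ∀ u v, ¬ Ed I u v → c u v = 0 := fun u v k => by
    simp [c, k, s2 0 1 u v (by decide) fun e => k e.ed, s2 0 2 u v (by decide) fun e => k e.ed]
  have c3 : ∀ v, v ≠ a 0 → ∑ u, c v u = 0 := fun v k => by
    simp only [c, sum_add_distrib, ← mul_sum, s3]
    by_cases hv : I v O
    · obtain ⟨i, rfl⟩ := (T.mem v).1 hv
      have e := congrFun hr (a i)
      beta_reduce at e
      rw [← e]
      clear e hr
      fin_cases i
      · exact absurd rfl k
      · simp [T.inj.eq_iff]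
      · simp [T.inj.eq_iff]
    · have : ∀ i, v ≠ a i := fun i e => hv ((T.mem v).2 ⟨i, e⟩)
      simp [f3 v hv, this]
  obtain ⟨g, hg⟩ := (h.exact hσ).2 c c1 c2 fun v => by
    by_cases k : v = a 0
    · have := sum_anti c c1 fun u => c2 u u fun e => e.ne rfl
      rwa [Fintype.sum_eq_single (a 0) c3, ← k] at this
    · exact c3 v k
  refine ⟨g, fun u v A B t k => ?_⟩
  have k' : ¬ Ei I O u v := fun e => k ⟨e.fst, e.snd⟩
  simp [hg u v A B t, c, t.ed, s2 0 1 u v (by decide) k', s2 0 2 u v (by decide) k']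

lemma Tut.lift (T : Tut I O a α β) (h : Pol I) {σ : V → V → F → ℝ} (hσ : Sig I σ) :
    ∃ (q₀ q₁ q₂ : F → ℝ) (z : V → ℝ),
      (∀ u v A B w, Sq I u v A B → A ≠ O → B ≠ O → (q₀ A + q₁ A * α w + q₂ A * β w) -
        (q₀ B + q₁ B * α w + q₂ B * β w) = σ u v A * Dt α β u v w) ∧
      ∀ A v, A ≠ O → I v A → q₀ A + q₁ A * α v + q₂ A * β v = z v := by
  classical
  obtain ⟨q₀, h0⟩ := T.exact h hσ (fun u v => α u * β v - α v * β u) (fun u v => by ring)
    fun v hv => by
      convert (T.hα.lin T.hβ 0 (-β v) (α v)) v hv using 3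
      ring
  obtain ⟨q₁, h1⟩ := T.exact h hσ (fun u v => β u - β v) (fun u v => by ring) fun v hv => by
    convert T.hβ.neg v hv using 3
    ring
  obtain ⟨q₂, h2⟩ := T.exact h hσ (fun u v => α v - α u) (fun u v => by ring) T.hα
  obtain ⟨Q, hQ⟩ : ∃ Q : F → V → ℝ, Q = fun A w => q₀ A + q₁ A * α w + q₂ A * β w := ⟨_, rfl⟩
  have J : ∀ u v A B w, Sq I u v A B → A ≠ O → B ≠ O → Q A w - Q B w = σ u v A * Dt α β u v w := by
    intro u v A B w s hA hB
    have k := h.p.inner s hA hB
    simp only [hQ, Dt]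
    linear_combination h0 u v A B s k + α w * h1 u v A B s k + β w * h2 u v A B s k
  have step : ∀ v u A C D, Sq I v u C D → C ≠ O ∧ Q C v = Q A v → D ≠ O →
      D ≠ O ∧ Q D v = Q A v := fun v u A C D s k hD => ⟨hD, by
    have := J v u C D v s k.1 hD
    rw [dt_left, mul_zero] at this
    linarith [k.2]⟩
  have key : ∀ v, ∃ r, ∀ A, A ≠ O → I v A → Q A v = r := by
    intro v
    by_cases hv : I v O
    · obtain ⟨C, D, p, q, hCD, sp, sq⟩ := h.d.two O v hv
      have e : D ≠ O ∧ Q D v = Q C v := by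
        obtain ⟨C', D', ⟨u, t⟩, k1, k2, k3⟩ := h.d.another (fun E => E ≠ O ∧ Q E v = Q C v)
          sp.ei.symm ⟨sp.1.symm, rfl⟩ fun k => k.1 rfl
        obtain rfl : D' = O := by
          by_contra k
          exact k2 (step v u C C' D' t.of_tr k1 k)
        rcases h.d.ei_or sp.ei sq.ei hCD t.symm.ei with rfl | rfl
        · exact absurd ⟨rfl, rfl⟩ k3
        · exact k1
      refine ⟨Q C v, fun A hA k => ((h.link v (fun E => E = O ∨ (E ≠ O ∧ Q E v = Q C v)) ?_ hv k
        (Or.inl rfl)).resolve_left hA).2⟩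
      rintro u E E' s (rfl | k)
      · rcases h.d.ei_or sp.ei sq.ei hCD s.tr.ei with rfl | rfl
        · exact Or.inr ⟨sp.1.symm, rfl⟩
        · exact Or.inr e
      · by_cases k' : E' = O
        · exact Or.inl k'
        · exact Or.inr (step v u C E E' s k k')
    · obtain ⟨C, hC⟩ := h.p.cover v
      exact ⟨Q C v, fun A hA k => (h.link v (fun E => E ≠ O ∧ Q E v = Q C v)
        (fun u E E' s k => step v u C E E' s k fun e => hv (e ▸ s.uB)) hC k
        ⟨fun e => hv (e ▸ hC), rfl⟩).2⟩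
  choose z hz using key
  subst hQ
  exact ⟨q₀, q₁, q₂, z, J, fun A v => hz v A⟩

end Pool.Agent.P.MP_e40812_co.St
end

-- part Pool.Agent.P.MP_e40812_co.StConv
section

/-!
The Maxwell-Cremona lift is globally convex; every polyhedral map has a slack matrix.
-/

namespace Pool.Agent.P.MP_e40812_co.St

open Finset

variable {V F : Type*} [Fintype V] [Fintype F] {I : V → F → Prop} {O : F} {a : Fin 3 → V}
  {α β : V → ℝ}

lemma Tut.convex (T : Tut I O a α β) (h : Pol I) {σ : V → V → F → ℝ} (hσ : Sig I σ)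
    (side : ∀ A u v w, A ≠ O → Ei I A u v → I w A → w ≠ u → w ≠ v →
      0 < σ u v A * Dt α β u v w) {Q : F → V → ℝ} {z : V → ℝ}
    (J : ∀ u v A B w, Sq I u v A B → A ≠ O → B ≠ O → Q A w - Q B w = σ u v A * Dt α β u v w)
    (hz : ∀ A v, A ≠ O → I v A → Q A v = z v) {A : F} {w : V} (hA : A ≠ O) (hw : ¬ I w A) :
    Q A w < z w := by
  obtain ⟨s, t, x₀, y₀, e₀, hx₀, hy₀⟩ : ∃ s t x y, Ei I A y x ∧
      0 < s * (α x - α w) + t * (β x - β w) ∧ s * (α y - α w) + t * (β y - β w) ≤ 0 := by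
    obtain ⟨v, hv⟩ := h.d.cover A
    obtain ⟨p, q, B, C, hpq, sp, sq⟩ := h.p.two v A hv
    have k : Dt α β v p q ≠ 0 := fun e => by
      simpa [e] using side A v p q hA sp.ei sq.vA sq.1.symm hpq.symm
    have l : ∀ s t x, Ei I A v x → s * (α v - α w) + t * (β v - β w) = 0 →
        s * (α x - α w) + t * (β x - β w) ≠ 0 → ∃ s t x y, Ei I A y x ∧
          0 < s * (α x - α w) + t * (β x - β w) ∧ s * (α y - α w) + t * (β y - β w) ≤ 0 := by
      intro s t x e k1 k2
      rcases lt_or_gt_of_ne k2 with k | k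
      · exact ⟨-s, -t, x, v, e, by linarith, by linarith⟩
      · exact ⟨s, t, x, v, e, k, k1.le⟩
    by_cases k0 : α v = α w ∧ β v = β w
    · refine l (-(β p - β v)) (α p - α v) q sq.ei (by simp [k0.1, k0.2]) fun e => k ?_
      rw [← k0.1, ← k0.2] at e
      unfold Dt
      linarith
    · by_cases k1 : -(β v - β w) * (α p - α w) + (α v - α w) * (β p - β w) = 0
      · refine l (-(β v - β w)) (α v - α w) q sq.ei (by ring) fun k2 => k0 ⟨?_, ?_⟩
        · refine sub_eq_zero.1 ((mul_eq_zero.1 ?_).resolve_right k)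
          unfold Dt
          linear_combination (α p - α v) * k2 - (α q - α v) * k1
        · refine sub_eq_zero.1 ((mul_eq_zero.1 ?_).resolve_right k)
          unfold Dt
          linear_combination (β p - β v) * k2 - (β q - β v) * k1
      · exact l _ _ p sp.ei (by ring) k1
  obtain ⟨φ, hφ⟩ : ∃ φ : V → ℝ, φ = fun v => s * (α v - α w) + t * (β v - β w) := ⟨_, rfl⟩
  have H : Harm I O φ := by
    convert T.hα.lin T.hβ (-(s * α w) - t * β w) s t using 2
    rw [hφ]
    ring
  replace hx₀ : 0 < φ x₀ := by rwa [hφ]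
  replace hy₀ : φ y₀ ≤ 0 := by rwa [hφ]
  have hw₀ : φ w = 0 := by simp [hφ]
  have G : ∀ A x y x' y', A ≠ O → Ei I A y x → Ei I A y' x' → 0 < φ x → φ y ≤ 0 → 0 < φ x' →
      φ y' ≤ 0 → ∀ E, E = σ y x A * (Dt α β y x w * (φ x' - φ y') - Dt α β y' x' w * (φ x - φ y)) →
      0 ≤ E ∧ (E = 0 → y' = y) := by
    intro A x y x' y' hA e e' k1 k2 k3 k4 E hE
    have id : E = φ x' * (σ y x A * Dt α β y x y') + -φ y' * (σ y x A * Dt α β y x x') := by
      simp only [hE, hφ, Dt]
      ring
    have ge : ∀ v, I v A → 0 ≤ σ y x A * Dt α β y x v := fun v hv => by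
      by_cases v1 : v = y
      · simp [v1]
      by_cases v2 : v = x
      · simp [v2]
      exact (side A y x v hA e hv v1 v2).le
    have h1 := mul_nonneg k3.le (ge y' e'.fst)
    have h2 := mul_nonneg (neg_nonneg.2 k4) (ge x' e'.snd)
    refine ⟨by linarith, fun k => ?_⟩
    by_contra hn
    have := mul_pos k3 (side A y x y' hA e e'.fst hn fun e => by
      rw [e] at k4
      linarith)
    linarith
  have uq : ∀ A x y x' y', A ≠ O → Ei I A y x → Ei I A y' x' → 0 < φ x → φ y ≤ 0 → 0 < φ x' →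
      φ y' ≤ 0 → σ y x A = σ y' x' A → x' = x ∧ y' = y := by
    intro A x y x' y' hA e e' k1 k2 k3 k4 k
    have g1 := G A x y x' y' hA e e' k1 k2 k3 k4 _ rfl
    have g2 := (G A x' y' x y hA e' e k3 k4 k1 k2 _ rfl).1
    obtain rfl := g1.2 (le_antisymm (by rw [← k] at g2; linarith) g1.1)
    refine ⟨?_, rfl⟩
    by_contra hn
    have h1 := hσ.turn _ _ _ _ e' e hn
    have h2 := hσ.sq _ _ _ e
    rw [← k] at h1
    nlinarith
  obtain ⟨u₀, eu, hu₀⟩ := H.pos_nbr h T.toOut hx₀ hw₀
  let St : ℝ → V × V → V × V → Prop := fun η p q => 0 < φ q.1 ∧ φ q.2 ≤ 0 ∧ ∃ A, A ≠ O ∧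
    Ei I A p.2 p.1 ∧ Ei I A q.2 q.1 ∧ σ p.2 p.1 A = η ∧ σ q.2 q.1 A = -η
  have inv : ∀ η p, Relation.ReflTransGen (St η) (u₀, w) p → 0 < φ p.1 ∧ φ p.2 ≤ 0 ∧
      η * Dt α β p.2 p.1 w ≤ 0 ∧ (Dt α β p.2 p.1 w = 0 → p.2 = w) ∧
        ∀ B, B ≠ O → Ei I B p.2 p.1 → I w B ∨ Q B w < z w := by
    intro η p k
    induction k with
    | refl => exact ⟨hu₀, hw₀.le, by simp, fun _ => rfl, fun B _ e => Or.inl e.fst⟩
    | @tail p q _ k ih =>
      obtain ⟨k1, k2, C, hC, e, e', s1, s2⟩ := k
      obtain ⟨i1, i2, i3, i4, i5⟩ := ih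
      have g := G C _ _ _ _ hC e e' i1 i2 k1 k2 _ rfl
      rw [s1] at g
      have η2 : η * η = 1 := s1 ▸ hσ.sq _ _ _ e
      have p1 : 0 < φ p.1 - φ p.2 := by linarith
      have p2 : 0 < φ q.1 - φ q.2 := by linarith
      have j3 : η * Dt α β q.2 q.1 w ≤ 0 := by
        by_contra hn
        nlinarith [mul_pos (not_le.1 hn) p1, mul_nonneg (neg_nonneg.2 i3) p2.le, g.1]
      have j4 : Dt α β q.2 q.1 w = 0 → q.2 = w := fun k => by
        rw [k] at g
        have h1 : η * Dt α β p.2 p.1 w = 0 := le_antisymm i3 (by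
          by_contra hn
          nlinarith [mul_pos (neg_pos.2 (not_le.1 hn)) p2, g.1])
        have h2 : Dt α β p.2 p.1 w = 0 := by linear_combination η * h1 - Dt α β p.2 p.1 w * η2
        exact (g.2 (by simp [h2])).trans (i4 h2)
      refine ⟨k1, k2, j3, j4, fun B hB eB => ?_⟩
      by_cases hBC : B = C
      · exact hBC ▸ i5 C hC e
      by_cases k : Dt α β q.2 q.1 w = 0
      · exact Or.inl (j4 k ▸ eB.fst)
      have h1 := J q.2 q.1 C B w ⟨e'.ne, Ne.symm hBC, e'.fst, eB.fst, e'.snd, eB.snd⟩ hC hB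
      have h2 : Q C w ≤ z w := (i5 C hC e).elim (fun k => (hz C w hC k).le) le_of_lt
      have h3 : η * Dt α β q.2 q.1 w ≠ 0 := mul_ne_zero (fun e => by simp [e] at η2) k
      rw [s2] at h1
      exact Or.inr (by
        have := lt_of_le_of_ne j3 h3
        linarith)
  obtain ⟨η, -, k⟩ := h.bond (fun v => 0 < φ v) (fun _ _ => H.conn_pos h T.toOut)
    (fun p q hp hq => (H.neg.conn h T.toOut (0 ≤ ·) (fun _ _ => le_trans)
      (neg_nonneg.2 (not_lt.1 hp)) (neg_nonneg.2 (not_lt.1 hq))).mono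
        fun _ k => not_lt.2 (neg_nonneg.1 k))
    (fun x y => ∃ η, η * η = 1 ∧ Relation.ReflTransGen (St η) (u₀, w) (x, y))
    (fun x y ⟨η, _, k⟩ => ⟨(inv η _ k).1, not_lt.2 (inv η _ k).2.1⟩) O
    (by
      rintro C hC x y x' y' ⟨η, η2, k⟩ e e' k3 k4
      have e := e.symm
      have e' := e'.symm
      have k4 := not_lt.1 k4
      obtain ⟨k1, k2, -⟩ := inv η _ k
      have sq : ∀ {r s : ℝ}, r * r = 1 → s * s = 1 → r = s ∨ r = -s := fun h1 h2 =>
        mul_self_eq_mul_self_iff.1 (h1.trans h2.symm)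
      rcases sq (hσ.sq _ _ _ e') (hσ.sq _ _ _ e) with s1 | s1
      · obtain ⟨rfl, rfl⟩ := uq C x y x' y' hC e e' k1 k2 k3 k4 s1.symm
        exact ⟨η, η2, k⟩
      rcases sq (hσ.sq _ _ _ e) η2 with s2 | s2
      · exact ⟨η, η2, k.tail ⟨k3, k4, C, hC, e, e', s2, s2 ▸ s1⟩⟩
      rcases k.cases_tail with k0 | ⟨p, k0, -, -, D, hD, f, f', s3, s4⟩
      · exact ⟨-η, by linarith, .single (k0 ▸ ⟨k3, k4, C, hC, e, e', s2, s2 ▸ s1⟩)⟩
      · obtain rfl : D = C := by
          by_contra hn
          have := hσ.opp y x D C ⟨e.ne, hn, f'.fst, e.fst, f'.snd, e.snd⟩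
          rw [s2, show σ y x D = -η from s4] at this
          nlinarith
        obtain ⟨rfl, rfl⟩ := uq D p.1 p.2 x' y' hD f e' (inv η _ k0).1 (inv η _ k0).2.1 k3 k4
          (by rw [s3, s1, s2, neg_neg])
        exact ⟨η, η2, k0⟩)
    ⟨1, one_mul 1, .refl⟩ eu.symm e₀.symm.ed hx₀ (not_lt.2 hy₀)
  exact ((inv η _ k).2.2.2.2 A hA e₀).resolve_left hw

theorem Out.real (T : Out I O a) (h : Pol I) : Real4 I := by
  classical
  obtain ⟨α, β, T⟩ := exists_tut h T
  obtain ⟨σ, hσ, side⟩ := T.orient h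
  obtain ⟨q₀, q₁, q₂, z, J, hz⟩ := T.lift h hσ
  have C := fun A w => T.convex h hσ side (Q := fun A w => q₀ A + q₁ A * α w + q₂ A * β w)
    J hz (A := A) (w := w)
  refine ⟨fun v => ![1, α v, β v, z v], fun A => if A = O then
    ![z (a 0), z (a 1) - z (a 0), z (a 2) - z (a 0), -1] else ![-q₀ A, -q₁ A, -q₂ A, 1],
    fun v A => ?_⟩
  by_cases hA : A = O
  · subst hA
    simp only [if_true, dotProduct, Fin.sum_univ_four, Matrix.cons_val]
    refine ⟨fun k => ?_, fun k => ?_⟩
    · obtain ⟨i, rfl⟩ := (T.mem v).1 k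
      fin_cases i <;> simp +decide [T.vα, T.vβ]
    · obtain ⟨B, hB⟩ := h.p.cover v
      have hBA : B ≠ A := fun e => k (e ▸ hB)
      have p1 : 0 < α v := T.hα.pos h T.toOut (w := a 1) (by simp [T.vα])
        (fun i => by rw [T.vα]; split_ifs <;> norm_num) k
      have p2 : 0 < β v := T.hβ.pos h T.toOut (w := a 2) (by simp [T.vβ])
        (fun i => by rw [T.vβ]; split_ifs <;> norm_num) k
      have p0 : 0 < 1 + -1 * α v + -1 * β v := Harm.pos (φ := fun v => 1 + -1 * α v + -1 * β v)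
        (w := a 0) h T.toOut (T.hα.lin T.hβ 1 (-1) (-1)) (by simp [T.vα, T.vβ])
        (fun i => by fin_cases i <;> simp +decide [T.vα, T.vβ]) k
      have le : ∀ i, 0 ≤ z (a i) - (q₀ B + q₁ B * α (a i) + q₂ B * β (a i)) := fun i => by
        by_cases k' : I (a i) B
        · rw [hz B _ hBA k', sub_self]
        · exact (sub_pos.2 (C B _ hBA k')).le
      obtain ⟨i, hi⟩ : ∃ i, ¬ I (a i) B := by
        by_contra hn
        push Not at hn
        have m := fun i => (T.mem _).2 ⟨i, rfl⟩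
        rcases h.d.three B A (a 0) (a 1) (a 2) hBA (hn 0) (m 0) (hn 1) (m 1) (hn 2) (m 2) with
          e | e | e <;> exact absurd (T.inj e) (by decide)
      have lt := sub_pos.2 (C B _ hBA hi)
      obtain ⟨d, hd⟩ : ∃ d : Fin 3 → ℝ,
        d = fun i => z (a i) - (q₀ B + q₁ B * α (a i) + q₂ B * β (a i)) := ⟨_, rfl⟩
      replace le : ∀ i, 0 ≤ d i := by rwa [hd]
      replace lt : 0 < d i := by rwa [hd]
      have e : 1 * z (a 0) + α v * (z (a 1) - z (a 0)) + β v * (z (a 2) - z (a 0)) + z v * -1 =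
          (1 + -1 * α v + -1 * β v) * d 0 + α v * d 1 + β v * d 2 := by
        simp +decide only [hd, T.vα, T.vβ, if_true, if_false, ← hz B v hBA hB]
        ring
      have l0 := mul_nonneg p0.le (le 0)
      have l1 := mul_nonneg p1.le (le 1)
      have l2 := mul_nonneg p2.le (le 2)
      rw [e]
      fin_cases i
      · linarith [show 0 < _ * d 0 from mul_pos p0 lt]
      · linarith [show 0 < _ * d 1 from mul_pos p1 lt]
      · linarith [show 0 < _ * d 2 from mul_pos p2 lt]
  · simp only [if_neg hA, dotProduct, Fin.sum_univ_four, Matrix.cons_val]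
    exact ⟨fun k => by linarith [hz A v hA k], fun k => by linarith [C A v hA k]⟩

omit [Fintype V] [Fintype F] in
lemma Real4.of_tr (h : Real4 (tr I)) : Real4 I := by
  obtain ⟨X, Y, h⟩ := h
  exact ⟨Y, X, fun v A => by rw [dotProduct_comm]; exact h A v⟩

open Classical in
omit [Fintype F] in
lemma Loc.out (h : Loc I) {A : F} {v : V} (hv : I v A)
    (k : (univ.filter fun v => I v A).card ≤ 3) : ∃ a, Out I A a := by
  obtain ⟨p, q, B, C, hpq, sp, sq⟩ := h.two v A hv
  have e : ({v, p, q} : Finset V) = univ.filter fun v => I v A :=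
    eq_of_subset_of_card_le (by simp [insert_subset_iff, sp.uA, sp.vA, sq.vA])
      (k.trans (card_eq_three.2 ⟨v, p, q, sp.1, sq.1, hpq, rfl⟩).ge)
  refine ⟨![v, p, q], fun i j e => ?_, fun z => ?_⟩
  · have := sp.1
    have := sq.1
    fin_cases i <;> fin_cases j <;> simp_all
  · have := Finset.ext_iff.1 e z
    simp only [mem_insert, mem_singleton, mem_filter, mem_univ, true_and] at this
    simp [← this, Fin.exists_fin_succ]

/-- Steinitz: every polyhedral map has a slack matrix of rank at most four. -/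
theorem Pol.real (h : Pol I) : Real4 I := by
  rcases h.small with ⟨A, k⟩ | ⟨v, k⟩
  · obtain ⟨v, hv⟩ := h.d.cover A
    obtain ⟨a, T⟩ := h.p.out hv k
    exact T.real h
  · obtain ⟨A, hA⟩ := h.p.cover v
    obtain ⟨a, T⟩ := h.d.out (A := v) hA k
    exact (T.real h.dual).of_tr

end Pool.Agent.P.MP_e40812_co.St
end

-- part Pool.Agent.P.MP_e40812_co.StPoly
section

/-!
From polyhedral maps to convex polyhedra.
-/

namespace Pool.Agent.P.MP_e40812_co.St

open Finset Module

variable {V F : Type*} [Fintype V]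

open Classical in
lemma faceCount_pt {pt : V → EuclideanSpace ℝ (Fin 3)} (hX : Conv pt univ) (hF : Full pt univ) :
    IsPolyhedron (convexHull ℝ ((univ.image pt : Finset _) : Set (EuclideanSpace ℝ (Fin 3)))) ∧
    ∀ k, faceCount (convexHull ℝ ((univ.image pt : Finset _) : Set (EuclideanSpace ℝ (Fin 3)))) k =
      ((facets pt univ).filter fun A => A.card = k).card := by
  have inj : Function.Injective pt := fun a b e => by
    by_contra hn
    exact hX.ne (mem_univ a) (mem_univ b) hn (by rw [e, sub_self])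
  have hX' : Conv id (univ.image pt) := by
    intro p hp
    obtain ⟨i, -, rfl⟩ := mem_image.1 hp
    obtain ⟨ψ, hψ⟩ := hX i (mem_univ i)
    refine ⟨ψ, fun q hq hne => ?_⟩
    obtain ⟨j, -, rfl⟩ := mem_image.1 hq
    exact hψ j (mem_univ j) fun e => hne (e ▸ rfl)
  have hd : finrank ℝ (vectorSpan ℝ ((univ.image pt : Finset _) :
      Set (EuclideanSpace ℝ (Fin 3)))) = 3 := by
    by_contra hne
    obtain ⟨f, hf, hf'⟩ := Submodule.exists_dual_map_eq_bot_of_lt_top
      (p := vectorSpan ℝ ((univ.image pt : Finset _) : Set (EuclideanSpace ℝ (Fin 3))))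
      (lt_top_iff_ne_top.2 fun e => hne (by rw [e, finrank_top, finrank_three])) inferInstance
    obtain ⟨i, -, -⟩ := hF f hf 0
    obtain ⟨j, -, hj⟩ := hF f hf (f (pt i))
    have : f (pt j - pt i) ∈ (vectorSpan ℝ ((univ.image pt : Finset _) :
        Set (EuclideanSpace ℝ (Fin 3)))).map f :=
      Submodule.mem_map_of_mem (vsub_mem_vectorSpan ℝ (by simp) (by simp))
    rw [hf', Submodule.mem_bot, map_sub, sub_eq_zero] at this
    exact hj this
  have fac : facets id (univ.image pt) = (facets pt univ).image (image pt) := by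
    ext B
    simp only [mem_facets, mem_image]
    constructor
    · rintro ⟨h3, φ, hφ, c, h1, h2, h4⟩
      have e : (univ.filter fun i => pt i ∈ B).image pt = B := by
        ext p
        simp only [mem_image, mem_filter, mem_univ, true_and]
        refine ⟨fun ⟨i, k, e⟩ => e ▸ k, fun k => ?_⟩
        obtain ⟨i, -, rfl⟩ := mem_image.1 (h1 k)
        exact ⟨i, k, rfl⟩
      refine ⟨univ.filter fun i => pt i ∈ B, ⟨?_, φ, hφ, c, subset_univ _,
        fun i hi => h2 _ (mem_filter.1 hi).2, fun i _ hi => h4 _ (by simp) (by simpa using hi)⟩, e⟩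
      rwa [← e, card_image_of_injective _ inj] at h3
    · rintro ⟨A, ⟨h3, φ, hφ, c, -, h2, h4⟩, rfl⟩
      refine ⟨by rwa [card_image_of_injective _ inj], φ, hφ, c, image_subset_image (subset_univ _),
        fun p hp => ?_, fun p hp hp' => ?_⟩
      · obtain ⟨i, hi, rfl⟩ := mem_image.1 hp
        exact h2 i hi
      · obtain ⟨i, hi, rfl⟩ := mem_image.1 hp
        exact h4 i hi fun k => hp' (mem_image_of_mem _ k)
  refine ⟨⟨⟨_, rfl⟩, by rw [vectorSpan_hull, hd]⟩, fun k => ?_⟩
  rw [faceCount_eq hX' hd, filter_congr (q := fun A => A.card = k)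
    fun A hA => by rw [nsides_eq finrank_three hX' (mem_facets.1 hA)], fac, filter_image,
    card_image_of_injective _ (image_injective inj)]
  simp only [card_image_of_injective _ inj]

variable [Fintype F] {I : V → F → Prop}

lemma Pol.affine (h : Pol I) : ∃ (x : V → EuclideanSpace ℝ (Fin 3))
    (φ : F → EuclideanSpace ℝ (Fin 3) →ₗ[ℝ] ℝ) (c : F → ℝ), ∀ v A,
      (I v A → φ A (x v) = c A) ∧ (¬ I v A → φ A (x v) < c A) := by
  obtain ⟨X, Y, hXY⟩ := h.real
  have pos : ∀ v, 0 < X v ⬝ᵥ ∑ A, Y A := by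
    intro v
    obtain ⟨A, hA⟩ := h.p.cover v
    obtain ⟨u, -, B, -, -, s, -⟩ := h.p.two v A hA
    obtain ⟨C, -, hC⟩ := h.sep s.1.symm
    rw [dotProduct_sum]
    refine sum_pos' (fun D _ => ?_) ⟨C, mem_univ _, (hXY v C).2 hC⟩
    by_cases k : I v D
    · exact ((hXY v D).1 k).ge
    · exact ((hXY v D).2 k).le
  generalize ∑ A, Y A = y at pos
  obtain ⟨k, hk⟩ : ∃ k, y k ≠ 0 := by
    by_contra hn
    push Not at hn
    obtain ⟨v⟩ := h.ne
    simpa [dotProduct, hn] using pos v
  refine ⟨fun v => WithLp.toLp 2 fun j => X v (k.succAbove j) / (X v ⬝ᵥ y),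
    fun A => ∑ j, (Y A k * y (k.succAbove j) / y k - Y A (k.succAbove j)) •
      EuclideanSpace.projₗ (𝕜 := ℝ) j, fun A => Y A k / y k, fun v A => ?_⟩
  have e : (∑ j, (Y A k * y (k.succAbove j) / y k - Y A (k.succAbove j)) •
      EuclideanSpace.projₗ (𝕜 := ℝ) j) (WithLp.toLp 2 fun j => X v (k.succAbove j) / (X v ⬝ᵥ y)) =
      Y A k / y k - (X v ⬝ᵥ Y A) / (X v ⬝ᵥ y) := by
    have h1 : X v ⬝ᵥ y = X v k * y k + ∑ j, X v (k.succAbove j) * y (k.succAbove j) :=
      Fin.sum_univ_succAbove _ k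
    have h2 : X v ⬝ᵥ Y A = X v k * Y A k + ∑ j, X v (k.succAbove j) * Y A (k.succAbove j) :=
      Fin.sum_univ_succAbove _ k
    have h3 := (pos v).ne'
    simp only [Fin.sum_univ_three] at h1 h2
    simp only [Fin.sum_univ_three, LinearMap.add_apply, LinearMap.smul_apply, smul_eq_mul,
      EuclideanSpace.projₗ, PiLp.projₗ_apply]
    rw [h2]
    generalize X v ⬝ᵥ y = n at h1 h3
    field_simp
    rw [h1]
    ring
  rw [e]
  exact ⟨fun k => by simp [(hXY v A).1 k], fun k => by
    linarith [div_pos ((hXY v A).2 k) (pos v)]⟩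

open Classical in
/-- Steinitz: a polyhedral map is the face structure of a convex polyhedron. -/
theorem Pol.poly (h : Pol I) : ∃ P, IsPolyhedron P ∧ ∀ k, faceCount P k =
    (univ.filter fun A => (univ.filter fun v => I v A).card = k).card := by
  obtain ⟨x, φ, c, g⟩ := h.affine
  have le : ∀ v A, φ A (x v) ≤ c A := fun v A => by
    by_cases k : I v A
    · exact ((g v A).1 k).le
    · exact ((g v A).2 k).le
  have hX : Conv x univ := by
    intro v _
    refine ⟨∑ A ∈ univ.filter (I v), φ A, fun u _ huv => ?_⟩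
    simp only [LinearMap.sum_apply]
    obtain ⟨A, h1, h2⟩ := h.sep huv.symm
    refine sum_lt_sum (fun B hB => ?_) ⟨A, by simpa using h1, ?_⟩
    · rw [(g v B).1 (mem_filter.1 hB).2]
      exact le u B
    · rw [(g v A).1 h1]
      exact (g u A).2 h2
  obtain ⟨S, hS⟩ : ∃ S : F → Finset V, S = fun A => univ.filter fun v => I v A := ⟨_, rfl⟩
  have mS : ∀ v A, v ∈ S A ↔ I v A := by simp [hS]
  have iS : Function.Injective S := fun A B e => by
    by_contra hn
    obtain ⟨v, h1, h2⟩ := h.dual.sep hn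
    exact h2 ((mS v B).1 (e ▸ (mS v A).2 h1))
  have out : ∀ A, ∃ v, ¬ I v A := fun A => by
    obtain ⟨v, hv⟩ := h.d.cover A
    obtain ⟨u, -, B, -, -, s, -⟩ := h.p.two v A hv
    exact (h.dual.sep s.2.1.symm).imp fun _ => And.right
  have fS : ∀ A, Facet x univ (S A) := by
    intro A
    obtain ⟨v, hv⟩ := h.d.cover A
    obtain ⟨p, q, B, C, hpq, sp, sq⟩ := h.p.two v A hv
    refine ⟨two_lt_card_iff.2 ⟨v, p, q, (mS _ _).2 hv, (mS _ _).2 sp.vA, (mS _ _).2 sq.vA,
      sp.1, sq.1, hpq⟩, φ A, fun h0 => ?_, c A, subset_univ _,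
      fun i hi => (g i A).1 ((mS _ _).1 hi), fun i _ hi => (g i A).2 fun k => hi ((mS _ _).2 k)⟩
    obtain ⟨u, hu⟩ := out A
    have h1 := (g v A).1 hv
    have h2 := (g u A).2 hu
    simp [h0, ← h1] at h2
  obtain ⟨v₀⟩ := h.ne
  obtain ⟨A₀, -⟩ := h.p.cover v₀
  have h3 : 3 ≤ (univ : Finset V).card := (fS A₀).1.trans (card_le_card (subset_univ _))
  have hF : Full x univ := by
    intro f hf r
    by_contra hn
    push Not at hn
    obtain ⟨u, hu⟩ := out A₀
    obtain ⟨z, -, z2⟩ := facet_not_subset finrank_three hX (fS A₀)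
      ⟨h3, f, hf, r, Subset.refl _, hn, fun q hq hq' => absurd hq hq'⟩
      fun e => hu ((mS u A₀).1 (e ▸ mem_univ u))
    exact z2 (mem_univ z)
  have hfac : facets x univ = univ.image S := by
    have hsub : univ.image S ⊆ facets x univ := fun B hB => by
      obtain ⟨w, -, rfl⟩ := mem_image.1 hB
      exact mem_facets.2 (fS w)
    have s1 := sum_facets finrank_three hX (by omega)
    rw [← sum_sdiff hsub, sum_image iS.injOn] at s1
    have s2 : fl I = ∑ A, (((S A).card - 2) + 2) := by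
      unfold fl
      rw [sum_comm]
      refine sum_congr rfl fun A _ => ?_
      have := (fS A).1
      rw [← card_filter, Nat.sub_add_cancel (by omega), hS]
    have s3 := h.euler_ge
    simp only [sum_add_distrib, sum_const, smul_eq_mul, card_univ] at s1 s2 h3
    have s4 : ∑ B ∈ facets x univ \ univ.image S, (B.card - 2) = 0 := by omega
    refine Subset.antisymm (fun B hB => ?_) hsub
    by_contra hn
    have k1 := sum_eq_zero_iff.1 s4 B (mem_sdiff.2 ⟨hB, hn⟩)
    have k2 := (mem_facets.1 hB).1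
    omega
  obtain ⟨k1, k2⟩ := faceCount_pt hX hF
  refine ⟨_, k1, fun k => ?_⟩
  rw [k2, hfac, filter_image, card_image_of_injective _ iS, hS]

end Pool.Agent.P.MP_e40812_co.St
end

-- part Pool.Agent.P.MP_e40812_co.StChk
section

/-!
The face structure of a convex polyhedron, suitably ordered, passes the check.
-/

namespace Pool.Agent.P.MP_e40812_co.St

open Finset Module

lemma exists_enum {ι : Type*} (X : Finset ι) (f : ι → ℝ)
    (hf : ∀ i ∈ X, ∀ j ∈ X, i ≠ j → f i ≠ f j) : ∃ e : Fin X.card → ι,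
      (∀ i, e i ∈ X) ∧ (∀ x ∈ X, ∃ i, e i = x) ∧ StrictMono fun i => f (e i) := by
  letI : LinearOrder X := LinearOrder.lift' (fun x : X => f x) fun x y k => by
    by_contra hn
    exact hf x x.2 y y.2 (fun e => hn (Subtype.ext e)) k
  let e := monoEquivOfFin X (k := X.card) (by simp)
  exact ⟨fun i => e i, fun i => (e i).2, fun x hx => ⟨e.symm ⟨x, hx⟩, by simp⟩,
    fun i j k => e.strictMono k⟩

lemma geo_half {V F W : Type*} [Fintype V] [LinearOrder V] [AddCommGroup W] [Module ℝ W]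
    (hW : finrank ℝ W = 3) {I : V → F → Prop} {pt : V → W} (hX : Conv pt univ)
    {S : F → Finset V} (mS : ∀ v A, v ∈ S A ↔ I v A) (fS : ∀ A, Facet pt univ (S A))
    (iS : Function.Injective S)
    (two : ∀ v A, I v A → ∃ u w B C, u ≠ w ∧ Sq I v u A B ∧ Sq I v w A C) (cover : ∀ v, ∃ A, I v A)
    {l : W →ₗ[ℝ] ℝ} (hl : StrictMono fun i => l (pt i)) : Chk1 I := by
  have ed : ∀ u v A B, Sq I u v A B → Edge pt univ u v := fun u v A B s =>
    edge_of_two_facets hW hX (fS A) (fS B) (iS.ne s.2.1) s.1 ((mS _ _).2 s.uA) ((mS _ _).2 s.vA)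
      ((mS _ _).2 s.uB) ((mS _ _).2 s.vB)
  have le : ∀ v A u w x, I v A → I u A → I w A → I x A → Edge pt univ v u → Edge pt univ v w →
      Edge pt univ v x → u = w ∨ u = x ∨ w = x := by
    intro v A u w x hv hu hw hx e1 e2 e3
    by_contra hn
    push Not at hn
    obtain ⟨-, φ, hφ, c, hs⟩ := fS A
    have k : ∀ z, I z A → φ (pt z) = φ (pt v) := fun z hz =>
      (hs.2.1 z ((mS _ _).2 hz)).trans (hs.2.1 v ((mS _ _).2 hv)).symm
    exact three_edges_false hW hφ (k u hu) (k w hw) (k x hx) e1 e2 e3 hn.1 hn.2.1 hn.2.2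
  refine ⟨⟨fun u v A B C huv h1 h2 h3 h4 h5 h6 => ?_, two,
    fun v A u w x B C D s t r => le v A u w x s.uA s.vA t.vA r.vA (ed _ _ _ _ s) (ed _ _ _ _ t)
      (ed _ _ _ _ r), cover⟩, fun A u v hu hv huv => ?_⟩
  · by_contra hn
    push Not at hn
    exact three_facets_false hW hX (fS A) (fS B) (fS C) (iS.ne hn.1) (iS.ne hn.2.1)
      (iS.ne hn.2.2) huv ((mS _ _).2 h1) ((mS _ _).2 h2) ((mS _ _).2 h3) ((mS _ _).2 h4)
      ((mS _ _).2 h5) ((mS _ _).2 h6)
  · obtain ⟨p, q, B, C, hpq, sp, sq⟩ := two v A hv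
    rcases lt_or_gt_of_ne sp.1 with k | k
    swap
    · exact ⟨p, B, k, sp⟩
    obtain ⟨z, hz, e, k'⟩ := edge_of_rot hW hX (fS A) ((mS _ _).2 hv) (-l)
      ⟨u, (mS _ _).2 hu, neg_lt_neg (hl huv)⟩ ⟨p, (mS _ _).2 sp.vA, neg_lt_neg (hl k)⟩
    have k' : z < v := hl.lt_iff_lt.1 (neg_lt_neg_iff.1 k')
    rcases le v A p q z hv sp.vA sq.vA ((mS _ _).1 hz) (ed _ _ _ _ sp) (ed _ _ _ _ sq) e with
      r | rfl | rfl
    · exact absurd r hpq
    · exact ⟨p, B, k', sp⟩
    · exact ⟨q, C, k', sq⟩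

open Classical in
theorem chk_of_poly {P : Set (EuclideanSpace ℝ (Fin 3))} (hP : IsPolyhedron P) :
    ∃ (n m : ℕ) (I : Fin n → Fin m → Prop), Chk I ∧ ∀ k, faceCount P k =
      (univ.filter fun A => (univ.filter fun v => I v A).card = k).card := by
  obtain ⟨X, rfl, hX₀, hd⟩ := exists_vertices hP
  obtain ⟨l, hl⟩ := exists_generic hX₀
  obtain ⟨pt, p1, p2, p3⟩ := exists_enum X (fun x => l x) hl
  have hW := finrank_three
  have hX : Conv pt univ := fun i _ => by
    obtain ⟨ψ, hψ⟩ := hX₀ _ (p1 i)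
    exact ⟨ψ, fun j _ k => hψ _ (p1 j) fun e => k (p3.injective (by simp only [e]))⟩
  have hF : Full pt univ := fun φ hφ c => by
    obtain ⟨x, hx, k⟩ := full_of_dim hd φ hφ c
    obtain ⟨i, rfl⟩ := p2 x hx
    exact ⟨i, mem_univ _, k⟩
  have eX : univ.image pt = X := by
    ext x
    simp only [mem_image, mem_univ, true_and]
    exact ⟨fun ⟨i, e⟩ => e ▸ p1 i, p2 x⟩
  have h3 : 3 ≤ (univ : Finset (Fin X.card)).card := by
    have := dim_lt_card (A := X) (by
      rw [nonempty_iff_ne_empty]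
      rintro rfl
      obtain ⟨φ, hφ, -⟩ := exists_dual_two hW 0 0
      obtain ⟨x, hx, -⟩ := full_of_dim hd φ hφ 0
      simp at hx)
    rw [card_univ, Fintype.card_fin]
    omega
  obtain ⟨o, g, hg⟩ := exists_polar hF
  have hY₀ := dual_conv hW hX hg (Y := facets pt univ) fun A => mem_facets.1
  obtain ⟨l', hl'⟩ := exists_generic hY₀
  obtain ⟨S, q1, q2, q3⟩ := exists_enum (facets pt univ) (fun A => l' (g A)) hl'
  have iS : Function.Injective S := fun A B e => q3.injective (by simp only [e])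
  have fS : ∀ A, Facet pt univ (S A) := fun A => mem_facets.1 (q1 A)
  have sS : ∀ G, Facet pt univ G → ∃ A, S A = G := fun G k => q2 G (mem_facets.2 k)
  have eS : univ.image S = facets pt univ := by
    ext x
    simp only [mem_image, mem_univ, true_and]
    exact ⟨fun ⟨i, e⟩ => e ▸ q1 i, q2 x⟩
  have two : ∀ v A, v ∈ S A → ∃ u w B C, u ≠ w ∧ B ≠ C ∧ Sq (fun v A => v ∈ S A) v u A B ∧
      Sq (fun v A => v ∈ S A) v w A C := by
    intro v A hv
    obtain ⟨p, hp, q, hq, hpq, ep, eq⟩ := two_edges hW hX (fS A) hv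
    obtain ⟨B, hB, hBA, b1, b2⟩ := other_facet hW hF ep (S A)
    obtain ⟨C, hC, hCA, c1, c2⟩ := other_facet hW hF eq (S A)
    obtain ⟨B, rfl⟩ := sS B hB
    obtain ⟨C, rfl⟩ := sS C hC
    refine ⟨p, q, B, C, hpq, ?_, ⟨ep.2.2.1, fun e => hBA (e ▸ rfl), hv, b1, hp, b2⟩,
      ⟨eq.2.2.1, fun e => hCA (e ▸ rfl), hv, c1, hq, c2⟩⟩
    rintro rfl
    exact hBA (facet_eq_of_three hW hX hB (fS A) b1 b2 c2 hv hp hq ep.2.2.1 eq.2.2.1 hpq)
  have cover : ∀ v, ∃ A, v ∈ S A := fun v => by
    obtain ⟨G, hG, k⟩ := exists_facet hW hX hF h3 (mem_univ v)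
    obtain ⟨A, rfl⟩ := sS G hG
    exact ⟨A, k⟩
  have c1 : Chk1 fun v A => v ∈ S A := geo_half hW hX (fun _ _ => Iff.rfl) fS iS
    (fun v A hv => by
      obtain ⟨u, w, B, C, k, -, s, t⟩ := two v A hv
      exact ⟨u, w, B, C, k, s, t⟩) cover p3
  have c2 : Chk1 (tr fun v A => v ∈ S A) := by
    refine geo_half (W := Module.Dual ℝ (EuclideanSpace ℝ (Fin 3))) (by simp)
      (pt := fun A => g (S A)) (fun A _ => ?_) (S := fun v => univ.filter fun A => v ∈ S A)
      (fun A v => by simp [tr]) (fun v => ?_) (fun u v e => ?_) (fun A v hv => ?_)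
      (fun A => ?_) q3
    · obtain ⟨ψ, hψ⟩ := hY₀ _ (q1 A)
      exact ⟨ψ, fun B _ k => hψ _ (q1 B) (iS.ne k)⟩
    · obtain ⟨A, hA⟩ := cover v
      obtain ⟨u, w, B, C, -, k, s, t⟩ := two v A hA
      have e : ∀ D, v ∈ S D → Module.Dual.eval ℝ _ (pt v - o) (g (S D)) = 1 := fun D hD => by
        rw [Module.Dual.eval_apply, map_sub, (hg _ (fS D)).2.1 v hD, add_sub_cancel_right]
      refine ⟨two_lt_card_iff.2 ⟨A, B, C, by simpa using hA, by simpa using s.uB,
        by simpa using t.uB, s.2.1, t.2.1, k⟩, Module.Dual.eval ℝ _ (pt v - o), fun h0 => ?_, 1,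
        subset_univ _, fun D hD => e D (mem_filter.1 hD).2, fun D _ hD => ?_⟩
      · simpa [h0] using e A hA
      · have := (hg _ (fS D)).2.2 v (mem_univ v) (by simpa using hD)
        rw [Module.Dual.eval_apply, map_sub]
        linarith
    · by_contra hn
      have k : ∀ D, u ∈ S D → v ∈ S D := fun D hD => by
        simpa [hD] using Finset.ext_iff.1 e D
      obtain ⟨A, hA⟩ := cover u
      obtain ⟨p, w, B, C, -, r, s, t⟩ := two u A hA
      rcases c1.three u v A B C hn hA (k A hA) s.uB (k B s.uB) t.uB (k C t.uB) with e | e | e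
      · exact s.2.1 e
      · exact t.2.1 e
      · exact r e
    · obtain ⟨u, w, B, C, -, k, s, t⟩ := two v A hv
      exact ⟨B, C, u, w, k, s.tr, t.tr⟩
    · exact card_pos.1 (lt_of_lt_of_le (by omega) (fS A).1)
  have cS : ∀ A, (univ.filter fun v => v ∈ S A).card = (S A).card := fun A => by simp
  refine ⟨_, _, fun v A => v ∈ S A, ⟨c1, c2, fun u v huv => ?_,
    (card_pos.1 (lt_of_lt_of_le (by omega) h3)).elim fun v _ => ⟨v⟩, ?_⟩, fun k => ?_⟩
  · obtain ⟨A, hA⟩ := cover v
    obtain ⟨p, -, B, -, -, -, sp, -⟩ := two v A hA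
    rcases lt_or_gt_of_ne sp.1 with k | k
    swap
    · exact ⟨p, A, B, k, sp⟩
    obtain ⟨z, -, k', e⟩ := rot_step hX (mem_univ v) (-l)
      ⟨u, mem_univ _, neg_lt_neg (p3 huv)⟩ ⟨p, mem_univ _, neg_lt_neg (p3 k)⟩
    have k' : z < v := p3.lt_iff_lt.1 (neg_lt_neg_iff.1 k')
    rcases e with e | ⟨G, hG, g1, g2⟩
    · obtain ⟨C, D, hC, hD, hCD, a1, a2, a3, a4⟩ := two_facets hW hF e
      obtain ⟨C, rfl⟩ := sS C hC
      obtain ⟨D, rfl⟩ := sS D hD
      exact ⟨z, C, D, k', e.2.2.1, fun e => hCD (e ▸ rfl), a1, a3, a2, a4⟩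
    · obtain ⟨C, rfl⟩ := sS G hG
      obtain ⟨w, D, k1, k2⟩ := c1.mono C z v g2 g1 k'
      exact ⟨w, C, D, k1, k2⟩
  · have s1 := sum_facets hW hX (by omega)
    rw [← eS, sum_image iS.injOn] at s1
    have s2 : fl (fun v A => v ∈ S A) = ∑ A, (((S A).card - 2) + 2) := by
      unfold fl
      rw [sum_comm]
      refine sum_congr rfl fun A _ => ?_
      have := (fS A).1
      rw [Nat.sub_add_cancel (by omega), ← cS, card_filter]
      exact sum_congr rfl fun _ _ => by congr
    simp only [sum_add_distrib, sum_const, smul_eq_mul, card_univ] at s1 s2 h3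
    omega
  · have := (faceCount_pt hX hF).2 k
    rw [eX, ← eS, filter_image, card_image_of_injective _ iS] at this
    rw [this]
    congr 1
    exact filter_congr fun A _ => by rw [← cS]; congr!

end Pool.Agent.P.MP_e40812_co.St
end

-- part Pool.Agent.P.MP_e40812_co.StVer
section

/-!
The check runs in polynomial time, so realizable face vectors have certificates of polynomial
size in the number of faces.
-/

namespace Pool.Agent.P.MP_e40812_co.St

open Finset Pool.Agent.Lib.PolyTime N68a2faeb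

section
variable {α : Type} [N487b59b3 α] {n m : α → ℕ}

theorem ptp_all (hn : PT n) (hs : Small n) {p : α → ℕ → Prop}
    (hp : PTP fun q : α × ℕ => p q.1 q.2) : PTP fun a => ∀ i, i < n a → p a i :=
  (PTP.forall_mem (hn.range hs) hp).congr fun a => by simp

theorem ptp_ex (hn : PT n) (hs : Small n) {p : α → ℕ → Prop}
    (hp : PTP fun q : α × ℕ => p q.1 q.2) : PTP fun a => ∃ i, i < n a ∧ p a i :=
  (PTP.exists_mem (hn.range hs) hp).congr fun a => by simp

theorem ptp_chk1 (hn : PT n) (sn : Small n) (hm : PT m) (sm : Small m) {J : α → ℕ → ℕ → Bool}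
    (hJ : PT fun q : α × ℕ × ℕ => J q.1 q.2.1 q.2.2) :
    PTP fun a => Chk1 fun (v : Fin (n a)) (A : Fin (m a)) => J a v A = true := by
  have e : ∀ {V F : Type} [LinearOrder V] (I : V → F → Prop), Chk1 I ↔
      (∀ u v A B C, u ≠ v → I u A → I v A → I u B → I v B → I u C → I v C →
        A = B ∨ A = C ∨ B = C) ∧
      (∀ v A, I v A → ∃ u w B C, u ≠ w ∧ Sq I v u A B ∧ Sq I v w A C) ∧
      (∀ v A u w x B C D, Sq I v u A B → Sq I v w A C → Sq I v x A D → u = w ∨ u = x ∨ w = x) ∧
      (∀ v, ∃ A, I v A) ∧ ∀ A u v, I u A → I v A → u < v → ∃ w B, w < v ∧ Sq I v w A B :=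
    fun I => ⟨fun h => ⟨h.three, h.two, h.le2, h.cover, h.mono⟩,
      fun h => ⟨⟨h.1, h.2.1, h.2.2.1, h.2.2.2.1⟩, h.2.2.2.2⟩⟩
  simp only [e, Sq, Fin.forall_iff, Fin.exists_iff, ne_eq, Fin.mk.injEq, Fin.mk_lt_mk, exists_prop]
  refine .and ?_ (.and ?_ (.and ?_ (.and ?_ ?_)))
  all_goals
    repeat' first
      | refine ptp_all (by fun_prop) (by fun_prop) ?_
      | refine ptp_ex (by fun_prop) (by fun_prop) ?_
      | fun_prop
      | refine PTP.imp (by fun_prop) ?_

open Classical in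
theorem pt_card (hn : PT n) (sn : Small n) {p : α → ℕ → Prop}
    (hp : PTP fun q : α × ℕ => p q.1 q.2) :
    PT fun a => (univ.filter fun v : Fin (n a) => p a v).card := by
  refine (PT.countP (f := fun a i => decide (p a i)) (hn.range sn) (PT.decide hp)).congr fun a => ?_
  rw [card_filter, Fin.sum_univ_eq_sum_range (fun i => if p a i then 1 else 0)]
  induction n a with
  | zero => rfl
  | succ k ih =>
    rw [sum_range_succ, ih, List.range_succ, List.countP_append]
    simp [List.countP_cons]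

theorem pt_sum (hn : PT n) (sn : Small n) {f : α → ℕ → ℕ}
    (hf : PT fun q : α × ℕ => f q.1 q.2) : PT fun a => ∑ v : Fin (n a), f a v := by
  refine (PT.sum (PT.map (hn.range sn) hf)).congr fun a => ?_
  rw [Fin.sum_univ_eq_sum_range (f a)]
  induction n a with
  | zero => rfl
  | succ k ih => simp [sum_range_succ, ih, List.range_succ]

theorem ptp_chk (hn : PT n) (sn : Small n) (hm : PT m) (sm : Small m) {J : α → ℕ → ℕ → Bool}
    (hJ : PT fun q : α × ℕ × ℕ => J q.1 q.2.1 q.2.2) :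
    PTP fun a => Chk fun (v : Fin (n a)) (A : Fin (m a)) => J a v A = true := by
  classical
  have h1 := ptp_chk1 hn sn hm sm hJ
  have h2 := ptp_chk1 hm sm hn sn (J := fun a A v => J a v A) (by fun_prop)
  have h3 : PTP fun a => ∀ u v : Fin (n a), u < v → ∃ w A B, w < v ∧
      Sq (fun (v : Fin (n a)) (A : Fin (m a)) => J a v A = true) v w A B := by
    simp only [Sq, Fin.forall_iff, Fin.exists_iff, ne_eq, Fin.mk.injEq, Fin.mk_lt_mk, exists_prop]
    repeat' first
      | refine ptp_all (by fun_prop) (by fun_prop) ?_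
      | refine ptp_ex (by fun_prop) (by fun_prop) ?_
      | fun_prop
      | refine PTP.imp (by fun_prop) ?_
  have h4 : PT fun a => fl fun (v : Fin (n a)) (A : Fin (m a)) => J a v A = true := by
    refine (pt_sum hn sn (f := fun a v => ∑ A : Fin (m a), if J a v A = true then 1 else 0)
      (pt_sum (f := fun (q : α × ℕ) A => if J q.1 q.2 A = true then 1 else 0)
        (by fun_prop) (by fun_prop) (by fun_prop))).congr fun a => ?_
    unfold fl
    congr!
  have h5 : PTP fun a => 0 < n a ∧ (fl fun (v : Fin (n a)) (A : Fin (m a)) => J a v A = true) + 4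
      ≤ 2 * (n a + m a) := by fun_prop
  exact (h1.and (h2.and (h3.and h5))).congr fun a =>
    ⟨fun h => ⟨h.p, h.d, h.glob, Fin.pos_iff_nonempty.2 h.ne, by simpa using h.euler⟩,
      fun h => ⟨h.1, h.2.1, h.2.2.1, Fin.pos_iff_nonempty.1 h.2.2.2.1, by simpa using h.2.2.2.2⟩⟩

end

open Classical in
/-- The number of vertices of the face `A` in the incidence matrix `w`. -/
noncomputable def fsz (n m : ℕ) (w : List Bool) (A : ℕ) : ℕ :=
  (univ.filter fun v : Fin n => w.getD (v * m + A) false = true).card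

open Classical in
/-- The string `w` is the incidence matrix of a polyhedral map with face vector `p`. -/
def Ver (p : List ℕ) (n m : ℕ) (w : List Bool) : Prop :=
  (Chk fun (v : Fin n) (A : Fin m) => w.getD (v * m + A) false = true) ∧
  (∀ i, i < p.length → (univ.filter fun A : Fin m => fsz n m w A = i + 3).card = p.getD i 0) ∧
  ∀ A, A < m → fsz n m w A < p.length + 3

theorem ptp_ver {α : Type} [N487b59b3 α] {p : α → List ℕ} {n m : α → ℕ} {w : α → List Bool}
    (hp : PT p) (hn : PT n) (sn : Small n) (hm : PT m) (sm : Small m) (hw : PT w) :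
    PTP fun a => Ver (p a) (n a) (m a) (w a) := by
  have h1 : PT fun q : α × ℕ => fsz (n q.1) (m q.1) (w q.1) q.2 :=
    (pt_card (n := fun q : α × ℕ => n q.1)
      (p := fun (q : α × ℕ) v => (w q.1).getD (v * m q.1 + q.2) false = true)
      (by fun_prop) (by fun_prop) (by fun_prop)).congr fun a => by
        unfold fsz
        congr!
  refine .and (ptp_chk hn sn hm sm (J := fun a v A => (w a).getD (v * m a + A) false)
    (by fun_prop)) (.and (ptp_all (by fun_prop) (by fun_prop) (PTP.eq ?_ (by fun_prop)))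
      (ptp_all hm sm (PTP.lt h1 (by fun_prop))))
  refine (pt_card (n := fun q : α × ℕ => m q.1)
    (p := fun (q : α × ℕ) A => fsz (n q.1) (m q.1) (w q.1) A = q.2 + 3) (by fun_prop) (by fun_prop)
    (PTP.eq (h1.comp (g := fun r : (α × ℕ) × ℕ => (r.1.1, r.2)) (by fun_prop))
      (by fun_prop))).congr fun a => ?_
  congr!

theorem Ver.sound {p : List ℕ} {n m : ℕ} {w : List Bool} (h : Ver p n m w) :
    ∃ P, IsPolyhedron P ∧ ∀ i, faceCount P (i + 3) = p.getD i 0 := by
  obtain ⟨P, hP, k⟩ := h.1.pol.poly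
  refine ⟨P, hP, fun i => ?_⟩
  rw [k]
  by_cases hi : i < p.length
  · rw [← h.2.1 i hi]
    unfold fsz
    congr!
  · rw [List.getD_eq_default _ _ (not_lt.1 hi), card_eq_zero, filter_eq_empty_iff]
    intro A _ e
    have h1 := h.2.2 A A.2
    have h2 : fsz n m w A = i + 3 := by
      unfold fsz
      convert e
    omega

theorem ver_complete {p : List ℕ}
    (h : ∃ P, IsPolyhedron P ∧ ∀ i, faceCount P (i + 3) = p.getD i 0) :
    ∃ n m, n ≤ 2 * m ∧ m ≤ ∑ i ∈ range p.length, p.getD i 0 ∧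
      ∀ L, n * m ≤ L → ∃ w : List Bool, w.length = L ∧ Ver p n m w := by
  classical
  obtain ⟨P, hP, hp⟩ := h
  obtain ⟨n, m, I, hI, k⟩ := chk_of_poly hP
  simp only [k] at hp
  have three : ∀ {V F : Type} [Fintype V] {I : V → F → Prop}, Loc I → ∀ v A, I v A →
      3 ≤ (univ.filter fun v => I v A).card := by
    intro V F _ I h v A hv
    obtain ⟨p, q, B, C, hpq, sp, sq⟩ := h.two v A hv
    exact two_lt_card_iff.2 ⟨v, p, q, by simpa using hv, by simpa using sp.vA,
      by simpa using sq.vA, sp.1, sq.1, hpq⟩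
  have lo : ∀ A, 3 ≤ (univ.filter fun v => I v A).card := fun A =>
    (hI.d.cover A).elim fun v hv => by convert three hI.p.toLoc v A hv
  have hi : ∀ A, (univ.filter fun v => I v A).card < p.length + 3 := fun A => by
    by_contra hn
    have := hp ((univ.filter fun v => I v A).card - 3)
    rw [List.getD_eq_default _ _ (by omega), card_eq_zero, filter_eq_empty_iff] at this
    refine this (mem_univ A) ?_
    have := lo A
    convert (Nat.sub_add_cancel this).symm
  refine ⟨n, m, ?_, ?_, fun L hL => ?_⟩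
  · have h1 : n * 3 ≤ fl I := by
      unfold fl
      have := card_nsmul_le_sum (univ : Finset (Fin n))
        (fun v => ∑ A, if I v A then 1 else 0) 3 fun v _ => by
          rw [← card_filter]
          exact (hI.p.cover v).elim fun A hA => three hI.d.toLoc A v hA
      rw [card_univ, Fintype.card_fin, smul_eq_mul] at this
      convert this
    have := hI.euler
    simp only [Fintype.card_fin] at this
    omega
  · simp only [← hp]
    refine le_trans ?_ card_biUnion_le
    conv_lhs => rw [← Fintype.card_fin m, ← card_univ]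
    refine card_le_card fun A _ => mem_biUnion.2 ⟨(univ.filter fun v => I v A).card - 3,
      mem_range.2 (by have := hi A; have := lo A; omega), mem_filter.2 ⟨mem_univ _, ?_⟩⟩
    convert (Nat.sub_add_cancel (lo A)).symm
  · obtain ⟨w, hw⟩ : ∃ w, w = (List.range L).map fun k =>
      decide (∃ (v : Fin n) (A : Fin m), k = v * m + A ∧ I v A) := ⟨_, rfl⟩
    have e : (fun (v : Fin n) (A : Fin m) => w.getD (v * m + A) false = true) = I := by
      funext v A
      have hlt : v * m + A < L := by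
        have := Nat.mul_le_mul_right m (Nat.succ_le_of_lt v.2)
        have := A.2
        rw [Nat.succ_mul] at *
        omega
      rw [hw, List.getD_eq_getElem _ _ (by simpa using hlt)]
      simp only [List.getElem_map, List.getElem_range, decide_eq_true_eq, eq_iff_iff]
      refine ⟨fun ⟨u, B, e, k⟩ => ?_, fun k => ⟨v, A, rfl, k⟩⟩
      have h1 := congrArg (· % m) e
      simp only [Nat.mul_add_mod_self_right, Nat.mod_eq_of_lt A.2, Nat.mod_eq_of_lt B.2] at h1
      obtain rfl : A = B := Fin.ext h1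
      obtain rfl : v = u := Fin.ext (Nat.eq_of_mul_eq_mul_right A.pos (by omega))
      exact k
    have e' : ∀ A : Fin m, fsz n m w A = (univ.filter fun v => I v A).card := fun A => by
      unfold fsz
      congr! 3 with v
      exact (congrFun (congrFun e v) A).to_iff
    refine ⟨w, by simp [hw], e ▸ hI, fun i _ => ?_, fun A hA => ?_⟩
    · simp only [e', ← hp]
    · exact (e' ⟨A, hA⟩).trans_lt (hi _)

/-- The realizable sequences in a polynomial-time set form a language in `NEXP`. -/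
theorem mem_nexp {S : List ℕ → Bool} (hS : PT S) : ∃ L ∈ NEXP, ∀ x, L x = true ↔
    ∃ p : List ℕ, x = N487b59b3.bitEncode p ∧ S p = true ∧
      ∃ P, IsPolyhedron P ∧ ∀ i, faceCount P (i + 3) = p.getD i 0 := by
  classical
  obtain ⟨R, hR, h⟩ : PTP fun q : List Bool × List Bool =>
      N487b59b3.bitEncode ((blocks q.1).map ofBits) = q.1 ∧ S ((blocks q.1).map ofBits) = true ∧
      ∃ n, n < q.2.length + 1 ∧ ∃ m, m < q.2.length + 1 ∧
        Ver ((blocks q.1).map ofBits) (min n q.2.length) (min m q.2.length) q.2 :=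
    .and (by fun_prop) (.and (by fun_prop) (ptp_ex (by fun_prop) (by fun_prop)
      (ptp_ex (by fun_prop) (by fun_prop) (ptp_ver (by fun_prop) (by fun_prop) (by fun_prop)
        (by fun_prop) (by fun_prop) (by fun_prop)))))
  refine ⟨fun x => decide _, ⟨Polynomial.C 4 * Polynomial.X + 1, R, hR.isPolyTime, fun x => ?_⟩,
    fun x => decide_eq_true_iff⟩
  simp only [decide_eq_true_eq, h]
  refine ⟨?_, fun ⟨w, _, k1, k2, n, _, m, _, k⟩ => ⟨_, k1.symm, k2, k.sound⟩⟩
  rintro ⟨p, rfl, k1, k2⟩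
  have e : (blocks (N487b59b3.bitEncode p)).map ofBits = p := by
    rw [blocks_enc, List.map_map]
    conv_rhs => rw [← List.map_id p]
    exact List.map_congr_left fun n _ => by simp [enc_nat, ofBits_bits]
  obtain ⟨n, m, h1, h2, h3⟩ := ver_complete k2
  have h4 : m ≤ 2 ^ sz p * 2 ^ sz p := by
    refine h2.trans ((sum_le_card_nsmul _ _ (2 ^ sz p) fun i hi => ?_).trans ?_)
    · rw [List.getD_eq_getElem _ _ (mem_range.1 hi)]
      exact (sz_le_iff.1 (sz_le_of_mem (List.getElem_mem _))).le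
    · rw [card_range, smul_eq_mul]
      exact Nat.mul_le_mul_right _ ((length_le_sz p).trans Nat.lt_two_pow_self.le)
  have h5 : 2 ^ (Polynomial.C 4 * Polynomial.X + 1 : Polynomial ℕ).eval
      (N487b59b3.bitEncode p).length = 2 * (2 ^ sz p * 2 ^ sz p) * (2 ^ sz p * 2 ^ sz p) := by
    simp only [Polynomial.eval_add, Polynomial.eval_mul, Polynomial.eval_C, Polynomial.eval_X,
      Polynomial.eval_one, sz]
    ring
  rw [h5, e]
  have h6 : 1 ≤ 2 ^ sz p * 2 ^ sz p := Nat.one_le_iff_ne_zero.2 (by positivity)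
  generalize 2 ^ sz p * 2 ^ sz p = N at h4 h6
  obtain ⟨w, hw, k⟩ := h3 (2 * N * N) (Nat.mul_le_mul (by omega) h4)
  have h7 : 2 * N ≤ w.length := by rw [hw]; nlinarith
  refine ⟨w, hw, rfl, k1, n, by omega, m, by omega, ?_⟩
  rwa [min_eq_left (by omega), min_eq_left (by omega)]

end Pool.Agent.P.MP_e40812_co.St
end

-- part Pool.Agent.P.MP_e40812_co.XPoly
section

/-! Polynomials against powers of two, padded codes, and the list of all short strings. -/

namespace Pool.Agent.P.MP_e40812_co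

open Finset Pool.Agent.Lib.PolyTime N487b59b3

theorem poly_le_mul_pow (P : Polynomial ℕ) {j : ℕ} (hj : 1 ≤ j) :
    P.eval j ≤ P.eval 1 * j ^ P.natDegree := by
  rw [Polynomial.eval_eq_sum_range, Polynomial.eval_eq_sum_range, sum_mul]
  refine sum_le_sum fun i hi => ?_
  rw [one_pow, mul_one]
  exact Nat.mul_le_mul_left _ (Nat.pow_le_pow_right hj (by simpa [Nat.lt_succ_iff] using hi))

theorem poly_le_two_pow (P : Polynomial ℕ) : ∃ j₀, ∀ j, j₀ ≤ j → P.eval j ≤ 2 ^ j := by
  have key : ∀ c d : ℕ, ∀ᶠ j : ℕ in Filter.atTop, c * j ^ d ≤ 2 ^ j := by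
    intro c d
    have h := (tendsto_pow_const_div_const_pow_of_one_lt d (show (1 : ℝ) < 2 by norm_num)).const_mul
      (c : ℝ)
    rw [mul_zero] at h
    filter_upwards [h.eventually (gt_mem_nhds one_pos)] with j hj
    rw [← mul_div_assoc, div_lt_one (by positivity)] at hj
    exact_mod_cast hj.le
  obtain ⟨j₀, h⟩ := Filter.eventually_atTop.1 ((key (P.eval 1) P.natDegree).and
    (Filter.eventually_ge_atTop 1))
  exact ⟨j₀, fun j hj => (poly_le_mul_pow P (h j hj).2).trans (h j hj).1⟩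

theorem poly_two_pow (P : Polynomial ℕ) : ∃ d, ∀ j, P.eval (2 ^ j) ≤ 2 ^ (d * j + d) := by
  refine ⟨P.eval 1 + P.natDegree, fun j => (poly_le_mul_pow P Nat.one_le_two_pow).trans ?_⟩
  rw [← pow_mul, pow_add, mul_comm (2 ^ _)]
  refine Nat.mul_le_mul (Nat.lt_two_pow_self.le.trans (Nat.pow_le_pow_right (by omega) (by omega)))
    (Nat.pow_le_pow_right (by omega) ?_)
  rw [mul_comm]
  exact Nat.mul_le_mul_right _ (by omega)

/-- A number at least `2 ^ l` from which `h` can be read. -/
def pad (h : List Bool) (l : ℕ) : ℕ := ofBits ((delimit h ++ List.replicate l false) ++ [true])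

theorem head_pad (h : List Bool) (l : ℕ) : (blocks (pad h l).bits).headD [] = h := by
  rw [pad, bits_ofBits_concat, List.append_assoc, headD_blocks]

theorem le_pad (h : List Bool) (l : ℕ) : 2 ^ l ≤ pad h l := by
  rw [pad, ofBits_concat]
  refine le_add_left ?_
  simp only [Bool.toNat_true, one_mul]
  exact Nat.pow_le_pow_right (by omega) (by simp)

theorem sz_pad (h : List Bool) (l : ℕ) : sz (pad h l) = 2 * h.length + l + 2 := by
  rw [sz, enc_nat, pad, bits_ofBits_concat]
  simp
  omega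

variable {α : Type} [N487b59b3 α]

@[fun_prop] theorem pt_pad {h : α → List Bool} {l : α → ℕ} (hh : PT h) (hl : PT l)
    (hs : Small l) : PT fun a => pad (h a) (l a) := by
  have : PT fun a => delimit (h a) :=
    (show PT fun a => (h a).flatMap (fun b => [true, b]) ++ [false] by fun_prop).congr fun a => by
      induction h a with
      | nil => rfl
      | cons b l ih => simp [delimit, ih]
  unfold pad
  fun_prop

/-- All strings `w` with `2 ^ (w.length + 1) ≤ m`, and possibly others. -/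
def allStr (m : ℕ) : List (List Bool) := (List.range m).map fun n => n.bits.dropLast

theorem mem_allStr {w : List Bool} {m : ℕ} (h : 2 ^ (w.length + 1) ≤ m) : w ∈ allStr m := by
  refine List.mem_map.2 ⟨ofBits (w ++ [true]), List.mem_range.2 ?_, ?_⟩
  · simpa using (ofBits_lt (w ++ [true])).trans_le (by simpa using h)
  · rw [bits_ofBits_concat, List.dropLast_concat]

@[fun_prop] theorem pt_allStr {m : α → ℕ} (hm : PT m) (hs : Small m) :
    PT fun a => allStr (m a) := by
  unfold allStr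
  fun_prop

end Pool.Agent.P.MP_e40812_co
end

-- part Pool.Agent.P.MP_e40812_co.XDiag
section

/-! Delayed diagonalisation. -/

namespace Pool.Agent.P.MP_e40812_co

open Finset Pool.Agent.Lib.PolyTime N68a2faeb

/-- The parameters stored in a header. -/
def xdiag_par (H : List Bool) (i : ℕ) : ℕ := ((decCode H).headD []).getD i 0

/-- The two lengths that belong to a header. -/
def xdiag_len (H : List Bool) (j : Bool) (m : ℕ) : ℕ := pad (j :: H) (min (xdiag_par H j.toNat) m)

/-- The clocked verifier that belongs to a header. -/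
def xdiag_acc (H : List Bool) (j : Bool) (m : ℕ) (w : List Bool) : Bool :=
  decide (w.length ≤ xdiag_par H 2) &&
    (urun (decCode H).tail (N487b59b3.bitEncode (xdiag_len H j m, w)) m == [true])

/-- The diagonal problem, after reading the header. -/
def xdiag_V (G : List Bool) (y : List Bool) : Bool :=
  bif G.headD false then (allStr y.length).all fun w => !xdiag_acc G.tail false y.length w
  else xdiag_acc G.tail (decide (xdiag_par G.tail 3 = 1)) y.length ((blocks y).headD [])

/-- The diagonal problem. -/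
def xdiag_U (y : List Bool) : Bool := xdiag_V ((blocks y.length.bits).headD []) y

section

variable {α : Type} [N487b59b3 α]

@[fun_prop] theorem xdiag_pt_par {H : α → List Bool} {i : α → ℕ} (hH : PT H) (hi : PT i) :
    PT fun a => xdiag_par (H a) (i a) := by
  unfold xdiag_par
  fun_prop

@[fun_prop] theorem xdiag_pt_len {H : α → List Bool} {j : α → Bool} {m : α → ℕ} (hH : PT H)
    (hj : PT j) (hm : PT m) (hs : Small m) : PT fun a => xdiag_len (H a) (j a) (m a) := by
  unfold xdiag_len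
  fun_prop

@[fun_prop] theorem xdiag_pt_acc {H w : α → List Bool} {j : α → Bool} {m : α → ℕ} (hH : PT H)
    (hj : PT j) (hm : PT m) (hs : Small m) (hw : PT w) :
    PT fun a => xdiag_acc (H a) (j a) (m a) (w a) := by
  unfold xdiag_acc
  fun_prop

end

theorem xdiag_pt : PT xdiag_U := by
  unfold xdiag_U xdiag_V
  fun_prop

theorem xdiag_key {W : ℕ × List Bool → Bool} (hW : PT W) (P : Polynomial ℕ)
    (hP : ∀ m w, W (m, w) = true → w.length ≤ P.eval (sz m)) (j : Bool) :
    ∃ m0 m1 : ℕ, ((∃ y : List Bool, y.length = m0 ∧ xdiag_U y = true) ↔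
      ∃ w, W (bif j then m1 else m0, w) = true) ∧
      ((∃ y : List Bool, y.length = m1 ∧ xdiag_U y = true) ↔ ¬ ∃ w, W (m0, w) = true) := by
  obtain ⟨e, q, he⟩ := exists_code hW.isPolyTime
  obtain ⟨S0, hS0⟩ : ∃ S0 : Polynomial ℕ, ∀ t, S0.eval t = 25 * t + 30 + 2 * sz e :=
    ⟨Polynomial.C 25 * Polynomial.X + Polynomial.C (30 + 2 * sz e), fun t => by
      simp only [Polynomial.eval_add, Polynomial.eval_mul, Polynomial.eval_C, Polynomial.eval_X]
      omega⟩
  obtain ⟨L1, hL1⟩ : ∃ L1 : Polynomial ℕ, ∀ t, L1.eval t = P.eval (S0.eval t) + 1 + t :=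
    ⟨P.comp S0 + 1 + Polynomial.X, fun t => by simp⟩
  obtain ⟨L2, hL2⟩ : ∃ L2 : Polynomial ℕ, ∀ t, L2.eval t = P.eval (S0.eval t + L1.eval t) :=
    ⟨P.comp (S0 + L1), fun t => by simp⟩
  obtain ⟨Q, hQ⟩ : ∃ Q : Polynomial ℕ, ∀ t, Q.eval t = L1.eval t + 2 * L2.eval t + 2 +
      q.eval (2 * (S0.eval t + L1.eval t) + 1 + 3 * L2.eval t) :=
    ⟨L1 + Polynomial.C 2 * L2 + Polynomial.C 2 +
      q.comp (Polynomial.C 2 * (S0 + L1) + 1 + Polynomial.C 3 * L2), fun t => by
      simp only [Polynomial.eval_add, Polynomial.eval_mul, Polynomial.eval_C, Polynomial.eval_comp,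
        Polynomial.eval_one]⟩
  obtain ⟨t, ht⟩ := poly_le_two_pow Q
  have h0 := ht t le_rfl
  rw [hQ] at h0
  have e0 := hS0 t
  have e1 := hL1 t
  have e2 := hL2 t
  generalize S0.eval t = s0 at h0 e0 e1 e2
  generalize L1.eval t = l1 at h0 e1 e2
  generalize L2.eval t = l2 at h0 e2
  obtain ⟨H, hH⟩ : ∃ H, H = N487b59b3.bitEncode ([t, l1, l2, j.toNat] :: e) := ⟨_, rfl⟩
  have hd : decCode H = [t, l1, l2, j.toNat] :: e := by rw [hH, decCode_enc]
  have t0 : t < 2 ^ t := Nat.lt_two_pow_self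
  have hlen : H.length ≤ 12 * t + 13 + sz e := by
    have a0 : sz t ≤ t := sz_le_self t
    have a1 : sz l1 ≤ t := sz_le_iff.2 (by omega)
    have a2 : sz l2 ≤ t := sz_le_iff.2 (by omega)
    have a3 : sz j.toNat ≤ 1 := (sz_le_self _).trans (Bool.toNat_le j)
    have : H.length = sz ([t, l1, l2, j.toNat] :: e) := by rw [hH]; rfl
    simp only [sz_cons, sz_nil] at this
    omega
  obtain ⟨M, hM⟩ : ∃ M : Bool → ℕ, ∀ i, M i = pad (i :: H) (bif i then l1 else t) := ⟨_, fun _ => rfl⟩
  have hge : ∀ i, 2 ^ t ≤ M i := fun i => by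
    rw [hM]
    refine le_trans (Nat.pow_le_pow_right (by omega) ?_) (le_pad _ _)
    cases i <;> simp only [cond_true, cond_false] <;> omega
  have hsz0 : sz (M false) ≤ s0 := by
    rw [hM, sz_pad, List.length_cons, cond_false]
    omega
  have hsz : ∀ i, sz (M i) ≤ s0 + l1 := fun i => by
    cases i
    · omega
    · rw [hM, sz_pad, List.length_cons, cond_true]
      omega
  have hl : ∀ i m, 2 ^ t ≤ m → xdiag_len H i m = M i := fun i m hm => by
    rw [hM, xdiag_len, xdiag_par, hd]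
    cases i
    · exact congrArg _ (min_eq_left (show t ≤ m by omega))
    · exact congrArg _ (min_eq_left (show l1 ≤ m by omega))
  have hw2 : ∀ i w, W (M i, w) = true → w.length ≤ l2 := fun i w h =>
    (hP _ _ h).trans (e2 ▸ eval_mono P (hsz i))
  have hacc : ∀ i m w, 2 ^ t ≤ m → (xdiag_acc H i m w = true ↔ W (M i, w) = true) := by
    intro i m w hm
    have p2 : xdiag_par H 2 = l2 := by rw [xdiag_par, hd]; rfl
    have run : w.length ≤ l2 →
        urun e (N487b59b3.bitEncode (M i, w)) m = [W (M i, w)] := fun h => by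
      refine he (M i, w) m (le_trans (eval_mono q ?_) (le_trans (Nat.le_add_left _ _) (h0.trans hm)))
      have := hsz i
      rw [sz_pair, sz_str]
      omega
    rw [xdiag_acc, p2, hl i m hm, hd, List.tail_cons, Bool.and_eq_true, decide_eq_true_eq, beq_iff_eq]
    constructor
    · rintro ⟨h1, h2⟩
      rw [run h1] at h2
      simpa using h2
    · intro h
      exact ⟨hw2 i w h, by rw [run (hw2 i w h), h]⟩
  have hU : ∀ i (y : List Bool), y.length = M i → xdiag_U y = xdiag_V (i :: H) y := fun i y h => by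
    rw [xdiag_U, h, hM, head_pad]
  have p3 : decide (xdiag_par H 3 = 1) = j := by
    rw [xdiag_par, hd]
    cases j <;> rfl
  have hj : (bif j then M true else M false) = M j := by cases j <;> rfl
  refine ⟨M false, M true, ?_, ?_⟩
  · have k : ∀ y : List Bool, y.length = M false →
        (xdiag_U y = true ↔ W (M j, (blocks y).headD []) = true) := fun y h => by
      rw [hU false y h, xdiag_V, List.headD_cons, cond_false, List.tail_cons, p3,
        hacc _ _ _ (h ▸ hge false)]
    rw [hj]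
    constructor
    · rintro ⟨y, h1, h2⟩
      exact ⟨_, (k y h1).1 h2⟩
    · rintro ⟨w, hw⟩
      have h1 := hw2 j w hw
      have h2 := hge false
      have h3 : (N487b59b3.delimit w ++ List.replicate (M false - (2 * w.length + 1)) false).length =
          M false := by
        simp
        omega
      refine ⟨_, h3, (k _ h3).2 ?_⟩
      rwa [headD_blocks]
  · have k : ∀ y : List Bool, y.length = M true →
        (xdiag_U y = true ↔ ¬ ∃ w, W (M false, w) = true) := fun y h => by
      rw [hU true y h, xdiag_V, List.headD_cons, cond_true, List.tail_cons, List.all_eq_true, h]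
      constructor
      · rintro h1 ⟨w, hw⟩
        have h2 := (hP _ _ hw).trans (eval_mono P hsz0)
        have h3 : 2 ^ (w.length + 1) ≤ M true := by
          rw [hM]
          exact le_trans (Nat.pow_le_pow_right (by omega) (show _ ≤ l1 by omega)) (le_pad _ _)
        have h4 := h1 w (mem_allStr h3)
        rw [(hacc _ _ _ (hge true)).2 hw] at h4
        exact absurd h4 (by simp)
      · intro h1 w _
        rw [Bool.not_eq_true', Bool.eq_false_iff]
        exact fun h2 => h1 ⟨w, (hacc _ _ _ (hge true)).1 h2⟩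
    constructor
    · rintro ⟨y, h1, h2⟩
      exact (k y h1).1 h2
    · intro h
      exact ⟨List.replicate (M true) false, by simp, (k _ (by simp)).2 h⟩

theorem xdiag_np {g : ℕ → List ℕ} (hg : PT g) {L : DecisionProblem} (hL : L ∈ NP) :
    ∃ (W : ℕ × List Bool → Bool) (P : Polynomial ℕ), PT W ∧
      (∀ m w, W (m, w) = true → w.length ≤ P.eval (sz m)) ∧
      ∀ m, L (N487b59b3.bitEncode (g m)) = true ↔ ∃ w, W (m, w) = true := by
  obtain ⟨p, R, hR, h⟩ := mem_NP_iff.1 hL
  obtain ⟨r, hr⟩ := hg.size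
  refine ⟨fun a => decide (a.2.length ≤ p.eval (sz (g a.1))) &&
    R (N487b59b3.bitEncode (g a.1), a.2), p.comp r, by fun_prop, fun m w hw => ?_, fun m => ?_⟩
  · simp only [Bool.and_eq_true, decide_eq_true_eq] at hw
    rw [Polynomial.eval_comp]
    exact hw.1.trans (eval_mono p (hr m))
  · simp only [Bool.and_eq_true, decide_eq_true_eq]
    exact h _

/-- A unary problem that escapes `NP` and `coNP` along every polynomial-time map. -/
theorem exists_diagonal : ∃ U : List Bool → Bool, PT U ∧ ∀ g : ℕ → List ℕ, PT g →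
    ∀ L : DecisionProblem, L ∈ NP ∨ L ∈ coNP →
      ¬ ∀ m, L (N487b59b3.bitEncode (g m)) = true ↔
        ∃ y : List Bool, y.length = m ∧ U y = true := by
  refine ⟨xdiag_U, xdiag_pt, fun g hg L hL h => ?_⟩
  rcases hL with hL | hL
  · obtain ⟨W, P, h1, h2, h3⟩ := xdiag_np hg hL
    obtain ⟨m0, m1, k1, k2⟩ := xdiag_key h1 P h2 true
    rw [cond_true, ← h, ← h3] at k1
    rw [← h, ← h3] at k2
    tauto
  · obtain ⟨W, P, h1, h2, h3⟩ := xdiag_np hg (show Lᶜ ∈ NP from hL)
    obtain ⟨m0, m1, k1, -⟩ := xdiag_key h1 P h2 false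
    rw [cond_false, ← h, ← h3] at k1
    simp at k1

end Pool.Agent.P.MP_e40812_co
end

-- part Pool.Agent.P.MP_e40812_co.XDefs
section

/-! Definitions for the simulation of tilings by degree sequences of triangulated spheres. -/

namespace Pool.Agent.P.MP_e40812_co

open Finset Pool.Agent.Lib.PolyTime
open scoped Classical

/-- The vertices of `K` with property `P` are perfectly matched along edges. -/
def Mt {ι : Type} [DecidableEq ι] (K : Finset ι) (G : Finset (Finset ι)) (P : ι → Prop) : Prop :=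
  ∃ μ : ι → ι, ∀ v ∈ K, P v → μ v ∈ K ∧ P (μ v) ∧ μ (μ v) = v ∧ Nb G v (μ v)

/-- The degrees after `n` levels of stacking; `u` are the final degrees of the old vertices. -/
noncomputable def dmul : ℕ → Multiset ℕ → Multiset ℕ
  | 0, u => u
  | n + 1, u => dmul n (u + Multiset.replicate (2 * u.card - 4) (3 * 2 ^ n) +
      Multiset.replicate (u.countP (fun x => x.testBit n = true) / 2) (4 * 2 ^ n))

/-- The multiset of face sizes of a convex polyhedron. -/
def Rz (s : Multiset ℕ) : Prop :=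
  ∃ P, IsPolyhedron P ∧ ∀ i, faceCount P (i + 3) = s.count (i + 3)

/-- The list `p_3, p_4, ...` is realisable. -/
def RzL (p : List ℕ) : Prop := ∃ P, IsPolyhedron P ∧ ∀ i, faceCount P (i + 3) = p.getD i 0

/-- The equation of simple polyhedra. -/
def Eu (p : List ℕ) : Prop :=
  ∑ i ∈ Finset.range p.length, (6 - (i + 3 : ℤ)) * (p.getD i 0 : ℕ) = 12

section typed

variable {X Y : Type} [Fintype Y] (d : X → ℕ) (b : X → Finset Y)

/-- The final degree of a vertex of type `x`: degree `d x` on top, layers `b x` as binary digits. -/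
noncomputable def vl (x : X) : ℕ :=
  2 ^ Fintype.card Y * d x + ∑ l ∈ b x, 2 ^ (Fintype.equivFin Y l : ℕ)

/-- The multiset of all degrees. -/
noncomputable def dm (u : Multiset X) : Multiset ℕ := dmul (Fintype.card Y) (u.map (vl d b))

/-- The numerical conditions on the types. -/
def OK (u : Multiset X) : Prop :=
  (∀ x ∈ u, 3 ≤ d x) ∧ 4 ≤ u.card ∧ (u.map d).sum + 12 = 6 * u.card ∧
    ∀ l, Even (u.countP fun x => l ∈ b x)

/-- The vertices carry the types `u`, with the right degrees and a matching in every layer. -/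
def Top {ι : Type} [DecidableEq ι] (K : Finset ι) (G : Finset (Finset ι)) (u : Multiset X) : Prop :=
  ∃ ty : ι → X, K.val.map ty = u ∧ (∀ v ∈ K, deg G v = d (ty v)) ∧
    ∀ l, Mt K G fun v => l ∈ b (ty v)

end typed

/-- Colours of the east, north, west and south sides of a tile. -/
abbrev Q (C : Type) : Type := C × C × C × C

/-- The tile with four sides of colour `c`. -/
def q4 {C : Type} (c : C) : Q C := (c, c, c, c)

/-- Layers: a class and a sector, or a class, a direction and a colour. -/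
abbrev Ly (C : Type) : Type := (ZMod 7 × Fin 6) ⊕ (ZMod 7 × Bool × C)

/-- Types of base vertices: degree, class, sectors with lattice faces, tile. -/
abbrev BT (C : Type) : Type := Fin 7 × ZMod 7 × Finset (Fin 6) × Q C

/-- Types of faces: junk, `{x, x + 1, x + 3}` (`false`) or `{x, x + 2, x + 3}` (`true`). -/
abbrev FT : Type := Option (ZMod 7 × Bool)

/-- The layers of a base vertex. -/
def hasA {C : Type} (bl : C) (a : BT C) : Ly C → Prop
  | .inl (γ, k) => γ = a.2.1 ∧ k ∈ a.2.2.1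
  | .inr (γ, false, c) => c ≠ bl ∧
      ((γ = a.2.1 ∧ a.2.2.2.1 = c) ∨ (γ + 1 = a.2.1 ∧ a.2.2.2.2.2.1 = c))
  | .inr (γ, true, c) => c ≠ bl ∧
      ((γ = a.2.1 ∧ a.2.2.2.2.1 = c) ∨ (γ + 3 = a.2.1 ∧ a.2.2.2.2.2.2 = c))

/-- The layers of a face. -/
def hasB {C : Type} : FT → Ly C → Prop
  | some (x, false), .inl (γ, k) => (γ = x ∧ k = 0) ∨ (γ = x + 1 ∧ k = 2) ∨ (γ = x + 3 ∧ k = 4)
  | some (x, true), .inl (γ, k) => (γ = x ∧ k = 1) ∨ (γ = x + 2 ∧ k = 5) ∨ (γ = x + 3 ∧ k = 3)
  | _, _ => False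

/-- Degrees after stacking every face once. -/
def dX {C : Type} : BT C ⊕ FT → ℕ
  | .inl a => 2 * (a.1 : ℕ)
  | .inr _ => 3

/-- Layers of base vertices and faces. -/
noncomputable def bX {C : Type} [Fintype C] (bl : C) : BT C ⊕ FT → Finset (Ly C)
  | .inl a => univ.filter (hasA bl a)
  | .inr f => univ.filter (hasB f)

/-- Base vertices and faces together. -/
def uX {C : Type} (A : Multiset (BT C)) (B : Multiset FT) : Multiset (BT C ⊕ FT) :=
  A.map Sum.inl + B.map Sum.inr

/-- The numerical conditions on base vertices and faces. -/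
def OK2 {C : Type} (bl : C) (A : Multiset (BT C)) (B : Multiset FT) : Prop :=
  (∀ a ∈ A, 3 ≤ (a.1 : ℕ) ∧ (a.2.2.2 ≠ q4 bl → a.1 = 6 ∧ a.2.2.1 = univ)) ∧ 4 ≤ A.card ∧
    B.card + 4 = 2 * A.card ∧ ∀ l : ZMod 7 × Fin 6,
      A.countP (fun a => hasA bl a (.inl l)) = B.countP fun f => hasB (C := C) f (.inl l)

/-- A finite piece of a grid of tiles with matching colours. -/
structure PG (ι C : Type) (bl : C) where
  /-- the tiles that are not blank -/
  S : Finset ι
  /-- colours -/
  col : ι → Q C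
  /-- east -/
  e : ι → ι
  /-- north -/
  n : ι → ι
  /-- west -/
  w : ι → ι
  /-- south -/
  s : ι → ι
  he : ∀ v ∈ S, (col v).1 ≠ bl → e v ∈ S ∧ (col (e v)).2.2.1 = (col v).1 ∧ w (e v) = v
  hn : ∀ v ∈ S, (col v).2.1 ≠ bl → n v ∈ S ∧ (col (n v)).2.2.2 = (col v).2.1 ∧ s (n v) = v
  comm : ∀ v ∈ S, e v ∈ S → n v ∈ S → n (e v) = e (n v)

/-- A tiling of the spiral of circumference `c`, blank outside `[0, len)`. -/
def Val {C : Type} (bl : C) (c len : ℕ) (g : ℤ → Q C) : Prop :=
  (∀ n, (g n).1 = (g (n + 1)).2.2.1) ∧ (∀ n, (g n).2.1 = (g (n + c)).2.2.2) ∧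
    ∀ n, (n < 0 ∨ (len : ℤ) ≤ n) → g n = q4 bl

/-- The tiles of a tiling of the spiral with their classes. -/
def tl {C : Type} (len : ℕ) (g : ℤ → Q C) : Multiset (ZMod 7 × Q C) :=
  (Multiset.range len).map fun n : ℕ => ((n : ZMod 7), g n)

/-- A tiling of the spiral whose tiles that are not blank form `μ`. -/
def Sp {C : Type} (bl : C) (c len : ℕ) (μ : Multiset (ZMod 7 × Q C)) : Prop :=
  ∃ g, Val bl c len g ∧ (tl len g).filter (fun p => p.2 ≠ q4 bl) = μ

/-- Blank tiles are added until every class has `k` tiles. -/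
noncomputable def fill {C : Type} (bl : C) (k : ℕ) (μ : Multiset (ZMod 7 × Q C)) :
    Multiset (ZMod 7 × Q C) :=
  μ + ∑ β : ZMod 7, Multiset.replicate (k - μ.countP fun p => p.1 = β) (β, q4 bl)

/-- Degrees on the tube with `M` vertices and circumference `2 s + 1`. -/
def dg (s M v : ℕ) : ℕ :=
  if v = 0 then 3 else if v = s then 4 else if v = s + 1 then 5 else
    if v + 1 = M then 4 else if v + 2 = M then 5 else 6

/-- Types of the first ring. -/
def botT {C : Type} (bl : C) (s v : ℕ) : BT C :=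
  (if v = 0 then 3 else if v = s then 4 else if v = s + 1 then 5 else 6, (v : ZMod 7) + 4,
    if v = 0 then {0, 1} else if v = 2 * s then {0, 1, 2, 5} else {0, 1, 2}, q4 bl)

/-- Types of the last ring. -/
def topT {C : Type} (bl : C) (s len i : ℕ) : BT C :=
  (if i = 2 * s then 4 else if i + 1 = 2 * s then 5 else 6, ((len + i : ℕ) : ZMod 7),
    if i = 0 then {2, 3, 4, 5} else if i = 2 * s then {3, 4} else {3, 4, 5}, q4 bl)

/-- The base vertices of the tube. -/
def exA {C : Type} (bl : C) (s len : ℕ) (T : Multiset (ZMod 7 × Q C)) : Multiset (BT C) :=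
  (Multiset.range (2 * s + 1)).map (botT bl s) + T.map (fun p => (6, p.1, univ, p.2)) +
    (Multiset.range (2 * s + 1)).map (topT bl s len) +
    Multiset.replicate (s - 1) (6, 0, ∅, q4 bl) + {(3, 0, ∅, q4 bl)}

/-- The faces of the tube. -/
def exB (s len : ℕ) : Multiset FT :=
  (Multiset.range (2 * s + 1 + len)).map (fun n : ℕ => some ((n : ZMod 7) + 4, false)) +
    (Multiset.range (2 * s + 1 + len)).map (fun n : ℕ => some ((n : ZMod 7) + 4, true)) +
    Multiset.replicate (6 * s - 2) none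

/-- The face in sector `k` of the vertex `v` of the tube has smallest vertex `v - off s k`. -/
def off (s : ℕ) : Fin 6 → ℕ := ![0, 0, 1, 2 * s + 1, 2 * s + 1, 2 * s]

/-- The six directions. -/
def dl : Fin 6 → ZMod 7 := ![1, 3, 2, 6, 4, 5]

/-- A set of tiles with boundary colours. -/
structure WS (D : Type) where
  /-- the tiles -/
  τ : Finset (Q D)
  /-- left -/
  L : D
  /-- right -/
  R : D
  /-- bottom, first part -/
  B1 : D
  /-- bottom, marker -/
  B2 : D
  /-- bottom, last part -/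
  B0 : D
  /-- top -/
  Tp : D

/-- The colours along the bottom side. -/
def WS.bot {D : Type} (W : WS D) (m i : ℕ) : D :=
  if i < m then W.B1 else if i = m then W.B2 else W.B0

/-- `h i j` is the colour left of the cell `(i, j)`, `v i j` the colour below it. -/
def WS.Til {D : Type} (W : WS D) (m a : ℕ) (h v : ℕ → ℕ → D) : Prop :=
  (∀ i < a, ∀ j < a, (h (i + 1) j, v i (j + 1), h i j, v i j) ∈ W.τ) ∧
    (∀ j < a, h 0 j = W.L ∧ h a j = W.R) ∧ ∀ i < a, v i 0 = W.bot m i ∧ v i a = W.Tp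

/-- Colours of the padded system: blank, data with one bit, six special colours. -/
abbrev PC (D : Type) : Type := Option ((D × Bool) ⊕ Fin 6)

/-- Data colours. -/
def dat {D : Type} (d : D) (b : Bool) : PC D := some (.inl (d, b))

/-- Special colours: `0`, `1` bottom frame, `2` left, `3` right, `4` top frame, `5` cap. -/
def spc {D : Type} (i : Fin 6) : PC D := some (.inr i)

section tiles

variable {D : Type}

/-- A tile with the bits `x` (west), `y` (south), both raised if `f`. -/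
def tok (t : Q D) (x y f : Bool) : Q (PC D) :=
  (dat t.1 (x || f), dat t.2.1 (y || f), dat t.2.2.1 (x && !f), dat t.2.2.2 (y && !f))

/-- The tokens. -/
noncomputable def WS.TK (W : WS D) : Finset (Q (PC D)) :=
  (W.τ ×ˢ (univ : Finset (Bool × Bool × Bool))).image fun p => tok p.1 p.2.1 p.2.2.1 p.2.2.2

/-- Absorber east of a token. -/
def aE (c : PC D) : Q (PC D) := (none, none, c, none)
/-- Absorber west of a token. -/
def aW (c : PC D) : Q (PC D) := (c, none, none, none)
/-- Absorber north of a token. -/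
def aN (c : PC D) : Q (PC D) := (spc 5, none, none, c)
/-- Absorber south of a token. -/
def aS (c : PC D) : Q (PC D) := (none, c, none, none)
/-- The tile east of a northern absorber. -/
def cap : Q (PC D) := (none, none, spc 5, none)
/-- South-west corner of the frame. -/
def tSW : Q (PC D) := (spc 0, spc 2, none, none)
/-- Bottom side, first part. -/
def WS.tB1 (W : WS D) : Q (PC D) := (spc 0, dat W.B1 false, spc 0, none)
/-- Bottom side, marker. -/
def WS.tX (W : WS D) : Q (PC D) := (spc 1, dat W.B2 false, spc 0, none)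
/-- Bottom side, last part. -/
def WS.tB0 (W : WS D) : Q (PC D) := (spc 1, dat W.B0 false, spc 1, none)
/-- South-east corner. -/
def tSE : Q (PC D) := (none, spc 3, spc 1, none)
/-- Left side. -/
def WS.tL (W : WS D) : Q (PC D) := (dat W.L false, spc 2, none, spc 2)
/-- Right side. -/
def WS.tR (W : WS D) : Q (PC D) := (none, spc 3, dat W.R true, spc 3)
/-- North-west corner. -/
def tNW : Q (PC D) := (spc 4, none, none, spc 2)
/-- Top side. -/
def WS.tT (W : WS D) : Q (PC D) := (spc 4, none, spc 4, dat W.Tp true)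
/-- North-east corner. -/
def tNE : Q (PC D) := (none, none, spc 4, spc 3)

/-- The tiles of the padded system. -/
def WS.Al (W : WS D) (q : Q (PC D)) : Prop :=
  q ∈ W.TK ∨ (∃ d b, q = aE (dat d b) ∨ q = aW (dat d b) ∨ q = aN (dat d b) ∨ q = aS (dat d b)) ∨
    q = cap ∨ q = tSW ∨ q = W.tB1 ∨ q = W.tX ∨ q = W.tB0 ∨ q = tSE ∨ q = W.tL ∨ q = W.tR ∨
    q = tNW ∨ q = W.tT ∨ q = tNE

/-- The bottom side of the frame starts at `v`. -/
def WS.Chain {ι : Type} (W : WS D) (P : PG ι (PC D) none) (m a : ℕ) (v : ι) : Prop :=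
  ∀ i ≤ a + 1, P.e^[i] v ∈ P.S ∧ P.col (P.e^[i] v) =
    if i = 0 then tSW else if i ≤ m then W.tB1 else if i = m + 1 then W.tX else
      if i ≤ a then W.tB0 else tSE

/-- The class of the point `(x, y)`. -/
def cl (x y : ℕ) : ZMod 7 := ((x + 3 * y : ℕ) : ZMod 7)

/-- The frame of the square. -/
def WS.frame (W : WS D) (m a : ℕ) : Multiset (ZMod 7 × Q (PC D)) :=
  {(cl 0 0, tSW)} + (Multiset.range m).map (fun i => (cl (i + 1) 0, W.tB1)) +
    {(cl (m + 1) 0, W.tX)} + (Multiset.range (a - m - 1)).map (fun i => (cl (m + 2 + i) 0, W.tB0)) +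
    {(cl (a + 1) 0, tSE)} + (Multiset.range a).map (fun j => (cl 0 (j + 1), W.tL)) +
    (Multiset.range a).map (fun j => (cl (a + 1) (j + 1), W.tR)) + {(cl 0 (a + 1), tNW)} +
    (Multiset.range a).map (fun i => (cl (i + 1) (a + 1), W.tT)) + {(cl (a + 1) (a + 1), tNE)}

/-- The token in the cell `(i, j)`; the bits are raised on the diagonal. -/
def cellT (h v : ℕ → ℕ → D) (i j : ℕ) : Q (PC D) :=
  (dat (h (i + 1) j) (decide (j < i + 1)), dat (v i (j + 1)) (decide (i < j + 1)),
    dat (h i j) (decide (j < i)), dat (v i j) (decide (i < j)))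

/-- The tokens inside the frame. -/
def act (a : ℕ) (h v : ℕ → ℕ → D) : Multiset (ZMod 7 × Q (PC D)) :=
  ∑ j ∈ range a, ∑ i ∈ range a, {(cl (i + 1) (j + 1), cellT h v i j)}

/-- The five tiles around an isolated token. -/
def ext (p : ZMod 7 × Q (PC D)) : Multiset (ZMod 7 × Q (PC D)) :=
  {(p.1 + 1, aE p.2.1), (p.1 - 1, aW p.2.2.2.1), (p.1 + 3, aN p.2.2.1), (p.1 - 3, aS p.2.2.2.2),
    (p.1 + 4, cap)}

/-- Two absorbers facing each other horizontally. -/
def hd (β : ZMod 7) (c : PC D) : Multiset (ZMod 7 × Q (PC D)) := {(β - 1, aW c), (β, aE c)}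

/-- Two absorbers facing each other vertically. -/
def vd (β : ZMod 7) (c : PC D) : Multiset (ZMod 7 × Q (PC D)) :=
  {(β - 3, aS c), (β, aN c), (β + 1, cap)}

/-- All tokens in all classes. -/
noncomputable def WS.all (W : WS D) : Multiset (ZMod 7 × Q (PC D)) := (univ ×ˢ W.TK).val

/-- The absorbers that belong to the boundary of the square. -/
def WS.bdry (W : WS D) (m a : ℕ) : Multiset (ZMod 7 × Q (PC D)) :=
  (Multiset.range a).map (fun j => (cl 1 (j + 1), aE (dat W.L false))) +
    (Multiset.range a).map (fun j => (cl a (j + 1), aW (dat W.R true))) +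
    (Multiset.range m).map (fun i => (cl (i + 1) 1, aN (dat W.B1 false))) +
    {(cl (m + 1) 1, aN (dat W.B2 false))} +
    (Multiset.range (a - m - 1)).map (fun i => (cl (m + 2 + i) 1, aN (dat W.B0 false))) +
    (Multiset.range a).map (fun i => (cl (i + 2) 1, cap)) +
    (Multiset.range a).map (fun i => (cl (i + 1) a, aS (dat W.Tp true)))

/-- The prescribed tiles; they do not depend on the tiling of the square. -/
noncomputable def WS.mu (W : WS D) (m a : ℕ) : Multiset (ZMod 7 × Q (PC D)) :=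
  W.frame m a + (a * a) • W.all + (a * a) • W.all.bind ext + W.bdry m a

/-- The number of blocks of seven turns of the spiral. -/
noncomputable def WS.nb (W : WS D) (a : ℕ) : ℕ :=
  (a + 2) + (a * a * W.all.card - a * a) + 2 * (a * (a + 1))

end tiles

/-- All multiplicities are computable in polynomial time. -/
def PM {α X : Type} [N487b59b3 α] (F : α → Multiset X) : Prop :=
  ∀ x, PT fun a => (F a).count x

/-- A realised disc `I` with boundary cycle `L`, closed by the cone with apex `o`. -/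
structure DS (V : Finset ℕ) (I : Finset (Finset ℕ)) (o a : ℕ) (c : List ℕ) : Prop where
  pre : Pre V (I ∪ tris o (a :: (c ++ [a])))
  geo : Geo V (I ∪ tris o (a :: (c ++ [a])))
  nodup : (o :: a :: c).Nodup
  len : 2 ≤ c.length
  out : ∀ t ∈ I, o ∉ t

end Pool.Agent.P.MP_e40812_co
end

-- part Pool.Agent.P.MP_e40812_co.XLayS
section

/-! Degrees force the layers. -/

namespace Pool.Agent.P.MP_e40812_co

open Finset Pool.Agent.Lib.PolyTime
open scoped Classical

lemma xlays_bit (x n : ℕ) :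
    x / 2 ^ n = 2 * (x / 2 ^ (n + 1)) + if x.testBit n = true then 1 else 0 := by
  rw [pow_succ, ← Nat.div_div_eq_div_mul, Nat.testBit_eq_decide_div_mod_eq]
  simp only [decide_eq_true_eq]
  split_ifs <;> omega

lemma xlays_sum (n : ℕ) (u : Multiset ℕ) : (u.map fun x => x / 2 ^ n).sum =
    2 * (u.map fun x => x / 2 ^ (n + 1)).sum + u.countP fun x => x.testBit n = true := by
  induction u using Multiset.induction_on with
  | empty => simp
  | cons a u ih =>
    rw [Multiset.map_cons, Multiset.map_cons, Multiset.sum_cons, Multiset.sum_cons,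
      Multiset.countP_cons, ih, xlays_bit a n]
    omega

lemma xlays_low (c : ℕ) {i n : ℕ} (h : i < n) : ¬ (c * 2 ^ n).testBit i = true := by
  rw [Nat.testBit_mul_two_pow]
  simp [not_le.2 h]

lemma xlays_rep (k c : ℕ) {i n : ℕ} (h : i < n) :
    (Multiset.replicate k (c * 2 ^ n)).countP (fun x => x.testBit i = true) = 0 :=
  Multiset.countP_eq_zero.2 fun x hx => by
    rw [Multiset.eq_of_mem_replicate hx]
    exact xlays_low c h

lemma xlays_step (n : ℕ) (u u' : Multiset ℕ)
    (e : u' = u + Multiset.replicate (2 * u.card - 4) (3 * 2 ^ n) +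
      Multiset.replicate (u.countP (fun x => x.testBit n = true) / 2) (4 * 2 ^ n))
    (h1 : ∀ x ∈ u, 3 * 2 ^ (n + 1) ≤ x) (h2 : 4 ≤ u.card)
    (h3 : (u.map fun x => x / 2 ^ (n + 1)).sum + 12 = 6 * u.card)
    (h4 : ∀ i < n + 1, Even (u.countP fun x => x.testBit i = true)) :
    (∀ x ∈ u', 3 * 2 ^ n ≤ x) ∧ 4 ≤ u'.card ∧
      (u'.map fun x => x / 2 ^ n).sum + 12 = 6 * u'.card ∧
      ∀ i < n, Even (u'.countP fun x => x.testBit i = true) := by
  have hp : 0 < 2 ^ n := by positivity
  subst e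
  refine ⟨fun x hx => ?_, ?_, ?_, fun i hi => ?_⟩
  · rcases Multiset.mem_add.1 hx with hx | hx
    · rcases Multiset.mem_add.1 hx with hx | hx
      · have := h1 x hx
        rw [pow_succ] at this
        omega
      · rw [Multiset.eq_of_mem_replicate hx]
    · rw [Multiset.eq_of_mem_replicate hx]
      omega
  · simp only [Multiset.card_add]
    omega
  · obtain ⟨E, hE⟩ := h4 n (Nat.lt_succ_self n)
    simp only [Multiset.map_add, Multiset.sum_add, Multiset.card_add, Multiset.map_replicate,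
      Multiset.sum_replicate, Multiset.card_replicate, Nat.mul_div_cancel _ hp, smul_eq_mul]
    rw [xlays_sum]
    omega
  · rw [Multiset.countP_add, Multiset.countP_add, xlays_rep _ _ hi, xlays_rep _ _ hi]
    exact h4 i (by omega)

theorem dmul_sound {ι : Type} [DecidableEq ι] (n : ℕ) : ∀ (u : Multiset ℕ) (V : Finset ι)
    (F : Finset (Finset ι)), (∀ x ∈ u, 3 * 2 ^ n ≤ x) → 4 ≤ u.card →
      (u.map fun x => x / 2 ^ n).sum + 12 = 6 * u.card →
      (∀ i < n, Even (u.countP fun x => x.testBit i = true)) → Tri V F →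
      V.val.map (deg F) = dmul n u →
      ∃ (K : Finset ι) (G : Finset (Finset ι)) (val : ι → ℕ), Tri K G ∧ K.val.map val = u ∧
        (∀ v ∈ K, deg G v = val v / 2 ^ n) ∧ ∀ i < n, Mt K G fun v => (val v).testBit i = true := by
  induction n with
  | zero =>
    intro u V F _ _ _ _ hT e
    exact ⟨V, F, deg F, hT, e, fun v _ => by simp, fun i hi => absurd hi (Nat.not_lt_zero i)⟩
  | succ n ih =>
    intro u V F h1 h2 h3 h4 hT e
    obtain ⟨a1, a2, a3, a4⟩ := xlays_step n u _ rfl h1 h2 h3 h4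
    obtain ⟨K', G', val, hT', e', hdeg, hM⟩ := ih _ V F a1 a2 a3 a4 hT e
    have hp : 0 < 2 ^ n := by positivity
    have hu : ∀ x ∈ u, x ≠ 3 * 2 ^ n ∧ x ≠ 4 * 2 ^ n := by
      intro x hx
      have := h1 x hx
      rw [pow_succ] at this
      omega
    obtain ⟨K, hK⟩ : ∃ K, K = K'.filter fun v => val v ≠ 3 * 2 ^ n ∧ val v ≠ 4 * 2 ^ n :=
      ⟨_, rfl⟩
    have hKm : ∀ v, v ∈ K ↔ v ∈ K' ∧ val v ≠ 3 * 2 ^ n ∧ val v ≠ 4 * 2 ^ n := fun v => by
      rw [hK, mem_filter]
    have eK : K.val.map val = u := by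
      rw [hK, map_filter_val K' val fun x => x ≠ 3 * 2 ^ n ∧ x ≠ 4 * 2 ^ n, e',
        Multiset.filter_add, Multiset.filter_add, Multiset.filter_eq_self.2 hu,
        Multiset.filter_eq_nil.2 (by
          intro x hx
          simp [Multiset.eq_of_mem_replicate hx]),
        Multiset.filter_eq_nil.2 (by
          intro x hx
          simp [Multiset.eq_of_mem_replicate hx]), add_zero, add_zero]
    have cK : K.card = u.card := by rw [← eK, Multiset.card_map, card_val]
    have c3 : (K'.filter fun v => val v = 3 * 2 ^ n).card = 2 * u.card - 4 := by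
      have := map_filter_val K' val fun x => x = 3 * 2 ^ n
      rw [e', Multiset.filter_add, Multiset.filter_add,
        Multiset.filter_eq_nil.2 (fun x hx => (hu x hx).1),
        Multiset.filter_eq_self.2 (fun x hx => Multiset.eq_of_mem_replicate hx),
        Multiset.filter_eq_nil.2 (by
          intro x hx
          rw [Multiset.eq_of_mem_replicate hx]
          omega), add_zero, zero_add] at this
      have := congrArg Multiset.card this
      rwa [Multiset.card_map, card_val, Multiset.card_replicate] at this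
    have hout : ∀ v ∈ K' \ K, val v = 3 * 2 ^ n ∨ val v = 4 * 2 ^ n := by
      intro v hv
      obtain ⟨b1, b2⟩ := mem_sdiff.1 hv
      by_contra hc
      exact b2 ((hKm v).2 ⟨b1, not_or.1 hc⟩)
    have c4 : ((K' \ K).filter fun v => deg G' v = 3) = K'.filter fun v => val v = 3 * 2 ^ n := by
      ext v
      simp only [mem_filter]
      constructor
      · rintro ⟨b1, b2⟩
        have b3 := (mem_sdiff.1 b1).1
        refine ⟨b3, (hout v b1).resolve_right fun b4 => ?_⟩
        rw [hdeg v b3, b4, Nat.mul_div_cancel _ hp] at b2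
        omega
      · rintro ⟨b1, b2⟩
        refine ⟨mem_sdiff.2 ⟨b1, fun b3 => ((hKm v).1 b3).2.1 b2⟩, ?_⟩
        rw [hdeg v b1, b2, Nat.mul_div_cancel _ hp]
    obtain ⟨G, w, hG, wsym, wnb, nbd, hd⟩ := peel K (by omega) _ K' G' rfl hT'
      (fun v hv => ((hKm v).1 hv).1)
      (fun v hv => by
        rw [hdeg v (mem_sdiff.1 hv).1]
        rcases hout v hv with b | b <;> rw [b, Nat.mul_div_cancel _ hp] <;> simp)
      (by rw [c4, c3]; omega)
    have hrel : ∀ v ∈ K, 2 * deg G v + ∑ x ∈ K, w v x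
        = 2 * (val v / 2 ^ (n + 1)) + if (val v).testBit n = true then 1 else 0 := by
      intro v hv
      rw [← hd v hv, hdeg v ((hKm v).1 hv).1, xlays_bit]
    have hle : ∀ v ∈ K, deg G v ≤ val v / 2 ^ (n + 1) := by
      intro v hv
      have := hrel v hv
      split_ifs at this <;> omega
    have hsum : ∑ v ∈ K, deg G v = ∑ v ∈ K, val v / 2 ^ (n + 1) := by
      have b1 := hG.toPre.sum_deg
      have b2 : ∑ v ∈ K, val v / 2 ^ (n + 1) = (u.map fun x => x / 2 ^ (n + 1)).sum := by
        rw [← eK, Multiset.map_map]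
        rfl
      omega
    have heq := (sum_eq_sum_iff_of_le hle).1 hsum
    have hW : ∀ v ∈ K, ∑ x ∈ K, w v x = if (val v).testBit n = true then 1 else 0 := by
      intro v hv
      have b1 := hrel v hv
      have b2 := heq v hv
      omega
    refine ⟨K, G, val, hG, eK, heq, fun i hi => ?_⟩
    rcases Nat.lt_succ_iff_lt_or_eq.1 hi with hi | rfl
    · obtain ⟨μ, hμ⟩ := hM i hi
      refine ⟨μ, fun v hv hb => ?_⟩
      obtain ⟨b1, b2, b3, b4⟩ := hμ v ((hKm v).1 hv).1 hb
      have b5 : μ v ∈ K := (hKm _).2 ⟨b1, fun b => xlays_low 3 hi (b ▸ b2),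
        fun b => xlays_low 4 hi (b ▸ b2)⟩
      exact ⟨b5, b2, b3, nbd v hv _ b5 b4⟩
    · have hex : ∀ v, ∃ x, v ∈ K → (val v).testBit i = true → x ∈ K ∧ w v x ≠ 0 := by
        intro v
        by_cases hv : v ∈ K ∧ (val v).testBit i = true
        · have b1 := hW v hv.1
          rw [if_pos hv.2] at b1
          obtain ⟨x, hx, hx'⟩ := exists_ne_zero_of_sum_ne_zero (b1.trans_ne one_ne_zero)
          exact ⟨x, fun _ _ => ⟨hx, hx'⟩⟩
        · exact ⟨v, fun b1 b2 => absurd ⟨b1, b2⟩ hv⟩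
      choose μ hμ using hex
      refine ⟨μ, fun v hv hb => ?_⟩
      obtain ⟨b1, b2⟩ := hμ v hv hb
      have b3 : w (μ v) v ≠ 0 := by rwa [wsym]
      have b4 := hW _ b1
      have b5 : (val (μ v)).testBit i = true := by
        by_contra hc
        rw [if_neg hc] at b4
        exact b3 (sum_eq_zero_iff.1 b4 v hv)
      refine ⟨b1, b5, ?_, wnb _ _ b2⟩
      obtain ⟨b6, b7⟩ := hμ _ b1 b5
      by_contra hc
      rw [if_pos b5] at b4
      have b8 := add_le_sum (f := fun x => w (μ v) x) (fun _ _ => Nat.zero_le _) b6 hv hc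
      omega

theorem dmul_euler (n : ℕ) : ∀ u : Multiset ℕ, (∀ x ∈ u, 3 * 2 ^ n ≤ x) → 4 ≤ u.card →
    (u.map fun x => x / 2 ^ n).sum + 12 = 6 * u.card →
    (∀ i < n, Even (u.countP fun x => x.testBit i = true)) →
    (dmul n u).sum + 12 = 6 * (dmul n u).card ∧ ∀ x ∈ dmul n u, 3 ≤ x := by
  induction n with
  | zero =>
    intro u h1 _ h3 _
    exact ⟨by simpa [dmul] using h3, fun x hx => by simpa using h1 x hx⟩
  | succ n ih =>
    intro u h1 h2 h3 h4
    obtain ⟨a1, a2, a3, a4⟩ := xlays_step n u _ rfl h1 h2 h3 h4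
    exact ih _ a1 a2 a3 a4

end Pool.Agent.P.MP_e40812_co
end

-- part Pool.Agent.P.MP_e40812_co.XStack
section

/-! Stacking every face once. -/

namespace Pool.Agent.P.MP_e40812_co

open Finset Pool.Agent.Lib.PolyTime
open scoped Classical

theorem xstack_aux {V : Finset ℕ} {F : Finset (Finset ℕ)} (h : Pre V F) (g : Geo V F)
    (S : Finset (Finset ℕ)) (hS : S ⊆ F) :
    ∃ (F' : Finset (Finset ℕ)) (y : Finset ℕ → ℕ), Pre (V ∪ S.image y) F' ∧
      Geo (V ∪ S.image y) F' ∧ Set.InjOn y S ∧ (∀ t ∈ S, y t ∉ V) ∧ (∀ t ∈ F, t ∉ S → t ∈ F') ∧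
      (∀ v ∈ V, deg F' v = deg F v + deg S v) ∧ (∀ t ∈ S, deg F' (y t) = 3) ∧
      (∀ t ∈ S, ∀ a ∈ t, ∀ b ∈ t, a ≠ b → T F' a b (y t)) := by
  induction S using Finset.induction_on with
  | empty =>
    exact ⟨F, fun _ => 0, by simpa using h, by simpa using g, by simp, by simp,
      fun t ht _ => ht, by simp [deg], by simp, by simp⟩
  | insert t S ht ih =>
    obtain ⟨G, y, p1, g1, hi, hn, hF, hd, h3, hT⟩ := ih ((subset_insert _ _).trans hS)
    have htF : t ∈ F := hS (mem_insert_self _ _)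
    obtain ⟨a, b, c, k, rfl⟩ := p1.exists_T0 (hF t htF ht)
    obtain ⟨z, hz⟩ := Infinite.exists_notMem_finset (V ∪ S.image y)
    have hzG : ∀ s ∈ G, z ∉ s := fun s hs hz' => hz (p1.sub s hs hz')
    have hzV : z ∉ V := fun hv => hz (mem_union_left _ hv)
    have hup : ∀ s ∈ S, Function.update y {a, b, c} z s = y s := fun s hs =>
      Function.update_of_ne (ne_of_mem_of_not_mem hs ht) _ _
    have hyz : ∀ s ∈ S, y s ≠ z := fun s hs e =>
      hz (mem_union_right _ (mem_image.2 ⟨s, hs, e⟩))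
    have hyt : ∀ s ∈ S, y s ∉ ({a, b, c} : Finset ℕ) := fun s hs hy => hn s hs (h.sub _ htF hy)
    have hV : V ∪ (insert {a, b, c} S).image (Function.update y {a, b, c} z) =
        insert z (V ∪ S.image y) := by
      rw [image_insert, Function.update_self, image_congr fun s hs => hup s hs, union_insert]
    refine ⟨stk G z a b c, Function.update y {a, b, c} z, hV ▸ p1.stk k hz,
      hV ▸ Geo.stk p1 g1 k hz, ?_, ?_, ?_, ?_, ?_, ?_⟩
    · intro s hs s' hs' e
      rcases mem_insert.1 hs with rfl | hs <;> rcases mem_insert.1 hs' with rfl | hs'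
      · rfl
      · rw [Function.update_self, hup s' hs'] at e
        exact absurd e.symm (hyz s' hs')
      · rw [Function.update_self, hup s hs] at e
        exact absurd e (hyz s hs)
      · rw [hup s hs, hup s' hs'] at e
        exact hi hs hs' e
    · intro s hs
      rcases mem_insert.1 hs with rfl | hs
      · rwa [Function.update_self]
      · rw [hup s hs]
        exact hn s hs
    · intro s hs hs'
      rw [mem_insert, not_or] at hs'
      exact mem_stk.2 (Or.inr (Or.inr (Or.inr ⟨hs'.1, hF s hs hs'.2⟩)))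
    · intro v hv
      rw [deg_stk k hzG (fun e => hzV (e ▸ hv)), hd v hv, add_assoc]
      congr 1
      unfold deg
      rw [filter_insert]
      split_ifs with hm
      · rw [card_insert_of_notMem fun hh => ht (mem_filter.1 hh).1]
      · rfl
    · intro s hs
      rcases mem_insert.1 hs with rfl | hs
      · rw [Function.update_self]
        exact deg_stk_self k hzG
      · rw [hup s hs, deg_stk k hzG (hyz s hs), if_neg (hyt s hs), h3 s hs]
    · intro s hs p hp q hq hpq
      rcases mem_insert.1 hs with rfl | hs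
      · rw [Function.update_self]
        exact stk_edge k hzG hp hq hpq
      · rw [hup s hs]
        exact stk_up (hT s hs p hp q hq hpq) fun e => hyt s hs (e ▸ by simp)

theorem stack_all {V : Finset ℕ} {F : Finset (Finset ℕ)} (h : Pre V F) (g : Geo V F) :
    ∃ (F' : Finset (Finset ℕ)) (y : Finset ℕ → ℕ), Pre (V ∪ F.image y) F' ∧
      Geo (V ∪ F.image y) F' ∧ Set.InjOn y F ∧ (∀ t ∈ F, y t ∉ V) ∧
      (∀ v ∈ V, deg F' v = 2 * deg F v) ∧ (∀ t ∈ F, deg F' (y t) = 3) ∧
      (∀ t ∈ F, ∀ a ∈ t, ∀ b ∈ t, a ≠ b → T F' a b (y t)) := by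
  obtain ⟨G, y, p1, g1, hi, hn, -, hd, h3, hT⟩ := xstack_aux h g F Subset.rfl
  exact ⟨G, y, p1, g1, hi, hn, fun v hv => by rw [hd v hv, two_mul], h3, hT⟩

end Pool.Agent.P.MP_e40812_co
end

-- part Pool.Agent.P.MP_e40812_co.XLayB
section

/-! Construction of the layers. -/

namespace Pool.Agent.P.MP_e40812_co

open Finset Pool.Agent.Lib.PolyTime
open scoped Classical

theorem xlayb_many {V : Finset ℕ} {F : Finset (Finset ℕ)} (h : Pre V F) (g : Geo V F)
    (S : Finset (Finset ℕ)) : S ⊆ F → ∃ (V' : Finset ℕ) (F' : Finset (Finset ℕ)),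
      Ext V F V' F' (fun s => s ∈ S) (deg S) (Multiset.replicate S.card 3) ∧
        ∀ p q, Nb F p q → Nb F' p q := by
  induction S using Finset.induction_on with
  | empty =>
    intro _
    exact ⟨V, F, ⟨h, g, subset_rfl, fun s hs _ => hs, fun v _ => by simp [deg], by simp⟩,
      fun _ _ k => k⟩
  | insert t S ht ih =>
    intro hS
    obtain ⟨V', F', e, hn⟩ := ih ((subset_insert _ _).trans hS)
    have htF : t ∈ F := hS (mem_insert_self _ _)
    have htF' : t ∈ F' := e.keep t htF ht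
    obtain ⟨a, b, c, k, rfl⟩ := e.pre.exists_T0 htF'
    obtain ⟨z, hz⟩ := Infinite.exists_notMem_finset V'
    have hy : ∀ s ∈ F', z ∉ s := fun s hs hy => hz (e.pre.sub s hs hy)
    have e2 : Ext V' F' (insert z V') (stk F' z a b c) (fun s => s = {a, b, c})
        (fun v => if v ∈ ({a, b, c} : Finset ℕ) then 1 else 0) {3} := by
      refine ⟨e.pre.stk k hz, Geo.stk e.pre e.geo k hz, subset_insert _ _, fun s hs hne => ?_,
        fun v hv => ?_, ?_⟩
      · exact mem_stk.2 (Or.inr (Or.inr (Or.inr ⟨hne, hs⟩)))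
      · exact deg_stk k hy fun e' => hz (e' ▸ hv)
      · rw [insert_sdiff_of_notMem _ hz, Finset.sdiff_self]
        simp [deg_stk_self k hy]
    have e3 := e.trans e2 fun v hv => if_neg fun hh => hv (h.sub _ htF hh)
    refine ⟨insert z V', stk F' z a b c, ⟨e3.pre, e3.geo, e3.sub, fun s hs hne => ?_,
      fun v hv => ?_, ?_⟩, fun p q hpq => stk_nb_up k hy (hn p q hpq)⟩
    · refine e3.keep s hs fun hh => hne ?_
      rcases hh with hh | hh
      · exact mem_insert_of_mem hh
      · exact hh ▸ mem_insert_self _ _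
    · rw [e3.dg v hv]
      congr 1
      unfold deg
      rw [filter_insert]
      split_ifs with hh
      · rw [card_insert_of_notMem fun hm => ht (mem_filter.1 hm).1]
      · rfl
    · rw [e3.new, card_insert_of_notMem ht, Multiset.replicate_add]
      rfl

theorem xlayb_one {K : Finset ℕ} {P : ℕ → Prop} [DecidablePred P] {μ : ℕ → ℕ}
    (hμ : ∀ v ∈ K, P v → μ v ∈ K ∧ P (μ v) ∧ μ (μ v) = v ∧ v ≠ μ v) {v : ℕ} (hv : v ∈ K) :
    ((K.filter fun a => P a ∧ a < μ a).filter fun a => v = a ∨ v = μ a).card =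
      if P v then 1 else 0 := by
  split_ifs with hP
  · obtain ⟨h1, h2, h3, h4⟩ := hμ v hv hP
    rcases lt_or_gt_of_ne h4 with h5 | h5
    · refine card_eq_one.2 ⟨v, ?_⟩
      ext a
      simp only [mem_filter, mem_singleton]
      constructor
      · rintro ⟨⟨k1, k2, k3⟩, k4 | k4⟩
        · exact k4.symm
        · have := (hμ a k1 k2).2.2.1
          rw [← k4] at this k3
          omega
      · rintro rfl
        exact ⟨⟨hv, hP, h5⟩, Or.inl rfl⟩
    · refine card_eq_one.2 ⟨μ v, ?_⟩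
      ext a
      simp only [mem_filter, mem_singleton]
      constructor
      · rintro ⟨⟨k1, k2, k3⟩, k4 | k4⟩
        · rw [← k4] at k3
          omega
        · have := (hμ a k1 k2).2.2.1
          rw [← k4] at this
          exact this.symm
      · rintro rfl
        exact ⟨⟨h1, h2, by rw [h3]; exact h5⟩, Or.inr h3.symm⟩
  · refine card_eq_zero.2 (filter_eq_empty_iff.2 fun a ha => ?_)
    obtain ⟨k1, k2, -⟩ := mem_filter.1 ha
    rintro (k4 | k4)
    · exact hP (k4 ▸ k2)
    · exact hP (k4 ▸ (hμ a k1 k2).2.1)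

theorem xlayb_two {K : Finset ℕ} {P : ℕ → Prop} [DecidablePred P] {μ : ℕ → ℕ}
    (hμ : ∀ v ∈ K, P v → μ v ∈ K ∧ P (μ v) ∧ μ (μ v) = v ∧ v ≠ μ v) :
    (K.filter P).card = 2 * (K.filter fun a => P a ∧ a < μ a).card := by
  rw [card_filter, ← sum_congr rfl fun v hv => xlayb_one hμ hv]
  simp only [card_filter (fun a => _ = a ∨ _ = μ a)]
  rw [sum_comm, mul_comm, ← smul_eq_mul, ← sum_const]
  refine sum_congr rfl fun a ha => ?_
  obtain ⟨k1, k2, -⟩ := mem_filter.1 ha
  rw [← card_filter]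
  refine card_eq_two.2 ⟨a, μ a, (hμ a k1 k2).2.2.2, ?_⟩
  ext v
  simp only [mem_filter, mem_insert, mem_singleton]
  constructor
  · exact fun k => k.2
  · rintro (rfl | rfl)
    · exact ⟨k1, Or.inl rfl⟩
    · exact ⟨(hμ a k1 k2).1, Or.inr rfl⟩

theorem xlayb_ite {α : Type} [DecidableEq α] (G A : Finset α) (hA : A ⊆ G) (x y : ℕ) (f : α → ℕ)
    (hf : ∀ t ∈ G, f t = if t ∈ A then x else y) :
    G.val.map f = Multiset.replicate A.card x + Multiset.replicate (G.card - A.card) y := by
  have h1 : G.val = A.val + (G \ A).val := by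
    rw [← disjUnion_val _ _ disjoint_sdiff, disjUnion_eq_union, union_sdiff_of_subset hA]
  have h2 : ∀ t ∈ A.val, f t = x := fun t ht => by
    have ht' : t ∈ A := ht
    rw [hf t (hA ht'), if_pos ht']
  have h3 : ∀ t ∈ (G \ A).val, f t = y := fun t ht => by
    rw [hf t (mem_sdiff.1 ht).1, if_neg (mem_sdiff.1 ht).2]
  rw [h1, Multiset.map_add, ← card_sdiff_of_subset hA, Multiset.map_congr rfl h2,
    Multiset.map_congr rfl h3, Multiset.map_const', Multiset.map_const']
  rfl

theorem xlayb_step {K : Finset ℕ} {G : Finset (Finset ℕ)} (h : Pre K G) (g : Geo K G)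
    {P : ℕ → Prop} [DecidablePred P] (hP : Mt K G P) :
    ∃ (V : Finset ℕ) (F : Finset (Finset ℕ)), Pre V F ∧
      Geo V F ∧ K ⊆ V ∧ (∀ v ∈ K, deg F v = 2 * deg G v + if P v then 1 else 0) ∧
      (∀ p q, Nb G p q → Nb F p q) ∧ (V \ K).val.map (deg F) =
        Multiset.replicate (2 * K.card - 4) 3 + Multiset.replicate ((K.filter P).card / 2) 4 := by
  obtain ⟨μ, hμ0⟩ := hP
  have hμ : ∀ v ∈ K, P v → μ v ∈ K ∧ P (μ v) ∧ μ (μ v) = v ∧ v ≠ μ v := fun v hv hp =>
    ⟨(hμ0 v hv hp).1, (hμ0 v hv hp).2.1, (hμ0 v hv hp).2.2.1, (hμ0 v hv hp).2.2.2.ne⟩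
  obtain ⟨F1, y, p1, g1, yinj, yK, d1, d2, hT⟩ := stack_all h g
  obtain ⟨R, hR⟩ : ∃ R, R = K.filter fun a => P a ∧ a < μ a := ⟨_, rfl⟩
  have one := fun v (hv : v ∈ K) => xlayb_one hμ hv
  have two := xlayb_two hμ
  rw [← hR] at one two
  have RK : ∀ a ∈ R, a ∈ K ∧ P a := fun a ha => by
    rw [hR] at ha
    exact ⟨(mem_filter.1 ha).1, (mem_filter.1 ha).2.1⟩
  have hc : ∀ a, ∃ c, a ∈ R → T G a (μ a) c := by
    intro a
    by_cases ha : a ∈ R
    · obtain ⟨c, k⟩ := (hμ0 a (RK a ha).1 (RK a ha).2).2.2.2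
      exact ⟨c, fun _ => k⟩
    · exact ⟨0, fun k => absurd k ha⟩
  choose c hc using hc
  obtain ⟨τ, hτ⟩ : ∃ τ : ℕ → Finset ℕ, ∀ a, τ a = {a, μ a, c a} := ⟨_, fun _ => rfl⟩
  obtain ⟨σ, hσ⟩ : ∃ σ : ℕ → Finset ℕ, ∀ a, σ a = {a, μ a, y (τ a)} := ⟨_, fun _ => rfl⟩
  have τG : ∀ a ∈ R, τ a ∈ G := fun a ha => hτ a ▸ (hc a ha).2.2.2
  have uq : ∀ a ∈ R, ∀ b ∈ R, ∀ v ∈ K, (v = a ∨ v = μ a) → (v = b ∨ v = μ b) → a = b := by
    intro a ha b hb v hv k1 k2
    have h1 : (R.filter fun a => v = a ∨ v = μ a).card ≤ 1 := by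
      rw [one v hv]
      split_ifs <;> omega
    exact card_le_one.1 h1 a (mem_filter.2 ⟨ha, k1⟩) b (mem_filter.2 ⟨hb, k2⟩)
  have τinj : ∀ a ∈ R, ∀ b ∈ R, τ a = τ b → a = b := by
    intro a ha b hb e
    by_contra hne
    have k1 : a ∈ τ b := e ▸ (by simp [hτ])
    have k2 : μ a ∈ τ b := e ▸ (by simp [hτ])
    rw [hτ] at k1 k2
    simp only [mem_insert, mem_singleton, ← or_assoc] at k1 k2
    have m := hμ a (RK a ha).1 (RK a ha).2
    rcases k1 with k1 | k1
    · exact hne (uq a ha b hb a (RK a ha).1 (Or.inl rfl) k1)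
    rcases k2 with k2 | k2
    · exact hne (uq a ha b hb (μ a) m.1 (Or.inr rfl) k2)
    exact m.2.2.2 (k1.trans k2.symm)
  have yσ : ∀ t ∈ G, ∀ a ∈ R, y t ∈ σ a ↔ τ a = t := by
    intro t ht a ha
    have m := hμ a (RK a ha).1 (RK a ha).2
    rw [hσ]
    simp only [mem_insert, mem_singleton]
    constructor
    · rintro (k | k | k)
      · exact absurd (k ▸ (RK a ha).1) (yK t ht)
      · exact absurd (k ▸ m.1) (yK t ht)
      · exact (yinj ht (τG a ha) k).symm
    · rintro rfl
      exact Or.inr (Or.inr rfl)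
  have σinj : Set.InjOn σ R := by
    intro a ha b hb e
    have k1 : y (τ a) ∈ σ b := e ▸ (yσ _ (τG a ha) a ha).2 rfl
    exact (τinj b hb a ha ((yσ _ (τG a ha) b hb).1 k1)).symm
  have degS : ∀ v, deg (R.image σ) v = (R.filter fun a => v ∈ σ a).card := by
    intro v
    unfold deg
    rw [filter_image, card_image_of_injOn (σinj.mono fun a ha => (mem_filter.1 ha).1)]
  have SF : R.image σ ⊆ F1 := by
    intro s hs
    obtain ⟨a, ha, rfl⟩ := mem_image.1 hs
    rw [hσ]
    exact (hT _ (τG a ha) a (by simp [hτ]) (μ a) (by simp [hτ]) (hc a ha).1).2.2.2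
  obtain ⟨V, F, e, hn⟩ := xlayb_many p1 g1 _ SF
  refine ⟨V, F, e.pre, e.geo, subset_union_left.trans e.sub, fun v hv => ?_, fun p q k => ?_, ?_⟩
  · rw [e.dg v (mem_union_left _ hv), d1 v hv, degS, ← one v hv]
    congr 2
    refine filter_congr fun a ha => ?_
    rw [hσ]
    simp only [mem_insert, mem_singleton]
    constructor
    · rintro (k | k | k)
      · exact Or.inl k
      · exact Or.inr k
      · exact absurd (k ▸ hv) (yK _ (τG a ha))
    · rintro (k | k)
      · exact Or.inl k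
      · exact Or.inr (Or.inl k)
  · obtain ⟨r, k⟩ := k
    exact hn p q (hT _ k.2.2.2 p (by simp) q (by simp) k.1).nb
  · have hdis : Disjoint (G.image y) K := disjoint_left.2 fun v hv => by
      obtain ⟨t, ht, rfl⟩ := mem_image.1 hv
      exact yK t ht
    have τi : Set.InjOn τ R := fun a ha b hb e => τinj a ha b hb e
    have hA : R.image τ ⊆ G := fun t ht => by
      obtain ⟨a, ha, rfl⟩ := mem_image.1 ht
      exact τG a ha
    have hd : ∀ t ∈ G, (deg F ∘ y) t = if t ∈ R.image τ then 4 else 3 := by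
      intro t ht'
      rw [Function.comp_apply, e.dg _ (mem_union_right _ (mem_image_of_mem y ht')), d2 t ht', degS,
        filter_congr (yσ t ht')]
      split_ifs with hh
      · obtain ⟨a, ha, rfl⟩ := mem_image.1 hh
        have : (R.filter fun b => τ b = τ a) = {a} := by
          ext b
          simp only [mem_filter, mem_singleton]
          exact ⟨fun k => τinj b k.1 a ha k.2, fun k => by subst k; exact ⟨ha, rfl⟩⟩
        rw [this, card_singleton]
      · have : (R.filter fun b => τ b = t) = ∅ :=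
          filter_eq_empty_iff.2 fun b hb k => hh (mem_image.2 ⟨b, hb, k⟩)
        rw [this, card_empty]
    have h1 := card_le_card hA
    have h2 := h.card
    rw [card_image_of_injOn τi] at h1
    rw [sdiff_val_add subset_union_left e.sub, Multiset.map_add, e.new, union_sdiff_left,
      sdiff_eq_self_of_disjoint hdis, image_val_of_injOn yinj, Multiset.map_map,
      xlayb_ite G _ hA 4 3 _ hd, card_image_of_injOn τi,
      card_image_of_injOn σinj, two, add_assoc, ← Multiset.replicate_add, add_comm]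
    congr 2 <;> omega

theorem dmul_build (n : ℕ) : ∀ (K : Finset ℕ) (G : Finset (Finset ℕ)) (val : ℕ → ℕ), Pre K G →
    Geo K G → (∀ v ∈ K, deg G v = val v / 2 ^ n) →
    (∀ i < n, Mt K G fun v => (val v).testBit i = true) →
    ∃ (V : Finset ℕ) (F : Finset (Finset ℕ)), Pre V F ∧ Geo V F ∧
      V.val.map (deg F) = dmul n (K.val.map val) := by
  induction n with
  | zero =>
    intro K G val h g hd _
    refine ⟨K, G, h, g, ?_⟩
    rw [dmul]
    exact Multiset.map_congr rfl fun v hv => by simpa using hd v hv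
  | succ n ih =>
    intro K G val h g hd hm
    obtain ⟨V, F, p, q, hK, d1, hn, d2⟩ := xlayb_step h g (hm n (Nat.lt_succ_self n))
    obtain ⟨w, hw⟩ : ∃ w : ℕ → ℕ, ∀ v, w v = if v ∈ K then val v else deg F v * 2 ^ n :=
      ⟨_, fun _ => rfl⟩
    obtain ⟨V', F', p', q', e⟩ := ih V F w p q (fun v _ => by
      rw [hw]
      split_ifs with hv
      · rw [d1 v hv, hd v hv, pow_succ, ← Nat.div_div_eq_div_mul, Nat.testBit_eq_decide_div_mod_eq]
        simp only [decide_eq_true_eq]
        split_ifs <;> omega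
      · rw [Nat.mul_div_cancel _ (by positivity)]) (fun i hi => by
      obtain ⟨μ, hμ⟩ := hm i (Nat.lt_succ_of_lt hi)
      refine ⟨μ, fun v _ hv => ?_⟩
      beta_reduce at hv ⊢
      by_cases hvK : v ∈ K
      · rw [hw, if_pos hvK] at hv
        obtain ⟨k1, k2, k3, k4⟩ := hμ v hvK hv
        refine ⟨hK k1, ?_, k3, hn _ _ k4⟩
        rw [hw, if_pos k1]
        exact k2
      · rw [hw, if_neg hvK, Nat.testBit_mul_two_pow] at hv
        simp only [Bool.and_eq_true, decide_eq_true_eq] at hv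
        omega)
    refine ⟨V', F', p', q', ?_⟩
    rw [e, dmul]
    congr 1
    have h1 := sdiff_val_add (empty_subset K) hK
    rw [sdiff_empty, sdiff_empty] at h1
    have h2 : (V \ K).val.map w = ((V \ K).val.map (deg F)).map fun x => x * 2 ^ n := by
      rw [Multiset.map_map]
      exact Multiset.map_congr rfl fun v hv => by
        rw [hw, if_neg (mem_sdiff.1 hv).2, Function.comp_apply]
    have h3 : K.val.map w = K.val.map val :=
      Multiset.map_congr rfl fun v hv => by rw [hw, if_pos (show v ∈ K from hv)]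
    rw [h1, Multiset.map_add, h2, h3, d2, Multiset.map_add, Multiset.map_replicate,
      Multiset.map_replicate, add_assoc, Multiset.card_map, Multiset.countP_map]
    rfl

end Pool.Agent.P.MP_e40812_co
end

-- part Pool.Agent.P.MP_e40812_co.XLay
section

/-! Typed layers. -/

namespace Pool.Agent.P.MP_e40812_co

open Finset Pool.Agent.Lib.PolyTime
open scoped Classical

variable {X Y : Type} [Fintype Y] {d : X → ℕ} {b : X → Finset Y} {u : Multiset X}

theorem xlay_sum (s : Finset Y) : ∑ l ∈ s, 2 ^ (Fintype.equivFin Y l : ℕ) =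
    ∑ i ∈ s.image fun l => (Fintype.equivFin Y l : ℕ), 2 ^ i :=
  (sum_image fun _ _ _ _ h => (Fintype.equivFin Y).injective (Fin.ext h)).symm

theorem xlay_lt (s : Finset Y) :
    ∑ l ∈ s, 2 ^ (Fintype.equivFin Y l : ℕ) < 2 ^ Fintype.card Y := by
  rw [xlay_sum]
  refine Nat.geomSum_lt le_rfl fun k hk => ?_
  obtain ⟨l, -, rfl⟩ := mem_image.1 hk
  exact (Fintype.equivFin Y l).2

theorem xlay_div (x : X) : vl d b x / 2 ^ Fintype.card Y = d x := by
  rw [vl, Nat.mul_add_div (by positivity), Nat.div_eq_of_lt (xlay_lt _), add_zero]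

theorem xlay_bit (x : X) (l : Y) :
    (vl d b x).testBit (Fintype.equivFin Y l) = true ↔ l ∈ b x := by
  rw [vl, Nat.testBit_two_pow_mul_add _ (xlay_lt _), if_pos (Fintype.equivFin Y l).2, xlay_sum,
    ← Nat.mem_bitIndices, ← List.mem_toFinset, toFinset_bitIndices_sum_two_pow, mem_image]
  exact ⟨fun ⟨l', h1, h2⟩ => (Fintype.equivFin Y).injective (Fin.ext h2) ▸ h1,
    fun h => ⟨l, h, rfl⟩⟩

theorem xlay_surj {i : ℕ} (hi : i < Fintype.card Y) : ∃ l : Y, (Fintype.equivFin Y l : ℕ) = i :=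
  ⟨(Fintype.equivFin Y).symm ⟨i, hi⟩, by simp⟩

theorem xlay_hyp (h : OK d b u) :
    (∀ x ∈ u.map (vl d b), 3 * 2 ^ Fintype.card Y ≤ x) ∧ 4 ≤ (u.map (vl d b)).card ∧
      ((u.map (vl d b)).map fun x => x / 2 ^ Fintype.card Y).sum + 12 =
        6 * (u.map (vl d b)).card ∧
      ∀ i < Fintype.card Y, Even ((u.map (vl d b)).countP fun x => x.testBit i = true) := by
  obtain ⟨h1, h2, h3, h4⟩ := h
  refine ⟨fun x hx => ?_, by simpa using h2, ?_, fun i hi => ?_⟩
  · obtain ⟨y, hy, rfl⟩ := Multiset.mem_map.1 hx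
    rw [vl, mul_comm 3]
    exact (Nat.mul_le_mul_left _ (h1 y hy)).trans (Nat.le_add_right _ _)
  · simpa only [Multiset.map_map, Function.comp_def, xlay_div, Multiset.card_map] using h3
  · obtain ⟨l, rfl⟩ := xlay_surj hi
    have := h4 l
    rw [Multiset.countP_eq_card_filter] at this
    rw [Multiset.countP_map]
    rwa [Multiset.filter_congr (q := fun x => l ∈ b x) fun x _ => xlay_bit x l]

theorem dm_euler (h : OK d b u) :
    (dm d b u).sum + 12 = 6 * (dm d b u).card ∧ ∀ x ∈ dm d b u, 3 ≤ x := by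
  obtain ⟨h1, h2, h3, h4⟩ := xlay_hyp h
  exact dmul_euler _ _ h1 h2 h3 h4

theorem xlay_dmul_lt (B n : ℕ) : ∀ s : Multiset ℕ, 4 * 2 ^ n ≤ B → (∀ x ∈ s, x < B) →
    ∀ x ∈ dmul n s, x < B := by
  induction n with
  | zero => exact fun s _ h => h
  | succ n ih =>
    intro s hB h
    have h0 : 0 < 2 ^ n := by positivity
    rw [pow_succ] at hB
    refine ih _ (by omega) fun x hx => ?_
    simp only [Multiset.mem_add, Multiset.mem_replicate] at hx
    rcases hx with (hx | hx) | hx
    · exact h x hx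
    · omega
    · omega

theorem dm_lt (h : ∀ x, d x ≤ 12) : ∀ x ∈ dm d b u, x < 13 * 2 ^ Fintype.card Y := by
  refine xlay_dmul_lt _ _ _ (by omega) fun x hx => ?_
  obtain ⟨y, -, rfl⟩ := Multiset.mem_map.1 hx
  have h1 := xlay_lt (b y)
  have h2 := Nat.mul_le_mul_left (2 ^ Fintype.card Y) (h y)
  unfold vl
  omega

theorem xlay_lift {ι Z : Type} [DecidableEq ι] [Nonempty X] (f : X → Z) (val : ι → Z)
    (K : Finset ι) : ∀ u : Multiset X, K.val.map val = u.map f →
      ∃ ty : ι → X, K.val.map ty = u ∧ ∀ v ∈ K, f (ty v) = val v := by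
  induction K using Finset.induction_on with
  | empty =>
    intro u h
    refine ⟨fun _ => Classical.arbitrary X, ?_, by simp⟩
    simpa using (Multiset.map_eq_zero.1 h.symm).symm
  | insert a K ha ih =>
    intro u h
    rw [insert_val_of_notMem ha, Multiset.map_cons] at h
    obtain ⟨x, hx, h1, h2⟩ := (Multiset.map_eq_cons f u _ _).2 h.symm
    obtain ⟨ty, h3, h4⟩ := ih _ h2.symm
    have h5 : ∀ v ∈ K, Function.update ty a x v = ty v := fun v hv =>
      Function.update_of_ne (ne_of_mem_of_not_mem hv ha) _ _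
    refine ⟨Function.update ty a x, ?_, fun v hv => ?_⟩
    · rw [insert_val_of_notMem ha, Multiset.map_cons, Function.update_self,
        Multiset.map_congr rfl h5, h3, Multiset.cons_erase hx]
    · rcases mem_insert.1 hv with rfl | hv
      · rw [Function.update_self, h1]
      · rw [h5 v hv, h4 v hv]

theorem lay_sound (h : OK d b u) (hr : Rz (dm d b u)) :
    ∃ (K : Finset (Finset (EuclideanSpace ℝ (Fin 3)))) (G : Finset (Finset _)),
      Tri K G ∧ Top d b K G u := by
  obtain ⟨P, hP, hc⟩ := hr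
  obtain ⟨h1, h2, h3, h4⟩ := xlay_hyp h
  obtain ⟨V, F, hT, hV⟩ := tri_of_poly hP (dm_euler h).2 (fun n hn => by
    have := hc (n - 3)
    rwa [Nat.sub_add_cancel hn] at this) (dm_euler h).1
  obtain ⟨K, G, val, a1, a2, a3, a4⟩ := dmul_sound _ _ V F h1 h2 h3 h4 hT hV
  have : Nonempty X := by
    obtain ⟨x, -⟩ := Multiset.card_pos_iff_exists_mem.1 (lt_of_lt_of_le (by norm_num) h.2.1)
    exact ⟨x⟩
  obtain ⟨ty, b1, b2⟩ := xlay_lift _ _ K u a2
  refine ⟨K, G, a1, ty, b1, fun v hv => by rw [a3 v hv, ← b2 v hv, xlay_div], fun l => ?_⟩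
  obtain ⟨μ, hμ⟩ := a4 _ (Fintype.equivFin Y l).2
  refine ⟨μ, fun v hv hl => ?_⟩
  obtain ⟨c1, c2, c3⟩ := hμ v hv (by beta_reduce; rw [← b2 v hv, xlay_bit]; exact hl)
  rw [← b2 _ c1, xlay_bit] at c2
  exact ⟨c1, c2, c3⟩

theorem xlay_even {K : Finset ℕ} {G : Finset (Finset ℕ)} {P : ℕ → Prop} [DecidablePred P]
    (h : Mt K G P) :
    Even (K.filter P).card := by
  obtain ⟨μ, hμ⟩ := h
  have := sum_involution (s := K.filter P) (f := fun _ => (1 : ZMod 2)) (fun a _ => μ a)
    (fun _ _ => by decide)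
    (fun a ha _ => by
      obtain ⟨c, hc⟩ := (hμ a (mem_filter.1 ha).1 (mem_filter.1 ha).2).2.2.2
      exact hc.1.symm)
    (fun a ha => mem_filter.2 ⟨(hμ a (mem_filter.1 ha).1 (mem_filter.1 ha).2).1,
      (hμ a (mem_filter.1 ha).1 (mem_filter.1 ha).2).2.1⟩)
    fun a ha => (hμ a (mem_filter.1 ha).1 (mem_filter.1 ha).2).2.2.1
  rw [sum_const, nsmul_one] at this
  exact ZMod.natCast_eq_zero_iff_even.1 this

theorem lay_build {K : Finset ℕ} {G : Finset (Finset ℕ)} (h : Pre K G) (g : Geo K G)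
    (ht : Top d b K G u) : OK d b u ∧ Rz (dm d b u) := by
  obtain ⟨ty, rfl, h1, h2⟩ := ht
  have h3 := h.sum_deg
  have h4 : K.card • 3 ≤ ∑ v ∈ K, deg G v := card_nsmul_le_sum _ _ _ fun v hv => h.three_le hv
  refine ⟨⟨fun x hx => ?_, ?_, ?_, fun l => ?_⟩, ?_⟩
  · obtain ⟨v, hv, rfl⟩ := Multiset.mem_map.1 hx
    exact h1 v hv ▸ h.three_le hv
  · rw [smul_eq_mul] at h4
    rw [Multiset.card_map, card_val]
    omega
  · rw [Multiset.map_map, Multiset.card_map, card_val, ← h3, sum_congr rfl h1]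
    rfl
  · have := xlay_even (h2 l)
    rw [Multiset.countP_map]
    rwa [card_def, filter_val] at this
  · obtain ⟨V, F, a1, a2, a3⟩ := dmul_build (Fintype.card Y) K G (fun v => vl d b (ty v)) h g
      (fun v hv => by rw [xlay_div, h1 v hv]) fun i hi => by
        obtain ⟨l, rfl⟩ := xlay_surj hi
        simpa only [xlay_bit] using h2 l
    obtain ⟨P, hP, hc⟩ := poly_of_geo a1 a2
    refine ⟨P, hP, fun i => ?_⟩
    rw [hc, a3, dm, Multiset.map_map]
    rfl

end Pool.Agent.P.MP_e40812_co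
end

-- part Pool.Agent.P.MP_e40812_co.XGridR
section

/-! Removing the vertices that stand for faces. -/

namespace Pool.Agent.P.MP_e40812_co

open Finset Pool.Agent.Lib.PolyTime
open scoped Classical

theorem xgridr_inr {C : Type} (f : FT) (l : ZMod 7 × Bool × C) : ¬ hasB f (.inr l) := by
  rcases f with _ | ⟨x, _ | _⟩ <;> exact id

theorem xgridr_dl : ∀ (β : ZMod 7) (k : Fin 6),
    β ≠ β + dl k ∧ β ≠ β + dl (k + 1) ∧ β + dl k ≠ β + dl (k + 1) := by
  decide

theorem xgridr_cls : ∀ x : ZMod 7,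
    (x + dl 0 = x + 1 ∧ x + dl (0 + 1) = x + 3) ∧ (x + 1 + dl 2 = x + 3 ∧ x + 1 + dl (2 + 1) = x) ∧
    (x + 3 + dl 4 = x ∧ x + 3 + dl (4 + 1) = x + 1) ∧ (x + dl 1 = x + 3 ∧ x + dl (1 + 1) = x + 2) ∧
    (x + 2 + dl 5 = x ∧ x + 2 + dl (5 + 1) = x + 3) ∧
    (x + 3 + dl 3 = x + 2 ∧ x + 3 + dl (3 + 1) = x) := by
  decide

theorem xgridr_sec {C : Type} {f : FT} {β : ZMod 7} {k : Fin 6}
    (h : hasB (C := C) f (.inl (β, k))) : ∃ k1 k2, hasB (C := C) f (.inl (β + dl k, k1)) ∧
      hasB (C := C) f (.inl (β + dl (k + 1), k2)) := by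
  rcases f with _ | ⟨x, _ | _⟩
  · exact h.elim
  · obtain ⟨c1, c2, c3, -⟩ := xgridr_cls x
    rcases h with ⟨e, rfl⟩ | ⟨rfl, rfl⟩ | ⟨rfl, rfl⟩
    · rw [e]
      exact ⟨2, 4, Or.inr (Or.inl ⟨c1.1, rfl⟩), Or.inr (Or.inr ⟨c1.2, rfl⟩)⟩
    · exact ⟨4, 0, Or.inr (Or.inr ⟨c2.1, rfl⟩), Or.inl ⟨c2.2, rfl⟩⟩
    · exact ⟨0, 2, Or.inl ⟨c3.1, rfl⟩, Or.inr (Or.inl ⟨c3.2, rfl⟩)⟩
  · obtain ⟨-, -, -, c1, c2, c3⟩ := xgridr_cls x
    rcases h with ⟨e, rfl⟩ | ⟨rfl, rfl⟩ | ⟨rfl, rfl⟩
    · rw [e]
      exact ⟨3, 5, Or.inr (Or.inr ⟨c1.1, rfl⟩), Or.inr (Or.inl ⟨c1.2, rfl⟩)⟩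
    · exact ⟨1, 3, Or.inl ⟨c2.1, rfl⟩, Or.inr (Or.inr ⟨c2.2, rfl⟩)⟩
    · exact ⟨5, 1, Or.inr (Or.inl ⟨c3.1, rfl⟩), Or.inl ⟨c3.2, rfl⟩⟩

theorem xgridr_split {ι α β : Type} [DecidableEq ι] {K : Finset ι} {ty0 : ι → α ⊕ β}
    {A : Multiset α} {B : Multiset β} (a₀ : α) (b₀ : β)
    (hm : K.val.map ty0 = A.map Sum.inl + B.map Sum.inr) :
    ∃ (Y : Finset ι) (ty : ι → α) (ft : ι → β), Y ⊆ K ∧ (K \ Y).val.map ty = A ∧
      Y.val.map ft = B ∧ (∀ v ∈ K \ Y, ty0 v = .inl (ty v)) ∧ ∀ y ∈ Y, ty0 y = .inr (ft y) := by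
  have key : ∀ (p : α ⊕ β → Prop) [DecidablePred p], (K.filter fun v => p (ty0 v)).val.map ty0 =
      (A.map Sum.inl).filter p + (B.map Sum.inr).filter p := by
    intro p _
    rw [← Multiset.filter_add, ← hm, Multiset.filter_map, filter_val]
    rfl
  have e : K \ K.filter (fun v => (ty0 v).isRight = true) =
      K.filter fun v => ¬ (ty0 v).isRight = true := (filter_not _ _).symm
  refine ⟨K.filter fun v => (ty0 v).isRight = true, fun v => (ty0 v).elim id fun _ => a₀,
    fun v => (ty0 v).elim (fun _ => b₀) id, filter_subset _ _, ?_, ?_, fun v hv => ?_,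
    fun v hv => ?_⟩
  · have h1 := key fun x => ¬ x.isRight = true
    rw [Multiset.filter_eq_self.2 (by simp), Multiset.filter_eq_nil.2 (by simp), add_zero] at h1
    have h2 := congrArg (Multiset.map (Sum.elim id fun _ => a₀)) h1
    rw [Multiset.map_map, Multiset.map_map, Sum.elim_comp_inl, Multiset.map_id] at h2
    rw [e]
    exact h2
  · have h1 := key fun x => x.isRight = true
    rw [Multiset.filter_eq_nil.2 (by simp), Multiset.filter_eq_self.2 (by simp), zero_add] at h1
    have h2 := congrArg (Multiset.map (Sum.elim (fun _ => b₀) id)) h1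
    rw [Multiset.map_map, Multiset.map_map, Sum.elim_comp_inr, Multiset.map_id] at h2
    exact h2
  · rw [e] at hv
    have h1 := (mem_filter.1 hv).2
    rcases h2 : ty0 v with a | b
    · simp [h2]
    · simp [h2] at h1
  · have h1 := (mem_filter.1 hv).2
    rcases h2 : ty0 v with a | b
    · simp [h2] at h1
    · simp [h2]

theorem xgridr_face {ι : Type} [DecidableEq ι] {K Y : Finset ι} {G G₀ : Finset (Finset ι)}
    (hT : Tri K G) (h3 : ∀ t ∈ G₀, t.card = 3) (hc : G₀.card = Y.card)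
    (hd : ∀ y ∈ Y, deg G y = 3) (h : ∀ t ∈ G₀, ∃ y ∈ Y, ∀ v ∈ t, Nb G y v) {y a b c : ι}
    (hy : y ∈ Y) (ha : Nb G y a) (hb : Nb G y b) (hc' : Nb G y c) (hab : a ≠ b) (hac : a ≠ c)
    (hbc : b ≠ c) : T G₀ a b c := by
  choose f hf hf' using h
  have hN : ∀ t ht, t = K.filter fun u => Nb G (f t ht) u := fun t ht =>
    eq_of_subset_of_card_le
      (fun v hv => mem_filter.2 ⟨hT.nb_mem (hf' t ht v hv).symm, hf' t ht v hv⟩)
      (by rw [← hT.deg_eq, hd _ (hf t ht), h3 t ht])
  obtain ⟨t, ht, rfl⟩ := surj_on_of_inj_on_of_card_le f hf (fun t t' ht ht' e => by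
    rw [hN t ht, e, ← hN t' ht']) hc.ge y hy
  have e : t = {a, b, c} := eq_of_subset_of_card_le (fun v hv => by
    simpa using hT.nb3 (hd _ hy) ha hb hc' hab hac hbc (hf' t ht v hv))
    (by rw [h3 t ht]; exact card_le_three)
  exact ⟨hab, hac, hbc, e ▸ ht⟩

theorem grid_base {ι C : Type} [DecidableEq ι] [Fintype C] {bl : C} {A : Multiset (BT C)}
    {B : Multiset FT} (h : OK2 bl A B) {K : Finset ι} {G : Finset (Finset ι)} (hT : Tri K G)
    (ht : Top dX (bX bl) K G (uX A B)) :
    ∃ (K₀ : Finset ι) (G₀ : Finset (Finset ι)) (ty : ι → BT C), Tri K₀ G₀ ∧ K₀.val.map ty = A ∧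
      (∀ v ∈ K₀, deg G₀ v = ((ty v).1 : ℕ)) ∧
      (∀ v ∈ K₀, ∀ k ∈ (ty v).2.2.1, ∃ p q, T G₀ v p q ∧ (ty p).2.1 = (ty v).2.1 + dl k ∧
        (ty q).2.1 = (ty v).2.1 + dl (k + 1)) ∧
      ∀ l, Mt K₀ G₀ fun v => hasA bl (ty v) (.inr l) := by
  obtain ⟨ty0, hm, hdeg, hmt⟩ := ht
  obtain ⟨-, h4, hB, hcnt⟩ := h
  obtain ⟨Y, ty, ft, hY, hA', hB', hl, hr⟩ := xgridr_split (0, 0, ∅, q4 bl) none hm
  have cA : (K \ Y).card = A.card := by rw [← hA', Multiset.card_map, card_val]
  have cB : Y.card = B.card := by rw [← hB', Multiset.card_map, card_val]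
  have h5 : 5 ≤ K.card := by
    have := card_sdiff_add_card_eq_card hY
    omega
  have hd3 : ∀ y ∈ Y, deg G y = 3 := fun y hy => by
    rw [hdeg y (hY hy), hr y hy]
    rfl
  obtain ⟨G₀, L, g1, g2, g3, -, g5, g6, g7⟩ := unstack_all Y K G hT hY (by omega) hd3
  obtain rfl : L = G₀ := eq_of_subset_of_card_le g2 (by
    have := g1.card
    omega)
  have pA : ∀ l, ∀ v ∈ K \ Y, l ∈ bX bl (ty0 v) ↔ hasA bl (ty v) l := fun l v hv => by
    rw [hl v hv]
    simp [bX]
  have pB : ∀ l, ∀ y ∈ Y, l ∈ bX bl (ty0 y) ↔ hasB (ft y) l := fun l v hv => by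
    rw [hr v hv]
    simp [bX]
  have F : ∀ l : ZMod 7 × Fin 6,
      (∀ y ∈ Y, hasB (C := C) (ft y) (.inl l) → ∃ p, Nb G y p ∧ (ty p).2.1 = l.1) ∧
      ∀ v ∈ K \ Y, hasA bl (ty v) (.inl l) → ∃ y ∈ Y, hasB (C := C) (ft y) (.inl l) ∧ Nb G y v := by
    intro l
    obtain ⟨μ, hμ⟩ := hmt (.inl l)
    have k1 : ∀ y ∈ Y.filter fun y => hasB (C := C) (ft y) (.inl l),
        μ y ∈ (K \ Y).filter (fun v => hasA bl (ty v) (.inl l)) ∧ μ (μ y) = y ∧ Nb G y (μ y) := by
      intro y hy
      obtain ⟨hy, hy'⟩ := mem_filter.1 hy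
      obtain ⟨m1, m2, m3, m4⟩ := hμ y (hY hy) ((pB _ y hy).2 hy')
      have m5 : μ y ∈ K \ Y :=
        mem_sdiff.2 ⟨m1, fun hh => hT.not_nb33 h5 (hd3 y hy) (hd3 _ hh) m4⟩
      exact ⟨mem_filter.2 ⟨m5, (pA _ _ m5).1 m2⟩, m3, m4⟩
    refine ⟨fun y hy hy' => ?_, fun v hv hv' => ?_⟩
    · obtain ⟨m1, -, m2⟩ := k1 y (mem_filter.2 ⟨hy, hy'⟩)
      exact ⟨μ y, m2, (mem_filter.1 m1).2.1.symm⟩
    · have c1 := hcnt l
      rw [← hA', ← hB', Multiset.countP_map, Multiset.countP_map, ← filter_val, ← filter_val,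
        card_val, card_val] at c1
      obtain ⟨y, hy, rfl⟩ := surj_on_of_inj_on_of_card_le (fun y _ => μ y)
        (fun y hy => (k1 y hy).1) (fun y y' hy hy' e => by
          rw [← (k1 y hy).2.1, e, (k1 y' hy').2.1]) c1.le v (mem_filter.2 ⟨hv, hv'⟩)
      exact ⟨y, (mem_filter.1 hy).1, (mem_filter.1 hy).2, (k1 y hy).2.2⟩
  refine ⟨K \ Y, L, ty, g1, hA', fun v hv => ?_, fun v hv k hk => ?_, fun l => ?_⟩
  · have h1 := hdeg v (mem_sdiff.1 hv).1
    rw [g5 v hv, hl v hv] at h1
    have h2 : deg L v + deg L v = 2 * ((ty v).1 : ℕ) := h1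
    omega
  · obtain ⟨y, hy, hy1, hy2⟩ := (F ((ty v).2.1, k)).2 v hv ⟨rfl, hk⟩
    obtain ⟨k1, k2, s1, s2⟩ := xgridr_sec hy1
    obtain ⟨p, p1, p2⟩ := (F _).1 y hy s1
    obtain ⟨q, q1, q2⟩ := (F _).1 y hy s2
    obtain ⟨d1, d2, d3⟩ := xgridr_dl (ty v).2.1 k
    refine ⟨p, q, xgridr_face hT g1.three g3 hd3 g7 hy hy2 p1 q1 ?_ ?_ ?_, p2, q2⟩
    · rintro rfl
      exact d1 p2
    · rintro rfl
      exact d2 q2
    · rintro rfl
      exact d3 (p2.symm.trans q2)
  · obtain ⟨μ, hμ⟩ := hmt (.inr l)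
    refine ⟨μ, fun v hv hv' => ?_⟩
    obtain ⟨m1, m2, m3, m4⟩ := hμ v (mem_sdiff.1 hv).1 ((pA _ v hv).2 hv')
    have m5 : μ v ∈ K \ Y := mem_sdiff.2 ⟨m1, fun hh => xgridr_inr _ _ ((pB _ _ hh).1 m2)⟩
    exact ⟨m5, (pA _ _ m5).1 m2, m3, g6 v hv _ m5 m4⟩

end Pool.Agent.P.MP_e40812_co
end

-- part Pool.Agent.P.MP_e40812_co.XGridS
section

/-! Seven colours force the triangular lattice. -/

namespace Pool.Agent.P.MP_e40812_co

open Finset Pool.Agent.Lib.PolyTime
open scoped Classical

theorem xgrids_dl_inj : Function.Injective dl := by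
  intro a b
  revert a b
  decide

theorem xgrids_dl_ne (k : Fin 6) : dl k ≠ 0 := by
  revert k
  decide

theorem xgrids_key {ι : Type} [DecidableEq ι] {K : Finset ι} {G : Finset (Finset ι)}
    (hT : Tri K G) (cls : ι → ZMod 7) {v : ι} (hd : deg G v = 6)
    (hp : ∀ k, ∃ p, Nb G v p ∧ cls p = cls v + dl k) :
    (∀ u, Nb G v u → cls u ≠ cls v) ∧
      ∀ u u', Nb G v u → Nb G v u' → cls u = cls u' → u = u' := by
  choose p hp1 hp2 using hp
  have hinj : Function.Injective p := by
    intro a b hab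
    apply xgrids_dl_inj
    have h1 := hp2 a
    rw [hab, hp2 b] at h1
    exact (add_left_cancel h1).symm
  have hall : ∀ u, Nb G v u → ∃ k, p k = u := by
    intro u hu
    have hc : (univ.image p).card = 6 := by
      rw [card_image_of_injective _ hinj]
      simp
    have := hT.nb_of_card (univ.image p) (by
      intro x hx
      obtain ⟨k, -, rfl⟩ := mem_image.1 hx
      exact hp1 k) (by rw [hc, hd]) hu
    obtain ⟨k, -, hk⟩ := mem_image.1 this
    exact ⟨k, hk⟩
  refine ⟨fun u hu => ?_, fun u u' hu hu' e => ?_⟩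
  · obtain ⟨k, rfl⟩ := hall u hu
    rw [hp2]
    intro e
    exact xgrids_dl_ne k (by simpa using e)
  · obtain ⟨k, rfl⟩ := hall u hu
    obtain ⟨k', rfl⟩ := hall u' hu'
    rw [hp2, hp2] at e
    rw [xgrids_dl_inj (add_left_cancel e)]

/-- The neighbour in direction `δ`. -/
noncomputable def xgridsNb {ι : Type} [DecidableEq ι] (G : Finset (Finset ι)) (cls : ι → ZMod 7)
    (δ : ZMod 7) (v : ι) : ι :=
  if h : ∃ u, Nb G v u ∧ cls u = cls v + δ then h.choose else v

theorem xgrids_nb_eq {ι : Type} [DecidableEq ι] {G : Finset (Finset ι)} {cls : ι → ZMod 7}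
    {δ : ZMod 7} {v u : ι}
    (hu : ∀ u u', Nb G v u → Nb G v u' → cls u = cls u' → u = u') (h1 : Nb G v u)
    (h2 : cls u = cls v + δ) : xgridsNb G cls δ v = u := by
  have h : ∃ u, Nb G v u ∧ cls u = cls v + δ := ⟨u, h1, h2⟩
  unfold xgridsNb
  rw [dif_pos h]
  exact hu _ _ h.choose_spec.1 h1 (h.choose_spec.2.trans h2.symm)

theorem grid_sound {ι C : Type} [DecidableEq ι] [Fintype C] {bl : C} {A : Multiset (BT C)}
    {B : Multiset FT} (h : OK2 bl A B) {K : Finset ι} {G : Finset (Finset ι)} (hT : Tri K G)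
    (ht : Top dX (bX bl) K G (uX A B)) :
    ∃ P : PG ι C bl, P.S.val.map P.col = (A.map fun a => a.2.2.2).filter (· ≠ q4 bl) := by
  obtain ⟨K₀, G₀, ty, h0, hA, hd, hs, hm⟩ := grid_base h hT ht
  set cls : ι → ZMod 7 := fun v => (ty v).2.1 with hcls
  set S : Finset ι := K₀.filter fun v => (ty v).2.2.2 ≠ q4 bl with hS
  have hmem : ∀ v, v ∈ S ↔ v ∈ K₀ ∧ (ty v).2.2.2 ≠ q4 bl := fun v => mem_filter
  have hsec : ∀ v ∈ S, deg G₀ v = 6 ∧ ∀ k, ∃ p q, T G₀ v p q ∧ cls p = cls v + dl k ∧
      cls q = cls v + dl (k + 1) := by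
    intro v hv
    obtain ⟨hv1, hv2⟩ := (hmem v).1 hv
    have hvA : ty v ∈ A := by
      rw [← hA]
      exact Multiset.mem_map_of_mem _ hv1
    obtain ⟨e1, e2⟩ := (h.1 _ hvA).2 hv2
    refine ⟨by rw [hd v hv1, e1]; rfl, fun k => hs v hv1 k (by rw [e2]; exact mem_univ k)⟩
  have hkey : ∀ v ∈ S, (∀ u, Nb G₀ v u → cls u ≠ cls v) ∧
      ∀ u u', Nb G₀ v u → Nb G₀ v u' → cls u = cls u' → u = u' := by
    intro v hv
    obtain ⟨h1, h2⟩ := hsec v hv
    refine xgrids_key h0 cls h1 fun k => ?_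
    obtain ⟨p, q, t, e, -⟩ := h2 k
    exact ⟨p, t.nb, e⟩
  refine ⟨⟨S, fun v => (ty v).2.2.2, xgridsNb G₀ cls 1, xgridsNb G₀ cls 3, xgridsNb G₀ cls 6,
    xgridsNb G₀ cls 4, ?_, ?_, ?_⟩, ?_⟩
  · intro v hv hc
    obtain ⟨μ, hμ⟩ := hm (cls v, false, (ty v).2.2.2.1)
    obtain ⟨h1, h2, -, h4⟩ := hμ v ((hmem v).1 hv).1 ⟨hc, Or.inl ⟨rfl, rfl⟩⟩
    obtain ⟨-, h5⟩ := h2
    rcases h5 with h5 | h5
    · exact absurd h5.1.symm ((hkey v hv).1 _ h4)
    · have hu : μ v ∈ S := by
        refine (hmem _).2 ⟨h1, fun e => hc ?_⟩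
        rw [← h5.2, e]
        rfl
      have e1 : cls (μ v) = cls v + 1 := h5.1.symm
      rw [xgrids_nb_eq (hkey v hv).2 h4 e1]
      refine ⟨hu, h5.2, xgrids_nb_eq (hkey _ hu).2 h4.symm ?_⟩
      rw [e1, add_assoc]
      have : (1 : ZMod 7) + 6 = 0 := by decide
      rw [this, add_zero]
  · intro v hv hc
    obtain ⟨μ, hμ⟩ := hm (cls v, true, (ty v).2.2.2.2.1)
    obtain ⟨h1, h2, -, h4⟩ := hμ v ((hmem v).1 hv).1 ⟨hc, Or.inl ⟨rfl, rfl⟩⟩
    obtain ⟨-, h5⟩ := h2
    rcases h5 with h5 | h5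
    · exact absurd h5.1.symm ((hkey v hv).1 _ h4)
    · have hu : μ v ∈ S := by
        refine (hmem _).2 ⟨h1, fun e => hc ?_⟩
        rw [← h5.2, e]
        rfl
      have e1 : cls (μ v) = cls v + 3 := h5.1.symm
      rw [xgrids_nb_eq (hkey v hv).2 h4 e1]
      refine ⟨hu, h5.2, xgrids_nb_eq (hkey _ hu).2 h4.symm ?_⟩
      rw [e1, add_assoc]
      have : (3 : ZMod 7) + 4 = 0 := by decide
      rw [this, add_zero]
  · intro v hv he hn
    obtain ⟨p, q, t, ep, eq⟩ := (hsec v hv).2 0
    have d0 : dl 0 = 1 := by decide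
    have d1 : dl (0 + 1) = 3 := by decide
    have d1' : dl 1 = 3 := by decide
    have d2 : dl (1 + 1) = 2 := by decide
    rw [d0] at ep
    rw [d1] at eq
    have e1 := xgrids_nb_eq (hkey v hv).2 t.nb ep
    have e2 := xgrids_nb_eq (hkey v hv).2 t.nb' eq
    rw [e1] at he
    rw [e2] at hn
    rw [e1, e2]
    obtain ⟨x, y, t', ex, ey⟩ := (hsec p he).2 1
    rw [d1'] at ex
    rw [d2] at ey
    have hy : y = q := by
      refine (hkey p he).2 _ _ t'.nb' t.rot.nb ?_
      rw [ey, ep, eq, add_assoc]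
      have : (1 : ZMod 7) + 2 = 3 := by decide
      rw [this]
    subst hy
    rw [xgrids_nb_eq (hkey p he).2 t'.nb ex]
    refine (xgrids_nb_eq (hkey _ hn).2 t'.s13.nb ?_).symm
    rw [ex, ey, add_assoc]
    have : (2 : ZMod 7) + 1 = 3 := by decide
    rw [this]
  · show S.val.map (fun v => (ty v).2.2.2) = _
    rw [← hA, Multiset.map_map, Multiset.filter_map, hS, filter_val]
    rfl

end Pool.Agent.P.MP_e40812_co
end

-- part Pool.Agent.P.MP_e40812_co.XStep
section

/-! Building realised discs vertex by vertex. -/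

namespace Pool.Agent.P.MP_e40812_co

open Finset Pool.Agent.Lib.PolyTime
open scoped Classical

variable {V : Finset ℕ} {I : Finset (Finset ℕ)} {o a b y : ℕ} {c m r : List ℕ}

lemma xstep_deg_insert {F : Finset (Finset ℕ)} {t : Finset ℕ} (h : t ∉ F) (v : ℕ) :
    deg (insert t F) v = deg F v + if v ∈ t then 1 else 0 := by
  rw [deg, card_filter, sum_insert h, deg, card_filter, add_comm]

lemma xstep_deg_union {F G : Finset (Finset ℕ)} (h : Disjoint F G) (v : ℕ) :
    deg (F ∪ G) v = deg F v + deg G v := by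
  rw [deg, card_filter, sum_union h, deg, card_filter, deg, card_filter]

lemma xstep_deg_tris {x z : ℕ} {l : List ℕ} (h : (o :: x :: (l ++ [z])).Nodup) (v : ℕ) :
    deg (tris o (x :: (l ++ [z]))) v =
      if v = o then l.length + 1 else if v = x ∨ v = z then 1 else if v ∈ l then 2 else 0 := by
  induction l generalizing x with
  | nil =>
    rw [List.nil_append, ls_cons, ls_one, xstep_deg_insert (notMem_empty _)]
    by_cases h1 : v = o
    · simp [deg, h1]
    · simp [deg, h1]
  | cons w l ih =>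
    have h1 : (o :: w :: (l ++ [z])).Nodup := h.sublist (by simp)
    simp only [List.nodup_cons, List.mem_cons, List.mem_append, not_or, List.nodup_append,
      List.cons_append, List.not_mem_nil, or_false] at h
    obtain ⟨⟨ox, ow, ol, oz⟩, ⟨xw, xl, xz⟩, ⟨wl, wz⟩, -, -, lz⟩ := h
    have hn : ({o, x, w} : Finset ℕ) ∉ tris o (w :: (l ++ [z])) := fun k => by
      have := (ls_mem k).2 x (by simp)
      simp only [List.mem_cons, List.mem_append, List.not_mem_nil, or_false] at this
      rcases this with e | e | e | e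
      · exact ox e.symm
      · exact xw e
      · exact xl e
      · exact xz e
    rw [List.cons_append, ls_cons, xstep_deg_insert hn, ih h1]
    by_cases e1 : v = o
    · simp [e1]
    by_cases e2 : v = x
    · subst e2
      simp [e1, xw, xz, xl]
    by_cases e3 : v = w
    · subst e3
      simp [e1, e2, wz]
    by_cases e4 : v = z
    · subst e4
      simp [e1, e2, e3]
    simp [e1, e2, e3, e4]

lemma xstep_disj (h : ∀ t ∈ I, o ∉ t) (l : List ℕ) : Disjoint I (tris o l) :=
  disjoint_left.2 fun t h1 h2 => h t h1 (ls_mem h2).1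

lemma xstep_filter (h : ∀ t ∈ I, o ∉ t) (l : List ℕ) :
    ((I ∪ tris o l).filter fun t => o ∈ t) = tris o l := by
  ext t
  simp only [mem_filter, mem_union]
  exact ⟨fun k => k.1.resolve_left fun e => h t e k.2, fun k => ⟨Or.inr k, (ls_mem k).1⟩⟩

lemma xstep_image {l : List ℕ} (h : o ∉ l) :
    (tris o l).image (fun t => insert y (t.erase o)) = tris y l := by
  induction l with
  | nil => simp [ls_nil]
  | cons x l ih =>
    cases l with
    | nil => simp [ls_one]
    | cons w l =>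
      rw [ls_cons, ls_cons, image_insert, ih fun k => h (List.mem_cons_of_mem _ k),
        erase_insert]
      simp only [List.mem_cons, not_or] at h
      simp [h.1, h.2.1]

lemma xstep_rot (o a b : ℕ) (r : List ℕ) :
    tris o (a :: ((b :: r) ++ [a])) = tris o (b :: ((r ++ [a]) ++ [b])) := by
  rw [ls_link o b a r [], union_comm]
  exact ls_link o a b [] r

lemma xstep_pre4 (h : V.card = 4) : Pre V (V.powersetCard 3) := by
  refine ⟨fun t ht => (mem_powersetCard.1 ht).2, fun t ht => (mem_powersetCard.1 ht).1,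
    fun v hv => ?_, fun {p q r} k => ?_, by rw [card_powersetCard, h]; rfl⟩
  · obtain ⟨t, h1, h2, h3⟩ := exists_subsuperset_card_eq (singleton_subset_iff.2 hv)
      (show ({v} : Finset ℕ).card ≤ 3 by simp) (show 3 ≤ V.card by omega)
    exact ⟨t, mem_powersetCard.2 ⟨h2, h3⟩, h1 (mem_singleton_self v)⟩
  · obtain ⟨h1, h2⟩ := mem_powersetCard.1 k.2.2.2
    obtain ⟨d, hd, hd'⟩ := exists_mem_notMem_of_card_lt_card (show
      ({p, q, r} : Finset ℕ).card < V.card by omega)
    simp only [mem_insert, mem_singleton, not_or] at hd'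
    refine ⟨d, hd'.2.2, k.1, Ne.symm hd'.1, Ne.symm hd'.2.1, mem_powersetCard.2 ⟨?_, ?_⟩⟩
    · simp only [insert_subset_iff, singleton_subset_iff] at h1 ⊢
      exact ⟨h1.1, h1.2.1, hd⟩
    · exact card_eq_three.2 ⟨p, q, d, k.1, Ne.symm hd'.1, Ne.symm hd'.2.1, rfl⟩

lemma xstep_geo4 {a b c o : ℕ} (h : [o, a, b, c].Nodup) :
    Geo {o, a, b, c} (({o, a, b, c} : Finset ℕ).powersetCard 3) := by
  simp only [List.nodup_cons, List.mem_cons, List.not_mem_nil, or_false, not_or] at h
  obtain ⟨⟨oa, ob, oc⟩, ⟨ab, ac⟩, bc, -⟩ := h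
  let n : ℕ → EuclideanSpace ℝ (Fin 3) := fun i =>
    if i = o then !₂[1, 1, 1] else if i = a then !₂[1, -1, -1] else if i = b then !₂[-1, 1, -1]
      else !₂[-1, -1, 1]
  have no : n o = !₂[1, 1, 1] := by simp [n]
  have na : n a = !₂[1, -1, -1] := by simp [n, Ne.symm oa]
  have nb : n b = !₂[-1, 1, -1] := by simp [n, Ne.symm ob, Ne.symm ab]
  have nc : n c = !₂[-1, -1, 1] := by simp [n, Ne.symm oc, Ne.symm ac, Ne.symm bc]
  have key : ∀ v ∈ ({o, a, b, c} : Finset ℕ), ∀ u ∈ ({o, a, b, c} : Finset ℕ),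
      inner ℝ (n v) (n u) = -1 + if u = v then 4 else 0 := by
    intro v hv u hu
    simp only [mem_insert, mem_singleton] at hv hu
    rcases hv with e | e | e | e <;> rcases hu with e' | e' | e' | e' <;>
      rw [e, e', PiLp.inner_apply, Fin.sum_univ_three] <;>
      simp [no, na, nb, nc, oa, ob, oc, ab, ac, bc, Ne.symm oa, Ne.symm ob, Ne.symm oc,
        Ne.symm ab, Ne.symm ac, Ne.symm bc] <;> norm_num
  refine ⟨fun v => (innerSL ℝ (n v)).toLinearMap, fun t => ∑ v ∈ t, n v, fun t ht v hv => ?_⟩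
  obtain ⟨h1, h2⟩ := mem_powersetCard.1 ht
  have e : (innerSL ℝ (n v)).toLinearMap (∑ u ∈ t, n u) = -3 + if v ∈ t then 4 else 0 := by
    rw [map_sum]
    have : ∀ u ∈ t, (innerSL ℝ (n v)).toLinearMap (n u) = -1 + if u = v then 4 else 0 :=
      fun u hu => key v hv u (h1 hu)
    rw [sum_congr rfl this, sum_add_distrib, sum_ite_eq', sum_const, h2]
    norm_num
  constructor
  · intro k
    beta_reduce
    rw [e, if_pos k]
    norm_num
  · intro k
    beta_reduce
    rw [e, if_neg k]
    norm_num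

theorem DS.init {a b c o : ℕ} (h : [o, a, b, c].Nodup) : DS {o, a, b, c} {{a, b, c}} o a [b, c] := by
  have h' := h
  simp only [List.nodup_cons, List.mem_cons, List.not_mem_nil, or_false, not_or] at h'
  obtain ⟨⟨oa, ob, oc⟩, ⟨ab, ac⟩, bc, -⟩ := h'
  have out : ∀ t ∈ ({{a, b, c}} : Finset (Finset ℕ)), o ∉ t := by simp [oa, ob, oc]
  have h4 : ({o, a, b, c} : Finset ℕ).card = 4 := by
    rw [card_insert_of_notMem (by simp [oa, ob, oc]), card_insert_of_notMem (by simp [ab, ac]),
      card_pair bc]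
  have e : ({{a, b, c}} : Finset (Finset ℕ)) ∪ tris o (a :: ([b, c] ++ [a])) =
      ({o, a, b, c} : Finset ℕ).powersetCard 3 := by
    refine eq_of_subset_of_card_le ?_ ?_
    · intro t ht
      simp only [List.cons_append, List.nil_append, ls_cons, ls_one, mem_union, mem_insert,
        mem_singleton, notMem_empty, or_false] at ht
      rcases ht with rfl | rfl | rfl | rfl <;> refine mem_powersetCard.2 ⟨?_, ?_⟩
      · simp
      · exact card_eq_three.2 ⟨_, _, _, ab, ac, bc, rfl⟩
      · simp [insert_subset_iff]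
      · exact card_eq_three.2 ⟨_, _, _, oa, ob, ab, rfl⟩
      · simp [insert_subset_iff]
      · exact card_eq_three.2 ⟨_, _, _, ob, oc, bc, rfl⟩
      · simp [insert_subset_iff]
      · exact card_eq_three.2 ⟨_, _, _, oc, oa, Ne.symm ac, rfl⟩
    · have e1 : tris o (a :: ([b, c] ++ [a])) =
          tris o (a :: ([] ++ [b])) ∪ tris o (b :: ([c] ++ [a])) := ls_link o a b [] [c]
      rw [card_powersetCard, h4, card_union_of_disjoint (xstep_disj out _), e1,
        card_union_of_disjoint (ls_disj (m := []) (r := [c]) h le_rfl),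
        ls_card (h.sublist (by simp)), ls_card (ls_swap (m := []) (r := [c]) h)]
      simp
  exact ⟨e ▸ xstep_pre4 h4, e ▸ xstep_geo4 h, h, le_rfl, out⟩

theorem DS.rot (h : DS V I o a (b :: c)) : DS V I o b (c ++ [a]) :=
  ⟨xstep_rot o a b c ▸ h.pre, xstep_rot o a b c ▸ h.geo, ls_swap (m := []) h.nodup,
    by simpa using h.len, h.out⟩

theorem DS.rot' (h : DS V I o a (c ++ [b])) : DS V I o b (a :: c) :=
  ⟨(xstep_rot o b a c).symm ▸ h.pre, (xstep_rot o b a c).symm ▸ h.geo,
    ls_swap (r := []) h.nodup, by simpa using h.len, h.out⟩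

theorem DS.step (h : DS V I o a (m ++ b :: r)) (hy : y ∉ V) :
    DS (insert y V) (I ∪ tris y (a :: (m ++ [b]))) o a (y :: b :: r) ∧
      ∀ v, deg (I ∪ tris y (a :: (m ++ [b]))) v = deg I v +
        if v = y then m.length + 1 else if v = a ∨ v = b then 1 else if v ∈ m then 2 else 0 := by
  have hn := h.nodup
  have h5 := (xstep_filter h.out _).trans (ls_link o a b m r)
  have cu := ls_cut h.pre hn h.len h5
  have hd := ls_disj hn h.len
  have hV : ∀ v ∈ a :: ((m ++ b :: r) ++ [a]), v ∈ V := fun v hv => by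
    obtain ⟨s, k1, k2⟩ := ls_cover (o := o) hv
    exact h.pre.sub s (mem_union_right _ k1) k2
  have oV : o ∈ V := h.pre.nb_mem cu.na
  have yo : y ≠ o := fun e => hy (e ▸ oV)
  have yl : y ∉ a :: (m ++ b :: r) := fun k => hy (hV y (by
    rw [← List.cons_append]
    exact List.mem_append_left _ k))
  have yI : ∀ t ∈ I, y ∉ t := fun t ht k => hy (h.pre.sub t (mem_union_left _ ht) k)
  have sub1 : (a :: (m ++ [b])).Sublist (a :: (m ++ b :: r)) := by simp
  have ol : o ∉ a :: (m ++ [b]) := fun k => (List.nodup_cons.1 hn).1 (sub1.subset k)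
  have e : spl (I ∪ tris o (a :: ((m ++ b :: r) ++ [a]))) (tris o (a :: (m ++ [b]))) o y a b =
      (I ∪ tris y (a :: (m ++ [b]))) ∪ tris o (a :: ((y :: b :: r) ++ [a])) := by
    rw [spl, xstep_image ol, ls_link, union_sdiff_distrib, union_sdiff_cancel_left hd,
      sdiff_eq_left.2 (xstep_disj h.out _), List.cons_append, List.cons_append, ls_cons, ls_cons,
      tri23 o a y]
    ext t
    simp only [mem_insert, mem_union]
    tauto
  refine ⟨⟨e ▸ h.pre.spl cu hy, e ▸ h.geo.spl h.pre cu hy, ?_, by simp, fun t ht => ?_⟩,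
    fun v => ?_⟩
  · have h1 : (o :: a :: b :: r).Nodup := hn.sublist (by simp)
    have h2 : y ∉ o :: a :: b :: r := by
      simp only [List.mem_cons, List.mem_append, not_or] at yl ⊢
      exact ⟨yo, yl.1, yl.2.2⟩
    refine (List.Perm.nodup_iff ?_).1 (List.nodup_cons.2 ⟨h2, h1⟩)
    exact List.perm_append_comm (l₁ := [y]) (l₂ := [o, a]) |>.append_right (b :: r)
  · rcases mem_union.1 ht with k | k
    · exact h.out t k
    · exact fun k' => ((ls_mem k).2 o k').elim yo.symm ol
  · rw [xstep_deg_union (xstep_disj yI _), xstep_deg_tris]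
    exact List.nodup_cons.2 ⟨fun k => yl (sub1.subset k), (List.nodup_cons.1 hn).2.sublist sub1⟩

theorem DS.fin (h : DS V I o a c) (v : ℕ) : deg (I ∪ tris o (a :: (c ++ [a]))) v = deg I v +
    if v = o then c.length + 1 else if v ∈ a :: c then 2 else 0 := by
  have hl := h.len
  obtain ⟨b, r, rfl⟩ := List.exists_cons_of_length_pos (show 0 < c.length by omega)
  have hn := h.nodup
  have e1 : tris o (a :: ((b :: r) ++ [a])) =
      tris o (a :: ([] ++ [b])) ∪ tris o (b :: (r ++ [a])) := ls_link o a b [] r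
  rw [xstep_deg_union (xstep_disj h.out _), e1, xstep_deg_union (ls_disj (m := []) hn hl),
    xstep_deg_tris (hn.sublist (by simp)), xstep_deg_tris (ls_swap (m := []) hn)]
  congr 1
  by_cases e1 : v = o
  · simp [e1, add_comm]
  by_cases e2 : v = a
  · simp [e2, show a ≠ o from e2 ▸ e1]
  by_cases e3 : v = b
  · simp [e3, show b ≠ o from e3 ▸ e1]
  simp [e1, e2, e3]

end Pool.Agent.P.MP_e40812_co
end

-- part Pool.Agent.P.MP_e40812_co.XTube
section

/-! A long triangulated tube with two caps. -/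

namespace Pool.Agent.P.MP_e40812_co

open Finset Pool.Agent.Lib.PolyTime
open scoped Classical

theorem xtube_rot {V : Finset ℕ} {I : Finset (Finset ℕ)} {o b : ℕ} (l : List ℕ) :
    ∀ {a : ℕ} {r : List ℕ}, DS V I o a (l ++ b :: r) → DS V I o b (r ++ a :: l) := by
  induction l with
  | nil => exact fun h => h.rot
  | cons x l ih =>
    intro a r h
    have h1 := DS.rot (b := x) (c := l ++ b :: r) h
    rw [List.append_assoc, List.cons_append] at h1
    simpa using ih h1

/-- Degrees in the zigzag. -/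
def xtubeZ (s k v : ℕ) : ℕ :=
  if v = 0 ∨ v = k + 1 then 1 else if v ≤ k then 3 else if v + k < 2 * s ∨ 2 * s < v then 0 else
    if v = 2 * s ∧ k = 0 then 1 else if v = 2 * s ∨ v + k = 2 * s then 2 else 3

theorem xtube_one (s M : ℕ) (hM : 2 * s < M) (k : ℕ) : ∀ j, k + j + 1 = s →
    ∃ V I, DS V I M (k + 1) (List.range' (k + 2 * j + 2) (k + 1) ++ List.range' 0 (k + 1)) ∧
      (∀ v, v ∈ V ↔ v = M ∨ v ≤ k + 1 ∨ (2 * s ≤ v + k ∧ v ≤ 2 * s)) ∧
      ∀ v, deg I v = xtubeZ s k v := by
  induction k with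
  | zero =>
    intro j hj
    refine ⟨_, _, DS.init (a := 1) (b := 0 + 2 * j + 2) (c := 0) (o := M) ?_, fun v => ?_, fun v => ?_⟩
    · simp
      omega
    · simp only [mem_insert, mem_singleton]
      omega
    · rw [deg, filter_singleton, xtubeZ]
      simp only [mem_insert, mem_singleton]
      rw [apply_ite Finset.card, card_singleton, card_empty]
      grind
  | succ k ih =>
    intro j hj
    obtain ⟨V, I, h, hV, hd⟩ := ih (j + 1) (by omega)
    rw [List.range'_succ, List.cons_append] at h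
    obtain ⟨h1, d1⟩ := DS.step (m := []) (y := k + 2 * j + 3) h (by rw [hV]; omega)
    obtain ⟨h2, d2⟩ := DS.step (m := []) (y := k + 2) h1 (by rw [mem_insert, hV]; omega)
    refine ⟨insert (k + 2) (insert (k + 2 * j + 3) V), _, ?_, fun v => ?_, fun v => (d2 v).trans ?_⟩
    · convert h2.rot using 1
      rw [List.range'_succ, List.range'_succ, List.range'_concat (s := 0)]
      simp [show k + 1 + 2 * j + 2 = k + 2 * j + 3 by ring,
        show k + 2 * (j + 1) + 2 = k + 2 * j + 3 + 1 by ring]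
    · simp only [mem_insert, hV]
      omega
    · rw [d1, hd, xtubeZ, xtubeZ]
      simp only [List.not_mem_nil, List.length_nil, if_false]
      clear d1 d2 h1 h2 h hV hd ih
      grind (splits := 40)

theorem xtube_two (s M : ℕ) (hs : 2 ≤ s) (n : ℕ) : n + (2 * s + 1) ≤ M →
    ∃ V I, DS V I M (n + 2 * s) (List.range' n (2 * s)) ∧
      (∀ v, v ∈ V ↔ v = M ∨ v < n + (2 * s + 1)) ∧
      (∀ i < n, ({i, i + 1, i + (2 * s + 1)} : Finset ℕ) ∈ I ∧
        ({i, i + 2 * s, i + (2 * s + 1)} : Finset ℕ) ∈ I) ∧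
      ∀ v, deg I v = xtubeZ s (s - 1) v + (if v < n then 2 else 0) + (if 1 ≤ v ∧ v ≤ n then 1 else 0) +
        (if 2 * s + 1 ≤ v ∧ v < n + (2 * s + 1) then 2 else 0) +
        if 2 * s ≤ v ∧ v < n + 2 * s then 1 else 0 := by
  obtain ⟨t, rfl⟩ : ∃ t, s = t + 1 := ⟨s - 1, by omega⟩
  induction n with
  | zero =>
    intro hM
    obtain ⟨V, I, h, hV, hd⟩ := xtube_one (t + 1) M (by omega) t 0 rfl
    rw [List.range'_concat, List.append_assoc, List.singleton_append] at h
    refine ⟨V, I, ?_, fun v => ?_, by simp, fun v => ?_⟩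
    · convert xtube_rot _ h using 1
      · ring
      · rw [show 2 * (t + 1) = (t + 1) + (t + 1) by ring, ← List.range'_append_1]
        simp [List.range'_succ]
    · rw [hV]
      omega
    · rw [hd, Nat.add_sub_cancel]
      split_ifs <;> omega
  | succ n ih =>
    intro hM
    obtain ⟨V, I, h, hV, hI, hd⟩ := ih (by omega)
    rw [show 2 * (t + 1) = 2 * t + 1 + 1 by ring, List.range'_succ, List.range'_succ] at h
    obtain ⟨h1, d1⟩ := DS.step (m := [n]) (y := n + (2 * (t + 1) + 1)) h (by rw [hV]; omega)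
    refine ⟨insert (n + (2 * (t + 1) + 1)) V, _, ?_, fun v => ?_, fun i hi => ?_,
      fun v => (d1 v).trans ?_⟩
    · convert h1.rot using 1
      · ring
      · rw [show 2 * (t + 1) = 2 * t + 1 + 1 by ring, List.range'_concat, List.range'_succ]
        simp
        ring
    · simp only [mem_insert, hV]
      omega
    · rcases (Nat.lt_succ_iff.1 hi).eq_or_lt with rfl | hi
      · simp only [List.cons_append, List.nil_append, ls_cons, ls_one, mem_union, mem_insert]
        refine ⟨Or.inr (Or.inr (Or.inl ?_)), Or.inr (Or.inl ?_)⟩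
        · ext x
          simp only [mem_insert, mem_singleton]
          omega
        · ext x
          simp only [mem_insert, mem_singleton]
          omega
      · exact ⟨mem_union_left _ (hI i hi).1, mem_union_left _ (hI i hi).2⟩
    · rw [hd]
      generalize xtubeZ (t + 1) (t + 1 - 1) v = z
      simp only [List.mem_singleton, List.length_singleton]
      clear d1 h1 h hV hd ih hI
      grind (splits := 40)

/-- Degrees in the upper cap. -/
def xtubeE (s N k v : ℕ) : ℕ :=
  if v < N then 0 else if v ≤ N + k then (if v = N + k then 0 else 2) + (if v = N then 0 else 1) else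
    if v + k + 1 < N + 2 * s then 0 else if v < N + 2 * s then
      (if v + k + 1 = N + 2 * s then 0 else 2) + (if v + 1 = N + 2 * s then 0 else 1) else
    if v = N + 2 * s then (if k = 0 then 0 else 2) else if v = N + 2 * s + 1 then 0 else
    if v < N + 2 * s + 1 + k then 6 else if v = N + 2 * s + 1 + k then 4 else 0

theorem xtube_e (s N k j v : ℕ) (h : k + j + 2 = s) : (xtubeE s N k v +
    if v = N + (2 * s + 1) + (k + 1) then 0 + 1 + 1 + 1 + 1 else
      if v = N + k + 1 * (2 * j + 2) ∨ v = N + k + 1 then 1 else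
        if v = N + k + (2 * j + 1 + 1 + 1) ∨
          v = (if k = 0 then N + 2 * s else N + (2 * s + 1) + k) ∨ v = N + k then 2 else 0) =
    xtubeE s N (k + 1) v := by
  unfold xtubeE
  grind (splits := 40)

theorem xtube_d (t N v : ℕ) (h1 : 1 ≤ t) (h2 : 2 * t + 3 ≤ N) :
    (xtubeZ (t + 1) t v + (if v < N then 2 else 0) + (if 1 ≤ v ∧ v ≤ N then 1 else 0) +
      (if 2 * (t + 1) + 1 ≤ v ∧ v < N + (2 * (t + 1) + 1) then 2 else 0) +
      (if 2 * (t + 1) ≤ v ∧ v < N + 2 * (t + 1) then 1 else 0) + xtubeE (t + 1) N t v +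
      if v = N + (2 * (t + 1) + 1) then 0 + 1 + 1 + 1 else
        if v = N + t + 1 ∨ v = N + (2 * (t + 1) + 1) + t ∨ v = N + t then 2 else 0) =
    if v < N + (2 * (t + 1) + 1) then dg (t + 1) (N + (2 * (t + 1) + 1)) v else
      if v = N + (2 * (t + 1) + 1) then 3 else if v ≤ N + (2 * (t + 1) + 1) + t then 6 else 0 := by
  unfold xtubeE xtubeZ dg
  grind (splits := 60)

theorem xtube_three {s N : ℕ} {V₀ : Finset ℕ} {I₀ : Finset (Finset ℕ)}
    (h0 : DS V₀ I₀ (N + (2 * s + 1)) (N + 2 * s) (List.range' N (2 * s)))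
    (hV0 : ∀ v, v ∈ V₀ ↔ v ≤ N + (2 * s + 1)) (k : ℕ) : ∀ j, k + j + 1 = s →
    ∃ V I, DS V I (N + (2 * s + 1)) (N + k + (2 * j + 1))
        ((if k = 0 then N + 2 * s else N + (2 * s + 1) + k) :: List.range' (N + k) (2 * j + 1)) ∧
      (∀ v, v ∈ V ↔ v ≤ N + (2 * s + 1) + k) ∧ I₀ ⊆ I ∧
      ∀ v, deg I v = deg I₀ v + xtubeE s N k v := by
  induction k with
  | zero =>
    intro j hj
    refine ⟨V₀, I₀, ?_, hV0, Subset.refl _, fun v => ?_⟩
    · rw [show List.range' N (2 * s) = List.range' N (2 * j + 1) ++ [N + 0 + (2 * j + 1)] by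
        rw [show 2 * s = 2 * j + 1 + 1 by omega, List.range'_concat]; simp] at h0
      exact h0.rot'
    · rw [xtubeE]
      split_ifs <;> omega
  | succ k ih =>
    intro j hj
    obtain ⟨V, I, h, hV, hI, hd⟩ := ih (j + 1) (by omega)
    rw [show 2 * (j + 1) + 1 = 2 * j + 1 + 1 + 1 by ring, List.range'_concat, ← List.cons_append] at h
    have h1 := h.rot'
    rw [List.range'_succ, List.range'_succ] at h1
    obtain ⟨h2, d2⟩ := DS.step (m := [_, _, N + k]) (y := N + (2 * s + 1) + (k + 1)) h1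
      (by rw [hV]; omega)
    refine ⟨insert (N + (2 * s + 1) + (k + 1)) V, _, ?_, fun v => ?_, hI.trans subset_union_left,
      fun v => (d2 v).trans ?_⟩
    · convert h2 using 1
      · ring
      · rw [if_neg (by omega), List.range'_succ]
        rfl
    · simp only [mem_insert, hV]
      omega
    · rw [hd, add_assoc]
      simp only [List.mem_cons, List.not_mem_nil, or_false, List.length_cons, List.length_nil]
      congr 1
      exact xtube_e s N k j v (by omega)

theorem exists_tube (s M : ℕ) (hs : 2 ≤ s) (hM : 2 * (2 * s + 1) ≤ M) :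
    ∃ (V : Finset ℕ) (F : Finset (Finset ℕ)), Pre V F ∧ Geo V F ∧ V = range (M + s) ∧
      (∀ n, n + (2 * s + 1) < M →
        ({n, n + 1, n + (2 * s + 1)} : Finset ℕ) ∈ F ∧
          ({n, n + 2 * s, n + (2 * s + 1)} : Finset ℕ) ∈ F) ∧
      (∀ v < M, deg F v = dg s M v) ∧ (∀ v, M < v → v < M + s → deg F v = 6) ∧ deg F M = 3 := by
  obtain ⟨N, rfl⟩ : ∃ N, M = N + (2 * s + 1) := ⟨M - (2 * s + 1), by omega⟩
  obtain ⟨V₀, I₀, h0, hV0, hI0, hd0⟩ := xtube_two s _ hs N le_rfl
  obtain ⟨t, rfl⟩ : ∃ t, s = t + 1 := ⟨s - 1, by omega⟩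
  obtain ⟨V, I, h, hV, hI, hd⟩ := xtube_three h0 (fun v => by rw [hV0]; omega) t 0 rfl
  rw [if_neg (by omega)] at h
  have hf := fun v => (h.fin v).trans (by rw [hd, hd0])
  simp only [List.range'_one, List.mem_cons, List.not_mem_nil, mul_zero, zero_add,
    or_false, List.length_cons, List.length_nil, Nat.add_sub_cancel] at hf
  replace hf := fun v => (hf v).trans (xtube_d t N v (by omega) (by omega))
  refine ⟨_, _, h.pre, h.geo, ?_, fun n hn => ?_, fun v hv => ?_, fun v h1 h2 => ?_, ?_⟩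
  · ext v
    rw [hV, mem_range]
    omega
  · exact ⟨mem_union_left _ (hI (hI0 n (by omega)).1), mem_union_left _ (hI (hI0 n (by omega)).2)⟩
  · exact (hf v).trans (if_pos hv)
  · refine (hf v).trans ?_
    rw [if_neg (by omega), if_neg (by omega), if_pos (by omega)]
  · refine (hf _).trans ?_
    rw [if_neg (by omega), if_pos rfl]

end Pool.Agent.P.MP_e40812_co
end

-- part Pool.Agent.P.MP_e40812_co.XGridA
section

/-! The types of the vertices of the tube. -/

namespace Pool.Agent.P.MP_e40812_co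

open Finset Pool.Agent.Lib.PolyTime
open scoped Classical

variable {C : Type} {bl : C} {s len : ℕ} {g : ℤ → Q C}

/-- The type of the vertex `v` of the tube. -/
def xgrida_ty (bl : C) (s len : ℕ) (g : ℤ → Q C) (v : ℕ) : BT C :=
  if v < 2 * s + 1 then botT bl s v
  else if v < 2 * s + 1 + len then
    (6, ((v - (2 * s + 1) : ℕ) : ZMod 7), univ, g ((v - (2 * s + 1) : ℕ) : ℤ))
  else if v < 2 * (2 * s + 1) + len then topT bl s len (v - (2 * s + 1 + len))
  else if v = 2 * (2 * s + 1) + len then (3, 0, ∅, q4 bl) else (6, 0, ∅, q4 bl)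

theorem xgrida_map (hs : 2 ≤ s) :
    (range (2 * (2 * s + 1) + len + s)).val.map (xgrida_ty bl s len g) =
      exA bl s len (tl len g) := by
  have e : 2 * (2 * s + 1) + len + s = 2 * s + 1 + len + (2 * s + 1) + 1 + (s - 1) := by omega
  have h1 : (Multiset.range (2 * s + 1)).map (xgrida_ty bl s len g) =
      (Multiset.range (2 * s + 1)).map (botT bl s) := by
    refine Multiset.map_congr rfl fun v hv => ?_
    rw [Multiset.mem_range] at hv
    rw [xgrida_ty, if_pos hv]
  have h2 : ((Multiset.range len).map (2 * s + 1 + ·)).map (xgrida_ty bl s len g) =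
      (tl len g).map (fun p => ((6, p.1, univ, p.2) : BT C)) := by
    rw [tl, Multiset.map_map, Multiset.map_map]
    refine Multiset.map_congr rfl fun v hv => ?_
    rw [Multiset.mem_range] at hv
    simp only [Function.comp]
    rw [xgrida_ty, if_neg (by omega), if_pos (by omega), Nat.add_sub_cancel_left]
  have h3 : ((Multiset.range (2 * s + 1)).map (2 * s + 1 + len + ·)).map (xgrida_ty bl s len g) =
      (Multiset.range (2 * s + 1)).map (topT bl s len) := by
    rw [Multiset.map_map]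
    refine Multiset.map_congr rfl fun v hv => ?_
    rw [Multiset.mem_range] at hv
    simp only [Function.comp]
    rw [xgrida_ty, if_neg (by omega), if_neg (by omega), if_pos (by omega),
      Nat.add_sub_cancel_left]
  have h4 : ((Multiset.range 1).map (2 * s + 1 + len + (2 * s + 1) + ·)).map
      (xgrida_ty bl s len g) = {(3, 0, ∅, q4 bl)} := by
    rw [Multiset.map_map]
    simp only [Multiset.range_succ, Multiset.range_zero, Multiset.cons_zero,
      Multiset.map_singleton, Function.comp]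
    rw [xgrida_ty, if_neg (by omega), if_neg (by omega), if_neg (by omega), if_pos (by omega)]
  have h5 : ((Multiset.range (s - 1)).map (2 * s + 1 + len + (2 * s + 1) + 1 + ·)).map
      (xgrida_ty bl s len g) = Multiset.replicate (s - 1) (6, 0, ∅, q4 bl) := by
    rw [Multiset.map_map, Multiset.eq_replicate]
    refine ⟨by simp, fun b hb => ?_⟩
    obtain ⟨v, -, rfl⟩ := Multiset.mem_map.1 hb
    simp only [Function.comp]
    rw [xgrida_ty, if_neg (by omega), if_neg (by omega), if_neg (by omega), if_neg (by omega)]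
  rw [Finset.range_val, e, Multiset.range_add, Multiset.range_add, Multiset.range_add,
    Multiset.range_add _ len]
  simp only [Multiset.map_add]
  rw [h1, h2, h3, h4, h5, exA, add_right_comm]

theorem xgrida_cast (h7 : ((2 * s + 1 : ℕ) : ZMod 7) = 3) {v : ℕ} (hv : 2 * s + 1 ≤ v) :
    ((v - (2 * s + 1) : ℕ) : ZMod 7) = (v : ZMod 7) + 4 := by
  rw [Nat.cast_sub hv, h7, sub_eq_add_neg]
  congr 1

theorem exA_enum (hs : 2 ≤ s) (h7 : ((2 * s + 1 : ℕ) : ZMod 7) = 3)
    (hg : Val bl (2 * s + 1) len g) {M : ℕ} (hM : M = 2 * (2 * s + 1) + len) :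
    ∃ ty : ℕ → BT C, (range (M + s)).val.map ty = exA bl s len (tl len g) ∧
      (∀ v < M, ((ty v).1 : ℕ) = dg s M v ∧ (ty v).2.1 = (v : ZMod 7) + 4) ∧
      (∀ v, M < v → v < M + s → ((ty v).1 : ℕ) = 6) ∧ ((ty M).1 : ℕ) = 3 ∧
      ∀ v < M + s, (∀ k, k ∈ (ty v).2.2.1 ↔ off s k ≤ v ∧ v < off s k + (2 * s + 1 + len)) ∧
        (ty v).2.2.2 = g ((v : ℤ) - (2 * s + 1 : ℕ)) := by
  subst hM
  refine ⟨xgrida_ty bl s len g, xgrida_map hs, fun v hv => ?_, fun v h1 h2 => ?_, ?_,
    fun v hv => ⟨fun k => ?_, ?_⟩⟩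
  · unfold xgrida_ty
    by_cases h1 : v < 2 * s + 1
    · rw [if_pos h1]
      refine ⟨?_, rfl⟩
      simp only [botT, dg]
      split_ifs <;> first | rfl | omega
    · rw [if_neg h1]
      by_cases h2 : v < 2 * s + 1 + len
      · rw [if_pos h2]
        refine ⟨?_, xgrida_cast h7 (by omega)⟩
        simp only [dg]
        split_ifs <;> first | rfl | omega
      · rw [if_neg h2, if_pos hv]
        constructor
        · simp only [topT, dg]
          split_ifs <;> first | rfl | omega
        · simp only [topT]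
          rw [← xgrida_cast h7 (show 2 * s + 1 ≤ v by omega)]
          congr 1
          omega
  · rw [xgrida_ty, if_neg (by omega), if_neg (by omega), if_neg (by omega), if_neg (by omega)]
    rfl
  · rw [xgrida_ty, if_neg (by omega), if_neg (by omega), if_neg (by omega), if_pos rfl]
    rfl
  · unfold xgrida_ty
    split_ifs with h1 h2 h3 h4
    · simp only [botT]
      split_ifs <;> fin_cases k <;> simp [off] <;> omega
    · fin_cases k <;> simp [off] <;> omega
    · simp only [topT]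
      split_ifs <;> fin_cases k <;> simp [off] <;> omega
    · fin_cases k <;> simp [off] <;> omega
    · fin_cases k <;> simp [off] <;> omega
  · unfold xgrida_ty
    split_ifs with h1 h2 h3 h4
    · exact (hg.2.2 _ (Or.inl (by omega))).symm
    · show g _ = g _
      congr 1
      omega
    · exact (hg.2.2 _ (Or.inr (by omega))).symm
    · exact (hg.2.2 _ (Or.inr (by omega))).symm
    · exact (hg.2.2 _ (Or.inr (by omega))).symm

theorem xgrida_hasB (h7 : ((2 * s + 1 : ℕ) : ZMod 7) = 3) (x γ : ZMod 7) (b : Bool) (k : Fin 6) :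
    hasB (C := C) (some (x, b)) (.inl (γ, k)) ↔
      b = decide ((k : ℕ) % 2 = 1) ∧ γ = x + (off s k : ℕ) := by
  have h2 : ((2 * s : ℕ) : ZMod 7) = 2 := by
    rw [Nat.cast_succ] at h7
    linear_combination h7
  have o0 : ((off s 0 : ℕ) : ZMod 7) = 0 := by simp [off]
  have o1 : ((off s 1 : ℕ) : ZMod 7) = 0 := by simp [off]
  have o2 : ((off s 2 : ℕ) : ZMod 7) = 1 := by simp [off]
  have o3 : ((off s 3 : ℕ) : ZMod 7) = 3 := h7
  have o4 : ((off s 4 : ℕ) : ZMod 7) = 3 := h7
  have o5 : ((off s 5 : ℕ) : ZMod 7) = 2 := h2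
  cases b <;> fin_cases k <;> simp [hasB, o0, o1, o2, o3, o4, o5]

theorem xgrida_off (k : Fin 6) : off s k ≤ 2 * s + 1 := by
  fin_cases k <;> simp [off]

theorem ok2_ex (hs : 2 ≤ s) (h7 : ((2 * s + 1 : ℕ) : ZMod 7) = 3)
    (hg : Val bl (2 * s + 1) len g) : OK2 bl (exA bl s len (tl len g)) (exB s len) := by
  obtain ⟨ty, hA, h1, h2, h3, h4⟩ := exA_enum hs h7 hg rfl
  set M := 2 * (2 * s + 1) + len with hM
  rw [← hA]
  refine ⟨fun a ha => ?_, ?_, ?_, ?_⟩
  · obtain ⟨v, hv, rfl⟩ := Multiset.mem_map.1 ha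
    have hv' : v < M + s := by simpa using hv
    constructor
    · rcases lt_trichotomy v M with h | h | h
      · rw [(h1 v h).1, dg]
        split_ifs <;> omega
      · rw [h, h3]
      · rw [h2 v h hv']
        omega
    · intro hq
      rw [(h4 v hv').2] at hq
      have hr : 2 * s + 1 ≤ v ∧ v < 2 * s + 1 + len := by
        by_contra hc
        exact hq (hg.2.2 _ (by omega))
      constructor
      · apply Fin.ext
        rw [(h1 v (by omega)).1, dg]
        split_ifs <;> first | rfl | omega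
      · refine eq_univ_iff_forall.2 fun k => ((h4 v hv').1 k).2 ?_
        have := xgrida_off (s := s) k
        omega
  · simp only [Multiset.card_map, Finset.card_val, card_range]
    omega
  · simp only [Multiset.card_map, Finset.card_val, card_range, exB, Multiset.card_add,
      Multiset.card_range, Multiset.card_replicate]
    omega
  · rintro ⟨γ, k⟩
    have hk := xgrida_off (s := s) k
    have eA : ((range (M + s)).val.map ty).countP (fun a => hasA bl a (.inl (γ, k))) =
        ((range (2 * s + 1 + len)).filter fun n : ℕ =>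
          γ = (n : ZMod 7) + 4 + (off s k : ℕ)).card := by
      rw [Multiset.countP_map, ← Finset.filter_val, Finset.card_val]
      symm
      refine Finset.card_bij (fun n _ => n + off s k) (fun n hn => ?_) (fun a _ b _ h => ?_)
        (fun v hv => ?_)
      · rw [mem_filter, mem_range] at hn ⊢
        have hv : n + off s k < M + s := by omega
        refine ⟨hv, ?_, ((h4 _ hv).1 k).2 (by omega)⟩
        rw [(h1 _ (by omega)).2, hn.2]
        push_cast
        ring
      · simpa using h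
      · rw [mem_filter, mem_range] at hv
        obtain ⟨hv, hγ, hkk⟩ := hv
        have hr := ((h4 _ hv).1 k).1 hkk
        refine ⟨v - off s k, ?_, by omega⟩
        rw [mem_filter, mem_range]
        refine ⟨by omega, ?_⟩
        rw [hγ, (h1 _ (by omega)).2, Nat.cast_sub hr.1]
        ring
    have eB : ∀ b : Bool, ((Multiset.range (2 * s + 1 + len)).map
        (fun n : ℕ => (some ((n : ZMod 7) + 4, b) : FT))).countP
          (fun f => hasB (C := C) f (.inl (γ, k))) =
        if b = decide ((k : ℕ) % 2 = 1) then ((range (2 * s + 1 + len)).filter fun n : ℕ =>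
          γ = (n : ZMod 7) + 4 + (off s k : ℕ)).card else 0 := by
      intro b
      rw [Multiset.countP_map, ← Finset.range_val, ← Finset.filter_val, Finset.card_val]
      split_ifs with hb
      · congr 1
        refine filter_congr fun n _ => ?_
        rw [xgrida_hasB h7]
        exact and_iff_right hb
      · rw [card_eq_zero, filter_eq_empty_iff]
        intro n _
        rw [xgrida_hasB h7]
        exact fun h => hb h.1
    have e0 : (Multiset.replicate (6 * s - 2) (none : FT)).countP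
        (fun f => hasB (C := C) f (.inl (γ, k))) = 0 := by
      rw [Multiset.countP_eq_zero]
      intro f hf
      rw [Multiset.eq_of_mem_replicate hf]
      simp [hasB]
    rw [eA, exB, Multiset.countP_add, Multiset.countP_add, eB, eB, e0]
    cases decide ((k : ℕ) % 2 = 1) <;> simp

end Pool.Agent.P.MP_e40812_co
end

-- part Pool.Agent.P.MP_e40812_co.XGridB
section

/-! A tiling of the spiral gives a structure with all layers. -/

namespace Pool.Agent.P.MP_e40812_co

open Finset Pool.Agent.Lib.PolyTime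
open scoped Classical

lemma xgridb_mt {K : Finset ℕ} {G : Finset (Finset ℕ)} {P : ℕ → Prop} (I : ℕ → Prop)
    (f g : ℕ → ℕ) (hf : ∀ i j, I i → I j → f i = f j → i = j)
    (hg : ∀ i j, I i → I j → g i = g j → i = j) (hfg : ∀ i j, I i → I j → f i ≠ g j)
    (h1 : ∀ v ∈ K, P v → ∃ i, I i ∧ (v = f i ∨ v = g i))
    (h2 : ∀ i, I i → f i ∈ K ∧ P (f i) ∧ g i ∈ K ∧ P (g i) ∧ Nb G (f i) (g i)) : Mt K G P := by
  let μ : ℕ → ℕ := fun v => if h : ∃ i, I i ∧ v = f i then g h.choose else
    if h : ∃ i, I i ∧ v = g i then f h.choose else v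
  have m1 : ∀ i, I i → μ (f i) = g i := fun i hi => by
    have h : ∃ j, I j ∧ f i = f j := ⟨i, hi, rfl⟩
    simp only [μ, dif_pos h]
    rw [← hf i _ hi h.choose_spec.1 h.choose_spec.2]
  have m2 : ∀ i, I i → μ (g i) = f i := fun i hi => by
    have h' : ¬ ∃ j, I j ∧ g i = f j := fun ⟨j, hj, e⟩ => hfg j i hj hi e.symm
    have h : ∃ j, I j ∧ g i = g j := ⟨i, hi, rfl⟩
    simp only [μ, dif_neg h', dif_pos h]
    rw [← hg i _ hi h.choose_spec.1 h.choose_spec.2]
  refine ⟨μ, fun v hv hP => ?_⟩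
  obtain ⟨i, hi, rfl | rfl⟩ := h1 v hv hP
  · obtain ⟨-, -, a, b, c⟩ := h2 i hi
    rw [m1 i hi, m2 i hi]
    exact ⟨a, b, rfl, c⟩
  · obtain ⟨a, b, -, -, c⟩ := h2 i hi
    rw [m2 i hi, m1 i hi]
    exact ⟨a, b, rfl, c.symm⟩

/-- The lattice faces of the tube. -/
def xgridb_ph (s : ℕ) (b : Bool) (n : ℕ) : Finset ℕ :=
  if b then {n, n + 2 * s, n + (2 * s + 1)} else {n, n + 1, n + (2 * s + 1)}

lemma xgridb_inj {s : ℕ} (hs : 2 ≤ s) {b b' : Bool} {n n' : ℕ}
    (h : xgridb_ph s b n = xgridb_ph s b' n') : b = b' ∧ n = n' := by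
  have h1 : n ∈ xgridb_ph s b' n' := h ▸ (by cases b <;> simp [xgridb_ph])
  have h2 : n' ∈ xgridb_ph s b n := h ▸ (by cases b' <;> simp [xgridb_ph])
  have h3 : n + 1 ∈ xgridb_ph s b n ↔ n + 1 ∈ xgridb_ph s b' n' := by rw [h]
  have e : n = n' := by
    cases b <;> cases b' <;> simp [xgridb_ph] at h1 h2 <;> omega
  subst e
  refine ⟨?_, rfl⟩
  cases b <;> cases b' <;> simp [xgridb_ph] at h3 ⊢ <;> omega

/-- The type of a face. -/
noncomputable def xgridb_ft (s N : ℕ) (t : Finset ℕ) : FT :=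
  if h : ∃ p : Bool × ℕ, p.2 < N ∧ t = xgridb_ph s p.1 p.2 then
    some ((h.choose.2 : ZMod 7) + 4, h.choose.1) else none

lemma xgridb_ft_ph {s N : ℕ} (hs : 2 ≤ s) (b : Bool) {n : ℕ} (hn : n < N) :
    xgridb_ft s N (xgridb_ph s b n) = some ((n : ZMod 7) + 4, b) := by
  have h : ∃ p : Bool × ℕ, p.2 < N ∧ xgridb_ph s b n = xgridb_ph s p.1 p.2 := ⟨(b, n), hn, rfl⟩
  obtain ⟨h1, h2⟩ := xgridb_inj hs h.choose_spec.2
  rw [xgridb_ft, dif_pos h, ← h1, ← h2]

lemma xgridb_ft_cases (s N : ℕ) (t : Finset ℕ) :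
    (∃ b n, n < N ∧ t = xgridb_ph s b n) ∨ xgridb_ft s N t = none := by
  by_cases h : ∃ p : Bool × ℕ, p.2 < N ∧ t = xgridb_ph s p.1 p.2
  · obtain ⟨p, h⟩ := h
    exact Or.inl ⟨p.1, p.2, h⟩
  · exact Or.inr (dif_neg h)

lemma xgridb_map {s len : ℕ} (hs : 2 ≤ s) {F : Finset (Finset ℕ)}
    (hF : ∀ b n, n < 2 * s + 1 + len → xgridb_ph s b n ∈ F)
    (hc : F.card + 4 = 2 * (2 * (2 * s + 1) + len + s)) :
    F.val.map (xgridb_ft s (2 * s + 1 + len)) = exB s len := by
  set N := 2 * s + 1 + len with hN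
  have hi : ∀ b, Set.InjOn (xgridb_ph s b) (range N) := fun b _ _ _ _ h => (xgridb_inj hs h).2
  have hd : Disjoint ((range N).image (xgridb_ph s false)) ((range N).image (xgridb_ph s true)) := by
    refine disjoint_left.2 fun t h1 h2 => ?_
    obtain ⟨n, -, rfl⟩ := mem_image.1 h1
    obtain ⟨n', -, e⟩ := mem_image.1 h2
    exact absurd (xgridb_inj hs e).1 (by simp)
  have hsub : (range N).image (xgridb_ph s false) ∪ (range N).image (xgridb_ph s true) ⊆ F := by
    intro t ht
    rcases mem_union.1 ht with h | h <;> obtain ⟨n, hn, rfl⟩ := mem_image.1 h <;>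
      exact hF _ n (mem_range.1 hn)
  have hm : ∀ b, ((range N).image (xgridb_ph s b)).val.map (xgridb_ft s N)
      = (Multiset.range N).map (fun n : ℕ => some ((n : ZMod 7) + 4, b)) := fun b => by
    rw [image_val_of_injOn (hi b), Multiset.map_map, range_val]
    exact Multiset.map_congr rfl fun n hn => xgridb_ft_ph hs b (Multiset.mem_range.1 hn)
  set R := F \ ((range N).image (xgridb_ph s false) ∪ (range N).image (xgridb_ph s true)) with hR
  have hv : F.val = ((range N).image (xgridb_ph s false)).val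
      + ((range N).image (xgridb_ph s true)).val + R.val := by
    rw [← disjUnion_val _ _ hd, disjUnion_eq_union, hR, sdiff_val,
      add_tsub_cancel_of_le (val_le_iff.2 hsub)]
  have hRc : R.card = 6 * s - 2 := by
    have h1 := congrArg Multiset.card hv
    simp only [Multiset.card_add, card_val, card_image_of_injOn (hi _), card_range] at h1
    omega
  rw [hv, Multiset.map_add, Multiset.map_add, hm, hm, exB, ← hN]
  congr 1
  rw [← hRc]
  refine Multiset.eq_replicate.2 ⟨by simp, fun x hx => ?_⟩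
  obtain ⟨t, ht, rfl⟩ := Multiset.mem_map.1 hx
  rcases xgridb_ft_cases s N t with ⟨b, n, hn, rfl⟩ | h
  · refine absurd ?_ (mem_sdiff.1 ht).2
    cases b
    · exact mem_union_left _ (mem_image_of_mem _ (mem_range.2 hn))
    · exact mem_union_right _ (mem_image_of_mem _ (mem_range.2 hn))
  · exact h

/-- The orientation of the face in a sector. -/
def xgridb_b : Fin 6 → Bool := ![false, true, false, true, false, true]

lemma xgridb_off (s : ℕ) (k : Fin 6) : off s k ≤ 2 * s + 1 := by
  fin_cases k <;> simp [off]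

lemma xgridb_mem (s : ℕ) (k : Fin 6) (n : ℕ) : n + off s k ∈ xgridb_ph s (xgridb_b k) n := by
  fin_cases k <;> simp [off, xgridb_ph, xgridb_b]

lemma xgridb_hasB {C : Type} {s : ℕ} (h7 : ((2 * s + 1 : ℕ) : ZMod 7) = 3) (n : ℕ) (b : Bool)
    (γ : ZMod 7) (k : Fin 6) :
    hasB (C := C) (some ((n : ZMod 7) + 4, b)) (.inl (γ, k)) ↔
      b = xgridb_b k ∧ γ = ((n + off s k : ℕ) : ZMod 7) + 4 := by
  have h2 : ((2 * s : ℕ) : ZMod 7) = 2 := by
    rw [Nat.cast_add, Nat.cast_one] at h7
    linear_combination h7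
  have e : ((n + off s k : ℕ) : ZMod 7) + 4 = (n : ZMod 7) + 4 + ![0, 0, 1, 3, 3, 2] k := by
    rw [Nat.cast_add, add_right_comm]
    congr 1
    fin_cases k
    · simp [off]
    · simp [off]
    · simp [off]
    · exact h7
    · exact h7
    · exact h2
  rw [e]
  generalize (n : ZMod 7) + 4 = x
  cases b <;> fin_cases k <;> simp [hasB, xgridb_b]

lemma xgridb_notB {C : Type} (f : FT) (l : ZMod 7 × Bool × C) : ¬ hasB f (.inr l) := by
  rcases f with _ | ⟨x, _ | _⟩ <;> exact fun h => h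

theorem grid_build {C : Type} [Fintype C] {bl : C} {s len : ℕ} (hs : 2 ≤ s)
    (h7 : ((2 * s + 1 : ℕ) : ZMod 7) = 3) {g : ℤ → Q C} (hg : Val bl (2 * s + 1) len g) :
    ∃ (K : Finset ℕ) (G : Finset (Finset ℕ)), Pre K G ∧ Geo K G ∧
      Top dX (bX bl) K G (uX (exA bl s len (tl len g)) (exB s len)) := by
  obtain ⟨M, hM⟩ : ∃ M, M = 2 * (2 * s + 1) + len := ⟨_, rfl⟩
  obtain ⟨V, F, hp, hgeo, hV, hF, d1, d2, d3⟩ := exists_tube s M hs (by omega)
  obtain ⟨F', y, hp', hgeo', yi, yV, e1, e2, e3⟩ := stack_all hp hgeo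
  obtain ⟨ty, t1, t2, t3, t4, t5⟩ := exA_enum hs h7 hg hM
  have hF' : ∀ b n, n < 2 * s + 1 + len → xgridb_ph s b n ∈ F := fun b n hn => by
    cases b
    · exact (hF n (by omega)).1
    · exact (hF n (by omega)).2
  have hVm : ∀ v, v ∈ V ↔ v < M + s := fun v => by rw [hV, mem_range]
  let ty0 : ℕ → BT C ⊕ FT := fun v => if v ∈ V then .inl (ty v) else
    .inr (xgridb_ft s (2 * s + 1 + len) (Function.invFunOn y F v))
  have y1 : ∀ v ∈ V, ty0 v = .inl (ty v) := fun v hv => if_pos hv
  have y2 : ∀ t ∈ F, ty0 (y t) = .inr (xgridb_ft s (2 * s + 1 + len) t) := fun t ht => by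
    simp only [ty0, if_neg (yV t ht)]
    rw [yi.leftInvOn_invFunOn ht]
  clear_value ty0
  have p1 : ∀ v ∈ V, ∀ l, l ∈ bX bl (ty0 v) ↔ hasA bl (ty v) l := fun v hv l => by
    rw [y1 v hv, bX, mem_filter]
    exact and_iff_right (mem_univ _)
  have p2 : ∀ t ∈ F, ∀ l : Ly C, l ∈ bX bl (ty0 (y t)) ↔
      hasB (xgridb_ft s (2 * s + 1 + len) t) l := fun t ht l => by
    rw [y2 t ht, bX, mem_filter]
    exact and_iff_right (mem_univ _)
  have hd : Disjoint V (F.image y) := by
    refine disjoint_right.2 fun v hv => ?_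
    obtain ⟨t, ht, rfl⟩ := mem_image.1 hv
    exact yV t ht
  have dir : ∀ (γ : ZMod 7) (b : Bool) (c : C) (d : ℕ) (e : ZMod 7) (q1 q2 : Q C → C),
      (d : ZMod 7) = e → e ≠ 0 → 1 ≤ d → d ≤ 2 * s + 1 → (∀ n, n + d ∈ xgridb_ph s false n) →
      (∀ n, q1 (g n) = q2 (g (n + d))) → q1 (q4 bl) = bl → q2 (q4 bl) = bl →
      (∀ a : BT C, hasA bl a (.inr (γ, b, c)) ↔ c ≠ bl ∧
        ((γ = a.2.1 ∧ q1 a.2.2.2 = c) ∨ (γ + e = a.2.1 ∧ q2 a.2.2.2 = c))) →
      Mt (V ∪ F.image y) F' fun v => Sum.inr (γ, b, c) ∈ bX bl (ty0 v) := by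
    intro γ b c d e q1 q2 hde he hd1 hd2 hph hq hq1 hq2 hA
    have nb1 : ∀ n, c ≠ bl → q1 (g n) = c → 0 ≤ n ∧ n < len := fun n hc h => by
      by_contra hn
      rw [hg.2.2 n (by omega), hq1] at h
      exact hc h.symm
    have nb2 : ∀ n, c ≠ bl → q2 (g n) = c → 0 ≤ n ∧ n < len := fun n hc h => by
      by_contra hn
      rw [hg.2.2 n (by omega), hq2] at h
      exact hc h.symm
    refine xgridb_mt (fun v => c ≠ bl ∧ v < 2 * s + 1 + len ∧ γ = (v : ZMod 7) + 4 ∧
      q1 (g ((v : ℤ) - (2 * s + 1 : ℕ))) = c) (fun v => v) (fun v => v + d)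
      (fun _ _ _ _ h => h) (fun _ _ _ _ h => by omega) (fun i j hi hj h => he ?_)
      (fun v hv hP => ?_) (fun i hi => ?_)
    · have h1 := hi.2.2.1
      have h2 := hj.2.2.1
      rw [show i = j + d from h, Nat.cast_add, hde] at h1
      linear_combination h2 - h1
    · rcases mem_union.1 hv with hv | hv
      · have hv' := (hVm v).1 hv
        rw [p1 v hv, hA, (t5 v hv').2] at hP
        obtain ⟨hc, ⟨h1, h2⟩ | ⟨h1, h2⟩⟩ := hP
        · have h3 := nb1 _ hc h2
          exact ⟨v, ⟨hc, by omega, h1.trans (t2 v (by omega)).2, h2⟩, Or.inl rfl⟩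
        · have h3 := nb2 _ hc h2
          obtain ⟨u, rfl⟩ : ∃ u, v = u + d := ⟨v - d, by omega⟩
          refine ⟨u, ⟨hc, by omega, ?_, ?_⟩, Or.inr rfl⟩
          · rw [(t2 _ (by omega)).2, Nat.cast_add, hde] at h1
            linear_combination h1
          · rw [hq, ← h2]
            congr 2
            push_cast
            ring
      · obtain ⟨t, ht, rfl⟩ := mem_image.1 hv
        exact absurd ((p2 t ht _).1 hP) (xgridb_notB _ _)
    · obtain ⟨hc, h1, h2, h3⟩ := hi
      have i1 : i ∈ V := (hVm _).2 (by omega)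
      have i2 : i + d ∈ V := (hVm _).2 (by omega)
      refine ⟨mem_union_left _ i1, ?_, mem_union_left _ i2, ?_, ?_⟩
      · rw [p1 _ i1, hA, (t5 _ (by omega)).2, (t2 _ (by omega)).2]
        exact ⟨hc, Or.inl ⟨h2, h3⟩⟩
      · rw [p1 _ i2, hA, (t5 _ (by omega)).2, (t2 _ (by omega)).2]
        refine ⟨hc, Or.inr ⟨?_, ?_⟩⟩
        · rw [Nat.cast_add, hde, h2]
          ring
        · rw [← h3, hq]
          congr 2
          push_cast
          ring
      · exact (e3 _ (hF' false i h1) i (by simp [xgridb_ph]) (i + d) (hph i) (by omega)).nb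
  refine ⟨V ∪ F.image y, F', hp', hgeo', ty0, ?_, fun v hv => ?_, fun l => ?_⟩
  · rw [← disjUnion_eq_union _ _ hd, disjUnion_val, Multiset.map_add, uX, ← t1, ← hV,
      ← xgridb_map hs hF' (by rw [hp.card, hV, card_range, hM]), image_val_of_injOn yi,
      Multiset.map_map, Multiset.map_map, Multiset.map_map]
    congr 1
    · exact Multiset.map_congr rfl y1
    · exact Multiset.map_congr rfl y2
  · rcases mem_union.1 hv with hv | hv
    · rw [y1 v hv, e1 v hv, dX]
      congr 1
      rcases lt_trichotomy v M with h | rfl | h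
      · rw [d1 v h, (t2 v h).1]
      · rw [d3, t4]
      · rw [d2 v h ((hVm v).1 hv), t3 v h ((hVm v).1 hv)]
    · obtain ⟨t, ht, rfl⟩ := mem_image.1 hv
      rw [y2 t ht, e2 t ht, dX]
  · rcases l with ⟨γ, k⟩ | ⟨γ, _ | _, c⟩
    · have ho := xgridb_off s k
      refine xgridb_mt (fun n => n < 2 * s + 1 + len ∧ γ = ((n + off s k : ℕ) : ZMod 7) + 4)
        (fun n => n + off s k) (fun n => y (xgridb_ph s (xgridb_b k) n))
        (fun _ _ _ _ h => by omega)
        (fun i j hi hj h => (xgridb_inj hs (yi (hF' _ i hi.1) (hF' _ j hj.1) h)).2)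
        (fun i j hi hj h => yV _ (hF' (xgridb_b k) j hj.1) ((hVm _).2 (by have := hi.1; omega)))
        (fun v hv hP => ?_) (fun i hi => ?_)
      · rcases mem_union.1 hv with hv | hv
        · obtain ⟨h1, h2⟩ := (p1 v hv _).1 hP
          rw [(t5 v ((hVm v).1 hv)).1] at h2
          obtain ⟨n, rfl⟩ : ∃ n, v = n + off s k := ⟨v - off s k, by omega⟩
          exact ⟨n, ⟨by omega, h1.trans (t2 _ (by omega)).2⟩, Or.inl rfl⟩
        · obtain ⟨t, ht, rfl⟩ := mem_image.1 hv
          have h1 := (p2 t ht _).1 hP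
          rcases xgridb_ft_cases s (2 * s + 1 + len) t with ⟨b, n, hn, rfl⟩ | h
          · rw [xgridb_ft_ph hs b hn, xgridb_hasB h7] at h1
            obtain ⟨rfl, h2⟩ := h1
            exact ⟨n, ⟨hn, h2⟩, Or.inr rfl⟩
          · rw [h] at h1
            exact h1.elim
      · obtain ⟨h1, h2⟩ := hi
        have i1 : i + off s k ∈ V := (hVm _).2 (by omega)
        have i2 := hF' (xgridb_b k) i h1
        refine ⟨mem_union_left _ i1, (p1 _ i1 _).2 ⟨h2.trans (t2 _ (by omega)).2.symm,
          ((t5 _ (by omega)).1 k).2 (by omega)⟩, mem_union_right _ (mem_image_of_mem _ i2), ?_, ?_⟩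
        · rw [p2 _ i2, xgridb_ft_ph hs _ h1, xgridb_hasB h7]
          exact ⟨rfl, h2⟩
        · obtain ⟨a, ha, hne⟩ := exists_mem_ne
            (show 1 < (xgridb_ph s (xgridb_b k) i).card by rw [hp.three _ i2]; omega) (i + off s k)
          exact (e3 _ i2 _ (xgridb_mem s k i) a ha hne.symm).nb'
    · exact dir γ false c 1 1 (fun q => q.1) (fun q => q.2.2.1) Nat.cast_one (by decide) le_rfl
        (by omega) (fun n => by simp [xgridb_ph]) (fun n => by exact_mod_cast hg.1 n) rfl rfl
        (fun _ => Iff.rfl)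
    · exact dir γ true c (2 * s + 1) 3 (fun q => q.2.1) (fun q => q.2.2.2) h7 (by decide)
        (by omega) le_rfl (fun n => by simp [xgridb_ph]) hg.2.1 rfl rfl (fun _ => Iff.rfl)

end Pool.Agent.P.MP_e40812_co
end

-- part Pool.Agent.P.MP_e40812_co.XChain
section

/-! The bottom side of the frame has the prescribed length. -/

namespace Pool.Agent.P.MP_e40812_co

open Finset Pool.Agent.Lib.PolyTime
open scoped Classical

theorem xchain_inj {ι : Type} {S : Finset ι} {f g : ι → ι} {p : ι → Prop}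
    (hf : ∀ u ∈ S, p u → g (f u) = u) {v : ι} (hv : ∀ u ∈ S, p u → f u ≠ v) :
    ∀ i j, (∀ l < j, f^[l] v ∈ S ∧ p (f^[l] v)) → i < j → f^[i] v ≠ f^[j] v := by
  intro i
  induction i with
  | zero =>
    intro j hj hij h
    obtain ⟨j, rfl⟩ : ∃ j', j = j' + 1 := ⟨j - 1, by omega⟩
    rw [Function.iterate_succ_apply'] at h
    exact hv _ (hj j (by omega)).1 (hj j (by omega)).2 h.symm
  | succ i ih =>
    intro j hj hij h
    obtain ⟨j, rfl⟩ : ∃ j', j = j' + 1 := ⟨j - 1, by omega⟩
    rw [Function.iterate_succ_apply', Function.iterate_succ_apply'] at h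
    have h2 := congrArg g h
    rw [hf _ (hj i (by omega)).1 (hj i (by omega)).2, hf _ (hj j (by omega)).1 (hj j (by omega)).2]
      at h2
    exact ih j (fun l hl => hj l (by omega)) (by omega) h2

theorem xchain_orbit {ι : Type} {S : Finset ι} {f g : ι → ι} {p : ι → Prop}
    (hf : ∀ u ∈ S, p u → f u ∈ S ∧ g (f u) = u) {v : ι} (h0 : v ∈ S)
    (hv : ∀ u ∈ S, p u → f u ≠ v) :
    ∃ k, ¬p (f^[k] v) ∧ (∀ l < k, p (f^[l] v)) ∧ ∀ l ≤ k, f^[l] v ∈ S := by
  have mem : ∀ k, (∀ l < k, p (f^[l] v)) → ∀ l ≤ k, f^[l] v ∈ S := by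
    intro k hk l
    induction l with
    | zero => exact fun _ => h0
    | succ l ih =>
      intro hl
      rw [Function.iterate_succ_apply']
      exact (hf _ (ih (by omega)) (hk l (by omega))).1
  have ex : ∃ k, ¬p (f^[k] v) := by
    by_contra hn
    push Not at hn
    have hS : ∀ l, f^[l] v ∈ S := fun l => mem l (fun l _ => hn l) l le_rfl
    have hi := xchain_inj (fun u hu hp => (hf u hu hp).2) hv
    have inj : Function.Injective fun l => f^[l] v := by
      intro i j h
      by_contra hne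
      rcases lt_or_gt_of_ne hne with h1 | h1
      · exact hi i j (fun l _ => ⟨hS l, hn l⟩) h1 h
      · exact hi j i (fun l _ => ⟨hS l, hn l⟩) h1 h.symm
    exact Set.infinite_of_injective_forall_mem inj hS S.finite_toSet
  have h1 : ∀ l < Nat.find ex, p (f^[l] v) := fun l hl => not_not.1 (Nat.find_min ex hl)
  exact ⟨Nat.find ex, Nat.find_spec ex, h1, mem _ h1⟩

theorem xchain_count {ι β : Type} [DecidableEq β] (S : Finset ι) (f : ι → β) (b : β) :
    (S.val.map f).count b = (S.filter fun a => f a = b).card := by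
  rw [Multiset.count_map, Finset.card_def, Finset.filter_val]
  exact congrArg Multiset.card (Multiset.filter_congr fun _ _ => eq_comm)

section

variable {D : Type} {W : WS D} {q : Q (PC D)}

theorem xchain_tk (h : q ∈ W.TK) : ∃ t x y f, q = tok t x y f := by
  obtain ⟨p, -, rfl⟩ := Finset.mem_image.1 h
  exact ⟨_, _, _, _, rfl⟩

theorem xchain_W0 (h : W.Al q) (h1 : q.2.2.1 = spc 0) : q = W.tB1 ∨ q = W.tX := by
  rcases h with h | ⟨d, b, h | h | h | h⟩ | h | h | h | h | h | h | h | h | h | h | h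
  · obtain ⟨t, x, y, f, rfl⟩ := xchain_tk h
    simp [tok, dat, spc] at h1
  all_goals first
    | exact Or.inl h
    | exact Or.inr h
    | (subst h
       simp [aE, aW, aN, aS, cap, tSW, WS.tB0, tSE, WS.tL, WS.tR, tNW, WS.tT, tNE, dat, spc] at h1)

theorem xchain_W1 (h : W.Al q) (h1 : q.2.2.1 = spc 1) : q = W.tB0 ∨ q = tSE := by
  rcases h with h | ⟨d, b, h | h | h | h⟩ | h | h | h | h | h | h | h | h | h | h | h
  · obtain ⟨t, x, y, f, rfl⟩ := xchain_tk h
    simp [tok, dat, spc] at h1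
  all_goals first
    | exact Or.inl h
    | exact Or.inr h
    | (subst h
       simp [aE, aW, aN, aS, cap, tSW, WS.tB1, WS.tX, WS.tL, WS.tR, tNW, WS.tT, tNE, dat, spc] at h1)

theorem xchain_W5 (h : W.Al q) (h1 : q.2.2.1 = spc 5) : q = cap := by
  rcases h with h | ⟨d, b, h | h | h | h⟩ | h | h | h | h | h | h | h | h | h | h | h
  · obtain ⟨t, x, y, f, rfl⟩ := xchain_tk h
    simp [tok, dat, spc] at h1
  all_goals first
    | exact h
    | (subst h
       simp [aE, aW, aN, aS, tSW, WS.tB1, WS.tX, WS.tB0, tSE, WS.tL, WS.tR, tNW, WS.tT, tNE, dat,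
         spc] at h1)

theorem xchain_S (h : W.Al q) {d : D} (h1 : q.2.2.2 = dat d false) :
    (∃ t x y f, q = tok t x y f) ∨ q.1 = spc 5 := by
  rcases h with h | ⟨d', b, h | h | h | h⟩ | h | h | h | h | h | h | h | h | h | h | h
  · exact Or.inl (xchain_tk h)
  all_goals first
    | (subst h; exact Or.inr rfl)
    | (subst h
       simp [aE, aW, aS, cap, tSW, WS.tB1, WS.tX, WS.tB0, tSE, WS.tL, WS.tR, tNW, WS.tT, tNE, dat,
         spc] at h1)

end

noncomputable def xchain_bit {D : Type} (c : PC D) : ℕ := if ∃ d, c = dat d true then 1 else 0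

theorem xchain_bit_dat {D : Type} (d : D) (b : Bool) : xchain_bit (dat d b) = b.toNat := by
  cases b <;> simp [xchain_bit, dat]

def xchain_Good {ι D : Type} (P : PG ι (PC D) none) (R : Finset ι) : Prop :=
  ∀ z ∈ R, z ∈ P.S ∧ P.e z ∈ R ∧ (P.col z).1 ≠ none ∧ ∃ d, (P.col z).2.1 = dat d false

theorem xchain_step {ι D : Type} {W : WS D} {P : PG ι (PC D) none}
    (hal : ∀ v ∈ P.S, W.Al (P.col v)) {R : Finset ι} (h : xchain_Good P R) :
    xchain_Good P (R.image P.n) := by
  have a1 : ∀ z ∈ R, P.n z ∈ P.S ∧ ∃ d, (P.col (P.n z)).2.2.2 = dat d false := by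
    intro z hz
    obtain ⟨h1, -, -, d, h4⟩ := h z hz
    obtain ⟨b1, b2, -⟩ := P.hn z h1 (by rw [h4]; simp [dat])
    exact ⟨b1, d, b2.trans h4⟩
  have a2 : ∀ z ∈ R, P.e (P.n z) = P.n (P.e z) := fun z hz =>
    (P.comm z (h z hz).1 (h _ (h z hz).2.1).1 (a1 z hz).1).symm
  have a3 : ∀ y ∈ R.image P.n, y ∈ P.S ∧ P.e y ∈ R.image P.n ∧
      ∃ t x y' f, P.col y = tok t x y' f ∧ (y' && !f) = false := by
    intro y hy
    obtain ⟨z, hz, rfl⟩ := Finset.mem_image.1 hy
    obtain ⟨b1, d, b2⟩ := a1 z hz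
    refine ⟨b1, by rw [a2 z hz]; exact Finset.mem_image_of_mem _ (h z hz).2.1, ?_⟩
    rcases xchain_S (hal _ b1) b2 with ⟨t, x, y', f, h5⟩ | h5
    · refine ⟨t, x, y', f, h5, ?_⟩
      rw [h5] at b2
      simp only [tok, dat, Option.some.injEq, Sum.inl.injEq, Prod.mk.injEq] at b2
      exact b2.2
    · exfalso
      obtain ⟨c1, c2, -⟩ := P.he _ b1 (by rw [h5]; simp [spc])
      have c3 := xchain_W5 (hal _ c1) (c2.trans h5)
      obtain ⟨-, d', c4⟩ := a1 _ (h z hz).2.1
      rw [← a2 z hz, c3] at c4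
      simp [cap, dat] at c4
  have a4 : ∀ y ∈ R.image P.n, (P.col y).1 ≠ none := by
    intro y hy
    obtain ⟨-, -, t, x, y', f, h5, -⟩ := a3 y hy
    rw [h5]; simp [tok, dat]
  have inj : Set.InjOn P.e (R.image P.n : Finset ι) := by
    intro y hy y' hy' hyy
    rw [← (P.he y (a3 y hy).1 (a4 y hy)).2.2, hyy, (P.he y' (a3 y' hy').1 (a4 y' hy')).2.2]
  have im : (R.image P.n).image P.e = R.image P.n :=
    Finset.eq_of_subset_of_card_le (fun y hy => by
      obtain ⟨z, hz, rfl⟩ := Finset.mem_image.1 hy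
      exact (a3 z hz).2.1) (Finset.card_image_of_injOn inj).ge
  have s1 : ∑ y ∈ R.image P.n, xchain_bit (P.col y).2.2.1 =
      ∑ y ∈ R.image P.n, xchain_bit (P.col y).1 := by
    conv_lhs => rw [← im]
    rw [Finset.sum_image inj]
    exact Finset.sum_congr rfl fun y hy => by rw [(P.he y (a3 y hy).1 (a4 y hy)).2.1]
  have s2 := (Finset.sum_eq_sum_iff_of_le (fun y hy => by
    obtain ⟨-, -, t, x, y', f, h5, -⟩ := a3 y hy
    rw [h5]
    simp only [tok, xchain_bit_dat]
    cases x <;> cases f <;> simp)).1 s1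
  intro y hy
  obtain ⟨b1, b2, t, x, y', f, h5, h6⟩ := a3 y hy
  refine ⟨b1, b2, a4 y hy, t.2.1, ?_⟩
  have h7 := s2 y hy
  rw [h5] at h7 ⊢
  simp only [tok, xchain_bit_dat] at h7 ⊢
  cases x <;> cases f <;> cases y' <;> simp_all

theorem xchain_empty {ι D : Type} {W : WS D} {P : PG ι (PC D) none}
    (hal : ∀ v ∈ P.S, W.Al (P.col v)) {R : Finset ι} (h : xchain_Good P R) {z : ι} (hz : z ∈ R) :
    (P.col z).2.2.2 ≠ none := by
  intro h0
  have a : ∀ j, ∃ R', xchain_Good P R' ∧ P.n^[j] z ∈ R' := by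
    intro j
    induction j with
    | zero => exact ⟨R, h, hz⟩
    | succ j ih =>
      obtain ⟨R', h1, h2⟩ := ih
      exact ⟨_, xchain_step hal h1, by
        rw [Function.iterate_succ_apply']; exact Finset.mem_image_of_mem _ h2⟩
  obtain ⟨k, h1, -⟩ := xchain_orbit (S := P.S) (f := P.n) (g := P.s)
    (p := fun u => (P.col u).2.1 ≠ none)
    (fun u hu hp => ⟨(P.hn u hu hp).1, (P.hn u hu hp).2.2⟩) (h z hz).1
    (fun u hu hp he => hp (by rw [← (P.hn u hu hp).2.1, he, h0]))
  obtain ⟨R', h2, h3⟩ := a k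
  obtain ⟨-, -, -, d, h4⟩ := h2 _ h3
  exact h1 (by rw [h4]; simp [dat])

theorem chain_exact {ι D : Type} (W : WS D) (P : PG ι (PC D) none) (m r : ℕ)
    (hal : ∀ v ∈ P.S, W.Al (P.col v)) (h0 : tSW ∈ P.S.val.map P.col)
    (h1 : (P.S.val.map P.col).count W.tB1 = m) (h2 : (P.S.val.map P.col).count W.tX = 1)
    (h3 : (P.S.val.map P.col).count W.tB0 = r) (h4 : (P.S.val.map P.col).count tSE = 1) :
    ∃ v, W.Chain P m (m + 1 + r) v := by
  rw [xchain_count] at h1 h2 h3 h4
  obtain ⟨v, hv, hc⟩ := Multiset.mem_map.1 h0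
  have hv : v ∈ P.S := hv
  have start : ∀ u ∈ P.S, (P.col u).1 ≠ none → P.e u ≠ v := fun u hu hp he =>
    hp (by rw [← (P.he u hu hp).2.1, he, hc]; rfl)
  obtain ⟨k, k1, k2, k3⟩ := xchain_orbit (S := P.S) (f := P.e) (g := P.w)
    (p := fun u => (P.col u).1 ≠ none)
    (fun u hu hp => ⟨(P.he u hu hp).1, (P.he u hu hp).2.2⟩) hv start
  have k1 : (P.col (P.e^[k] v)).1 = none := not_not.1 k1
  have hinj := xchain_inj (S := P.S) (f := P.e) (g := P.w) (p := fun u => (P.col u).1 ≠ none)
    (fun u hu hp => (P.he u hu hp).2.2) start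
  have inj : ∀ i ≤ k, ∀ j ≤ k, P.e^[i] v = P.e^[j] v → i = j := by
    intro i hi j hj h
    by_contra hne
    rcases lt_or_gt_of_ne hne with a | a
    · exact hinj i j (fun l hl => ⟨k3 l (by omega), k2 l (by omega)⟩) a h
    · exact hinj j i (fun l hl => ⟨k3 l (by omega), k2 l (by omega)⟩) a h.symm
  have link : ∀ i < k, (P.col (P.e^[i + 1] v)).2.2.1 = (P.col (P.e^[i] v)).1 := fun i hi => by
    rw [Function.iterate_succ_apply']; exact (P.he _ (k3 i hi.le) (k2 i hi)).2.1
  have ex : ∃ i, (P.col (P.e^[i] v)).1 ≠ spc 0 := ⟨k, by rw [k1]; simp [spc]⟩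
  obtain ⟨j, j1, j2⟩ : ∃ j, (P.col (P.e^[j] v)).1 ≠ spc 0 ∧
      ∀ i < j, (P.col (P.e^[i] v)).1 = spc 0 :=
    ⟨Nat.find ex, Nat.find_spec ex, fun i hi => not_not.1 (Nat.find_min ex hi)⟩
  have jk : j ≤ k := by
    by_contra h
    have := j2 k (by omega)
    rw [k1] at this; simp [spc] at this
  have j0 : j ≠ 0 := by
    rintro rfl
    exact j1 (by rw [Function.iterate_zero_apply, hc]; rfl)
  have cW : ∀ i, 1 ≤ i → i ≤ j → P.col (P.e^[i] v) = W.tB1 ∨ P.col (P.e^[i] v) = W.tX := by
    intro i a b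
    obtain ⟨i, rfl⟩ : ∃ i', i = i' + 1 := ⟨i - 1, by omega⟩
    exact xchain_W0 (hal _ (k3 _ (by omega))) ((link i (by omega)).trans (j2 i (by omega)))
  have c1 : ∀ i, 1 ≤ i → i < j → P.col (P.e^[i] v) = W.tB1 := by
    intro i a b
    rcases cW i a b.le with h | h
    · exact h
    · have := j2 i b
      rw [h] at this; simp [WS.tX, spc] at this
  have cX : P.col (P.e^[j] v) = W.tX := by
    rcases cW j (by omega) le_rfl with h | h
    · exact absurd (by rw [h]; rfl) j1
    · exact h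
  have jk' : j < k := by
    rcases lt_or_eq_of_le jk with h | h
    · exact h
    · subst h; rw [cX] at k1; simp [WS.tX, spc] at k1
  have cE : ∀ i, j ≤ i → i < k → (P.col (P.e^[i] v)).1 = spc 1 := by
    intro i a
    induction i, a using Nat.le_induction with
    | base => intro _; rw [cX]; rfl
    | succ i a ih =>
      intro b
      rcases xchain_W1 (hal _ (k3 _ b.le)) ((link i (by omega)).trans (ih (by omega))) with h | h
      · rw [h]; rfl
      · exact absurd (by rw [h]; rfl) (k2 _ b)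
  have cW1 : ∀ i, j < i → i ≤ k → P.col (P.e^[i] v) = W.tB0 ∨ P.col (P.e^[i] v) = tSE := by
    intro i a b
    obtain ⟨i, rfl⟩ : ∃ i', i = i' + 1 := ⟨i - 1, by omega⟩
    exact xchain_W1 (hal _ (k3 _ b)) ((link i (by omega)).trans (cE i (by omega) (by omega)))
  have c0 : ∀ i, j < i → i < k → P.col (P.e^[i] v) = W.tB0 := by
    intro i a b
    rcases cW1 i a b.le with h | h
    · exact h
    · exact absurd (by rw [h]; rfl) (k2 _ b)
  have cS : P.col (P.e^[k] v) = tSE := by
    rcases cW1 k jk' le_rfl with h | h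
    · rw [h] at k1; simp [WS.tB0, spc] at k1
    · exact h
  have uniq : ∀ q : Q (PC D), (P.S.filter fun a => P.col a = q).card = 1 → ∀ a ∈ P.S, ∀ b ∈ P.S,
      P.col a = q → P.col b = q → a = b := fun q hq a ha b hb ea eb =>
    Finset.card_le_one.1 hq.le a (Finset.mem_filter.2 ⟨ha, ea⟩) b (Finset.mem_filter.2 ⟨hb, eb⟩)
  have good : xchain_Good P (P.S.filter fun z => (P.col z = W.tB1 ∨ P.col z = W.tB0) ∧
      ∀ i ≤ k, z ≠ P.e^[i] v) := by
    intro z hz
    obtain ⟨z1, z2, z3⟩ := Finset.mem_filter.1 hz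
    have zE : (P.col z).1 ≠ none := by
      rcases z2 with h | h <;> rw [h] <;> simp [WS.tB1, WS.tB0, spc]
    obtain ⟨e1, e2, e3⟩ := P.he z z1 zE
    have off : ∀ i ≤ k, P.e z ≠ P.e^[i] v := by
      intro i hi h
      rcases i with _ | i
      · exact start z z1 zE h
      · rw [Function.iterate_succ_apply'] at h
        apply z3 i (by omega)
        rw [← e3, h, (P.he _ (k3 i (by omega)) (k2 i (by omega))).2.2]
    refine ⟨z1, Finset.mem_filter.2 ⟨e1, ?_, off⟩, zE, ?_⟩
    · rcases z2 with h | h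
      · rcases xchain_W0 (hal _ e1) (by rw [e2, h]; rfl) with h' | h'
        · exact Or.inl h'
        · exact absurd (uniq _ h2 _ e1 _ (k3 j jk) h' cX) (off j jk)
      · rcases xchain_W1 (hal _ e1) (by rw [e2, h]; rfl) with h' | h'
        · exact Or.inr h'
        · exact absurd (uniq _ h4 _ e1 _ (k3 k le_rfl) h' cS) (off k le_rfl)
    · rcases z2 with h | h <;> rw [h]
      · exact ⟨_, rfl⟩
      · exact ⟨_, rfl⟩
  have onc : ∀ z ∈ P.S, P.col z = W.tB1 ∨ P.col z = W.tB0 → ∃ i ≤ k, z = P.e^[i] v := by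
    intro z z1 z2
    by_contra hn
    push Not at hn
    refine xchain_empty hal good (Finset.mem_filter.2 ⟨z1, z2, hn⟩) ?_
    rcases z2 with h | h <;> rw [h] <;> rfl
  have cases5 : ∀ i ≤ k, (i = 0 ∧ P.col (P.e^[i] v) = tSW) ∨
      (1 ≤ i ∧ i < j ∧ P.col (P.e^[i] v) = W.tB1) ∨ (i = j ∧ P.col (P.e^[i] v) = W.tX) ∨
      (j < i ∧ i < k ∧ P.col (P.e^[i] v) = W.tB0) ∨ (i = k ∧ P.col (P.e^[i] v) = tSE) := by
    intro i hi
    rcases Nat.eq_zero_or_pos i with a | a
    · subst a; exact Or.inl ⟨rfl, hc⟩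
    rcases lt_trichotomy i j with b | b | b
    · exact Or.inr (Or.inl ⟨a, b, c1 i a b⟩)
    · subst b; exact Or.inr (Or.inr (Or.inl ⟨rfl, cX⟩))
    rcases lt_or_eq_of_le hi with c | c
    · exact Or.inr (Or.inr (Or.inr (Or.inl ⟨b, c, c0 i b c⟩)))
    · subst c; exact Or.inr (Or.inr (Or.inr (Or.inr ⟨rfl, cS⟩)))
  have hm : m = j - 1 := by
    rw [← h1, ← Nat.card_Ico 1 j, ← Finset.card_image_of_injOn (f := fun i => P.e^[i] v)
      fun a ha b hb h => inj a (by have := Finset.mem_Ico.1 ha; omega) b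
        (by have := Finset.mem_Ico.1 hb; omega) h]
    congr 1
    ext z
    simp only [Finset.mem_filter, Finset.mem_image, Finset.mem_Ico]
    constructor
    · rintro ⟨z1, z2⟩
      obtain ⟨i, hi, rfl⟩ := onc z z1 (Or.inl z2)
      rcases cases5 i hi with ⟨-, h⟩ | ⟨a, b, -⟩ | ⟨-, h⟩ | ⟨-, -, h⟩ | ⟨-, h⟩
      · rw [z2] at h; simp [WS.tB1, tSW, spc, dat] at h
      · exact ⟨i, ⟨a, b⟩, rfl⟩
      · rw [z2] at h; simp [WS.tB1, WS.tX, spc] at h
      · rw [z2] at h; simp [WS.tB1, WS.tB0, spc] at h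
      · rw [z2] at h; simp [WS.tB1, tSE, spc] at h
    · rintro ⟨i, ⟨a, b⟩, rfl⟩
      exact ⟨k3 i (by omega), c1 i a b⟩
  have hr : r = k - j - 1 := by
    rw [← h3, ← Nat.card_Ioo j k, ← Finset.card_image_of_injOn (f := fun i => P.e^[i] v)
      fun a ha b hb h => inj a (by have := Finset.mem_Ioo.1 ha; omega) b
        (by have := Finset.mem_Ioo.1 hb; omega) h]
    congr 1
    ext z
    simp only [Finset.mem_filter, Finset.mem_image, Finset.mem_Ioo]
    constructor
    · rintro ⟨z1, z2⟩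
      obtain ⟨i, hi, rfl⟩ := onc z z1 (Or.inr z2)
      rcases cases5 i hi with ⟨-, h⟩ | ⟨-, -, h⟩ | ⟨-, h⟩ | ⟨a, b, -⟩ | ⟨-, h⟩
      · rw [z2] at h; simp [WS.tB0, tSW, spc] at h
      · rw [z2] at h; simp [WS.tB1, WS.tB0, spc] at h
      · rw [z2] at h; simp [WS.tB0, WS.tX, spc] at h
      · exact ⟨i, ⟨a, b⟩, rfl⟩
      · rw [z2] at h; simp [WS.tB0, tSE, spc] at h
    · rintro ⟨i, ⟨a, b⟩, rfl⟩
      exact ⟨k3 i (by omega), c0 i a b⟩
  refine ⟨v, fun i hi => ⟨k3 i (by omega), ?_⟩⟩
  rcases cases5 i (by omega) with ⟨a, h⟩ | ⟨a, b, h⟩ | ⟨a, h⟩ | ⟨a, b, h⟩ | ⟨a, h⟩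
  · rw [if_pos a, h]
  · rw [if_neg (by omega), if_pos (by omega), h]
  · rw [if_neg (by omega), if_neg (by omega), if_pos (by omega), h]
  · rw [if_neg (by omega), if_neg (by omega), if_neg (by omega), if_pos (by omega), h]
  · rw [if_neg (by omega), if_neg (by omega), if_neg (by omega), if_neg (by omega), h]

end Pool.Agent.P.MP_e40812_co
end

-- part Pool.Agent.P.MP_e40812_co.XRect
section

/-! The inside of the frame is a tiling of the square. -/

namespace Pool.Agent.P.MP_e40812_co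

open Finset Pool.Agent.Lib.PolyTime
open scoped Classical

section

variable {ι D : Type}

/-- The bit of a colour. -/
def xrectBit : PC D → ℤ
  | some (.inl (_, true)) => 1
  | _ => 0

/-- The data of a colour. -/
def xrectUn (z : D) : PC D → D
  | some (.inl (d, _)) => d
  | _ => z

lemma xrect_tok {W : WS D} {q : Q (PC D)} (h : q ∈ W.TK) :
    ∃ t ∈ W.τ, ∃ x y f, q = tok t x y f := by
  obtain ⟨⟨t, x, y, f⟩, h1, rfl⟩ := mem_image.1 h
  exact ⟨t, (mem_product.1 h1).1, x, y, f, rfl⟩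

lemma xrect_cases {W : WS D} {q : Q (PC D)} (h : W.Al q) :
    (q.2.2.2 = spc 2 → q = W.tL ∨ q = tNW) ∧
    (∀ d b d' b', q.2.2.1 = dat d b → q.2.2.2 = dat d' b' → q ∈ W.TK) ∧
    (∀ d b, q.2.2.1 = dat d b → q.2.2.2 = spc 3 → q = W.tR) ∧
    (∀ d b, q.2.2.1 = spc 4 → q.2.2.2 = dat d b → q = W.tT) := by
  rcases h with h | ⟨d, b, h | h | h | h⟩ | h | h | h | h | h | h | h | h | h | h | h
  · refine ⟨?_, fun _ _ _ _ _ _ => h, ?_, ?_⟩ <;>
      obtain ⟨t, -, x, y, f, rfl⟩ := xrect_tok h <;> simp [tok, dat, spc]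
  all_goals
    subst h
    simp [aE, aW, aN, aS, cap, tSW, WS.tB1, WS.tX, WS.tB0, tSE, WS.tL, WS.tR, tNW, WS.tT, tNE,
      dat, spc]

lemma xrect_bit (t : Q D) (x y f : Bool) :
    xrectBit (tok t x y f).1 - xrectBit (tok t x y f).2.2.1 =
      xrectBit (tok t x y f).2.1 - xrectBit (tok t x y f).2.2.2 := by
  cases x <;> cases y <;> cases f <;> simp [tok, dat, xrectBit]

/-- The point with coordinates `(i, j)`. -/
def xrectU (P : PG ι (PC D) none) (v : ι) (i j : ℕ) : ι := P.n^[j] (P.e^[i] v)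

/-- A row that can be continued to the north. -/
def xrectUp (P : PG ι (PC D) none) (v : ι) (a j : ℕ) : Prop :=
  (∀ i ≤ a + 1, xrectU P v i j ∈ P.S) ∧
    (∀ i ≤ a, P.e (xrectU P v i j) = xrectU P v (i + 1) j) ∧
    (P.col (xrectU P v 0 j)).2.1 = spc 2 ∧
    (∀ i < a, ∃ d b, (P.col (xrectU P v (i + 1) j)).2.1 = dat d b) ∧
    (P.col (xrectU P v (a + 1) j)).2.1 = spc 3

variable {W : WS D} {P : PG ι (PC D) none} {v : ι} {a j : ℕ}

lemma xrect_succ (i j : ℕ) : xrectU P v i (j + 1) = P.n (xrectU P v i j) :=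
  Function.iterate_succ_apply' _ _ _

lemma xrect_north (h : xrectUp P v a j) (i : ℕ) (hi : i ≤ a + 1) :
    xrectU P v i (j + 1) ∈ P.S ∧
      (P.col (xrectU P v i (j + 1))).2.2.2 = (P.col (xrectU P v i j)).2.1 ∧
      P.s (xrectU P v i (j + 1)) = xrectU P v i j := by
  rw [xrect_succ]
  refine P.hn _ (h.1 i hi) ?_
  rcases i with _ | i
  · rw [h.2.2.1]; simp [spc]
  · rcases (by omega : i < a ∨ i = a) with h1 | rfl
    · obtain ⟨d, b, h2⟩ := h.2.2.2.1 i h1
      rw [h2]; simp [dat]
    · rw [h.2.2.2.2]; simp [spc]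

lemma xrect_east (h : xrectUp P v a j) (i : ℕ) (hi : i ≤ a) :
    P.e (xrectU P v i (j + 1)) = xrectU P v (i + 1) (j + 1) := by
  have h1 := (xrect_north h i (by omega)).1
  rw [xrect_succ] at h1
  have h2 := P.comm _ (h.1 i (by omega)) (by rw [h.2.1 i hi]; exact h.1 _ (by omega)) h1
  rw [xrect_succ, xrect_succ, ← h2, h.2.1 i hi]

lemma xrect_west (h : xrectUp P v a j) (i : ℕ) (hi : i ≤ a)
    (h1 : (P.col (xrectU P v i (j + 1))).1 ≠ none) :
    (P.col (xrectU P v (i + 1) (j + 1))).2.2.1 = (P.col (xrectU P v i (j + 1))).1 := by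
  rw [← xrect_east h i hi]
  exact (P.he _ (xrect_north h i (by omega)).1 h1).2.1

lemma xrect_mid (hal : ∀ v ∈ P.S, W.Al (P.col v)) (h : xrectUp P v a j)
    (h0 : P.col (xrectU P v 0 (j + 1)) = W.tL) :
    (∀ i ≤ a, ∃ d b, (P.col (xrectU P v i (j + 1))).1 = dat d b) ∧
    (∀ i < a, P.col (xrectU P v (i + 1) (j + 1)) ∈ W.TK) ∧
    P.col (xrectU P v (a + 1) (j + 1)) = W.tR ∧ xrectUp P v a (j + 1) := by
  have h2 : ∀ i < a, (∃ d b, (P.col (xrectU P v i (j + 1))).1 = dat d b) →
      P.col (xrectU P v (i + 1) (j + 1)) ∈ W.TK := by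
    rintro i hi ⟨d, b, h3⟩
    obtain ⟨d', b', h4⟩ := h.2.2.2.1 i hi
    obtain ⟨h5, h6, -⟩ := xrect_north h (i + 1) (by omega)
    exact (xrect_cases (hal _ h5)).2.1 d b d' b'
      ((xrect_west h i hi.le (by rw [h3]; simp [dat])).trans h3) (h6.trans h4)
  have h1 : ∀ i ≤ a, ∃ d b, (P.col (xrectU P v i (j + 1))).1 = dat d b := by
    intro i hi
    induction i with
    | zero => exact ⟨_, _, by rw [h0]; rfl⟩
    | succ i ih =>
      obtain ⟨t, -, x, y, f, h3⟩ := xrect_tok (h2 i hi (ih (by omega)))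
      exact ⟨_, _, by rw [h3]; rfl⟩
  have h7 : P.col (xrectU P v (a + 1) (j + 1)) = W.tR := by
    obtain ⟨d, b, h3⟩ := h1 a le_rfl
    obtain ⟨h5, h6, -⟩ := xrect_north h (a + 1) le_rfl
    exact (xrect_cases (hal _ h5)).2.2.1 d b
      ((xrect_west h a le_rfl (by rw [h3]; simp [dat])).trans h3) (h6.trans h.2.2.2.2)
  refine ⟨h1, fun i hi => h2 i hi (h1 i hi.le), h7, fun i hi => (xrect_north h i hi).1,
    xrect_east h, by rw [h0]; rfl, fun i hi => ?_, by rw [h7]; rfl⟩
  obtain ⟨t, -, x, y, f, h3⟩ := xrect_tok (h2 i hi (h1 i hi.le))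
  exact ⟨_, _, by rw [h3]; rfl⟩

lemma xrect_top (hal : ∀ v ∈ P.S, W.Al (P.col v)) (h : xrectUp P v a j)
    (h0 : P.col (xrectU P v 0 (j + 1)) = tNW) (i : ℕ) (hi : i < a) :
    P.col (xrectU P v (i + 1) (j + 1)) = W.tT := by
  have h2 : ∀ i < a, (P.col (xrectU P v i (j + 1))).1 = spc 4 →
      P.col (xrectU P v (i + 1) (j + 1)) = W.tT := by
    intro i hi h3
    obtain ⟨d', b', h4⟩ := h.2.2.2.1 i hi
    obtain ⟨h5, h6, -⟩ := xrect_north h (i + 1) (by omega)
    exact (xrect_cases (hal _ h5)).2.2.2 d' b'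
      ((xrect_west h i hi.le (by rw [h3]; simp [spc])).trans h3) (h6.trans h4)
  induction i with
  | zero => exact h2 0 hi (by rw [h0]; rfl)
  | succ i ih => exact h2 _ hi (by rw [ih (by omega)]; rfl)

lemma xrect_bot {m : ℕ} (hv : W.Chain P m a v) (i : ℕ) (hi : i < a) :
    (P.col (xrectU P v (i + 1) 0)).2.1 = dat (W.bot m i) false := by
  have h1 := (hv (i + 1) (by omega)).2
  show (P.col (P.e^[i + 1] v)).2.1 = _
  rw [h1, WS.bot, if_neg (by omega)]
  split_ifs <;> first | rfl | omega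

lemma xrect_zero {m : ℕ} (hm : m < a) (hv : W.Chain P m a v) : xrectUp P v a 0 := by
  refine ⟨fun i hi => (hv i hi).1, fun i _ => (Function.iterate_succ_apply' P.e i v).symm, ?_,
    fun i hi => ⟨_, _, xrect_bot hv i hi⟩, ?_⟩
  · have h1 := (hv 0 (by omega)).2
    show (P.col (P.e^[0] v)).2.1 = _
    rw [h1]; rfl
  · have h1 := (hv (a + 1) le_rfl).2
    show (P.col (P.e^[a + 1] v)).2.1 = _
    rw [h1, if_neg (by omega), if_neg (by omega), if_neg (by omega), if_neg (by omega)]
    rfl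

lemma xrect_end {m : ℕ} (hal : ∀ v ∈ P.S, W.Al (P.col v)) (hm : m < a) (hv : W.Chain P m a v) :
    ∃ j, P.col (xrectU P v 0 (j + 1)) ≠ W.tL := by
  by_contra hc
  push Not at hc
  have h1 : ∀ j, xrectUp P v a j := by
    intro j
    induction j with
    | zero => exact xrect_zero hm hv
    | succ j ih => exact (xrect_mid hal ih (hc j)).2.2.2
  have h0 : ∀ k, xrectU P v 0 0 ≠ xrectU P v 0 (k + 1) := by
    intro k hk
    have h2 := hc k
    rw [← hk] at h2
    have h3 : P.col (xrectU P v 0 0) = tSW := (hv 0 (by omega)).2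
    rw [h3] at h2
    simp [tSW, WS.tL, spc, dat] at h2
  have h2 : ∀ j k, xrectU P v 0 j = xrectU P v 0 k → j = k := by
    intro j
    induction j with
    | zero =>
      rintro (_ | k) hk
      · rfl
      · exact absurd hk (h0 k)
    | succ j ih =>
      rintro (_ | k) hk
      · exact absurd hk.symm (h0 j)
      · have h3 := congrArg P.s hk
        rw [(xrect_north (h1 j) 0 (by omega)).2.2, (xrect_north (h1 k) 0 (by omega)).2.2] at h3
        rw [ih k h3]
  exact Set.infinite_of_injective_forall_mem (f := xrectU P v 0) (s := (P.S : Set ι)) h2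
    (fun j => (h1 j).1 0 (by omega)) P.S.finite_toSet

end

theorem til_of_chain {ι D : Type} (W : WS D) (P : PG ι (PC D) none) (m a : ℕ) (hm : m < a)
    (hal : ∀ v ∈ P.S, W.Al (P.col v)) {v : ι} (hv : W.Chain P m a v) : ∃ h v, W.Til m a h v := by
  have hex := xrect_end hal hm hv
  set b := Nat.find hex with hb
  have hL : ∀ j < b, P.col (xrectU P v 0 (j + 1)) = W.tL := fun j hj =>
    not_not.1 (Nat.find_min hex hj)
  have hup : ∀ j ≤ b, xrectUp P v a j := by
    intro j hj
    induction j with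
    | zero => exact xrect_zero hm hv
    | succ j ih => exact (xrect_mid hal (ih (by omega)) (hL j hj)).2.2.2
  have hNW : P.col (xrectU P v 0 (b + 1)) = tNW := by
    obtain ⟨h1, h2, -⟩ := xrect_north (hup b le_rfl) 0 (by omega)
    exact ((xrect_cases (hal _ h1)).1 (h2.trans (hup b le_rfl).2.2.1)).resolve_left
      (Nat.find_spec hex)
  set H : ℕ → ℕ → PC D := fun i j => (P.col (xrectU P v i (j + 1))).1 with hH
  set V : ℕ → ℕ → PC D := fun i j => (P.col (xrectU P v (i + 1) j)).2.1 with hV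
  have hW : ∀ j < b, ∀ i ≤ a, (P.col (xrectU P v (i + 1) (j + 1))).2.2.1 = H i j := by
    intro j hj i hi
    obtain ⟨d, c, h1⟩ := (xrect_mid hal (hup j hj.le) (hL j hj)).1 i hi
    exact xrect_west (hup j hj.le) i hi (by rw [h1]; simp [dat])
  have hcell : ∀ i < a, ∀ j < b, ∃ t ∈ W.τ, ∃ x y f,
      (H (i + 1) j, V i (j + 1), H i j, V i j) = tok t x y f := by
    intro i hi j hj
    obtain ⟨t, ht, x, y, f, h1⟩ := xrect_tok ((xrect_mid hal (hup j hj.le) (hL j hj)).2.1 i hi)
    refine ⟨t, ht, x, y, f, ?_⟩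
    rw [← h1, ← hW j hj i hi.le]
    have h2 := (xrect_north (hup j hj.le) (i + 1) (by omega)).2.1
    exact Prod.ext rfl (Prod.ext rfl (Prod.ext rfl h2.symm))
  have hH0 : ∀ j < b, H 0 j = dat W.L false := fun j hj => by
    simp only [hH]; rw [hL j hj]; rfl
  have hHa : ∀ j < b, H a j = dat W.R true := fun j hj => by
    rw [← hW j hj a le_rfl, (xrect_mid hal (hup j hj.le) (hL j hj)).2.2.1]; rfl
  have hV0 : ∀ i < a, V i 0 = dat (W.bot m i) false := fun i hi => xrect_bot hv i hi
  have hVb : ∀ i < a, V i b = dat W.Tp true := fun i hi => by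
    have h2 := (xrect_north (hup b le_rfl) (i + 1) (by omega)).2.1
    rw [xrect_top hal (hup b le_rfl) hNW i hi] at h2
    exact h2.symm
  have hab : b = a := by
    have h1 : ∑ j ∈ range b, ∑ i ∈ range a, (xrectBit (H (i + 1) j) - xrectBit (H i j)) =
        ∑ i ∈ range a, ∑ j ∈ range b, (xrectBit (V i (j + 1)) - xrectBit (V i j)) := by
      rw [sum_comm]
      refine sum_congr rfl fun i hi => sum_congr rfl fun j hj => ?_
      obtain ⟨t, -, x, y, f, h2⟩ := hcell i (mem_range.1 hi) j (mem_range.1 hj)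
      have h3 := xrect_bit t x y f
      rw [← h2] at h3
      exact h3
    have h2 : ∑ j ∈ range b, ∑ i ∈ range a, (xrectBit (H (i + 1) j) - xrectBit (H i j)) =
        ∑ _j ∈ range b, (1 : ℤ) := by
      refine sum_congr rfl fun j hj => ?_
      rw [sum_range_sub (fun i => xrectBit (H i j)), hH0 j (mem_range.1 hj),
        hHa j (mem_range.1 hj)]
      rfl
    have h3 : ∑ i ∈ range a, ∑ j ∈ range b, (xrectBit (V i (j + 1)) - xrectBit (V i j)) =
        ∑ _i ∈ range a, (1 : ℤ) := by
      refine sum_congr rfl fun i hi => ?_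
      rw [sum_range_sub (fun j => xrectBit (V i j)), hV0 i (mem_range.1 hi),
        hVb i (mem_range.1 hi)]
      rfl
    rw [h2, h3] at h1
    simpa using h1
  rw [hab] at hcell hH0 hHa hVb
  refine ⟨fun i j => xrectUn W.L (H i j), fun i j => xrectUn W.L (V i j), fun i hi j hj => ?_,
    fun j hj => ?_, fun i hi => ?_⟩
  · obtain ⟨t, ht, x, y, f, h2⟩ := hcell i hi j hj
    simp only [tok, Prod.mk.injEq] at h2
    obtain ⟨e1, e2, e3, e4⟩ := h2
    simp only [e1, e2, e3, e4]
    exact ht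
  · simp only [hH0 j hj, hHa j hj]
    exact ⟨rfl, rfl⟩
  · simp only [hV0 i hi, hVb i hi]
    exact ⟨rfl, rfl⟩

end Pool.Agent.P.MP_e40812_co
end

-- part Pool.Agent.P.MP_e40812_co.XIsl
section

/-! Blocks on the spiral. -/

namespace Pool.Agent.P.MP_e40812_co

open Finset Pool.Agent.Lib.PolyTime
open scoped Classical

theorem xisl_tl_add {C : Type} (a b : ℕ) (g : ℤ → Q C) :
    tl (a + b) g = tl a g +
      (Multiset.range b).map fun n : ℕ => (((a + n : ℕ) : ZMod 7), g ((a + n : ℕ) : ℤ)) := by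
  unfold tl
  rw [Multiset.range_add, Multiset.map_add, Multiset.map_map]
  rfl

theorem Sp.mono {C : Type} {bl : C} {c len len' : ℕ} {μ : Multiset (ZMod 7 × Q C)}
    (h : Sp bl c len μ) (hl : len ≤ len') : Sp bl c len' μ := by
  obtain ⟨g, ⟨h1, h2, h3⟩, rfl⟩ := h
  obtain ⟨d, rfl⟩ := Nat.exists_eq_add_of_le hl
  refine ⟨g, ⟨h1, h2, fun n hn => h3 n (by omega)⟩, ?_⟩
  rw [xisl_tl_add, Multiset.filter_add, add_eq_left, Multiset.filter_eq_nil]
  intro p hp
  obtain ⟨n, -, rfl⟩ := Multiset.mem_map.1 hp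
  exact not_not.2 (h3 _ (by omega))

theorem Sp.zero {C : Type} (bl : C) (c : ℕ) : Sp bl c 0 0 :=
  ⟨fun _ => q4 bl, ⟨fun _ => rfl, fun _ => rfl, fun _ _ => rfl⟩, by simp [tl]⟩

theorem Sp.add {C : Type} {bl : C} {c k len : ℕ} {μ ν : Multiset (ZMod 7 × Q C)}
    (h : Sp bl c (7 * k) μ) (h' : Sp bl c len ν) : Sp bl c (7 * k + len) (μ + ν) := by
  obtain ⟨g, ⟨h1, h2, h3⟩, rfl⟩ := h
  obtain ⟨f, ⟨f1, f2, f3⟩, rfl⟩ := h'
  refine ⟨fun n => if n < (7 * k : ℕ) then g n else f (n - (7 * k : ℕ)), ⟨fun n => ?_, fun n => ?_,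
    fun n hn => ?_⟩, ?_⟩
  · dsimp only
    split_ifs with a b b
    · exact h1 n
    · rw [h1 n, h3 _ (by omega), show n + 1 - (7 * k : ℕ) = n - (7 * k : ℕ) + 1 by ring, ← f1,
        f3 _ (by omega)]
      rfl
    · omega
    · rw [f1, show n + 1 - (7 * k : ℕ) = n - (7 * k : ℕ) + 1 by ring]
  · dsimp only
    split_ifs with a b b
    · exact h2 n
    · rw [h2 n, h3 _ (by omega), show n + c - (7 * k : ℕ) = n - (7 * k : ℕ) + c by ring, ← f2,
        f3 _ (by omega)]
      rfl
    · omega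
    · rw [f2, show n + c - (7 * k : ℕ) = n - (7 * k : ℕ) + c by ring]
  · dsimp only
    split_ifs with a
    · exact h3 _ (by omega)
    · exact f3 _ (by omega)
  · rw [xisl_tl_add, Multiset.filter_add]
    congr 2
    · refine Multiset.map_congr rfl fun n hn => ?_
      rw [Multiset.mem_range] at hn
      dsimp only
      rw [if_pos (by omega)]
    · refine Multiset.map_congr rfl fun n _ => ?_
      rw [if_neg (by omega)]
      congr 1
      · push_cast
        rw [show (7 : ZMod 7) = 0 from rfl]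
        ring
      · congr 1
        omega

theorem xisl_class (β : ZMod 7) (k : ℕ) :
    (Multiset.range (7 * k)).countP (fun n : ℕ => (n : ZMod 7) = β) = k := by
  induction k with
  | zero => simp
  | succ k ih =>
    rw [Nat.mul_succ, Multiset.range_add, Multiset.countP_add, ih, Multiset.countP_map]
    congr 1
    have e : ∀ n : ℕ, ((7 * k + n : ℕ) : ZMod 7) = n := fun n => by
      push_cast
      rw [show (7 : ZMod 7) = 0 from rfl]
      ring
    simp only [e]
    clear ih
    revert β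
    decide

theorem xisl_blank {X : Type} (x : X) (ν : Multiset (ZMod 7 × X)) (h : ∀ p ∈ ν, p.2 = x) :
    ν = ∑ β : ZMod 7, Multiset.replicate (ν.countP fun p => p.1 = β) (β, x) := by
  induction ν using Multiset.induction_on with
  | empty => simp
  | cons p ν ih =>
    have e : ∀ β : ZMod 7, Multiset.replicate ((p ::ₘ ν).countP fun p => p.1 = β) (β, x) =
        Multiset.replicate (ν.countP fun p => p.1 = β) (β, x) +
          if p.1 = β then {(β, x)} else 0 := fun β => by
      rw [Multiset.countP_cons, Multiset.replicate_add]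
      split_ifs <;> simp
    simp only [e]
    rw [Finset.sum_add_distrib, ← ih fun q hq => h q (Multiset.mem_cons_of_mem hq),
      Finset.sum_ite_eq, if_pos (Finset.mem_univ _), ← h p (Multiset.mem_cons_self _ _), add_comm,
      Multiset.singleton_add]

theorem Sp.fill {C : Type} {bl : C} {c k : ℕ} {μ : Multiset (ZMod 7 × Q C)}
    (h : Sp bl c (7 * k) μ) : ∃ g, Val bl c (7 * k) g ∧ tl (7 * k) g = fill bl k μ := by
  obtain ⟨g, hg, rfl⟩ := h
  refine ⟨g, hg, ?_⟩
  have hc : ∀ β : ZMod 7, (tl (7 * k) g).countP (fun p => p.1 = β) = k := fun β => by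
    unfold tl
    rw [Multiset.countP_map, ← Multiset.countP_eq_card_filter]
    exact xisl_class β k
  generalize tl (7 * k) g = T at hc
  have e := Multiset.filter_add_not (fun p : ZMod 7 × Q C => p.2 ≠ q4 bl) T
  unfold P.MP_e40812_co.fill
  generalize T.filter (fun p : ZMod 7 × Q C => p.2 ≠ q4 bl) = μ at e
  have hb := xisl_blank (q4 bl) (T.filter fun p : ZMod 7 × Q C => ¬p.2 ≠ q4 bl) fun p hp =>
    not_not.1 (Multiset.mem_filter.1 hp).2
  generalize T.filter (fun p : ZMod 7 × Q C => ¬p.2 ≠ q4 bl) = ν at e hb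
  subst e
  congr 1
  rw [hb]
  refine Finset.sum_congr rfl fun β _ => ?_
  rw [← hc β, Multiset.countP_add, Nat.add_sub_cancel_left]

theorem xisl_pts {C : Type} {bl : C} {c len : ℕ} (g : ℤ → Q C) (L : Multiset (ℕ × Q C))
    (hL : (L.map Prod.fst).Nodup) (h1 : ∀ n, (g n).1 = (g (n + 1)).2.2.1)
    (h2 : ∀ n, (g n).2.1 = (g (n + c)).2.2.2)
    (h3 : ∀ x ∈ L, x.1 < len ∧ g x.1 = x.2 ∧ x.2 ≠ q4 bl)
    (h4 : ∀ n : ℤ, (∀ x ∈ L, n ≠ x.1) → g n = q4 bl) :
    Sp bl c len (L.map fun x => ((x.1 : ZMod 7), x.2)) := by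
  refine ⟨g, ⟨h1, h2, fun n hn => h4 n fun x hx => ?_⟩, ?_⟩
  · have := (h3 x hx).1
    omega
  unfold tl
  rw [Multiset.filter_map]
  have e : (Multiset.range len).filter ((fun p : ZMod 7 × Q C => p.2 ≠ q4 bl) ∘
      fun n : ℕ => ((n : ZMod 7), g n)) = L.map Prod.fst := by
    refine (Multiset.Nodup.ext ((Multiset.nodup_range len).filter _) hL).2 fun n => ?_
    simp only [Multiset.mem_filter, Multiset.mem_range, Function.comp, Multiset.mem_map]
    constructor
    · rintro ⟨-, hn⟩
      by_contra hc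
      exact hn (h4 n fun x hx e => hc ⟨x, hx, by omega⟩)
    · rintro ⟨x, hx, rfl⟩
      obtain ⟨a1, a2, a3⟩ := h3 x hx
      exact ⟨a1, a2 ▸ a3⟩
  rw [e, Multiset.map_map]
  exact Multiset.map_congr rfl fun x hx => by simp [(h3 x hx).2.1]

variable {D : Type} {c : ℕ}

/-- The tiles of an island with centre `p`. -/
def xisl_g (q : Q (PC D)) (p c n : ℤ) : Q (PC D) :=
  if n = p then q else if n = p + 1 then aE q.1 else if n + 1 = p then aW q.2.2.1 else
    if n = p + c then aN q.2.1 else if n + c = p then aS q.2.2.2 else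
      if n = p + c + 1 then cap else q4 none

theorem xisl_g1 (q : Q (PC D)) (p c n : ℤ) (hc : 3 ≤ c) :
    (xisl_g q p c n).1 = (xisl_g q p c (n + 1)).2.2.1 := by
  unfold xisl_g
  split_ifs <;> first | rfl | omega

theorem xisl_g2 (q : Q (PC D)) (p c n : ℤ) (hc : 3 ≤ c) :
    (xisl_g q p c n).2.1 = (xisl_g q p c (n + c)).2.2.2 := by
  unfold xisl_g
  split_ifs <;> first | rfl | omega

theorem xisl_g3 (q : Q (PC D)) (p c n : ℤ) (hc : 3 ≤ c) :
    (n = p → xisl_g q p c n = q) ∧ (n = p + 1 → xisl_g q p c n = aE q.1) ∧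
      (n + 1 = p → xisl_g q p c n = aW q.2.2.1) ∧ (n = p + c → xisl_g q p c n = aN q.2.1) ∧
      (n + c = p → xisl_g q p c n = aS q.2.2.2) ∧ (n = p + c + 1 → xisl_g q p c n = cap) := by
  unfold xisl_g
  refine ⟨?_, ?_, ?_, ?_, ?_, ?_⟩ <;> intro h <;> split_ifs <;> first | rfl | omega

theorem sp_island (hc : 3 ≤ c) (h7 : (c : ZMod 7) = 3) (β : ZMod 7) (q : Q (PC D))
    (h1 : q.1 ≠ none) (h2 : q.2.1 ≠ none) (h3 : q.2.2.1 ≠ none) (h4 : q.2.2.2 ≠ none) :
    Sp none c (7 * c) ((β, q) ::ₘ ext (β, q)) := by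
  obtain ⟨r, hr, hβ⟩ : ∃ r : ℕ, r < 7 ∧ (r : ZMod 7) = β - 3 :=
    ⟨(β - 3).val, ZMod.val_lt _, ZMod.natCast_zmod_val _⟩
  obtain ⟨b, rfl⟩ : ∃ b, c = b + 1 := ⟨c - 1, by omega⟩
  have hb : (b : ZMod 7) = 2 := by
    push_cast at h7
    linear_combination h7
  have hc' : (3 : ℤ) ≤ (b + 1 : ℕ) := by omega
  have g3 := fun n => xisl_g3 q (r + b + 1) (b + 1 : ℕ) n hc'
  have := xisl_pts (bl := (none : PC D)) (c := b + 1) (len := 7 * (b + 1))
    (xisl_g q (r + b + 1) (b + 1 : ℕ))
    {(r + b + 1, q), (r + b + 2, aE q.1), (r + b, aW q.2.2.1), (r + 2 * b + 2, aN q.2.1),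
      (r, aS q.2.2.2), (r + 2 * b + 3, cap)}
    (by simp; omega) (fun n => xisl_g1 q _ _ n hc') (fun n => xisl_g2 q _ _ n hc')
    (fun x hx => by
      simp only [Multiset.insert_eq_cons, Multiset.mem_cons, Multiset.mem_singleton] at hx
      rcases hx with rfl | rfl | rfl | rfl | rfl | rfl
      · exact ⟨by omega, (g3 _).1 (by omega), fun e => h1 (congrArg (·.1) e)⟩
      · exact ⟨by omega, (g3 _).2.1 (by omega), fun e => h1 (congrArg (·.2.2.1) e)⟩
      · exact ⟨by omega, (g3 _).2.2.1 (by omega), fun e => h3 (congrArg (·.1) e)⟩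
      · exact ⟨by omega, (g3 _).2.2.2.1 (by omega), fun e => h2 (congrArg (·.2.2.2) e)⟩
      · exact ⟨by omega, (g3 _).2.2.2.2.1 (by omega), fun e => h4 (congrArg (·.2.1) e)⟩
      · exact ⟨by omega, (g3 _).2.2.2.2.2 (by omega), by simp [cap, q4, spc]⟩)
    (fun n hn => by
      simp only [Multiset.insert_eq_cons, Multiset.mem_cons, Multiset.mem_singleton,
        forall_eq_or_imp, forall_eq] at hn
      unfold xisl_g
      split_ifs <;> first | rfl | omega)
  convert this using 1
  simp only [ext, Multiset.insert_eq_cons, Multiset.map_cons, Multiset.map_singleton]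
  push_cast
  rw [hβ, hb, show β - 3 + 2 + 1 = β by ring, show β - 3 + 2 + 2 = β + 1 by ring,
    show β - 3 + 2 = β - 1 by ring, show β - 3 + 2 * 2 + 2 = β + 3 by ring,
    show β - 3 + 2 * 2 + 3 = β + 4 by ring]

theorem sp_hd (hc : 3 ≤ c) (β : ZMod 7) {x : PC D} (hx : x ≠ none) :
    Sp none c (7 * c) (hd β x) := by
  obtain ⟨r, hr, hβ⟩ : ∃ r : ℕ, r < 7 ∧ (r : ZMod 7) = β - 1 :=
    ⟨(β - 1).val, ZMod.val_lt _, ZMod.natCast_zmod_val _⟩
  have := xisl_pts (bl := (none : PC D)) (c := c) (len := 7 * c)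
    (fun n => if n = r then aW x else if n = r + 1 then aE x else q4 none)
    {(r, aW x), (r + 1, aE x)}
    (by simp)
    (fun n => by split_ifs <;> first | rfl | omega)
    (fun n => by split_ifs <;> rfl)
    (fun y hy => by
      simp only [Multiset.insert_eq_cons, Multiset.mem_cons, Multiset.mem_singleton] at hy
      rcases hy with rfl | rfl <;>
        refine ⟨by omega, by dsimp only; split_ifs <;> first | rfl | omega, ?_⟩ <;>
        simp [q4, aE, aW, Prod.ext_iff, *])
    (fun n hn => by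
      simp only [Multiset.insert_eq_cons, Multiset.mem_cons, Multiset.mem_singleton,
        forall_eq_or_imp, forall_eq] at hn
      split_ifs <;> first | rfl | omega)
  convert this using 1
  simp only [hd, Multiset.insert_eq_cons, Multiset.map_cons, Multiset.map_singleton]
  push_cast
  rw [hβ, sub_add_cancel]

theorem sp_vd (hc : 3 ≤ c) (h7 : (c : ZMod 7) = 3) (β : ZMod 7) {x : PC D} (hx : x ≠ none) :
    Sp none c (7 * c) (vd β x) := by
  obtain ⟨r, hr, hβ⟩ : ∃ r : ℕ, r < 7 ∧ (r : ZMod 7) = β - 3 :=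
    ⟨(β - 3).val, ZMod.val_lt _, ZMod.natCast_zmod_val _⟩
  have := xisl_pts (bl := (none : PC D)) (c := c) (len := 7 * c)
    (fun n => if n = r then aS x else if n = r + c then aN x else
      if n = r + c + 1 then cap else q4 none)
    {(r, aS x), (r + c, aN x), (r + c + 1, cap)}
    (by simp; omega)
    (fun n => by split_ifs <;> first | rfl | omega)
    (fun n => by split_ifs <;> first | rfl | omega)
    (fun y hy => by
      simp only [Multiset.insert_eq_cons, Multiset.mem_cons, Multiset.mem_singleton] at hy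
      rcases hy with rfl | rfl | rfl <;>
        refine ⟨by omega, by dsimp only; split_ifs <;> first | rfl | omega, ?_⟩ <;>
        simp [q4, aN, aS, cap, spc, Prod.ext_iff, *])
    (fun n hn => by
      simp only [Multiset.insert_eq_cons, Multiset.mem_cons, Multiset.mem_singleton,
        forall_eq_or_imp, forall_eq] at hn
      split_ifs <;> first | rfl | omega)
  convert this using 1
  simp only [vd, Multiset.insert_eq_cons, Multiset.map_cons, Multiset.map_singleton]
  push_cast
  rw [hβ, h7, sub_add_cancel]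

end Pool.Agent.P.MP_e40812_co
end

-- part Pool.Agent.P.MP_e40812_co.XAct
section

/-! The framed square on the spiral. -/

namespace Pool.Agent.P.MP_e40812_co

open Finset Pool.Agent.Lib.PolyTime
open scoped Classical

/-- The colour west of the point `(x, y)` of the framed square. -/
def xactH {D : Type} (m a : ℕ) (h : ℕ → ℕ → D) (x y : ℕ) : PC D :=
  if x = 0 ∨ x = a + 2 then none else if y = 0 then (if x ≤ m + 1 then spc 0 else spc 1)
  else if y = a + 1 then spc 4 else dat (h (x - 1) (y - 1)) (decide (y - 1 < x - 1))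

/-- The colour south of the point `(x, y)` of the framed square. -/
def xactV {D : Type} (a : ℕ) (v : ℕ → ℕ → D) (x y : ℕ) : PC D :=
  if y = 0 ∨ y = a + 2 then none else if x = 0 then spc 2
  else if x = a + 1 then spc 3 else dat (v (x - 1) (y - 1)) (decide (x - 1 < y - 1))

/-- The tile at the point `(x, y)` of the framed square. -/
def xactG {D : Type} (m a : ℕ) (h v : ℕ → ℕ → D) (x y : ℕ) : Q (PC D) :=
  (xactH m a h (x + 1) y, xactV a v x (y + 1), xactH m a h x y, xactV a v x y)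

/-- A function on the square read along the spiral. -/
def xactS {C : Type} (c : ℕ) (f : ℕ → ℕ → Option C) (n : ℤ) : Option C :=
  if 0 ≤ n ∧ n < (c * c : ℕ) then f (n.toNat % c) (n.toNat / c) else none

theorem xact_S_in {C : Type} {c : ℕ} (f : ℕ → ℕ → Option C) {x y : ℕ} (hx : x < c) (hy : y < c) :
    xactS c f ((x + c * y : ℕ) : ℤ) = f x y := by
  have h1 : x + c * y < c * c := by nlinarith
  have hc : 0 < c := by omega
  unfold xactS
  rw [if_pos ⟨by positivity, by exact_mod_cast h1⟩, Int.toNat_natCast, Nat.add_mul_mod_self_left,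
    Nat.mod_eq_of_lt hx, Nat.add_mul_div_left _ _ hc, Nat.div_eq_of_lt hx, zero_add]

theorem xact_S_out {C : Type} {c : ℕ} (f : ℕ → ℕ → Option C) {n : ℤ}
    (hn : n < 0 ∨ ((c * c : ℕ) : ℤ) ≤ n) : xactS c f n = none := by
  unfold xactS
  rw [if_neg (by omega)]

theorem xact_single {X : Type} (f : ℕ → X) (k : ℕ) :
    (Multiset.range k).map f = ∑ i ∈ range k, ({f i} : Multiset X) := by
  induction k with
  | zero => simp
  | succ k ih =>
    rw [Multiset.range_succ, Multiset.map_cons, Finset.sum_range_succ, ih, add_comm,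
      Multiset.singleton_add]

theorem xact_double {X : Type} (f : ℕ → X) (c k : ℕ) :
    ∑ n ∈ range (c * k), ({f n} : Multiset X) =
      ∑ y ∈ range k, ∑ x ∈ range c, ({f (x + c * y)} : Multiset X) := by
  induction k with
  | zero => simp
  | succ k ih =>
    rw [Nat.mul_succ, Finset.sum_range_add, ih, Finset.sum_range_succ]
    congr 1
    exact Finset.sum_congr rfl fun x _ => by rw [add_comm]

theorem xact_three {X : Type} [AddCommMonoid X] (f : ℕ → X) (a : ℕ) :
    ∑ i ∈ range (a + 2), f i = f 0 + ∑ i ∈ range a, f (i + 1) + f (a + 1) := by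
  rw [Finset.sum_range_succ, Finset.sum_range_succ', add_comm (f 0)]

theorem xact_filter {C : Type} (bl : C) (μ : Multiset (ZMod 7 × Q C))
    (h : ∀ p ∈ μ, p.2 ≠ q4 bl) : μ.filter (fun p => p.2 ≠ q4 bl) = μ :=
  Multiset.filter_eq_self.2 h

theorem xact_ne {D : Type} (m a : ℕ) (h : ℕ → ℕ → D) {x : ℕ} (y : ℕ) (h0 : x ≠ 0)
    (h1 : x ≠ a + 2) : xactH m a h x y ≠ none := by
  unfold xactH
  rw [if_neg (by omega)]
  split_ifs <;> simp [spc, dat]

theorem xact_sum {D : Type} (W : WS D) {m a : ℕ} (hm : m < a) {h v : ℕ → ℕ → D}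
    (ht : W.Til m a h v) :
    ∑ y ∈ range (a + 2), ∑ x ∈ range (a + 2),
      ({(cl x y, xactG m a h v x y)} : Multiset (ZMod 7 × Q (PC D))) = W.frame m a + act a h v := by
  obtain ⟨-, hL, hB⟩ := ht
  have e00 : xactG m a h v 0 0 = tSW := by simp [xactG, xactH, xactV, tSW]
  have e10 : xactG m a h v (a + 1) 0 = tSE := by
    have : ¬ a ≤ m := by omega
    simp [xactG, xactH, xactV, tSE, this]
  have e01 : xactG m a h v 0 (a + 1) = tNW := by simp [xactG, xactH, xactV, tNW]
  have e11 : xactG m a h v (a + 1) (a + 1) = tNE := by simp [xactG, xactH, xactV, tNE]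
  have eL : ∀ j ∈ range a, xactG m a h v 0 (j + 1) = W.tL := fun j hj => by
    have hj' := Finset.mem_range.1 hj
    have h1 : j ≠ a := by omega
    have h2 : j ≠ a + 1 := by omega
    simp [xactG, xactH, xactV, WS.tL, h1, h2, (hL j hj').1]
  have eR : ∀ j ∈ range a, xactG m a h v (a + 1) (j + 1) = W.tR := fun j hj => by
    have hj' := Finset.mem_range.1 hj
    have h1 : j ≠ a := by omega
    have h2 : j ≠ a + 1 := by omega
    simp [xactG, xactH, xactV, WS.tR, h1, h2, hj', (hL j hj').2]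
  have eT : ∀ i ∈ range a, xactG m a h v (i + 1) (a + 1) = W.tT := fun i hi => by
    have hi' := Finset.mem_range.1 hi
    have h1 : i ≠ a := by omega
    have h2 : i ≠ a + 1 := by omega
    simp [xactG, xactH, xactV, WS.tT, h1, h2, hi', (hB i hi').2]
  have eC : ∀ j ∈ range a, ∀ i ∈ range a, xactG m a h v (i + 1) (j + 1) = cellT h v i j :=
    fun j hj i hi => by
      have hj' := Finset.mem_range.1 hj
      have hi' := Finset.mem_range.1 hi
      have h1 : i ≠ a := by omega
      have h2 : i ≠ a + 1 := by omega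
      have h3 : j ≠ a := by omega
      have h4 : j ≠ a + 1 := by omega
      simp [xactG, xactH, xactV, cellT, h1, h2, h3, h4]
  have eB1 : ∀ i ∈ range m, xactG m a h v (i + 1) 0 = W.tB1 := fun i hi => by
    have hi' := Finset.mem_range.1 hi
    have h1 : i ≠ a := by omega
    have h2 : i ≠ a + 1 := by omega
    have h3 : i ≤ m := by omega
    have h4 : i + 1 ≤ m := by omega
    simp [xactG, xactH, xactV, WS.tB1, h1, h2, h3, h4, (hB i (by omega)).1, WS.bot, hi']
  have eX : xactG m a h v (m + 1) 0 = W.tX := by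
    have h1 : m ≠ a := by omega
    have h2 : m ≠ a + 1 := by omega
    simp [xactG, xactH, xactV, WS.tX, h1, h2, (hB m hm).1, WS.bot]
  have eB0 : ∀ i ∈ range (a - m - 1), xactG m a h v (m + 2 + i) 0 = W.tB0 := fun i hi => by
    have hi' := Finset.mem_range.1 hi
    obtain ⟨k, hk⟩ : ∃ k, m + 2 + i = k + 1 := ⟨m + 1 + i, by omega⟩
    rw [hk]
    have h1 : k ≠ a := by omega
    have h2 : k ≠ a + 1 := by omega
    have h3 : ¬ k ≤ m := by omega
    have h4 : ¬ k + 1 ≤ m := by omega
    have h5 : ¬ k < m := by omega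
    have h6 : k ≠ m := by omega
    simp [xactG, xactH, xactV, WS.tB0, h1, h2, h3, h4, h5, h6, (hB k (by omega)).1, WS.bot]
  have hbot : ∑ i ∈ range a,
      ({(cl (i + 1) 0, xactG m a h v (i + 1) 0)} : Multiset (ZMod 7 × Q (PC D))) =
      ∑ i ∈ range m, {(cl (i + 1) 0, W.tB1)} + {(cl (m + 1) 0, W.tX)} +
        ∑ i ∈ range (a - m - 1), {(cl (m + 2 + i) 0, W.tB0)} := by
    have ea : range a = range (m + 1 + (a - m - 1)) := by congr 1; omega
    rw [ea, Finset.sum_range_add, Finset.sum_range_succ, eX]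
    congr 1
    · congr 1
      exact Finset.sum_congr rfl fun i hi => by rw [eB1 i hi]
    · refine Finset.sum_congr rfl fun i hi => ?_
      have e : m + 1 + i + 1 = m + 2 + i := by omega
      rw [e, eB0 i hi]
  have hmid : ∑ j ∈ range a, ∑ x ∈ range (a + 2),
      ({(cl x (j + 1), xactG m a h v x (j + 1))} : Multiset (ZMod 7 × Q (PC D))) =
      ∑ j ∈ range a, {(cl 0 (j + 1), W.tL)} + act a h v +
        ∑ j ∈ range a, {(cl (a + 1) (j + 1), W.tR)} := by
    rw [act, ← Finset.sum_add_distrib, ← Finset.sum_add_distrib]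
    refine Finset.sum_congr rfl fun j hj => ?_
    rw [xact_three, eL j hj, eR j hj]
    congr 2
    exact Finset.sum_congr rfl fun i hi => by rw [eC j hj i hi]
  have htop : ∑ i ∈ range a,
      ({(cl (i + 1) (a + 1), xactG m a h v (i + 1) (a + 1))} : Multiset (ZMod 7 × Q (PC D))) =
      ∑ i ∈ range a, {(cl (i + 1) (a + 1), W.tT)} :=
    Finset.sum_congr rfl fun i hi => by rw [eT i hi]
  rw [xact_three, hmid, xact_three, xact_three, hbot, htop, e00, e10, e01, e11, WS.frame]
  simp only [xact_single]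
  abel

theorem sp_act {D : Type} (W : WS D) {m a : ℕ} (hm : m < a) (h7 : ((a + 2 : ℕ) : ZMod 7) = 3)
    {h v : ℕ → ℕ → D} (ht : W.Til m a h v) :
    Sp none (a + 2) ((a + 2) * (a + 2)) (W.frame m a + act a h v) := by
  have hH0 : ∀ y, xactH m a h 0 y = none := fun y => by simp [xactH]
  have hH1 : ∀ y, xactH m a h (a + 2) y = none := fun y => by simp [xactH]
  have hV0 : ∀ x, xactV a v x 0 = none := fun x => by simp [xactV]
  have hV1 : ∀ x, xactV a v x (a + 2) = none := fun x => by simp [xactV]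
  obtain ⟨c, hc⟩ : ∃ c, c = a + 2 := ⟨_, rfl⟩
  have hc0 : 0 < c := by omega
  let H := xactS c (xactH m a h)
  let V := xactS c (xactV a v)
  let g : ℤ → Q (PC D) := fun n => (H (n + 1), V (n + c), H n, V n)
  have hg : ∀ y < c, ∀ x < c, g ((x + c * y : ℕ) : ℤ) = xactG m a h v x y := by
    intro y hy x hx
    have e1 : H (((x + c * y : ℕ) : ℤ) + 1) = xactH m a h (x + 1) y := by
      rcases Nat.lt_or_ge (x + 1) c with h1 | h1
      · have e : ((x + c * y : ℕ) : ℤ) + 1 = ((x + 1 + c * y : ℕ) : ℤ) := by push_cast; ring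
        rw [e]
        exact xact_S_in _ h1 hy
      · have hx1 : x + 1 = c := by omega
        have e : ((x + c * y : ℕ) : ℤ) + 1 = ((0 + c * (y + 1) : ℕ) : ℤ) := by
          have : x + c * y + 1 = 0 + c * (y + 1) := by rw [Nat.mul_succ]; omega
          exact_mod_cast this
        rw [e, hx1, hc, hH1, ← hc]
        rcases Nat.lt_or_ge (y + 1) c with h2 | h2
        · exact (xact_S_in _ hc0 h2).trans (hH0 _)
        · refine xact_S_out _ (Or.inr ?_)
          have : c * c ≤ 0 + c * (y + 1) := by nlinarith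
          exact_mod_cast this
    have e2 : V (((x + c * y : ℕ) : ℤ) + c) = xactV a v x (y + 1) := by
      have e : ((x + c * y : ℕ) : ℤ) + c = ((x + c * (y + 1) : ℕ) : ℤ) := by push_cast; ring
      rw [e]
      rcases Nat.lt_or_ge (y + 1) c with h2 | h2
      · exact xact_S_in _ hx h2
      · have hy1 : y + 1 = a + 2 := by omega
        rw [show xactV a v x (y + 1) = none by rw [hy1, hV1]]
        refine xact_S_out _ (Or.inr ?_)
        have : c * c ≤ x + c * (y + 1) := by nlinarith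
        exact_mod_cast this
    exact Prod.ext e1 (Prod.ext e2 (Prod.ext (xact_S_in _ hx hy) (xact_S_in _ hx hy)))
  rw [← hc] at h7 ⊢
  refine ⟨g, ⟨fun n => rfl, fun n => rfl, fun n hn => ?_⟩, ?_⟩
  · have e1 : H (n + 1) = none := by
      rcases eq_or_ne n (-1) with rfl | h1
      · exact (xact_S_in (x := 0) (y := 0) _ hc0 hc0).trans (hH0 _)
      · exact xact_S_out _ (by omega)
    have e2 : V (n + c) = none := by
      by_cases h1 : n < 0 ∧ 0 ≤ n + c
      · obtain ⟨x, hx⟩ := Int.eq_ofNat_of_zero_le h1.2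
        have e : n + c = ((x + c * 0 : ℕ) : ℤ) := by rw [hx]; simp
        rw [e]
        exact (xact_S_in _ (by omega) hc0).trans (hV0 _)
      · exact xact_S_out _ (by omega)
    exact Prod.ext e1 (Prod.ext e2 (Prod.ext (xact_S_out _ hn) (xact_S_out _ hn)))
  · have e : tl (c * c) g = ∑ y ∈ range c, ∑ x ∈ range c,
        ({(cl x y, xactG m a h v x y)} : Multiset (ZMod 7 × Q (PC D))) := by
      rw [tl, xact_single, xact_double]
      refine Finset.sum_congr rfl fun y hy => Finset.sum_congr rfl fun x hx => ?_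
      rw [hg y (Finset.mem_range.1 hy) x (Finset.mem_range.1 hx), cl]
      push_cast
      rw [h7]
    rw [← xact_sum W hm ht, ← hc, e]
    refine xact_filter _ _ fun p hp => ?_
    simp only [Multiset.mem_sum, Multiset.mem_singleton, Finset.mem_range] at hp
    obtain ⟨y, -, x, hx, rfl⟩ := hp
    intro hq
    rcases eq_or_ne x (a + 1) with rfl | h1
    · exact xact_ne m a h y (by omega) (by omega) (congrArg (fun q => q.2.2.1) hq)
    · exact xact_ne m a h y (x := x + 1) (by omega) (by omega) (congrArg (fun q => q.1) hq)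

end Pool.Agent.P.MP_e40812_co
end

-- part Pool.Agent.P.MP_e40812_co.XSum
section

/-! Padding: the prescribed tiles are used exactly. -/

namespace Pool.Agent.P.MP_e40812_co

open Finset Pool.Agent.Lib.PolyTime
open scoped Classical

theorem xsum_add {C : Type} {bl : C} {c k k' : ℕ} {μ ν : Multiset (ZMod 7 × Q C)}
    (h : Sp bl c (7 * k) μ) (h' : Sp bl c (7 * k') ν) : Sp bl c (7 * (k + k')) (μ + ν) := by
  rw [mul_add]
  exact h.add h'

theorem xsum_bind {C I : Type} {bl : C} {c k : ℕ} (s : Multiset I)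
    (f : I → Multiset (ZMod 7 × Q C)) (h : ∀ i ∈ s, Sp bl c (7 * k) (f i)) :
    Sp bl c (7 * (k * s.card)) (s.bind f) := by
  induction s using Multiset.induction_on with
  | empty => exact Sp.zero bl c
  | cons i s ih =>
    rw [Multiset.cons_bind, Multiset.card_cons, mul_add_one, add_comm _ k]
    exact xsum_add (h i (Multiset.mem_cons_self i s))
      (ih fun j hj => h j (Multiset.mem_cons_of_mem hj))

theorem xsum_sum {C : Type} {bl : C} {c k : ℕ} (n : ℕ) (f : ℕ → Multiset (ZMod 7 × Q C))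
    (h : ∀ i, Sp bl c (7 * k) (f i)) : Sp bl c (7 * (k * n)) (∑ i ∈ range n, f i) := by
  induction n with
  | zero => exact Sp.zero bl c
  | succ n ih =>
    rw [sum_range_succ, mul_add_one]
    exact xsum_add ih (h n)

theorem xsum_map {X : Type} (n : ℕ) (f : ℕ → X) :
    (Multiset.range n).map f = ∑ i ∈ range n, {f i} := by
  induction n with
  | zero => simp
  | succ n ih => rw [Multiset.range_succ, Multiset.map_cons, sum_range_succ, ih, add_comm,
      Multiset.singleton_add]

theorem xsum_nsmul {X Y : Type} (k : ℕ) (s : Multiset X) (f : X → Multiset Y) :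
    k • s.bind f = (k • s).bind f := by
  induction k with
  | zero => simp
  | succ k ih => rw [succ_nsmul, succ_nsmul, Multiset.add_bind, ih]

theorem xsum_sbind {X Y : Type} (n : ℕ) (g : ℕ → Multiset X) (f : X → Multiset Y) :
    (∑ i ∈ range n, g i).bind f = ∑ i ∈ range n, (g i).bind f := by
  induction n with
  | zero => simp
  | succ n ih => rw [sum_range_succ, sum_range_succ, Multiset.add_bind, ih]

theorem xsum_clx (i j : ℕ) : cl (i + 1) j = cl i j + 1 := by
  simp only [cl]; push_cast; ring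

theorem xsum_cly (i j : ℕ) : cl i (j + 1) = cl i j + 3 := by
  simp only [cl]; push_cast; ring

variable {D : Type}

theorem xsum_hd (i j : ℕ) (x : PC D) :
    hd (cl (i + 1) j) x = {(cl i j, aW x)} + {(cl (i + 1) j, aE x)} := by
  rw [hd, xsum_clx, add_sub_cancel_right]
  rfl

theorem xsum_vd (i j : ℕ) (x : PC D) :
    vd (cl i (j + 1)) x =
      {(cl i j, aS x)} + ({(cl i (j + 1), aN x)} + {(cl (i + 1) (j + 1), cap)}) := by
  rw [vd, xsum_clx, xsum_cly, add_sub_cancel_right]
  rfl

theorem xsum_ext (i j : ℕ) (q : Q (PC D)) :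
    ext (cl (i + 1) (j + 1), q) = {(cl (i + 1 + 1) (j + 1), aE q.1)} +
      ({(cl i (j + 1), aW q.2.2.1)} + ({(cl (i + 1) (j + 1 + 1), aN q.2.1)} +
      ({(cl (i + 1) j, aS q.2.2.2)} + {(cl (i + 1 + 1) (j + 1 + 1), cap)}))) := by
  have h1 : cl i (j + 1) = cl (i + 1) (j + 1) - 1 := by rw [xsum_clx, add_sub_cancel_right]
  have h2 : cl (i + 1) j = cl (i + 1) (j + 1) - 3 := by rw [xsum_cly, add_sub_cancel_right]
  have h3 : cl (i + 1 + 1) (j + 1 + 1) = cl (i + 1) (j + 1) + 4 := by
    rw [xsum_clx (i + 1), xsum_cly (i + 1) (j + 1)]; ring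
  rw [h1, h2, h3, xsum_clx (i + 1), xsum_cly (i + 1) (j + 1)]
  rfl

theorem xsum_bot (W : WS D) {m a : ℕ} (hm : m < a) :
    ∑ i ∈ range a, ({(cl (i + 1) 1, aN (dat (W.bot m i) false))} : Multiset (ZMod 7 × Q (PC D))) =
      (Multiset.range m).map (fun i => (cl (i + 1) 1, aN (dat W.B1 false))) +
      {(cl (m + 1) 1, aN (dat W.B2 false))} +
      (Multiset.range (a - m - 1)).map (fun i => (cl (m + 2 + i) 1, aN (dat W.B0 false))) := by
  obtain ⟨r, rfl⟩ : ∃ r, a = m + 1 + r := ⟨a - m - 1, by omega⟩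
  rw [sum_range_add, sum_range_succ, xsum_map, xsum_map, show m + 1 + r - m - 1 = r by omega]
  congr 1
  · congr 1
    · exact sum_congr rfl fun i hi => by rw [WS.bot, if_pos (mem_range.1 hi)]
    · rw [WS.bot, if_neg (lt_irrefl m), if_pos rfl]
  · refine sum_congr rfl fun i _ => ?_
    rw [WS.bot, if_neg (by omega), if_neg (by omega), show m + 1 + i + 1 = m + 2 + i by omega]

theorem xsum_id (W : WS D) {m a : ℕ} (hm : m < a) {h v : ℕ → ℕ → D} (ht : W.Til m a h v) :
    (∑ j ∈ range a, ∑ i ∈ range (a + 1),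
        hd (cl (i + 1) (j + 1)) (dat (h i j) (decide (j < i)))) +
      (∑ i ∈ range a, ∑ j ∈ range (a + 1),
        vd (cl (i + 1) (j + 1)) (dat (v i j) (decide (i < j)))) =
      (act a h v).bind ext + W.bdry m a := by
  obtain ⟨-, t1, t2⟩ := ht
  have e1 : ∀ j ∈ range a, ∑ i ∈ range (a + 1),
      hd (cl (i + 1) (j + 1)) (dat (h i j) (decide (j < i))) =
      ∑ i ∈ range a, {(cl i (j + 1), aW (dat (h i j) (decide (j < i))))} +
        {(cl a (j + 1), aW (dat W.R true))} +
      (∑ i ∈ range a, {(cl (i + 1 + 1) (j + 1), aE (dat (h (i + 1) j) (decide (j < i + 1))))} +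
        {(cl 1 (j + 1), aE (dat W.L false))}) := by
    intro j hj
    have hj' := mem_range.1 hj
    simp only [xsum_hd]
    rw [sum_add_distrib, sum_range_succ, sum_range_succ', (t1 j hj').1, (t1 j hj').2,
      decide_eq_true hj', decide_eq_false (Nat.not_lt_zero j)]
  have e2 : ∀ i ∈ range a, ∑ j ∈ range (a + 1),
      vd (cl (i + 1) (j + 1)) (dat (v i j) (decide (i < j))) =
      ∑ j ∈ range a, {(cl (i + 1) j, aS (dat (v i j) (decide (i < j))))} +
        {(cl (i + 1) a, aS (dat W.Tp true))} +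
      (∑ j ∈ range a, {(cl (i + 1) (j + 1 + 1), aN (dat (v i (j + 1)) (decide (i < j + 1))))} +
        {(cl (i + 1) 1, aN (dat (W.bot m i) false))} +
      (∑ j ∈ range a, {(cl (i + 1 + 1) (j + 1 + 1), cap)} + {(cl (i + 2) 1, cap)})) := by
    intro i hi
    have hi' := mem_range.1 hi
    simp only [xsum_vd]
    rw [sum_add_distrib, sum_add_distrib, sum_range_succ, sum_range_succ', sum_range_succ',
      (t2 i hi').1, (t2 i hi').2, decide_eq_true hi', decide_eq_false (Nat.not_lt_zero i)]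
  rw [sum_congr rfl e1, sum_congr rfl e2, act, WS.bdry, add_assoc _ _ {_}, add_assoc _ (_ + {_}),
    ← xsum_bot W hm]
  simp only [xsum_sbind, Multiset.singleton_bind, xsum_ext, cellT, sum_add_distrib, xsum_map]
  rw [sum_comm (f := fun i j => ({(cl (i + 1) j, aS (dat (v i j) (decide (i < j))))} :
      Multiset (ZMod 7 × Q (PC D)))),
    sum_comm (f := fun i j => ({(cl (i + 1) (j + 1 + 1),
      aN (dat (v i (j + 1)) (decide (i < j + 1))))} : Multiset (ZMod 7 × Q (PC D)))),
    sum_comm (f := fun i j => ({(cl (i + 1 + 1) (j + 1 + 1), cap)} :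
      Multiset (ZMod 7 × Q (PC D))))]
  abel

theorem xsum_card (a : ℕ) (h v : ℕ → ℕ → D) : (act a h v).card = a * a := by
  simp [act]

theorem xsum_le (W : WS D) {m a : ℕ} {h v : ℕ → ℕ → D} (ht : W.Til m a h v) :
    act a h v ≤ (a * a) • W.all := by
  refine Multiset.le_iff_count.2 fun p => ?_
  by_cases hp : p ∈ act a h v
  · have h1 : p ∈ W.all := by
      simp only [act, Multiset.mem_sum, Multiset.mem_singleton, mem_range] at hp
      obtain ⟨j, hj, i, hi, rfl⟩ := hp
      refine mem_product.2 ⟨mem_univ _, mem_image.2 ⟨(_, decide (j < i), decide (i < j),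
        decide (i = j)), mem_product.2 ⟨ht.1 i hi j hj, mem_univ _⟩, ?_⟩⟩
      have a1 : (decide (j < i) || decide (i = j)) = decide (j < i + 1) := by
        rw [← Bool.decide_or, decide_eq_decide]; omega
      have a2 : (decide (i < j) || decide (i = j)) = decide (i < j + 1) := by
        rw [← Bool.decide_or, decide_eq_decide]; omega
      have a3 : (decide (j < i) && !decide (i = j)) = decide (j < i) := by
        rw [← decide_not, ← Bool.decide_and, decide_eq_decide]; omega
      have a4 : (decide (i < j) && !decide (i = j)) = decide (i < j) := by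
        rw [← decide_not, ← Bool.decide_and, decide_eq_decide]; omega
      simp only [tok, cellT, a1, a2, a3, a4]
    rw [Multiset.count_nsmul, ← xsum_card a h v]
    exact (Multiset.count_le_card _ _).trans
      (Nat.le_mul_of_pos_right _ (Multiset.count_pos.2 h1))
  · rw [Multiset.count_eq_zero.2 hp]
    exact Nat.zero_le _

theorem sp_mu {D : Type} (W : WS D) {m a : ℕ} (hm : m < a) (h7 : ((a + 2 : ℕ) : ZMod 7) = 3)
    {h v : ℕ → ℕ → D} (ht : W.Til m a h v) :
    Sp none (a + 2) (7 * ((a + 2) * W.nb a)) (W.mu m a) := by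
  have hc : 3 ≤ a + 2 := by omega
  obtain ⟨Dm, hD⟩ := Multiset.le_iff_exists_add.1 (xsum_le W ht)
  have hcard : Dm.card = a * a * W.all.card - a * a := by
    rw [← Multiset.card_nsmul, hD, Multiset.card_add, xsum_card, Nat.add_sub_cancel_left]
  have s1 : Sp none (a + 2) (7 * ((a + 2) * (a + 2))) (W.frame m a + act a h v) :=
    (sp_act W hm h7 ht).mono (by omega)
  have s2 := xsum_bind (bl := none) (c := a + 2) (k := a + 2) Dm (fun p => p ::ₘ ext p)
    fun p hp => by
      have h1 : p ∈ (a * a) • W.all := by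
        rw [hD]
        exact Multiset.mem_add.2 (Or.inr hp)
      obtain ⟨β, q⟩ := p
      obtain ⟨t, -, rfl⟩ := mem_image.1 (mem_product.1 (Multiset.mem_of_mem_nsmul h1)).2
      exact sp_island hc h7 β _ (Option.some_ne_none _) (Option.some_ne_none _)
        (Option.some_ne_none _) (Option.some_ne_none _)
  have s3 := xsum_sum (bl := none) (c := a + 2) a _ fun j => xsum_sum (a + 1) _ fun i =>
    sp_hd hc (cl (i + 1) (j + 1)) (x := dat (h i j) (decide (j < i))) (Option.some_ne_none _)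
  have s4 := xsum_sum (bl := none) (c := a + 2) a _ fun i => xsum_sum (a + 1) _ fun j =>
    sp_vd hc h7 (cl (i + 1) (j + 1)) (x := dat (v i j) (decide (i < j))) (Option.some_ne_none _)
  have s5 := xsum_add (xsum_add s1 s2) (xsum_add s3 s4)
  have e1 : (a + 2) * W.nb a = (a + 2) * (a + 2) + (a + 2) * Dm.card +
      ((a + 2) * (a + 1) * a + (a + 2) * (a + 1) * a) := by
    rw [WS.nb, hcard]
    ring
  have e2 : W.mu m a = W.frame m a + act a h v + (Dm.bind fun p => p ::ₘ ext p) +
      ((act a h v).bind ext + W.bdry m a) := by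
    rw [WS.mu, xsum_nsmul, hD, Multiset.add_bind, Multiset.bind_cons, Multiset.map_id']
    abel
  rw [e1, e2, ← xsum_id W hm ht]
  exact s5

end Pool.Agent.P.MP_e40812_co
end

-- part Pool.Agent.P.MP_e40812_co.XMu
section

/-! The prescribed tiles seen from the soundness side. -/

namespace Pool.Agent.P.MP_e40812_co

open Finset Pool.Agent.Lib.PolyTime
open scoped Classical

theorem xmu_filter_nil {α β : Type} (s : Multiset α) (f : α → β) (p : β → Prop) [DecidablePred p]
    (h : ∀ x ∈ s, ¬p (f x)) : (s.map f).filter p = 0 := by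
  rw [Multiset.filter_eq_nil]
  intro b hb
  obtain ⟨x, hx, rfl⟩ := Multiset.mem_map.mp hb
  exact h x hx

theorem exA_cols {C : Type} (bl : C) (s len k : ℕ) (μ : Multiset (ZMod 7 × Q C))
    (h : ∀ p ∈ μ, p.2 ≠ q4 bl) :
    ((exA bl s len (fill bl k μ)).map fun a => a.2.2.2).filter (· ≠ q4 bl) = μ.map Prod.snd := by
  unfold exA fill
  simp only [Multiset.map_add, Multiset.filter_add]
  rw [xmu_filter_nil (Multiset.map (botT bl s) _), xmu_filter_nil (Multiset.map (topT bl s len) _),
    xmu_filter_nil (Multiset.replicate _ _), xmu_filter_nil {_},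
    xmu_filter_nil (Multiset.map _ (∑ β : ZMod 7, _))]
  · simp only [zero_add, add_zero, Multiset.map_map, Function.comp_def]
    rw [Multiset.filter_eq_self]
    intro b hb
    obtain ⟨x, hx, rfl⟩ := Multiset.mem_map.mp hb
    exact h x hx
  · intro x hx
    obtain ⟨y, hy, rfl⟩ := Multiset.mem_map.mp hx
    obtain ⟨β, -, hβ⟩ := Multiset.mem_sum.mp hy
    rw [Multiset.eq_of_mem_replicate hβ]
    simp
  · intro x hx
    rw [Multiset.mem_singleton.mp hx]
    simp
  · intro x hx
    rw [Multiset.eq_of_mem_replicate hx]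
    simp
  · intro x hx
    obtain ⟨y, -, rfl⟩ := Multiset.mem_map.mp hx
    simp [topT]
  · intro x hx
    obtain ⟨y, -, rfl⟩ := Multiset.mem_map.mp hx
    simp [botT]

/-- An allowed tile that is neither blank nor part of the bottom side. -/
def XmuOth {D : Type} (W : WS D) (q : Q (PC D)) : Prop :=
  W.Al q ∧ q ≠ q4 none ∧ q ≠ W.tB1 ∧ q ≠ W.tX ∧ q ≠ W.tB0 ∧ q ≠ tSE

theorem xmu_aE {D : Type} (W : WS D) (d : D) (b : Bool) : XmuOth W (aE (dat d b)) :=
  ⟨Or.inr (Or.inl ⟨d, b, Or.inl rfl⟩), by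
    simp [aE, dat, spc, q4, WS.tB1, WS.tX, WS.tB0, tSE]⟩

theorem xmu_aW {D : Type} (W : WS D) (d : D) (b : Bool) : XmuOth W (aW (dat d b)) :=
  ⟨Or.inr (Or.inl ⟨d, b, Or.inr (Or.inl rfl)⟩), by
    simp [aW, dat, spc, q4, WS.tB1, WS.tX, WS.tB0, tSE]⟩

theorem xmu_aN {D : Type} (W : WS D) (d : D) (b : Bool) : XmuOth W (aN (dat d b)) :=
  ⟨Or.inr (Or.inl ⟨d, b, Or.inr (Or.inr (Or.inl rfl))⟩), by
    simp [aN, dat, spc, q4, WS.tB1, WS.tX, WS.tB0, tSE]⟩

theorem xmu_aS {D : Type} (W : WS D) (d : D) (b : Bool) : XmuOth W (aS (dat d b)) :=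
  ⟨Or.inr (Or.inl ⟨d, b, Or.inr (Or.inr (Or.inr rfl))⟩), by
    simp [aS, dat, spc, q4, WS.tB1, WS.tX, WS.tB0, tSE]⟩

theorem xmu_cap {D : Type} (W : WS D) : XmuOth W cap :=
  ⟨Or.inr (Or.inr (Or.inl rfl)), by simp [cap, dat, spc, q4, WS.tB1, WS.tX, WS.tB0, tSE]⟩

theorem xmu_all {D : Type} (W : WS D) {p : ZMod 7 × Q (PC D)} (hp : p ∈ W.all) :
    p.2 ∈ W.TK ∧ ∃ t x y f, p.2 = tok t x y f := by
  have h1 : p.2 ∈ W.TK := (mem_product.mp (Finset.mem_val.mp hp)).2
  refine ⟨h1, ?_⟩
  obtain ⟨r, -, hr⟩ := mem_image.mp h1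
  exact ⟨_, _, _, _, hr.symm⟩

theorem xmu_rest {D : Type} (W : WS D) (m a : ℕ) :
    ∀ p ∈ (a * a) • W.all + (a * a) • W.all.bind ext + W.bdry m a, XmuOth W p.2 := by
  intro p hp
  rcases Multiset.mem_add.mp hp with hp | hp
  · rcases Multiset.mem_add.mp hp with hp | hp
    · obtain ⟨h1, t, x, y, f, h2⟩ := xmu_all W (Multiset.mem_of_mem_nsmul hp)
      refine ⟨Or.inl h1, ?_⟩
      rw [h2]
      simp [tok, dat, spc, q4, WS.tB1, WS.tX, WS.tB0, tSE]
    · obtain ⟨r, hr, hpr⟩ := Multiset.mem_bind.mp (Multiset.mem_of_mem_nsmul hp)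
      obtain ⟨-, t, x, y, f, h2⟩ := xmu_all W hr
      simp only [ext, h2, tok, Multiset.insert_eq_cons, Multiset.mem_cons,
        Multiset.mem_singleton] at hpr
      rcases hpr with rfl | rfl | rfl | rfl | rfl
      exacts [xmu_aE W _ _, xmu_aW W _ _, xmu_aN W _ _, xmu_aS W _ _, xmu_cap W]
  · simp only [WS.bdry, Multiset.mem_add, Multiset.mem_map, Multiset.mem_singleton] at hp
    rcases hp with (((((⟨_, -, rfl⟩ | ⟨_, -, rfl⟩) | ⟨_, -, rfl⟩) | rfl) | ⟨_, -, rfl⟩) |
      ⟨_, -, rfl⟩) | ⟨_, -, rfl⟩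
    exacts [xmu_aE W _ _, xmu_aW W _ _, xmu_aN W _ _, xmu_aN W _ _, xmu_aN W _ _, xmu_cap W,
      xmu_aS W _ _]

theorem xmu_frame {D : Type} (W : WS D) (m a : ℕ) :
    (W.frame m a).map Prod.snd = {tSW} + Multiset.replicate m W.tB1 + {W.tX} +
      Multiset.replicate (a - m - 1) W.tB0 + {tSE} + Multiset.replicate a W.tL +
      Multiset.replicate a W.tR + {tNW} + Multiset.replicate a W.tT + {tNE} := by
  simp only [WS.frame, Multiset.map_add, Multiset.map_singleton, Multiset.map_map,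
    Function.comp_def, Multiset.map_const', Multiset.card_range]

theorem mu_facts {D : Type} (W : WS D) (m a : ℕ) :
    (∀ p ∈ W.mu m a, W.Al p.2 ∧ p.2 ≠ q4 none) ∧ tSW ∈ (W.mu m a).map Prod.snd ∧
      ((W.mu m a).map Prod.snd).count W.tB1 = m ∧ ((W.mu m a).map Prod.snd).count W.tX = 1 ∧
      ((W.mu m a).map Prod.snd).count W.tB0 = a - m - 1 ∧
      ((W.mu m a).map Prod.snd).count tSE = 1 := by
  have hr := xmu_rest W m a
  have hmu : W.mu m a =
      W.frame m a + ((a * a) • W.all + (a * a) • W.all.bind ext + W.bdry m a) := by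
    simp only [WS.mu, add_assoc]
  generalize (a * a) • W.all + (a * a) • W.all.bind ext + W.bdry m a = ρ at hr hmu
  have hz : ∀ q, ¬XmuOth W q → (ρ.map Prod.snd).count q = 0 := by
    intro q hq
    rw [Multiset.count_eq_zero]
    intro hm
    obtain ⟨p, hp, rfl⟩ := Multiset.mem_map.mp hm
    exact hq (hr p hp)
  have z1 := hz W.tB1 fun h => h.2.2.1 rfl
  have z2 := hz W.tX fun h => h.2.2.2.1 rfl
  have z3 := hz W.tB0 fun h => h.2.2.2.2.1 rfl
  have z4 := hz tSE fun h => h.2.2.2.2.2 rfl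
  rw [hmu]
  refine ⟨?_, ?_, ?_⟩
  · intro p hp
    rcases Multiset.mem_add.mp hp with hp | hp
    · have h1 := Multiset.mem_map_of_mem Prod.snd hp
      rw [xmu_frame] at h1
      generalize p.2 = q at h1
      simp only [Multiset.mem_add, Multiset.mem_singleton, Multiset.mem_replicate] at h1
      rcases h1 with ((((((((rfl | ⟨-, rfl⟩) | rfl) | ⟨-, rfl⟩) | rfl) | ⟨-, rfl⟩) | ⟨-, rfl⟩) |
        rfl) | ⟨-, rfl⟩) | rfl
      all_goals refine ⟨by simp only [WS.Al, true_or, or_true], ?_⟩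
      all_goals simp [q4, spc, dat, tSW, WS.tB1, WS.tX, WS.tB0, tSE, WS.tL, WS.tR, tNW, WS.tT, tNE]
    · exact ⟨(hr p hp).1, (hr p hp).2.1⟩
  · rw [Multiset.map_add, xmu_frame]
    simp only [Multiset.mem_add, Multiset.mem_singleton, true_or]
  · simp only [Multiset.map_add, Multiset.count_add, z1, z2, z3, z4, xmu_frame,
      Multiset.count_singleton, Multiset.count_replicate]
    simp [spc, dat, tSW, WS.tB1, WS.tX, WS.tB0, tSE, WS.tL, WS.tR, tNW, WS.tT, tNE]

end Pool.Agent.P.MP_e40812_co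
end

-- part Pool.Agent.P.MP_e40812_co.XMach
section

/-! The tableau of the table machine as a tiling problem. -/

namespace Pool.Agent.P.MP_e40812_co

open Finset Pool.Agent.Lib.PolyTime
open scoped Classical

/-- Colours: six special ones, configurations of a column, and pairs of neighbouring columns. -/
abbrev xmachD (G : ℕ) : Type :=
  Fin 6 ⊕ (Fin G × (Fin G → Fin G)) ⊕ (Fin G × (Fin G → Fin G) × (Fin G → Fin G))

/-- A configuration colour. -/
abbrev xmachC {G : ℕ} (q : Fin G) (x : Fin G → Fin G) : xmachD G := .inr (.inl (q, x))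

/-- A colour between two columns. -/
abbrev xmachM {G : ℕ} (q : Fin G) (x y : Fin G → Fin G) : xmachD G := .inr (.inr (q, x, y))

/-- Tiles of the first row. -/
def xmachI (e : List (List ℕ)) {G : ℕ} (t : Q (xmachD G)) : Prop :=
  ∃ (q : Fin G) (x : Fin G → Fin G) (z : ℕ), t.2.1 = xmachC q x ∧ (q : ℕ) = Cook.ent e 0 5 ∧
    (∀ k : Fin G, (x k : ℕ) =
      if Cook.ent e 0 0 = k ∧ (k : ℕ) < (e.getD 1 []).length then z else 0) ∧
    ((t.2.2.2 = .inl 0 ∧ (z = Cook.ent e 0 2 ∨ z = Cook.ent e 0 3)) ∨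
      (t.2.2.2 = .inl 1 ∧ z = Cook.ent e 0 3) ∨ (t.2.2.2 = .inl 2 ∧ z = 0))

/-- Tiles of the middle rows. -/
def xmachS (e : List (List ℕ)) {G : ℕ} (t : Q (xmachD G)) : Prop :=
  ∃ (q q' : Fin G) (x x' xl xr : Fin G → Fin G), t.2.2.2 = xmachC q x ∧ t.2.1 = xmachC q' x' ∧
    (t.1 = xmachM q' x xr ∨ t.1 = .inl 5) ∧
    ((t.2.2.1 = .inl 4 ∧
        (∀ k : Fin G, Cook.ent (e.drop 2) q 1 = k → (q' : ℕ) = Cook.ent (e.drop 2) q (3 + x k)) ∧
        ∀ k : Fin G, (x' k : ℕ) =
          Cook.rule (e.drop 2) (e.getD 1 []).length q k 0 (x k) (x k) (xr k)) ∨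
      (t.2.2.1 = xmachM q' xl x ∧ ∀ k : Fin G, (x' k : ℕ) =
          Cook.rule (e.drop 2) (e.getD 1 []).length q k 1 (xl k) (x k) (xr k)))

/-- Tiles of the last row. -/
def xmachF (e : List (List ℕ)) {G : ℕ} (t : Q (xmachD G)) : Prop :=
  ∃ (q : Fin G) (x : Fin G → Fin G), t.2.2.2 = xmachC q x ∧ t.2.1 = .inl 3 ∧
    (t.2.2.1 = .inl 4 → ∀ k : Fin G, Cook.ent e 0 1 = k → (x k : ℕ) = Cook.ent e 0 4)

/-- The tiling system. -/
noncomputable def xmachW (e : List (List ℕ)) (G : ℕ) : WS (xmachD G) where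
  τ := univ.filter fun t => xmachI e t ∨ xmachS e t ∨ xmachF e t
  L := .inl 4
  R := .inl 5
  B1 := .inl 0
  B2 := .inl 1
  B0 := .inl 2
  Tp := .inl 3

/-- The column stored in a configuration colour. -/
def xmachX {G : ℕ} : xmachD G → Fin G → ℕ
  | .inr (.inl p), k => p.2 k
  | _, _ => 0

theorem xmach_rule (P : List (List ℕ)) (K q k j a b c : ℕ) (hj : j ≠ 0) :
    Cook.rule P K q k j a b c = Cook.rule P K q k 1 a b c := by
  simp [Cook.rule, hj]

theorem xmach_getD (f : Bool → ℕ) (y : List Bool) (i : ℕ) :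
    ((y ++ [true]).map f).getD i 0 =
      if i < y.length then f (y.getD i false) else if i = y.length then f true else 0 := by
  simp only [List.getD_eq_getElem?_getD, List.getElem?_map, List.getElem?_append]
  split_ifs with h1 h2
  · simp [h1]
  · simp [h2]
  · rw [List.getElem?_eq_none (by simp; omega)]; rfl

theorem xmach_sound {e : List (List ℕ)} {G : ℕ} (hG : e.flatten.sum < G) {m a : ℕ} (ha : 2 ≤ a)
    {h v : ℕ → ℕ → xmachD G} (H : (xmachW e G).Til m a h v) :
    ∃ y : List Bool, y.length = m ∧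
      Cook.cell (Cook.run e (y ++ [true]) (a - 2)) (Cook.ent e 0 1) 0 = Cook.ent e 0 4 := by
  obtain ⟨ht, hh, hv⟩ := H
  have hT : ∀ i < a, ∀ j < a, xmachI e (h (i + 1) j, v i (j + 1), h i j, v i j) ∨
      xmachS e (h (i + 1) j, v i (j + 1), h i j, v i j) ∨
      xmachF e (h (i + 1) j, v i (j + 1), h i j, v i j) :=
    fun i hi j hj => (Finset.mem_filter.1 (ht i hi j hj)).2
  have hb : ∀ q i, Cook.ent e q i < G := fun q i => (Cook.ent_le e q i).trans_lt hG
  have hP : ∀ q i, Cook.ent (e.drop 2) q i < G := fun q i => by rw [Cook.ent_drop]; exact hb _ _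
  set y : List Bool :=
    (List.range m).map fun i => xmachX (v i 1) ⟨_, hb 0 0⟩ == Cook.ent e 0 3 with hy
  have hm : y.length = m := by simp [hy]
  refine ⟨y, hm, ?_⟩
  have noTp : ∀ i < a, ∀ j < a, v i j ≠ .inl 3 := by
    intro i hi j hj h3
    rcases hT i hi j hj with ⟨q, x, z, -, -, -, h4⟩ | ⟨q, q', x, x', xl, xr, h4, -⟩ |
      ⟨q, x, h4, -⟩
    · simp [h3] at h4
    · simp [h3] at h4
    · simp [h3] at h4
  have key : ∀ t, t + 2 ≤ a → ∀ i < a, ∃ q x, v i (t + 1) = xmachC q x ∧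
      (q : ℕ) = (Cook.run e (y ++ [true]) t).1 ∧
      (i + t < a → ∀ k : Fin G, (x k : ℕ) = Cook.cell (Cook.run e (y ++ [true]) t) k i) := by
    intro t
    induction t with
    | zero =>
      intro _ i hi
      have h0 := (hv i hi).1
      rcases hT i hi 0 (by omega) with ⟨q, x, z, h1, h2, h3, h4⟩ | ⟨q, q', x, x', xl, xr, h4, -⟩ |
        ⟨q, x, h4, -⟩
      · refine ⟨q, x, h1, h2, fun _ k => ?_⟩
        change _ = Cook.cell (uinit e _) k i
        rw [Cook.uinit_cell, h3 k]
        split_ifs with hc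
        · rw [xmach_getD, hm]
          simp only [h0, WS.bot, xmachW] at h4
          split_ifs at h4 ⊢ with h5 h6
          · have h7 : xmachX (v i 1) ⟨_, hb 0 0⟩ = z := by
              dsimp only at h1
              rw [h1, xmachX, h3]
              exact if_pos ⟨rfl, by simpa [hc.1] using hc.2⟩
            have h8 : y.getD i false = (z == Cook.ent e 0 3) := by
              simp [hy, List.getD_eq_getElem?_getD, List.getElem?_range h5, h7]
            have h9 : z = Cook.ent e 0 2 ∨ z = Cook.ent e 0 3 := by simpa using h4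
            rw [h8]
            by_cases h10 : z = Cook.ent e 0 3
            · simp [h10]
            · rw [beq_false_of_ne h10, h9.resolve_right h10]; rfl
          · simpa using h4
          · simpa using h4
        · rfl
      · simp only [h0, WS.bot, xmachW] at h4
        split_ifs at h4
      · simp only [h0, WS.bot, xmachW] at h4
        split_ifs at h4
    | succ t ih =>
      intro hta
      have ih := ih (by omega)
      have hS : ∀ i < a, xmachS e (h (i + 1) (t + 1), v i (t + 1 + 1), h i (t + 1), v i (t + 1)) := by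
        intro i hi
        obtain ⟨q, x, h1, -⟩ := ih i hi
        rcases hT i hi (t + 1) (by omega) with ⟨q, x, z, -, -, -, h4⟩ | h4 | ⟨q, x, -, h4, -⟩
        · simp [h1] at h4
        · exact h4
        · exact absurd h4 (noTp i hi _ (by omega))
      have hq : ∀ i < a, ∀ q' x', v i (t + 1 + 1) = xmachC q' x' →
          (q' : ℕ) = (Cook.run e (y ++ [true]) (t + 1)).1 := by
        intro i
        induction i with
        | zero =>
          intro hi q0 x0 h0
          obtain ⟨q, q', x, x', xl, xr, h1, h2, -, h3⟩ := hS 0 hi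
          obtain ⟨q1, x1, h4, h5, h6⟩ := ih 0 hi
          have hL : h 0 (t + 1) = .inl 4 := (hh _ (by omega)).1
          simp only [h0, h4, hL, Sum.inr.injEq, Sum.inl.injEq, Prod.mk.injEq, reduceCtorEq,
            false_and, or_false, true_and] at h1 h2 h3
          rw [h2.1, h3.1 ⟨_, hP q 1⟩ rfl, Cook.run_succ, Cook.ustep_fst, ← h5, ← h1.2,
            h6 (by omega), h1.1]
        | succ i ihi =>
          intro hi q0 x0 h0
          obtain ⟨q, q', x, x', xl, xr, -, h2, -, h3⟩ := hS (i + 1) hi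
          obtain ⟨p, p', w, w', wl, wr, -, g2, g3, -⟩ := hS i (by omega)
          rw [← ihi (by omega) _ _ g2]
          dsimp only at h2 h3 g3
          rcases g3 with g3 | g3 <;> simp only [h0, g3, Sum.inr.injEq, Sum.inl.injEq,
            Prod.mk.injEq, reduceCtorEq, false_and, false_or, Fin.reduceEq, or_self] at h2 h3
          rw [h2.1, h3.1.1]
      intro i hi
      obtain ⟨q, q', x, x', xl, xr, h1, h2, h3, h4⟩ := hS i hi
      refine ⟨q', x', h2, hq i hi _ _ h2, fun hit k => ?_⟩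
      obtain ⟨q1, x1, g1, g2, g3⟩ := ih i hi
      obtain ⟨q2, x2, f1, -, f3⟩ := ih (i + 1) (by omega)
      obtain ⟨p, p', w, w', wl, wr, e1, -, -, e4⟩ := hS (i + 1) (by omega)
      dsimp only at h1 h3 h4 e1 e4
      have hx : q1 = q ∧ x1 = x := by simpa [g1] using h1
      have hw : x2 = w := by
        have : q2 = p ∧ x2 = w := by simpa [f1] using e1
        exact this.2
      have hr : xr = w := by
        rcases h3 with h3 | h3 <;> simp only [h3, Sum.inr.injEq, Sum.inl.injEq,
          Prod.mk.injEq, reduceCtorEq, false_and, false_or, Fin.reduceEq, or_self] at e4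
        exact e4.1.2.2
      rw [Cook.run_succ, Cook.ustep_cell, Cook.run_length, ← g2, ← g3 (by omega),
        ← f3 (by omega), hx.1, hx.2, hw, ← hr]
      rcases i with _ | i
      · have hL : h 0 (t + 1) = .inl 4 := (hh _ (by omega)).1
        simp only [hL, reduceCtorEq, false_and, or_false, true_and] at h4
        rw [h4.2 k, ← g3 (by omega), hx.2]
      · obtain ⟨q3, x3, d1, -, d3⟩ := ih i (by omega)
        obtain ⟨r, r', u, u', ul, ur, c1, -, c3, -⟩ := hS i (by omega)
        dsimp only at c1 c3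
        have hu : q3 = r ∧ x3 = u := by simpa [d1] using c1
        rcases c3 with c3 | c3 <;> simp only [c3, Sum.inr.injEq, Sum.inl.injEq,
          Prod.mk.injEq, reduceCtorEq, false_and, false_or, Fin.reduceEq, or_self] at h4
        rw [h4.2 k, xmach_rule _ _ _ _ (i + 1) _ _ _ (by omega), Nat.add_sub_cancel,
          ← d3 (by omega), hu.2, h4.1.2.1]
  obtain ⟨q, x, h1, -, h3⟩ := key (a - 2) (by omega) 0 (by omega)
  have hL : h 0 (a - 2 + 1) = .inl 4 := (hh _ (by omega)).1
  have hTp : v 0 (a - 2 + 1 + 1) = .inl 3 := by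
    rw [show a - 2 + 1 + 1 = a by omega]; exact (hv 0 (by omega)).2
  rcases hT 0 (by omega) (a - 2 + 1) (by omega) with ⟨q, x, z, h4, -⟩ |
    ⟨q, q', x, x', xl, xr, -, h4, -⟩ | ⟨q', x', h4, -, h5⟩
  · simp [hTp] at h4
  · simp [hTp] at h4
  · have hx : q = q' ∧ x = x' := by simpa [h1] using h4
    rw [← h5 hL ⟨_, hb 0 1⟩ rfl, ← hx.2, h3 (by omega)]

theorem xmach_complete {e : List (List ℕ)} {G : ℕ} (hG : e.flatten.sum < G) {a : ℕ} (ha : 2 ≤ a)
    {y : List Bool}
    (H : Cook.cell (Cook.run e (y ++ [true]) (a - 2)) (Cook.ent e 0 1) 0 = Cook.ent e 0 4) :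
    ∃ h v, (xmachW e G).Til y.length a h v := by
  let cq : ℕ → Fin G := fun t => ⟨(Cook.run e (y ++ [true]) t).1, (Cook.run_le _ _ _).1.trans_lt hG⟩
  let cx : ℕ → ℕ → Fin G → Fin G := fun t i k =>
    ⟨Cook.cell (Cook.run e (y ++ [true]) t) k i, ((Cook.run_le _ _ _).2 _ _).trans_lt hG⟩
  refine ⟨fun i j => if i = 0 then .inl 4 else if i = a ∨ j = 0 ∨ j + 1 = a then .inl 5 else
      xmachM (cq j) (cx (j - 1) (i - 1)) (cx (j - 1) i),
    fun i j => if j = 0 then (xmachW e G).bot y.length i else if j = a then .inl 3 else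
      xmachC (cq (j - 1)) (cx (j - 1) i), fun i hi j hj => ?_, fun j hj => ?_, fun i hi => ?_⟩
  · refine Finset.mem_filter.2 ⟨Finset.mem_univ _, ?_⟩
    rcases j with _ | j
    · refine Or.inl ⟨cq 0, cx 0 i, ((y ++ [true]).map fun b =>
        bif b then Cook.ent e 0 3 else Cook.ent e 0 2).getD i 0, ?_, rfl, fun k => ?_, ?_⟩
      · simp [show 1 ≠ a by omega]
      · exact Cook.uinit_cell e _ k i
      · rw [xmach_getD]
        simp only [if_true, WS.bot, xmachW]
        split_ifs
        · cases y.getD i false <;> simp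
        · simp
        · simp
    · by_cases hja : j + 1 + 1 = a
      · refine Or.inr (Or.inr ⟨cq j, cx j i, by simp [hj.ne], by simp [hja, show a ≠ 0 by omega],
          fun h0 k hk => ?_⟩)
        have hi0 : i = 0 := by
          by_contra hne
          simp [hne, hja] at h0
        rw [← H, hk, hi0, show a - 2 = j by omega]
      · refine Or.inr (Or.inl ⟨cq j, cq (j + 1), cx j i, cx (j + 1) i, cx j (i - 1), cx j (i + 1),
          by simp [hj.ne], by simp [hja], ?_, ?_⟩)
        · by_cases hia : i + 1 = a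
          · exact Or.inr (by simp [hia, show a ≠ 0 by omega])
          · exact Or.inl (by simp [hia, hja])
        · rcases i with _ | i
          · refine Or.inl ⟨by simp, fun k hk => ?_, fun k => ?_⟩
            · simp only [cq, cx] at hk ⊢
              rw [Cook.run_succ, Cook.ustep_fst, hk]
            · simp only [cq, cx]
              rw [Cook.run_succ, Cook.ustep_cell, Cook.run_length]
          · refine Or.inr ⟨by simp [hi.ne, hja], fun k => ?_⟩
            simp only [cq, cx]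
            rw [Cook.run_succ, Cook.ustep_cell, Cook.run_length,
              xmach_rule _ _ _ _ (i + 1) _ _ _ (by omega)]
  · simp [xmachW, show a ≠ 0 by omega]
  · simp [xmachW, show a ≠ 0 by omega]

theorem exists_ws (e : List (List ℕ)) : ∃ (D : Type) (_ : Fintype D) (W : WS D),
    ∀ m a : ℕ, m < a → 2 ≤ a → ((∃ h v, W.Til m a h v) ↔ ∃ y : List Bool, y.length = m ∧
      Cook.cell (Cook.run e (y ++ [true]) (a - 2)) (Cook.ent e 0 1) 0 = Cook.ent e 0 4) := by
  refine ⟨xmachD (e.flatten.sum + 1), inferInstance, xmachW e _, fun m a _ ha => ⟨?_, ?_⟩⟩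
  · rintro ⟨h, v, H⟩
    exact xmach_sound (Nat.lt_succ_self _) ha H
  · rintro ⟨y, rfl, H⟩
    exact xmach_complete (Nat.lt_succ_self _) ha H

end Pool.Agent.P.MP_e40812_co
end

-- part Pool.Agent.P.MP_e40812_co.XPM
section

/-! Multisets with multiplicities computable in polynomial time. -/

namespace Pool.Agent.P.MP_e40812_co

open Finset Pool.Agent.Lib.PolyTime
open scoped Classical

variable {α X Z : Type} [N487b59b3 α] {F G : α → Multiset X}

theorem xpm_sum {ι : Type} (s : Finset ι) (f : ι → α → ℕ) (h : ∀ i ∈ s, PT (f i)) :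
    PT fun a => ∑ i ∈ s, f i a := by
  induction s using Finset.induction_on with
  | empty => exact (PT.const 0).congr fun a => by simp
  | insert i s hi ih =>
    exact (PT.add (h i (mem_insert_self _ _)) (ih fun j hj => h j (mem_insert_of_mem hj))).congr
      fun a => by rw [sum_insert hi]

theorem xpm_forall {ι : Type} (s : Finset ι) (p : ι → α → Prop) (h : ∀ i ∈ s, PTP (p i)) :
    PTP fun a => ∀ i ∈ s, p i a := by
  induction s using Finset.induction_on with
  | empty => exact (PTP.const True).congr fun a => by simp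
  | insert i s hi ih =>
    exact (PTP.and (h i (mem_insert_self _ _)) (ih fun j hj => h j (mem_insert_of_mem hj))).congr
      fun a => by simp

theorem xpm_count [inst : DecidableEq X] (h : PM F) (x : X) : PT fun a => (F a).count x :=
  (h x).congr fun a => by congr

theorem xpm_mk [inst : DecidableEq X] (h : ∀ x, PT fun a => (F a).count x) : PM F :=
  fun x => (h x).congr fun a => by congr

theorem xpm_sum_map (s : Finset X) (w : X → ℕ) (u : Multiset X) (hu : ∀ x ∈ u, x ∈ s) :
    (u.map w).sum = ∑ x ∈ s, u.count x * w x := by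
  induction u using Multiset.induction_on with
  | empty => simp
  | cons y u ih =>
    have hy : y ∈ s := hu y (Multiset.mem_cons_self _ _)
    rw [Multiset.map_cons, Multiset.sum_cons, ih fun x hx => hu x (Multiset.mem_cons_of_mem hx)]
    simp only [Multiset.count_cons, add_mul, sum_add_distrib, ite_mul, one_mul, zero_mul]
    rw [sum_ite_eq' s y w, if_pos hy, add_comm]

theorem xpm_countP_eq (p : X → Prop) [DecidablePred p] (u : Multiset X) :
    u.countP p = (u.map fun x => if p x then 1 else 0).sum := by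
  induction u using Multiset.induction_on with
  | empty => simp
  | cons y u ih => rw [Multiset.countP_cons, Multiset.map_cons, Multiset.sum_cons, ih, add_comm]

theorem xpm_wsum (h : PM F) (s : Finset X) (hs : ∀ a, ∀ x ∈ F a, x ∈ s) (w : X → ℕ) :
    PT fun a => ((F a).map w).sum :=
  (xpm_sum s (fun x a => (F a).count x * w x) fun x _ => PT.mul (h x) (PT.const _)).congr
    fun a => xpm_sum_map s w (F a) (hs a)

theorem xpm_countP (h : PM F) (s : Finset X) (hs : ∀ a, ∀ x ∈ F a, x ∈ s) (p : X → Prop)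
    [DecidablePred p] : PT fun a => (F a).countP p :=
  (xpm_wsum h s hs fun x => if p x then 1 else 0).congr fun a => xpm_countP_eq p (F a)

theorem xpm_card (h : PM F) (s : Finset X) (hs : ∀ a, ∀ x ∈ F a, x ∈ s) :
    PT fun a => (F a).card :=
  (xpm_wsum h s hs fun _ => 1).congr fun a => by simp

theorem PM.const (u : Multiset X) : PM fun _ : α => u :=
  fun _ => PT.const _

theorem PM.add (h : PM F) (h' : PM G) : PM fun a => F a + G a :=
  fun x => (PT.add (h x) (h' x)).congr fun _ => Multiset.count_add _ _ _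

theorem PM.nsmul {k : α → ℕ} (hk : PT k) (h : PM F) : PM fun a => k a • F a :=
  fun x => (PT.mul hk (h x)).congr fun _ => Multiset.count_nsmul _ _ _

theorem PM.replicate {k : α → ℕ} (hk : PT k) (x : X) :
    PM fun a => Multiset.replicate (k a) x :=
  fun y => (PT.ite (inst := fun _ => Classical.propDecidable _) (PTP.const (x = y)) hk
    (PT.const 0)).congr fun _ => Multiset.count_replicate _ _ _

theorem PM.map [Fintype X] (h : PM F) (f : X → Z) : PM fun a => (F a).map f :=
  fun z => (xpm_countP h univ (fun _ _ _ => mem_univ _) fun x => z = f x).congr fun a => by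
    rw [Multiset.count_map, Multiset.countP_eq_card_filter]

theorem PM.countP [Fintype X] (h : PM F) (p : X → Prop) : PT fun a => (F a).countP p :=
  xpm_countP h univ (fun _ _ _ => mem_univ _) p

theorem PM.card [Fintype X] (h : PM F) : PT fun a => (F a).card :=
  xpm_card h univ fun _ _ _ => mem_univ _

theorem PM.forall_mem [Fintype X] (h : PM F) (p : X → Prop) : PTP fun a => ∀ x ∈ F a, p x :=
  (PTP.eq (xpm_countP h univ (fun _ _ _ => mem_univ _) fun x => ¬ p x) (PT.const 0)).congr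
    fun a => by
    rw [Multiset.countP_eq_zero]; simp

theorem xpm_mod7 {c : α → ℕ} (hc : PT c) (p : ZMod 7 → Prop) :
    PTP fun a => p ((c a : ℕ) : ZMod 7) :=
  (xpm_forall (range 7) (fun j a => c a % 7 = j → p (j : ZMod 7)) fun j _ =>
    PTP.imp (PTP.eq (PT.mod hc (PT.const 7)) (PT.const j)) (PTP.const _)).congr fun a => by
    constructor
    · intro h j _ hj
      rw [← hj, ZMod.natCast_mod]; exact h
    · intro h
      have := h (c a % 7) (mem_range.2 (Nat.mod_lt _ (by norm_num))) rfl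
      rwa [ZMod.natCast_mod] at this

theorem xpm_period (p : ℕ → Prop) (hp : ∀ i, p i ↔ p (i % 7)) (y : ℕ) :
    (Multiset.range y).countP p = ∑ r ∈ range 7, if p r then (y + 6 - r) / 7 else 0 := by
  induction y with
  | zero =>
    symm
    refine sum_eq_zero fun r _ => ?_
    split_ifs
    · omega
    · rfl
  | succ y ih =>
    rw [Multiset.range_succ, Multiset.countP_cons, ih]
    have e : (if p y then 1 else 0 : ℕ) =
        ∑ r ∈ range 7, if r = y % 7 then (if p r then 1 else 0) else 0 := by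
      rw [sum_ite_eq' (range 7) (y % 7) fun r => if p r then 1 else 0,
        if_pos (mem_range.2 (Nat.mod_lt _ (by norm_num)))]
      by_cases h : p y
      · rw [if_pos h, if_pos ((hp y).1 h)]
      · rw [if_neg h, if_neg fun h' => h ((hp y).2 h')]
    rw [e, ← sum_add_distrib]
    refine sum_congr rfl fun r hr => ?_
    have := mem_range.1 hr
    split_ifs <;> omega

/-- Periodic sequences. -/
theorem PM.range7 {y c : α → ℕ} (hy : PT y) (hc : PT c) (k : ℕ) (g : ZMod 7 → X) :
    PM fun a => (Multiset.range (y a)).map fun i => g ((c a + k * i : ℕ) : ZMod 7) := by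
  intro x
  refine (xpm_sum (range 7)
    (fun r a => if x = g ((c a + k * r : ℕ) : ZMod 7) then (y a + 6 - r) / 7 else 0)
    fun r _ => PT.ite (xpm_mod7 (PT.add hc (PT.const (k * r))) fun t => x = g t)
      (PT.div (PT.sub (PT.add hy (PT.const 6)) (PT.const r)) (PT.const 7)) (PT.const 0)).congr
    fun a => ?_
  rw [Multiset.count_map, ← Multiset.countP_eq_card_filter]
  refine xpm_period (fun i => x = g ((c a + k * i : ℕ) : ZMod 7)) (fun i => ?_) (y a)
  simp only [Nat.cast_add, Nat.cast_mul, ZMod.natCast_mod]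

theorem PM.single7 {c : α → ℕ} (hc : PT c) (g : ZMod 7 → X) :
    PM fun a => ({g ((c a : ℕ) : ZMod 7)} : Multiset X) :=
  fun x => (PT.ite (inst := fun _ => Classical.propDecidable _) (xpm_mod7 hc fun t => x = g t)
    (PT.const 1) (PT.const 0)).congr fun _ => Multiset.count_singleton _ _

theorem xpm_dmul (n : ℕ) : ∀ {U : α → Multiset ℕ} (_ : PM U) (s : Finset ℕ)
    (_ : ∀ a, ∀ x ∈ U a, x ∈ s), PM fun a => dmul n (U a) := by
  induction n with
  | zero => intro U h _ _; exact h
  | succ n ih =>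
    intro U h s hs
    refine ih (U := fun a => U a + Multiset.replicate (2 * (U a).card - 4) (3 * 2 ^ n) +
      Multiset.replicate ((U a).countP (fun x => x.testBit n = true) / 2) (4 * 2 ^ n))
      ((h.add (PM.replicate (PT.sub (PT.mul (PT.const 2) (xpm_card h s hs)) (PT.const 4)) _)).add
        (PM.replicate (PT.div (xpm_countP h s hs _) (PT.const 2)) _))
      (insert (3 * 2 ^ n) (insert (4 * 2 ^ n) s)) fun a x hx => ?_
    rcases Multiset.mem_add.1 hx with hx | hx
    · rcases Multiset.mem_add.1 hx with hx | hx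
      · exact mem_insert_of_mem (mem_insert_of_mem (hs a x hx))
      · rw [Multiset.eq_of_mem_replicate hx]; exact mem_insert_self _ _
    · rw [Multiset.eq_of_mem_replicate hx]; exact mem_insert_of_mem (mem_insert_self _ _)

theorem PM.dm [Fintype X] {Y : Type} [Fintype Y] (h : PM F) (d : X → ℕ) (b : X → Finset Y) :
    PM fun a => dm d b (F a) :=
  xpm_dmul (Fintype.card Y) (h.map (vl d b)) (univ.image (vl d b)) fun a x hx => by
    obtain ⟨y, -, rfl⟩ := Multiset.mem_map.1 hx
    exact mem_image_of_mem _ (mem_univ _)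

theorem PM.ok [Fintype X] {Y : Type} [Fintype Y] (h : PM F) (d : X → ℕ) (b : X → Finset Y) :
    PTP fun a => OK d b (F a) := by
  refine (PTP.and (h.forall_mem fun x => 3 ≤ d x) (PTP.and (PTP.le (PT.const 4) h.card)
    (PTP.and (PTP.eq (PT.add (xpm_wsum h univ (fun _ _ _ => mem_univ _) d) (PT.const 12))
      (PT.mul (PT.const 6) h.card))
      (xpm_forall univ (fun l a => ((F a).countP fun x => l ∈ b x) % 2 = 0) fun l _ =>
        PTP.eq (PT.mod (xpm_countP h univ (fun _ _ _ => mem_univ _) _) (PT.const 2))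
          (PT.const 0))))).congr fun a => ?_
  simp only [OK, Nat.even_iff, mem_univ, true_imp_iff]

theorem PM.list {F : α → Multiset ℕ} (h : PM F) (K : ℕ) :
    PT fun a => (List.range K).map fun i => (F a).count (i + 3) := by
  induction K with
  | zero => exact (PT.const []).congr fun a => by simp
  | succ K ih =>
    exact (PT.append ih (PT.cons (xpm_count h (K + 3)) (PT.const []))).congr fun a => by
      rw [List.range_succ, List.map_append, List.map_singleton]

end Pool.Agent.P.MP_e40812_co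
end

-- part Pool.Agent.P.MP_e40812_co.XExpl
section

/-! The explicit multisets are computable in polynomial time. -/

namespace Pool.Agent.P.MP_e40812_co

open Finset Pool.Agent.Lib.PolyTime
open scoped Classical

variable {α C D : Type} [N487b59b3 α]

theorem xexpl_congr {X : Type} {F G : α → Multiset X} (h : PM F) (e : ∀ a, G a = F a) : PM G := by
  rwa [funext e]

theorem xexpl_zero {X : Type} (f : α → ℕ → X) : PM fun a => (Multiset.range 0).map (f a) :=
  xexpl_congr (PM.const 0) fun _ => by simp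

theorem xexpl_step {X : Type} {c w d : α → ℕ} {f : α → ℕ → X}
    (h : PM fun a => (Multiset.range (c a)).map (f a)) (hc : PT c) (hw : PT w) (hd : PT d)
    (hle : ∀ a, c a ≤ w a) (g : ZMod 7 → X)
    (e : ∀ a i, c a ≤ i → i < w a → f a i = g ((d a + i : ℕ) : ZMod 7)) :
    PM fun a => (Multiset.range (w a)).map (f a) := by
  refine xexpl_congr (h.add (PM.range7 (hw.sub hc) (hd.add hc) 1 g)) fun a => ?_
  obtain ⟨z, hz⟩ := Nat.exists_eq_add_of_le (hle a)
  rw [hz, Multiset.range_add, Multiset.map_add, Multiset.map_map, Nat.add_sub_cancel_left]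
  refine congrArg _ (Multiset.map_congr rfl fun i hi => ?_)
  have := Multiset.mem_range.1 hi
  rw [Function.comp_apply, e a _ (by omega) (by omega), one_mul, add_assoc]

theorem xexpl_countP {X : Type} [Fintype X] {F : α → Multiset X} (h : PM F) (p : X → Prop)
    {inst : DecidablePred p} : PT fun a => @Multiset.countP X p inst (F a) := by
  obtain rfl : inst = fun x => Classical.propDecidable (p x) := Subsingleton.elim _ _
  exact h.countP p

theorem xexpl_sum {X ι : Type} (s : Finset ι) {F : ι → α → Multiset X} (h : ∀ i, PM (F i)) :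
    PM fun a => ∑ i ∈ s, F i a := by
  induction s using Finset.induction_on with
  | empty => exact xexpl_congr (PM.const 0) fun _ => by simp
  | insert i s hi ih => exact xexpl_congr ((h i).add ih) fun a => sum_insert hi

theorem xexpl_forall {ι : Type} (s : Finset ι) {p : ι → α → Prop} (h : ∀ i, PTP (p i)) :
    PTP fun a => ∀ i ∈ s, p i a := by
  induction s using Finset.induction_on with
  | empty => exact ⟨fun _ => true, PT.const _, fun _ => by simp⟩
  | insert i s _ ih => exact ((h i).and ih).congr fun a => by simp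

theorem xexpl_bot (bl : C) {s : α → ℕ} (hs : PT s) (h2 : ∀ a, 2 ≤ s a) :
    PM fun a => (Multiset.range (2 * s a + 1)).map (botT bl (s a)) := by
  have st : ∀ (x : Fin 7) (S : Finset (Fin 6)) (c w : α → ℕ),
      (PM fun a => (Multiset.range (c a)).map (botT bl (s a))) → PT c → PT w → (∀ a, c a ≤ w a) →
      (∀ a i, 2 ≤ s a → c a ≤ i → i < w a →
      (if i = 0 then 3 else if i = s a then 4 else if i = s a + 1 then 5 else 6 : Fin 7) = x ∧
      (if i = 0 then {0, 1} else if i = 2 * s a then {0, 1, 2, 5} else {0, 1, 2} :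
        Finset (Fin 6)) = S) → PM fun a => (Multiset.range (w a)).map (botT bl (s a)) := by
    intro x S c w h hc hw hle e
    refine xexpl_step h hc hw (PT.const 0) hle (fun z => (x, z + 4, S, q4 bl)) fun a i k k' => ?_
    rw [botT, (e a i (h2 a) k k').1, (e a i (h2 a) k k').2, zero_add]
  have p1 := st 3 {0, 1} _ (fun _ => 1) (xexpl_zero _) (PT.const _) (PT.const _)
    (fun a => by omega) fun a i k h h' => ⟨if_pos (by omega), if_pos (by omega)⟩
  have p2 := st 6 {0, 1, 2} _ s p1 (PT.const _) hs (fun a => by have := h2 a; omega)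
    fun a i k h h' => ⟨by rw [if_neg (by omega), if_neg (by omega), if_neg (by omega)],
      by rw [if_neg (by omega), if_neg (by omega)]⟩
  have p3 := st 4 {0, 1, 2} _ (fun a => s a + 1) p2 hs (by fun_prop) (fun a => by omega)
    fun a i k h h' => ⟨by rw [if_neg (by omega), if_pos (by omega)],
      by rw [if_neg (by omega), if_neg (by omega)]⟩
  have p4 := st 5 {0, 1, 2} _ (fun a => s a + 2) p3 (by fun_prop) (by fun_prop) (fun a => by omega)
    fun a i k h h' => ⟨by rw [if_neg (by omega), if_neg (by omega), if_pos (by omega)],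
      by rw [if_neg (by omega), if_neg (by omega)]⟩
  have p5 := st 6 {0, 1, 2} _ (fun a => 2 * s a) p4 (by fun_prop) (by fun_prop)
    (fun a => by have := h2 a; omega)
    fun a i k h h' => ⟨by rw [if_neg (by omega), if_neg (by omega), if_neg (by omega)],
      by rw [if_neg (by omega), if_neg (by omega)]⟩
  exact st 6 {0, 1, 2, 5} _ (fun a => 2 * s a + 1) p5 (by fun_prop) (by fun_prop)
    (fun a => by omega)
    fun a i k h h' => ⟨by rw [if_neg (by omega), if_neg (by omega), if_neg (by omega)],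
      by rw [if_neg (by omega), if_pos (by omega)]⟩

theorem xexpl_top (bl : C) {s len : α → ℕ} (hs : PT s) (h2 : ∀ a, 2 ≤ s a) (hl : PT len) :
    PM fun a => (Multiset.range (2 * s a + 1)).map (topT bl (s a) (len a)) := by
  have st : ∀ (x : Fin 7) (S : Finset (Fin 6)) (c w : α → ℕ),
      (PM fun a => (Multiset.range (c a)).map (topT bl (s a) (len a))) → PT c → PT w →
      (∀ a, c a ≤ w a) → (∀ a i, 2 ≤ s a → c a ≤ i → i < w a →
      (if i = 2 * s a then 4 else if i + 1 = 2 * s a then 5 else 6 : Fin 7) = x ∧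
      (if i = 0 then {2, 3, 4, 5} else if i = 2 * s a then {3, 4} else {3, 4, 5} :
        Finset (Fin 6)) = S) → PM fun a => (Multiset.range (w a)).map (topT bl (s a) (len a)) := by
    intro x S c w h hc hw hle e
    refine xexpl_step h hc hw hl hle (fun z => (x, z, S, q4 bl)) fun a i k k' => ?_
    rw [topT, (e a i (h2 a) k k').1, (e a i (h2 a) k k').2]
  have p1 := st 6 {2, 3, 4, 5} _ (fun _ => 1) (xexpl_zero _) (PT.const _) (PT.const _)
    (fun a => by omega) fun a i k h h' => ⟨by rw [if_neg (by omega), if_neg (by omega)],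
      if_pos (by omega)⟩
  have p2 := st 6 {3, 4, 5} _ (fun a => 2 * s a - 1) p1 (PT.const _) (by fun_prop)
    (fun a => by have := h2 a; omega)
    fun a i k h h' => ⟨by rw [if_neg (by omega), if_neg (by omega)],
      by rw [if_neg (by omega), if_neg (by omega)]⟩
  have p3 := st 5 {3, 4, 5} _ (fun a => 2 * s a) p2 (by fun_prop) (by fun_prop) (fun a => by omega)
    fun a i k h h' => ⟨by rw [if_neg (by omega), if_pos (by omega)],
      by rw [if_neg (by omega), if_neg (by omega)]⟩
  exact st 4 {3, 4} _ (fun a => 2 * s a + 1) p3 (by fun_prop) (by fun_prop) (fun a => by omega)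
    fun a i k h h' => ⟨if_pos (by omega), by rw [if_neg (by omega), if_pos (by omega)]⟩

theorem pm_exA [Fintype C] (bl : C) {s len : α → ℕ} {T : α → Multiset (ZMod 7 × Q C)} (hs : PT s)
    (h2 : ∀ a, 2 ≤ s a) (hl : PT len) (hT : PM T) : PM fun a => exA bl (s a) (len a) (T a) :=
  ((((xexpl_bot bl hs h2).add (hT.map _)).add (xexpl_top bl hs h2 hl)).add
    (PM.replicate (by fun_prop) _)).add (PM.const _)

theorem pm_exB {s len : α → ℕ} (hs : PT s) (hl : PT len) : PM fun a => exB (s a) (len a) := by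
  have k : ∀ b : Bool, PM fun a => (Multiset.range (2 * s a + 1 + len a)).map
      fun n : ℕ => (some ((n : ZMod 7) + 4, b) : FT) := fun b =>
    xexpl_step (xexpl_zero _) (PT.const _) (by fun_prop) (PT.const 0) (fun a => Nat.zero_le _)
      (fun z => some (z + 4, b)) fun a i _ _ => by rw [zero_add]
  exact ((k false).add (k true)).add (PM.replicate (by fun_prop) _)

theorem pm_uX [Fintype C] {A : α → Multiset (BT C)} {B : α → Multiset FT} (hA : PM A)
    (hB : PM B) : PM fun a => uX (A a) (B a) :=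
  (hA.map _).add (hB.map _)

theorem ptp_ok2 [Fintype C] (bl : C) {A : α → Multiset (BT C)} {B : α → Multiset FT} (hA : PM A)
    (hB : PM B) : PTP fun a => OK2 bl (A a) (B a) := by
  have cA := hA.card
  have cB := hB.card
  refine (hA.forall_mem _).and ((PTP.le (PT.const _) cA).and ((PTP.eq (cB.add (PT.const _))
    ((PT.const _).mul cA)).and ?_))
  exact (xexpl_forall univ fun l : ZMod 7 × Fin 6 => PTP.eq
    (xexpl_countP hA fun a => hasA bl a (.inl l))
    (xexpl_countP hB fun f => hasB (C := C) f (.inl l))).congr fun a =>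
      ⟨fun h l _ => h l, fun h l => h l (mem_univ l)⟩

theorem pm_fill [Fintype C] (bl : C) {k : α → ℕ} {μ : α → Multiset (ZMod 7 × Q C)} (hk : PT k)
    (h : PM μ) : PM fun a => fill bl (k a) (μ a) :=
  h.add (xexpl_sum univ fun β => PM.replicate (hk.sub (xexpl_countP h fun p => p.1 = β)) _)

theorem xexpl_rng {Y : Type} {y : α → ℕ} (hy : PT y) (c : α → ℕ) (k : ℕ) (hc : PT c) {t : Y}
    {u v : α → ℕ → ℕ} (e : ∀ a i, u a i + 3 * v a i = c a + k * i) :
    PM fun a => (Multiset.range (y a)).map fun i => (cl (u a i) (v a i), t) :=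
  xexpl_congr (PM.range7 hy hc k fun z => (z, t)) fun a =>
    Multiset.map_congr rfl fun i _ => by rw [cl, e]

theorem xexpl_one {Y : Type} {u v : α → ℕ} (hu : PT u) (hv : PT v) {t : Y} :
    PM fun a => ({(cl (u a) (v a), t)} : Multiset (ZMod 7 × Y)) :=
  PM.single7 (c := fun a => u a + 3 * v a) (by fun_prop) fun z => (z, t)

theorem xexpl_frame (W : WS D) {m n : α → ℕ} (hm : PT m) (hn : PT n) :
    PM fun a => W.frame (m a) (n a) :=
  (((((((((PM.const _).add
    (xexpl_rng hm (fun _ => 1) 1 (PT.const _) fun a i => by omega)).add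
    (xexpl_one (by fun_prop) (PT.const _))).add
    (xexpl_rng (by fun_prop) (fun a => m a + 2) 1 (by fun_prop) fun a i => by omega)).add
    (xexpl_one (by fun_prop) (PT.const _))).add
    (xexpl_rng hn (fun _ => 3) 3 (PT.const _) fun a i => by omega)).add
    (xexpl_rng hn (fun a => n a + 4) 3 (by fun_prop) fun a i => by omega)).add
    (xexpl_one (PT.const _) (by fun_prop))).add
    (xexpl_rng hn (fun a => 3 * n a + 4) 1 (by fun_prop) fun a i => by omega)).add
    (xexpl_one (by fun_prop) (by fun_prop))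

theorem xexpl_bdry (W : WS D) {m n : α → ℕ} (hm : PT m) (hn : PT n) :
    PM fun a => W.bdry (m a) (n a) :=
  ((((((xexpl_rng hn (fun _ => 4) 3 (PT.const _) fun a i => by omega).add
    (xexpl_rng hn (fun a => n a + 3) 3 (by fun_prop) fun a i => by omega)).add
    (xexpl_rng hm (fun _ => 4) 1 (PT.const _) fun a i => by omega)).add
    (xexpl_one (by fun_prop) (PT.const _))).add
    (xexpl_rng (by fun_prop) (fun a => m a + 5) 1 (by fun_prop) fun a i => by omega)).add
    (xexpl_rng hn (fun _ => 5) 1 (PT.const _) fun a i => by omega)).add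
    (xexpl_rng hn (fun a => 3 * n a + 1) 1 (by fun_prop) fun a i => by omega)

theorem pm_mu (W : WS D) {m n : α → ℕ} (hm : PT m) (hn : PT n) :
    PM fun a => W.mu (m a) (n a) :=
  (((xexpl_frame W hm hn).add (PM.nsmul (hn.mul hn) (PM.const _))).add
    (PM.nsmul (hn.mul hn) (PM.const _))).add (xexpl_bdry W hm hn)

end Pool.Agent.P.MP_e40812_co
end

-- part Pool.Agent.P.MP_e40812_co.XList
section

/-! From multisets to lists. -/

namespace Pool.Agent.P.MP_e40812_co

open Finset Pool.Agent.Lib.PolyTime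
open scoped Classical

lemma xlist_getD (s : Multiset ℕ) (K : ℕ) (hK : ∀ x ∈ s, x < K) (i : ℕ) :
    ((List.range K).map fun i => s.count (i + 3)).getD i 0 = s.count (i + 3) := by
  by_cases hi : i < K
  · rw [List.getD_eq_getElem _ _ (by simpa using hi)]
    simp
  · rw [List.getD_eq_default _ _ (by simpa using hi)]
    symm
    rw [Multiset.count_eq_zero]
    intro h
    have := hK _ h
    omega

lemma xlist_sum (s : Multiset ℕ) (K : ℕ) (h3 : ∀ x ∈ s, 3 ≤ x) (hK : ∀ x ∈ s, x < K) :
    ∑ i ∈ Finset.range K, (6 - (i + 3 : ℤ)) * (s.count (i + 3) : ℕ) =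
      6 * (s.card : ℤ) - (s.sum : ℕ) := by
  induction s using Multiset.induction_on with
  | empty => simp
  | cons a s ih =>
    have ha3 := h3 a (Multiset.mem_cons_self _ _)
    have haK := hK a (Multiset.mem_cons_self _ _)
    have ih' := ih (fun x hx => h3 x (Multiset.mem_cons_of_mem hx))
      (fun x hx => hK x (Multiset.mem_cons_of_mem hx))
    have e : ∀ i ∈ Finset.range K, (6 - (i + 3 : ℤ)) * ((a ::ₘ s).count (i + 3) : ℕ) =
        (6 - (i + 3 : ℤ)) * (s.count (i + 3) : ℕ) + if i = a - 3 then 6 - (a : ℤ) else 0 := by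
      intro i _
      rw [Multiset.count_cons]
      by_cases hi : i = a - 3
      · have h1 : i + 3 = a := by omega
        have h2 : (i : ℤ) + 3 = a := by omega
        rw [if_pos h1, if_pos hi, h2]
        push_cast
        ring
      · have h1 : ¬ i + 3 = a := by omega
        rw [if_neg h1, if_neg hi]
        simp
    rw [sum_congr rfl e, sum_add_distrib, ih', sum_ite_eq', if_pos (mem_range.2 (by omega)),
      Multiset.card_cons, Multiset.sum_cons]
    push_cast
    ring

theorem list_of_multiset (s : Multiset ℕ) (K : ℕ) (h3 : ∀ x ∈ s, 3 ≤ x) (hK : ∀ x ∈ s, x < K)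
    (he : s.sum + 12 = 6 * s.card) :
    Eu ((List.range K).map fun i => s.count (i + 3)) ∧
      (RzL ((List.range K).map fun i => s.count (i + 3)) ↔ Rz s) := by
  refine ⟨?_, ?_⟩
  · unfold Eu
    simp only [xlist_getD s K hK, List.length_map, List.length_range]
    rw [xlist_sum s K h3 hK]
    omega
  · unfold RzL Rz
    simp only [xlist_getD s K hK]

lemma xlist_bad (K i : ℕ) : ([4, 0, 0, 1] ++ List.replicate K 0).getD i 0 =
    ({3, 3, 3, 3, 6} : Multiset ℕ).count (i + 3) := by
  match i with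
  | 0 => rfl
  | 1 => rfl
  | 2 => rfl
  | 3 => rfl
  | i + 4 =>
    have : ({3, 3, 3, 3, 6} : Multiset ℕ).count (i + 4 + 3) = 0 := by
      rw [Multiset.count_eq_zero]
      simp
    rw [this]
    show (List.replicate K 0).getD i 0 = 0
    rw [List.getD_eq_getElem?_getD, List.getElem?_replicate]
    split_ifs <;> rfl

/-- Four triangles and a hexagon do not form a polyhedron. -/
theorem bad_list (K : ℕ) : Eu ([4, 0, 0, 1] ++ List.replicate K 0) ∧
    ¬ RzL ([4, 0, 0, 1] ++ List.replicate K 0) := by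
  refine ⟨?_, ?_⟩
  · unfold Eu
    simp only [xlist_bad]
    have h : ∀ n : ℕ, ∑ i ∈ Finset.range (4 + n), (6 - (i + 3 : ℤ)) *
        (({3, 3, 3, 3, 6} : Multiset ℕ).count (i + 3) : ℕ) = 12 := by
      intro n
      induction n with
      | zero => decide
      | succ n ih =>
        rw [← add_assoc, sum_range_succ, ih]
        have : ({3, 3, 3, 3, 6} : Multiset ℕ).count (4 + n + 3) = 0 := by
          rw [Multiset.count_eq_zero]
          simp
          omega
        rw [this]
        simp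
    have hl : ([4, 0, 0, 1] ++ List.replicate K 0).length = 4 + K := by simp; omega
    rw [hl]
    exact h K
  · rintro ⟨P, hP, hc⟩
    simp only [xlist_bad] at hc
    obtain ⟨V, F, hT, hV⟩ := tri_of_poly hP (s := {3, 3, 3, 3, 6}) (by decide) (fun n hn => by
      have := hc (n - 3)
      rwa [show n - 3 + 3 = n by omega] at this) (by decide)
    have h5 : V.card = 5 := by
      have := congrArg Multiset.card hV
      rwa [Multiset.card_map] at this
    have h6 : 6 ∈ V.val.map (deg F) := by rw [hV]; decide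
    obtain ⟨v, -, hv⟩ := Multiset.mem_map.1 h6
    rw [hT.deg_eq] at hv
    have := (card_filter_le V fun u => Nb F v u).trans h5.le
    omega

end Pool.Agent.P.MP_e40812_co
end

-- part Pool.Agent.P.MP_e40812_co.XMain
section

/-! Succinct hardness. -/

namespace Pool.Agent.P.MP_e40812_co

open Finset Pool.Agent.Lib.PolyTime
open scoped Classical

section

variable {D : Type} [Fintype D] (W : WS D) (m c : ℕ)

/-- The base vertices of the instance. -/
noncomputable def insA : Multiset (BT (PC D)) :=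
  exA none (7 * c + 1) (7 * ((14 * c + 1 + 2) * W.nb (14 * c + 1)))
    (fill none ((14 * c + 1 + 2) * W.nb (14 * c + 1)) (W.mu m (14 * c + 1)))

/-- The faces of the instance. -/
noncomputable def insB : Multiset FT := exB (7 * c + 1) (7 * ((14 * c + 1 + 2) * W.nb (14 * c + 1)))

theorem seven (c : ℕ) : ((14 * c + 1 + 2 : ℕ) : ZMod 7) = 3 := by
  have h : (14 : ZMod 7) = 0 := by decide
  push_cast
  rw [h]
  ring

theorem ins_sound (hm : m < 14 * c + 1) (h : OK dX (bX none) (uX (insA W m c) (insB W c)))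
    (h2 : OK2 none (insA W m c) (insB W c)) (hr : Rz (dm dX (bX none) (uX (insA W m c) (insB W c)))) :
    ∃ h v, W.Til m (14 * c + 1) h v := by
  obtain ⟨K, G, hT, ht⟩ := lay_sound h hr
  obtain ⟨P, hP⟩ := grid_sound h2 hT ht
  obtain ⟨f1, f2, f3, f4, f5, f6⟩ := mu_facts W m (14 * c + 1)
  rw [insA, exA_cols _ _ _ _ _ fun p hp => (f1 p hp).2] at hP
  have hal : ∀ v ∈ P.S, W.Al (P.col v) := fun v hv => by
    have : P.col v ∈ (W.mu m (14 * c + 1)).map Prod.snd := hP ▸ Multiset.mem_map_of_mem _ hv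
    obtain ⟨p, hp, e⟩ := Multiset.mem_map.1 this
    exact e ▸ (f1 p hp).1
  rw [← hP] at f2 f3 f4 f5 f6
  obtain ⟨v, hv⟩ := chain_exact W P m _ hal f2 f3 f4 f5 f6
  rw [show m + 1 + (14 * c + 1 - m - 1) = 14 * c + 1 by omega] at hv
  exact til_of_chain W P m _ hm hal hv

theorem ins_build (hm : m < 14 * c + 1) (hc : 1 ≤ c) {h v : ℕ → ℕ → D}
    (ht : W.Til m (14 * c + 1) h v) : OK dX (bX none) (uX (insA W m c) (insB W c)) ∧
      OK2 none (insA W m c) (insB W c) ∧ Rz (dm dX (bX none) (uX (insA W m c) (insB W c))) := by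
  obtain ⟨g, hg, e⟩ := (sp_mu W hm (seven c) ht).fill
  have e2 : 14 * c + 1 + 2 = 2 * (7 * c + 1) + 1 := by ring
  have h7 : ((2 * (7 * c + 1) + 1 : ℕ) : ZMod 7) = 3 := e2 ▸ seven c
  have hg' : Val none (2 * (7 * c + 1) + 1) (7 * ((14 * c + 1 + 2) * W.nb (14 * c + 1))) g := by
    rw [← e2]; exact hg
  obtain ⟨K, G, h1, h2, h3⟩ := grid_build (by omega) h7 hg'
  have h4 := ok2_ex (by omega) h7 hg'
  rw [e] at h3 h4
  exact ⟨(lay_build h1 h2 h3).1, h4, (lay_build h1 h2 h3).2⟩

end

theorem succinct {R : List Bool → Bool} (hR : PT R) : ∃ (K : ℕ) (g : ℕ → List ℕ), PT g ∧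
    ∀ m, (g m).length = K ∧ Eu (g m) ∧
      (RzL (g m) ↔ ∃ y : List Bool, y.length = m ∧ R y = true) := by
  have hR' : PT fun n : ℕ => R n.bits.dropLast := by fun_prop
  obtain ⟨e, q, he⟩ := exists_code hR'.isPolyTime
  obtain ⟨D, _, W, hW⟩ := exists_ws e
  set c : ℕ → ℕ := fun m => q.eval (m + 1) + m + 1 with hc
  have pc : PT c := by rw [hc]; fun_prop
  have pk : PT fun m => (14 * c m + 1 + 2) * W.nb (14 * c m + 1) := by unfold WS.nb; fun_prop
  have pA : PM fun m => insA W m (c m) :=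
    pm_exA none (by fun_prop) (fun m => by simp only [hc]; omega) (by fun_prop)
      (pm_fill none pk (pm_mu W PT.id (by fun_prop)))
  have pB : PM fun m => insB W (c m) := pm_exB (by fun_prop) (by fun_prop)
  have pU := pm_uX pA pB
  have key : ∀ m, (∃ h v, W.Til m (14 * c m + 1) h v) ↔
      ∃ y : List Bool, y.length = m ∧ R y = true := fun m => by
    rw [hW m _ (by simp only [hc]; omega) (by simp only [hc]; omega)]
    refine exists_congr fun y => and_congr_right fun hy => ?_
    have := he (ofBits (y ++ [true])) (14 * c m + 1 - 2) (by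
      rw [sz, enc_nat, bits_ofBits_concat, List.length_append, hy]
      simp only [hc, List.length_singleton]
      omega)
    rw [enc_nat, bits_ofBits_concat, enc_bool, List.dropLast_concat] at this
    exact (Cook.urun_singleton this).symm
  refine ⟨13 * 2 ^ Fintype.card (Ly (PC D)) + 4, fun m =>
    if OK dX (bX none) (uX (insA W m (c m)) (insB W (c m))) ∧
        OK2 none (insA W m (c m)) (insB W (c m)) then
      (List.range (13 * 2 ^ Fintype.card (Ly (PC D)) + 4)).map fun i =>
        (dm dX (bX none) (uX (insA W m (c m)) (insB W (c m)))).count (i + 3)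
    else [4, 0, 0, 1] ++ List.replicate (13 * 2 ^ Fintype.card (Ly (PC D))) 0,
    PT.ite ((pU.ok _ _).and (ptp_ok2 none pA pB)) ((pU.dm _ _).list _) (PT.const _), fun m => ?_⟩
  have hm : m < 14 * c m + 1 := by simp only [hc]; omega
  have hc1 : 1 ≤ c m := by simp only [hc]; omega
  dsimp only
  split_ifs with h
  · have hd : ∀ x : BT (PC D) ⊕ FT, dX x ≤ 12 := by
      rintro (a | f)
      · have := a.1.2
        simp only [dX]
        omega
      · simp [dX]
    obtain ⟨l1, l2⟩ := list_of_multiset _ (13 * 2 ^ Fintype.card (Ly (PC D)) + 4)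
      (dm_euler h.1).2 (fun x hx => (dm_lt hd x hx).trans_le (Nat.le_add_right _ _)) (dm_euler h.1).1
    refine ⟨by simp, l1, ?_⟩
    rw [l2, ← key]
    exact ⟨ins_sound W m _ hm h.1 h.2, fun ⟨_, _, ht⟩ => (ins_build W m _ hm hc1 ht).2.2⟩
  · refine ⟨by simp, (bad_list _).1, ⟨fun k => absurd k (bad_list _).2, fun k => ?_⟩⟩
    obtain ⟨_, _, ht⟩ := (key m).2 k
    exact absurd ⟨(ins_build W m _ hm hc1 ht).1, (ins_build W m _ hm hc1 ht).2.1⟩ h

end Pool.Agent.P.MP_e40812_co
end

-- part Pool.Agent.P.MP_e40812_co.XNexp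
section

/-! Sets that are hard for unary nondeterministic problems are hard for NEXP. -/

namespace Pool.Agent.P.MP_e40812_co

open Finset Pool.Agent.Lib.PolyTime N68a2faeb

theorem xnexp_delimit {α : Type} [N487b59b3 α] {h : α → List Bool} (hh : PT h) :
    PT fun a => N487b59b3.delimit (h a) :=
  (show PT fun a => (h a).flatMap (fun b => [true, b]) ++ [false] by fun_prop).congr fun a => by
    induction h a with
    | nil => rfl
    | cons b l ih => simp [N487b59b3.delimit, ih]

/-- A universal unary problem. -/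
theorem exists_universal : ∃ U : List Bool → Bool, PT U ∧ ∀ L ∈ NEXP, ∃ c : List Bool → ℕ,
    PT c ∧ ∀ x, L x = true ↔ ∃ y : List Bool, y.length = c x ∧ U y = true := by
  refine ⟨fun y => urun (decCode ((blocks ((blocks y.length.bits).headD [])).getD 0 []))
    (N487b59b3.bitEncode (((blocks ((blocks y.length.bits).headD [])).getD 1 [] : List Bool),
      y.take (ofBits ((blocks ((blocks y.length.bits).headD [])).getD 2 [])))) y.length == [true],
    by fun_prop, ?_⟩
  rintro L ⟨p, R, hR, hL⟩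
  obtain ⟨e, q, hq⟩ := exists_code hR
  obtain ⟨d, hd⟩ := poly_two_pow q
  refine ⟨fun x => pad (([N487b59b3.bitEncode e, x, (2 ^ p.eval x.length).bits].map
    N487b59b3.delimit).flatten)
    (d * (x.length + p.eval x.length + 4) + d + (x.length + p.eval x.length + 4)), ?_, fun x => ?_⟩
  · refine pt_pad ?_ (by fun_prop) (by fun_prop)
    have h1 : PT fun x : List Bool => N487b59b3.delimit x := xnexp_delimit (by fun_prop)
    have h2 : PT fun x : List Bool => N487b59b3.delimit (2 ^ p.eval x.length).bits :=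
      xnexp_delimit (by fun_prop)
    simp only [List.map_cons, List.map_nil, List.flatten_cons, List.flatten_nil]
    fun_prop
  set n := 2 ^ p.eval x.length with hn
  set j := x.length + p.eval x.length + 4 with hj
  set c := pad (([N487b59b3.bitEncode e, x, n.bits].map N487b59b3.delimit).flatten) (d * j + d + j)
    with hc
  have hc1 : 2 ^ (d * j + d + j) ≤ c := le_pad _ _
  have hnc : n ≤ c := le_trans (Nat.pow_le_pow_right (by omega) (by omega)) hc1
  have key : ∀ y : List Bool, y.length = c →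
      (urun (decCode ((blocks ((blocks y.length.bits).headD [])).getD 0 []))
        (N487b59b3.bitEncode (((blocks ((blocks y.length.bits).headD [])).getD 1 [] : List Bool),
          y.take (ofBits ((blocks ((blocks y.length.bits).headD [])).getD 2 [])))) y.length
          == [true]) = R (x, y.take n) := by
    intro y hy
    rw [hy, hc, head_pad, blocks_flatten, ← hc]
    simp only [List.getD_cons_zero, List.getD_cons_succ, decCode_enc, ofBits_bits]
    rw [hq (x, y.take n) c, enc_bool]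
    · cases R (x, y.take n) <;> rfl
    · refine le_trans (eval_mono q (b := 2 ^ j) ?_) ((hd j).trans
        (le_trans (Nat.pow_le_pow_right (by omega) (by omega)) hc1))
      rw [sz_pair, sz_str, sz_str, List.length_take, hj, pow_add, pow_add, ← hn]
      have h1 : x.length < 2 ^ x.length := Nat.lt_two_pow_self
      have h2 : 1 ≤ n := Nat.one_le_two_pow
      have h3 : min n y.length ≤ n := min_le_left _ _
      nlinarith
  rw [hL]
  constructor
  · rintro ⟨w, hw, hw'⟩
    have hw : w.length = n := hw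
    have hl : (w ++ List.replicate (c - n) false).length = c := by
      rw [List.length_append, List.length_replicate, hw]; omega
    refine ⟨w ++ List.replicate (c - n) false, hl, ?_⟩
    beta_reduce
    rw [key _ hl, List.take_left' hw, hw']
  · rintro ⟨y, hy, hy'⟩
    beta_reduce at hy'
    have hy : y.length = c := hy
    rw [key y hy] at hy'
    exact ⟨y.take n, by rw [List.length_take, hy]; exact min_eq_left hnc, hy'⟩

end Pool.Agent.P.MP_e40812_co
end
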