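import Pool.Agent.K.MP_e40812_co.C1
import Pool.Agent.Lib.PolyTime.Cook3

-- part Pool.Agent.P.MP_e40812_co.Digits
section

/-!
Subsets with prescribed intersection sizes with the blocks of three partitions, encoded as a
partition of numbers into triples with prescribed sums.
-/

namespace Pool.Agent.P.MP_e40812_co

open Finset

/-- Items of the first kind. -/
def v1 (p : ℕ × Bool) : ℕ := 8 + p.2.toNat + 512 * p.1

/-- Items of the second kind. -/
def v2 (b : ℕ) (p : ℕ × Bool) : ℕ := 32 + p.2.toNat + 512 * (b * p.1)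

/-- Items of the third kind. -/
def v3 (b : ℕ) (p : ℕ × Bool) : ℕ := 128 + 2 * (!p.2).toNat + 512 * (b * (b * p.1))

/-- The target sums. -/
def tgt (b x y z : ℕ) : ℕ := 170 + 512 * (x + b * (y + b * z))

lemma digit {b x y u v : ℕ} (hx : x < b) (hy : y < b) (h : x + b * u = y + b * v) :
    x = y ∧ u = v := by
  have h1 := congrArg (· % b) h
  simp only [Nat.add_mul_mod_self_left, Nat.mod_eq_of_lt hx, Nat.mod_eq_of_lt hy] at h1
  subst h1
  exact ⟨rfl, Nat.eq_of_mul_eq_mul_left (by omega) (Nat.add_left_cancel h)⟩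

lemma core {b x y z : ℕ} {p q r : ℕ × Bool} (hp : p.1 < b) (hq : q.1 < b) (hx : x < b)
    (hy : y < b) (h : v1 p + v2 b q + v3 b r = tgt b x y z) :
    ∃ σ, p = (x, σ) ∧ q = (y, σ) ∧ r = (z, σ) := by
  obtain ⟨p, s⟩ := p
  obtain ⟨q, t⟩ := q
  obtain ⟨r, u⟩ := r
  simp only [v1, v2, v3, tgt, mul_add] at h
  have h1 : p + b * (q + b * r) = x + b * (y + b * z) ∧ s = t ∧ s = u := by
    simp only [mul_add]
    cases s <;> cases t <;> cases u <;> simp at h ⊢ <;> omega
  obtain ⟨rfl, h2⟩ := digit hp hx h1.1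
  obtain ⟨rfl, rfl⟩ := digit hq hy h2
  exact ⟨s, rfl, by rw [h1.2.1], by rw [h1.2.2]⟩

/-- The shape of an item. -/
def Form (b n : ℕ) : Prop :=
  (∃ p, p.1 < b ∧ v1 p = n) ∨ (∃ p, p.1 < b ∧ v2 b p = n) ∨ ∃ p, v3 b p = n

lemma decode {b x y z : ℕ} {g : Multiset ℕ} (h3 : g.card = 3) (hg : ∀ n ∈ g, Form b n)
    (hx : x < b) (hy : y < b) (h : g.sum = tgt b x y z) :
    ∃ σ, g = {v1 (x, σ)} + {v2 b (y, σ)} + {v3 b (z, σ)} := by
  obtain ⟨k, m, n, rfl⟩ := Multiset.card_eq_three.1 h3
  have h1 := hg k (by simp)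
  have h2 := hg m (by simp)
  have h4 := hg n (by simp)
  simp only [Multiset.insert_eq_cons, Multiset.sum_cons, Multiset.sum_singleton] at h
  simp only [Multiset.insert_eq_cons, ← Multiset.singleton_add]
  rcases h1 with ⟨p, hp, rfl⟩ | ⟨p, hp, rfl⟩ | ⟨p, rfl⟩ <;>
    rcases h2 with ⟨q, hq, rfl⟩ | ⟨q, hq, rfl⟩ | ⟨q, rfl⟩ <;>
    rcases h4 with ⟨r, hr, rfl⟩ | ⟨r, hr, rfl⟩ | ⟨r, rfl⟩
  all_goals try
    (exfalso
     have := Bool.toNat_le p.2
     have := Bool.toNat_le q.2
     have := Bool.toNat_le r.2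
     have := Bool.toNat_le (!p.2)
     have := Bool.toNat_le (!q.2)
     have := Bool.toNat_le (!r.2)
     simp only [v1, v2, v3, tgt] at h
     omega)
  · obtain ⟨σ, rfl, rfl, rfl⟩ := core (z := z) (r := r) hp hq hx hy (by omega)
    exact ⟨σ, by abel⟩
  · obtain ⟨σ, rfl, rfl, rfl⟩ := core (z := z) (r := q) hp hr hx hy (by omega)
    exact ⟨σ, by abel⟩
  · obtain ⟨σ, rfl, rfl, rfl⟩ := core (z := z) (r := r) hq hp hx hy (by omega)
    exact ⟨σ, by abel⟩
  · obtain ⟨σ, rfl, rfl, rfl⟩ := core (z := z) (r := q) hr hp hx hy (by omega)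
    exact ⟨σ, by abel⟩
  · obtain ⟨σ, rfl, rfl, rfl⟩ := core (z := z) (r := p) hq hr hx hy (by omega)
    exact ⟨σ, by abel⟩
  · obtain ⟨σ, rfl, rfl, rfl⟩ := core (z := z) (r := p) hr hq hx hy (by omega)
    exact ⟨σ, by abel⟩

lemma exists_fun {κ α β : Type*} [DecidableEq κ] [DecidableEq α] [Inhabited α] (f : α → β)
    (h : κ → β) (s : Finset κ) : ∀ l : Multiset α, l.map f = s.val.map h →
      ∃ g : κ → α, l = s.val.map g ∧ ∀ k ∈ s, f (g k) = h k := by
  induction s using Finset.induction_on with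
  | empty =>
    intro l hl
    exact ⟨fun _ => default, by simpa using hl, by simp⟩
  | insert k s hk ih =>
    intro l hl
    rw [insert_val_of_notMem hk, Multiset.map_cons] at hl
    obtain ⟨a, ha, h1, h2⟩ := (Multiset.map_eq_cons f l _ _).2 hl
    obtain ⟨g, g1, g2⟩ := ih _ h2
    have hne : ∀ x ∈ s, Function.update g k a x = g x := fun x hx =>
      Function.update_of_ne (fun e : x = k => hk (e ▸ hx)) _ _
    refine ⟨Function.update g k a, ?_, fun x hx => ?_⟩
    · rw [insert_val_of_notMem hk, Multiset.map_cons, Function.update_self,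
        Multiset.map_congr rfl hne, ← g1, Multiset.cons_erase ha]
    · rcases mem_insert.1 hx with rfl | hx
      · rw [Function.update_self, h1]
      · rw [hne x hx, g2 x hx]

lemma sep3 {α : Type*} (c : α → ℕ) {A₁ A₂ A₃ D₁ D₂ D₃ : Multiset α} (a1 : ∀ x ∈ A₁, c x = 1)
    (a2 : ∀ x ∈ A₂, c x = 2) (a3 : ∀ x ∈ A₃, c x = 3) (d1 : ∀ x ∈ D₁, c x = 1)
    (d2 : ∀ x ∈ D₂, c x = 2) (d3 : ∀ x ∈ D₃, c x = 3) (h : A₁ + A₂ + A₃ = D₁ + D₂ + D₃) :
    A₁ = D₁ ∧ A₂ = D₂ ∧ A₃ = D₃ := by
  have key : ∀ {i} {A : Multiset α}, (∀ x ∈ A, c x = i) → ∀ k,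
      A.filter (fun x => c x = k) = if i = k then A else 0 := by
    intro i A hA k
    split_ifs with e
    · exact Multiset.filter_eq_self.2 fun x hx => (hA x hx).trans e
    · exact Multiset.filter_eq_nil.2 fun x hx e' => e ((hA x hx).symm.trans e')
  have := fun k => congrArg (Multiset.filter fun x => c x = k) h
  simp only [Multiset.filter_add, key a1, key a2, key a3, key d1, key d2, key d3] at this
  exact ⟨by simpa using this 1, by simpa using this 2, by simpa using this 3⟩

theorem ts_iff {κ : Type*} [DecidableEq κ] (s : Finset κ) {b : ℕ} (hb : 0 < b) (l₁ l₂ l₃ : κ → ℕ)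
    (d₁ d₂ d₃ : κ → Bool) (h₁ : ∀ k ∈ s, l₁ k < b) (h₂ : ∀ k ∈ s, l₂ k < b) :
    TS (s.val.map (fun k => v1 (l₁ k, d₁ k)) + s.val.map (fun k => v2 b (l₂ k, d₂ k)) +
      s.val.map fun k => v3 b (l₃ k, d₃ k)) (s.val.map fun k => tgt b (l₁ k) (l₂ k) (l₃ k)) ↔
    ∃ σ : κ → Bool, (s.val.map fun k => (l₁ k, σ k)) = (s.val.map fun k => (l₁ k, d₁ k)) ∧
      (s.val.map fun k => (l₂ k, σ k)) = (s.val.map fun k => (l₂ k, d₂ k)) ∧
      (s.val.map fun k => (l₃ k, σ k)) = s.val.map fun k => (l₃ k, d₃ k) := by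
  have hsum : ∀ σ : κ → Bool, (s.val.map fun k =>
      ({v1 (l₁ k, σ k)} + {v2 b (l₂ k, σ k)} + {v3 b (l₃ k, σ k)} : Multiset ℕ)).sum =
      (s.val.map fun k => (l₁ k, σ k)).map v1 + (s.val.map fun k => (l₂ k, σ k)).map (v2 b) +
        (s.val.map fun k => (l₃ k, σ k)).map (v3 b) := by
    intro σ
    rw [← sum_eq_multiset_sum]
    simp only [Multiset.map_map, Function.comp_def]
    simp only [map_val_eq_sum, sum_add_distrib]
  constructor
  · rintro ⟨l, h3, hl, hs⟩
    obtain ⟨g, rfl, hg⟩ := exists_fun _ _ s l hs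
    have key : ∀ k ∈ s, ∃ σ, g k = {v1 (l₁ k, σ)} + {v2 b (l₂ k, σ)} + {v3 b (l₃ k, σ)} := by
      intro k hk
      have hm : g k ∈ s.val.map g := Multiset.mem_map_of_mem _ hk
      refine decode (h3 _ hm) (fun n hn => ?_) (h₁ k hk) (h₂ k hk) (hg k hk)
      have := Multiset.mem_of_le (Multiset.le_sum_of_mem hm) hn
      simp only [hl, Multiset.mem_add, Multiset.mem_map] at this
      rcases this with (⟨i, hi, e⟩ | ⟨i, hi, e⟩) | ⟨i, -, e⟩
      · exact Or.inl ⟨_, h₁ i hi, e⟩
      · exact Or.inr (Or.inl ⟨_, h₂ i hi, e⟩)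
      · exact Or.inr (Or.inr ⟨_, e⟩)
    choose! σ hσ using key
    rw [Multiset.map_congr rfl hσ, hsum] at hl
    obtain ⟨c, hc⟩ : ∃ c : ℕ → ℕ,
      c = fun n => if n % 512 < 16 then 1 else if n % 512 < 64 then 2 else 3 := ⟨_, rfl⟩
    have c1 : ∀ A : Multiset (ℕ × Bool), ∀ x ∈ A.map v1, c x = 1 := fun A x hx => by
      obtain ⟨p, -, rfl⟩ := Multiset.mem_map.1 hx
      have := Bool.toNat_le p.2
      simp only [hc, v1]
      split_ifs <;> omega
    have c2 : ∀ A : Multiset (ℕ × Bool), ∀ x ∈ A.map (v2 b), c x = 2 := fun A x hx => by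
      obtain ⟨p, -, rfl⟩ := Multiset.mem_map.1 hx
      have := Bool.toNat_le p.2
      simp only [hc, v2]
      split_ifs <;> omega
    have c3 : ∀ A : Multiset (ℕ × Bool), ∀ x ∈ A.map (v3 b), c x = 3 := fun A x hx => by
      obtain ⟨p, -, rfl⟩ := Multiset.mem_map.1 hx
      have := Bool.toNat_le (!p.2)
      simp only [hc, v3]
      split_ifs <;> omega
    obtain ⟨e1, e2, e3⟩ := sep3 c (c1 _) (c2 _) (c3 _) (c1 (s.val.map fun k => (l₁ k, d₁ k)))
      (c2 (s.val.map fun k => (l₂ k, d₂ k))) (c3 (s.val.map fun k => (l₃ k, d₃ k)))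
      (hl.trans (by simp only [Multiset.map_map, Function.comp_def]))
    refine ⟨σ, Multiset.map_injective ?_ e1, Multiset.map_injective ?_ e2,
      Multiset.map_injective ?_ e3⟩
    · rintro ⟨x, s⟩ ⟨y, t⟩ h
      simp only [v1] at h
      cases s <;> cases t <;> simp at h ⊢ <;> omega
    · rintro ⟨x, s⟩ ⟨y, t⟩ h
      simp only [v2] at h
      have : b * x = b * y ∧ s = t := by
        generalize b * x = u at h
        generalize b * y = v at h
        cases s <;> cases t <;> simp at h ⊢ <;> omega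
      rw [Nat.eq_of_mul_eq_mul_left hb this.1, this.2]
    · rintro ⟨x, s⟩ ⟨y, t⟩ h
      simp only [v3] at h
      have : b * (b * x) = b * (b * y) ∧ s = t := by
        generalize b * (b * x) = u at h
        generalize b * (b * y) = v at h
        cases s <;> cases t <;> simp at h ⊢ <;> omega
      rw [Nat.eq_of_mul_eq_mul_left hb (Nat.eq_of_mul_eq_mul_left hb this.1), this.2]
  · rintro ⟨σ, e1, e2, e3⟩
    refine ⟨_, fun g hg => ?_, (hsum σ).trans ?_, ?_⟩
    · obtain ⟨k, -, rfl⟩ := Multiset.mem_map.1 hg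
      simp
    · rw [e1, e2, e3]
      simp only [Multiset.map_map, Function.comp_def]
    · rw [Multiset.map_map]
      refine Multiset.map_congr rfl fun k _ => ?_
      simp only [Function.comp, Multiset.sum_add, Multiset.sum_singleton, v1, v2, v3, tgt]
      cases σ k <;> simp <;> ring

end Pool.Agent.P.MP_e40812_co
end

-- part Pool.Agent.P.MP_e40812_co.Sat
section

/-!
Satisfiability of formulas with three literals per clause, as the choice of a subset with
prescribed intersection sizes with the blocks of three partitions.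
-/

namespace Pool.Agent.P.MP_e40812_co

open Finset Pool.Agent.Lib.PolyTime

section Counts

variable {κ : Type*} (s : Finset κ) (l : κ → ℕ) (σ d : κ → Bool)

lemma pairs_eq_iff : (s.val.map fun k => (l k, σ k)) = (s.val.map fun k => (l k, d k)) ↔
    ∀ L, ∑ k ∈ s, (if l k = L ∧ σ k = true then 1 else 0) =
      ∑ k ∈ s, (if l k = L ∧ d k = true then 1 else 0 : ℕ) := by
  have key : ∀ (τ : κ → Bool) (L : ℕ) (t : Bool), (s.val.map fun k => (l k, τ k)).count (L, t) =
      ∑ k ∈ s, if l k = L ∧ τ k = t then 1 else 0 := by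
    intro τ L t
    rw [Multiset.count_map, ← card_filter, ← card_val, filter_val]
    simp only [Prod.mk.injEq, eq_comm]
  have tot : ∀ (τ : κ → Bool) (L : ℕ), ∑ k ∈ s, (if l k = L ∧ τ k = true then 1 else 0) +
      ∑ k ∈ s, (if l k = L ∧ τ k = false then 1 else 0) = ∑ k ∈ s, (if l k = L then 1 else 0 : ℕ) := by
    intro τ L
    rw [← sum_add_distrib]
    exact sum_congr rfl fun k _ => by cases τ k <;> simp
  refine ⟨fun h L => by rw [← key, ← key, h], fun h => ?_⟩
  ext ⟨L, t⟩
  rw [key, key]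
  cases t
  · have h1 := tot σ L
    have h2 := tot d L
    have h3 := h L
    omega
  · exact h L

lemma counts_of_ne_zero (h0 : ∑ k ∈ s, (if σ k = true then 1 else 0) =
      ∑ k ∈ s, (if d k = true then 1 else 0 : ℕ))
    (h : ∀ c, ∑ k ∈ s, (if l k = c + 1 ∧ σ k = true then 1 else 0) =
      ∑ k ∈ s, (if l k = c + 1 ∧ d k = true then 1 else 0 : ℕ)) (L : ℕ) :
    ∑ k ∈ s, (if l k = L ∧ σ k = true then 1 else 0) =
      ∑ k ∈ s, (if l k = L ∧ d k = true then 1 else 0 : ℕ) := by
  rcases L with _ | c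
  · have key : ∀ τ : κ → Bool, ∑ k ∈ s, (if τ k = true then 1 else 0 : ℕ) =
        ∑ k ∈ s, (if l k = 0 ∧ τ k = true then 1 else 0) +
        ∑ c ∈ range (s.sup l), ∑ k ∈ s, (if l k = c + 1 ∧ τ k = true then 1 else 0) := by
      intro τ
      rw [add_comm, ← sum_range_succ' (fun L => ∑ k ∈ s, if l k = L ∧ τ k = true then 1 else 0),
        sum_comm]
      refine sum_congr rfl fun k hk => ?_
      rw [sum_eq_single_of_mem (l k) (mem_range.2 (Nat.lt_succ_of_le (le_sup hk)))
        fun L _ hL => if_neg fun e => hL e.1.symm]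
      simp
    have h1 := key σ
    have h2 := key d
    rw [sum_congr rfl fun c _ => h c] at h1
    omega
  · exact h c

end Counts

lemma sum_rot (K : ℕ) (g : ℕ → ℕ) : ∑ i ∈ range K, g ((i + 1) % K) = ∑ i ∈ range K, g i := by
  rcases K with _ | K
  · simp
  · rw [sum_range_succ, sum_range_succ' g, Nat.mod_self]
    congr 1
    exact sum_congr rfl fun i hi => by rw [Nat.mod_eq_of_lt (by simpa using hi)]

lemma sum_five (C c : ℕ) (τ : ℕ → Bool) :
    ∑ i ∈ range (5 * C), (if i / 5 = c ∧ τ i = true then 1 else 0 : ℕ) =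
      if c < C then (τ (5 * c)).toNat + (τ (5 * c + 1)).toNat + (τ (5 * c + 2)).toNat +
        (τ (5 * c + 3)).toNat + (τ (5 * c + 4)).toNat else 0 := by
  induction C with
  | zero => simp
  | succ C ih =>
    rw [show 5 * (C + 1) = 5 * C + 1 + 1 + 1 + 1 + 1 by ring]
    simp only [sum_range_succ, ih]
    have e : ∀ b : Bool, (if b = true then 1 else 0) = b.toNat := fun b => by cases b <;> rfl
    rw [show 5 * C / 5 = C by omega, show (5 * C + 1) / 5 = C by omega,
      show (5 * C + 1 + 1) / 5 = C by omega, show (5 * C + 1 + 1 + 1) / 5 = C by omega,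
      show (5 * C + 1 + 1 + 1 + 1) / 5 = C by omega]
    by_cases h : C = c
    · subst h
      simp [e]
    · simp only [h, false_and, if_false, add_zero]
      congr 1
      exact propext (by omega)

/-- The literal at slot `j`; every clause has five slots, the last two are auxiliary. -/
def lit (φ : CNF) (j : ℕ) : ℕ × Bool := (φ.getD (j / 5) []).getD (j % 5) (0, true)

/-- The variable at slot `j`. -/
def key (φ : CNF) (j : ℕ) : ℕ := if j % 5 < 3 then 2 * (lit φ j).1 else 2 * j + 1

/-- The rank of a variable. -/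
def rank (φ : CNF) (k : ℕ) : ℕ := (List.range (5 * φ.length)).countP fun i => decide (key φ i < k)

/-- First partition. -/
def l1 (K : ℕ) (k : ℕ × ℕ × Bool) : ℕ := k.2.1 + K * k.1

/-- Second partition. -/
def l2 (K : ℕ) (k : ℕ × ℕ × Bool) : ℕ := (if k.2.2 = true then (k.2.1 + 1) % K else k.2.1) + K * k.1

/-- Third partition. -/
def l3 (φ : CNF) (k : ℕ × ℕ × Bool) : ℕ :=
  if k.1 = rank φ (key φ k.2.1) ∧ k.2.2 = !(lit φ k.2.1).2 then k.2.1 / 5 + 1 else 0

/-- A subset with the prescribed sizes for the third partition. -/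
def d3 (φ : CNF) (k : ℕ × ℕ × Bool) : Bool :=
  if k.1 = rank φ (key φ k.2.1) then decide (k.2.2 = !(lit φ k.2.1).2 ↔ k.2.1 % 5 < 3) else !k.2.2

/-- The ground set. -/
def bins (K : ℕ) : Finset (ℕ × ℕ × Bool) := range K ×ˢ range K ×ˢ univ

lemma mem_bins {K : ℕ} {k : ℕ × ℕ × Bool} : k ∈ bins K ↔ k.1 < K ∧ k.2.1 < K := by simp [bins]

lemma sum_bins (K : ℕ) (f : ℕ × ℕ × Bool → ℕ) : ∑ k ∈ bins K, f k =
    ∑ v ∈ range K, ∑ i ∈ range K, (f (v, i, true) + f (v, i, false)) := by
  simp only [bins, sum_product, Fintype.sum_bool]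

lemma rank_eq (φ : CNF) (k : ℕ) :
    rank φ k = ((range (5 * φ.length)).filter fun i => key φ i < k).card := by
  rw [rank, List.countP_eq_length_filter]
  rfl

lemma rank_lt_rank {φ : CNF} {i k : ℕ} (hi : i < 5 * φ.length) (h : key φ i < k) :
    rank φ (key φ i) < rank φ k := by
  rw [rank_eq, rank_eq]
  refine card_lt_card ⟨fun x hx => ?_, fun hh => ?_⟩
  · rw [mem_filter] at hx ⊢
    exact ⟨hx.1, hx.2.trans h⟩
  · simpa using hh (mem_filter.2 ⟨mem_range.2 hi, h⟩)

lemma rank_lt {φ : CNF} {i : ℕ} (hi : i < 5 * φ.length) : rank φ (key φ i) < 5 * φ.length := by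
  refine (rank_lt_rank hi (Nat.lt_succ_self _)).trans_le ?_
  rw [rank_eq]
  exact (card_filter_le _ _).trans (card_range _).le

lemma rank_inj {φ : CNF} {i j : ℕ} (hi : i < 5 * φ.length) (hj : j < 5 * φ.length)
    (h : rank φ (key φ i) = rank φ (key φ j)) : key φ i = key φ j := by
  rcases lt_trichotomy (key φ i) (key φ j) with k | k | k
  · exact absurd h (rank_lt_rank hi k).ne
  · exact k
  · exact absurd h (rank_lt_rank hj k).ne'

lemma cnt3 (φ : CNF) (τ : ℕ × ℕ × Bool → Bool) (c : ℕ) :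
    ∑ k ∈ bins (5 * φ.length), (if l3 φ k = c + 1 ∧ τ k = true then 1 else 0 : ℕ) =
      ∑ i ∈ range (5 * φ.length),
        if i / 5 = c ∧ τ (rank φ (key φ i), i, !(lit φ i).2) = true then 1 else 0 := by
  rw [sum_bins, sum_comm]
  refine sum_congr rfl fun i hi => ?_
  rw [sum_eq_single_of_mem (rank φ (key φ i)) (mem_range.2 (rank_lt (mem_range.1 hi)))
    fun v _ hv => by simp [l3, hv]]
  cases h : (lit φ i).2 <;> simp [l3, h]

lemma cnt_d3 (φ : CNF) (c : ℕ) :
    ∑ k ∈ bins (5 * φ.length), (if l3 φ k = c + 1 ∧ d3 φ k = true then 1 else 0 : ℕ) =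
      if c < φ.length then 3 else 0 := by
  rw [cnt3, sum_five]
  simp [d3, Nat.add_mod]

lemma sat_iff_key {φ : CNF} (h3 : ∀ c ∈ φ, c.length = 3) : φ.Sat ↔ ∃ γ : ℕ → Bool, ∀ c < φ.length,
    (γ (key φ (5 * c)) == (lit φ (5 * c)).2).toNat +
    (γ (key φ (5 * c + 1)) == (lit φ (5 * c + 1)).2).toNat +
    (γ (key φ (5 * c + 2)) == (lit φ (5 * c + 2)).2).toNat +
    (γ (key φ (5 * c + 3)) == (lit φ (5 * c + 3)).2).toNat +
    (γ (key φ (5 * c + 4)) == (lit φ (5 * c + 4)).2).toNat = 3 := by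
  have hl : ∀ c (hc : c < φ.length), φ[c] = [lit φ (5 * c), lit φ (5 * c + 1), lit φ (5 * c + 2)] ∧
      (lit φ (5 * c + 3)).2 = true ∧ (lit φ (5 * c + 4)).2 = true := by
    intro c hc
    obtain ⟨x, y, z, e⟩ := List.length_eq_three.1 (h3 _ (List.getElem_mem hc))
    simp only [lit, show 5 * c / 5 = c by omega, show (5 * c + 1) / 5 = c by omega,
      show (5 * c + 2) / 5 = c by omega, show (5 * c + 3) / 5 = c by omega,
      show (5 * c + 4) / 5 = c by omega, show 5 * c % 5 = 0 by omega,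
      show (5 * c + 1) % 5 = 1 by omega, show (5 * c + 2) % 5 = 2 by omega,
      show (5 * c + 3) % 5 = 3 by omega, show (5 * c + 4) % 5 = 4 by omega,
      List.getD_eq_getElem _ _ hc, e]
    simp
  have hk : ∀ c, key φ (5 * c) = 2 * (lit φ (5 * c)).1 ∧
      key φ (5 * c + 1) = 2 * (lit φ (5 * c + 1)).1 ∧
      key φ (5 * c + 2) = 2 * (lit φ (5 * c + 2)).1 ∧
      key φ (5 * c + 3) = 2 * (5 * c + 3) + 1 ∧ key φ (5 * c + 4) = 2 * (5 * c + 4) + 1 :=
    fun c => ⟨if_pos (by omega), if_pos (by omega), if_pos (by omega), if_neg (by omega),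
      if_neg (by omega)⟩
  constructor
  · rintro ⟨v, hv⟩
    obtain ⟨t, ht⟩ : ∃ t : ℕ → ℕ, t = fun c => (v (lit φ (5 * c)).1 == (lit φ (5 * c)).2).toNat +
      (v (lit φ (5 * c + 1)).1 == (lit φ (5 * c + 1)).2).toNat +
      (v (lit φ (5 * c + 2)).1 == (lit φ (5 * c + 2)).2).toNat := ⟨_, rfl⟩
    refine ⟨fun k => if k % 2 = 0 then v (k / 2) else decide (t (k / 10) + k / 2 % 5 ≤ 5),
      fun c hc => ?_⟩
    obtain ⟨k0, k1, k2, k3, k4⟩ := hk c
    obtain ⟨e, e3, e4⟩ := hl c hc
    have h1 := hv _ (List.getElem_mem hc)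
    simp only [k0, k1, k2, k3, k4, e3, e4, Nat.mul_mod_right, if_true, Nat.mul_add_mod,
      Nat.mul_div_cancel_left _ (show 0 < 2 by omega), Nat.one_mod, one_ne_zero, if_false,
      show (2 * (5 * c + 3) + 1) / 10 = c by omega, show (2 * (5 * c + 4) + 1) / 10 = c by omega,
      show (2 * (5 * c + 3) + 1) / 2 % 5 = 3 by omega,
      show (2 * (5 * c + 4) + 1) / 2 % 5 = 4 by omega, ht]
    simp only [e, List.mem_cons, List.not_mem_nil, or_false, exists_eq_or_imp,
      exists_eq_left] at h1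
    rw [← beq_iff_eq, ← beq_iff_eq (a := v (lit φ (5 * c + 1)).1),
      ← beq_iff_eq (a := v (lit φ (5 * c + 2)).1)] at h1
    generalize (v (lit φ (5 * c)).1 == (lit φ (5 * c)).2) = x0 at h1 ⊢
    generalize (v (lit φ (5 * c + 1)).1 == (lit φ (5 * c + 1)).2) = x1 at h1 ⊢
    generalize (v (lit φ (5 * c + 2)).1 == (lit φ (5 * c + 2)).2) = x2 at h1 ⊢
    revert x0 x1 x2
    decide
  · rintro ⟨γ, hγ⟩
    refine ⟨fun x => γ (2 * x), fun cl hcl => ?_⟩
    obtain ⟨c, hc, rfl⟩ := List.getElem_of_mem hcl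
    obtain ⟨k0, k1, k2, -⟩ := hk c
    have h1 := hγ c hc
    rw [k0, k1, k2] at h1
    by_contra hn
    simp only [(hl c hc).1, List.mem_cons, List.not_mem_nil, or_false, exists_eq_or_imp,
      exists_eq_left, not_or] at hn
    rw [beq_eq_false_iff_ne.2 hn.1, beq_eq_false_iff_ne.2 hn.2.1,
      beq_eq_false_iff_ne.2 hn.2.2] at h1
    have h2 := Bool.toNat_le (γ (key φ (5 * c + 3)) == (lit φ (5 * c + 3)).2)
    have h4 := Bool.toNat_le (γ (key φ (5 * c + 4)) == (lit φ (5 * c + 4)).2)
    simp only [Bool.toNat_false] at h1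
    omega

lemma two_of_pairs {κ : Type*} {s : Finset κ} {l : κ → ℕ} {σ d : κ → Bool}
    (h : (s.val.map fun k => (l k, σ k)) = s.val.map fun k => (l k, d k)) {a b : κ} (ha : a ∈ s)
    (hb : b ∈ s) (hab : l b = l a) (da : d a = true) (db : d b = false)
    (hf : ∀ k ∈ s, l k = l a → k = a ∨ k = b) : σ b = !σ a := by
  have h1 : (l a, d a) ∈ s.val.map fun k => (l k, σ k) := h ▸ Multiset.mem_map_of_mem _ ha
  have h2 : (l b, d b) ∈ s.val.map fun k => (l k, σ k) := h ▸ Multiset.mem_map_of_mem _ hb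
  obtain ⟨x, hx, e1⟩ := Multiset.mem_map.1 h1
  obtain ⟨y, hy, e2⟩ := Multiset.mem_map.1 h2
  rw [Prod.mk.injEq, da] at e1
  rw [Prod.mk.injEq, db, hab] at e2
  rcases hf x hx e1.1 with rfl | rfl <;> rcases hf y hy e2.1 with rfl | rfl <;> simp_all

theorem sat_iff_parts {φ : CNF} (h3 : ∀ c ∈ φ, c.length = 3) {K : ℕ} (hK : K = 5 * φ.length) :
    φ.Sat ↔ ∃ σ : ℕ × ℕ × Bool → Bool,
      ((bins K).val.map fun k => (l1 K k, σ k)) = ((bins K).val.map fun k => (l1 K k, !k.2.2)) ∧
      ((bins K).val.map fun k => (l2 K k, σ k)) = ((bins K).val.map fun k => (l2 K k, !k.2.2)) ∧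
      ((bins K).val.map fun k => (l3 φ k, σ k)) = (bins K).val.map fun k => (l3 φ k, d3 φ k) := by
  rw [sat_iff_key h3]
  constructor
  · rintro ⟨γ, hγ⟩
    classical
    obtain ⟨α, hα⟩ : ∃ α : ℕ → Bool, ∀ i < K, α (rank φ (key φ i)) = γ (key φ i) := by
      refine ⟨fun v => decide (∃ j < K, rank φ (key φ j) = v ∧ γ (key φ j) = true), fun i hi => ?_⟩
      rw [Bool.eq_iff_iff, decide_eq_true_iff]
      exact ⟨fun ⟨j, hj, e, h⟩ => rank_inj (hK ▸ hj) (hK ▸ hi) e ▸ h, fun h => ⟨i, hi, rfl, h⟩⟩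
    refine ⟨fun k => α k.1 != k.2.2, (pairs_eq_iff _ _ _ _).2 fun L => ?_,
      (pairs_eq_iff _ _ _ _).2 fun L => ?_,
      (pairs_eq_iff _ _ _ _).2 (counts_of_ne_zero _ _ _ _ ?_ fun c => ?_)⟩
    · rw [sum_bins, sum_bins]
      refine sum_congr rfl fun v _ => sum_congr rfl fun i _ => ?_
      cases α v <;> simp [l1]
    · rw [sum_bins, sum_bins]
      refine sum_congr rfl fun v _ => ?_
      have := sum_rot K fun i => if i + K * v = L then 1 else 0
      cases h : α v
      · simpa [l2, h] using this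
      · simp [l2, h]
    · rw [sum_bins, sum_bins]
      refine sum_congr rfl fun v _ => sum_congr rfl fun i _ => ?_
      by_cases h1 : v = rank φ (key φ i) <;> by_cases h2 : i % 5 < 3 <;> cases α v <;>
        cases h : (lit φ i).2 <;> simp [d3, h1, h2, h]
    · rw [hK, cnt_d3, cnt3, sum_five]
      split_ifs with hc
      · rw [hα _ (by omega), hα _ (by omega), hα _ (by omega), hα _ (by omega), hα _ (by omega)]
        have : ∀ x y : Bool, (x != !y) = (x == y) := by decide
        simp only [this]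
        exact hγ c hc
      · rfl
  · rintro ⟨σ, e1, e2, e3⟩
    have a1 : ∀ v < K, ∀ i < K, σ (v, i, true) = !σ (v, i, false) := fun v hv i hi =>
      two_of_pairs e1 (mem_bins.2 ⟨hv, hi⟩) (mem_bins.2 ⟨hv, hi⟩) rfl rfl rfl (by
        rintro ⟨u, j, e⟩ hk h
        obtain ⟨rfl, rfl⟩ := digit (mem_bins.1 hk).2 hi h
        cases e <;> simp)
    have a2 : ∀ v < K, ∀ i, i + 1 < K → σ (v, i, true) = !σ (v, i + 1, false) := fun v hv i hi =>
      two_of_pairs e2 (mem_bins.2 ⟨hv, hi⟩) (mem_bins.2 ⟨hv, Nat.lt_of_succ_lt hi⟩)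
        (by simp [l2, Nat.mod_eq_of_lt hi]) rfl rfl (by
        rintro ⟨u, j, e⟩ hk h
        have hj : j < K := (mem_bins.1 hk).2
        cases e
        · obtain ⟨rfl, rfl⟩ := digit (x := j) hj hi h
          simp
        · obtain ⟨h1, rfl⟩ := digit (x := (j + 1) % K) (Nat.mod_lt _ (by omega)) hi h
          have : j = i := by
            rcases Nat.lt_or_ge (j + 1) K with k | k
            · rw [Nat.mod_eq_of_lt k] at h1
              omega
            · rw [show j + 1 = K by omega, Nat.mod_self] at h1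
              omega
          simp [this])
    have a3 : ∀ v < K, ∀ i < K, σ (v, i, false) = σ (v, 0, false) := by
      intro v hv i
      induction i with
      | zero => exact fun _ => rfl
      | succ i ih =>
        intro hi
        rw [← ih (by omega)]
        exact Bool.not_inj ((a2 v hv i hi).symm.trans (a1 v hv i (by omega)))
    have a4 : ∀ i < K, σ (rank φ (key φ i), i, !(lit φ i).2) =
        (σ (rank φ (key φ i), 0, false) == (lit φ i).2) := by
      intro i hi
      have hv : rank φ (key φ i) < K := hK ▸ rank_lt (hK ▸ hi)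
      cases (lit φ i).2
      · rw [Bool.not_false, a1 _ hv i hi, a3 _ hv i hi]
        simp
      · rw [Bool.not_true, a3 _ hv i hi]
        simp
    refine ⟨fun k => σ (rank φ k, 0, false), fun c hc => ?_⟩
    have h := (pairs_eq_iff _ _ _ _).1 e3 (c + 1)
    rw [hK, cnt_d3, cnt3, sum_five, if_pos hc, if_pos hc, a4 _ (by omega), a4 _ (by omega),
      a4 _ (by omega), a4 _ (by omega), a4 _ (by omega)] at h
    exact h

end Pool.Agent.P.MP_e40812_co
end

-- part Pool.Agent.P.MP_e40812_co.Hard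
section

/-!
The reduction from satisfiability to the recognition of face vectors.
-/

namespace Pool.Agent.P.MP_e40812_co

open Pool.Agent.Lib.PolyTime N68a2faeb

/-- List form of the degrees of the unweighted base vertices. -/
def zzL (m : ℕ) : List ℕ :=
  [4 * (m + 4), 4 * (m + 4), 16, 12, 12] ++ List.replicate m 16 ++ List.replicate (m + 6) 6 ++
    List.replicate (3 * m + 18) 3

/-- List form of the degrees created by repeated subdivision of `f` triangles. -/
def levL (f j : ℕ) : List ℕ :=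
  (List.range j).flatMap fun n => List.replicate (f * 3 ^ min n j) (3 * 2 ^ (j - 1 - n))

/-- The list of face sizes attached to items `a`, targets `B` and depth `j`. -/
def degL (a B : List ℕ) (j : ℕ) : List ℕ :=
  (zzL B.length).map (fun x => 2 ^ j * x) ++ B.map (fun x => 2 ^ j * 6 + x) ++
    a.map (fun x => 2 ^ j * 3 + x) ++ levL (18 * B.length + 54) j ++ List.replicate a.sum 4

lemma coe_zzL (m : ℕ) : (zzL m : Multiset ℕ) = zz m := rfl

lemma coe_levL (j : ℕ) : ∀ f, (levL f j : Multiset ℕ) = f • lev j := by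
  induction j with
  | zero => simp [levL, lev]
  | succ j ih =>
    intro f
    rw [lev, nsmul_add, Multiset.nsmul_singleton, smul_smul, ← ih, levL, List.range_succ_eq_map,
      List.flatMap_cons, List.flatMap_map, ← Multiset.coe_add, levL]
    congr 2
    · simp
    · refine List.flatMap_congr fun n _ => ?_
      rw [Nat.succ_eq_add_one, Nat.add_min_add_right, pow_succ', mul_assoc,
        show j + 1 - 1 - (n + 1) = j - 1 - n by omega]

lemma coe_degL (a B : List ℕ) (j : ℕ) : (degL a B j : Multiset ℕ) =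
    top (2 ^ j) (zz B.length) a B + (18 * B.length + 54) • lev j + Multiset.replicate a.sum 4 := by
  rw [← coe_levL, ← coe_zzL]
  rfl

lemma lev_sum (j : ℕ) : (lev j).sum + 3 * 2 ^ j = 6 * (lev j).card + 3 := by
  induction j with
  | zero => rfl
  | succ j ih =>
    simp only [lev, Multiset.sum_add, Multiset.sum_singleton, Multiset.sum_nsmul, smul_eq_mul,
      Multiset.card_add, Multiset.card_singleton, Multiset.card_nsmul]
    omega

lemma zz_spec (m : ℕ) : (∀ x ∈ zz m, 3 ≤ x) ∧ (zz m).card = 5 * m + 29 ∧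
    (zz m).sum = 39 * m + 162 := by
  refine ⟨fun x hx => ?_, ?_, ?_⟩
  · simp only [zz, Multiset.mem_add, Multiset.mem_replicate, Multiset.insert_eq_cons,
      Multiset.mem_cons, Multiset.mem_singleton] at hx
    omega
  · simp only [zz, Multiset.card_add, Multiset.card_replicate, Multiset.insert_eq_cons,
      Multiset.card_cons, Multiset.card_singleton]
    omega
  · simp only [zz, Multiset.sum_add, Multiset.sum_replicate, Multiset.insert_eq_cons,
      Multiset.sum_cons, Multiset.sum_singleton, smul_eq_mul]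
    omega

theorem degL_spec {a B : List ℕ} {j : ℕ} (hj : j ≠ 0) (ha : ∀ x ∈ a, 0 < x ∧ x < 2 ^ j)
    (hB : ∀ x ∈ B, 0 < x ∧ x < 2 ^ j) (hc : a.length = 3 * B.length) (hs : a.sum = B.sum) :
    (∀ n ∈ degL a B j, 3 ≤ n) ∧ (degL a B j).sum + 12 = 6 * (degL a B j).length ∧
      (TS a B ↔ ∃ P, IsPolyhedron P ∧ ∀ n, 3 ≤ n → faceCount P n = (degL a B j).count n) := by
  obtain ⟨z1, z2, z3⟩ := zz_spec B.length
  have h2 := Nat.two_pow_pos j
  have h3 : ∀ n ∈ (degL a B j : Multiset ℕ), 3 ≤ n := by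
    intro n hn
    simp only [coe_degL, top, Multiset.mem_add, Multiset.mem_map] at hn
    rcases hn with (((⟨x, hx, rfl⟩ | ⟨x, -, rfl⟩) | ⟨x, -, rfl⟩) | hn) | hn
    · exact (z1 x hx).trans (Nat.le_mul_of_pos_left _ h2)
    · omega
    · omega
    · exact (lev_dvd j n (Multiset.mem_of_mem_nsmul hn)).1
    · rw [Multiset.eq_of_mem_replicate hn]
      omega
  have h4 : (degL a B j : Multiset ℕ).sum + 12 = 6 * (degL a B j : Multiset ℕ).card := by
    have := lev_sum j
    have e1 : ∀ (c : ℕ) (s : Multiset ℕ), (s.map fun x => c + x).sum = s.card * c + s.sum := by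
      intro c s
      rw [Multiset.sum_map_add, Multiset.map_id', Multiset.map_const', Multiset.sum_replicate,
        smul_eq_mul]
    have e2 : ((zz B.length).map fun x => 2 ^ j * x).sum = 2 ^ j * (zz B.length).sum := by
      rw [Multiset.sum_map_mul_left, Multiset.map_id']
    simp only [coe_degL, top, Multiset.sum_add, Multiset.card_add, Multiset.card_map, e1, e2,
      Multiset.sum_replicate, Multiset.sum_nsmul, Multiset.card_nsmul, Multiset.card_replicate,
      smul_eq_mul, z2, z3, Multiset.coe_card, Multiset.sum_coe, hc, hs]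
    generalize (lev j).sum = S at *
    generalize B.sum = R at *
    zify at this ⊢
    linear_combination (18 * B.length + 54) * this
  refine ⟨h3, by simpa using h4, fun h => ?_, ?_⟩
  · obtain ⟨V, F, k1, k2, k3⟩ := build hj h
    obtain ⟨P, hP, hP'⟩ := poly_of_geo k1 k2
    refine ⟨P, hP, fun n _ => ?_⟩
    rw [hP', k3, ← Multiset.coe_count, coe_degL]
    rfl
  · rintro ⟨P, hP, hP'⟩
    obtain ⟨V, F, k1, k2⟩ := tri_of_poly hP h3 (fun n hn => by rw [hP' n hn, Multiset.coe_count]) h4
    exact rigid k1 hj z1 ha hB hc (by omega) (by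
      rw [Multiset.coe_card]
      omega) (by
      rw [Multiset.coe_card, Multiset.coe_card]
      omega) (k2.trans (coe_degL a B j))

/-- List form of the ground set. -/
def binsL (K : ℕ) : List (ℕ × ℕ × Bool) :=
  (List.range K).flatMap fun v => ((List.range K).flatMap fun i => [(i, true), (i, false)]).map
    fun p => (v, p)

lemma coe_binsL (K : ℕ) : (binsL K : Multiset (ℕ × ℕ × Bool)) = (bins K).val := by
  rw [bins, Finset.product_val, Finset.product_val,
    show (Finset.range K).val = (List.range K : Multiset ℕ) from rfl,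
    show (Finset.univ : Finset Bool).val = ([true, false] : Multiset Bool) from rfl,
    Multiset.coe_product, Multiset.coe_product]
  rfl

lemma mem_binsL {K : ℕ} {k : ℕ × ℕ × Bool} (h : k ∈ binsL K) : k ∈ bins K := by
  rwa [← Multiset.mem_coe, coe_binsL] at h

/-- The base of the digit expansion. -/
def base (φ : CNF) : ℕ := 5 * φ.length * (5 * φ.length) + 1

/-- The items. -/
def items (φ : CNF) : List ℕ :=
  (binsL (5 * φ.length)).map (fun k => v1 (l1 (5 * φ.length) k, !k.2.2)) ++
    (binsL (5 * φ.length)).map (fun k => v2 (base φ) (l2 (5 * φ.length) k, !k.2.2)) ++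
    (binsL (5 * φ.length)).map fun k => v3 (base φ) (l3 φ k, d3 φ k)

/-- The targets. -/
def targets (φ : CNF) : List ℕ :=
  (binsL (5 * φ.length)).map fun k =>
    tgt (base φ) (l1 (5 * φ.length) k) (l2 (5 * φ.length) k) (l3 φ k)

/-- A bound for all items and targets. -/
def bound (φ : CNF) : ℕ := 512 * (base φ * (base φ * base φ))

/-- The reduction. -/
def red (φ : CNF) : List ℕ := degL (items φ) (targets φ) (bound φ).size

lemma labels_lt {φ : CNF} {k : ℕ × ℕ × Bool} (hk : k ∈ bins (5 * φ.length)) :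
    l1 (5 * φ.length) k < base φ ∧ l2 (5 * φ.length) k < base φ ∧ l3 φ k < base φ := by
  obtain ⟨h1, h2⟩ := mem_bins.1 hk
  unfold base l1 l2 l3
  generalize 5 * φ.length = K at *
  have h3 := Nat.mul_le_mul_left K (Nat.succ_le_of_lt h1)
  have h4 := Nat.mod_lt (k.2.1 + 1) (show 0 < K by omega)
  have h5 := Nat.le_mul_self K
  rw [Nat.mul_succ] at h3
  refine ⟨by omega, ?_, ?_⟩ <;> split_ifs <;> omega

lemma digits_lt {b x y z : ℕ} (hx : x < b) (hy : y < b) (hz : z < b) :
    x + b * (y + b * z) < b * (b * b) := by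
  have h1 := Nat.mul_le_mul_left b (Nat.succ_le_of_lt hz)
  have h2 := Nat.mul_le_mul_left b (show y + b * z + 1 ≤ b * b by rw [Nat.mul_succ] at h1; omega)
  rw [Nat.mul_succ] at h2
  omega

lemma items_lt (φ : CNF) : ∀ x ∈ items φ, 0 < x ∧ x < bound φ := by
  intro x hx
  have hb : 0 < base φ := Nat.succ_pos _
  simp only [items, List.mem_append, List.mem_map] at hx
  rcases hx with (⟨k, hk, rfl⟩ | ⟨k, hk, rfl⟩) | ⟨k, hk, rfl⟩
  · have h1 := digits_lt (labels_lt (mem_binsL hk)).1 hb hb
    have h2 := Bool.toNat_le (!k.2.2)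
    simp only [v1, bound, mul_zero, add_zero] at *
    omega
  · have h1 := digits_lt hb (labels_lt (mem_binsL hk)).2.1 hb
    have h2 := Bool.toNat_le (!k.2.2)
    simp only [v2, bound, mul_zero, add_zero] at *
    omega
  · have h1 := digits_lt hb hb (labels_lt (mem_binsL hk)).2.2
    have h2 := Bool.toNat_le (!d3 φ k)
    simp only [v3, bound, zero_add] at *
    omega

lemma targets_lt (φ : CNF) : ∀ x ∈ targets φ, 0 < x ∧ x < bound φ := by
  intro x hx
  obtain ⟨k, hk, rfl⟩ := List.mem_map.1 hx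
  obtain ⟨h1, h2, h3⟩ := labels_lt (mem_binsL hk)
  have h1 := digits_lt h1 h2 h3
  simp only [tgt, bound]
  omega

lemma sum_items (φ : CNF) : (items φ).sum = (targets φ).sum := by
  have e : ∀ f : ℕ × ℕ × Bool → ℕ, ((binsL (5 * φ.length)).map f).sum =
      ∑ k ∈ bins (5 * φ.length), f k := fun f => by
    rw [Finset.sum_eq_multiset_sum, ← coe_binsL]
    rfl
  simp only [items, targets, List.sum_append, e, ← Finset.sum_add_distrib, sum_bins]
  refine Finset.sum_congr rfl fun v _ => Finset.sum_congr rfl fun i _ => ?_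
  have : (!d3 φ (v, i, true)).toNat + (!d3 φ (v, i, false)).toNat = 1 := by
    by_cases h1 : v = rank φ (key φ i) <;> by_cases h2 : i % 5 < 3 <;>
      cases h : (lit φ i).2 <;> simp [d3, h1, h2, h]
  simp only [v1, v2, v3, tgt, mul_add, Bool.not_true, Bool.not_false, Bool.toNat_true,
    Bool.toNat_false]
  omega

theorem red_spec {φ : CNF} (h3 : ∀ c ∈ φ, c.length = 3) : (∀ n ∈ red φ, 3 ≤ n) ∧
    (red φ).sum + 12 = 6 * (red φ).length ∧
    (φ.Sat ↔ ∃ P, IsPolyhedron P ∧ ∀ n, 3 ≤ n → faceCount P n = (red φ).count n) := by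
  have hb : 0 < base φ := Nat.succ_pos _
  have h1 := Nat.lt_size_self (bound φ)
  have h := degL_spec (a := items φ) (B := targets φ) (j := (bound φ).size)
    (by
      rw [Ne, Nat.size_eq_zero]
      unfold bound
      positivity)
    (fun x hx => ⟨(items_lt φ x hx).1, (items_lt φ x hx).2.trans h1⟩)
    (fun x hx => ⟨(targets_lt φ x hx).1, (targets_lt φ x hx).2.trans h1⟩)
    (by
      simp only [items, targets, List.length_append, List.length_map]
      omega) (sum_items φ)
  refine ⟨h.1, h.2.1, Iff.trans ?_ h.2.2⟩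
  rw [sat_iff_parts h3 rfl, ← ts_iff _ hb _ _ _ _ _ _ (fun k hk => (labels_lt hk).1)
    fun k hk => (labels_lt hk).2.1, ← coe_binsL]
  rfl

section
variable {α : Type} [N487b59b3 α]

@[fun_prop] theorem pt_lit {f : α → CNF} {j : α → ℕ} (hf : PT f) (hj : PT j) :
    PT fun a => lit (f a) (j a) := by
  unfold lit; fun_prop

@[fun_prop] theorem pt_key {f : α → CNF} {j : α → ℕ} (hf : PT f) (hj : PT j) :
    PT fun a => key (f a) (j a) := by
  unfold key; fun_prop

attribute [local irreducible] lit key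

@[fun_prop] theorem pt_rank {f : α → CNF} {j : α → ℕ} (hf : PT f) (hj : PT j) :
    PT fun a => rank (f a) (j a) := by
  unfold rank; fun_prop

attribute [local irreducible] rank

@[fun_prop] theorem pt_l1 {K : α → ℕ} {k : α → ℕ × ℕ × Bool} (hK : PT K) (hk : PT k) :
    PT fun a => l1 (K a) (k a) := by
  unfold l1; fun_prop

@[fun_prop] theorem pt_l2 {K : α → ℕ} {k : α → ℕ × ℕ × Bool} (hK : PT K) (hk : PT k) :
    PT fun a => l2 (K a) (k a) := by
  unfold l2; fun_prop

@[fun_prop] theorem pt_l3 {f : α → CNF} {k : α → ℕ × ℕ × Bool} (hf : PT f) (hk : PT k) :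
    PT fun a => l3 (f a) (k a) := by
  unfold l3; fun_prop

@[fun_prop] theorem pt_d3 {f : α → CNF} {k : α → ℕ × ℕ × Bool} (hf : PT f) (hk : PT k) :
    PT fun a => d3 (f a) (k a) := by
  unfold d3; fun_prop

@[fun_prop] theorem pt_binsL {K : α → ℕ} (hK : PT K) (hs : Small K) :
    PT fun a => binsL (K a) := by
  unfold binsL; fun_prop

@[fun_prop] theorem pt_base {f : α → CNF} (hf : PT f) : PT fun a => base (f a) := by
  unfold base; fun_prop

attribute [local irreducible] l1 l2 l3 d3 binsL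

theorem pt_items : PT items := by
  unfold items v1 v2 v3; fun_prop

theorem pt_targets : PT targets := by
  unfold targets tgt; fun_prop

theorem pt_bound : PT bound := by
  unfold bound; fun_prop

theorem small_bound : Small bound := by
  unfold bound base; fun_prop

theorem pt_levL {f j : α → ℕ} (hf : PT f) (hf' : Small f) (hj : PT j)
    (hj' : Small fun a => 2 ^ j a) : PT fun a => levL (f a) (j a) := by
  have h1 : Small j := hj'.mono fun _ => Nat.lt_two_pow_self.le
  have h2 : Small fun p : α × ℕ => 3 ^ min p.2 (j p.1) := by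
    have h3 : Small fun p : α × ℕ => 2 ^ j p.1 * 2 ^ j p.1 := by
      have : Small fun p : α × ℕ => 2 ^ j p.1 := hj'.comp (g := Prod.fst) (by fun_prop)
      exact this.mul this
    refine h3.mono fun p => ?_
    rw [← mul_pow]
    exact (Nat.pow_le_pow_right (by omega) (min_le_right _ _)).trans
      (Nat.pow_le_pow_left (by omega) _)
  unfold levL
  refine PT.flatMap (by fun_prop) (PT.replicate (by fun_prop) ?_ (by fun_prop))
  exact (hf'.comp (g := Prod.fst) (by fun_prop)).mul h2

theorem pt_zzL {m : α → ℕ} (hm : PT m) (hs : Small m) : PT fun a => zzL (m a) := by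
  unfold zzL; fun_prop

attribute [local irreducible] items targets bound zzL levL

theorem pt_red : PT red := by
  have h1 := pt_items
  have h2 := pt_targets
  have h3 := pt_bound
  have h4 : Small fun φ => 2 ^ (bound φ).size := by
    refine (((Small.const 2).mul small_bound).add (Small.const 1)).mono fun φ => ?_
    rcases h : (bound φ).size with _ | n
    · omega
    · have := Nat.lt_size.1 (show n < (bound φ).size by omega)
      omega
  have h5 : Small fun φ => (items φ).sum := by
    refine ((Small.length h1).mul small_bound).mono fun φ => ?_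
    exact List.sum_le_card_nsmul _ _ fun x hx => (items_lt φ x hx).2.le
  have h6 : PT fun φ => levL (18 * (targets φ).length + 54) (bound φ).size :=
    pt_levL (by fun_prop) (by fun_prop) (by fun_prop) h4
  have h7 : PT fun φ => List.replicate (items φ).sum 4 := PT.replicate (by fun_prop) h5 (by fun_prop)
  have h8 : PT fun φ => zzL (targets φ).length := pt_zzL (by fun_prop) (by fun_prop)
  have h9 : PT fun φ => 2 ^ (bound φ).size := by fun_prop
  unfold red degL
  refine PT.append (PT.append (PT.append (PT.append (PT.map h8 ?_) (PT.map h2 ?_))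
    (PT.map h1 ?_)) h6) h7
  · exact (h9.comp (g := Prod.fst) (by fun_prop)).mul (by fun_prop)
  · exact ((h9.comp (g := Prod.fst) (by fun_prop)).mul (by fun_prop)).add (by fun_prop)
  · exact ((h9.comp (g := Prod.fst) (by fun_prop)).mul (by fun_prop)).add (by fun_prop)

end

/-- The numbers of entries equal to `3, 4, 5, ...`. -/
def pvec (l : List ℕ) : List ℕ :=
  (List.range (6 * l.length)).map fun i => l.countP fun y => decide (y = i + 3)

theorem pt_pvec : PT pvec := by
  unfold pvec; fun_prop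

lemma pvec_getD {l : List ℕ} (h : l.sum + 12 = 6 * l.length) (i : ℕ) :
    (pvec l).getD i 0 = l.count (i + 3) := by
  by_cases hi : i < 6 * l.length
  · rw [List.getD_eq_getElem _ _ (by simpa [pvec] using hi)]
    simp only [pvec, List.getElem_map, List.getElem_range, List.count]
    rfl
  · rw [List.getD_eq_default _ _ (by simpa [pvec] using hi), List.count_eq_zero.2 fun hm => ?_]
    have := List.single_le_sum (fun _ _ => Nat.zero_le _) _ hm
    omega

lemma sum_pvec {l : List ℕ} (h3 : ∀ n ∈ l, 3 ≤ n) (h : l.sum + 12 = 6 * l.length) (g : ℕ → ℤ) :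
    ∑ i ∈ Finset.range (pvec l).length, g (i + 3) * ((pvec l).getD i 0 : ℕ) = (l.map g).sum := by
  have e : (pvec l).length = 6 * l.length := by simp [pvec]
  rw [Finset.sum_list_map_count, e]
  simp only [pvec_getD h]
  rw [← Finset.sum_image (s := Finset.range (6 * l.length)) (g := fun i => i + 3)
    (f := fun n => g n * (l.count n : ℕ)) fun _ _ _ _ h => Nat.add_right_cancel h]
  refine (Finset.sum_subset (fun n hn => ?_) fun n _ hn => ?_).symm.trans
    (Finset.sum_congr rfl fun n _ => by rw [nsmul_eq_mul, mul_comm])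
  · have h1 := List.mem_toFinset.1 hn
    have h2 := List.single_le_sum (fun _ _ => Nat.zero_le _) _ h1
    have h4 := h3 n h1
    exact Finset.mem_image.2 ⟨n - 3, Finset.mem_range.2 (by omega), by omega⟩
  · rw [List.count_eq_zero.2 fun hm => hn (List.mem_toFinset.2 hm)]
    simp

lemma sum_getD (l : List ℕ) : ∑ i ∈ Finset.range l.length, l.getD i 0 = l.sum := by
  induction l with
  | nil => simp
  | cons a l ih => simp [Finset.sum_range_succ', ← ih, add_comm]

theorem hard : ∀ L ∈ NP, ∃ (f : List Bool → List ℕ) (q : Polynomial ℕ), IsPolyTime f ∧ ∀ x,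
    (f x).sum ≤ q.eval x.length ∧
    ∑ i ∈ Finset.range (f x).length, (6 - (i + 3 : ℤ)) * ((f x).getD i 0 : ℕ) = 12 ∧
    (L x = true ↔ ∃ P, IsPolyhedron P ∧ ∀ i, faceCount P (i + 3) = (f x).getD i 0) := by
  intro L hL
  obtain ⟨f, hf, h3, h⟩ := cook3 hL
  have hr := pt_red.comp hf
  obtain ⟨q, hq⟩ := Small.length hr
  refine ⟨fun x => pvec (red (f x)), q.comp (3 * Polynomial.X), (pt_pvec.comp hr).isPolyTime,
    fun x => ?_⟩
  obtain ⟨r1, r2, r3⟩ := red_spec (h3 x)
  refine ⟨?_, ?_, ?_⟩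
  · have h1 := sum_pvec r1 r2 fun _ => 1
    have h2 := hq x
    rw [sz_str] at h2
    simp only [one_mul, List.map_const', List.sum_replicate, nsmul_one, ← Nat.cast_sum, sum_getD,
      Nat.cast_inj] at h1
    simpa [h1] using h2
  · have h1 := sum_pvec r1 r2 fun n => 6 - n
    have h2 : ∀ l : List ℕ, (l.map fun n : ℕ => (6 - n : ℤ)).sum = 6 * l.length - (l.sum : ℕ) := by
      intro l
      induction l with
      | nil => simp
      | cons a l ih =>
        simp only [List.map_cons, List.sum_cons, ih, List.length_cons]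
        push_cast
        ring
    rw [h2] at h1
    simp only [Nat.cast_add, Nat.cast_ofNat] at h1
    rw [h1]
    omega
  · rw [h, r3]
    simp only [pvec_getD r2]
    refine exists_congr fun P => and_congr_right fun _ => ⟨fun k i => k _ (by omega), fun k n hn => ?_⟩
    obtain ⟨i, rfl⟩ := Nat.exists_eq_add_of_le' hn
    exact k i

end Pool.Agent.P.MP_e40812_co
end
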