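import Mathlib
import Pool.Agent.K.MP_e40812_co.C1
import Pool.Agent.K.MP_e40812_co.C2
import Pool.Agent.P.MP_e40812_co.LoDefs

-- part Pool.Agent.P.MP_e40812_co.LoGroup
section

/-!
Finite flag systems of type `{3,6}` with many flags fixed by a rotation of order three.
-/

namespace Pool.Agent.P.MP_e40812_co

/-- The translations of the triangle group. -/
theorem lg_group {G : Type*} [Group G] (α σ ρ : G) (hα : α * α = 1) (hσ : σ ^ 6 = 1)
    (h3 : (α * σ⁻¹) ^ 3 = 1) (hρ : ρ * ρ = 1) (hρα : ρ * α = α * ρ) (hρσ : ρ * σ = σ⁻¹ * ρ) :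
    ∃ N : ℤ × ℤ → G, (∀ z w, N (z + w) = N z * N w) ∧ α = N (1, 0) * σ ^ 3 ∧
      (∀ z, σ * N z = N (z.1 - z.2, z.1) * σ) ∧ ∀ z, ρ * N z = N (z.1 - z.2, -z.2) * ρ := by
  obtain ⟨A, hA⟩ : ∃ A, A = α * σ ^ 3 := ⟨_, rfl⟩
  obtain ⟨B, hB⟩ : ∃ B, B = σ ^ 2 * A * (σ ^ 2)⁻¹ := ⟨_, rfl⟩
  have e3 : σ * B * σ⁻¹ = A⁻¹ := by
    refine eq_inv_of_mul_eq_one_right ?_
    calc A * (σ * B * σ⁻¹) = α * σ ^ 6 * α := by rw [hB, hA]; group
      _ = 1 := by rw [hσ, mul_one, hα]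
  have e4 : A * B * (σ * (σ * B * σ⁻¹) * σ⁻¹) = 1 := by
    calc A * B * (σ * (σ * B * σ⁻¹) * σ⁻¹)
        = α * σ ^ 6 * σ⁻¹ * (α * σ ^ 6 * σ⁻¹) * (α * σ⁻¹) := by rw [hB, hA]; group
      _ = 1 := by rw [hσ, mul_one, ← h3, pow_succ, sq]
  have e1 : σ * A * σ⁻¹ = A * B := by
    rw [e3] at e4
    calc σ * A * σ⁻¹ = A * B * (σ * A⁻¹ * σ⁻¹) * (σ * A * σ⁻¹) := by rw [e4, one_mul]
      _ = A * B := by group
  have hc : Commute A B := by
    have : B = A * B * A⁻¹ := by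
      calc B = σ * (σ * A * σ⁻¹) * σ⁻¹ := by rw [hB, sq]; group
        _ = σ * (A * B) * σ⁻¹ := by rw [e1]
        _ = (σ * A * σ⁻¹) * (σ * B * σ⁻¹) := by group
        _ = A * B * A⁻¹ := by rw [e1, e3]
    calc A * B = A * B * A⁻¹ * A := by group
      _ = B * A := by rw [← this]
  have r1 : ρ * σ * ρ⁻¹ = σ⁻¹ := by rw [hρσ, mul_inv_cancel_right]
  have rA : ρ * A * ρ⁻¹ = A := by
    calc ρ * A * ρ⁻¹ = (ρ * α * ρ⁻¹) * (ρ * σ * ρ⁻¹) ^ 3 := by rw [hA, conj_pow]; group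
      _ = α * σ ^ 3 * (σ ^ 6)⁻¹ := by rw [r1, hρα]; group
      _ = A := by rw [hσ, hA]; group
  have rB : ρ * B * ρ⁻¹ = (A * B)⁻¹ := by
    calc ρ * B * ρ⁻¹ = (ρ * σ * ρ⁻¹) ^ 2 * (ρ * A * ρ⁻¹) * ((ρ * σ * ρ⁻¹) ^ 2)⁻¹ := by
          rw [hB, conj_pow]; group
      _ = (σ ^ 6)⁻¹ * (σ * (σ * B * σ⁻¹) * σ⁻¹) * σ ^ 6 := by rw [r1, rA, hB]; group
      _ = (A * B)⁻¹ := by rw [hσ, eq_inv_of_mul_eq_one_right e4]; group
  refine ⟨fun z => A ^ z.1 * B ^ z.2, fun z w => ?_, ?_, fun z => ?_, fun z => ?_⟩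
  · simp only [Prod.fst_add, Prod.snd_add, zpow_add]
    exact (hc.zpow_zpow w.1 z.2).mul_mul_mul_comm _ _
  · calc α = α * σ ^ 6 := by rw [hσ, mul_one]
      _ = _ := by rw [hA]; group
  · calc σ * (A ^ z.1 * B ^ z.2) = (σ * A * σ⁻¹) ^ z.1 * (σ * B * σ⁻¹) ^ z.2 * σ := by
          rw [conj_zpow, conj_zpow]; group
      _ = A ^ z.1 * (B ^ z.1 * A ^ (-z.2)) * σ := by rw [e1, e3, hc.mul_zpow]; group
      _ = _ := by rw [← (hc.zpow_zpow _ _).eq]; group
  · calc ρ * (A ^ z.1 * B ^ z.2) = (ρ * A * ρ⁻¹) ^ z.1 * (ρ * B * ρ⁻¹) ^ z.2 * ρ := by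
          rw [conj_zpow, conj_zpow]; group
      _ = _ := by rw [rA, rB, inv_zpow', hc.mul_zpow]; group

/-- Sublattices invariant under the rotation of order three are principal. -/
theorem lg_lat (L : AddSubgroup (ℤ × ℤ)) (hω : ∀ z ∈ L, (-z.2, z.1 - z.2) ∈ L)
    (h0 : L.index ≠ 0) : ∃ a b : ℤ, (L.index : ℤ) = a ^ 2 - a * b + b ^ 2 ∧
      ∀ z, z ∈ L ↔ ∃ i j : ℤ, z = (a * i - b * j, b * i + (a - b) * j) := by
  classical
  have hpos : ∀ z : ℤ × ℤ, z ≠ 0 → 0 < z.1 ^ 2 - z.1 * z.2 + z.2 ^ 2 := by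
    intro z hz
    by_contra h
    apply hz
    have h1 : z.2 = 0 := by nlinarith [sq_nonneg (2 * z.1 - z.2), sq_nonneg z.2]
    have h2 : z.1 = 0 := by nlinarith [sq_nonneg (2 * z.2 - z.1), sq_nonneg z.1]
    exact Prod.ext h2 h1
  have hex : ∃ n : ℕ, ∃ z ∈ L, z ≠ 0 ∧ z.1 ^ 2 - z.1 * z.2 + z.2 ^ 2 = n := by
    refine ⟨L.index ^ 2, L.index • (1, 0), L.nsmul_index_mem _, ?_, by simp⟩
    simpa using h0
  obtain ⟨⟨a, b⟩, hl, hl0, hQ⟩ := Nat.find_spec hex
  have hp := hpos _ hl0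
  simp only at hQ hp
  have hin : ∀ i j : ℤ, (a * i - b * j, b * i + (a - b) * j) ∈ L := fun i j => by
    have := L.add_mem (L.zsmul_mem hl i) (L.zsmul_mem (hω _ hl) j)
    simp only [Prod.smul_mk, smul_eq_mul, Prod.mk_add_mk] at this
    rwa [show a * i - b * j = i * a + j * -b by ring,
      show b * i + (a - b) * j = i * b + j * (a - b) by ring]
  have hmem : ∀ z, z ∈ L ↔ ∃ i j : ℤ, z = (a * i - b * j, b * i + (a - b) * j) := by
    refine fun z => ⟨fun hz => ?_, fun ⟨i, j, e⟩ => e ▸ hin i j⟩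
    obtain ⟨u, v⟩ := z
    obtain ⟨Q, hQ'⟩ : ∃ Q, Q = a ^ 2 - a * b + b ^ 2 := ⟨_, rfl⟩
    have hr : ∀ p : ℤ, ∃ i : ℤ, (2 * (p - i * Q)) ^ 2 ≤ Q ^ 2 := fun p => by
      refine ⟨(2 * p + Q) / (2 * Q), sq_le_sq' ?_ ?_⟩
      · linarith [Int.emod_nonneg (2 * p + Q) (show 2 * Q ≠ 0 by omega),
          Int.mul_ediv_add_emod (2 * p + Q) (2 * Q)]
      · linarith [Int.emod_lt_of_pos (2 * p + Q) (show 0 < 2 * Q by omega),
          Int.mul_ediv_add_emod (2 * p + Q) (2 * Q)]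
    obtain ⟨i, hi⟩ := hr (u * (a - b) + v * b)
    obtain ⟨j, hj⟩ := hr (v * a - u * b)
    refine ⟨i, j, sub_eq_zero.1 (by_contra fun hne => ?_)⟩
    have h1 := hpos _ hne
    have h2 := Nat.find_min' hex ⟨_, L.sub_mem hz (hin i j), hne, (Int.toNat_of_nonneg h1.le).symm⟩
    simp only [Prod.mk_sub_mk] at h1 h2
    obtain ⟨R, hR⟩ : ∃ R, R = (u - (a * i - b * j)) ^ 2 -
      (u - (a * i - b * j)) * (v - (b * i + (a - b) * j)) + (v - (b * i + (a - b) * j)) ^ 2 :=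
      ⟨_, rfl⟩
    rw [← hR] at h1 h2
    have h3 : Q ≤ R := by omega
    have h4 : R * Q = (u * (a - b) + v * b - i * Q) ^ 2 -
        (u * (a - b) + v * b - i * Q) * (v * a - u * b - j * Q) + (v * a - u * b - j * Q) ^ 2 := by
      rw [hR, hQ']
      ring
    rw [← hQ'] at hp
    nlinarith [sq_nonneg (u * (a - b) + v * b - i * Q + (v * a - u * b - j * Q)),
      mul_le_mul_of_nonneg_right h3 hp.le, mul_pos hp hp]
  refine ⟨a, b, ?_, hmem⟩
  let f : ℤ × ℤ →ₗ[ℤ] ℤ × ℤ := (a • LinearMap.fst ℤ ℤ ℤ - b • LinearMap.snd ℤ ℤ ℤ).prod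
    (b • LinearMap.fst ℤ ℤ ℤ + (a - b) • LinearMap.snd ℤ ℤ ℤ)
  have hf : ∀ z, f z = (a * z.1 - b * z.2, b * z.1 + (a - b) * z.2) := fun z => rfl
  have hinj : Function.Injective f := by
    rw [← LinearMap.ker_eq_bot, LinearMap.ker_eq_bot']
    intro z hz
    rw [hf, Prod.mk_eq_zero] at hz
    refine Prod.ext (mul_left_cancel₀ hp.ne' ?_) (mul_left_cancel₀ hp.ne' ?_)
    · simp only [Prod.fst_zero]
      linear_combination (a - b) * hz.1 + b * hz.2
    · simp only [Prod.snd_zero]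
      linear_combination a * hz.2 - b * hz.1
  have h1 := Submodule.natAbs_det_equiv _ (LinearEquiv.ofInjective _ hinj)
  have h2 : LinearMap.det f = a ^ 2 - a * b + b ^ 2 := by
    rw [← LinearMap.det_toMatrix (Module.Basis.finTwoProd ℤ), Matrix.det_fin_two]
    simp [LinearMap.toMatrix_apply, hf]
    ring
  have h3 : L = (LinearMap.range f).toAddSubgroup := by
    ext z
    rw [hmem]
    exact ⟨fun ⟨i, j, e⟩ => ⟨(i, j), e.symm⟩, fun ⟨w, e⟩ => ⟨w.1, w.2, e.symm⟩⟩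
  have h4 : (LinearMap.det f).natAbs = L.index := h3 ▸ h1
  rw [← h4, h2, Int.natAbs_of_nonneg hp.le]

/-- Three involutions with the relations of the Coxeter group of the triangular tiling act
transitively on a finite set; the vertex rotation `s₂ s₃` has no fixed point and its square has at
least seven.  Then the number of flags is four times a value of `x² - xy + y²`. -/
theorem flags_card {D : Type*} [Fintype D] [DecidableEq D] (s₁ s₂ s₃ : Equiv.Perm D)
    (h1 : s₁ * s₁ = 1) (h2 : s₂ * s₂ = 1) (h3 : s₃ * s₃ = 1)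
    (h12 : (s₁ * s₂) ^ 3 = 1) (h13 : s₁ * s₃ = s₃ * s₁) (h23 : (s₂ * s₃) ^ 6 = 1)
    (conn : ∀ S : D → Prop, (∃ d, S d) → (∀ d, S d → S (s₁ d) ∧ S (s₂ d) ∧ S (s₃ d)) → ∀ d, S d)
    (nofix : ∀ d, (s₂ * s₃) d ≠ d)
    (many : 7 ≤ (Finset.univ.filter fun d => ((s₂ * s₃) ^ 2) d = d).card) :
    ∃ x y : ℤ, (Fintype.card D : ℤ) = 4 * (x ^ 2 - x * y + y ^ 2) := by
  classical
  have i2 : s₂⁻¹ = s₂ := inv_eq_of_mul_eq_one_right h2
  have i3 : s₃⁻¹ = s₃ := inv_eq_of_mul_eq_one_right h3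
  have hρσ : s₃ * (s₂ * s₃) = (s₂ * s₃)⁻¹ * s₃ := by rw [mul_inv_rev, i2, i3, mul_assoc]
  have hρα : s₃ * (s₁ * s₃) = s₁ * s₃ * s₃ := by rw [← mul_assoc, ← h13]
  obtain ⟨N, hN, hα, hσN, hρN⟩ := lg_group (s₁ * s₃) (s₂ * s₃) s₃
    (by rw [mul_assoc, hρα, mul_assoc s₁, h3, mul_one, h1]) h23
    (by rw [mul_inv_rev, i2, ← mul_assoc, mul_inv_cancel_right, h12]) h3 hρα hρσ
  have e2 : s₂ = s₂ * s₃ * s₃ := by rw [mul_assoc, h3, mul_one]
  have e1 : s₁ = s₁ * s₃ * s₃ := by rw [mul_assoc, h3, mul_one]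
  generalize s₂ * s₃ = σ at *
  generalize s₁ * s₃ = α at *
  have N0 : N 0 = 1 := by simpa using hN 0 0
  have aN : ∀ z w d, N z (N w d) = N (z + w) d := fun z w d => by rw [hN]; rfl
  have sN : ∀ z d, σ (N z d) = N (z.1 - z.2, z.1) (σ d) := fun z d => congrArg (· d) (hσN z)
  have rN : ∀ z d, s₃ (N z d) = N (z.1 - z.2, -z.2) (s₃ d) := fun z d => congrArg (· d) (hρN z)
  have rr : ∀ d, s₃ (s₃ d) = d := fun d => congrArg (· d) h3
  have s6 : ∀ d, σ (σ (σ (σ (σ (σ d))))) = d := fun d => by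
    simpa [pow_succ] using congrArg (· d) h23
  have rs : ∀ d, s₃ (σ d) = σ (σ (σ (σ (σ (s₃ d))))) := fun d => by
    have : s₃ (σ d) = σ⁻¹ (s₃ d) := congrArg (· d) hρσ
    rw [this, Equiv.Perm.inv_eq_iff_eq, s6]
  have hαd : ∀ d, α d = N (1, 0) (σ (σ (σ d))) := fun d => by
    simpa [pow_succ] using congrArg (· d) hα
  simp only [sq, Equiv.Perm.mul_apply] at many
  obtain ⟨f₀, hf₀⟩ := Finset.card_pos.1 (lt_of_lt_of_le (by norm_num) many)
  have hf : σ (σ f₀) = f₀ := (Finset.mem_filter.1 hf₀).2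
  let act : AddAction (ℤ × ℤ) D :=
    { vadd := fun z d => N z d
      zero_vadd := fun d => by change N 0 d = d; rw [N0]; rfl
      add_vadd := fun z w d => (aN z w d).symm }
  have hidx : (AddAction.stabilizer (ℤ × ℤ) f₀).index = {d | ∃ z, N z f₀ = d}.ncard :=
    AddAction.index_stabilizer (ℤ × ℤ) f₀
  have ssN : ∀ z : ℤ × ℤ, σ (σ (N z f₀)) = N (-z.2, z.1 - z.2) f₀ := fun z => by
    rw [sN, sN, hf]
    simp
  obtain ⟨a, b, hab, hL⟩ := lg_lat (AddAction.stabilizer (ℤ × ℤ) f₀)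
    (fun z (hz : N z f₀ = f₀) => show N _ f₀ = f₀ by rw [← ssN, hz, hf])
    (by
      rw [hidx]
      exact Set.ncard_ne_zero_of_mem (a := N 0 f₀) ⟨0, rfl⟩)
  replace hL : ∀ z, N z f₀ = f₀ ↔ ∃ i j : ℤ, z = (a * i - b * j, b * i + (a - b) * j) := hL
  rw [hidx] at hab
  obtain ⟨O, hO⟩ : ∃ O : Set D, O = {d | ∃ z, N z f₀ = d} := ⟨_, rfl⟩
  have mO : ∀ d, d ∈ O ∪ σ '' O ↔ ∃ z, N z f₀ = d ∨ N z (σ f₀) = d := by
    intro d
    rw [hO]
    constructor
    · rintro (⟨z, h⟩ | ⟨_, ⟨z, rfl⟩, h⟩)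
      · exact ⟨z, Or.inl h⟩
      · exact ⟨_, Or.inr ((sN z f₀).symm.trans h)⟩
    · rintro ⟨z, h | h⟩
      · exact Or.inl ⟨z, h⟩
      · exact Or.inr ⟨_, ⟨(z.2, z.2 - z.1), rfl⟩, by rw [sN, ← h]; simp⟩
  obtain ⟨P, hP⟩ : ∃ P : Set D, P = O ∪ σ '' O := ⟨_, rfl⟩
  rw [← hP] at mO
  have Pσ : ∀ {d}, d ∈ P → σ d ∈ P := by
    intro d hd
    obtain ⟨z, rfl | rfl⟩ := (mO d).1 hd
    · exact (mO _).2 ⟨_, Or.inr (sN z f₀).symm⟩
    · exact (mO _).2 ⟨_, Or.inl (by rw [sN, hf])⟩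
  have PN : ∀ w {d}, d ∈ P → N w d ∈ P := by
    intro w d hd
    obtain ⟨z, rfl | rfl⟩ := (mO d).1 hd
    · exact (mO _).2 ⟨_, Or.inl (aN w z _).symm⟩
    · exact (mO _).2 ⟨_, Or.inr (aN w z _).symm⟩
  have Pα : ∀ {d}, d ∈ P → α d ∈ P := fun hd => by
    rw [hαd]
    exact PN _ (Pσ (Pσ (Pσ hd)))
  have hall : ∀ d, d ∈ P ∨ s₃ d ∈ P := by
    refine conn _ ⟨N 0 f₀, Or.inl ((mO _).2 ⟨0, Or.inl rfl⟩)⟩ fun d hd => ?_
    have c1 : s₁ d = α (s₃ d) := congrArg (· d) e1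
    have c2 : s₂ d = σ (s₃ d) := congrArg (· d) e2
    have c3 : s₃ (α (s₃ d)) = α (s₃ (s₃ d)) := congrArg (· (s₃ d)) hρα
    rw [c1, c2, c3, rs, rr]
    rcases hd with hd | hd
    · exact ⟨Or.inr (Pα hd), Or.inr (Pσ (Pσ (Pσ (Pσ (Pσ hd))))), Or.inr hd⟩
    · exact ⟨Or.inl (Pα hd), Or.inl (Pσ hd), Or.inl hd⟩
  by_cases hc : s₃ f₀ ∈ P
  · exfalso
    have hP3 : ∀ {d}, d ∈ P → s₃ d ∈ P := by
      intro d hd
      obtain ⟨z, rfl | rfl⟩ := (mO d).1 hd
      · rw [rN]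
        exact PN _ hc
      · rw [rN, rs]
        exact PN _ (Pσ (Pσ (Pσ (Pσ (Pσ hc)))))
    have hu : ∀ d, d ∈ P := fun d => (hall d).elim id fun h => rr d ▸ hP3 h
    have hk : ∀ d ∈ Finset.univ.filter fun d => d ∈ O ∧ σ (σ d) = d, ∃ z : ℤ × ℤ, ∃ i j : ℤ,
        N z f₀ = d ∧ (-z.2 - z.1, z.1 - 2 * z.2) = (a * i - b * j, b * i + (a - b) * j) := by
      intro d hd
      obtain ⟨hd1, hd2⟩ := (Finset.mem_filter.1 hd).2
      rw [hO] at hd1
      obtain ⟨z, rfl⟩ := hd1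
      rw [ssN] at hd2
      obtain ⟨i, j, e⟩ := (hL (-z + (-z.2, z.1 - z.2))).1 (by
        rw [← aN, hd2, aN, neg_add_cancel, N0]
        rfl)
      refine ⟨z, i, j, rfl, Eq.trans (Prod.ext ?_ ?_) e⟩
      · simp only [Prod.fst_add, Prod.fst_neg]
        ring
      · simp only [Prod.snd_add, Prod.snd_neg]
        ring
    choose! z i j hz hij using hk
    have c3 : (Finset.univ.filter fun d => d ∈ O ∧ σ (σ d) = d).card ≤
        (Finset.Ico (0 : ℤ) 3).card := by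
      refine Finset.card_le_card_of_injOn (fun d => (i d + j d) % 3)
        (fun d _ => Finset.mem_coe.2 (Finset.mem_Ico.2 (by dsimp only; omega))) fun d hd d' hd' e => ?_
      obtain ⟨t, ht⟩ : ∃ t, i d + j d - (i d' + j d') = -3 * t :=
        ⟨-((i d + j d - (i d' + j d')) / 3), by dsimp only at e; omega⟩
      obtain ⟨u1, u2⟩ := Prod.mk.inj (hij d hd)
      obtain ⟨v1, v2⟩ := Prod.mk.inj (hij d' hd')
      have hm := (hL (z d - z d')).2 ⟨-t - (i d - i d'), t, Prod.ext ?_ ?_⟩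
      · rw [← hz d hd, ← hz d' hd', ← add_sub_cancel (z d') (z d), ← aN, hm]
      · apply mul_left_cancel₀ (three_ne_zero (α := ℤ))
        simp only [Prod.fst_sub]
        linear_combination (u2 - v2) - 2 * (u1 - v1) + (a + b) * ht
      · apply mul_left_cancel₀ (three_ne_zero (α := ℤ))
        simp only [Prod.snd_sub]
        linear_combination -(u2 - v2) - (u1 - v1) + (2 * b - a) * ht
    have c6 : (Finset.univ.filter fun d => σ (σ d) = d) ⊆
        (Finset.univ.filter fun d => d ∈ O ∧ σ (σ d) = d) ∪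
          (Finset.univ.filter fun d => d ∈ O ∧ σ (σ d) = d).image σ := by
      intro d hd
      have hd2 := (Finset.mem_filter.1 hd).2
      have hd1 := hu d
      rw [hP] at hd1
      rcases hd1 with h | ⟨d', h, rfl⟩
      · exact Finset.mem_union_left _ (Finset.mem_filter.2 ⟨Finset.mem_univ _, h, hd2⟩)
      · exact Finset.mem_union_right _ (Finset.mem_image_of_mem _
          (Finset.mem_filter.2 ⟨Finset.mem_univ _, h, σ.injective hd2⟩))
    have c7 := (Finset.card_le_card c6).trans ((Finset.card_union_le _ _).trans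
      (add_le_add le_rfl Finset.card_image_le))
    simp only [Int.card_Ico] at c3
    omega
  · have d1 : Disjoint O (σ '' O) := by
      rw [Set.disjoint_left, hO]
      rintro _ ⟨v, rfl⟩ ⟨_, ⟨u, rfl⟩, e⟩
      obtain ⟨w, hw⟩ : ∃ w, σ f₀ = N w f₀ := ⟨-(u.1 - u.2, u.1) + v, by
        rw [← aN, ← e, sN, aN, neg_add_cancel, N0]
        rfl⟩
      refine nofix (N (w.1 - w.2, w.1) f₀) ?_
      rw [sN, hw, aN]
      refine congrArg (fun z => N z f₀) (Prod.ext ?_ ?_)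
      · simp only [Prod.fst_add]
        ring
      · simp only [Prod.snd_add]
        ring
    have d2 : Disjoint P (s₃ '' P) := by
      rw [Set.disjoint_right]
      rintro _ ⟨d, hd, rfl⟩ h
      apply hc
      obtain ⟨z, rfl | rfl⟩ := (mO d).1 hd
      · have := PN (-(z.1 - z.2, -z.2)) h
        rwa [rN, aN, neg_add_cancel, N0] at this
      · have := PN (-(z.1 - z.2, -z.2)) h
        rw [rN, aN, neg_add_cancel, N0, rs] at this
        exact s6 (s₃ f₀) ▸ Pσ this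
    have hu : (Set.univ : Set D) = P ∪ s₃ '' P :=
      (Set.eq_univ_of_forall fun d => (hall d).imp id fun h => ⟨_, h, rr d⟩).symm
    refine ⟨a, b, ?_⟩
    rw [← hab, ← hO, ← Nat.card_eq_fintype_card, ← Set.ncard_univ, hu, Set.ncard_union_eq d2,
      Set.ncard_image_of_injective _ s₃.injective, hP, Set.ncard_union_eq d1,
      Set.ncard_image_of_injective _ σ.injective]
    push_cast
    ring

end Pool.Agent.P.MP_e40812_co
end

-- part Pool.Agent.P.MP_e40812_co.LoFlag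
section

/-!
Triangulated spheres with degrees four and six whose six vertices of degree four are matched by
edges.
-/

namespace Pool.Agent.P.MP_e40812_co

open Finset

variable {ι : Type*} [DecidableEq ι]

/-- All degrees are four (on `K`) or six, and `M` is a perfect matching of `K` along edges. -/
structure Matched (V : Finset ι) (F : Finset (Finset ι)) (K : Finset ι) (M : ι → ι → Prop) :
    Prop where
  sub : K ⊆ V
  card : K.card = 6
  four : ∀ v ∈ K, deg F v = 4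
  six : ∀ v ∈ V, v ∉ K → deg F v = 6
  symm : ∀ a b, M a b → M b a
  mem : ∀ a b, M a b → a ∈ K
  nb : ∀ a b, M a b → Nb F a b
  ex : ∀ a ∈ K, ∃ b, M a b
  uniq : ∀ a b c, M a b → M a c → b = c

lemma Tri.lf_closed {V : Finset ι} {F : Finset (Finset ι)} (h : Tri V F) {v : ι} (s : Finset ι)
    (hs : ∀ u ∈ s, Nb F v u) (hc : ∀ x ∈ s, ∀ y, T F v x y → y ∈ s) (hlt : s.card < deg F v) :
    s.card + 3 ≤ deg F v := by
  obtain ⟨x, hx, y, t⟩ := h.exists_nb s hlt
  obtain ⟨z, hz, t'⟩ := h.next t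
  have hy' : y ∉ s := fun k => hx (hc y k x t.s23)
  have hz' : z ∉ s := fun k => hx (hc z k x t'.s23)
  have := h.card_le_deg (insert x (insert y (insert z s))) (v := v) (by
    intro u hu
    simp only [mem_insert] at hu
    rcases hu with rfl | rfl | rfl | hu
    · exact t.nb
    · exact t.nb'
    · exact t'.nb'
    · exact hs u hu)
  rw [card_insert_of_notMem (by simp [hx, t.2.2.1, t'.2.2.1]),
    card_insert_of_notMem (by simp [hy', hz.symm]), card_insert_of_notMem hz'] at this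
  omega

/-- The link of a vertex of degree six closes up after six steps. -/
lemma Tri.link6 {V : Finset ι} {F : Finset (Finset ι)} (h : Tri V F) {v a b c d e f g k : ι}
    (hd : deg F v = 6) (t0 : T F v a b) (t1 : T F v b c) (t2 : T F v c d) (t3 : T F v d e)
    (t4 : T F v e f) (t5 : T F v f g) (t6 : T F v g k) (n1 : c ≠ a) (n2 : d ≠ b) (n3 : e ≠ c)
    (n4 : f ≠ d) (n5 : g ≠ e) (n6 : k ≠ f) : g = a ∧ k = b := by
  have ab := t0.2.2.1
  have bc := t1.2.2.1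
  have cd := t2.2.2.1
  have de := t3.2.2.1
  have ef := t4.2.2.1
  have fg := t5.2.2.1
  have Nb' : ∀ x, T F v b x → x = a ∨ x = c := fun x t => h.third t0.s23 t1 n1.symm t
  have Nc : ∀ x, T F v c x → x = b ∨ x = d := fun x t => h.third t1.s23 t2 n2.symm t
  have Nd : ∀ x, T F v d x → x = c ∨ x = e := fun x t => h.third t2.s23 t3 n3.symm t
  have Ne' : ∀ x, T F v e x → x = d ∨ x = f := fun x t => h.third t3.s23 t4 n4.symm t
  by_cases da : d = a
  · subst da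
    obtain rfl : e = b := (h.third t0 t2.s23 bc t3).resolve_right n3
    obtain rfl : f = c := (Nb' f t4).resolve_left n4
    obtain rfl : g = d := (Nc g t5).resolve_left n5
    exact ⟨rfl, (h.third t0 t2.s23 bc t6).resolve_right n6⟩
  have eb : e ≠ b := by
    rintro rfl
    rcases Nb' d t3.s23 with k | k
    · exact da k
    · exact cd k.symm
  have ea : e ≠ a := by
    rintro rfl
    have hc : ({e, b, c, d} : Finset ι).card = 4 := by
      rw [card_insert_of_notMem (by simp [ab, n1.symm, Ne.symm da]),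
        card_eq_three.2 ⟨b, c, d, bc, n2.symm, cd, rfl⟩]
    have := h.lf_closed (v := v) {e, b, c, d} (by simp [t0.nb, t1.nb, t2.nb, t3.nb]) (by
      intro x hx y t
      simp only [mem_insert, mem_singleton] at hx ⊢
      rcases hx with rfl | rfl | rfl | rfl
      · have := h.third t0 t3.s23 n2.symm t
        tauto
      · have := Nb' y t
        tauto
      · have := Nc y t
        tauto
      · have := Nd y t
        tauto) (by omega)
    omega
  have fb : f ≠ b := by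
    rintro rfl
    rcases Nb' e t4.s23 with k | k
    · exact ea k
    · exact n3 k
  have fc : f ≠ c := by
    rintro rfl
    rcases Nc e t4.s23 with k | k
    · exact eb k
    · exact de k.symm
  have h5 : ({a, b, c, d, e} : Finset ι).card = 5 := by
    rw [card_insert_of_notMem (by simp [ab, n1.symm, Ne.symm da, ea.symm]),
      card_insert_of_notMem (by simp [bc, n2.symm, eb.symm]),
      card_eq_three.2 ⟨c, d, e, cd, n3.symm, de, rfl⟩]
  have fa : f ≠ a := by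
    rintro rfl
    have := h.lf_closed (v := v) {f, b, c, d, e} (by simp [t0.nb, t1.nb, t2.nb, t3.nb, t4.nb]) (by
      intro x hx y t
      simp only [mem_insert, mem_singleton] at hx ⊢
      rcases hx with rfl | rfl | rfl | rfl | rfl
      · have := h.third t0 t4.s23 eb.symm t
        tauto
      · have := Nb' y t
        tauto
      · have := Nc y t
        tauto
      · have := Nd y t
        tauto
      · have := Ne' y t
        tauto) (by omega)
    omega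
  have hg := h.nb_of_card (v := v) (insert f {a, b, c, d, e})
    (by simp [t0.nb, t1.nb, t2.nb, t3.nb, t4.nb, t5.nb])
    (by rw [card_insert_of_notMem (by simp [fa, fb, fc, n4, ef.symm]), h5, hd]) t5.nb'
  simp only [mem_insert, mem_singleton] at hg
  have ga : g = a := by
    rcases hg with k | k | k | k | k | k
    · exact absurd k.symm fg
    · exact k
    · subst k
      rcases Nb' f t5.s23 with k | k
      · exact absurd k fa
      · exact absurd k fc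
    · subst k
      rcases Nc f t5.s23 with k | k
      · exact absurd k fb
      · exact absurd k n4
    · subst k
      rcases Nd f t5.s23 with k | k
      · exact absurd k fc
      · exact absurd k.symm ef
    · exact absurd k n5
  subst ga
  exact ⟨rfl, (h.third t0 t5.s23 fb.symm t6).resolve_right n6⟩

/-- `flags_card` for three maps that preserve a finite set. -/
lemma lf_flags {X : Type*} [DecidableEq X] (S : Finset X) (f₁ f₂ f₃ : X → X)
    (m1 : ∀ x ∈ S, f₁ x ∈ S) (m2 : ∀ x ∈ S, f₂ x ∈ S) (m3 : ∀ x ∈ S, f₃ x ∈ S)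
    (i1 : ∀ x ∈ S, f₁ (f₁ x) = x) (i2 : ∀ x ∈ S, f₂ (f₂ x) = x) (i3 : ∀ x ∈ S, f₃ (f₃ x) = x)
    (h12 : ∀ x ∈ S, f₁ (f₂ (f₁ (f₂ (f₁ (f₂ x))))) = x) (h13 : ∀ x ∈ S, f₁ (f₃ x) = f₃ (f₁ x))
    (h23 : ∀ x ∈ S, (fun y => f₂ (f₃ y))^[6] x = x)
    (conn : ∀ Q : X → Prop, (∃ d ∈ S, Q d) → (∀ d ∈ S, Q d → Q (f₁ d) ∧ Q (f₂ d) ∧ Q (f₃ d)) →
      ∀ d ∈ S, Q d)
    (nofix : ∀ d ∈ S, f₂ (f₃ d) ≠ d)
    (many : 7 ≤ (S.filter fun d => f₂ (f₃ (f₂ (f₃ d))) = d).card) :
    ∃ x y : ℤ, (S.card : ℤ) = 4 * (x ^ 2 - x * y + y ^ 2) := by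
  let mk : (f : X → X) → (∀ x ∈ S, f x ∈ S) → (∀ x ∈ S, f (f x) = x) → Equiv.Perm S :=
    fun f m i => Function.Involutive.toPerm (fun x => ⟨f x.1, m x.1 x.2⟩)
      fun x => Subtype.ext (i x.1 x.2)
  have := flags_card (mk f₁ m1 i1) (mk f₂ m2 i2) (mk f₃ m3 i3)
    (Equiv.ext fun x => Subtype.ext (i1 x.1 x.2)) (Equiv.ext fun x => Subtype.ext (i2 x.1 x.2))
    (Equiv.ext fun x => Subtype.ext (i3 x.1 x.2)) (Equiv.ext fun x => Subtype.ext (h12 x.1 x.2))
    (Equiv.ext fun x => Subtype.ext (h13 x.1 x.2)) (Equiv.ext fun x => Subtype.ext (h23 x.1 x.2))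
    (fun Q ⟨d, hd⟩ hQ d' => by
      obtain ⟨_, k⟩ := conn (fun x => ∃ hx : x ∈ S, Q ⟨x, hx⟩) ⟨d.1, d.2, d.2, hd⟩
        (fun x hx ⟨hx', q⟩ => ⟨⟨_, (hQ _ q).1⟩, ⟨_, (hQ _ q).2.1⟩, ⟨_, (hQ _ q).2.2⟩⟩) d'.1 d'.2
      exact k)
    (fun d e => nofix d.1 d.2 (congrArg Subtype.val e))
    (many.trans (by
      refine card_le_card_of_surjOn Subtype.val fun x hx => ?_
      obtain ⟨h1, h2⟩ := mem_filter.1 (mem_coe.1 hx)
      exact ⟨⟨x, h1⟩, mem_coe.2 (mem_filter.2 ⟨mem_univ _, Subtype.ext h2⟩), rfl⟩))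
  simpa using this

open Classical in
/-- The other triangle on the edge `p q`. -/
noncomputable def lfOth (F : Finset (Finset ι)) (p q r : ι) : ι :=
  if h : ∃ d, d ≠ r ∧ T F p q d then h.choose else r

/-- Change of the vertex of a flag. -/
def lf1 (x : ι × ι × ι × Fin 4) : ι × ι × ι × Fin 4 :=
  ![(x.1, x.2.1, x.2.2.1, 1), (x.1, x.2.1, x.2.2.1, 0), (x.2.1, x.1, x.2.2.1, 2),
    (x.2.1, x.1, x.2.2.1, 3)] x.2.2.2

/-- Change of the edge of a flag. -/
def lf2 (x : ι × ι × ι × Fin 4) : ι × ι × ι × Fin 4 :=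
  ![(x.2.1, x.1, x.2.2.1, 0), (x.1, x.2.1, x.2.2.1, 2), (x.1, x.2.1, x.2.2.1, 1),
    (x.1, x.2.2.1, x.2.1, 3)] x.2.2.2

open Classical in
/-- Change of the face of a flag. -/
noncomputable def lf3 (F : Finset (Finset ι)) (M : ι → ι → Prop) (x : ι × ι × ι × Fin 4) :
    ι × ι × ι × Fin 4 :=
  ![(x.1, x.2.1, lfOth F x.1 x.2.1 x.2.2.1, 0), (x.1, x.2.1, lfOth F x.1 x.2.1 x.2.2.1, 1),
    (x.1, x.2.1, x.2.2.1, 3), if M x.1 x.2.1 then (x.1, x.2.1, x.2.2.1, 2)
      else (x.1, x.2.1, lfOth F x.1 x.2.1 x.2.2.1, 3)] x.2.2.2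

open Classical in
/-- The flags after opening the matched edges. -/
noncomputable def lfS (V : Finset ι) (F : Finset (Finset ι)) (M : ι → ι → Prop) :
    Finset (ι × ι × ι × Fin 4) :=
  (V ×ˢ V ×ˢ V ×ˢ univ).filter fun x => T F x.1 x.2.1 x.2.2.1 ∧ (x.2.2.2 = 3 ∨ M x.1 x.2.1)

section

variable {V : Finset ι} {F : Finset (Finset ι)} {K : Finset ι} {M : ι → ι → Prop} {p q r d : ι}

omit [DecidableEq ι] in
lemma lf1_0 : lf1 (p, q, r, 0) = (p, q, r, 1) := rfl
omit [DecidableEq ι] in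
lemma lf1_1 : lf1 (p, q, r, 1) = (p, q, r, 0) := rfl
omit [DecidableEq ι] in
lemma lf1_2 : lf1 (p, q, r, 2) = (q, p, r, 2) := rfl
omit [DecidableEq ι] in
lemma lf1_3 : lf1 (p, q, r, 3) = (q, p, r, 3) := rfl
omit [DecidableEq ι] in
lemma lf2_0 : lf2 (p, q, r, 0) = (q, p, r, 0) := rfl
omit [DecidableEq ι] in
lemma lf2_1 : lf2 (p, q, r, 1) = (p, q, r, 2) := rfl
omit [DecidableEq ι] in
lemma lf2_2 : lf2 (p, q, r, 2) = (p, q, r, 1) := rfl
omit [DecidableEq ι] in
lemma lf2_3 : lf2 (p, q, r, 3) = (p, r, q, 3) := rfl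
lemma lf3_0 : lf3 F M (p, q, r, 0) = (p, q, lfOth F p q r, 0) := rfl
lemma lf3_1 : lf3 F M (p, q, r, 1) = (p, q, lfOth F p q r, 1) := rfl
lemma lf3_2 : lf3 F M (p, q, r, 2) = (p, q, r, 3) := rfl
lemma lf3_3 (h : M p q) : lf3 F M (p, q, r, 3) = (p, q, r, 2) := if_pos h
lemma lf3_3' (h : ¬ M p q) : lf3 F M (p, q, r, 3) = (p, q, lfOth F p q r, 3) := if_neg h

lemma lf_four (k : Fin 4) : k = 0 ∨ k = 1 ∨ k = 2 ∨ k = 3 := by revert k; decide

lemma Tri.lf_oth (h : Tri V F) (t : T F p q r) : lfOth F p q r ≠ r ∧ T F p q (lfOth F p q r) := by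
  have := h.next t
  unfold lfOth
  rw [dif_pos this]
  exact this.choose_spec

lemma Tri.lf_oth_eq (h : Tri V F) (t : T F p q r) (t' : T F p q d) (hd : d ≠ r) :
    lfOth F p q r = d :=
  (h.third t t' hd.symm (h.lf_oth t).2).resolve_left (h.lf_oth t).1

lemma Tri.lf_oth_oth (h : Tri V F) (t : T F p q r) : lfOth F p q (lfOth F p q r) = r :=
  h.lf_oth_eq (h.lf_oth t).2 t (h.lf_oth t).1.symm

lemma Tri.lf_oth_swap (h : Tri V F) (t : T F p q r) : lfOth F q p r = lfOth F p q r :=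
  h.lf_oth_eq t.s12 (h.lf_oth t).2.s12 (h.lf_oth t).1

lemma Tri.lf_mem (h : Tri V F) {k : Fin 4} :
    (p, q, r, k) ∈ lfS V F M ↔ T F p q r ∧ (k = 3 ∨ M p q) := by
  unfold lfS
  simp only [mem_filter, mem_product, mem_univ, and_true, and_iff_right_iff_imp]
  exact fun t => ⟨h.mem t.1, h.mem t.1.s12, h.mem t.1.s13⟩

/-- Case distinction on flags. -/
lemma Tri.lf_cases (h : Tri V F) {P : ι × ι × ι × Fin 4 → Prop}
    (h0 : ∀ p q r, T F p q r → M p q → P (p, q, r, 0))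
    (h1 : ∀ p q r, T F p q r → M p q → P (p, q, r, 1))
    (h2 : ∀ p q r, T F p q r → M p q → P (p, q, r, 2))
    (h3 : ∀ p q r, T F p q r → P (p, q, r, 3)) : ∀ x ∈ lfS V F M, P x := by
  rintro ⟨p, q, r, k⟩ hx
  obtain ⟨t, hk⟩ := h.lf_mem.1 hx
  rcases lf_four k with rfl | rfl | rfl | rfl
  · exact h0 p q r t (hk.resolve_left (by decide))
  · exact h1 p q r t (hk.resolve_left (by decide))
  · exact h2 p q r t (hk.resolve_left (by decide))
  · exact h3 p q r t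

lemma Tri.lf_step (h : Tri V F) (t : T F p q r) (t' : T F p q d) (hd : d ≠ r) (hm : ¬ M p q) :
    lf2 (lf3 F M (p, q, r, 3)) = (p, d, q, 3) := by
  rw [lf3_3' hm, lf2_3, h.lf_oth_eq t t' hd]

lemma Tri.lf_step3 (h : Tri V F) (t : T F p q r) (t' : T F p q d) (hd : d ≠ r) (hm : M p q) :
    lf2 (lf3 F M (lf2 (lf3 F M (lf2 (lf3 F M (p, q, r, 3)))))) = (p, d, q, 3) := by
  rw [lf3_3 hm, lf2_2, lf3_1, lf2_1, lf3_2, lf2_3, h.lf_oth_eq t t' hd]

lemma Matched.lf_six (h : Tri V F) (hM : Matched V F K M) (t : T F p q r) :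
    (fun y => lf2 (lf3 F M y))^[6] (p, q, r, 3) = (p, q, r, 3) := by
  simp only [Function.iterate_succ, Function.iterate_zero, Function.comp, id]
  by_cases hp : p ∈ K
  · obtain ⟨c, d, t1, t2, t3, ac, bd, nb⟩ := h.link4 (hM.four p hp) t.s23
    obtain ⟨m, hm⟩ := hM.ex p hp
    have ne : ∀ x, x ≠ m → ¬ M p x := fun x hx k => hx (hM.uniq _ _ _ k hm)
    have a1 := h.lf_step (M := M) t t1 ac.symm
    have a2 := h.lf_step (M := M) t1.s23 t2 bd.symm
    have a3 := h.lf_step (M := M) t2.s23 t3 ac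
    have a4 := h.lf_step (M := M) t3.s23 t.s23 bd
    have b1 := h.lf_step3 (M := M) t t1 ac.symm
    have b2 := h.lf_step3 (M := M) t1.s23 t2 bd.symm
    have b3 := h.lf_step3 (M := M) t2.s23 t3 ac
    have b4 := h.lf_step3 (M := M) t3.s23 t.s23 bd
    rcases nb m (hM.nb _ _ hm) with rfl | rfl | rfl | rfl
    · rw [a1 (ne _ t.2.2.1), a2 (ne _ ac.symm), a3 (ne _ t3.2.2.1), b4 hm]
    · rw [b1 hm, a2 (ne _ t1.2.2.1.symm), a3 (ne _ bd.symm), a4 (ne _ t.2.2.1.symm)]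
    · rw [a1 (ne _ t1.2.2.1), b2 hm, a3 (ne _ t2.2.2.1.symm), a4 (ne _ ac)]
    · rw [a1 (ne _ bd), a2 (ne _ t2.2.2.1), b3 hm, a4 (ne _ t3.2.2.1.symm)]
  · have ne : ∀ x, ¬ M p x := fun x k => hp (hM.mem _ _ k)
    obtain ⟨c, n1, t1⟩ := h.next t
    obtain ⟨d, n2, t2⟩ := h.next t1.s23
    obtain ⟨e, n3, t3⟩ := h.next t2.s23
    obtain ⟨f, n4, t4⟩ := h.next t3.s23
    obtain ⟨g, n5, t5⟩ := h.next t4.s23
    obtain ⟨k, n6, t6⟩ := h.next t5.s23
    obtain ⟨rfl, rfl⟩ := h.link6 (hM.six p (h.mem t) hp) t.s23 t1 t2 t3 t4 t5 t6 n1 n2 n3 n4 n5 n6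
    rw [h.lf_step t t1 n1 (ne _), h.lf_step t1.s23 t2 n2 (ne _), h.lf_step t2.s23 t3 n3 (ne _),
      h.lf_step t3.s23 t4 n4 (ne _), h.lf_step t4.s23 t5 n5 (ne _), h.lf_step t5.s23 t6 n6 (ne _)]

open Classical in
lemma Tri.lf_sum_third (h : Tri V F) (p q : ι) :
    ∑ r ∈ V, (if T F p q r then 1 else 0) = if Nb F p q then 2 else 0 := by
  rw [← card_filter]
  split_ifs with hn
  · obtain ⟨c, t⟩ := hn
    obtain ⟨d, hd, t'⟩ := h.next t
    refine card_eq_two.2 ⟨c, d, hd.symm, ?_⟩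
    ext x
    simp only [mem_filter, mem_insert, mem_singleton]
    refine ⟨fun k => h.third t t' hd.symm k.2, ?_⟩
    rintro (rfl | rfl)
    · exact ⟨h.mem t.s13, t⟩
    · exact ⟨h.mem t'.s13, t'⟩
  · exact card_eq_zero.2 (filter_eq_empty_iff.2 fun x _ t => hn t.nb)

open Classical in
lemma Tri.lf_sum_T (h : Tri V F) :
    ∑ p ∈ V, ∑ q ∈ V, ∑ r ∈ V, (if T F p q r then 1 else 0) + 24 = 12 * V.card := by
  have h1 : ∀ p, ∑ q ∈ V, (if Nb F p q then 2 else 0) = 2 * deg F p := by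
    intro p
    rw [h.deg_eq, card_filter, mul_sum]
    exact sum_congr rfl fun q _ => by split_ifs <;> rfl
  simp only [h.lf_sum_third, h1, ← mul_sum]
  have := h.toPre.sum_deg
  omega

open Classical in
lemma Matched.lf_sum_M (h : Tri V F) (hM : Matched V F K M) :
    ∑ p ∈ V, ∑ q ∈ V, ∑ r ∈ V, (if T F p q r ∧ M p q then 1 else 0) = 12 := by
  have h1 : ∀ p q, ∑ r ∈ V, (if T F p q r ∧ M p q then 1 else 0) = if M p q then 2 else 0 := by
    intro p q
    by_cases hm : M p q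
    · simp only [hm, and_true, if_true]
      rw [h.lf_sum_third, if_pos (hM.nb _ _ hm)]
    · simp [hm]
  have h2 : ∀ p, ∑ q ∈ V, (if M p q then 2 else 0) = if p ∈ K then 2 else 0 := by
    intro p
    split_ifs with hp
    · obtain ⟨m, hm⟩ := hM.ex p hp
      rw [sum_eq_single_of_mem m (hM.sub (hM.mem _ _ (hM.symm _ _ hm))), if_pos hm]
      exact fun q _ hq => if_neg fun k => hq (hM.uniq _ _ _ k hm)
    · exact sum_eq_zero fun q _ => if_neg fun k => hp (hM.mem _ _ k)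
  simp only [h1, h2]
  rw [← sum_filter, filter_mem_eq_inter, inter_eq_right.2 hM.sub, sum_const, hM.card]
  rfl

lemma Matched.lf_card (h : Tri V F) (hM : Matched V F K M) :
    (lfS V F M).card = 12 * (V.card + 1) := by
  classical
  have h1 : ∀ p q r, ∑ k : Fin 4, (if T F p q r ∧ (k = 3 ∨ M p q) then 1 else 0) =
      (if T F p q r then 1 else 0) + 3 * if T F p q r ∧ M p q then 1 else 0 := by
    intro p q r
    by_cases t : T F p q r <;> by_cases m : M p q <;> simp [t, m]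
  have h2 := h.lf_sum_T
  have h3 := hM.lf_sum_M h
  have h4 : (lfS V F M).card = ∑ p ∈ V, ∑ q ∈ V, ∑ r ∈ V, ∑ k : Fin 4,
      (if T F p q r ∧ (k = 3 ∨ M p q) then 1 else 0) := by
    unfold lfS
    rw [card_filter]
    simp only [sum_product]
  rw [h4]
  simp only [h1, sum_add_distrib, ← mul_sum]
  omega

lemma Matched.lf_many (h : Tri V F) (hM : Matched V F K M) :
    7 ≤ ((lfS V F M).filter fun d => lf2 (lf3 F M (lf2 (lf3 F M d))) = d).card := by
  classical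
  have h3 := hM.lf_sum_M h
  have h4 : ((V ×ˢ V ×ˢ V).filter fun x => T F x.1 x.2.1 x.2.2 ∧ M x.1 x.2.1).card = 12 := by
    rw [card_filter]
    simp only [sum_product]
    exact h3
  refine le_trans (by omega : 7 ≤ 12) (h4.ge.trans (card_le_card_of_injOn
    (fun x => (x.1, x.2.1, x.2.2, (0 : Fin 4))) ?_ ?_))
  · rintro ⟨p, q, r⟩ hx
    obtain ⟨-, t, m⟩ := mem_filter.1 (mem_coe.1 hx)
    refine mem_coe.2 (mem_filter.2 ⟨h.lf_mem.2 ⟨t, Or.inr m⟩, ?_⟩)
    rw [lf3_0, lf2_0, lf3_0, lf2_0, h.lf_oth_swap (h.lf_oth t).2, h.lf_oth_oth t]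
  · rintro ⟨p, q, r⟩ - ⟨p', q', r'⟩ - e
    simpa using e

lemma Matched.lf_conn (h : Tri V F) (Q : ι × ι × ι × Fin 4 → Prop)
    (h0 : ∃ d ∈ lfS V F M, Q d)
    (hQ : ∀ d ∈ lfS V F M, Q d → Q (lf1 d) ∧ Q (lf2 d) ∧ Q (lf3 F M d)) :
    ∀ d ∈ lfS V F M, Q d := by
  have o : ∀ {p q r}, T F p q r → (p, q, r, (3 : Fin 4)) ∈ lfS V F M :=
    fun t => h.lf_mem.2 ⟨t, Or.inl rfl⟩
  have n : ∀ {p q r} (k : Fin 4), T F p q r → M p q → (p, q, r, k) ∈ lfS V F M :=
    fun _ t m => h.lf_mem.2 ⟨t, Or.inr m⟩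
  have s12 : ∀ {p q r}, T F p q r → Q (p, q, r, 3) → Q (q, p, r, 3) :=
    fun t k => (hQ _ (o t) k).1
  have s23 : ∀ {p q r}, T F p q r → Q (p, q, r, 3) → Q (p, r, q, 3) :=
    fun t k => (hQ _ (o t) k).2.1
  have u23 : ∀ {p q r}, T F p q r → M p q → Q (p, q, r, 2) → Q (p, q, r, 3) :=
    fun t m k => (hQ _ (n 2 t m) k).2.2
  have u12 : ∀ {p q r}, T F p q r → M p q → Q (p, q, r, 1) → Q (p, q, r, 2) :=
    fun t m k => (hQ _ (n 1 t m) k).2.1
  have u01 : ∀ {p q r}, T F p q r → M p q → Q (p, q, r, 0) → Q (p, q, r, 1) :=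
    fun t m k => (hQ _ (n 0 t m) k).1
  have u32 : ∀ {p q r}, T F p q r → M p q → Q (p, q, r, 3) → Q (p, q, r, 2) :=
    fun t m k => lf3_3 (F := F) m ▸ (hQ _ (o t) k).2.2
  have u21 : ∀ {p q r}, T F p q r → M p q → Q (p, q, r, 2) → Q (p, q, r, 1) :=
    fun t m k => (hQ _ (n 2 t m) k).2.1
  have u10 : ∀ {p q r}, T F p q r → M p q → Q (p, q, r, 1) → Q (p, q, r, 0) :=
    fun t m k => (hQ _ (n 1 t m) k).1
  have perm : ∀ {a b c p q r}, T F a b c → T F p q r → ({a, b, c} : Finset ι) = {p, q, r} →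
      Q (p, q, r, 3) → Q (a, b, c, 3) := by
    intro a b c p q r t t' e k
    have ha : a ∈ ({p, q, r} : Finset ι) := e ▸ (by simp)
    have hb : b ∈ ({p, q, r} : Finset ι) := e ▸ (by simp)
    have hc : c ∈ ({p, q, r} : Finset ι) := e ▸ (by simp)
    simp only [mem_insert, mem_singleton] at ha hb hc
    have k1 := t.1
    have k2 := t.2.1
    have k3 := t.2.2.1
    rcases ha with rfl | rfl | rfl <;> rcases hb with rfl | rfl | rfl <;>
      rcases hc with rfl | rfl | rfl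
    all_goals first
      | exact absurd rfl k1
      | exact absurd rfl k2
      | exact absurd rfl k3
      | exact k
      | exact s12 t' k
      | exact s23 t' k
      | exact s12 t'.s23 (s23 t' k)
      | exact s23 t'.s12 (s12 t' k)
      | exact s12 t'.s12.s23 (s23 t'.s12 (s12 t' k))
  have all := h.conn (fun s => ∃ p q r, T F p q r ∧ s = {p, q, r} ∧ Q (p, q, r, 3))
    (by
      obtain ⟨d, hd, k⟩ := h0
      revert k
      refine h.lf_cases (P := fun d => Q d → ∃ t ∈ F, ∃ p q r, T F p q r ∧ t = {p, q, r} ∧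
        Q (p, q, r, 3)) ?_ ?_ ?_ ?_ d hd
      · exact fun p q r t m k => ⟨_, t.2.2.2, p, q, r, t, rfl, u23 t m (u12 t m (u01 t m k))⟩
      · exact fun p q r t m k => ⟨_, t.2.2.2, p, q, r, t, rfl, u23 t m (u12 t m k)⟩
      · exact fun p q r t m k => ⟨_, t.2.2.2, p, q, r, t, rfl, u23 t m k⟩
      · exact fun p q r t k => ⟨_, t.2.2.2, p, q, r, t, rfl, k⟩)
    (by
      rintro a b c d t t' ⟨p, q, r, t'', e, k⟩
      have k' := perm t t'' e k
      refine ⟨a, b, d, t', rfl, ?_⟩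
      by_cases hd : d = c
      · exact hd ▸ k'
      by_cases m : M a b
      · have := (hQ _ (n 1 t m) (u21 t m (u32 t m k'))).2.2
        rw [lf3_1, h.lf_oth_eq t t' hd] at this
        exact u23 t' m (u12 t' m this)
      · have := (hQ _ (o t) k').2.2
        rwa [lf3_3' m, h.lf_oth_eq t t' hd] at this)
  have three : ∀ p q r, T F p q r → Q (p, q, r, 3) := by
    intro p q r t
    obtain ⟨a, b, c, t', e, k⟩ := all _ t.2.2.2
    exact perm t t' e k
  exact h.lf_cases (fun p q r t m => u10 t m (u21 t m (u32 t m (three p q r t))))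
    (fun p q r t m => u21 t m (u32 t m (three p q r t))) (fun p q r t m => u32 t m (three p q r t))
    three

end

theorem Matched.norm {V : Finset ι} {F : Finset (Finset ι)} {K : Finset ι} {M : ι → ι → Prop}
    (h : Tri V F) (hM : Matched V F K M) :
    ∃ x y : ℤ, 3 * ((V.card : ℤ) + 1) = x ^ 2 - x * y + y ^ 2 := by
  obtain ⟨x, y, e⟩ := lf_flags (lfS V F M) lf1 lf2 (lf3 F M)
    (h.lf_cases (fun p q r t m => h.lf_mem.2 ⟨t, Or.inr m⟩)
      (fun p q r t m => h.lf_mem.2 ⟨t, Or.inr m⟩)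
      (fun p q r t m => h.lf_mem.2 ⟨t.s12, Or.inr (hM.symm _ _ m)⟩)
      (fun p q r t => h.lf_mem.2 ⟨t.s12, Or.inl rfl⟩))
    (h.lf_cases (fun p q r t m => h.lf_mem.2 ⟨t.s12, Or.inr (hM.symm _ _ m)⟩)
      (fun p q r t m => h.lf_mem.2 ⟨t, Or.inr m⟩)
      (fun p q r t m => h.lf_mem.2 ⟨t, Or.inr m⟩)
      (fun p q r t => h.lf_mem.2 ⟨t.s23, Or.inl rfl⟩))
    (h.lf_cases (fun p q r t m => h.lf_mem.2 ⟨(h.lf_oth t).2, Or.inr m⟩)
      (fun p q r t m => h.lf_mem.2 ⟨(h.lf_oth t).2, Or.inr m⟩)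
      (fun p q r t m => h.lf_mem.2 ⟨t, Or.inl rfl⟩)
      (fun p q r t => by
        by_cases m : M p q
        · rw [lf3_3 m]; exact h.lf_mem.2 ⟨t, Or.inr m⟩
        · rw [lf3_3' m]; exact h.lf_mem.2 ⟨(h.lf_oth t).2, Or.inl rfl⟩))
    (h.lf_cases (fun _ _ _ _ _ => rfl) (fun _ _ _ _ _ => rfl) (fun _ _ _ _ _ => rfl)
      (fun _ _ _ _ => rfl))
    (h.lf_cases (fun _ _ _ _ _ => rfl) (fun _ _ _ _ _ => rfl) (fun _ _ _ _ _ => rfl)
      (fun _ _ _ _ => rfl))
    (h.lf_cases (fun p q r t m => by rw [lf3_0, lf3_0, h.lf_oth_oth t])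
      (fun p q r t m => by rw [lf3_1, lf3_1, h.lf_oth_oth t])
      (fun p q r t m => by rw [lf3_2, lf3_3 m])
      (fun p q r t => by
        by_cases m : M p q
        · rw [lf3_3 m, lf3_2]
        · rw [lf3_3' m, lf3_3' m, h.lf_oth_oth t]))
    (h.lf_cases (fun _ _ _ _ _ => rfl) (fun _ _ _ _ _ => rfl) (fun _ _ _ _ _ => rfl)
      (fun _ _ _ _ => rfl))
    (h.lf_cases (fun _ _ _ _ _ => rfl) (fun _ _ _ _ _ => rfl)
      (fun p q r t m => by rw [lf3_2, lf1_3, lf1_2, lf3_2])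
      (fun p q r t => by
        by_cases m : M p q
        · rw [lf3_3 m, lf1_2, lf1_3, lf3_3 (hM.symm _ _ m)]
        · rw [lf3_3' m, lf1_3, lf1_3, lf3_3' fun k => m (hM.symm _ _ k), h.lf_oth_swap t]))
    (h.lf_cases
      (fun p q r t m => by
        have e : lf2 (lf3 F M (lf2 (lf3 F M (p, q, r, 0)))) = (p, q, r, 0) := by
          rw [lf3_0, lf2_0, lf3_0, lf2_0, h.lf_oth_swap (h.lf_oth t).2, h.lf_oth_oth t]
        simp only [Function.iterate_succ, Function.iterate_zero, Function.comp, id, e])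
      (fun p q r t m => by
        have e : (fun y => lf2 (lf3 F M y)) (p, q, r, 3) = (p, q, r, 1) := by
          simp only [lf3_3 m, lf2_2]
        rw [← e, ← Function.iterate_succ_apply, Function.iterate_succ_apply', hM.lf_six h t])
      (fun p q r t m => by
        have e : (fun y => lf2 (lf3 F M y))^[2] (p, q, lfOth F p q r, 3) = (p, q, r, 2) := by
          simp only [Function.iterate_succ, Function.iterate_zero, Function.comp, id]
          rw [lf3_3 m, lf2_2, lf3_1, lf2_1, h.lf_oth_oth t]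
        rw [← e, ← Function.iterate_add_apply, add_comm, Function.iterate_add_apply,
          hM.lf_six h (h.lf_oth t).2])
      (fun p q r t => hM.lf_six h t))
    (Matched.lf_conn h)
    (h.lf_cases
      (fun p q r t m e => t.1 (congrArg Prod.fst e).symm)
      (fun p q r t m e => absurd (congrArg (fun x => x.2.2.2) e) (by
        rw [lf3_1, lf2_1]; exact (by decide : ¬ (2 : Fin 4) = 1)))
      (fun p q r t m e => absurd (congrArg (fun x => x.2.2.2) e) (by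
        rw [lf3_2, lf2_3]; exact (by decide : ¬ (3 : Fin 4) = 2)))
      (fun p q r t e => by
        by_cases m : M p q
        · rw [lf3_3 m, lf2_2] at e
          exact absurd (congrArg (fun x => x.2.2.2) e) (by decide : ¬ (1 : Fin 4) = 3)
        · rw [lf3_3' m, lf2_3] at e
          exact t.2.2.1 (congrArg (fun x => x.2.2.1) e)))
    (hM.lf_many h)
  rw [hM.lf_card h] at e
  refine ⟨x, y, ?_⟩
  push_cast at e
  linarith

end Pool.Agent.P.MP_e40812_co
end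

-- part Pool.Agent.P.MP_e40812_co.LoPeel
section

/-!
Removing two levels of vertices of degree three.
-/

namespace Pool.Agent.P.MP_e40812_co

open Finset

/-- The face sizes on the line: `p_3 = 6m+21`, `p_5 = 3`, `p_6 = 2m+5`, `p_15 = 6`, `p_24 = m`. -/
def sl (m : ℕ) : Multiset ℕ :=
  Multiset.replicate (6 * m + 21) 3 + Multiset.replicate 3 5 + Multiset.replicate (2 * m + 5) 6 +
    Multiset.replicate 6 15 + Multiset.replicate m 24

lemma lp_countP_replicate (p : ℕ → Prop) [DecidablePred p] (n a : ℕ) :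
    Multiset.countP p (Multiset.replicate n a) = if p a then n else 0 := by
  induction n with
  | zero => simp
  | succ n ih =>
    rw [Multiset.replicate_succ, Multiset.countP_cons, ih]
    split_ifs <;> rfl

lemma lp_count {ι : Type*} {V : Finset ι} {f : ι → ℕ} {m : ℕ} (hs : V.val.map f = sl m)
    (p : ℕ → Prop) [DecidablePred p] :
    (V.filter fun v => p (f v)).card = (if p 3 then 6 * m + 21 else 0) + (if p 5 then 3 else 0) +
      (if p 6 then 2 * m + 5 else 0) + (if p 15 then 6 else 0) + (if p 24 then m else 0) := by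
  have h1 : (V.filter fun v => p (f v)).card = Multiset.countP p (V.val.map f) := by
    rw [Multiset.countP_map]
    rfl
  rw [h1, hs]
  simp only [sl, Multiset.countP_add, lp_countP_replicate]

lemma lp_mem {ι : Type*} {V : Finset ι} {f : ι → ℕ} {m : ℕ} (hs : V.val.map f = sl m)
    {v : ι} (hv : v ∈ V) : f v = 3 ∨ f v = 5 ∨ f v = 6 ∨ f v = 15 ∨ f v = 24 := by
  have h1 : f v ∈ sl m := hs ▸ Multiset.mem_map_of_mem f hv
  simp only [sl, Multiset.mem_add, Multiset.mem_replicate] at h1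
  tauto

lemma lp_deg_sdiff {ι : Type*} [DecidableEq ι] {G L : Finset (Finset ι)} (h : L ⊆ G) (v : ι) :
    deg G v = deg L v + deg (G \ L) v := by
  simp only [deg, card_filter]
  rw [← sum_sdiff h, add_comm]

theorem peel_two {ι : Type*} [DecidableEq ι] {V : Finset ι} {F : Finset (Finset ι)} {m : ℕ}
    (h : Tri V F) (hs : V.val.map (deg F) = sl m) :
    ∃ (W : Finset ι) (G : Finset (Finset ι)) (K : Finset ι) (M : ι → ι → Prop),
      Tri W G ∧ W.card = m + 6 ∧ Matched W G K M := by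
  have cV : V.card = 9 * m + 35 := by
    have := lp_count hs fun _ => True
    simp only [filter_true, if_true] at this
    omega
  obtain ⟨Y0, hY0⟩ : ∃ Y0, Y0 = V.filter fun v => deg F v = 3 := ⟨_, rfl⟩
  obtain ⟨Y1, hY1⟩ : ∃ Y1, Y1 = V.filter fun v => deg F v = 5 ∨ deg F v = 6 := ⟨_, rfl⟩
  obtain ⟨K, hK⟩ : ∃ K, K = V.filter fun v => deg F v = 15 := ⟨_, rfl⟩
  obtain ⟨P, hP⟩ : ∃ P, P = V.filter fun v => deg F v = 5 := ⟨_, rfl⟩
  have m0 : ∀ v, v ∈ Y0 ↔ v ∈ V ∧ deg F v = 3 := fun v => by rw [hY0, mem_filter]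
  have m1 : ∀ v, v ∈ Y1 ↔ v ∈ V ∧ (deg F v = 5 ∨ deg F v = 6) := fun v => by rw [hY1, mem_filter]
  have mK : ∀ v, v ∈ K ↔ v ∈ V ∧ deg F v = 15 := fun v => by rw [hK, mem_filter]
  have mP : ∀ v, v ∈ P ↔ v ∈ V ∧ deg F v = 5 := fun v => by rw [hP, mem_filter]
  have c0 : Y0.card = 6 * m + 21 := by
    rw [hY0, lp_count hs fun d => d = 3]
    simp
  have c1 : Y1.card = 2 * m + 8 := by
    rw [hY1, lp_count hs fun d => d = 5 ∨ d = 6]
    simp
    omega
  have cK : K.card = 6 := by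
    rw [hK, lp_count hs fun d => d = 15]
    simp
  have cP : P.card = 3 := by
    rw [hP, lp_count hs fun d => d = 5]
    simp
  have cO : (V.filter fun v => deg F v = 5 ∨ deg F v = 15).card = 9 := by
    rw [lp_count hs fun d => d = 5 ∨ d = 15]
    simp
  have s0 : Y0 ⊆ V := fun v hv => ((m0 v).1 hv).1
  have mV1 : ∀ v, v ∈ V \ Y0 ↔ v ∈ V ∧ deg F v ≠ 3 := fun v => by
    rw [mem_sdiff, m0]
    tauto
  have cV1 : (V \ Y0).card = 3 * m + 14 := by
    have := card_sdiff_add_card_eq_card s0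
    omega
  obtain ⟨G1, L1, t1, l1, cl1, -, d1, -, -⟩ :=
    unstack_all Y0 V F h s0 (by omega) fun y hy => ((m0 y).1 hy).2
  obtain ⟨U, hU⟩ : ∃ U, U = G1 \ L1 := ⟨_, rfl⟩
  have sU : U ⊆ G1 := hU ▸ sdiff_subset
  have cU : U.card = 3 := by
    have h1 := card_sdiff_add_card_eq_card l1
    have h2 := t1.card
    rw [← hU] at h1
    omega
  have e1 : ∀ v ∈ V \ Y0, deg F v + deg U v = 2 * deg G1 v := fun v hv => by
    have h1 := d1 v hv
    have h2 := lp_deg_sdiff l1 v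
    rw [← hU] at h2
    omega
  have sumU : ∑ v ∈ V \ Y0, deg U v = 9 := by
    rw [sum_deg, sum_congr rfl (g := fun _ => 3) fun t ht => by
      rw [inter_eq_left.2 (t1.sub t (sU ht)), t1.three t (sU ht)], sum_const, cU]
    rfl
  have dU : ∀ v ∈ V \ Y0, (if deg F v = 5 ∨ deg F v = 15 then 1 else 0) = deg U v := by
    rw [← sum_eq_sum_iff_of_le]
    · rw [sumU, ← card_filter, ← cO]
      congr 1
      ext v
      simp only [mem_filter, mV1]
      constructor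
      · tauto
      · rintro ⟨h1, h2⟩
        exact ⟨⟨h1, by omega⟩, h2⟩
    · intro v hv
      have := e1 v hv
      split_ifs <;> omega
  have s1 : Y1 ⊆ V \ Y0 := fun v hv => by
    rw [m1] at hv
    rw [mV1]
    exact ⟨hv.1, by omega⟩
  have cW : ((V \ Y0) \ Y1).card = m + 6 := by
    have := card_sdiff_add_card_eq_card s1
    omega
  have g3 : ∀ y ∈ Y1, deg G1 y = 3 := fun y hy => by
    have h1 := e1 y (s1 hy)
    have h2 := dU y (s1 hy)
    have h3 := ((m1 y).1 hy).2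
    split_ifs at h2 <;> omega
  obtain ⟨G2, L2, t2, l2, cl2, -, d2, n2, -⟩ :=
    unstack_all Y1 (V \ Y0) G1 t1 s1 (by omega) g3
  have eL : L2 = G2 := eq_of_subset_of_card_le l2 (by
    have := t2.card
    omega)
  subst eL
  have mW : ∀ v, v ∈ (V \ Y0) \ Y1 ↔ v ∈ V ∧ (deg F v = 15 ∨ deg F v = 24) := fun v => by
    rw [mem_sdiff, mV1, m1]
    constructor
    · rintro ⟨⟨h1, h2⟩, h3⟩
      have := lp_mem hs h1
      simp only [h1, true_and] at h3
      exact ⟨h1, by omega⟩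
    · rintro ⟨h1, h2⟩
      exact ⟨⟨h1, by omega⟩, fun h3 => by omega⟩
  have sK : K ⊆ (V \ Y0) \ Y1 := fun v hv => by
    rw [mK] at hv
    rw [mW]
    exact ⟨hv.1, Or.inl hv.2⟩
  have sK1 : K ⊆ V \ Y0 := sK.trans sdiff_subset
  have sP : P ⊆ Y1 := fun v hv => by
    rw [mP] at hv
    rw [m1]
    exact ⟨hv.1, Or.inl hv.2⟩
  have uP : ∀ u ∈ U, (u ∩ P).card ≤ 1 := fun u hu => card_le_one.2 fun a ha b hb => by
    by_contra hab
    rw [mem_inter] at ha hb
    obtain ⟨c, k, -⟩ := t1.toPre.exists_T2 (sU hu) ha.1 hb.1 hab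
    exact t1.not_nb33 (by omega) (g3 a (sP ha.2)) (g3 b (sP hb.2)) k.nb
  have uP' : ∀ u ∈ U, (u ∩ P).card = 1 := by
    rw [← sum_eq_sum_iff_of_le uP, ← sum_deg, sum_congr rfl (g := fun _ => 1) fun v hv => by
      rw [← dU v (s1 (sP hv)), if_pos (Or.inl ((mP v).1 hv).2)]]
    simp [cP, cU]
  have uO : ∀ u ∈ U, ∀ v ∈ u, v ∈ P ∨ v ∈ K := fun u hu v hv => by
    have h1 := t1.sub u (sU hu) hv
    have h2 := dU v h1
    have h3 : 0 < deg U v := card_pos.2 ⟨u, mem_filter.2 ⟨hu, hv⟩⟩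
    have h4 := (mem_sdiff.1 h1).1
    rw [mP, mK]
    split_ifs at h2 with h5
    · tauto
    · omega
  have dK : ∀ a ∈ K, deg U a = 1 := fun a ha => by
    rw [← dU a (sK1 ha), if_pos (Or.inr ((mK a).1 ha).2)]
  refine ⟨_, L2, K, fun a b => a ≠ b ∧ a ∈ K ∧ b ∈ K ∧ ∃ u ∈ U, a ∈ u ∧ b ∈ u, t2, cW, sK, cK,
    fun v hv => ?_, fun v hv hvK => ?_, ?_, fun a b k => k.2.1, ?_, fun a ha => ?_, ?_⟩
  · have h1 := d2 v (sK hv)
    have h2 := e1 v (sK1 hv)
    have h3 := dK v hv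
    have h4 := ((mK v).1 hv).2
    omega
  · have h1 := d2 v hv
    have h2 := e1 v (mem_sdiff.1 hv).1
    have h3 := dU v (mem_sdiff.1 hv).1
    have h4 := (mW v).1 hv
    rw [mK] at hvK
    simp only [h4.1, true_and] at hvK
    split_ifs at h3 <;> omega
  · rintro a b ⟨hab, ha, hb, u, hu, hau, hbu⟩
    exact ⟨hab.symm, hb, ha, u, hu, hbu, hau⟩
  · rintro a b ⟨hab, ha, hb, u, hu, hau, hbu⟩
    obtain ⟨c, k, -⟩ := t1.toPre.exists_T2 (sU hu) hau hbu hab
    exact n2 a (sK ha) b (sK hb) k.nb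
  · obtain ⟨u, hu⟩ := card_pos.1 (show 0 < deg U a by rw [dK a ha]; exact one_pos)
    obtain ⟨hu, hau⟩ := mem_filter.1 hu
    obtain ⟨b, c, k, rfl⟩ := t1.toPre.exists_T (sU hu) hau
    rcases uO _ hu b (by simp) with hb | hb
    · rcases uO _ hu c (by simp) with hc | hc
      · exact absurd (card_le_one.1 (uP _ hu) b (mem_inter.2 ⟨by simp, hb⟩) c
          (mem_inter.2 ⟨by simp, hc⟩)) k.rot.nb.ne
      · exact ⟨c, k.nb'.ne, ha, hc, _, hu, hau, by simp⟩
    · exact ⟨b, k.nb.ne, ha, hb, _, hu, hau, by simp⟩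
  · rintro a b c ⟨hab, ha, hb, u, hu, hau, hbu⟩ ⟨hac, -, hc, u', hu', hau', hcu⟩
    obtain rfl : u = u' := card_le_one.1 (dK a ha).le u (mem_filter.2 ⟨hu, hau⟩) u'
      (mem_filter.2 ⟨hu', hau'⟩)
    by_contra hbc
    obtain ⟨x, k, e⟩ := t1.toPre.exists_T2 (sU hu) hau hbu hab
    obtain ⟨p, hp⟩ := card_pos.1 (show 0 < (u ∩ P).card by rw [uP' u hu]; exact one_pos)
    obtain ⟨hp, hpP⟩ := mem_inter.1 hp
    have hpK : p ∈ K := by
      rw [e] at hp hcu
      simp only [mem_insert, mem_singleton] at hp hcu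
      rcases hcu with rfl | rfl | rfl
      · exact absurd rfl hac
      · exact absurd rfl hbc
      · rcases hp with rfl | rfl | rfl
        exacts [ha, hb, hc]
    have h1 := ((mP p).1 hpP).2
    have h2 := ((mK p).1 hpK).2
    omega

end Pool.Agent.P.MP_e40812_co
end

-- part Pool.Agent.P.MP_e40812_co.LoBuild
section

/-!
Triangulated spheres with three adjacent pairs of vertices of degree four, for every value of
`x² + xy + y²` that is at least seven.
-/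

namespace Pool.Agent.P.MP_e40812_co

open List (replicate)

section Aux

variable {L L' A B R : List (ℕ × ℕ)} {M M' : Multiset (ℕ × ℕ)} {E E' : Set ℕ}

lemma lb_cast (h : St L M E) (hL : L = L') (hM : M = M') : St L' M' E := hL ▸ hM ▸ h

lemma lb_rot (A B : List (ℕ × ℕ)) (h : St L M E) (hL : L = A ++ B) (hL' : B ++ A = L') :
    St L' M E := hL' ▸ St.rot (hL ▸ h)

lemma lb_op (p : ℕ × ℕ) (mid : List (ℕ × ℕ)) (q : ℕ × ℕ) (R : List (ℕ × ℕ)) (t : ℕ)
    (h : St L M E) (hL : L = p :: (mid ++ q :: R)) :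
    St (inc p :: (mid.length + 3, t) :: inc q :: R) (M + mid) E :=
  St.op t (hL ▸ h) fun _ hi => Or.inl hi

lemma lb_mark (p : ℕ × ℕ) (mid : List (ℕ × ℕ)) (q : ℕ × ℕ) (R : List (ℕ × ℕ))
    (h : St L M {1}) (hL : L = p :: (mid ++ q :: R)) (hm : ∃ l ∈ p :: mid, l.2 = 2) :
    St (inc p :: (mid.length + 3, 2) :: inc q :: R) (M + mid) {1, 2} :=
  St.op 2 (hL ▸ h) fun _ hi => hi.imp id fun hi => ⟨hi, hm⟩

lemma lb_good (h : Good M E) (hM : M = M') (hE : E' ⊆ E) : Good M' E' := by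
  obtain ⟨V, F, τ, h1, h2, h3, h4⟩ := h
  exact ⟨V, F, τ, h1, h2, hM ▸ h3, fun i hi => h4 i (hE hi)⟩

lemma lb_coe (a : ℕ × ℕ) (l : List (ℕ × ℕ)) :
    ((a :: l : List (ℕ × ℕ)) : Multiset (ℕ × ℕ)) = {a} + (l : Multiset (ℕ × ℕ)) := rfl

lemma lb_snoc (n : ℕ) (a : ℕ × ℕ) : replicate (n + 1) a = replicate n a ++ [a] :=
  List.replicate_succ'

lemma lb_sweep (n : ℕ) : ∀ {x y : ℕ × ℕ} {R : List (ℕ × ℕ)} {M : Multiset (ℕ × ℕ)},
    St (x :: (6, 0) :: (replicate n (5, 0) ++ y :: R)) M E →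
    St (inc x :: (replicate n (5, 0) ++ (4, 0) :: inc y :: R)) (M + (n + 1) • {(6, 0)}) E := by
  induction n with
  | zero =>
    intro x y R M h
    exact lb_cast (lb_op x [(6, 0)] y R 0 h rfl) rfl (by simp)
  | succ n ih =>
    intro x y R M h
    have h1 := lb_op x [(6, 0)] (5, 0) (replicate n (5, 0) ++ y :: R) 0 h rfl
    have h2 := ih (lb_rot [inc x] _ h1 rfl
      (L' := (4, 0) :: (6, 0) :: (replicate n (5, 0) ++ y :: (R ++ [inc x]))) (by simp [inc]))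
    refine lb_cast (lb_rot ((5, 0) :: (replicate n (5, 0) ++ (4, 0) :: inc y :: R)) [inc x] h2
      (by simp [inc]) rfl) rfl ?_
    simp only [lb_coe, Multiset.coe_nil]
    module

lemma lb_step {a b : ℕ}
    (h : St ((4, 0) :: (replicate a (5, 0) ++ (4, 0) :: replicate (b + 1) (5, 0))) M E) :
    St ((4, 0) :: (replicate b (5, 0) ++ (4, 0) :: replicate (a + 2) (5, 0)))
      (M + (b + 1) • {(6, 0)}) E := by
  have h1 := lb_rot ((4, 0) :: replicate a (5, 0)) ((4, 0) :: replicate (b + 1) (5, 0)) h rfl rfl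
  have h2 := lb_op (4, 0) [] (5, 0) (replicate b (5, 0) ++ (4, 0) :: replicate a (5, 0)) 0 h1 rfl
  have h3 := lb_sweep b (lb_rot [(5, 0)] _ h2 rfl (L' := (3, 0) :: (6, 0) ::
    (replicate b (5, 0) ++ (4, 0) :: replicate (a + 1) (5, 0))) (by simp [inc, lb_snoc]))
  exact lb_cast h3 rfl (by simp)

lemma lb_swap {a b : ℕ} {u w : ℕ × ℕ}
    (h : St (u :: (replicate a (5, 0) ++ w :: replicate b (5, 0))) M E) :
    St (w :: (replicate b (5, 0) ++ u :: replicate a (5, 0))) M E :=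
  lb_rot (u :: replicate a (5, 0)) (w :: replicate b (5, 0)) h rfl rfl

lemma lb_four : St [(3, 0), (4, 1), (3, 0), (4, 1)] 0 {1} :=
  lb_cast (lb_rot [(4, 1), (3, 0), (4, 1)] [(3, 0)]
    (lb_op (3, 1) [] (3, 1) [(3, 0)] 0 St.init rfl) rfl rfl) rfl (by simp)

lemma lb_grow (k : ℕ) : ∀ a b : ℕ, a + b = k + 2 → a % 3 = b % 3 →
    ∃ n, 6 * (n + 2) = a ^ 2 + 4 * a * b + b ^ 2 + 3 * a + 3 * b ∧
      St ((4, 0) :: (replicate a (5, 0) ++ (4, 0) :: replicate b (5, 0)))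
        (2 • {(4, 1)} + n • {(6, 0)}) {1} := by
  induction k with
  | zero =>
    intro a b h1 h2
    obtain ⟨rfl, rfl⟩ : a = 1 ∧ b = 1 := by omega
    have h3 := lb_rot [(4, 0), (4, 0)] [(4, 0), (4, 1)]
      (lb_op (3, 0) [(4, 1)] (3, 0) [(4, 1)] 0 lb_four rfl) rfl rfl
    have h4 := lb_rot [(5, 0)] [(4, 0), (5, 0), (4, 0)]
      (lb_op (4, 0) [(4, 1)] (4, 0) [(4, 0)] 0 h3 rfl) rfl rfl
    refine ⟨0, by norm_num, lb_cast h4 rfl ?_⟩
    simp only [lb_coe, Multiset.coe_nil]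
    module
  | succ k ih =>
    have key : ∀ a b : ℕ, a + (b + 2) = k + 1 + 2 → a % 3 = (b + 2) % 3 →
        ∃ n, 6 * (n + 2) = a ^ 2 + 4 * a * (b + 2) + (b + 2) ^ 2 + 3 * a + 3 * (b + 2) ∧
          St ((4, 0) :: (replicate a (5, 0) ++ (4, 0) :: replicate (b + 2) (5, 0)))
            (2 • {(4, 1)} + n • {(6, 0)}) {1} := fun a b h1 h2 => by
      obtain ⟨n, hn, h⟩ := ih b (a + 1) (by omega) (by omega)
      exact ⟨n + (a + 1), by nlinarith, lb_cast (lb_step h) rfl (by module)⟩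
    intro a b h1 h2
    by_cases hb : 2 ≤ b
    · obtain ⟨b, rfl⟩ : ∃ c, b = c + 2 := ⟨b - 2, by omega⟩
      exact key a b h1 h2
    · obtain ⟨a, rfl⟩ : ∃ c, a = c + 2 := ⟨a - 2, by omega⟩
      obtain ⟨n, hn, h⟩ := key b a (by omega) (by omega)
      exact ⟨n, by nlinarith, lb_swap h⟩

lemma lb_sweepC (n : ℕ) : ∀ {x z w y : ℕ × ℕ} {R : List (ℕ × ℕ)} {M : Multiset (ℕ × ℕ)},
    St (x :: z :: (replicate n (5, 0) ++ w :: y :: R)) M E →
    St (inc x :: (replicate (n + 1) (5, 0) ++ inc y :: R)) (M + {z} + {w} + n • {(6, 0)}) E := by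
  induction n with
  | zero =>
    intro x z w y R M h
    refine lb_cast (lb_op x [z, w] y R 0 h rfl) rfl ?_
    simp only [lb_coe, Multiset.coe_nil]
    module
  | succ n ih =>
    intro x z w y R M h
    have h1 := lb_op x [z] (5, 0) (replicate n (5, 0) ++ w :: y :: R) 0 h rfl
    have h2 := ih (lb_rot [inc x] _ h1 rfl
      (L' := (4, 0) :: (6, 0) :: (replicate n (5, 0) ++ w :: y :: (R ++ [inc x]))) (by simp [inc]))
    refine lb_cast (lb_rot ((5, 0) :: (replicate (n + 1) (5, 0) ++ inc y :: R)) [inc x] h2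
      (by simp [inc]) rfl) rfl ?_
    simp only [lb_coe, Multiset.coe_nil]
    module

lemma lb_close (k : ℕ) : ∀ (a b : ℕ) {u w : ℕ × ℕ} {M : Multiset (ℕ × ℕ)}, a + b = k + 2 →
    a % 3 = b % 3 → St (u :: (replicate a (5, 0) ++ w :: replicate b (5, 0))) M E →
    ∃ n, 6 * (n + 2) = a ^ 2 + 4 * a * b + b ^ 2 + 3 * a + 3 * b ∧
      Good (M + {u} + {w} + 2 • {(4, 3)} + (a + b + n) • {(6, 0)}) (insert 3 E) := by
  induction k with
  | zero =>
    intro a b u w M h1 h2 h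
    obtain ⟨rfl, rfl⟩ : a = 1 ∧ b = 1 := by omega
    have h3 := lb_rot [u, (5, 0), w] [(5, 0)] h rfl rfl
    have h4 := lb_rot [(6, 0)] [(4, 3), (6, 0), w] (lb_op (5, 0) [u] (5, 0) [w] 3 h3 rfl) rfl rfl
    refine ⟨0, by norm_num, lb_good (St.fin (p := (4, 3)) (L := [(6, 0), w, (6, 0)]) h4) ?_ le_rfl⟩
    simp only [lb_coe, Multiset.coe_nil, ← Multiset.singleton_add, List.length_cons,
      List.length_nil]
    module
  | succ k ih =>
    have key : ∀ (a b : ℕ) {u w : ℕ × ℕ} {M : Multiset (ℕ × ℕ)}, a + (b + 2) = k + 1 + 2 →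
        a % 3 = (b + 2) % 3 → St (u :: (replicate a (5, 0) ++ w :: replicate (b + 2) (5, 0))) M E →
        ∃ n, 6 * (n + 2) = a ^ 2 + 4 * a * (b + 2) + (b + 2) ^ 2 + 3 * a + 3 * (b + 2) ∧
          Good (M + {u} + {w} + 2 • {(4, 3)} + (a + (b + 2) + n) • {(6, 0)}) (insert 3 E) := by
      intro a b u w M h1 h2 h
      have h3 := lb_rot (u :: (replicate a (5, 0) ++ w :: replicate (b + 1) (5, 0))) [(5, 0)] h
        (by simp [lb_snoc (b + 1)]) rfl
      obtain ⟨n, hn, h4⟩ := ih (a + 1) b (u := (6, 0)) (w := (6, 0)) (by omega) (by omega)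
        (lb_sweepC a (y := (5, 0)) (R := replicate b (5, 0)) h3)
      exact ⟨n + (a + 1), by nlinarith, lb_good h4 (by module) le_rfl⟩
    intro a b u w M h1 h2 h
    by_cases hb : 2 ≤ b
    · obtain ⟨b, rfl⟩ : ∃ c, b = c + 2 := ⟨b - 2, by omega⟩
      exact key a b h1 h2 h
    · obtain ⟨a, rfl⟩ : ∃ c, a = c + 2 := ⟨a - 2, by omega⟩
      obtain ⟨n, hn, h4⟩ := key b a (by omega) (by omega) (lb_swap h)
      exact ⟨n, by nlinarith, lb_good h4 (by module) le_rfl⟩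

lemma lb_zip (hE : 0 ∉ E) (a : ℕ) : ∀ (b : ℕ) {x y z : ℕ × ℕ} {M : Multiset (ℕ × ℕ)},
    a % 3 = b % 3 → St (x :: y :: z :: (replicate a (5, 0) ++ (4, 0) :: replicate b (5, 0))) M E →
    ∃ n, 6 * n + 2 * a * b = 9 * (a + b) + a ^ 2 + b ^ 2 ∧
      Good (M + {x} + {y} + {z} + 2 • {(4, 3)} + n • {(6, 0)}) (insert 3 E) := by
  induction a with
  | zero =>
    intro b x y z M h2 h
    rcases b with _ | b
    · have h3 := St.retag (p := (4, 0)) (L := [x, y, z]) 3 (lb_rot [x, y, z] [(4, 0)] h rfl rfl) hE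
      refine ⟨0, by norm_num, lb_good (St.fin h3) ?_ le_rfl⟩
      simp only [lb_coe, Multiset.coe_nil, ← Multiset.singleton_add, List.length_cons,
        List.length_nil]
      module
    · have h3 := lb_rot (x :: y :: z :: (4, 0) :: replicate b (5, 0)) [(5, 0)] h
        (by simp [lb_snoc]) rfl
      obtain ⟨n, hn, h4⟩ := lb_close (b - 1) 0 (b + 1) (u := (6, 0)) (w := (6, 0)) (by omega) h2
        (lb_op (5, 0) [x, y, z] (4, 0) (replicate b (5, 0)) 0 h3 rfl)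
      refine ⟨n + 2 + (b + 1), by nlinarith, lb_good h4 ?_ le_rfl⟩
      simp only [lb_coe, Multiset.coe_nil]
      module
  | succ a ih =>
    intro b x y z M h2 h
    rcases b with _ | b
    · have h3 := lb_rot (x :: y :: z :: replicate (a + 1) (5, 0)) [(4, 0)] h (by simp) rfl
      have h4 := lb_rot [(5, 0)] ((6, 0) :: (6, 0) :: replicate a (5, 0))
        (lb_op (4, 0) [x, y, z] (5, 0) (replicate a (5, 0)) 0 h3 rfl) rfl
        (L' := (6, 0) :: (replicate 0 (5, 0) ++ (6, 0) :: replicate (a + 1) (5, 0)))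
        (by simp [lb_snoc])
      obtain ⟨n, hn, h5⟩ := lb_close (a - 1) 0 (a + 1) (by omega) h2.symm h4
      refine ⟨n + 2 + (a + 1), by nlinarith, lb_good h5 ?_ le_rfl⟩
      simp only [lb_coe, Multiset.coe_nil]
      module
    · have h3 := lb_rot (x :: y :: z :: (replicate (a + 1) (5, 0) ++ (4, 0) :: replicate b (5, 0)))
        [(5, 0)] h (by simp [lb_snoc b]) rfl
      obtain ⟨n, hn, h4⟩ := ih b (x := (6, 0)) (y := (6, 0)) (z := (6, 0)) (by omega)
        (lb_op (5, 0) [x, y, z] (5, 0) (replicate a (5, 0) ++ (4, 0) :: replicate b (5, 0)) 0 h3 rfl)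
      refine ⟨n + 3, by nlinarith, lb_good h4 ?_ le_rfl⟩
      simp only [lb_coe, Multiset.coe_nil]
      module

lemma lb_sub : ({1, 2, 3} : Set ℕ) ⊆ insert 3 {1, 2} := by
  intro i hi
  simp only [Set.mem_insert_iff, Set.mem_singleton_iff] at hi ⊢
  omega

lemma lb_main {m x y : ℕ} (hxy : y ≤ x) (h : m + 7 = x ^ 2 + x * y + y ^ 2) :
    Good (2 • {(4, 1)} + 2 • {(4, 2)} + 2 • {(4, 3)} + m • {(6, 0)}) {1, 2, 3} := by
  have hE : 0 ∉ ({1, 2} : Set ℕ) := by simp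
  have hE' : 0 ∉ ({1} : Set ℕ) := by simp
  rcases y with _ | y
  · obtain ⟨a, rfl⟩ : ∃ a, x = a + 3 := ⟨x - 3, by
      have : 3 ≤ x := by nlinarith
      omega⟩
    obtain ⟨n, hn, h1⟩ := lb_grow (2 * a) (a + 1) (a + 1) (by omega) rfl
    have h2 := lb_rot ((4, 2) :: (replicate (a + 1) (5, 0) ++ (4, 0) :: replicate a (5, 0))) [(5, 0)]
      (St.retag 2 h1 hE') (by simp [lb_snoc a]) rfl
    obtain ⟨n', hn', h3⟩ := lb_zip hE a a (x := (6, 0)) (y := (4, 2)) (z := (6, 0)) rfl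
      (lb_mark (5, 0) [(4, 2)] (5, 0) (replicate a (5, 0) ++ (4, 0) :: replicate a (5, 0)) h2 rfl
        ⟨(4, 2), by simp, rfl⟩)
    obtain rfl : m = n + 2 + n' := by nlinarith
    refine lb_good h3 ?_ lb_sub
    simp only [lb_coe, Multiset.coe_nil]
    module
  by_cases h21 : x + 2 * y < 3
  · obtain ⟨rfl, rfl⟩ : x = 2 ∧ y = 0 := by
      obtain rfl : y = 0 := by omega
      have : 2 ≤ x := by nlinarith
      omega
    obtain rfl : m = 0 := by omega
    have h1 := lb_rot [(4, 2), (4, 2)] [(4, 0), (4, 1)] (lb_mark (3, 2) [(4, 1)] (3, 0) [(4, 1)]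
      (St.retag 2 lb_four hE') rfl ⟨(3, 2), by simp, rfl⟩) rfl rfl
    refine lb_good (St.fin (St.retag (p := (4, 0)) (L := [(4, 1), (4, 2), (4, 2)]) 3 h1 hE)) ?_
      lb_sub
    simp only [lb_coe, Multiset.coe_nil, ← Multiset.singleton_add, List.length_cons,
      List.length_nil]
    module
  obtain ⟨b, rfl⟩ : ∃ b, x = y + 1 + b := ⟨x - (y + 1), by omega⟩
  obtain ⟨a, ha⟩ : ∃ a, a + 2 = 3 * y + b := ⟨3 * y + b - 2, by omega⟩
  obtain ⟨n, hn, h1⟩ := lb_grow (a + b - 1) a (b + 1) (by omega) (by omega)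
  have h2 := lb_rot [(5, 0)] _
    (lb_op (4, 0) [] (5, 0) (replicate b (5, 0) ++ (4, 0) :: replicate a (5, 0)) 2 (lb_swap h1) rfl)
    rfl (L' := (3, 2) :: (6, 0) :: (replicate b (5, 0) ++ (4, 0) :: replicate (a + 1) (5, 0)))
    (by simp [inc, lb_snoc])
  have ha' : (a : ℤ) = 3 * y + b - 2 := by omega
  rcases b with _ | b
  · obtain ⟨n', hn', h3⟩ := lb_close a 0 (a + 2) (u := (4, 2)) (w := (4, 2)) (by omega) (by omega)
      (lb_mark (3, 2) [(6, 0)] (4, 0) (replicate (a + 1) (5, 0)) h2 rfl ⟨(3, 2), by simp, rfl⟩)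
    obtain rfl : m = n + 1 + (0 + (a + 2) + n') := by
      zify at h hn hn' ⊢
      rw [ha'] at hn hn' ⊢
      push_cast at hn hn' ⊢
      nlinarith
    refine lb_good h3 ?_ lb_sub
    simp only [lb_coe, Multiset.coe_nil]
    module
  · obtain ⟨n', hn', h3⟩ := lb_zip hE b (a + 1) (x := (4, 2)) (y := (4, 2)) (z := (6, 0)) (by omega)
      (lb_mark (3, 2) [(6, 0)] (5, 0) (replicate b (5, 0) ++ (4, 0) :: replicate (a + 1) (5, 0)) h2
        rfl ⟨(3, 2), by simp, rfl⟩)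
    obtain rfl : m = n + 2 + n' := by
      zify at h hn hn' ⊢
      rw [ha'] at hn hn'
      push_cast at hn hn' ⊢
      nlinarith
    refine lb_good h3 ?_ lb_sub
    simp only [lb_coe, Multiset.coe_nil]
    module

end Aux

theorem good_of_norm {m x y : ℕ} (h : m + 7 = x ^ 2 + x * y + y ^ 2) :
    Good ({(4, 1), (4, 1), (4, 2), (4, 2), (4, 3), (4, 3)} + Multiset.replicate m (6, 0))
      {1, 2, 3} := by
  have key : Good (2 • {(4, 1)} + 2 • {(4, 2)} + 2 • {(4, 3)} + m • {(6, 0)}) {1, 2, 3} := by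
    rcases le_total y x with hxy | hxy
    · exact lb_main hxy h
    · exact lb_main hxy (by linarith)
  refine lb_good key ?_ le_rfl
  simp only [Multiset.insert_eq_cons, ← Multiset.singleton_add, ← Multiset.nsmul_singleton]
  module

end Pool.Agent.P.MP_e40812_co
end

-- part Pool.Agent.P.MP_e40812_co.LoMain
section

/-!
The line of face vectors on which realisability is a norm condition.
-/

namespace Pool.Agent.P.MP_e40812_co

open Finset

lemma lm_g1 : Gad 1 1 1 {3} :=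
  (Gad.zero.comp Gad.zero Gad.zero).cast rfl rfl rfl (by simp)

lemma lm_g2 : Gad 2 2 3 {5, 3, 3} :=
  (Gad.zero.comp lm_g1 lm_g1).cast rfl rfl rfl (by decide)

lemma lm_g3 : Gad 3 3 3 {6, 3, 3, 3} :=
  (lm_g1.comp lm_g1 lm_g1).cast rfl rfl rfl (by decide)

lemma lm_ne {τ : ℕ → ℕ} {u w c u' w' c' i j : ℕ} (h1 : τ u = i) (h2 : τ w = i) (h3 : τ u' = j)
    (h4 : τ w' = j) (hij : i ≠ j) (hne : u' ≠ w') : ({u', w', c'} : Finset ℕ) ≠ {u, w, c} := by
  intro e
  have k1 : u' ∈ ({u, w, c} : Finset ℕ) := e ▸ (by simp)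
  have k2 : w' ∈ ({u, w, c} : Finset ℕ) := e ▸ (by simp)
  simp only [mem_insert, mem_singleton] at k1 k2
  rcases k1 with rfl | rfl | rfl
  · exact hij (h1.symm.trans h3)
  · exact hij (h2.symm.trans h3)
  · rcases k2 with rfl | rfl | rfl
    · exact hij (h1.symm.trans h4)
    · exact hij (h2.symm.trans h4)
    · exact hne rfl

lemma lm_pair {V : Finset ℕ} {τ : ℕ → ℕ} {u w i : ℕ} (hc : (V.val.map τ).count i = 2)
    (hu : u ∈ V) (hw : w ∈ V) (h1 : τ u = i) (h2 : τ w = i) (hne : u ≠ w) {v : ℕ} (hv : v ∈ V) :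
    τ v = i ↔ v = u ∨ v = w := by
  refine ⟨fun h => ?_, by rintro (rfl | rfl) <;> assumption⟩
  rw [Multiset.count_map] at hc
  have hc' : (V.filter fun a => i = τ a).card = 2 := hc
  have hs : ({u, w} : Finset ℕ) ⊆ V.filter fun a => i = τ a := by
    simp only [insert_subset_iff, singleton_subset_iff, mem_filter]
    exact ⟨⟨hu, h1.symm⟩, hw, h2.symm⟩
  have e := eq_of_subset_of_card_le hs (by rw [hc', card_pair hne])
  have : v ∈ ({u, w} : Finset ℕ) := e ▸ mem_filter.2 ⟨hv, h.symm⟩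
  simpa using this

lemma lm_e3 {F : Finset (Finset ℕ)} {u w c : ℕ} (t : T F u w c) (v : ℕ) :
    e3 u w c 2 2 3 v + (if v = u ∨ v = w then 1 else 0) =
      3 * (if v ∈ ({u, w, c} : Finset ℕ) then 1 else 0) := by
  have k1 := t.1
  have k2 := t.2.1
  have k3 := t.2.2.1
  simp only [e3, mem_insert, mem_singleton]
  split_ifs <;> omega

lemma lm_out {V : Finset ℕ} {F : Finset (Finset ℕ)} {u w c α β γ v : ℕ} (h : Pre V F)
    (t : T F u w c) (hv : v ∉ V) : e3 u w c α β γ v = 0 := by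
  have k1 : v ≠ u := fun e => hv (e ▸ h.mem t)
  have k2 : v ≠ w := fun e => hv (e ▸ h.mem t.rot)
  have k3 : v ≠ c := fun e => hv (e ▸ h.mem t.rot')
  simp [e3, k1, k2, k3]

lemma lm_deg {F : Finset (Finset ℕ)} {s : Finset ℕ} (hs : s ∈ F) (v : ℕ) :
    deg F v = deg (F.erase s) v + if v ∈ s then 1 else 0 := by
  simp only [deg, card_filter]
  rw [← add_sum_erase F _ hs, add_comm]

theorem geo_of_good {m : ℕ}
    (h : Good ({(4, 1), (4, 1), (4, 2), (4, 2), (4, 3), (4, 3)} + Multiset.replicate m (6, 0))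
      {1, 2, 3}) :
    ∃ (V : Finset ℕ) (F : Finset (Finset ℕ)), Pre V F ∧ Geo V F ∧ V.val.map (deg F) = sl m := by
  obtain ⟨V, F, τ, hp, hg, hμ, hE⟩ := h
  obtain ⟨u1, w1, a1, b1, c1, t1⟩ := hE 1 (by simp)
  obtain ⟨u2, w2, a2, b2, c2, t2⟩ := hE 2 (by simp)
  obtain ⟨u3, w3, a3, b3, c3, t3⟩ := hE 3 (by simp)
  have n21 : ({u2, w2, c2} : Finset ℕ) ≠ {u1, w1, c1} := lm_ne a1 b1 a2 b2 (by omega) t2.1
  have n31 : ({u3, w3, c3} : Finset ℕ) ≠ {u1, w1, c1} := lm_ne a1 b1 a3 b3 (by omega) t3.1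
  have n32 : ({u3, w3, c3} : Finset ℕ) ≠ {u2, w2, c2} := lm_ne a2 b2 a3 b3 (by omega) t3.1
  have hτ : V.val.map τ = {1, 1, 2, 2, 3, 3} + Multiset.replicate m 0 := by
    have := congrArg (Multiset.map Prod.snd) hμ
    rw [Multiset.map_map, Multiset.map_add, Multiset.map_replicate] at this
    exact this
  have hcV : V.card = m + 6 := by
    have := congrArg Multiset.card hτ
    simp only [Multiset.card_map, card_val, Multiset.card_add, Multiset.card_replicate,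
      Multiset.insert_eq_cons, Multiset.card_cons, Multiset.card_singleton] at this
    omega
  have hcF : F.card = 2 * m + 8 := by
    have := hp.card
    omega
  have q1 : (V.val.map τ).count 1 = 2 := by
    rw [hτ, Multiset.count_add, Multiset.count_replicate, if_neg (by omega), add_zero]
    decide
  have q2 : (V.val.map τ).count 2 = 2 := by
    rw [hτ, Multiset.count_add, Multiset.count_replicate, if_neg (by omega), add_zero]
    decide
  have q3 : (V.val.map τ).count 3 = 2 := by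
    rw [hτ, Multiset.count_add, Multiset.count_replicate, if_neg (by omega), add_zero]
    decide
  obtain ⟨V₁, F₁, e₁⟩ := lm_g2 V F u1 w1 c1 hp hg t1
  obtain ⟨V₂, F₂, e₂⟩ := lm_g2 V₁ F₁ u2 w2 c2 e₁.pre e₁.geo
    ⟨t2.1, t2.2.1, t2.2.2.1, e₁.keep _ t2.2.2.2 n21⟩
  have e₁₂ := e₁.trans e₂ fun v hv => lm_out hp t2 hv
  obtain ⟨V₃, F₃, e₃⟩ := lm_g2 V₂ F₂ u3 w3 c3 e₂.pre e₂.geo
    ⟨t3.1, t3.2.1, t3.2.2.1, e₁₂.keep _ t3.2.2.2 (not_or.2 ⟨n31, n32⟩)⟩
  have e₁₃ := e₁₂.trans e₃ fun v hv => lm_out hp t3 hv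
  have m1 := t1.2.2.2
  have m2 : ({u2, w2, c2} : Finset ℕ) ∈ F.erase {u1, w1, c1} := mem_erase.2 ⟨n21, t2.2.2.2⟩
  have m3 : ({u3, w3, c3} : Finset ℕ) ∈ (F.erase {u1, w1, c1}).erase {u2, w2, c2} :=
    mem_erase.2 ⟨n32, mem_erase.2 ⟨n31, t3.2.2.2⟩⟩
  obtain ⟨R, hR⟩ : ∃ R, R = ((F.erase {u1, w1, c1}).erase {u2, w2, c2}).erase {u3, w3, c3} :=
    ⟨_, rfl⟩
  have hRF : ∀ s ∈ R, s ∈ F := fun s hs => by
    rw [hR] at hs
    exact mem_of_mem_erase (mem_of_mem_erase (mem_of_mem_erase hs))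
  have hcR : R.card = 2 * m + 5 := by
    rw [hR, card_erase_of_mem m3, card_erase_of_mem m2, card_erase_of_mem m1, hcF]
    omega
  obtain ⟨V₄, F₄, e₄⟩ := apply_all 3 (Multiset.replicate (2 * m + 5) {6, 3, 3, 3})
    (fun μ hμ => by rw [Multiset.eq_of_mem_replicate hμ]; exact lm_g3) V₃ F₃ R e₃.pre e₃.geo
    (fun s hs => e₁₃.keep s (hRF s hs) (by
      rw [hR] at hs
      simp only [mem_erase] at hs
      tauto))
    (by rw [hcR, Multiset.card_replicate])
  have e := e₁₃.trans e₄ fun v hv => by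
    rw [deg, filter_eq_empty_iff.2 fun s hs k => hv (hp.sub s (hRF s hs) k)]
    simp
  refine ⟨V₄, F₄, e.pre, e.geo, ?_⟩
  have key : V.val.map (fun v => deg F v + (e3 u1 w1 c1 2 2 3 v + e3 u2 w2 c2 2 2 3 v +
      e3 u3 w3 c3 2 2 3 v + 3 * deg R v)) = (V.val.map (fun v => (deg F v, τ v))).map
        fun p => 4 * p.1 - ((if p.2 = 1 then 1 else 0) + (if p.2 = 2 then 1 else 0) +
          if p.2 = 3 then 1 else 0) := by
    rw [Multiset.map_map]
    refine Multiset.map_congr rfl fun v hv => ?_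
    have d1 := lm_deg m1 v
    have d2 := lm_deg m2 v
    have d3 := lm_deg m3 v
    rw [← hR] at d3
    have f1 := lm_e3 t1 v
    have f2 := lm_e3 t2 v
    have f3 := lm_e3 t3 v
    have p1 := lm_pair q1 (hp.mem t1) (hp.mem t1.rot) a1 b1 t1.1 hv
    have p2 := lm_pair q2 (hp.mem t2) (hp.mem t2.rot) a2 b2 t2.1 hv
    have p3 := lm_pair q3 (hp.mem t3) (hp.mem t3.rot) a3 b3 t3.1 hv
    simp only [← p1] at f1
    simp only [← p2] at f2
    simp only [← p3] at f3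
    simp only [Function.comp]
    omega
  rw [e.all, key, hμ, Multiset.map_add, Multiset.map_replicate, Multiset.sum_replicate]
  have s1 : Multiset.map (fun p : ℕ × ℕ => 4 * p.1 - ((if p.2 = 1 then 1 else 0) +
      (if p.2 = 2 then 1 else 0) + if p.2 = 3 then 1 else 0))
      {(4, 1), (4, 1), (4, 2), (4, 2), (4, 3), (4, 3)} = Multiset.replicate 6 15 := by decide
  have s2 : ({6, 3, 3, 3} : Multiset ℕ) = Multiset.replicate 1 6 + Multiset.replicate 3 3 := by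
    decide
  have s3 : ({5, 3, 3} : Multiset ℕ) + {5, 3, 3} + {5, 3, 3} =
      Multiset.replicate 3 5 + Multiset.replicate 6 3 := by decide
  rw [s1, s2, s3, smul_add, Multiset.nsmul_replicate, Multiset.nsmul_replicate, sl,
    show 6 * m + 21 = 6 + (2 * m + 5) * 3 by ring, Multiset.replicate_add 6, mul_one]
  simp only [Nat.reduceMul, OfNat.zero_ne_ofNat, zero_ne_one, if_false, add_zero, tsub_zero]
  abel

lemma lm_nat {n : ℕ} {u v : ℤ} (h : (n : ℤ) = u ^ 2 + u * v + v ^ 2) (hu : 0 ≤ u) (hv : 0 ≤ v) :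
    ∃ a b : ℕ, n = a ^ 2 + a * b + b ^ 2 := by
  lift u to ℕ using hu
  lift v to ℕ using hv
  exact ⟨u, v, by exact_mod_cast h⟩

lemma norm_nat {n : ℕ} {x y : ℤ} (h : 3 * (n : ℤ) = x ^ 2 - x * y + y ^ 2) :
    ∃ a b : ℕ, n = a ^ 2 + a * b + b ^ 2 := by
  have h3 : (3 : ℤ) ∣ (x + y) ^ 2 := ⟨n + x * y, by linear_combination -h⟩
  obtain ⟨c, hc⟩ := Int.prime_three.dvd_of_dvd_pow h3
  obtain ⟨u, hu⟩ : ∃ u, u = x - 2 * c := ⟨_, rfl⟩
  have e : (n : ℤ) = u ^ 2 + u * c + c ^ 2 := by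
    have hy : y = 3 * c - x := by linarith
    subst hy hu
    nlinarith
  rcases le_total 0 u with h1 | h1 <;> rcases le_total 0 c with h2 | h2
  · exact lm_nat e h1 h2
  · rcases le_total 0 (u + c) with k | k
    · exact lm_nat (u := u + c) (v := -c) (by linear_combination e) k (by linarith)
    · exact lm_nat (u := -u - c) (v := u) (by linear_combination e) (by linarith) h1
  · rcases le_total 0 (u + c) with k | k
    · exact lm_nat (u := u + c) (v := -u) (by linear_combination e) k (by linarith)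
    · exact lm_nat (u := -u - c) (v := c) (by linear_combination e) (by linarith) h2
  · exact lm_nat (u := -u) (v := -c) (by linear_combination e) (by linarith) (by linarith)

theorem slice (m : ℕ) : (∃ P, IsPolyhedron P ∧ ∀ n, 3 ≤ n → faceCount P n = (sl m).count n) ↔
    ∃ x y : ℕ, m + 7 = x ^ 2 + x * y + y ^ 2 := by
  classical
  constructor
  · rintro ⟨P, hP, hc⟩
    obtain ⟨V, F, h, hs⟩ := tri_of_poly hP (s := sl m) (by
      intro n hn
      simp only [sl, Multiset.mem_add, Multiset.mem_replicate] at hn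
      omega) hc (by
      simp only [sl, Multiset.sum_add, Multiset.sum_replicate, Multiset.card_add,
        Multiset.card_replicate, smul_eq_mul]
      omega)
    obtain ⟨W, G, K, M, h1, h2, h3⟩ := peel_two h hs
    obtain ⟨x, y, e⟩ := h3.norm h1
    refine norm_nat (x := x) (y := y) ?_
    rw [← e, h2]
    push_cast
    ring
  · rintro ⟨x, y, e⟩
    obtain ⟨V, F, h, g, hs⟩ := geo_of_good (good_of_norm e)
    obtain ⟨P, hP, hc⟩ := poly_of_geo h g
    exact ⟨P, hP, fun n _ => by rw [hc, hs]⟩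

end Pool.Agent.P.MP_e40812_co
end

-- part Pool.Agent.P.MP_e40812_co.LoExp
section

/-!
Explicit sets are eventually periodic along lines; the values of `x² + xy + y²` are not.
-/

namespace Pool.Agent.P.MP_e40812_co

open Filter

theorem le_of_const {P : ℕ → Prop} (h : (∀ᶠ m in atTop, P m) ∨ (∀ᶠ m in atTop, ¬ P m)) :
    ∃ q N : ℕ, 0 < q ∧ ∀ m, N ≤ m → (P (m + q) ↔ P m) := by
  rcases h with h | h
  · obtain ⟨N, hN⟩ := eventually_atTop.1 h
    exact ⟨1, N, one_pos, fun m hm => iff_of_true (hN _ (by omega)) (hN _ hm)⟩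
  · obtain ⟨N, hN⟩ := eventually_atTop.1 h
    exact ⟨1, N, one_pos, fun m hm => iff_of_false (hN _ (by omega)) (hN _ hm)⟩

theorem le_iter {P : ℕ → Prop} {q N : ℕ} (h : ∀ m, N ≤ m → (P (m + q) ↔ P m)) (k : ℕ) :
    ∀ m, N ≤ m → (P (m + k * q) ↔ P m) := by
  induction k with
  | zero => intro m _; simp
  | succ k ih =>
    intro m hm
    have e : m + (k + 1) * q = (m + k * q) + q := by ring
    rw [e, h _ (by omega), ih m hm]

theorem le_sign (g : Polynomial ℝ) :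
    (∀ᶠ m : ℕ in atTop, 0 < g.eval (m : ℝ)) ∨ (∀ᶠ m : ℕ in atTop, ¬ 0 < g.eval (m : ℝ)) := by
  by_cases hd : 0 < g.degree
  · rcases le_total 0 g.leadingCoeff with hl | hl
    · left
      exact ((g.tendsto_atTop_of_leadingCoeff_nonneg hd hl).comp
        tendsto_natCast_atTop_atTop).eventually_gt_atTop 0
    · right
      have := ((g.tendsto_atBot_of_leadingCoeff_nonpos hd hl).comp
        tendsto_natCast_atTop_atTop).eventually_lt_atBot 0
      exact this.mono fun m hm => not_lt.2 (le_of_lt hm)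
  · have hc := Polynomial.eq_C_of_degree_le_zero (not_lt.1 hd)
    rw [hc]
    simp only [Polynomial.eval_C]
    by_cases h0 : 0 < g.coeff 0
    · left; exact Eventually.of_forall fun _ => h0
    · right; exact Eventually.of_forall fun _ => h0

theorem le_poly (f : MvPolynomial (Fin 22) ℝ) (a b : Fin 22 → ℕ) :
    ∃ g : Polynomial ℝ, ∀ m : ℕ,
      MvPolynomial.eval (fun i => ((a + m • b) i : ℝ)) f = g.eval (m : ℝ) := by
  induction f using MvPolynomial.induction_on with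
  | C c => exact ⟨Polynomial.C c, fun m => by simp⟩
  | add p q hp hq =>
    obtain ⟨g, hg⟩ := hp
    obtain ⟨h, hh⟩ := hq
    exact ⟨g + h, fun m => by rw [map_add, hg, hh, Polynomial.eval_add]⟩
  | mul_X p i hp =>
    obtain ⟨g, hg⟩ := hp
    refine ⟨g * (Polynomial.C (a i : ℝ) + Polynomial.X * Polynomial.C (b i : ℝ)), fun m => ?_⟩
    rw [map_mul, hg, Polynomial.eval_mul, MvPolynomial.eval_X]
    simp

theorem le_cong (f : MvPolynomial (Fin 22) ℤ) (q : ℤ) (u v : Fin 22 → ℤ)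
    (h : ∀ i, u i ≡ v i [ZMOD q]) :
    MvPolynomial.eval u f ≡ MvPolynomial.eval v f [ZMOD q] := by
  induction f using MvPolynomial.induction_on with
  | C c => simp only [MvPolynomial.eval_C]; rfl
  | add p r hp hr => rw [map_add, map_add]; exact hp.add hr
  | mul_X p i hp =>
    rw [map_mul, map_mul, MvPolynomial.eval_X, MvPolynomial.eval_X]
    exact hp.mul (h i)

theorem le_convex {C : Set (Fin 22 → ℝ)} (hC : Convex ℝ C) (a b : Fin 22 → ℕ) :
    (∀ᶠ m : ℕ in atTop, (fun i => ((a + m • b) i : ℝ)) ∈ C) ∨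
      (∀ᶠ m : ℕ in atTop, ¬ (fun i => ((a + m • b) i : ℝ)) ∈ C) := by
  set L : ℝ →ᵃ[ℝ] (Fin 22 → ℝ) :=
    AffineMap.lineMap (fun i => (a i : ℝ)) (fun i => (a i : ℝ) + b i) with hL
  have hm : ∀ m : ℕ, (fun i => ((a + m • b) i : ℝ)) = L (m : ℝ) := by
    intro m
    funext i
    simp [hL, AffineMap.lineMap_apply, add_comm]
  have hT : (L ⁻¹' C).OrdConnected := (hC.affine_preimage L).ordConnected
  simp only [hm]
  by_cases h : ∀ᶠ m : ℕ in atTop, ¬ L (m : ℝ) ∈ C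
  · exact Or.inr h
  · left
    rw [not_eventually] at h
    simp only [not_not] at h
    obtain ⟨m0, h0⟩ := h.exists
    refine eventually_atTop.2 ⟨m0, fun m hm0 => ?_⟩
    obtain ⟨m1, h1, h2⟩ := frequently_atTop.1 h m
    exact hT.out h0 h2 ⟨by exact_mod_cast hm0, by exact_mod_cast h1⟩

theorem le_semi {S : Set (Fin 22 → ℕ)} (hS : IsSemilinearSet S) (a b : Fin 22 → ℕ) :
    IsSemilinearSet {m : ℕ | a + m • b ∈ S} := by
  let φ : (Fin 2 → ℕ) →+ (Fin 22 → ℕ) :=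
    { toFun := fun x => x 0 • a + x 1 • b
      map_zero' := by simp
      map_add' := fun x y => by
        simp only [Pi.add_apply, add_smul]
        abel }
  have h1 : IsSemilinearSet (φ ⁻¹' S) := hS.preimage φ
  have h2 : IsSemilinearSet {x : Fin 2 → ℕ | 0 + Pi.evalAddMonoidHom (fun _ => ℕ) 0 x =
      1 + (0 : (Fin 2 → ℕ) →+ ℕ) x} := isSemilinearSet_setOfPred_eq 0 1 _ _
  have h3 := (h1.inter h2).image (Pi.evalAddMonoidHom (fun _ : Fin 2 => ℕ) 1)
  have e : {m : ℕ | a + m • b ∈ S} = (Pi.evalAddMonoidHom (fun _ : Fin 2 => ℕ) 1) ''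
      (φ ⁻¹' S ∩ {x : Fin 2 → ℕ | 0 + Pi.evalAddMonoidHom (fun _ => ℕ) 0 x =
      1 + (0 : (Fin 2 → ℕ) →+ ℕ) x}) := by
    ext m
    constructor
    · intro hm
      refine ⟨![1, m], ⟨?_, ?_⟩, ?_⟩
      · show (1 : ℕ) • a + m • b ∈ S
        rw [one_smul]; exact hm
      · simp
      · simp
    · rintro ⟨x, ⟨hx1, hx2⟩, rfl⟩
      have h0 : x 0 = 1 := by simpa using hx2
      have h4 : x 0 • a + x 1 • b ∈ S := hx1
      rw [h0, one_smul] at h4
      exact h4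
  rw [e]
  exact h3

theorem Explicit.periodic {S : Set (Fin 22 → ℕ)} (h : Explicit S) (a b : Fin 22 → ℕ) :
    ∃ q N : ℕ, 0 < q ∧ ∀ m, N ≤ m → (a + (m + q) • b ∈ S ↔ a + m • b ∈ S) := by
  induction h with
  | poly f =>
    obtain ⟨g, hg⟩ := le_poly f a b
    refine le_of_const (P := fun m => a + m • b ∈
      {p : Fin 22 → ℕ | 0 < MvPolynomial.eval (fun i => (p i : ℝ)) f}) ?_
    simp only [Set.mem_ofPred_eq, hg]
    exact le_sign g
  | cong f q hq =>
    refine ⟨q, 0, hq, fun m _ => ?_⟩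
    have h := le_cong f q (fun i => ((a + (m + q) • b) i : ℤ)) (fun i => ((a + m • b) i : ℤ))
      (fun i => by
        refine (Int.modEq_iff_dvd.2 ⟨b i, ?_⟩).symm
        simp only [Pi.add_apply, Pi.smul_apply, smul_eq_mul]
        push_cast
        ring)
    simp only [Set.mem_ofPred_eq]
    exact ⟨fun h1 => Int.modEq_zero_iff_dvd.1 (h.symm.trans (Int.modEq_zero_iff_dvd.2 h1)),
      fun h1 => Int.modEq_zero_iff_dvd.1 (h.trans (Int.modEq_zero_iff_dvd.2 h1))⟩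
  | convex C hC =>
    exact le_of_const (P := fun m => a + m • b ∈
      {p : Fin 22 → ℕ | (fun i => (p i : ℝ)) ∈ C}) (le_convex hC a b)
  | semilinear S hS =>
    obtain ⟨k, p, hp, h⟩ := Nat.isSemilinearSet_iff_ultimately_periodic.1 (le_semi hS a b)
    exact ⟨p, k, hp, fun m hm => (h m hm).symm⟩
  | compl _ ih =>
    obtain ⟨q, N, hq, h⟩ := ih
    exact ⟨q, N, hq, fun m hm => not_congr (h m hm)⟩
  | @inter S S' _ _ ih ih' =>
    obtain ⟨q, N, hq, h⟩ := ih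
    obtain ⟨q', N', hq', h'⟩ := ih'
    refine ⟨q' * q, max N N', Nat.mul_pos hq' hq, fun m hm => and_congr ?_ ?_⟩
    · exact le_iter (P := fun m => a + m • b ∈ S) h q' m (le_trans (le_max_left _ _) hm)
    · rw [mul_comm q' q]
      exact le_iter (P := fun m => a + m • b ∈ S') h' q m (le_trans (le_max_right _ _) hm)

theorem le_not_norm (j : ℕ) : ∀ q : ℕ, 0 < q → ∀ x y : ℕ,
    q ^ 2 * (3 * j + 2) ≠ x ^ 2 + x * y + y ^ 2 := by
  intro q
  induction q using Nat.strong_induction_on with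
  | _ q ih =>
    intro hq x y h
    obtain ⟨c, t, ht, rfl⟩ : ∃ c t, t < 3 ∧ q = 3 * c + t :=
      ⟨q / 3, q % 3, Nat.mod_lt _ (by norm_num), by omega⟩
    obtain ⟨a, r, hr, rfl⟩ : ∃ a r, r < 3 ∧ x = 3 * a + r :=
      ⟨x / 3, x % 3, Nat.mod_lt _ (by norm_num), by omega⟩
    obtain ⟨b, s, hs, rfl⟩ : ∃ b s, s < 3 ∧ y = 3 * b + s :=
      ⟨y / 3, y % 3, Nat.mod_lt _ (by norm_num), by omega⟩
    have e1 : (3 * c + t) ^ 2 * (3 * j + 2) =
        9 * (c ^ 2 * (3 * j + 2)) + 3 * (2 * t * (c * (3 * j + 2))) + t * t * (3 * j + 2) := by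
      ring
    have e2 : (3 * a + r) ^ 2 + (3 * a + r) * (3 * b + s) + (3 * b + s) ^ 2 =
        9 * (a ^ 2 + a * b + b ^ 2) + (6 * r + 3 * s) * a + (3 * r + 6 * s) * b
          + (r * r + r * s + s * s) := by ring
    rw [e1, e2] at h
    have key : t = 0 → r = 0 → s = 0 → False := by
      rintro rfl rfl rfl
      refine ih c (by omega) (by omega) a b ?_
      omega
    generalize c ^ 2 * (3 * j + 2) = u at h
    generalize c * (3 * j + 2) = v at h
    generalize a ^ 2 + a * b + b ^ 2 = w at h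
    interval_cases t <;> interval_cases r <;> interval_cases s <;>
      first | exact key rfl rfl rfl | omega

theorem norm_not_periodic : ¬ ∃ q N : ℕ, 0 < q ∧ ∀ m, N ≤ m →
    ((∃ x y : ℕ, m + q + 7 = x ^ 2 + x * y + y ^ 2) ↔ ∃ x y : ℕ, m + 7 = x ^ 2 + x * y + y ^ 2) := by
  rintro ⟨q, N, hq, h⟩
  have hK : N + 7 ≤ ((N + 7) * q) ^ 2 := by
    have h1 : N + 7 ≤ (N + 7) * q := Nat.le_mul_of_pos_right _ hq
    nlinarith
  obtain ⟨m, hm⟩ : ∃ m, ((N + 7) * q) ^ 2 = m + 7 := ⟨((N + 7) * q) ^ 2 - 7, by omega⟩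
  have h2 := (le_iter (P := fun m => ∃ x y : ℕ, m + 7 = x ^ 2 + x * y + y ^ 2) h
    (q * (2 * (N + 7) ^ 2 + 2)) m (by omega)).2 ⟨(N + 7) * q, 0, by rw [← hm]; ring⟩
  obtain ⟨x, y, hxy⟩ := h2
  refine le_not_norm ((N + 7) ^ 2) q hq x y ?_
  rw [← hxy]
  have e : q ^ 2 * (3 * (N + 7) ^ 2 + 2) =
      ((N + 7) * q) ^ 2 + q * (2 * (N + 7) ^ 2 + 2) * q := by ring
  rw [e, hm]
  ring

end Pool.Agent.P.MP_e40812_co
end

-- part Pool.Agent.P.MP_e40812_co.LoNo
section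

/-!
The face vectors of convex polyhedra with at most 24-sided faces do not form an explicit set.
-/

namespace Pool.Agent.P.MP_e40812_co

lemma mem_real24 (m : ℕ) : (fun i : Fin 22 => (sl 0).count (i + 3 : ℕ)) +
    m • (fun i : Fin 22 => (Multiset.replicate 6 3 + Multiset.replicate 2 6 + {24} :
      Multiset ℕ).count (i + 3 : ℕ)) ∈ Real24 ↔ ∃ x y : ℕ, m + 7 = x ^ 2 + x * y + y ^ 2 := by
  have e : ∀ n, (sl m).count n = (sl 0).count n +
      m * (Multiset.replicate 6 3 + Multiset.replicate 2 6 + {24} : Multiset ℕ).count n := by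
    intro n
    simp only [sl, Multiset.count_add, Multiset.count_replicate, Multiset.count_singleton]
    split_ifs <;> omega
  have z : ∀ n, 24 < n → (sl m).count n = 0 := by
    intro n hn
    simp only [sl, Multiset.count_add, Multiset.count_replicate]
    split_ifs <;> omega
  rw [← slice]
  refine exists_congr fun P => and_congr_right fun _ => ⟨fun h n hn => ?_, fun h => ⟨?_, ?_⟩⟩
  · by_cases k : 24 < n
    · rw [h.2 n k, z n k]
    · have := h.1 ⟨n - 3, by omega⟩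
      simp only [Pi.add_apply, Pi.smul_apply, smul_eq_mul, Nat.sub_add_cancel hn] at this
      rw [this, e]
  · intro i
    simp only [Pi.add_apply, Pi.smul_apply, smul_eq_mul]
    rw [h _ (by omega), e]
  · intro n hn
    rw [h n (by omega), z n hn]

theorem not_explicit : ¬ Explicit Real24 := by
  intro h
  obtain ⟨q, N, hq, h⟩ := h.periodic (fun i : Fin 22 => (sl 0).count (i + 3 : ℕ))
    (fun i : Fin 22 => (Multiset.replicate 6 3 + Multiset.replicate 2 6 + {24} :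
      Multiset ℕ).count (i + 3 : ℕ))
  refine norm_not_periodic ⟨q, N, hq, fun m hm => ?_⟩
  rw [← mem_real24, ← mem_real24]
  exact h m hm

end Pool.Agent.P.MP_e40812_co
end
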